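import Mathlib

set_option autoImplicit false

namespace DbarN

section
variable {H0 H1 H2 : Type*} [NormedAddCommGroup H0] [InnerProductSpace ℂ H0] [CompleteSpace H0]
  [NormedAddCommGroup H1] [InnerProductSpace ℂ H1] [CompleteSpace H1]
  [NormedAddCommGroup H2] [InnerProductSpace ℂ H2] [CompleteSpace H2]

/-- Adjoint relation of a graph. -/
def AdjR (T : Submodule ℂ (H0 × H1)) (u : H1) (f : H0) : Prop :=
  ∀ p ∈ T, inner ℂ p.2 u = inner ℂ p.1 f

/-- The Laplacian relation `T T* + S* S`. -/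
def BoxR (T : Submodule ℂ (H0 × H1)) (S : Submodule ℂ (H1 × H2)) (u w : H1) : Prop :=
  ∃ (f : H0) (c : H2) (g₁ g₂ : H1), AdjR T u f ∧ (u, c) ∈ S ∧ (f, g₁) ∈ T ∧ AdjR S c g₂ ∧
    w = g₁ + g₂

/-- Spectrum of a relation. -/
def specR (B : H1 → H1 → Prop) : Set ℂ :=
  {μ | ¬ ∃ R : H1 →L[ℂ] H1, (∀ v, B (R v) (v + μ • R v)) ∧
    (∀ u w, B u w → R (w - μ • u) = u)}

end

end DbarN
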