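import Mathlib
import Pool.Agent.H314.DN.AbsDefs

set_option autoImplicit false

namespace DbarN.JA0

section
variable {H0 H1 H2 : Type*} [NormedAddCommGroup H0] [InnerProductSpace ℂ H0] [CompleteSpace H0]
  [NormedAddCommGroup H1] [InnerProductSpace ℂ H1] [CompleteSpace H1]
  [NormedAddCommGroup H2] [InnerProductSpace ℂ H2] [CompleteSpace H2]



omit [CompleteSpace H0] [CompleteSpace H1] in
theorem biadj [CompleteSpace H0] [CompleteSpace H1] (T : Submodule ℂ (H0 × H1))
    (hTc : IsClosed (T : Set (H0 × H1))) (f : H0) (g : H1)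
    (h : ∀ u f', AdjR T u f' → inner ℂ u g = inner ℂ f' f) : (f, g) ∈ T := by
  let K : Submodule ℂ (WithLp 2 (H0 × H1)) :=
    T.comap (WithLp.linearEquiv 2 ℂ (H0 × H1)).toLinearMap
  have hKc : IsClosed (K : Set (WithLp 2 (H0 × H1))) :=
    hTc.preimage (WithLp.prod_continuous_ofLp 2 H0 H1)
  have hKcomp : CompleteSpace K := hKc.completeSpace_coe
  have hx : WithLp.toLp 2 (f, g) ∈ Kᗮᗮ := by
    rw [Submodule.mem_orthogonal]
    intro y hy
    rw [Submodule.mem_orthogonal] at hy
    have h1 : AdjR T y.snd (-y.fst) := by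
      intro p hp
      have h2 := hy (WithLp.toLp 2 p) hp
      rw [WithLp.prod_inner_apply] at h2
      rw [inner_neg_right]
      exact eq_neg_of_add_eq_zero_right h2
    have h2 := h _ _ h1
    rw [inner_neg_left] at h2
    rw [WithLp.prod_inner_apply]
    change inner ℂ y.fst f + inner ℂ y.snd g = 0
    rw [h2]
    ring
  rw [Submodule.orthogonal_orthogonal] at hx
  exact hx

end

end DbarN.JA0
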