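import Mathlib
import Pool.Agent.H314.DN.AbsDefs

set_option autoImplicit false

namespace DbarN.JA1

section
variable {H0 H1 H2 : Type*} [NormedAddCommGroup H0] [InnerProductSpace ℂ H0] [CompleteSpace H0]
  [NormedAddCommGroup H1] [InnerProductSpace ℂ H1] [CompleteSpace H1]
  [NormedAddCommGroup H2] [InnerProductSpace ℂ H2] [CompleteSpace H2]



theorem solve_of_apriori (T : Submodule ℂ (H0 × H1)) (S : Submodule ℂ (H1 × H2))
    (hSc : IsClosed (S : Set (H1 × H2)))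
    (hbi : ∀ (f : H0) (g : H1), (∀ u f', AdjR T u f' → inner ℂ u g = inner ℂ f' f) → (f, g) ∈ T)
    (hST : ∀ f g, (f, g) ∈ T → (g, (0 : H2)) ∈ S)
    (c : ℝ) (hc : 0 < c)
    (hap : ∀ u f ρ, AdjR T u f → (u, ρ) ∈ S → c * ‖u‖ ^ 2 ≤ ‖f‖ ^ 2 + ‖ρ‖ ^ 2)
    (g : H1) (ρ : H2) (hg : (g, ρ) ∈ S) :
    ∃ f g₁, (f, g₁) ∈ T ∧ c * ‖f‖ ^ 2 ≤ ‖g‖ ^ 2 ∧ c * ‖g - g₁‖ ^ 2 ≤ ‖ρ‖ ^ 2 := by
  classical
  let K : Submodule ℂ H1 := S.comap (LinearMap.inl ℂ H1 H2)
  have hKmem : ∀ u : H1, u ∈ K ↔ (u, (0:H2)) ∈ S := fun u => Iff.rfl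
  have hKc : IsClosed (K : Set H1) := by
    have hcont : Continuous (fun u : H1 => (u, (0:H2))) := by fun_prop
    exact hSc.preimage hcont
  haveI : CompleteSpace K := hKc.completeSpace_coe
  -- AdjR algebra
  have hadd : ∀ u u' f f', AdjR T u f → AdjR T u' f' → AdjR T (u + u') (f + f') := by
    intro u u' f f' h h' p hp
    rw [inner_add_right, inner_add_right, h p hp, h' p hp]
  have hsub : ∀ u u' f f', AdjR T u f → AdjR T u' f' → AdjR T (u - u') (f - f') := by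
    intro u u' f f' h h' p hp
    rw [inner_sub_right, inner_sub_right, h p hp, h' p hp]
  have hsmul : ∀ (a : ℂ) u f, AdjR T u f → AdjR T (a • u) (a • f) := by
    intro a u f h p hp
    rw [inner_smul_right, inner_smul_right, h p hp]
  have hzero : ∀ v, v ∈ Kᗮ → AdjR T v 0 := by
    intro v hv p hp
    have hpK : p.2 ∈ K := (hKmem _).2 (hST p.1 p.2 hp)
    rw [inner_zero_right]
    exact (Submodule.mem_orthogonal K v).1 hv p.2 hpK
  set g₁ : H1 := K.starProjection g with hg₁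
  have hg₁K : g₁ ∈ K := Submodule.starProjection_apply_mem K g
  have hperp : ∀ u : H1, u - K.starProjection u ∈ Kᗮ := fun u =>
    Submodule.sub_starProjection_mem_orthogonal u
  -- estimate for the projected vector
  have hest : ∀ u f', AdjR T u f' → c * ‖K.starProjection u‖ ^ 2 ≤ ‖f'‖ ^ 2 := by
    intro u f' h
    have h1 : AdjR T (K.starProjection u) f' := by
      have := hsub _ _ _ _ h (hzero _ (hperp u))
      rwa [sub_sub_cancel, sub_zero] at this
    have h2 : (K.starProjection u, (0:H2)) ∈ S :=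
      (hKmem _).1 (Submodule.starProjection_apply_mem K u)
    have h3 := hap _ _ _ h1 h2
    simpa using h3
  have hinn : ∀ u : H1, inner ℂ g₁ u = inner ℂ g₁ (K.starProjection u) := by
    intro u
    have h1 : inner ℂ g₁ (u - K.starProjection u) = 0 :=
      (Submodule.mem_orthogonal K _).1 (hperp u) g₁ hg₁K
    rw [inner_sub_right, sub_eq_zero] at h1
    exact h1
  have hsc : 0 < Real.sqrt c := Real.sqrt_pos.2 hc
  have hbd : ∀ u f', AdjR T u f' → ‖(inner ℂ g₁ u : ℂ)‖ ≤ (‖g₁‖ / Real.sqrt c) * ‖f'‖ := by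
    intro u f' h
    rw [hinn u]
    have h1 := hest u f' h
    have h2 : Real.sqrt c * ‖K.starProjection u‖ ≤ ‖f'‖ := by
      have h3 : (Real.sqrt c * ‖K.starProjection u‖) ^ 2 ≤ ‖f'‖ ^ 2 := by
        rw [mul_pow, Real.sq_sqrt hc.le]; exact h1
      exact le_of_sq_le_sq h3 (norm_nonneg _)
    calc ‖(inner ℂ g₁ (K.starProjection u) : ℂ)‖ ≤ ‖g₁‖ * ‖K.starProjection u‖ :=
          norm_inner_le_norm _ _
      _ = (‖g₁‖ / Real.sqrt c) * (Real.sqrt c * ‖K.starProjection u‖) := by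
          field_simp
      _ ≤ (‖g₁‖ / Real.sqrt c) * ‖f'‖ := by
          apply mul_le_mul_of_nonneg_left h2
          positivity
  have hwd : ∀ u u' f', AdjR T u f' → AdjR T u' f' → (inner ℂ g₁ u : ℂ) = inner ℂ g₁ u' := by
    intro u u' f' h h'
    have h1 := hsub _ _ _ _ h h'
    rw [sub_self] at h1
    have h2 := hbd _ _ h1
    rw [norm_zero, mul_zero] at h2
    have h3 : (inner ℂ g₁ (u - u') : ℂ) = 0 := norm_le_zero_iff.1 h2
    rw [inner_sub_right, sub_eq_zero] at h3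
    exact h3
  let D : Submodule ℂ H0 :=
    { carrier := {f' | ∃ u, AdjR T u f'}
      add_mem' := by
        rintro a b ⟨u, hu⟩ ⟨v, hv⟩
        exact ⟨u + v, hadd _ _ _ _ hu hv⟩
      zero_mem' := ⟨0, fun p _ => by simp⟩
      smul_mem' := by
        rintro a f ⟨u, hu⟩
        exact ⟨a • u, hsmul a _ _ hu⟩ }
  have hch : ∀ x : D, ∃ u, AdjR T u (x : H0) := fun x => x.2
  choose U hU using hch
  let φ0 : D →ₗ[ℂ] ℂ :=
    { toFun := fun x => inner ℂ g₁ (U x)
      map_add' := by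
        intro x y
        have h1 : AdjR T (U x + U y) ((x + y : D) : H0) := by
          have := hadd _ _ _ _ (hU x) (hU y)
          simpa using this
        rw [hwd _ _ _ (hU (x + y)) h1, inner_add_right]
      map_smul' := by
        intro a x
        have h1 : AdjR T (a • U x) ((a • x : D) : H0) := by
          have := hsmul a _ _ (hU x)
          simpa using this
        rw [hwd _ _ _ (hU (a • x)) h1, inner_smul_right]
        simp }
  have hφ0 : ∀ x : D, ‖φ0 x‖ ≤ (‖g₁‖ / Real.sqrt c) * ‖x‖ := fun x => hbd _ _ (hU x)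
  let φ : D →L[ℂ] ℂ := φ0.mkContinuous _ hφ0
  have hφn : ‖φ‖ ≤ ‖g₁‖ / Real.sqrt c := LinearMap.mkContinuous_norm_le φ0 (by positivity) hφ0
  obtain ⟨ψ, hψ, hψn⟩ := exists_extension_norm_eq D φ
  let f : H0 := (InnerProductSpace.toDual ℂ H0).symm ψ
  have hfn : ‖f‖ = ‖ψ‖ := (InnerProductSpace.toDual ℂ H0).symm.norm_map ψ
  have hff : ∀ x, inner ℂ f x = ψ x := fun x => InnerProductSpace.toDual_symm_apply
  have hnf : ‖f‖ ≤ ‖g₁‖ / Real.sqrt c := by rw [hfn, hψn]; exact hφn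
  have hng : ‖g₁‖ ≤ ‖g‖ := Submodule.norm_starProjection_apply_le K g
  refine ⟨f, g₁, ?_, ?_, ?_⟩
  · apply hbi
    intro u f' h
    have h1 : (inner ℂ f f' : ℂ) = inner ℂ g₁ u := by
      rw [hff]
      have h2 := hψ ⟨f', ⟨u, h⟩⟩
      have h3 : φ ⟨f', ⟨u, h⟩⟩ = inner ℂ g₁ (U ⟨f', ⟨u, h⟩⟩) := rfl
      rw [h3] at h2
      rw [hwd _ _ _ h (hU ⟨f', ⟨u, h⟩⟩)]
      exact h2
    rw [← inner_conj_symm u g₁, ← inner_conj_symm f' f, h1]
  · have h1 : ‖f‖ * Real.sqrt c ≤ ‖g₁‖ := by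
      rwa [le_div_iff₀ hsc] at hnf
    have h2 : (‖f‖ * Real.sqrt c) ^ 2 ≤ ‖g‖ ^ 2 := by
      apply pow_le_pow_left₀ (by positivity) (h1.trans hng)
    rw [mul_pow, Real.sq_sqrt hc.le] at h2
    linarith
  · have h1 : (g - g₁, ρ) ∈ S := by
      have h2 : (g₁, (0:H2)) ∈ S := (hKmem _).1 hg₁K
      have h3 := S.sub_mem hg h2
      simpa using h3
    have h4 := hap _ _ _ (hzero _ (hperp g)) h1
    simpa using h4

end

end DbarN.JA1
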