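import Pool.Agent.H314.DN.Stmts
import Pool.Agent.H314.DN.A0
import Pool.Agent.H314.DN.A1

set_option autoImplicit false

open MeasureTheory Complex Filter Topology
open scoped ContDiff InnerProductSpace ENNReal ComplexConjugate

namespace DbarN.JG0

theorem J17222_pairing (Ω : Set E3) (ψ : E3 → ℂ) (hc : Continuous ψ) (hs : HasCompactSupport ψ) :
    ∃ L : L2 Ω →L[ℂ] ℂ, ∀ f : L2 Ω, L f = ∫ x in Ω, f x * ψ x := by
  have hc' : Continuous (fun x => conj (ψ x)) := continuous_conj.comp hc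
  have hs' : HasCompactSupport (fun x => conj (ψ x)) := hs.comp_left (g := conj) (map_zero _)
  have hm : MemLp (fun x => conj (ψ x)) 2 ((volume : Measure E3).restrict Ω) :=
    (hc'.memLp_of_hasCompactSupport (p := 2) (μ := (volume : Measure E3)) hs').restrict Ω
  refine ⟨innerSL ℂ hm.toLp, ?_⟩
  intro f
  rw [innerSL_apply_apply, L2.inner_def]
  apply integral_congr_ae
  filter_upwards [hm.coeFn_toLp] with x hx
  rw [hx]
  simp [mul_comm]

theorem J17222_cont_dbar (j : Fin 3) (φ : E3 → ℂ) (h : ContDiff ℝ ∞ φ) : Continuous (dbar j φ) := by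
  have h1 : Continuous (fderiv ℝ φ) := h.continuous_fderiv (by simp)
  unfold dbar
  fun_prop

theorem J17222_supp_dbar (j : Fin 3) (φ : E3 → ℂ) (h : HasCompactSupport φ) :
    HasCompactSupport (dbar j φ) := by
  have h1 : HasCompactSupport (fderiv ℝ φ) := h.fderiv ℝ
  refine h1.mono ?_
  intro x hx
  contrapose! hx
  simp only [Function.mem_support, not_not] at hx ⊢
  unfold dbar
  rw [hx]
  simp

/-- the graph of the weak `∂̄` on functions is a closed subspace -/
theorem graph0 (Ω : Set E3) (hΩ : IsOpen Ω) : ∃ T : Submodule ℂ (L2 Ω × Form Ω),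
    (∀ f g, (f, g) ∈ T ↔ IsDbar0 Ω f g) ∧ IsClosed (T : Set (L2 Ω × Form Ω)) := by
  have key : ∀ (j : Fin 3) (φ : {φ : E3 → ℂ // IsTest Ω φ}), ∃ M : (L2 Ω × Form Ω) →L[ℂ] ℂ,
      ∀ f g, M (f, g) = (∫ x in Ω, f x * dbar j φ.1 x) + ∫ x in Ω, g j x * φ.1 x := by
    intro j φ
    obtain ⟨L1, h1⟩ := J17222_pairing Ω (dbar j φ.1) (J17222_cont_dbar j _ φ.2.smooth)
      (J17222_supp_dbar j _ φ.2.compact)
    obtain ⟨L2', h2⟩ := J17222_pairing Ω φ.1 φ.2.smooth.continuous φ.2.compact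
    refine ⟨L1.comp (ContinuousLinearMap.fst ℂ _ _) + (L2'.comp (PiLp.proj 2 (fun _ : Fin 3 => L2 Ω) j)).comp
      (ContinuousLinearMap.snd ℂ _ _), ?_⟩
    intro f g
    simp [h1, h2]
  choose M hM using key
  refine ⟨⨅ j, ⨅ φ, LinearMap.ker (M j φ).toLinearMap, ?_, ?_⟩
  · intro f g
    simp only [Submodule.mem_iInf, LinearMap.mem_ker]
    constructor
    · intro h j φ hφ
      have := h j ⟨φ, hφ⟩
      have h3 := hM j ⟨φ, hφ⟩ f g
      rw [ContinuousLinearMap.coe_coe] at this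
      rw [this] at h3
      exact eq_neg_of_add_eq_zero_left h3.symm
    · intro h j φ
      rw [ContinuousLinearMap.coe_coe, hM, h j φ.1 φ.2]
      ring
  · rw [Submodule.coe_iInf]
    apply isClosed_iInter
    intro j
    rw [Submodule.coe_iInf]
    apply isClosed_iInter
    intro φ
    exact (M j φ).isClosed_ker

end DbarN.JG0
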