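import Pool.Agent.H314.DN.Stmts
import Pool.Agent.H314.DN.A0
import Pool.Agent.H314.DN.A1

set_option autoImplicit false

open MeasureTheory Complex Filter Topology
open scoped ContDiff InnerProductSpace ENNReal ComplexConjugate

namespace DbarN.JG4

theorem isTest_dbar_aux {Ω : Set E3} {φ : E3 → ℂ} (h : IsTest Ω φ) (j : Fin 3) :
    IsTest Ω (dbar j φ) := by
  have hsub : tsupport (dbar j φ) ⊆ tsupport φ := by
    refine closure_minimal ?_ (isClosed_tsupport φ)
    intro x hx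
    by_contra hcon
    apply hx
    unfold dbar
    rw [fderiv_of_notMem_tsupport (𝕜 := ℝ) hcon]
    simp
  refine ⟨?_, ?_, hsub.trans h.supp⟩
  · unfold dbar
    have h1 : ContDiff ℝ ∞ (fderiv ℝ φ) := h.smooth.fderiv_right (by simp)
    exact contDiff_const.mul ((h1.clm_apply contDiff_const).add
      (contDiff_const.mul (h1.clm_apply contDiff_const)))
  · exact h.compact.of_isClosed_subset (isClosed_tsupport _) hsub

theorem dbar_comm_aux {φ : E3 → ℂ} (h : ContDiff ℝ ∞ φ) (j k : Fin 3) (x : E3) :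
    dbar j (dbar k φ) x = dbar k (dbar j φ) x := by
  have h1 : ContDiff ℝ ∞ (fderiv ℝ φ) := h.fderiv_right (by simp)
  have hd : DifferentiableAt ℝ (fderiv ℝ φ) x := (h1.differentiable (by simp)) x
  have key : ∀ (l : Fin 3) (v : E3), fderiv ℝ (dbar l φ) x v =
      (1 / 2) * (fderiv ℝ (fderiv ℝ φ) x v (Pi.single l 1) +
        I * fderiv ℝ (fderiv ℝ φ) x v (Pi.single l I)) := by
    intro l v
    have e : HasFDerivAt (dbar l φ) ((1 / 2 : ℂ) •
        (((fderiv ℝ (fderiv ℝ φ) x).flip (Pi.single l 1)) +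
          I • ((fderiv ℝ (fderiv ℝ φ) x).flip (Pi.single l I)))) x := by
      have h2 := hd.hasFDerivAt
      have h3 : ∀ w : E3, HasFDerivAt (fun y => fderiv ℝ φ y w)
          ((fderiv ℝ (fderiv ℝ φ) x).flip w) x := by
        intro w
        have := h2.clm_apply (hasFDerivAt_const w x)
        refine this.congr_fderiv ?_
        ext v
        simp
      exact ((h3 _).add ((h3 _).const_mul I)).const_mul (1 / 2 : ℂ)
    rw [e.fderiv]
    simp [smul_eq_mul]
    ring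
  have hsymm : IsSymmSndFDerivAt ℝ φ x := by
    apply ContDiffAt.isSymmSndFDerivAt (n := ∞) h.contDiffAt
    rw [minSmoothness_of_isRCLikeNormedField]
    show ((2 : ℕ∞) : WithTop ℕ∞) ≤ ((⊤ : ℕ∞) : WithTop ℕ∞)
    exact WithTop.coe_le_coe.2 le_top
  have hs : ∀ v w : E3, fderiv ℝ (fderiv ℝ φ) x v w = fderiv ℝ (fderiv ℝ φ) x w v :=
    fun v w => hsymm v w
  have hu : ∀ (l : Fin 3) (ψ : E3 → ℂ), dbar l ψ x =
      (1 / 2) * (fderiv ℝ ψ x (Pi.single l 1) + I * fderiv ℝ ψ x (Pi.single l I)) := fun _ _ => rfl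
  rw [hu j, hu k, key, key, key, key, hs (Pi.single j 1) (Pi.single k 1),
    hs (Pi.single j 1) (Pi.single k I), hs (Pi.single j I) (Pi.single k 1),
    hs (Pi.single j I) (Pi.single k I)]
  ring

theorem integrable_aux {Ω : Set E3} (f : L2 Ω) {ψ : E3 → ℂ} (h : IsTest Ω ψ) :
    Integrable (fun x => f x * ψ x) ((volume : Measure E3).restrict Ω) := by
  have h1 : MemLp f 2 ((volume : Measure E3).restrict Ω) := Lp.memLp f
  have h2 : MemLp ψ 2 ((volume : Measure E3).restrict Ω) :=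
    h.smooth.continuous.memLp_of_hasCompactSupport h.compact
  exact h1.integrable_mul h2

/-- `∂̄ ∂̄ = 0` for the weak operators -/
theorem dbar_dbar (Ω : Set E3) (hΩ : IsOpen Ω) (f : L2 Ω) (g : Form Ω) (h : IsDbar0 Ω f g) :
    IsDbar1 Ω g 0 := by
  intro i φ hφ
  have h1 := h (i + 2) _ (isTest_dbar_aux hφ (i + 1))
  have h2 := h (i + 1) _ (isTest_dbar_aux hφ (i + 2))
  have h3 : (fun x => f x * dbar (i + 2) (dbar (i + 1) φ) x) =
      fun x => f x * dbar (i + 1) (dbar (i + 2) φ) x := by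
    funext x
    rw [dbar_comm_aux hφ.smooth]
  rw [h3, h2] at h1
  have h0 : ∫ x in Ω, (0 : Form Ω) i x * φ x = 0 := by
    apply integral_eq_zero_of_ae
    have : (((0 : Form Ω) i : L2 Ω) : E3 → ℂ) =ᵐ[(volume : Measure E3).restrict Ω] 0 :=
      Lp.coeFn_zero ℂ 2 _
    filter_upwards [this] with x hx
    rw [hx]
    simp
  rw [h0, neg_zero, integral_sub (integrable_aux _ (isTest_dbar_aux hφ _))
    (integrable_aux _ (isTest_dbar_aux hφ _))]
  linear_combination h1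

/-- the weak `∂̄` of a `(0,1)`-form is (weakly) closed -/
theorem dbar_dbar1 (Ω : Set E3) (hΩ : IsOpen Ω) (u c : Form Ω) (h : IsDbar1 Ω u c) :
    ∀ φ, IsTest Ω φ → ∫ x in Ω, ∑ i : Fin 3, c i x * dbar i φ x = 0 := by
  intro φ hφ
  have hT : ∀ j k : Fin 3, IsTest Ω (dbar j (dbar k φ)) := fun j k =>
    isTest_dbar_aux (isTest_dbar_aux hφ k) j
  have hI : ∀ i j k : Fin 3, Integrable (fun x => u i x * dbar j (dbar k φ) x)
      ((volume : Measure E3).restrict Ω) := fun i j k => integrable_aux _ (hT j k)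
  have h0 : ∫ x in Ω, (u 2 x * dbar 1 (dbar 0 φ) x - u 1 x * dbar 2 (dbar 0 φ) x) =
      - ∫ x in Ω, c 0 x * dbar 0 φ x := h 0 _ (isTest_dbar_aux hφ 0)
  have h1 : ∫ x in Ω, (u 0 x * dbar 2 (dbar 1 φ) x - u 2 x * dbar 0 (dbar 1 φ) x) =
      - ∫ x in Ω, c 1 x * dbar 1 φ x := h 1 _ (isTest_dbar_aux hφ 1)
  have h2 : ∫ x in Ω, (u 1 x * dbar 0 (dbar 2 φ) x - u 0 x * dbar 1 (dbar 2 φ) x) =
      - ∫ x in Ω, c 2 x * dbar 2 φ x := h 2 _ (isTest_dbar_aux hφ 2)
  rw [integral_sub (hI _ _ _) (hI _ _ _)] at h0 h1 h2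
  have e : ∀ i j k : Fin 3, ∫ x in Ω, u i x * dbar j (dbar k φ) x =
      ∫ x in Ω, u i x * dbar k (dbar j φ) x := by
    intro i j k
    congr 1
    funext x
    rw [dbar_comm_aux hφ.smooth]
  rw [integral_finsetSum _ (fun i _ => integrable_aux (c i) (isTest_dbar_aux hφ i)),
    Fin.sum_univ_three]
  rw [e 1 2 0] at h0
  rw [e 2 0 1] at h1
  rw [e 0 1 2] at h2
  linear_combination h0 + h1 + h2

end DbarN.JG4
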