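import Pool.Agent.H314.DN.Stmts3
import Pool.Agent.H314.DN.A0
import Pool.Agent.H314.DN.A1

set_option autoImplicit false

open MeasureTheory Complex Filter Topology
open scoped ContDiff InnerProductSpace ENNReal ComplexConjugate

namespace DbarN.JCA1

section
variable {k1 l1 : ℝ}

/-- auxiliary: polynomial in `k1/(t-1)` times the flat function -/
noncomputable def ca1G (k1 : ℝ) (p : Polynomial ℝ) (t : ℝ) : ℝ :=
  p.eval (((t - 1) / k1)⁻¹) * expNegInvGlue ((t - 1) / k1)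

theorem ca1G_hasDerivAt (k1 : ℝ) (p : Polynomial ℝ) (t : ℝ) :
    HasDerivAt (ca1G k1 p)
      (ca1G k1 (Polynomial.X ^ 2 * (p - Polynomial.derivative (R := ℝ) p)) t * (1 / k1)) t := by
  have h1 := expNegInvGlue.hasDerivAt_polynomial_eval_inv_mul p ((t - 1) / k1)
  have h2 : HasDerivAt (fun t : ℝ => (t - 1) / k1) (1 / k1) t :=
    ((hasDerivAt_id t).sub_const 1).div_const k1
  exact h1.comp t h2

theorem ca1G_continuous (k1 : ℝ) (p : Polynomial ℝ) : Continuous (ca1G k1 p) := by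
  have h1 := expNegInvGlue.continuous_polynomial_eval_inv_mul p
  have h2 : Continuous (fun t : ℝ => (t - 1) / k1) := by fun_prop
  exact h1.comp h2

theorem ca1_om (t : ℝ) : om k1 l1 t = Real.exp l1 * ca1G k1 1 t := by
  unfold om ca1G
  simp

theorem ca1_om1 (hk : 0 < k1) (t : ℝ) :
    om1 k1 l1 t = Real.exp l1 * (ca1G k1 (Polynomial.X ^ 2) t * (1 / k1)) := by
  unfold om1 om ca1G
  simp only [Polynomial.eval_pow, Polynomial.eval_X, inv_div, div_pow]
  by_cases h : t - 1 = 0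
  · simp [h]
  · field_simp

theorem ca1_om2 (hk : 0 < k1) (t : ℝ) :
    om2 k1 l1 t = Real.exp l1 * (ca1G k1 (Polynomial.X ^ 2 * (Polynomial.X ^ 2 -
      Polynomial.derivative (R := ℝ) (Polynomial.X ^ 2))) t * (1 / k1) * (1 / k1)) := by
  unfold om2 om ca1G
  simp only [Polynomial.eval_mul, Polynomial.eval_sub, Polynomial.derivative_X_pow,
    Polynomial.eval_pow, Polynomial.eval_X, Polynomial.eval_C, inv_div]
  generalize expNegInvGlue ((t - 1) / k1) = g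
  generalize t - 1 = s
  by_cases h : s = 0
  · simp [h]
  · rw [show 2 - 1 = 1 from rfl, pow_one]
    push_cast
    field_simp

theorem om_of_le_one (hk : 0 < k1) {t : ℝ} (ht : t ≤ 1) : om k1 l1 t = 0 := by
  unfold om
  rw [expNegInvGlue.zero_of_nonpos (div_nonpos_of_nonpos_of_nonneg (by linarith) hk.le), mul_zero]
theorem om_of_gt_one (hk : 0 < k1) {t : ℝ} (ht : 1 < t) :
    om k1 l1 t = Real.exp (l1 - k1 / (t - 1)) := by
  have h : ¬ (t - 1) / k1 ≤ 0 := by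
    rw [not_le]
    exact div_pos (by linarith) hk
  unfold om expNegInvGlue
  rw [if_neg h, ← Real.exp_add, inv_div]
  rfl
theorem om_nonneg (t : ℝ) : 0 ≤ om k1 l1 t :=
  mul_nonneg (Real.exp_pos _).le (expNegInvGlue.nonneg _)
theorem om_mono (hk : 0 < k1) : Monotone (om k1 l1) := by
  intro s t hst
  unfold om
  refine mul_le_mul_of_nonneg_left (expNegInvGlue.monotone ?_) (Real.exp_pos _).le
  gcongr
theorem om_lt_one_iff (hk : 0 < k1) (hl : 0 < l1) (t : ℝ) : om k1 l1 t < 1 ↔ t < tB k1 l1 := by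
  unfold tB
  have hkl : 0 < k1 / l1 := div_pos hk hl
  by_cases ht : t ≤ 1
  · rw [om_of_le_one hk ht]
    exact ⟨fun _ => by linarith, fun _ => one_pos⟩
  · push Not at ht
    have hs : 0 < t - 1 := by linarith
    rw [om_of_gt_one hk ht, Real.exp_lt_one_iff, sub_neg, lt_div_iff₀ hs, ← sub_lt_iff_lt_add',
      lt_div_iff₀ hl, mul_comm]
theorem om_contDiff : ContDiff ℝ ∞ (om k1 l1) := by
  unfold om
  have h : ContDiff ℝ ∞ (fun t : ℝ => (t - 1) / k1) := by fun_prop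
  exact contDiff_const.mul (expNegInvGlue.contDiff.comp h)
theorem om_hasDerivAt (hk : 0 < k1) (t : ℝ) : HasDerivAt (om k1 l1) (om1 k1 l1 t) t := by
  have h1 := (ca1G_hasDerivAt k1 1 t).const_mul (Real.exp l1)
  have h2 : om k1 l1 = fun t => Real.exp l1 * ca1G k1 1 t := funext ca1_om
  rw [h2, ca1_om1 hk]
  simpa using h1
theorem om1_hasDerivAt (hk : 0 < k1) (t : ℝ) : HasDerivAt (om1 k1 l1) (om2 k1 l1 t) t := by
  have h1 := ((ca1G_hasDerivAt k1 (Polynomial.X ^ 2) t).mul_const (1 / k1)).const_mul (Real.exp l1)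
  have h2 : om1 k1 l1 = fun t => Real.exp l1 * (ca1G k1 (Polynomial.X ^ 2) t * (1 / k1)) :=
    funext (ca1_om1 hk)
  rw [h2, ca1_om2 hk]
  exact h1
theorem om2_continuous (hk : 0 < k1) : Continuous (om2 k1 l1) := by
  rw [show om2 k1 l1 = _ from funext (ca1_om2 hk)]
  exact continuous_const.mul (((ca1G_continuous k1 _).mul continuous_const).mul continuous_const)
theorem om1_nonneg (hk : 0 < k1) (t : ℝ) : 0 ≤ om1 k1 l1 t := by
  unfold om1
  exact mul_nonneg (om_nonneg t) (div_nonneg hk.le (sq_nonneg _))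
theorem om2_ge (hk : 0 < k1) (hk1 : k1 ≤ 1 / 100) (hl : 100 ≤ l1) {t : ℝ} (ht : t < tB k1 l1) :
    100 * om1 k1 l1 t ≤ om2 k1 l1 t := by
  by_cases h1 : t ≤ 1
  · unfold om1 om2
    rw [om_of_le_one hk h1]
    simp
  · push Not at h1
    unfold tB at ht
    obtain ⟨s, hs⟩ : ∃ s, s = t - 1 := ⟨_, rfl⟩
    have hs0 : 0 < s := by linarith
    have hs1 : s * 100 ≤ k1 := by
      have h2 : s < k1 / l1 := by linarith
      rw [lt_div_iff₀ (by linarith)] at h2
      nlinarith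
    unfold om1 om2
    rw [← hs]
    have h3 : 100 * (k1 / s ^ 2) ≤ k1 ^ 2 / s ^ 4 - 2 * k1 / s ^ 3 := by
      have h4 : k1 ^ 2 / s ^ 4 - 2 * k1 / s ^ 3 - 100 * (k1 / s ^ 2) =
          k1 * (k1 - 2 * s - 100 * s ^ 2) / s ^ 4 := by
        field_simp
      have h5 : 0 ≤ k1 - 2 * s - 100 * s ^ 2 := by nlinarith
      have h6 : 0 ≤ k1 * (k1 - 2 * s - 100 * s ^ 2) / s ^ 4 := by positivity
      linarith
    have h7 := mul_le_mul_of_nonneg_left h3 (om_nonneg (k1 := k1) (l1 := l1) t)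
    linarith
theorem dl_pos (hk : 0 < k1) (hl : 0 < l1) {t : ℝ} (ht : t < tB k1 l1) : 0 < dl k1 l1 t := by
  have := (om_lt_one_iff hk hl t).mpr ht
  unfold dl
  linarith
theorem dl_le_one (t : ℝ) : dl k1 l1 t ≤ 1 := by
  have := om_nonneg (k1 := k1) (l1 := l1) t
  unfold dl
  linarith
theorem Lm_nonneg (hk : 0 < k1) (hl : 0 < l1) {t : ℝ} (ht : t < tB k1 l1) : 0 ≤ Lm k1 l1 t := by
  unfold Lm
  have := Real.log_nonpos (dl_pos hk hl ht).le (dl_le_one t)
  linarith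
theorem Lm1_nonneg (hk : 0 < k1) (hl : 0 < l1) {t : ℝ} (ht : t < tB k1 l1) : 0 ≤ Lm1 k1 l1 t :=
  div_nonneg (om1_nonneg hk t) (dl_pos hk hl ht).le
theorem Lm2_ge (hk : 0 < k1) (hk1 : k1 ≤ 1 / 100) (hl : 100 ≤ l1) {t : ℝ} (ht : t < tB k1 l1) :
    100 * Lm1 k1 l1 t + Lm1 k1 l1 t ^ 2 ≤ Lm2 k1 l1 t := by
  unfold Lm1 Lm2
  have h1 := om2_ge hk hk1 hl ht
  have h2 := dl_pos hk (by linarith) ht
  have h3 : 100 * (om1 k1 l1 t / dl k1 l1 t) ≤ om2 k1 l1 t / dl k1 l1 t := by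
    rw [← mul_div_assoc]
    exact div_le_div_of_nonneg_right h1 h2.le
  linarith
theorem dl_hasDerivAt (hk : 0 < k1) (t : ℝ) : HasDerivAt (dl k1 l1) (-om1 k1 l1 t) t := by
  unfold dl
  exact (om_hasDerivAt hk t).const_sub 1
theorem Lm_hasDerivAt (hk : 0 < k1) (hl : 0 < l1) {t : ℝ} (ht : t < tB k1 l1) :
    HasDerivAt (Lm k1 l1) (Lm1 k1 l1 t) t := by
  have h1 : HasDerivAt (fun t => -Real.log (dl k1 l1 t)) (-(-om1 k1 l1 t / dl k1 l1 t)) t :=
    ((dl_hasDerivAt (l1 := l1) hk t).log (dl_pos hk hl ht).ne').neg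
  have h2 : -(-om1 k1 l1 t / dl k1 l1 t) = Lm1 k1 l1 t := by
    unfold Lm1
    ring
  rw [h2] at h1
  exact h1
theorem Lm1_hasDerivAt (hk : 0 < k1) (hl : 0 < l1) {t : ℝ} (ht : t < tB k1 l1) :
    HasDerivAt (Lm1 k1 l1) (Lm2 k1 l1 t) t := by
  have h0 := dl_pos hk hl ht
  have h1 : HasDerivAt (fun t => om1 k1 l1 t / dl k1 l1 t)
      ((om2 k1 l1 t * dl k1 l1 t - om1 k1 l1 t * -om1 k1 l1 t) / dl k1 l1 t ^ 2) t :=
    (om1_hasDerivAt (l1 := l1) hk t).div (dl_hasDerivAt (l1 := l1) hk t) h0.ne'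
  have h2 : (om2 k1 l1 t * dl k1 l1 t - om1 k1 l1 t * -om1 k1 l1 t) / dl k1 l1 t ^ 2 =
      Lm2 k1 l1 t := by
    unfold Lm2
    field_simp
    ring
  rw [h2] at h1
  exact h1
theorem Lm2_continuousOn (hk : 0 < k1) (hl : 0 < l1) :
    ContinuousOn (Lm2 k1 l1) (Set.Iio (tB k1 l1)) := by
  have h1 : Continuous (dl k1 l1) :=
    continuous_iff_continuousAt.mpr fun t => (dl_hasDerivAt hk t).continuousAt
  have h2 : Continuous (om1 k1 l1) :=
    continuous_iff_continuousAt.mpr fun t => (om1_hasDerivAt hk t).continuousAt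
  have h3 : ∀ t ∈ Set.Iio (tB k1 l1), dl k1 l1 t ≠ 0 := fun t ht => (dl_pos hk hl ht).ne'
  unfold Lm2
  exact ((om2_continuous hk).continuousOn.div h1.continuousOn h3).add
    ((h2.continuousOn.div h1.continuousOn h3).pow 2)
end

end DbarN.JCA1
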