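import Pool.Agent.H314.DN.Stmts3
import Pool.Agent.H314.DN.A0
import Pool.Agent.H314.DN.A1

set_option autoImplicit false

open MeasureTheory Complex Filter Topology
open scoped ContDiff InnerProductSpace ENNReal ComplexConjugate

namespace DbarN.JCA2

section
variable {k1 l1 : ℝ}

theorem one_sub_sq_pos833 {s : ℝ} (h0 : 0 ≤ s) (h1 : s < 1) : 0 < 1 - s ^ 2 := by nlinarith

theorem tau_nonneg {s : ℝ} (h0 : 0 ≤ s) (h1 : s < 1) : 0 ≤ tau s := by
  have h := one_sub_sq_pos833 h0 h1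
  unfold tau
  have := Real.log_nonpos h.le (by nlinarith)
  linarith
theorem tau1_nonneg {s : ℝ} (h0 : 0 ≤ s) (h1 : s < 1) : 0 ≤ tau1 s := by
  have h := one_sub_sq_pos833 h0 h1
  unfold tau1
  positivity
theorem tau2_pos {s : ℝ} (h0 : 0 ≤ s) (h1 : s < 1) : 0 < tau2 s := by
  have h := one_sub_sq_pos833 h0 h1
  unfold tau2
  positivity
theorem tau1_sq_le {s : ℝ} (h0 : 0 ≤ s) (h1 : s < 1) : tau1 s ^ 2 ≤ tau2 s := by
  have h := one_sub_sq_pos833 h0 h1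
  unfold tau1 tau2
  rw [div_pow]
  apply div_le_div_of_nonneg_right _ (by positivity)
  nlinarith
theorem tau_mono {s s' : ℝ} (h0 : 0 ≤ s) (h : s ≤ s') (h1 : s' < 1) : tau s ≤ tau s' := by
  have h2 := one_sub_sq_pos833 (h0.trans h) h1
  unfold tau
  have := Real.log_le_log h2 (by nlinarith : 1 - s' ^ 2 ≤ 1 - s ^ 2)
  linarith
theorem sq_deriv833 (s : ℝ) : HasDerivAt (fun s : ℝ => 1 - s ^ 2) (-(2 * s)) s := by
  have h1 := (hasDerivAt_pow 2 s).const_sub 1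
  simpa using h1
theorem tau_hasDerivAt {s : ℝ} (h0 : 0 ≤ s) (h1 : s < 1) : HasDerivAt tau (tau1 s) s := by
  have h := one_sub_sq_pos833 h0 h1
  have h2 := ((sq_deriv833 s).log h.ne').neg
  have e : tau1 s = -(-(2 * s) / (1 - s ^ 2)) := by unfold tau1; ring
  rw [e]
  exact h2
theorem tau1_hasDerivAt {s : ℝ} (h0 : 0 ≤ s) (h1 : s < 1) : HasDerivAt tau1 (tau2 s) s := by
  have h := one_sub_sq_pos833 h0 h1
  have h2 : HasDerivAt (fun s : ℝ => 2 * s) 2 s := by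
    simpa using (hasDerivAt_id s).const_mul (2 : ℝ)
  have h3 := h2.div (sq_deriv833 s) h.ne'
  have e : tau2 s = (2 * (1 - s ^ 2) - 2 * s * -(2 * s)) / (1 - s ^ 2) ^ 2 := by
    unfold tau2; congr 1; ring
  rw [e]
  exact h3

theorem X_derivs (t s : ℝ) (h0 : 0 ≤ s) (h1 : s < 1)
    (hL : HasDerivAt (Lm k1 l1) (Lm1 k1 l1 t) t) (hL1 : HasDerivAt (Lm1 k1 l1) (Lm2 k1 l1 t) t)
    (hL0 : 0 ≤ Lm k1 l1 t) (ht : t < 2) :
    100 ≤ el k1 l1 t s ∧ 0 < XX k1 l1 t s ∧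
    HasDerivAt (fun t => el k1 l1 t s) (Lm1 k1 l1 t) t ∧
    HasDerivAt (fun s => el k1 l1 t s) (tau1 s) s ∧
    HasDerivAt (fun t => XX k1 l1 t s) (Xt k1 l1 t s) t ∧
    HasDerivAt (fun t => Xt k1 l1 t s) (Xtt k1 l1 t s) t ∧
    HasDerivAt (fun s => XX k1 l1 t s) (Xs k1 l1 t s) s ∧
    HasDerivAt (fun s => Xt k1 l1 t s) (Xts k1 l1 t s) s ∧
    HasDerivAt (fun s => Xs k1 l1 t s) (Xss k1 l1 t s) s := by
  have hτ := tau_nonneg h0 h1
  have hel : 100 ≤ el k1 l1 t s := by unfold el; linarith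
  have hpos : 0 < el k1 l1 t s := by linarith
  have hne : el k1 l1 t s ≠ 0 := hpos.ne'
  have d1 : HasDerivAt (fun t => el k1 l1 t s) (Lm1 k1 l1 t) t :=
    (hL.const_add 100).add_const (tau s)
  have d2 : HasDerivAt (fun s => el k1 l1 t s) (tau1 s) s :=
    (tau_hasDerivAt h0 h1).const_add (100 + Lm k1 l1 t)
  have d0 : HasDerivAt (fun t : ℝ => 2 - t) (-1) t := by
    simpa using (hasDerivAt_id t).const_sub (2 : ℝ)
  have hτ1 := tau1_hasDerivAt h0 h1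
  -- squares of el
  have q1 : HasDerivAt (fun t => el k1 l1 t s ^ 2) (2 * el k1 l1 t s * Lm1 k1 l1 t) t := by
    have := d1.fun_pow 2
    simpa using this
  have q2 : HasDerivAt (fun s => el k1 l1 t s ^ 2) (2 * el k1 l1 t s * tau1 s) s := by
    have := d2.fun_pow 2
    simpa using this
  refine ⟨hel, ?_, d1, d2, ?_, ?_, ?_, ?_, ?_⟩
  · unfold XX
    exact div_pos (by linarith) hpos
  · have := d0.div d1 hne
    have e : Xt k1 l1 t s = (-1 * el k1 l1 t s - (2 - t) * Lm1 k1 l1 t) / el k1 l1 t s ^ 2 := by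
      unfold Xt
      field_simp
    rw [e]
    exact this
  · have a1 : HasDerivAt (fun t => (-1 : ℝ) / el k1 l1 t s)
        ((0 * el k1 l1 t s - (-1) * Lm1 k1 l1 t) / el k1 l1 t s ^ 2) t :=
      (hasDerivAt_const t (-1 : ℝ)).div d1 hne
    have a2 : HasDerivAt (fun t => (2 - t) * Lm1 k1 l1 t / el k1 l1 t s ^ 2)
        (((-1 * Lm1 k1 l1 t + (2 - t) * Lm2 k1 l1 t) * el k1 l1 t s ^ 2
          - (2 - t) * Lm1 k1 l1 t * (2 * el k1 l1 t s * Lm1 k1 l1 t)) / (el k1 l1 t s ^ 2) ^ 2) t :=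
      (d0.mul hL1).div q1 (pow_ne_zero 2 hne)
    have := a1.sub a2
    have e : Xtt k1 l1 t s = (0 * el k1 l1 t s - (-1) * Lm1 k1 l1 t) / el k1 l1 t s ^ 2
        - ((-1 * Lm1 k1 l1 t + (2 - t) * Lm2 k1 l1 t) * el k1 l1 t s ^ 2
          - (2 - t) * Lm1 k1 l1 t * (2 * el k1 l1 t s * Lm1 k1 l1 t)) / (el k1 l1 t s ^ 2) ^ 2 := by
      unfold Xtt
      field_simp
      ring
    rw [e]
    exact this
  · have a2 : HasDerivAt (fun s => (2 - t) / el k1 l1 t s)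
        ((0 * el k1 l1 t s - (2 - t) * tau1 s) / el k1 l1 t s ^ 2) s :=
      (hasDerivAt_const s (2 - t)).div d2 hne
    have e : Xs k1 l1 t s = (0 * el k1 l1 t s - (2 - t) * tau1 s) / el k1 l1 t s ^ 2 := by
      unfold Xs
      congr 1
      ring
    rw [e]
    exact a2
  · have a1 : HasDerivAt (fun s => (-1 : ℝ) / el k1 l1 t s)
        ((0 * el k1 l1 t s - (-1) * tau1 s) / el k1 l1 t s ^ 2) s :=
      (hasDerivAt_const s (-1 : ℝ)).div d2 hne
    have a2 : HasDerivAt (fun s => (2 - t) * Lm1 k1 l1 t / el k1 l1 t s ^ 2)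
        ((0 * el k1 l1 t s ^ 2
          - (2 - t) * Lm1 k1 l1 t * (2 * el k1 l1 t s * tau1 s)) / (el k1 l1 t s ^ 2) ^ 2) s :=
      (hasDerivAt_const s ((2 - t) * Lm1 k1 l1 t)).div q2 (pow_ne_zero 2 hne)
    have := a1.sub a2
    have e : Xts k1 l1 t s = (0 * el k1 l1 t s - (-1) * tau1 s) / el k1 l1 t s ^ 2
        - (0 * el k1 l1 t s ^ 2
          - (2 - t) * Lm1 k1 l1 t * (2 * el k1 l1 t s * tau1 s)) / (el k1 l1 t s ^ 2) ^ 2 := by
      unfold Xts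
      field_simp
      ring
    rw [e]
    exact this
  · have a2 : HasDerivAt (fun s => -(2 - t) * tau1 s / el k1 l1 t s ^ 2)
        ((-(2 - t) * tau2 s * el k1 l1 t s ^ 2
          - -(2 - t) * tau1 s * (2 * el k1 l1 t s * tau1 s)) / (el k1 l1 t s ^ 2) ^ 2) s :=
      (hτ1.const_mul (-(2 - t))).div q2 (pow_ne_zero 2 hne)
    have e : Xss k1 l1 t s = (-(2 - t) * tau2 s * el k1 l1 t s ^ 2
          - -(2 - t) * tau1 s * (2 * el k1 l1 t s * tau1 s)) / (el k1 l1 t s ^ 2) ^ 2 := by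
      unfold Xss
      field_simp
      ring
    rw [e]
    exact a2

theorem Y_derivs (t s : ℝ) (h0 : 0 ≤ s) (h1 : s < 1)
    (hL : HasDerivAt (Lm k1 l1) (Lm1 k1 l1 t) t) (hL1 : HasDerivAt (Lm1 k1 l1) (Lm2 k1 l1 t) t)
    (hL0 : 0 ≤ Lm k1 l1 t) (ht : t < 2) :
    HasDerivAt (fun t => YY k1 l1 t s) (Yt k1 l1 t s) t ∧
    HasDerivAt (fun t => Yt k1 l1 t s) (Ytt k1 l1 t s) t ∧
    HasDerivAt (fun s => YY k1 l1 t s) (Ys k1 l1 t s) s ∧
    HasDerivAt (fun s => Yt k1 l1 t s) (Yts k1 l1 t s) s ∧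
    HasDerivAt (fun s => Ys k1 l1 t s) (Yss k1 l1 t s) s := by
  obtain ⟨-, hX, -, -, xt, xtt, xs, xts, xss⟩ := X_derivs (k1 := k1) (l1 := l1) t s h0 h1 hL hL1 hL0 ht
  have hpos : 0 < 1 + XX k1 l1 t s := by linarith
  have hne := hpos.ne'
  have pt : HasDerivAt (fun t => 1 + XX k1 l1 t s) (Xt k1 l1 t s) t := xt.const_add 1
  have ps : HasDerivAt (fun s => 1 + XX k1 l1 t s) (Xs k1 l1 t s) s := xs.const_add 1
  refine ⟨?_, ?_, ?_, ?_, ?_⟩
  · exact pt.log hne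
  · have := xtt.div pt hne
    have e : Ytt k1 l1 t s = (Xtt k1 l1 t s * (1 + XX k1 l1 t s) - Xt k1 l1 t s * Xt k1 l1 t s)
        / (1 + XX k1 l1 t s) ^ 2 := by
      unfold Ytt
      field_simp
    rw [e]
    exact this
  · exact ps.log hne
  · have := xts.div ps hne
    have e : Yts k1 l1 t s = (Xts k1 l1 t s * (1 + XX k1 l1 t s) - Xt k1 l1 t s * Xs k1 l1 t s)
        / (1 + XX k1 l1 t s) ^ 2 := by
      unfold Yts
      field_simp
    rw [e]
    exact this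
  · have := xss.div ps hne
    have e : Yss k1 l1 t s = (Xss k1 l1 t s * (1 + XX k1 l1 t s) - Xs k1 l1 t s * Xs k1 l1 t s)
        / (1 + XX k1 l1 t s) ^ 2 := by
      unfold Yss
      field_simp
    rw [e]
    exact this
end

end DbarN.JCA2
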