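import Pool.Agent.H314.DN.Stmts4
import Pool.Agent.H314.DN.CA1
import Pool.Agent.H314.DN.CA2

set_option autoImplicit false

open MeasureTheory Complex Filter Topology
open scoped ContDiff InnerProductSpace ENNReal ComplexConjugate

namespace DbarN.JFD

open DbarN.JCA1 DbarN.JCA2

theorem fibD_mode1 (j k : ℤ) (F : E3 → ℂ) (hF : ContDiff ℝ ∞ F) (hm : IsModeFn j k F) (x : E3)
    (r : ℝ) (hr : r ≠ 0) (hx : x 1 = (r : ℂ)) :
    fderiv ℝ F x (Pi.single 1 1) = 2 * dbar 1 F x + j * F x / r := by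
  have hFd : HasFDerivAt F (fderiv ℝ F x) x := (hF.differentiable (by simp) x).hasFDerivAt
  have h0 : rot 0 0 x = x := by
    funext i; fin_cases i <;> simp [rot]
  have h1 : HasDerivAt (fun θ : ℝ => rot θ 0 x) (Pi.single 1 (I * (r : ℂ))) 0 := by
    rw [hasDerivAt_pi]
    intro i
    fin_cases i
    · simpa [rot] using hasDerivAt_const (0 : ℝ) (x 0)
    · have h2 : HasDerivAt (fun θ : ℝ => Complex.exp (θ * I) * x 1)
          (Complex.exp (((0 : ℝ) : ℂ) * I) * (1 * I) * x 1) 0 := by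
        have h3 : HasDerivAt (fun θ : ℝ => (θ : ℂ) * I) (1 * I) 0 :=
          (Complex.ofRealCLM.hasDerivAt (x := (0 : ℝ))).mul_const I
        exact (h3.cexp).mul_const (x 1)
      simpa [rot, hx] using h2
    · simpa [rot] using hasDerivAt_const (0 : ℝ) (x 2)
  have h2 : HasDerivAt (fun θ : ℝ => F (rot θ 0 x)) (fderiv ℝ F x (Pi.single 1 (I * (r : ℂ)))) 0 := by
    have hFd' : HasFDerivAt F (fderiv ℝ F x) (rot 0 0 x) := by rw [h0]; exact hFd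
    exact hFd'.comp_hasDerivAt (0 : ℝ) h1
  have h3 : HasDerivAt (fun θ : ℝ => F (rot θ 0 x)) (I * j * F x) 0 := by
    have h4 : (fun θ : ℝ => F (rot θ 0 x)) = fun θ : ℝ => Complex.exp ((I * j) * θ) * F x := by
      funext θ
      rw [hm θ 0 x]
      congr 2
      push_cast; ring
    rw [h4]
    have h5 : HasDerivAt (fun θ : ℝ => (I * j) * (θ : ℂ)) ((I * j) * 1) 0 :=
      (Complex.ofRealCLM.hasDerivAt (x := (0 : ℝ))).const_mul (I * (j : ℂ))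
    simpa using (h5.cexp).mul_const (F x)
  have h4 := h2.unique h3
  have h5 : (Pi.single 1 (I * (r : ℂ)) : E3) = r • (Pi.single 1 I : E3) := by
    rw [← Pi.single_smul']
    congr 1
    rw [Complex.real_smul]; ring
  rw [h5, map_smul, Complex.real_smul] at h4
  have hr' : (r : ℂ) ≠ 0 := by exact_mod_cast hr
  have h6 : fderiv ℝ F x (Pi.single 1 I) = I * j * F x / r := by
    rw [← h4]; field_simp
  unfold dbar
  rw [h6]
  have : I * (I * j * F x / r) = - (j * F x / r) := by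
    rw [show I * (I * j * F x / r) = (I * I) * (j * F x / r) by ring, Complex.I_mul_I]; ring
  rw [this]
  ring

theorem fibD_mode2 (j k : ℤ) (F : E3 → ℂ) (hF : ContDiff ℝ ∞ F) (hm : IsModeFn j k F) (x : E3)
    (r : ℝ) (hr : r ≠ 0) (hx : x 2 = (r : ℂ)) :
    fderiv ℝ F x (Pi.single 2 1) = 2 * dbar 2 F x + k * F x / r := by
  have hFd : HasFDerivAt F (fderiv ℝ F x) x := (hF.differentiable (by simp) x).hasFDerivAt
  have h0 : rot 0 0 x = x := by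
    funext i; fin_cases i <;> simp [rot]
  have h1 : HasDerivAt (fun θ : ℝ => rot 0 θ x) (Pi.single 2 (I * (r : ℂ))) 0 := by
    rw [hasDerivAt_pi]
    intro i
    fin_cases i
    · simpa [rot] using hasDerivAt_const (0 : ℝ) (x 0)
    · simpa [rot] using hasDerivAt_const (0 : ℝ) (x 1)
    · have h2 : HasDerivAt (fun θ : ℝ => Complex.exp (θ * I) * x 2)
          (Complex.exp (((0 : ℝ) : ℂ) * I) * (1 * I) * x 2) 0 := by
        have h3 : HasDerivAt (fun θ : ℝ => (θ : ℂ) * I) (1 * I) 0 :=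
          (Complex.ofRealCLM.hasDerivAt (x := (0 : ℝ))).mul_const I
        exact (h3.cexp).mul_const (x 2)
      simpa [rot, hx] using h2
  have h2 : HasDerivAt (fun θ : ℝ => F (rot 0 θ x)) (fderiv ℝ F x (Pi.single 2 (I * (r : ℂ)))) 0 := by
    have hFd' : HasFDerivAt F (fderiv ℝ F x) (rot 0 0 x) := by rw [h0]; exact hFd
    exact hFd'.comp_hasDerivAt (0 : ℝ) h1
  have h3 : HasDerivAt (fun θ : ℝ => F (rot 0 θ x)) (I * k * F x) 0 := by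
    have h4 : (fun θ : ℝ => F (rot 0 θ x)) = fun θ : ℝ => Complex.exp ((I * k) * θ) * F x := by
      funext θ
      rw [hm 0 θ x]
      congr 2
      push_cast; ring
    rw [h4]
    have h5 : HasDerivAt (fun θ : ℝ => (I * k) * (θ : ℂ)) ((I * k) * 1) 0 :=
      (Complex.ofRealCLM.hasDerivAt (x := (0 : ℝ))).const_mul (I * (k : ℂ))
    simpa using (h5.cexp).mul_const (F x)
  have h4 := h2.unique h3
  have h5 : (Pi.single 2 (I * (r : ℂ)) : E3) = r • (Pi.single 2 I : E3) := by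
    rw [← Pi.single_smul']
    congr 1
    rw [Complex.real_smul]; ring
  rw [h5, map_smul, Complex.real_smul] at h4
  have hr' : (r : ℂ) ≠ 0 := by exact_mod_cast hr
  have h6 : fderiv ℝ F x (Pi.single 2 I) = I * k * F x / r := by
    rw [← h4]; field_simp
  unfold dbar
  rw [h6]
  have : I * (I * k * F x / r) = - (k * F x / r) := by
    rw [show I * (I * k * F x / r) = (I * I) * (k * F x / r) by ring, Complex.I_mul_I]; ring
  rw [this]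
  ring

/-- the chain rule for functions of `‖z‖²` in the last two slots -/
theorem fibD_chain (F : E3 → ℂ) (hF : ContDiff ℝ ∞ F) (z : ℂ) (p g1 g2 : ℝ → ℝ) (p' g1' g2' : ℝ)
    (hp : HasDerivAt p p' (‖z‖ ^ 2)) (hg1 : HasDerivAt g1 g1' (‖z‖ ^ 2))
    (hg2 : HasDerivAt g2 g2' (‖z‖ ^ 2)) (x : E3)
    (hx : x = ![z, (g1 (‖z‖ ^ 2) : ℂ), (g2 (‖z‖ ^ 2) : ℂ)]) :
    HasFDerivAt (fun w : ℂ => (p (‖w‖ ^ 2) : ℂ) * F ![w, (g1 (‖w‖ ^ 2) : ℂ), (g2 (‖w‖ ^ 2) : ℂ)])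
      ((p (‖z‖ ^ 2)) • ((fderiv ℝ F x).comp (ContinuousLinearMap.single ℝ (fun _ : Fin 3 => ℂ) 0)) +
        (2 • innerSL ℝ z).smulRight ((p' : ℂ) * F x + (p (‖z‖ ^ 2) : ℂ) *
          ((g1' : ℂ) * fderiv ℝ F x (Pi.single 1 1) + (g2' : ℂ) * fderiv ℝ F x (Pi.single 2 1)))) z := by
  have hq : HasFDerivAt (fun w : ℂ => ‖w‖ ^ 2) (2 • innerSL ℝ z) z :=
    (hasStrictFDerivAt_norm_sq z).hasFDerivAt
  have hP : HasFDerivAt (fun w : ℂ => p (‖w‖ ^ 2)) (p' • (2 • innerSL ℝ z)) z :=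
    hp.comp_hasFDerivAt z hq
  have hG1 : HasFDerivAt (fun w : ℂ => g1 (‖w‖ ^ 2)) (g1' • (2 • innerSL ℝ z)) z :=
    hg1.comp_hasFDerivAt z hq
  have hG2 : HasFDerivAt (fun w : ℂ => g2 (‖w‖ ^ 2)) (g2' • (2 • innerSL ℝ z)) z :=
    hg2.comp_hasFDerivAt z hq
  have hPC := Complex.ofRealCLM.hasFDerivAt.comp z hP
  have hG1C := Complex.ofRealCLM.hasFDerivAt.comp z hG1
  have hG2C := Complex.ofRealCLM.hasFDerivAt.comp z hG2
  have hPt : HasFDerivAt (fun w : ℂ => (![w, (g1 (‖w‖ ^ 2) : ℂ), (g2 (‖w‖ ^ 2) : ℂ)] : E3))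
      (ContinuousLinearMap.pi ![ContinuousLinearMap.id ℝ ℂ,
        Complex.ofRealCLM.comp (g1' • (2 • innerSL ℝ z)),
        Complex.ofRealCLM.comp (g2' • (2 • innerSL ℝ z))]) z := by
    rw [hasFDerivAt_pi']
    intro i
    fin_cases i
    · exact hasFDerivAt_id z
    · exact hG1C
    · exact hG2C
  have hFd : HasFDerivAt F (fderiv ℝ F x) x := (hF.differentiable (by simp) x).hasFDerivAt
  have hFd' : HasFDerivAt F (fderiv ℝ F x) ![z, (g1 (‖z‖ ^ 2) : ℂ), (g2 (‖z‖ ^ 2) : ℂ)] := by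
    rw [← hx]; exact hFd
  have hFc := hFd'.comp z hPt
  have hmul := hPC.mul hFc
  refine hmul.congr_fderiv ?_
  apply ContinuousLinearMap.ext
  intro w
  obtain ⟨τ, hτ⟩ : ∃ τ : ℝ, τ = (2 • innerSL ℝ z) w := ⟨_, rfl⟩
  have hv : (ContinuousLinearMap.pi (R := ℝ) (φ := fun _ : Fin 3 => ℂ) ![ContinuousLinearMap.id ℝ ℂ,
        Complex.ofRealCLM.comp (g1' • (2 • innerSL ℝ z)),
        Complex.ofRealCLM.comp (g2' • (2 • innerSL ℝ z))]) w =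
      Pi.single 0 w + (g1' * τ) • (Pi.single 1 1 : E3) + (g2' * τ) • (Pi.single 2 1 : E3) := by
    funext i
    fin_cases i
    · simp
    · simp [hτ]; ring
    · simp [hτ]; ring
  rw [_root_.add_apply, _root_.smul_apply, _root_.smul_apply, _root_.add_apply, _root_.smul_apply,
    ContinuousLinearMap.comp_apply, ContinuousLinearMap.comp_apply, ContinuousLinearMap.comp_apply,
    ContinuousLinearMap.smulRight_apply, hv,
    show (p' • (2 • innerSL ℝ z)) w = p' * τ from by rw [hτ]; rfl, ← hτ, map_add, map_add,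
    map_smul, map_smul, ContinuousLinearMap.single_apply]
  simp only [Function.comp_apply, ← hx, Complex.ofRealCLM_apply, Complex.real_smul, smul_eq_mul]
  push_cast
  ring

/-- `√(1+(2-t)u)` -/
noncomputable def fibDA (q : ℂ × (ℝ × ℝ × ℝ)) : ℝ := Real.sqrt (1 + (2 - ‖q.1‖ ^ 2) * q.2.2.2)
noncomputable def fibDB (k1 l1 : ℝ) (q : ℂ × (ℝ × ℝ × ℝ)) : ℝ := Real.sqrt (dl k1 l1 (‖q.1‖ ^ 2))
noncomputable def fibDP (e k1 l1 : ℝ) (j k : ℕ) (q : ℂ × (ℝ × ℝ × ℝ)) : ℝ :=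
  (e ^ (j + k))⁻¹ * q.2.1 ^ (j + 1) * q.2.2.1 ^ (k + 1) * fibDA q ^ (j + 2) * ((fibDB k1 l1 q)⁻¹) ^ k
noncomputable def fibDPt (e k1 l1 : ℝ) (q : ℂ × (ℝ × ℝ × ℝ)) : E3 :=
  ![q.1, ((e * q.2.1 * fibDA q : ℝ) : ℂ), ((e * fibDB k1 l1 q * q.2.2.1 : ℝ) : ℂ)]
noncomputable def fibDx (k1 l1 : ℝ) (q : ℂ × (ℝ × ℝ × ℝ)) : ℝ :=
  -q.2.2.2 - (2 - ‖q.1‖ ^ 2) * Lm1 k1 l1 (‖q.1‖ ^ 2) * q.2.2.2 ^ 2
noncomputable def fibDR (e k1 l1 : ℝ) (j : ℕ) (F : E3 → ℂ) (q : ℂ × (ℝ × ℝ × ℝ)) : ℂ :=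
  ((e * q.2.1 * (fibDx k1 l1 q / fibDA q) : ℝ) : ℂ) * dbar 1 F (fibDPt e k1 l1 q) -
  ((e * q.2.2.1 * fibDB k1 l1 q * Lm1 k1 l1 (‖q.1‖ ^ 2) : ℝ) : ℂ) * dbar 2 F (fibDPt e k1 l1 q) +
  (((j + 1) * (fibDx k1 l1 q / fibDA q ^ 2) : ℝ) : ℂ) * F (fibDPt e k1 l1 q)
noncomputable def fibDN (e k1 l1 : ℝ) (j k : ℕ) (F : E3 → ℂ) (q : ℂ × (ℝ × ℝ × ℝ)) : ℂ :=
  (fibDP e k1 l1 j k q : ℂ) * F (fibDPt e k1 l1 q)
noncomputable def fibDN' (e k1 l1 : ℝ) (j k : ℕ) (F : E3 → ℂ) (q : ℂ × (ℝ × ℝ × ℝ)) : ℂ →L[ℝ] ℂ :=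
  fibDP e k1 l1 j k q • ((fderiv ℝ F (fibDPt e k1 l1 q)).comp
    (ContinuousLinearMap.single ℝ (fun _ : Fin 3 => ℂ) 0)) +
  (2 • innerSL ℝ q.1).smulRight ((fibDP e k1 l1 j k q : ℂ) * fibDR e k1 l1 j F q)

/-- the compact parameter set -/
def fibDK : Set (ℝ × ℝ × ℝ) := Set.Icc 0 1 ×ˢ (Set.Icc 0 1 ×ˢ Set.Icc 0 1)

theorem fibD_K_compact : IsCompact fibDK :=
  isCompact_Icc.prod (isCompact_Icc.prod isCompact_Icc)

theorem fibD_tB_lt {k1 l1 : ℝ} (hk : 0 < k1) (hk1 : k1 ≤ 1 / 100) (hl : 100 ≤ l1) :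
    tB k1 l1 < 2 := by
  unfold tB
  have h1 : k1 / l1 < 1 := by
    rw [div_lt_one (by linarith)]; linarith
  linarith

section
variable {e k1 l1 : ℝ} (H : ParOK e k1 l1)
include H

theorem fibD_A_pos {q : ℂ × (ℝ × ℝ × ℝ)} (hq : q ∈ BB k1 l1 ×ˢ fibDK) : 0 < fibDA q := by
  have h1 := fibD_tB_lt H.hk H.hk1 H.hl
  have h2 : ‖q.1‖ ^ 2 < tB k1 l1 := hq.1
  have h3 : 0 ≤ q.2.2.2 := hq.2.2.2.1
  unfold fibDA
  apply Real.sqrt_pos.2
  have : 0 ≤ (2 - ‖q.1‖ ^ 2) * q.2.2.2 := mul_nonneg (by linarith) h3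
  linarith

theorem fibD_B_pos {q : ℂ × (ℝ × ℝ × ℝ)} (hq : q ∈ BB k1 l1 ×ˢ fibDK) : 0 < fibDB k1 l1 q := by
  unfold fibDB
  exact Real.sqrt_pos.2 (dl_pos H.hk (by linarith [H.hl]) hq.1)

omit H in
theorem fibD_A_cont : Continuous fibDA := by
  unfold fibDA; fun_prop

theorem fibD_B_cont : Continuous (fibDB k1 l1) := by
  have h1 : Continuous (dl k1 l1) :=
    continuous_iff_continuousAt.mpr fun t => (dl_hasDerivAt H.hk t).continuousAt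
  unfold fibDB
  exact Real.continuous_sqrt.comp (h1.comp (by fun_prop))

theorem fibD_Lm1_cont : ContinuousOn (fun q : ℂ × (ℝ × ℝ × ℝ) => Lm1 k1 l1 (‖q.1‖ ^ 2))
    (BB k1 l1 ×ˢ fibDK) := by
  have h1 : ContinuousOn (Lm1 k1 l1) (Set.Iio (tB k1 l1)) := fun t ht =>
    (Lm1_hasDerivAt H.hk (by linarith [H.hl]) ht).continuousAt.continuousWithinAt
  exact h1.comp (by fun_prop) (fun q hq => hq.1)

theorem fibD_P_cont (j k : ℕ) : ContinuousOn (fibDP e k1 l1 j k) (BB k1 l1 ×ˢ fibDK) := by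
  unfold fibDP
  have h1 : ContinuousOn (fun q : ℂ × (ℝ × ℝ × ℝ) => (fibDB k1 l1 q)⁻¹) (BB k1 l1 ×ˢ fibDK) :=
    (fibD_B_cont H).continuousOn.inv₀ (fun q hq => (fibD_B_pos H hq).ne')
  have h2 := fibD_A_cont
  exact ContinuousOn.mul (Continuous.continuousOn (by fun_prop)) (h1.pow k)

theorem fibD_Pt_cont : Continuous (fibDPt e k1 l1) := by
  have h1 := fibD_B_cont H
  have h2 := fibD_A_cont
  refine continuous_pi (fun i => ?_)
  fin_cases i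
  · exact continuous_fst
  · show Continuous (fun q : ℂ × (ℝ × ℝ × ℝ) => ((e * q.2.1 * fibDA q : ℝ) : ℂ))
    fun_prop
  · show Continuous (fun q : ℂ × (ℝ × ℝ × ℝ) => ((e * fibDB k1 l1 q * q.2.2.1 : ℝ) : ℂ))
    fun_prop

theorem fibD_x_cont : ContinuousOn (fibDx k1 l1) (BB k1 l1 ×ˢ fibDK) := by
  have h1 := fibD_Lm1_cont H
  unfold fibDx
  exact ((Continuous.continuousOn (by fun_prop)).sub
    (((Continuous.continuousOn (by fun_prop)).mul h1).mul (Continuous.continuousOn (by fun_prop))))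

omit H in
theorem fibD_dbar_cont (F : E3 → ℂ) (hF : ContDiff ℝ ∞ F) (i : Fin 3) : Continuous (dbar i F) := by
  have h1 : Continuous (fderiv ℝ F) := hF.continuous_fderiv (by simp)
  unfold dbar
  exact continuous_const.mul ((h1.clm_apply continuous_const).add
    (continuous_const.mul (h1.clm_apply continuous_const)))

theorem fibD_R_cont (j : ℕ) (F : E3 → ℂ) (hF : ContDiff ℝ ∞ F) :
    ContinuousOn (fibDR e k1 l1 j F) (BB k1 l1 ×ˢ fibDK) := by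
  have hx := fibD_x_cont H
  have hPt := fibD_Pt_cont H
  have hA := fibD_A_cont
  have hB := fibD_B_cont H
  have hL := fibD_Lm1_cont H
  have hA0 : ∀ q ∈ BB k1 l1 ×ˢ fibDK, fibDA q ≠ 0 := fun q hq => (fibD_A_pos H hq).ne'
  have hA2 : ∀ q ∈ BB k1 l1 ×ˢ fibDK, fibDA q ^ 2 ≠ 0 := fun q hq => pow_ne_zero 2 (hA0 q hq)
  unfold fibDR
  refine ContinuousOn.add (ContinuousOn.sub (ContinuousOn.mul ?_ ?_) (ContinuousOn.mul ?_ ?_))
    (ContinuousOn.mul ?_ ?_)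
  · exact Complex.continuous_ofReal.comp_continuousOn
      ((Continuous.continuousOn (by fun_prop)).mul (hx.div hA.continuousOn hA0))
  · exact ((fibD_dbar_cont F hF 1).comp hPt).continuousOn
  · exact Complex.continuous_ofReal.comp_continuousOn
      ((Continuous.continuousOn (by fun_prop)).mul hL)
  · exact ((fibD_dbar_cont F hF 2).comp hPt).continuousOn
  · exact Complex.continuous_ofReal.comp_continuousOn
      (continuousOn_const.mul (hx.div (hA.pow 2).continuousOn hA2))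
  · exact (hF.continuous.comp hPt).continuousOn

theorem fibD_N_cont (j k : ℕ) (F : E3 → ℂ) (hF : ContDiff ℝ ∞ F) :
    ContinuousOn (fibDN e k1 l1 j k F) (BB k1 l1 ×ˢ fibDK) := by
  unfold fibDN
  exact (Complex.continuous_ofReal.comp_continuousOn (fibD_P_cont H j k)).mul
    (hF.continuous.comp (fibD_Pt_cont H)).continuousOn

theorem fibD_N'_cont (j k : ℕ) (F : E3 → ℂ) (hF : ContDiff ℝ ∞ F) :
    ContinuousOn (fibDN' e k1 l1 j k F) (BB k1 l1 ×ˢ fibDK) := by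
  unfold fibDN'
  have h1 : Continuous (fderiv ℝ F) := hF.continuous_fderiv (by simp)
  have h2 : Continuous (fun q : ℂ × (ℝ × ℝ × ℝ) => (fderiv ℝ F (fibDPt e k1 l1 q)).comp
    (ContinuousLinearMap.single ℝ (fun _ : Fin 3 => ℂ) 0)) :=
    (h1.comp (fibD_Pt_cont H)).clm_comp continuous_const
  refine ContinuousOn.add ((fibD_P_cont H j k).smul h2.continuousOn) ?_
  have h3 : Continuous (fun q : ℂ × (ℝ × ℝ × ℝ) => (2 • innerSL ℝ q.1 : ℂ →L[ℝ] ℝ)) := by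
    fun_prop
  have h4 : ContinuousOn (fun q : ℂ × (ℝ × ℝ × ℝ) =>
      (fibDP e k1 l1 j k q : ℂ) * fibDR e k1 l1 j F q) (BB k1 l1 ×ˢ fibDK) :=
    (Complex.continuous_ofReal.comp_continuousOn (fibD_P_cont H j k)).mul (fibD_R_cont H j F hF)
  have h5 : ∀ q : ℂ × (ℝ × ℝ × ℝ), (2 • innerSL ℝ q.1 : ℂ →L[ℝ] ℝ).smulRight
      ((fibDP e k1 l1 j k q : ℂ) * fibDR e k1 l1 j F q) =
      ContinuousLinearMap.smulRightL ℝ ℂ ℂ (2 • innerSL ℝ q.1 : ℂ →L[ℝ] ℝ)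
      ((fibDP e k1 l1 j k q : ℂ) * fibDR e k1 l1 j F q) := fun q => rfl
  simp_rw [h5]
  exact ContinuousOn.clm_apply (((ContinuousLinearMap.smulRightL ℝ ℂ ℂ).continuous.comp h3).continuousOn) h4

end

theorem fibD_powlog (f : ℝ → ℝ) (f' t : ℝ) (h : HasDerivAt f f' t) (hne : f t ≠ 0) (n : ℕ) :
    HasDerivAt (fun x => f x ^ n) (f t ^ n * (n * f' / f t)) t := by
  refine (h.fun_pow n).congr_deriv ?_
  cases n with
  | zero => simp
  | succ m =>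
    rw [Nat.add_sub_cancel]
    field_simp
    ring

section
variable {e k1 l1 : ℝ} (H : ParOK e k1 l1)
include H

theorem fibD_Xd {t s : ℝ} (ht : t < tB k1 l1) (hs : 0 < s) (hs1 : s < 1) :
    100 ≤ el k1 l1 t s ∧ 0 < XX k1 l1 t s ∧ HasDerivAt (fun t => el k1 l1 t s) (Lm1 k1 l1 t) t ∧
    HasDerivAt (fun t => XX k1 l1 t s) (Xt k1 l1 t s) t ∧
    HasDerivAt (fun s => el k1 l1 t s) (tau1 s) s := by
  have hl0 : 0 < l1 := by linarith [H.hl]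
  have h2 := fibD_tB_lt H.hk H.hk1 H.hl
  obtain ⟨a, b, c, d, f, -⟩ := X_derivs (k1 := k1) (l1 := l1) t s hs.le hs1
    (Lm_hasDerivAt H.hk hl0 ht) (Lm1_hasDerivAt H.hk hl0 ht) (Lm_nonneg H.hk hl0 ht)
    (by linarith)
  exact ⟨a, b, c, f, d⟩

theorem fibD_deriv (j k : ℕ) (F : E3 → ℂ) (hF : ContDiff ℝ ∞ F) (hm : IsModeFn j k F)
    (v s : ℝ) (hv : 0 < v) (hs : 0 < s) (hs1 : s < 1) (z : ℂ) (hz : z ∈ BB k1 l1) :
    HasFDerivAt (fun w : ℂ => fibDN e k1 l1 j k F (w, (v, s, 1 / el k1 l1 (‖w‖ ^ 2) s)))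
      (fibDN' e k1 l1 j k F (z, (v, s, 1 / el k1 l1 (‖z‖ ^ 2) s))) z := by
  have hz' : ‖z‖ ^ 2 < tB k1 l1 := hz
  obtain ⟨t, htd⟩ : ∃ t, t = ‖z‖ ^ 2 := ⟨_, rfl⟩
  rw [← htd] at hz'
  have hl0 : 0 < l1 := by linarith [H.hl]
  obtain ⟨hel, hXX, held, hXd, -⟩ := fibD_Xd H hz' hs hs1
  have helpos : 0 < el k1 l1 t s := by linarith
  -- A
  let A : ℝ → ℝ := fun t => Real.sqrt (1 + (2 - t) * (1 / el k1 l1 t s))
  have hAfun : ∀ t, (2 - t) * (1 / el k1 l1 t s) = XX k1 l1 t s := by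
    intro t; unfold XX; rw [mul_one_div]
  have hA' : A = fun t => Real.sqrt (1 + XX k1 l1 t s) := by
    funext t; simp only [A, hAfun]
  have hApos : 0 < A t := by
    rw [hA']; exact Real.sqrt_pos.2 (by linarith)
  have hAd : HasDerivAt A (Xt k1 l1 t s / (2 * A t)) t := by
    rw [hA']
    exact (hXd.const_add 1).sqrt (by linarith)
  -- B
  let B : ℝ → ℝ := fun t => Real.sqrt (dl k1 l1 t)
  have hdl : 0 < dl k1 l1 t := dl_pos H.hk hl0 hz'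
  have hBpos : 0 < B t := Real.sqrt_pos.2 hdl
  have hB2 : B t ^ 2 = dl k1 l1 t := Real.sq_sqrt hdl.le
  have hBd : HasDerivAt B (-(1 / 2) * B t * Lm1 k1 l1 t) t := by
    have h1 := (dl_hasDerivAt (l1 := l1) H.hk t).sqrt hdl.ne'
    refine h1.congr_deriv ?_
    have hB0 : B t ≠ 0 := hBpos.ne'
    have h3 : om1 k1 l1 t = Lm1 k1 l1 t * B t ^ 2 := by
      unfold Lm1; rw [hB2]; field_simp
    rw [h3]
    show -(Lm1 k1 l1 t * B t ^ 2) / (2 * B t) = _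
    field_simp
  have hBi : HasDerivAt (fun t => (B t)⁻¹) ((B t)⁻¹ * (1 / 2 * Lm1 k1 l1 t)) t := by
    refine (hBd.fun_inv hBpos.ne').congr_deriv ?_
    have : B t ≠ 0 := hBpos.ne'
    field_simp
  -- p
  let p : ℝ → ℝ := fun t => (e ^ (j + k))⁻¹ * v ^ (j + 1) * s ^ (k + 1) * A t ^ (j + 2) *
    ((B t)⁻¹) ^ k
  have hpd : HasDerivAt p (p t * (((j + 2 : ℕ) : ℝ) * (Xt k1 l1 t s / (2 * A t)) / A t +
      k * (1 / 2 * Lm1 k1 l1 t))) t := by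
    have h1 := fibD_powlog A _ t hAd hApos.ne' (j + 2)
    have h2 := fibD_powlog (fun t => (B t)⁻¹) _ t hBi (inv_pos.2 hBpos).ne' k
    refine ((h1.const_mul ((e ^ (j + k))⁻¹ * v ^ (j + 1) * s ^ (k + 1))).mul h2).congr_deriv ?_
    have : B t ≠ 0 := hBpos.ne'
    have : A t ≠ 0 := hApos.ne'
    simp only [p]
    field_simp
  let g1 : ℝ → ℝ := fun t => e * v * A t
  have hg1 : HasDerivAt g1 (e * v * (Xt k1 l1 t s / (2 * A t))) t := hAd.const_mul (e * v)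
  let g2 : ℝ → ℝ := fun t => e * B t * s
  have hg2 : HasDerivAt g2 (e * (-(1 / 2) * B t * Lm1 k1 l1 t) * s) t :=
    (hBd.const_mul e).mul_const s
  have hch := fibD_chain F hF z p g1 g2 _ _ _ (htd ▸ hpd) (htd ▸ hg1) (htd ▸ hg2)
    ![z, (g1 (‖z‖ ^ 2) : ℂ), (g2 (‖z‖ ^ 2) : ℂ)] rfl
  have he := H.he
  have hg1pos : g1 t ≠ 0 := (mul_pos (mul_pos he hv) hApos).ne'
  have hg2pos : g2 t ≠ 0 := (mul_pos (mul_pos he hBpos) hs).ne'
  have hm1 := fibD_mode1 j k F hF hm ![z, (g1 (‖z‖ ^ 2) : ℂ), (g2 (‖z‖ ^ 2) : ℂ)] (g1 t) hg1pos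
    (by rw [htd]; rfl)
  have hm2 := fibD_mode2 j k F hF hm ![z, (g1 (‖z‖ ^ 2) : ℂ), (g2 (‖z‖ ^ 2) : ℂ)] (g2 t) hg2pos
    (by rw [htd]; rfl)
  refine hch.congr_fderiv ?_
  have hPeq : fibDP e k1 l1 j k (z, (v, s, 1 / el k1 l1 (‖z‖ ^ 2) s)) = p (‖z‖ ^ 2) := rfl
  have hPteq : fibDPt e k1 l1 (z, (v, s, 1 / el k1 l1 (‖z‖ ^ 2) s)) =
    ![z, (g1 (‖z‖ ^ 2) : ℂ), (g2 (‖z‖ ^ 2) : ℂ)] := rfl
  unfold fibDN'
  rw [hPeq, hPteq]
  congr 2
  unfold fibDR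
  rw [hPteq, hm1, hm2]
  generalize F ![z, (g1 (‖z‖ ^ 2) : ℂ), (g2 (‖z‖ ^ 2) : ℂ)] = FF
  generalize dbar 1 F ![z, (g1 (‖z‖ ^ 2) : ℂ), (g2 (‖z‖ ^ 2) : ℂ)] = D1
  generalize dbar 2 F ![z, (g1 (‖z‖ ^ 2) : ℂ), (g2 (‖z‖ ^ 2) : ℂ)] = D2
  have hAeq : fibDA (z, (v, s, 1 / el k1 l1 (‖z‖ ^ 2) s)) = A t := by rw [htd]; rfl
  have hBeq : fibDB k1 l1 (z, (v, s, 1 / el k1 l1 (‖z‖ ^ 2) s)) = B t := by rw [htd]; rfl
  have hxeq : fibDx k1 l1 (z, (v, s, 1 / el k1 l1 (‖z‖ ^ 2) s)) = Xt k1 l1 t s := by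
    rw [htd]; unfold fibDx Xt; dsimp only; ring
  rw [hAeq, hBeq, hxeq, ← htd]
  dsimp only
  generalize p t = P
  simp only [g1, g2]
  have hAc : (A t : ℂ) ≠ 0 := by exact_mod_cast hApos.ne'
  have hBc : (B t : ℂ) ≠ 0 := by exact_mod_cast hBpos.ne'
  have hec : (e : ℂ) ≠ 0 := by exact_mod_cast he.ne'
  have hvc : (v : ℂ) ≠ 0 := by exact_mod_cast hv.ne'
  have hsc : (s : ℂ) ≠ 0 := by exact_mod_cast hs.ne'
  push_cast
  field_simp
  ring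

end

section
variable {e k1 l1 : ℝ} (H : ParOK e k1 l1)
include H

/-- the path of parameters -/
noncomputable def fibDp (k1 l1 : ℝ) (z : ℂ) (a : ℝ × ℝ) : ℝ × ℝ × ℝ :=
  (a.1, a.2, 1 / el k1 l1 (‖z‖ ^ 2) a.2)

omit H in
theorem fibD_BB_open : IsOpen (BB k1 l1) :=
  isOpen_lt (by fun_prop) continuous_const

theorem fibD_u_mem {z : ℂ} (hz : z ∈ BB k1 l1) {s : ℝ} (hs : s ∈ Set.Ioo (0 : ℝ) 1) :
    1 / el k1 l1 (‖z‖ ^ 2) s ∈ Set.Icc (0 : ℝ) 1 := by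
  obtain ⟨h1, -⟩ := fibD_Xd H (t := ‖z‖ ^ 2) hz hs.1 hs.2
  refine ⟨by positivity, ?_⟩
  rw [div_le_one (by linarith)]
  linarith

theorem fibD_p_mem {z : ℂ} (hz : z ∈ BB k1 l1) {a : ℝ × ℝ}
    (ha : a ∈ Set.Ioo (0 : ℝ) 1 ×ˢ Set.Ioo (0 : ℝ) 1) : fibDp k1 l1 z a ∈ fibDK :=
  ⟨⟨ha.1.1.le, ha.1.2.le⟩, ⟨ha.2.1.le, ha.2.2.le⟩, fibD_u_mem H hz ha.2⟩

theorem fibD_u_cont1 {z : ℂ} (hz : z ∈ BB k1 l1) :
    ContinuousOn (fun s => 1 / el k1 l1 (‖z‖ ^ 2) s) (Set.Ioo (0 : ℝ) 1) := by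
  intro s hs
  obtain ⟨h1, -, -, -, h5⟩ := fibD_Xd H (t := ‖z‖ ^ 2) hz hs.1 hs.2
  exact (continuousAt_const.div h5.continuousAt (by linarith)).continuousWithinAt

theorem fibD_u_cont2 {s : ℝ} (hs : s ∈ Set.Ioo (0 : ℝ) 1) :
    ContinuousOn (fun z : ℂ => 1 / el k1 l1 (‖z‖ ^ 2) s) (BB k1 l1) := by
  intro z hz
  obtain ⟨h1, -, h3, -, -⟩ := fibD_Xd H (t := ‖z‖ ^ 2) hz hs.1 hs.2
  have h6 : ContinuousAt (fun z : ℂ => el k1 l1 (‖z‖ ^ 2) s) z :=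
    ContinuousAt.comp (f := fun z : ℂ => ‖z‖ ^ 2) (g := fun t => el k1 l1 t s) h3.continuousAt
      (by fun_prop)
  exact (continuousAt_const.div h6 (by linarith)).continuousWithinAt

theorem fibD_mono_pos (j k : ℕ) {z : ℂ} (hz : z ∈ BB k1 l1) {v s : ℝ} (hv : 0 < v)
    (hs : 0 < s) (hs1 : s < 1) : 0 < mono e k1 l1 j k z v s := by
  obtain ⟨-, h2, -⟩ := fibD_Xd H (t := ‖z‖ ^ 2) hz hs hs1
  have h3 : 0 < Real.sqrt (1 + XX k1 l1 (‖z‖ ^ 2) s) := Real.sqrt_pos.2 (by linarith)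
  have h4 : 0 < Real.sqrt (dl k1 l1 (‖z‖ ^ 2)) :=
    Real.sqrt_pos.2 (dl_pos H.hk (by linarith [H.hl]) hz)
  have he := H.he
  unfold mono
  positivity

omit H in
theorem fibD_Aeq (z : ℂ) (v s : ℝ) :
    fibDA (z, fibDp k1 l1 z (v, s)) = Real.sqrt (1 + XX k1 l1 (‖z‖ ^ 2) s) := by
  unfold fibDA fibDp XX
  dsimp only
  rw [mul_one_div]

omit H in
theorem fibD_Pteq (z : ℂ) (v s : ℝ) :
    fibDPt e k1 l1 (z, fibDp k1 l1 z (v, s)) = Pt e k1 l1 z v s := by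
  unfold fibDPt
  rw [fibD_Aeq]
  rfl

theorem fibD_weight (j k : ℕ) {z : ℂ} (hz : z ∈ BB k1 l1) {v s : ℝ} (hv : 0 < v)
    (hs : 0 < s) (hs1 : s < 1) : v ^ (2 * j + 1) * den k1 l1 j k (‖z‖ ^ 2) s =
      fibDP e k1 l1 j k (z, fibDp k1 l1 z (v, s)) * mono e k1 l1 j k z v s := by
  obtain ⟨-, h2, -⟩ := fibD_Xd H (t := ‖z‖ ^ 2) hz hs hs1
  have h3 : 0 < Real.sqrt (1 + XX k1 l1 (‖z‖ ^ 2) s) := Real.sqrt_pos.2 (by linarith)
  have h3' : Real.sqrt (1 + XX k1 l1 (‖z‖ ^ 2) s) ^ 2 = 1 + XX k1 l1 (‖z‖ ^ 2) s :=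
    Real.sq_sqrt (by linarith)
  have h4 : 0 < Real.sqrt (dl k1 l1 (‖z‖ ^ 2)) :=
    Real.sqrt_pos.2 (dl_pos H.hk (by linarith [H.hl]) hz)
  have he := H.he
  obtain ⟨A, hAd⟩ : ∃ A, A = Real.sqrt (1 + XX k1 l1 (‖z‖ ^ 2) s) := ⟨_, rfl⟩
  unfold den mono fibDP
  rw [fibD_Aeq, ← hAd]
  rw [← hAd] at h3 h3'
  rw [← h3']
  show _ = (e ^ (j + k))⁻¹ * v ^ (j + 1) * s ^ (k + 1) *
    A ^ (j + 2) * ((Real.sqrt (dl k1 l1 (‖z‖ ^ 2)))⁻¹) ^ k * _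
  generalize Real.sqrt (dl k1 l1 (‖z‖ ^ 2)) = B at *
  have hA : A ≠ 0 := h3.ne'
  have hB : B ≠ 0 := h4.ne'
  rw [show 2 * j + 1 = j + (j + 1) by ring, show 2 * k + 1 = k + (k + 1) by ring, ← pow_mul,
    show 2 * (j + 1) = j + (j + 2) by ring, pow_add v j (j + 1), pow_add s k (k + 1),
    pow_add A j (j + 2), pow_add e j k, mul_pow, mul_pow, mul_pow, mul_pow, inv_pow]
  field_simp

omit H in
theorem fibD_xeq (z : ℂ) (s v : ℝ) :
    fibDx k1 l1 (z, (v, s, 1 / el k1 l1 (‖z‖ ^ 2) s)) = Xt k1 l1 (‖z‖ ^ 2) s := by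
  unfold fibDx Xt; dsimp only; ring

/-- the `s`-integrand -/
noncomputable def fibDM (j k : ℕ) (q : ℂ × (ℝ × ℝ × ℝ)) : ℝ :=
  q.2.2.1 ^ (2 * k + 1) * (1 + (2 - ‖q.1‖ ^ 2) * q.2.2.2) ^ (j + 1)
noncomputable def fibDm (k1 l1 : ℝ) (j k : ℕ) (q : ℂ × (ℝ × ℝ × ℝ)) : ℝ :=
  (j + 1) * q.2.2.1 ^ (2 * k + 1) * fibDx k1 l1 q * (1 + (2 - ‖q.1‖ ^ 2) * q.2.2.2) ^ j
noncomputable def fibDM' (k1 l1 : ℝ) (j k : ℕ) (q : ℂ × (ℝ × ℝ × ℝ)) : ℂ →L[ℝ] ℝ :=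
  fibDm k1 l1 j k q • (2 • innerSL ℝ q.1)

omit H in
theorem fibD_Meq (j k : ℕ) (z : ℂ) (s : ℝ) :
    fibDM j k (z, fibDp k1 l1 z (0, s)) = den k1 l1 j k (‖z‖ ^ 2) s := by
  unfold fibDM fibDp den XX
  dsimp only
  rw [mul_one_div]

theorem fibD_meq (j k : ℕ) {z : ℂ} (hz : z ∈ BB k1 l1) {s : ℝ} (hs : 0 < s) (hs1 : s < 1) :
    fibDm k1 l1 j k (z, fibDp k1 l1 z (0, s)) =
      (j + 1) * (Yt k1 l1 (‖z‖ ^ 2) s * den k1 l1 j k (‖z‖ ^ 2) s) := by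
  obtain ⟨-, h2, -⟩ := fibD_Xd H (t := ‖z‖ ^ 2) hz hs hs1
  have h3 : 1 + XX k1 l1 (‖z‖ ^ 2) s ≠ 0 := by linarith
  have h4 : 1 + (2 - ‖z‖ ^ 2) * (1 / el k1 l1 (‖z‖ ^ 2) s) = 1 + XX k1 l1 (‖z‖ ^ 2) s := by
    unfold XX; rw [mul_one_div]
  unfold fibDm
  show (j + 1) * s ^ (2 * k + 1) * fibDx k1 l1 (z, (0, s, 1 / el k1 l1 (‖z‖ ^ 2) s)) *
    (1 + (2 - ‖z‖ ^ 2) * (1 / el k1 l1 (‖z‖ ^ 2) s)) ^ j = _
  rw [fibD_xeq, h4]
  unfold Yt den
  field_simp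
  ring

theorem fibD_Md (j k : ℕ) {z : ℂ} (hz : z ∈ BB k1 l1) {s : ℝ} (hs : 0 < s) (hs1 : s < 1) :
    HasFDerivAt (fun w : ℂ => fibDM j k (w, fibDp k1 l1 w (0, s)))
      (fibDM' k1 l1 j k (z, fibDp k1 l1 z (0, s))) z := by
  obtain ⟨-, h2, -, h5, -⟩ := fibD_Xd H (t := ‖z‖ ^ 2) hz hs hs1
  have h3 : 1 + XX k1 l1 (‖z‖ ^ 2) s ≠ 0 := by linarith
  have hq : HasFDerivAt (fun w : ℂ => ‖w‖ ^ 2) (2 • innerSL ℝ z) z :=
    (hasStrictFDerivAt_norm_sq z).hasFDerivAt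
  have h6 : HasDerivAt (fun t => den k1 l1 j k t s)
      ((j + 1) * (Yt k1 l1 (‖z‖ ^ 2) s * den k1 l1 j k (‖z‖ ^ 2) s)) (‖z‖ ^ 2) := by
    have h7 := ((h5.const_add 1).fun_pow (j + 1)).const_mul (s ^ (2 * k + 1))
    refine h7.congr_deriv ?_
    unfold Yt den
    rw [Nat.add_sub_cancel]
    push_cast
    field_simp
    ring
  have h8 := h6.comp_hasFDerivAt z hq
  have h9 : (fun w : ℂ => fibDM j k (w, fibDp k1 l1 w (0, s))) =
      (fun t => den k1 l1 j k t s) ∘ (fun w : ℂ => ‖w‖ ^ 2) := by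
    funext w
    exact fibD_Meq j k w s
  rw [h9]
  unfold fibDM'
  rw [fibD_meq H j k hz hs hs1]
  exact h8

omit H in
theorem fibD_M_cont (j k : ℕ) : ContinuousOn (fibDM j k) (BB k1 l1 ×ˢ fibDK) := by
  apply Continuous.continuousOn
  unfold fibDM
  fun_prop

theorem fibD_m_cont (j k : ℕ) : ContinuousOn (fibDm k1 l1 j k) (BB k1 l1 ×ˢ fibDK) := by
  have h1 := fibD_x_cont H
  unfold fibDm
  exact ((Continuous.continuousOn (by fun_prop)).mul h1).mul (Continuous.continuousOn (by fun_prop))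

theorem fibD_M'_cont (j k : ℕ) : ContinuousOn (fibDM' k1 l1 j k) (BB k1 l1 ×ˢ fibDK) := by
  have h1 := fibD_m_cont H j k
  unfold fibDM'
  exact h1.smul (Continuous.continuousOn (by fun_prop))

end

theorem fibD_param {α β E : Type*} [TopologicalSpace α] [SecondCountableTopology α]
    [MeasurableSpace α] [OpensMeasurableSpace α]
    [TopologicalSpace β] [NormedAddCommGroup E] [NormedSpace ℝ E]
    (μ : Measure α) (U : Set ℂ) (hU : IsOpen U) (S : Set α) (hS : MeasurableSet S) (hSf : μ S ≠ ⊤)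
    (K : Set β) (hK : IsCompact K) (p : ℂ → α → β) (hp : ∀ z ∈ U, ∀ a ∈ S, p z a ∈ K)
    (hpc1 : ∀ z ∈ U, ContinuousOn (p z) S) (hpc2 : ∀ a ∈ S, ContinuousOn (fun z => p z a) U)
    (N : ℂ × β → E) (hN : ContinuousOn N (U ×ˢ K)) (N' : ℂ × β → ℂ →L[ℝ] E)
    (hN' : ContinuousOn N' (U ×ˢ K))
    (hd : ∀ a ∈ S, ∀ z ∈ U, HasFDerivAt (fun z => N (z, p z a)) (N' (z, p z a)) z) :
    (∀ z ∈ U, IntegrableOn (fun a => N (z, p z a)) S μ) ∧
    (∀ z ∈ U, IntegrableOn (fun a => N' (z, p z a)) S μ) ∧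
    (∀ z ∈ U, HasFDerivAt (fun z => ∫ a in S, N (z, p z a) ∂μ) (∫ a in S, N' (z, p z a) ∂μ) z) ∧
    ContDiffOn ℝ 1 (fun z => ∫ a in S, N (z, p z a) ∂μ) U := by
  have hmeas : ∀ {E' : Type _} [NormedAddCommGroup E'] (G : ℂ × β → E'),
      ContinuousOn G (U ×ˢ K) → ∀ z ∈ U,
      AEStronglyMeasurable (fun a => G (z, p z a)) (μ.restrict S) := by
    intro E' _ G hG z hz
    have h1 : ContinuousOn (fun a => G (z, p z a)) S :=
      hG.comp (continuousOn_const.prodMk (hpc1 z hz)) (fun a ha => ⟨hz, hp z hz a ha⟩)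
    exact h1.aestronglyMeasurable hS
  have hbd : ∀ {E' : Type _} [NormedAddCommGroup E'] (G : ℂ × β → E'),
      ContinuousOn G (U ×ˢ K) → ∀ z0 ∈ U, ∃ r : ℝ, 0 < r ∧ Metric.closedBall z0 r ⊆ U ∧
        ∃ C : ℝ, ∀ z ∈ Metric.closedBall z0 r, ∀ b ∈ K, ‖G (z, b)‖ ≤ C := by
    intro E' _ G hG z0 hz0
    obtain ⟨r, hr, hrU⟩ := Metric.nhds_basis_closedBall.mem_iff.1 (hU.mem_nhds hz0)
    refine ⟨r, hr, hrU, ?_⟩
    have hcomp : IsCompact (Metric.closedBall z0 r ×ˢ K) := (isCompact_closedBall z0 r).prod hK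
    obtain ⟨C, hC⟩ := hcomp.exists_bound_of_continuousOn
      (hG.mono (Set.prod_mono hrU (subset_refl K)))
    exact ⟨C, fun z hz b hb => hC (z, b) ⟨hz, hb⟩⟩
  have hconst : ∀ C : ℝ, Integrable (fun _ : α => C) (μ.restrict S) := by
    intro C
    have : IsFiniteMeasure (μ.restrict S) := ⟨by
      rw [Measure.restrict_apply_univ]; exact hSf.lt_top⟩
    exact integrable_const C
  have hint : ∀ {E' : Type _} [NormedAddCommGroup E'] (G : ℂ × β → E'),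
      ContinuousOn G (U ×ˢ K) → ∀ z ∈ U,
      IntegrableOn (fun a => G (z, p z a)) S μ := by
    intro E' _ G hG z hz
    obtain ⟨r, hr, hrU, C, hC⟩ := hbd G hG z hz
    refine Integrable.mono' (hconst C) (hmeas G hG z hz) ?_
    refine (ae_restrict_iff' hS).2 (Eventually.of_forall fun a ha => ?_)
    exact hC z (Metric.mem_closedBall_self hr.le) _ (hp z hz a ha)
  have hHD : ∀ z ∈ U, HasFDerivAt (fun z => ∫ a in S, N (z, p z a) ∂μ)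
      (∫ a in S, N' (z, p z a) ∂μ) z := by
    intro z hz
    obtain ⟨r, hr, hrU, C, hC⟩ := hbd N' hN' z hz
    refine hasFDerivAt_integral_of_dominated_of_fderiv_le (μ := μ.restrict S)
      (F := fun z a => N (z, p z a)) (F' := fun z a => N' (z, p z a))
      (s := Metric.closedBall z r) (bound := fun _ => C) (Metric.closedBall_mem_nhds z hr) ?_ (hint N hN z hz)
      (hmeas N' hN' z hz) ?_ (hconst C) ?_
    · filter_upwards [hU.mem_nhds hz] with w hw using hmeas N hN w hw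
    · refine (ae_restrict_iff' hS).2 (Eventually.of_forall fun a ha w hw => ?_)
      exact hC w hw _ (hp w (hrU hw) a ha)
    · refine (ae_restrict_iff' hS).2 (Eventually.of_forall fun a ha w hw => ?_)
      exact hd a ha w (hrU hw)
  have hcont : ContinuousOn (fun z => ∫ a in S, N' (z, p z a) ∂μ) U := by
    intro z hz
    apply ContinuousAt.continuousWithinAt
    obtain ⟨r, hr, hrU, C, hC⟩ := hbd N' hN' z hz
    refine continuousAt_of_dominated (bound := fun _ => C) ?_ ?_ (hconst C) ?_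
    · filter_upwards [hU.mem_nhds hz] with w hw using hmeas N' hN' w hw
    · filter_upwards [Metric.closedBall_mem_nhds z hr] with w hw
      refine (ae_restrict_iff' hS).2 (Eventually.of_forall fun a ha => ?_)
      exact hC w hw _ (hp w (hrU hw) a ha)
    · refine (ae_restrict_iff' hS).2 (Eventually.of_forall fun a ha => ?_)
      have h1 : ContinuousOn (fun z => N' (z, p z a)) U :=
        hN'.comp (continuousOn_id.prodMk (hpc2 a ha)) (fun w hw => ⟨hw, hp w hw a ha⟩)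
      exact h1.continuousAt (hU.mem_nhds hz)
  refine ⟨hint N hN, hint N' hN', hHD, ?_⟩
  rw [show (1 : WithTop ℕ∞) = 0 + 1 by simp, contDiffOn_succ_iff_fderiv_of_isOpen hU]
  refine ⟨fun z hz => (hHD z hz).differentiableAt.differentiableWithinAt, by simp, ?_⟩
  rw [contDiffOn_zero]
  exact hcont.congr (fun z hz => (hHD z hz).fderiv)

theorem fibD_int {α β E : Type*} [TopologicalSpace α] [SecondCountableTopology α]
    [MeasurableSpace α] [OpensMeasurableSpace α]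
    [TopologicalSpace β] [NormedAddCommGroup E]
    (μ : Measure α) (S : Set α) (hS : MeasurableSet S) (hSf : μ S ≠ ⊤)
    (K : Set β) (hK : IsCompact K) (p : α → β) (hp : ∀ a ∈ S, p a ∈ K)
    (hpc : ContinuousOn p S) (G : β → E) (hG : ContinuousOn G K) :
    IntegrableOn (fun a => G (p a)) S μ := by
  obtain ⟨C, hC⟩ := hK.exists_bound_of_continuousOn hG
  have hfin : IsFiniteMeasure (μ.restrict S) := ⟨by
    rw [Measure.restrict_apply_univ]; exact hSf.lt_top⟩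
  refine Integrable.mono' (integrable_const C) ((hG.comp hpc hp).aestronglyMeasurable hS) ?_
  exact (ae_restrict_iff' hS).2 (Eventually.of_forall fun a ha => hC _ (hp a ha))


section
variable {e k1 l1 : ℝ} (H : ParOK e k1 l1)
include H

theorem fibD_J (j k : ℕ) (F : E3 → ℂ) (hF : ContDiff ℝ ∞ F) (hm : IsModeFn j k F)
    (μ1 : Measure ℝ) (hμ1 : μ1 = volume.restrict (Set.Ioo (0 : ℝ) 1)) :
    (∀ z ∈ BB k1 l1, Integrable (fun a => fibDN e k1 l1 j k F (z, fibDp k1 l1 z a))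
      (μ1.prod μ1)) ∧
    (∀ z ∈ BB k1 l1, Integrable (fun a => fibDN' e k1 l1 j k F (z, fibDp k1 l1 z a))
      (μ1.prod μ1)) ∧
    (∀ z ∈ BB k1 l1, HasFDerivAt
      (fun z => ∫ a, fibDN e k1 l1 j k F (z, fibDp k1 l1 z a) ∂(μ1.prod μ1))
      (∫ a, fibDN' e k1 l1 j k F (z, fibDp k1 l1 z a) ∂(μ1.prod μ1)) z) ∧
    ContDiffOn ℝ 1 (fun z => ∫ a, fibDN e k1 l1 j k F (z, fibDp k1 l1 z a) ∂(μ1.prod μ1))
      (BB k1 l1) := by
  have hμ : (volume : Measure (ℝ × ℝ)).restrict (Set.Ioo (0 : ℝ) 1 ×ˢ Set.Ioo (0 : ℝ) 1) =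
      μ1.prod μ1 := by
    rw [hμ1, Measure.volume_eq_prod, Measure.prod_restrict]
  have h := fibD_param (volume : Measure (ℝ × ℝ)) (BB k1 l1) fibD_BB_open
    (Set.Ioo (0 : ℝ) 1 ×ˢ Set.Ioo (0 : ℝ) 1) (measurableSet_Ioo.prod measurableSet_Ioo)
    (by
      rw [Measure.volume_eq_prod, Measure.prod_prod]
      simp)
    fibDK fibD_K_compact (fibDp k1 l1) (fun z hz a ha => fibD_p_mem H hz ha)
    (fun z hz => by
      unfold fibDp
      have h1 := (fibD_u_cont1 H hz).comp (continuous_snd (X := ℝ) (Y := ℝ)).continuousOn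
        (s := Set.Ioo (0 : ℝ) 1 ×ˢ Set.Ioo (0 : ℝ) 1) (fun a ha => ha.2)
      exact continuous_fst.continuousOn.prodMk (continuous_snd.continuousOn.prodMk h1))
    (fun a ha => by
      unfold fibDp
      exact continuousOn_const.prodMk (continuousOn_const.prodMk (fibD_u_cont2 H ha.2)))
    (fibDN e k1 l1 j k F) (fibD_N_cont H j k F hF) (fibDN' e k1 l1 j k F)
    (fibD_N'_cont H j k F hF)
    (fun a ha z hz => fibD_deriv H j k F hF hm a.1 a.2 ha.1.1 ha.2.1 ha.2.2 z hz)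
  simp only [IntegrableOn] at h
  rw [hμ] at h
  exact h

theorem fibD_I (j k : ℕ) (μ1 : Measure ℝ) (hμ1 : μ1 = volume.restrict (Set.Ioo (0 : ℝ) 1)) :
    (∀ z ∈ BB k1 l1, Integrable (fun s => den k1 l1 j k (‖z‖ ^ 2) s) μ1) ∧
    (∀ z ∈ BB k1 l1, Integrable (fun s => Yt k1 l1 (‖z‖ ^ 2) s * den k1 l1 j k (‖z‖ ^ 2) s) μ1) ∧
    (∀ z ∈ BB k1 l1, HasFDerivAt (fun z : ℂ => Iw k1 l1 j k (‖z‖ ^ 2))
      (((j + 1) * ∫ s, Yt k1 l1 (‖z‖ ^ 2) s * den k1 l1 j k (‖z‖ ^ 2) s ∂μ1) •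
        (2 • innerSL ℝ z)) z) ∧
    ContDiffOn ℝ 1 (fun z : ℂ => Iw k1 l1 j k (‖z‖ ^ 2)) (BB k1 l1) := by
  obtain ⟨h1, h2, h3, h4⟩ := fibD_param (volume : Measure ℝ) (BB k1 l1) fibD_BB_open
    (Set.Ioo (0 : ℝ) 1) measurableSet_Ioo (by simp)
    fibDK fibD_K_compact (fun z s => fibDp k1 l1 z (0, s))
    (fun z hz s hs => ⟨⟨le_refl _, zero_le_one⟩, ⟨hs.1.le, hs.2.le⟩, fibD_u_mem H hz hs⟩)
    (fun z hz => by
      unfold fibDp
      exact continuousOn_const.prodMk (continuousOn_id.prodMk (fibD_u_cont1 H hz)))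
    (fun s hs => by
      unfold fibDp
      exact continuousOn_const.prodMk (continuousOn_const.prodMk (fibD_u_cont2 H hs)))
    (fibDM j k) (fibD_M_cont j k) (fibDM' k1 l1 j k) (fibD_M'_cont H j k)
    (fun s hs z hz => fibD_Md H j k hz hs.1 hs.2)
  simp only [fibD_Meq] at h1 h3 h4
  subst hμ1
  have h5 : ∀ z ∈ BB k1 l1, ∀ s ∈ Set.Ioo (0 : ℝ) 1,
      fibDM' k1 l1 j k (z, fibDp k1 l1 z (0, s)) =
      ((j + 1) * (Yt k1 l1 (‖z‖ ^ 2) s * den k1 l1 j k (‖z‖ ^ 2) s)) • (2 • innerSL ℝ z) := by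
    intro z hz s hs
    unfold fibDM'
    rw [fibD_meq H j k hz hs.1 hs.2]
  have hmint : ∀ z ∈ BB k1 l1, Integrable (fun s => Yt k1 l1 (‖z‖ ^ 2) s *
      den k1 l1 j k (‖z‖ ^ 2) s) (volume.restrict (Set.Ioo (0 : ℝ) 1)) := by
    intro z hz
    have h6 := fibD_int (volume : Measure ℝ) (Set.Ioo (0 : ℝ) 1) measurableSet_Ioo (by simp)
      fibDK fibD_K_compact (fun s => fibDp k1 l1 z (0, s))
      (fun s hs => ⟨⟨le_refl _, zero_le_one⟩, ⟨hs.1.le, hs.2.le⟩, fibD_u_mem H hz hs⟩)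
      (by
        unfold fibDp
        exact continuousOn_const.prodMk (continuousOn_id.prodMk (fibD_u_cont1 H hz)))
      (fun b => fibDm k1 l1 j k (z, b))
      ((fibD_m_cont H j k).comp (by fun_prop) (fun b hb => ⟨hz, hb⟩))
    have h7 : IntegrableOn (fun s => ((j : ℝ) + 1) * (Yt k1 l1 (‖z‖ ^ 2) s *
        den k1 l1 j k (‖z‖ ^ 2) s)) (Set.Ioo (0 : ℝ) 1) volume :=
      h6.congr_fun (fun s hs => fibD_meq H j k hz hs.1 hs.2) measurableSet_Ioo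
    have h8 := h7.const_mul (((j : ℝ) + 1)⁻¹)
    refine h8.congr (Eventually.of_forall fun s => ?_)
    have : (j : ℝ) + 1 ≠ 0 := by positivity
    dsimp only
    field_simp
  refine ⟨h1, hmint, ?_, h4⟩
  intro z hz
  refine (h3 z hz).congr_fderiv ?_
  rw [setIntegral_congr_fun measurableSet_Ioo (h5 z hz), integral_smul_const,
    integral_const_mul]

theorem fibD_Ipos (j k : ℕ) {z : ℂ} (hz : z ∈ BB k1 l1) : 0 < Iw k1 l1 j k (‖z‖ ^ 2) := by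
  unfold Iw
  rw [← integral_Ioc_eq_integral_Ioo, ← intervalIntegral.integral_of_le zero_le_one]
  apply intervalIntegral.intervalIntegral_pos_of_pos_on _ _ one_pos
  · rw [intervalIntegrable_iff_integrableOn_Ioo_of_le zero_le_one]
    exact (fibD_I H j k _ rfl).1 z hz
  · intro s hs
    obtain ⟨-, h2, -⟩ := fibD_Xd H (t := ‖z‖ ^ 2) hz hs.1 hs.2
    have := hs.1
    unfold den
    positivity

end

theorem fibD_vint (j : ℕ) : ∫ v in Set.Ioo (0 : ℝ) 1, v ^ (2 * j + 1) = 1 / (2 * j + 2) := by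
  rw [← integral_Ioc_eq_integral_Ioo, ← intervalIntegral.integral_of_le zero_le_one, integral_pow]
  push_cast
  simp
  ring

theorem fibD : FibD_stmt := by
  intro e k1 l1 H j k F hF hm
  obtain ⟨μ1, hμ1⟩ : ∃ μ1 : Measure ℝ, μ1 = volume.restrict (Set.Ioo (0 : ℝ) 1) := ⟨_, rfl⟩
  obtain ⟨hJ1, hJ2, hJ3, hJ4⟩ := fibD_J H j k F hF hm μ1 hμ1
  obtain ⟨hI1, hI2, hI3, hI4⟩ := fibD_I H j k μ1 hμ1
  have hI0 : ∀ z ∈ BB k1 l1, Iw k1 l1 j k (‖z‖ ^ 2) ≠ 0 := fun z hz => (fibD_Ipos H j k hz).ne'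
  -- pointwise identities
  have hW : ∀ z ∈ BB k1 l1, ∀ v ∈ Set.Ioo (0 : ℝ) 1, ∀ s ∈ Set.Ioo (0 : ℝ) 1, ∀ c : ℂ,
      c / (mono e k1 l1 j k z v s : ℂ) * ((v ^ (2 * j + 1) * den k1 l1 j k (‖z‖ ^ 2) s : ℝ) : ℂ) =
      (fibDP e k1 l1 j k (z, fibDp k1 l1 z (v, s)) : ℂ) * c := by
    intro z hz v hv s hs c
    rw [fibD_weight H j k hz hv.1 hs.1 hs.2]
    have h1 : (mono e k1 l1 j k z v s : ℂ) ≠ 0 := by
      exact_mod_cast (fibD_mono_pos H j k hz hv.1 hs.1 hs.2).ne'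
    push_cast
    field_simp
  have hJeq : ∀ z ∈ BB k1 l1, (∫ v in Set.Ioo (0 : ℝ) 1, ∫ s in Set.Ioo (0 : ℝ) 1,
      cc e k1 l1 j k F z v s * ((v ^ (2 * j + 1) * den k1 l1 j k (‖z‖ ^ 2) s : ℝ) : ℂ)) =
      ∫ a, fibDN e k1 l1 j k F (z, fibDp k1 l1 z a) ∂(μ1.prod μ1) := by
    intro z hz
    have hsf : SFinite μ1 := by rw [hμ1]; infer_instance
    rw [integral_prod _ (hJ1 z hz), hμ1]
    refine setIntegral_congr_fun measurableSet_Ioo (fun v hv => ?_)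
    refine setIntegral_congr_fun measurableSet_Ioo (fun s hs => ?_)
    show F (Pt e k1 l1 z v s) / (mono e k1 l1 j k z v s : ℂ) * _ = _
    rw [hW z hz v hv s hs]
    unfold fibDN
    rw [fibD_Pteq]
  have haa : ∀ z ∈ BB k1 l1, aa e k1 l1 j k F z =
      (∫ a, fibDN e k1 l1 j k F (z, fibDp k1 l1 z a) ∂(μ1.prod μ1)) *
      (((2 * j + 2) / Iw k1 l1 j k (‖z‖ ^ 2) : ℝ) : ℂ) := by
    intro z hz
    unfold aa EC
    rw [hJeq z hz]
  constructor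
  · have h1 : ContDiffOn ℝ 1 (fun z : ℂ => (((2 * j + 2) / Iw k1 l1 j k (‖z‖ ^ 2) : ℝ) : ℂ))
        (BB k1 l1) :=
      Complex.ofRealCLM.contDiff.comp_contDiffOn (contDiffOn_const.div hI4 hI0)
    exact (hJ4.mul h1).congr haa
  · intro z hz
    have hopen : BB k1 l1 ∈ 𝓝 z := fibD_BB_open.mem_nhds hz
    obtain ⟨I0, hI0d⟩ : ∃ I0, I0 = Iw k1 l1 j k (‖z‖ ^ 2) := ⟨_, rfl⟩
    obtain ⟨dI, hdI⟩ : ∃ dI, dI = ∫ s, Yt k1 l1 (‖z‖ ^ 2) s * den k1 l1 j k (‖z‖ ^ 2) s ∂μ1 :=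
      ⟨_, rfl⟩
    obtain ⟨J0, hJ0⟩ : ∃ J0, J0 = ∫ a, fibDN e k1 l1 j k F (z, fibDp k1 l1 z a) ∂(μ1.prod μ1) :=
      ⟨_, rfl⟩
    obtain ⟨J', hJ'⟩ : ∃ J', J' = ∫ a, fibDN' e k1 l1 j k F (z, fibDp k1 l1 z a) ∂(μ1.prod μ1) :=
      ⟨_, rfl⟩
    have hI0n : I0 ≠ 0 := by rw [hI0d]; exact hI0 z hz
    have hd1 : HasDerivAt (fun y : ℝ => (2 * (j : ℝ) + 2) / y) (-(2 * (j : ℝ) + 2) / I0 ^ 2) I0 := by
      have := (hasDerivAt_inv hI0n).const_mul (2 * (j : ℝ) + 2)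
      refine (this.congr_deriv ?_)
      ring
    have hd2 : HasFDerivAt (fun w : ℂ => (2 * (j : ℝ) + 2) / Iw k1 l1 j k (‖w‖ ^ 2))
        ((-(2 * (j : ℝ) + 2) / I0 ^ 2) • ((((j : ℝ) + 1) * dI) • (2 • innerSL ℝ z))) z := by
      have h3 := hI3 z hz
      rw [← hdI] at h3
      rw [hI0d] at hd1 ⊢
      exact hd1.comp_hasFDerivAt z h3
    have hd3 := Complex.ofRealCLM.hasFDerivAt.comp z hd2
    have hJd := hJ3 z hz
    rw [← hJ'] at hJd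
    have hd4 := hJd.mul hd3
    have hd5 : HasFDerivAt (aa e k1 l1 j k F) _ z :=
      hd4.congr_of_eventuallyEq (by filter_upwards [hopen] with w hw using haa w hw)
    have hin2 : ∀ w : ℂ, (2 • innerSL ℝ z) w = 2 * inner ℝ z w := by
      intro w
      rw [_root_.smul_apply, innerSL_apply_apply, nsmul_eq_mul]; norm_num
    have hD : ∀ w : ℂ, fderiv ℝ (aa e k1 l1 j k F) z w =
        J0 * (((-(2 * (j : ℝ) + 2) / I0 ^ 2) * ((((j : ℝ) + 1) * dI) * (2 * inner ℝ z w)) : ℝ) : ℂ) +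
        (((2 * (j : ℝ) + 2) / I0 : ℝ) : ℂ) * J' w := by
      intro w
      rw [hd5.fderiv, _root_.add_apply, _root_.smul_apply, _root_.smul_apply,
        ContinuousLinearMap.comp_apply, ← hJ0, Function.comp_apply, ← hI0d, _root_.smul_apply,
        _root_.smul_apply, hin2]
      simp only [smul_eq_mul, Complex.ofRealCLM_apply]
    have hN : ∀ v s : ℝ, ∀ w : ℂ, fibDN' e k1 l1 j k F (z, fibDp k1 l1 z (v, s)) w =
        (fibDP e k1 l1 j k (z, fibDp k1 l1 z (v, s)) : ℂ) *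
          fderiv ℝ F (Pt e k1 l1 z v s) (Pi.single 0 w) +
        ((2 * inner ℝ z w : ℝ) : ℂ) * ((fibDP e k1 l1 j k (z, fibDp k1 l1 z (v, s)) : ℂ) *
          fibDR e k1 l1 j F (z, fibDp k1 l1 z (v, s))) := by
      intro v s w
      unfold fibDN'
      rw [fibD_Pteq, _root_.add_apply, _root_.smul_apply, ContinuousLinearMap.comp_apply,
        ContinuousLinearMap.smulRight_apply, ContinuousLinearMap.single_apply, hin2]
      simp only [Complex.real_smul]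
    have hin1 : (inner ℝ z (1 : ℂ) : ℝ) = z.re := by simp [Complex.inner]
    have hinI : (inner ℝ z I : ℝ) = z.im := by simp [Complex.inner]
    obtain ⟨c0, hc0⟩ : ∃ c0, c0 = ((j : ℂ) + 1) * z * aa e k1 l1 j k F z := ⟨_, rfl⟩
    have hpt : ∀ v ∈ Set.Ioo (0 : ℝ) 1, ∀ s ∈ Set.Ioo (0 : ℝ) 1,
      (GG e k1 l1 j k F 0 z v s +
      2 * GG e k1 l1 j k F 1 z v s * (e * v * z * Xt k1 l1 (‖z‖ ^ 2) s /
        (2 * Real.sqrt (1 + XX k1 l1 (‖z‖ ^ 2) s) : ℝ)) -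
      GG e k1 l1 j k F 2 z v s * (e * s * z * Real.sqrt (dl k1 l1 (‖z‖ ^ 2)) *
        Lm1 k1 l1 (‖z‖ ^ 2)) +
      (j + 1) * z * (cc e k1 l1 j k F z v s - aa e k1 l1 j k F z) * Yt k1 l1 (‖z‖ ^ 2) s) *
      ((v ^ (2 * j + 1) * den k1 l1 j k (‖z‖ ^ 2) s : ℝ) : ℂ) =
      (1 / 2) * (fibDN' e k1 l1 j k F (z, fibDp k1 l1 z (v, s)) 1 +
        I * fibDN' e k1 l1 j k F (z, fibDp k1 l1 z (v, s)) I) -
      c0 * ((v ^ (2 * j + 1) * (Yt k1 l1 (‖z‖ ^ 2) s * den k1 l1 j k (‖z‖ ^ 2) s) : ℝ) : ℂ) := by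
      intro v hv s hs
      have e0 := hW z hz v hv s hs (dbar 0 F (Pt e k1 l1 z v s))
      have e1 := hW z hz v hv s hs (dbar 1 F (Pt e k1 l1 z v s))
      have e2 := hW z hz v hv s hs (dbar 2 F (Pt e k1 l1 z v s))
      have e3 := hW z hz v hv s hs (F (Pt e k1 l1 z v s))
      rw [hN, hN, hin1, hinI, hc0]
      have hd0 : dbar 0 F (Pt e k1 l1 z v s) = (1 / 2) *
        (fderiv ℝ F (Pt e k1 l1 z v s) (Pi.single 0 1) +
          I * fderiv ℝ F (Pt e k1 l1 z v s) (Pi.single 0 I)) := rfl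
      have hR : fibDR e k1 l1 j F (z, fibDp k1 l1 z (v, s)) =
        ((e * v * (Xt k1 l1 (‖z‖ ^ 2) s / Real.sqrt (1 + XX k1 l1 (‖z‖ ^ 2) s)) : ℝ) : ℂ) *
          dbar 1 F (Pt e k1 l1 z v s) -
        ((e * s * Real.sqrt (dl k1 l1 (‖z‖ ^ 2)) * Lm1 k1 l1 (‖z‖ ^ 2) : ℝ) : ℂ) *
          dbar 2 F (Pt e k1 l1 z v s) +
        ((((j : ℝ) + 1) * Yt k1 l1 (‖z‖ ^ 2) s : ℝ) : ℂ) * F (Pt e k1 l1 z v s) := by
        obtain ⟨-, h2, -⟩ := fibD_Xd H (t := ‖z‖ ^ 2) hz hs.1 hs.2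
        unfold fibDR
        rw [fibD_Aeq, fibD_Pteq, Real.sq_sqrt (by linarith),
          show fibDx k1 l1 (z, fibDp k1 l1 z (v, s)) = Xt k1 l1 (‖z‖ ^ 2) s from fibD_xeq z s v]
        rfl
      rw [hR]
      have hzri : z = (z.re : ℂ) + I * (z.im : ℂ) := by
        rw [mul_comm]; exact (Complex.re_add_im z).symm
      have hWW : ((v ^ (2 * j + 1) * (Yt k1 l1 (‖z‖ ^ 2) s * den k1 l1 j k (‖z‖ ^ 2) s) : ℝ) : ℂ) =
        (Yt k1 l1 (‖z‖ ^ 2) s : ℂ) * ((v ^ (2 * j + 1) * den k1 l1 j k (‖z‖ ^ 2) s : ℝ) : ℂ) := by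
        push_cast; ring
      rw [hWW]
      unfold GG cc
      generalize ((v ^ (2 * j + 1) * den k1 l1 j k (‖z‖ ^ 2) s : ℝ) : ℂ) = W at *
      generalize fibDP e k1 l1 j k (z, fibDp k1 l1 z (v, s)) = P at *
      generalize F (Pt e k1 l1 z v s) = FF at *
      generalize dbar 0 F (Pt e k1 l1 z v s) = D0 at *
      generalize dbar 1 F (Pt e k1 l1 z v s) = D1 at *
      generalize dbar 2 F (Pt e k1 l1 z v s) = D2 at *
      generalize fderiv ℝ F (Pt e k1 l1 z v s) (Pi.single 0 1) = a1 at *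
      generalize fderiv ℝ F (Pt e k1 l1 z v s) (Pi.single 0 I) = aI at *
      generalize aa e k1 l1 j k F z = AZ at *
      generalize Real.sqrt (1 + XX k1 l1 (‖z‖ ^ 2) s) = SA at *
      generalize Real.sqrt (dl k1 l1 (‖z‖ ^ 2)) = SB at *
      generalize Lm1 k1 l1 (‖z‖ ^ 2) = LL at *
      generalize Xt k1 l1 (‖z‖ ^ 2) s = XT at *
      generalize Yt k1 l1 (‖z‖ ^ 2) s = YT at *
      push_cast
      linear_combination e0 + (e * v * z * XT / SA) * e1 - (e * s * z * SB * LL) * e2 +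
        ((j + 1) * z * YT) * e3 + P * hd0 + (P * (e * v * (XT / SA) * D1 - e * s * SB * LL * D2 +
          (j + 1) * YT * FF)) * hzri
    have hsf : SFinite μ1 := by rw [hμ1]; infer_instance
    have hvI : Integrable (fun v : ℝ => v ^ (2 * j + 1)) μ1 := by
      rw [hμ1]
      exact (Continuous.integrableOn_Icc (by fun_prop)).mono_set Set.Ioo_subset_Icc_self
    have hprod : Integrable (fun a : ℝ × ℝ => a.1 ^ (2 * j + 1) *
        (Yt k1 l1 (‖z‖ ^ 2) a.2 * den k1 l1 j k (‖z‖ ^ 2) a.2)) (μ1.prod μ1) :=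
      hvI.mul_prod (hI2 z hz)
    have hN1i : ∀ w : ℂ, Integrable (fun a => fibDN' e k1 l1 j k F (z, fibDp k1 l1 z a) w)
        (μ1.prod μ1) := fun w => (hJ2 z hz).apply_continuousLinearMap w
    have hN1v : ∀ w : ℂ, ∫ a, fibDN' e k1 l1 j k F (z, fibDp k1 l1 z a) w ∂(μ1.prod μ1) = J' w := by
      intro w
      rw [hJ', ContinuousLinearMap.integral_apply (hJ2 z hz)]
    have key : ∀ G : ℝ → ℝ → ℂ, (∀ v ∈ Set.Ioo (0 : ℝ) 1, ∀ s ∈ Set.Ioo (0 : ℝ) 1, G v s =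
        (1 / 2) * (fibDN' e k1 l1 j k F (z, fibDp k1 l1 z (v, s)) 1 +
          I * fibDN' e k1 l1 j k F (z, fibDp k1 l1 z (v, s)) I) -
        c0 * ((v ^ (2 * j + 1) * (Yt k1 l1 (‖z‖ ^ 2) s * den k1 l1 j k (‖z‖ ^ 2) s) : ℝ) : ℂ)) →
        ∫ v in Set.Ioo (0 : ℝ) 1, ∫ s in Set.Ioo (0 : ℝ) 1, G v s =
        (1 / 2) * (J' 1 + I * J' I) - c0 * ((1 / (2 * (j : ℝ) + 2) * dI : ℝ) : ℂ) := by
      intro G hG
      have hA : Integrable (fun a : ℝ × ℝ => (1 / 2 : ℂ) *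
          (fibDN' e k1 l1 j k F (z, fibDp k1 l1 z a) 1 +
          I * fibDN' e k1 l1 j k F (z, fibDp k1 l1 z a) I)) (μ1.prod μ1) :=
        ((hN1i 1).add ((hN1i I).const_mul I)).const_mul (1 / 2)
      have hB : Integrable (fun a : ℝ × ℝ => c0 * ((a.1 ^ (2 * j + 1) *
          (Yt k1 l1 (‖z‖ ^ 2) a.2 * den k1 l1 j k (‖z‖ ^ 2) a.2) : ℝ) : ℂ)) (μ1.prod μ1) :=
        hprod.ofReal.const_mul c0
      have h1 : ∫ v in Set.Ioo (0 : ℝ) 1, ∫ s in Set.Ioo (0 : ℝ) 1, G v s =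
          ∫ a, ((1 / 2 : ℂ) * (fibDN' e k1 l1 j k F (z, fibDp k1 l1 z a) 1 +
            I * fibDN' e k1 l1 j k F (z, fibDp k1 l1 z a) I) -
            c0 * ((a.1 ^ (2 * j + 1) * (Yt k1 l1 (‖z‖ ^ 2) a.2 *
              den k1 l1 j k (‖z‖ ^ 2) a.2) : ℝ) : ℂ)) ∂(μ1.prod μ1) := by
        have hAB : Integrable (fun a : ℝ × ℝ => (1 / 2 : ℂ) *
            (fibDN' e k1 l1 j k F (z, fibDp k1 l1 z a) 1 +
            I * fibDN' e k1 l1 j k F (z, fibDp k1 l1 z a) I) - c0 * ((a.1 ^ (2 * j + 1) *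
            (Yt k1 l1 (‖z‖ ^ 2) a.2 * den k1 l1 j k (‖z‖ ^ 2) a.2) : ℝ) : ℂ)) (μ1.prod μ1) :=
          hA.sub hB
        rw [integral_prod _ hAB, hμ1]
        refine setIntegral_congr_fun measurableSet_Ioo (fun v hv => ?_)
        exact setIntegral_congr_fun measurableSet_Ioo (fun s hs => hG v hv s hs)
      rw [h1, integral_sub hA hB, integral_const_mul, integral_const_mul,
        integral_add (hN1i 1) ((hN1i I).const_mul I), integral_const_mul, hN1v, hN1v,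
        integral_complex_ofReal, integral_prod_mul (μ := μ1) (ν := μ1) (fun v : ℝ => v ^ (2 * j + 1))
          (fun s => Yt k1 l1 (‖z‖ ^ 2) s * den k1 l1 j k (‖z‖ ^ 2) s), ← hdI]
      have h2 : ∫ v, v ^ (2 * j + 1) ∂μ1 = 1 / (2 * j + 2) := by
        rw [hμ1]; exact fibD_vint j
      rw [h2]
    unfold EC
    dsimp only
    rw [key _ hpt]
    unfold db1
    rw [hD, hD, hin1, hinI, hc0, haa z hz, ← hJ0, ← hI0d]
    have hI0c : (I0 : ℂ) ≠ 0 := by exact_mod_cast hI0n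
    have hjc : (2 * (j : ℂ) + 2) ≠ 0 := by
      have : (2 * (j : ℝ) + 2) ≠ 0 := by positivity
      exact_mod_cast this
    have hzri : z = (z.re : ℂ) + I * (z.im : ℂ) := by
      rw [mul_comm]; exact (Complex.re_add_im z).symm
    push_cast
    have hterm : ((j : ℂ) + 1) * z * (J0 * ((2 * j + 2) / I0)) * (1 / (2 * j + 2) * dI) *
        ((2 * j + 2) / I0) = - (J0 * (-(2 * (j : ℂ) + 2) / I0 ^ 2 * ((j + 1) * dI))) * z := by
      field_simp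
    linear_combination (-(J0 * (-(2 * (j : ℂ) + 2) / I0 ^ 2 * ((j + 1) * dI)))) * hzri + hterm

end DbarN.JFD
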