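import Pool.Agent.H314.DN.Stmts2
import Pool.Agent.H314.DN.A0
import Pool.Agent.H314.DN.A1

set_option autoImplicit false

open MeasureTheory Complex Filter Topology
open scoped ContDiff InnerProductSpace ENNReal ComplexConjugate

namespace DbarN.JHS1

/-! ### basic lemmas on smooth functions and directional derivatives -/

/-- directional derivative -/
noncomputable def Dv (w : E3) (v : E3 → ℂ) (x : E3) : ℂ := fderiv ℝ v x w

theorem Dv_smooth {v : E3 → ℂ} (hv : ContDiff ℝ ∞ v) (w : E3) : ContDiff ℝ ∞ (Dv w v) := by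
  unfold Dv
  exact (hv.fderiv_right (m := ∞) (by norm_num)).clm_apply contDiff_const

theorem Dv_compact {v : E3 → ℂ} (hv : HasCompactSupport v) (w : E3) :
    HasCompactSupport (Dv w v) := by
  unfold Dv
  exact hv.fderiv_apply ℝ w

theorem smooth_diff {v : E3 → ℂ} (hv : ContDiff ℝ ∞ v) : Differentiable ℝ v :=
  hv.differentiable (by norm_num)

theorem Dv_lin {a b : E3 → ℂ} (ha : ContDiff ℝ ∞ a) (hb : ContDiff ℝ ∞ b) (c d : ℂ) (w x : E3) :
    Dv w (fun x => c * (a x + d * b x)) x = c * (Dv w a x + d * Dv w b x) := by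
  unfold Dv
  have h1 : HasFDerivAt (fun x => c * (a x + d * b x))
      (c • (fderiv ℝ a x + d • fderiv ℝ b x)) x :=
    (((smooth_diff ha) x).hasFDerivAt.add (((smooth_diff hb) x).hasFDerivAt.const_mul d)).const_mul c
  rw [h1.fderiv]
  simp
  ring

theorem Dv_mul {a b : E3 → ℂ} (ha : ContDiff ℝ ∞ a) (hb : ContDiff ℝ ∞ b) (w x : E3) :
    Dv w (fun x => a x * b x) x = Dv w a x * b x + a x * Dv w b x := by
  unfold Dv
  have h1 : HasFDerivAt (fun x => a x * b x) (a x • fderiv ℝ b x + b x • fderiv ℝ a x) x :=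
    ((smooth_diff ha) x).hasFDerivAt.mul ((smooth_diff hb) x).hasFDerivAt
  rw [h1.fderiv]
  simp
  ring

theorem Dv_add {a b : E3 → ℂ} (ha : ContDiff ℝ ∞ a) (hb : ContDiff ℝ ∞ b) (w x : E3) :
    Dv w (fun x => a x + b x) x = Dv w a x + Dv w b x := by
  unfold Dv
  have h1 : HasFDerivAt (fun x => a x + b x) (fderiv ℝ a x + fderiv ℝ b x) x :=
    ((smooth_diff ha) x).hasFDerivAt.add ((smooth_diff hb) x).hasFDerivAt
  rw [h1.fderiv]
  simp

theorem Dv_conj {a : E3 → ℂ} (ha : ContDiff ℝ ∞ a) (w x : E3) :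
    Dv w (fun x => conj (a x)) x = conj (Dv w a x) := by
  unfold Dv
  have h1 : HasFDerivAt (fun x => conj (a x))
      ((Complex.conjCLE : ℂ →L[ℝ] ℂ).comp (fderiv ℝ a x)) x :=
    (Complex.conjCLE : ℂ →L[ℝ] ℂ).hasFDerivAt.comp x ((smooth_diff ha) x).hasFDerivAt
  rw [h1.fderiv]
  simp

theorem Dv_comm {a : E3 → ℂ} (ha : ContDiff ℝ ∞ a) (w u x : E3) :
    Dv w (Dv u a) x = Dv u (Dv w a) x := by
  have h0 : Differentiable ℝ (fderiv ℝ a) :=
    (ha.fderiv_right (m := ∞) (by norm_num)).differentiable (by norm_num)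
  have h1 : ∀ w u : E3, Dv w (Dv u a) x = fderiv ℝ (fderiv ℝ a) x w u := by
    intro w u
    unfold Dv
    have h2 : HasFDerivAt (fun x => fderiv ℝ a x u)
        ((ContinuousLinearMap.apply ℝ ℂ u).comp (fderiv ℝ (fderiv ℝ a) x)) x :=
      (ContinuousLinearMap.apply ℝ ℂ u).hasFDerivAt.comp x (h0 x).hasFDerivAt
    rw [h2.fderiv]
    simp
  rw [h1, h1]
  have h3 : IsSymmSndFDerivAt ℝ a x := by
    apply ContDiffAt.isSymmSndFDerivAt (n := ∞) ha.contDiffAt
    rw [minSmoothness_of_isRCLikeNormedField]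
    exact WithTop.coe_le_coe.2 le_top
  exact h3 w u

theorem dbar_eq (j : Fin 3) (v : E3 → ℂ) :
    dbar j v = fun x => (1 / 2) * (Dv (Pi.single j 1) v x + I * Dv (Pi.single j I) v x) := rfl

theorem dz_eq (j : Fin 3) (v : E3 → ℂ) :
    dz j v = fun x => (1 / 2) * (Dv (Pi.single j 1) v x + (-I) * Dv (Pi.single j I) v x) := by
  funext x
  unfold dz Dv
  ring

theorem dbar_smooth {v : E3 → ℂ} (hv : ContDiff ℝ ∞ v) (j : Fin 3) : ContDiff ℝ ∞ (dbar j v) := by
  rw [dbar_eq]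
  exact contDiff_const.mul ((Dv_smooth hv _).add (contDiff_const.mul (Dv_smooth hv _)))

theorem dz_smooth {v : E3 → ℂ} (hv : ContDiff ℝ ∞ v) (j : Fin 3) : ContDiff ℝ ∞ (dz j v) := by
  rw [dz_eq]
  exact contDiff_const.mul ((Dv_smooth hv _).add (contDiff_const.mul (Dv_smooth hv _)))

theorem dbar_dz_comm {v : E3 → ℂ} (hv : ContDiff ℝ ∞ v) (j k : Fin 3) (x : E3) :
    dbar k (dz j v) x = dz j (dbar k v) x := by
  have h1 : dbar k (dz j v) x = (1 / 2) * (Dv (Pi.single k 1) (dz j v) x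
      + I * Dv (Pi.single k I) (dz j v) x) := rfl
  have h2 : dz j (dbar k v) x = (1 / 2) * (Dv (Pi.single j 1) (dbar k v) x
      + (-I) * Dv (Pi.single j I) (dbar k v) x) := by rw [dz_eq]
  rw [h1, h2, dz_eq, dbar_eq]
  rw [Dv_lin (Dv_smooth hv _) (Dv_smooth hv _), Dv_lin (Dv_smooth hv _) (Dv_smooth hv _),
    Dv_lin (Dv_smooth hv _) (Dv_smooth hv _), Dv_lin (Dv_smooth hv _) (Dv_smooth hv _)]
  rw [Dv_comm hv (Pi.single k 1) (Pi.single j 1), Dv_comm hv (Pi.single k 1) (Pi.single j I),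
    Dv_comm hv (Pi.single k I) (Pi.single j 1), Dv_comm hv (Pi.single k I) (Pi.single j I)]
  ring

theorem dbar_mul {a b : E3 → ℂ} (ha : ContDiff ℝ ∞ a) (hb : ContDiff ℝ ∞ b) (j : Fin 3) (x : E3) :
    dbar j (fun x => a x * b x) x = dbar j a x * b x + a x * dbar j b x := by
  simp only [dbar_eq]
  rw [Dv_mul ha hb, Dv_mul ha hb]
  ring

theorem dz_mul {a b : E3 → ℂ} (ha : ContDiff ℝ ∞ a) (hb : ContDiff ℝ ∞ b) (j : Fin 3) (x : E3) :
    dz j (fun x => a x * b x) x = dz j a x * b x + a x * dz j b x := by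
  simp only [dz_eq]
  rw [Dv_mul ha hb, Dv_mul ha hb]
  ring

theorem dbar_lin {a b : E3 → ℂ} (ha : ContDiff ℝ ∞ a) (hb : ContDiff ℝ ∞ b) (c d : ℂ) (j : Fin 3)
    (x : E3) : dbar j (fun x => c * (a x + d * b x)) x = c * (dbar j a x + d * dbar j b x) := by
  simp only [dbar_eq]
  rw [Dv_lin ha hb, Dv_lin ha hb]
  ring

theorem dz_lin {a b : E3 → ℂ} (ha : ContDiff ℝ ∞ a) (hb : ContDiff ℝ ∞ b) (c d : ℂ) (j : Fin 3)
    (x : E3) : dz j (fun x => c * (a x + d * b x)) x = c * (dz j a x + d * dz j b x) := by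
  simp only [dz_eq]
  rw [Dv_lin ha hb, Dv_lin ha hb]
  ring

theorem conj_smooth {a : E3 → ℂ} (ha : ContDiff ℝ ∞ a) : ContDiff ℝ ∞ (fun x => conj (a x)) :=
  (Complex.conjCLE : ℂ →L[ℝ] ℂ).contDiff.comp ha

theorem dbar_conj {a : E3 → ℂ} (ha : ContDiff ℝ ∞ a) (j : Fin 3) (x : E3) :
    dbar j (fun x => conj (a x)) x = conj (dz j a x) := by
  simp only [dbar_eq, dz_eq]
  have h2 : (starRingEnd ℂ) (1 / 2 : ℂ) = 1 / 2 := by
    rw [map_div₀, map_one, map_ofNat]
  rw [Dv_conj ha, Dv_conj ha, map_mul, h2, map_add, map_mul, map_neg, conj_I, neg_neg]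

theorem Ph_smooth {Φ : E3 → ℝ} (hΦ : ContDiff ℝ ∞ Φ) : ContDiff ℝ ∞ (Ph Φ) :=
  Complex.ofRealCLM.contDiff.comp hΦ

theorem dbar_Ph {Φ : E3 → ℝ} (hΦ : ContDiff ℝ ∞ Φ) (j : Fin 3) (x : E3) :
    dbar j (Ph Φ) x = conj (dz j (Ph Φ) x) := by
  rw [← dbar_conj (Ph_smooth hΦ)]
  congr 1
  funext y
  simp [Ph]

/-- smooth with compact support -/
structure Tst (a : E3 → ℂ) : Prop where
  sm : ContDiff ℝ ∞ a
  cp : HasCompactSupport a

theorem Tst.dbar {a : E3 → ℂ} (h : Tst a) (j : Fin 3) : Tst (dbar j a) := by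
  refine ⟨dbar_smooth h.sm j, ?_⟩
  rw [dbar_eq]
  have h1 : HasCompactSupport (fun x => Dv (Pi.single j 1) a x + I * Dv (Pi.single j I) a x) :=
    (Dv_compact h.cp _).add ((Dv_compact h.cp _).mul_left (f := fun _ => I))
  exact h1.mul_left (f := fun _ => (1 / 2 : ℂ))

theorem Tst.dz {a : E3 → ℂ} (h : Tst a) (j : Fin 3) : Tst (dz j a) := by
  refine ⟨dz_smooth h.sm j, ?_⟩
  rw [dz_eq]
  have h1 : HasCompactSupport (fun x => Dv (Pi.single j 1) a x + (-I) * Dv (Pi.single j I) a x) :=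
    (Dv_compact h.cp _).add ((Dv_compact h.cp _).mul_left (f := fun _ => -I))
  exact h1.mul_left (f := fun _ => (1 / 2 : ℂ))

theorem Tst.mulL {a f : E3 → ℂ} (h : Tst a) (hf : ContDiff ℝ ∞ f) : Tst (fun x => f x * a x) :=
  ⟨hf.mul h.sm, h.cp.mul_left⟩

theorem Tst.add {a b : E3 → ℂ} (h : Tst a) (h' : Tst b) : Tst (fun x => a x + b x) :=
  ⟨h.sm.add h'.sm, h.cp.add h'.cp⟩

theorem Tst.neg {a : E3 → ℂ} (h : Tst a) : Tst (fun x => - a x) :=
  ⟨h.sm.neg, h.cp.neg⟩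

theorem Tst.conj {a : E3 → ℂ} (h : Tst a) : Tst (fun x => conj (a x)) :=
  ⟨conj_smooth h.sm, h.cp.comp_left (g := fun z : ℂ => (starRingEnd ℂ) z) (map_zero _)⟩

theorem Tst.integrable {a b : E3 → ℂ} (h : Tst a) (hb : Continuous b) :
    Integrable (fun x => a x * b x) :=
  (h.sm.continuous.mul hb).integrable_of_hasCompactSupport h.cp.mul_right

theorem Tst.integrable' {a b : E3 → ℂ} (h : Tst a) (hb : Continuous b) :
    Integrable (fun x => b x * a x) :=
  (hb.mul h.sm.continuous).integrable_of_hasCompactSupport h.cp.mul_left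


/-! ### cutoff -/

theorem cutoff (K U : Set E3) (hK : IsCompact K) (hU : IsOpen U) (hKU : K ⊆ U) :
    ∃ (χ : E3 → ℝ) (V : Set E3), ContDiff ℝ ∞ χ ∧ HasCompactSupport χ ∧
      (∀ x, 0 ≤ χ x ∧ χ x ≤ 1) ∧ IsOpen V ∧ K ⊆ V ∧ V ⊆ U ∧ ∀ x ∈ V, χ x = 1 := by
  obtain ⟨K2, hK2, h1, h2⟩ := exists_compact_between hK hU hKU
  obtain ⟨f, hf1, hf0, hf⟩ := exists_contMDiffMap_one_nhds_of_subset_interior (n := ⊤)
    (modelWithCornersSelf ℝ E3) hK.isClosed h1
  obtain ⟨V, hV, hKV, hV1⟩ := eventually_nhdsSet_iff_exists.1 hf1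
  have hsupp : tsupport (f : E3 → ℝ) ⊆ K2 := by
    apply closure_minimal _ hK2.isClosed
    intro x hx
    by_contra h
    exact hx (hf0 x h)
  refine ⟨f, V ∩ U, f.contMDiff.contDiff, ?_, hf, hV.inter hU, ?_,
    Set.inter_subset_right, fun x hx => hV1 x hx.1⟩
  · exact hK2.of_isClosed_subset (isClosed_tsupport _) hsupp
  · exact Set.subset_inter hKV hKU

/-! ### the weight -/

/-- `Σ |x_j|²` -/
noncomputable def nsq (x : E3) : ℝ := ∑ j, ‖x j‖ ^ 2

theorem nsq_nonneg (x : E3) : 0 ≤ nsq x := Finset.sum_nonneg (fun _ _ => sq_nonneg _)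

theorem co_smooth (j : Fin 3) : ContDiff ℝ ∞ (fun x : E3 => x j) :=
  (ContinuousLinearMap.proj (R := ℝ) (φ := fun _ : Fin 3 => ℂ) j).contDiff

theorem Dv_co (w : E3) (j : Fin 3) (x : E3) : Dv w (fun x : E3 => x j) x = w j := by
  unfold Dv
  have h1 : HasFDerivAt (fun x : E3 => x j)
      (ContinuousLinearMap.proj (R := ℝ) (φ := fun _ : Fin 3 => ℂ) j) x :=
    (ContinuousLinearMap.proj (R := ℝ) (φ := fun _ : Fin 3 => ℂ) j).hasFDerivAt
  rw [h1.fderiv]
  rfl

theorem nsq_smooth : ContDiff ℝ ∞ nsq := by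
  unfold nsq
  apply ContDiff.sum
  intro j _
  exact (co_smooth j).norm_sq ℝ

theorem Ph_nsq : Ph nsq = fun x => (x 0 * conj (x 0) + x 1 * conj (x 1)) + x 2 * conj (x 2) := by
  funext x
  unfold Ph nsq
  rw [Fin.sum_univ_three]
  push_cast
  rw [Complex.mul_conj', Complex.mul_conj', Complex.mul_conj']

theorem Dv_nsq (w x : E3) : Dv w (Ph nsq) x = (w 0 * conj (x 0) + x 0 * conj (w 0) +
    (w 1 * conj (x 1) + x 1 * conj (w 1))) + (w 2 * conj (x 2) + x 2 * conj (w 2)) := by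
  have hs : ∀ j : Fin 3, ContDiff ℝ ∞ (fun x : E3 => x j * conj (x j)) := fun j =>
    (co_smooth j).mul (conj_smooth (co_smooth j))
  have hd : ∀ j : Fin 3, Dv w (fun x : E3 => x j * conj (x j)) x = w j * conj (x j) + x j * conj (w j) := by
    intro j
    rw [Dv_mul (co_smooth j) (conj_smooth (co_smooth j)), Dv_conj (co_smooth j), Dv_co]
  rw [Ph_nsq, Dv_add ((hs 0).add (hs 1)) (hs 2), Dv_add (hs 0) (hs 1), hd, hd, hd]

theorem dbar_nsq (k : Fin 3) : dbar k (Ph nsq) = fun x => x k := by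
  funext x
  rw [dbar_eq]
  simp only [Dv_nsq]
  fin_cases k <;> simp [Pi.single_apply] <;> ring_nf <;> simp <;> ring

theorem Hess_nsq (j k : Fin 3) (x : E3) : Hess nsq j k x = if j = k then 1 else 0 := by
  unfold Hess
  rw [dbar_nsq, dz_eq]
  simp only [Dv_co, Pi.single_apply]
  by_cases h : j = k
  · rw [if_pos h, if_pos h.symm, if_pos h.symm]
    ring_nf
    simp
    norm_num
  · rw [if_neg h, if_neg (Ne.symm h), if_neg (Ne.symm h)]
    simp

theorem Hess_comb (P : E3 → ℝ) (hP : ContDiff ℝ ∞ P) (N : ℝ) (j k : Fin 3) (x : E3) :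
    Hess (fun x => nsq x + N * P x) j k x = (if j = k then 1 else 0) + N * Hess P j k x := by
  rw [← Hess_nsq j k x]
  unfold Hess
  have h1 : Ph (fun x => nsq x + N * P x) = fun x => 1 * (Ph nsq x + (N : ℂ) * Ph P x) := by
    funext y
    simp [Ph]
  have h2 : dbar k (Ph (fun x => nsq x + N * P x)) = fun x => 1 * (dbar k (Ph nsq) x + (N : ℂ) * dbar k (Ph P) x) := by
    funext y
    rw [h1, dbar_lin (Ph_smooth nsq_smooth) (Ph_smooth hP)]
  rw [h2, dz_lin (dbar_smooth (Ph_smooth nsq_smooth) k) (dbar_smooth (Ph_smooth hP) k)]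
  ring

theorem hpos (P : E3 → ℝ) (hP : ContDiff ℝ ∞ P) (N : ℝ) (hN : 0 ≤ N)
    (hH : ∀ (x : E3) (a : Fin 3 → ℂ), 0 ≤ (∑ j, ∑ k, Hess P j k x * a j * conj (a k)).re) :
    HPos1 (fun x => nsq x + N * P x) 1 := by
  intro x a
  have e : (∑ j, ∑ k, Hess (fun x => nsq x + N * P x) j k x * a j * conj (a k)) =
      ((∑ j, ‖a j‖ ^ 2 : ℝ) : ℂ) + N * ∑ j, ∑ k, Hess P j k x * a j * conj (a k) := by
    simp only [Hess_comb P hP]
    push_cast
    rw [Finset.mul_sum, ← Finset.sum_add_distrib]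
    apply Finset.sum_congr rfl
    intro j _
    rw [Finset.mul_sum]
    have : ∀ k, ((if j = k then 1 else 0) + (N : ℂ) * Hess P j k x) * a j * conj (a k) =
        (if j = k then a j * conj (a k) else 0) + N * (Hess P j k x * a j * conj (a k)) := by
      intro k
      split_ifs <;> ring
    simp only [this]
    rw [Finset.sum_add_distrib, Finset.sum_ite_eq, if_pos (Finset.mem_univ _), Complex.mul_conj']
  rw [e, Complex.add_re, Complex.ofReal_re, Complex.re_ofReal_mul]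
  have := mul_nonneg hN (hH x a)
  linarith

/-! ### restriction of the weighted estimates -/

theorem restr (Ω : Set E3) (hΩ : MeasurableSet Ω) (Φ : E3 → ℝ) (hΦ : Continuous Φ) (B : ℝ)
    (hB : ∀ x ∈ Ω, Φ x ≤ B) (f : E3 → ℂ)
    (hf : MemLp (fun x => f x * Real.exp (-Φ x / 2)) 2 (volume : Measure E3)) :
    MemLp f 2 (volume.restrict Ω) ∧
      ∫ x in Ω, ‖f x‖ ^ 2 ≤ Real.exp B * ∫ x, ‖f x‖ ^ 2 * Real.exp (-Φ x) := by
  have hexp : ∀ x, ‖(Real.exp (-Φ x / 2) : ℂ)‖ = Real.exp (-Φ x / 2) := by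
    intro x
    rw [Complex.norm_real, Real.norm_eq_abs, abs_of_pos (Real.exp_pos _)]
  have hsm : AEStronglyMeasurable f (volume : Measure E3) := by
    have h1 : AEStronglyMeasurable (fun x => (f x * (Real.exp (-Φ x / 2) : ℂ)) * (Real.exp (Φ x / 2) : ℂ))
        (volume : Measure E3) :=
      hf.aestronglyMeasurable.mul (by
        have : Continuous (fun x => (Real.exp (Φ x / 2) : ℂ)) := by fun_prop
        exact this.aestronglyMeasurable)
    refine h1.congr (Filter.Eventually.of_forall (fun x => ?_))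
    change (f x * (Real.exp (-Φ x / 2) : ℂ)) * (Real.exp (Φ x / 2) : ℂ) = f x
    rw [mul_assoc, ← Complex.ofReal_mul, ← Real.exp_add]
    have : -Φ x / 2 + Φ x / 2 = 0 := by ring
    rw [this]
    simp
  have h1 : MemLp f 2 (volume.restrict Ω) := by
    apply (hf.restrict Ω).of_le_mul (c := Real.exp (B / 2)) hsm.restrict
    apply (ae_restrict_mem hΩ).mono
    intro x hx
    rw [norm_mul, hexp]
    have h2 : 1 ≤ Real.exp (B / 2) * Real.exp (-Φ x / 2) := by
      rw [← Real.exp_add]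
      apply Real.one_le_exp
      have := hB x hx
      linarith
    calc ‖f x‖ = ‖f x‖ * 1 := by ring
      _ ≤ ‖f x‖ * (Real.exp (B / 2) * Real.exp (-Φ x / 2)) :=
        mul_le_mul_of_nonneg_left h2 (norm_nonneg _)
      _ = _ := by ring
  refine ⟨h1, ?_⟩
  have hi1 : Integrable (fun x => ‖f x‖ ^ 2) (volume.restrict Ω) :=
    (memLp_two_iff_integrable_sq_norm h1.aestronglyMeasurable).1 h1
  have hi2 : Integrable (fun x => ‖f x‖ ^ 2 * Real.exp (-Φ x)) (volume : Measure E3) := by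
    have h3 := (memLp_two_iff_integrable_sq_norm hf.aestronglyMeasurable).1 hf
    refine h3.congr (Filter.Eventually.of_forall (fun x => ?_))
    change ‖f x * (Real.exp (-Φ x / 2) : ℂ)‖ ^ 2 = ‖f x‖ ^ 2 * Real.exp (-Φ x)
    rw [norm_mul, hexp, mul_pow, ← Real.exp_nat_mul]
    congr 2
    push_cast
    ring
  rw [← integral_const_mul]
  calc ∫ x in Ω, ‖f x‖ ^ 2 ≤ ∫ x in Ω, Real.exp B * (‖f x‖ ^ 2 * Real.exp (-Φ x)) := by
        apply setIntegral_mono_on hi1 (hi2.const_mul _).integrableOn hΩ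
        intro x hx
        have h2 : 1 ≤ Real.exp B * Real.exp (-Φ x) := by
          rw [← Real.exp_add]
          apply Real.one_le_exp
          have := hB x hx
          linarith
        calc ‖f x‖ ^ 2 = ‖f x‖ ^ 2 * 1 := by ring
          _ ≤ ‖f x‖ ^ 2 * (Real.exp B * Real.exp (-Φ x)) :=
            mul_le_mul_of_nonneg_left h2 (by positivity)
          _ = _ := by ring
    _ ≤ ∫ x, Real.exp B * (‖f x‖ ^ 2 * Real.exp (-Φ x)) := by
        apply setIntegral_le_integral (hi2.const_mul _)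
        exact Filter.Eventually.of_forall (fun x => by positivity)

theorem dbar_zero_off {Ω : Set E3} {φ : E3 → ℂ} (h : IsTest Ω φ) (j : Fin 3) (x : E3) (hx : x ∉ Ω) :
    dbar j φ x = 0 := by
  have h1 : fderiv ℝ φ x = 0 := fderiv_of_notMem_tsupport ℝ (fun hx' => hx (h.supp hx'))
  simp [dbar, h1]

theorem zero_off {Ω : Set E3} {φ : E3 → ℂ} (h : IsTest Ω φ) (x : E3) (hx : x ∉ Ω) :
    φ x = 0 := image_eq_zero_of_notMem_tsupport (fun hx' => hx (h.supp hx'))

theorem dbar_congr_near {a b : E3 → ℂ} {V : Set E3} (hV : IsOpen V) (h : ∀ x ∈ V, a x = b x)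
    (j : Fin 3) (x : E3) (hx : x ∈ V) : dbar j a x = dbar j b x := by
  have h1 : a =ᶠ[𝓝 x] b := by
    filter_upwards [hV.mem_nhds hx] with y hy using h y hy
  unfold dbar
  rw [h1.fderiv_eq]

theorem Tst.normsq {a : E3 → ℂ} (h : Tst a) : Integrable (fun x => ‖a x‖ ^ 2) := by
  have h1 : Continuous (fun x => ‖a x‖ ^ 2) := h.sm.continuous.norm.pow 2
  apply h1.integrable_of_hasCompactSupport
  exact h.cp.comp_left (g := fun z : ℂ => ‖z‖ ^ 2) (by simp)

theorem Tst.normsq_exp {a : E3 → ℂ} (h : Tst a) {Φ : E3 → ℝ} (hΦ : Continuous Φ) :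
    Integrable (fun x => ‖a x‖ ^ 2 * Real.exp (-Φ x)) := by
  have h1 : Continuous (fun x => ‖a x‖ ^ 2 * Real.exp (-Φ x)) :=
    (h.sm.continuous.norm.pow 2).mul (Real.continuous_exp.comp hΦ.neg)
  apply h1.integrable_of_hasCompactSupport
  exact (h.cp.comp_left (g := fun z : ℂ => ‖z‖ ^ 2) (by simp)).mul_right

/-- the curvature terms disappear in the limit -/
theorem lim_curl {a : E3 → ℂ} (h : Tst a) (P : E3 → ℝ) (hPs : Continuous P) (hP0 : ∀ x, 0 ≤ P x)
    (V : Set E3) (hV : ∀ x ∈ V, a x = 0) (hPV : ∀ x, x ∉ V → 0 < P x) :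
    Tendsto (fun N : ℕ => ∫ x, ‖a x‖ ^ 2 * Real.exp (-(nsq x + N * P x))) atTop (𝓝 0) := by
  have h0 : (0 : ℝ) = ∫ x : E3, (0 : ℝ) := by simp
  rw [h0]
  apply tendsto_integral_of_dominated_convergence (fun x => ‖a x‖ ^ 2)
  · intro n
    exact (h.normsq_exp (Φ := fun x => nsq x + n * P x)
      (nsq_smooth.continuous.add (continuous_const.mul hPs))).aestronglyMeasurable
  · exact h.normsq
  · intro n
    refine Filter.Eventually.of_forall (fun x => ?_)
    rw [Real.norm_eq_abs, abs_of_nonneg (by positivity)]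
    have h1 : Real.exp (-(nsq x + n * P x)) ≤ 1 := by
      apply Real.exp_le_one_iff.2
      have := nsq_nonneg x
      have := mul_nonneg (Nat.cast_nonneg (α := ℝ) n) (hP0 x)
      linarith
    calc ‖a x‖ ^ 2 * Real.exp (-(nsq x + n * P x)) ≤ ‖a x‖ ^ 2 * 1 :=
          mul_le_mul_of_nonneg_left h1 (by positivity)
      _ = _ := by ring
  · refine Filter.Eventually.of_forall (fun x => ?_)
    by_cases hx : x ∈ V
    · simp [hV x hx]
    · have h2 : Tendsto (fun n : ℕ => Real.exp (-(nsq x + n * P x))) atTop (𝓝 0) := by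
        apply Real.tendsto_exp_atBot.comp
        apply tendsto_neg_atTop_atBot.comp
        apply tendsto_atTop_add_const_left
        exact tendsto_natCast_atTop_atTop.atTop_mul_const (hPV x hx)
      have h3 := h2.const_mul (‖a x‖ ^ 2)
      simpa using h3

theorem hs1 (hW : WS1_stmt) (hP : Pfun_stmt)
    (hH : ∀ P : E3 → ℝ, ContDiff ℝ ∞ P → ConvexOn ℝ Set.univ P → ∀ (x : E3) (a : Fin 3 → ℂ),
      0 ≤ (∑ j, ∑ k, Hess P j k x * a j * conj (a k)).re) : HS1_stmt := by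
  intro Ω hΩo hΩc hΩb h0
  have hK : IsCompact (closure Ω) := hΩb.isCompact_closure
  obtain ⟨R, hR⟩ := hΩb.subset_closedBall 0
  have hB : ∀ x ∈ Ω, nsq x ≤ 3 * R ^ 2 := by
    intro x hx
    have h1 : ‖x‖ ≤ R := by
      have := hR hx
      rwa [mem_closedBall_zero_iff] at this
    unfold nsq
    have h2 : ∀ j, ‖x j‖ ^ 2 ≤ R ^ 2 := fun j =>
      pow_le_pow_left₀ (norm_nonneg _) ((norm_le_pi_norm x j).trans h1) 2
    rw [Fin.sum_univ_three]
    linarith [h2 0, h2 1, h2 2]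
  refine ⟨Real.exp (3 * R ^ 2), (Real.exp_pos _).le, ?_⟩
  intro v U hv hU hKU hcurl η hη
  obtain ⟨χ, V, hχs, hχc, hχ01, hVo, hKV, hVU, hχ1⟩ := cutoff (closure Ω) U hK hU hKU
  obtain ⟨P, hPs, hPc, hP0, hPK, hPV⟩ :=
    hP (closure Ω) V hK hΩc.closure ⟨0, subset_closure h0⟩ hVo hKV
  have hvT : ∀ j, Tst (v j) := fun j => ⟨(hv j).smooth, (hv j).compact⟩
  have hχs' : ContDiff ℝ ∞ (fun x => (χ x : ℂ)) := Complex.ofRealCLM.contDiff.comp hχs
  let g : Fin 3 → E3 → ℂ := fun j x => (χ x : ℂ) * v j x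
  have hgT : ∀ j, Tst (g j) := fun j => (hvT j).mulL hχs'
  have hg : ∀ j, IsTest Set.univ (g j) := fun j => ⟨(hgT j).sm, (hgT j).cp, Set.subset_univ _⟩
  have hgV : ∀ j, ∀ x ∈ V, g j x = v j x := by
    intro j x hx
    change (χ x : ℂ) * v j x = v j x
    rw [hχ1 x hx]
    simp
  let cu : Fin 3 → E3 → ℂ := fun i x => dbar (i + 1) (g (i + 2)) x - dbar (i + 2) (g (i + 1)) x
  have hcuT : ∀ i, Tst (cu i) := by
    intro i
    have h1 := ((hgT (i + 2)).dbar (i + 1)).add (((hgT (i + 1)).dbar (i + 2)).neg)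
    have h2 : cu i = fun x => dbar (i + 1) (g (i + 2)) x + - dbar (i + 2) (g (i + 1)) x := by
      funext x
      exact sub_eq_add_neg _ _
    rw [h2]
    exact h1
  have hcu0 : ∀ i, ∀ x ∈ V, cu i x = 0 := by
    intro i x hx
    change dbar (i + 1) (g (i + 2)) x - dbar (i + 2) (g (i + 1)) x = 0
    rw [dbar_congr_near hVo (hgV (i + 2)) (i + 1) x hx, dbar_congr_near hVo (hgV (i + 1)) (i + 2) x hx]
    exact hcurl x (hVU hx) i
  have hlim : Tendsto (fun N : ℕ => ∑ i : Fin 3, ∫ x, ‖cu i x‖ ^ 2 * Real.exp (-(nsq x + N * P x)))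
      atTop (𝓝 0) := by
    have h1 := tendsto_finsetSum (f := fun (i : Fin 3) (N : ℕ) =>
      ∫ x, ‖cu i x‖ ^ 2 * Real.exp (-(nsq x + N * P x))) (x := atTop) (a := fun _ => (0 : ℝ))
      Finset.univ (fun i _ => lim_curl (hcuT i) P hPs.continuous hP0 V (hcu0 i) hPV)
    simpa using h1
  have hpos' : 0 < η / Real.exp (3 * R ^ 2) := by positivity
  obtain ⟨N, hN⟩ := (hlim.eventually (gt_mem_nhds hpos')).exists
  have hΦs : ContDiff ℝ ∞ (fun x => nsq x + (N : ℝ) * P x) := nsq_smooth.add (contDiff_const.mul hPs)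
  obtain ⟨f, e, hf2, he2, hweak, hfe, hee⟩ := hW (fun x => nsq x + (N : ℝ) * P x) hΦs 1 one_pos
    (hpos P hPs N (Nat.cast_nonneg N) (hH P hPs hPc)) g hg
  have hΦB : ∀ x ∈ Ω, nsq x + (N : ℝ) * P x ≤ 3 * R ^ 2 := by
    intro x hx
    rw [hPK x (subset_closure hx), mul_zero, add_zero]
    exact hB x hx
  have hΦ0 : ∀ x, 0 ≤ nsq x + (N : ℝ) * P x := fun x =>
    add_nonneg (nsq_nonneg x) (mul_nonneg (Nat.cast_nonneg N) (hP0 x))
  have rf := restr Ω hΩo.measurableSet _ hΦs.continuous _ hΦB f hf2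
  have re := fun j => restr Ω hΩo.measurableSet _ hΦs.continuous _ hΦB (e j) (he2 j)
  refine ⟨f, e, rf.1, fun j => (re j).1, ?_, ?_, ?_⟩
  · intro j φ hφ
    have hφ' : IsTest Set.univ φ := ⟨hφ.smooth, hφ.compact, Set.subset_univ _⟩
    have h1 := hweak j φ hφ'
    rw [setIntegral_eq_integral_of_forall_compl_eq_zero (fun x hx => by
      rw [dbar_zero_off hφ j x hx, mul_zero]), h1,
      setIntegral_eq_integral_of_forall_compl_eq_zero (fun x hx => by
      rw [zero_off hφ x hx, mul_zero])]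
    congr 1
    apply integral_congr_ae
    refine Filter.Eventually.of_forall (fun x => ?_)
    change (g j x - e j x) * φ x = (v j x - e j x) * φ x
    by_cases hx : x ∈ Ω
    · rw [hgV j x (hKV (subset_closure hx))]
    · rw [zero_off hφ x hx, mul_zero, mul_zero]
  · refine rf.2.trans ?_
    apply mul_le_mul_of_nonneg_left _ (Real.exp_pos _).le
    rw [one_mul] at hfe
    refine hfe.trans ?_
    apply Finset.sum_le_sum
    intro j _
    apply integral_mono ((hgT j).normsq_exp hΦs.continuous) (hvT j).normsq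
    intro x
    change ‖g j x‖ ^ 2 * Real.exp (-(nsq x + (N : ℝ) * P x)) ≤ ‖v j x‖ ^ 2
    have h1 : ‖g j x‖ ≤ ‖v j x‖ := by
      change ‖(χ x : ℂ) * v j x‖ ≤ ‖v j x‖
      rw [norm_mul, Complex.norm_real, Real.norm_eq_abs, abs_of_nonneg (hχ01 x).1]
      calc χ x * ‖v j x‖ ≤ 1 * ‖v j x‖ := mul_le_mul_of_nonneg_right (hχ01 x).2 (norm_nonneg _)
        _ = _ := one_mul _
    have h2 : Real.exp (-(nsq x + (N : ℝ) * P x)) ≤ 1 := by
      apply Real.exp_le_one_iff.2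
      linarith [hΦ0 x]
    calc ‖g j x‖ ^ 2 * Real.exp (-(nsq x + (N : ℝ) * P x)) ≤ ‖v j x‖ ^ 2 * 1 :=
          mul_le_mul (pow_le_pow_left₀ (norm_nonneg _) h1 2) h2 (Real.exp_pos _).le (by positivity)
      _ = _ := mul_one _
  · calc ∑ j, ∫ x in Ω, ‖e j x‖ ^ 2 ≤ ∑ j, Real.exp (3 * R ^ 2) *
          ∫ x, ‖e j x‖ ^ 2 * Real.exp (-(nsq x + (N : ℝ) * P x)) :=
          Finset.sum_le_sum (fun j _ => (re j).2)
      _ = Real.exp (3 * R ^ 2) * (1 * ∑ j, ∫ x, ‖e j x‖ ^ 2 * Real.exp (-(nsq x + (N : ℝ) * P x))) := by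
          rw [one_mul, Finset.mul_sum]
      _ ≤ Real.exp (3 * R ^ 2) * (η / Real.exp (3 * R ^ 2)) := by
          apply mul_le_mul_of_nonneg_left _ (Real.exp_pos _).le
          exact hee.trans hN.le
      _ = η := by
          field_simp

end DbarN.JHS1
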