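import Pool.Agent.H314.DN.Stmts
import Pool.Agent.H314.DN.A0
import Pool.Agent.H314.DN.A1

set_option autoImplicit false

open MeasureTheory Complex Filter Topology
open scoped ContDiff InnerProductSpace ENNReal ComplexConjugate

namespace DbarN.JHE2

theorem hess_trace_aux (H : Fin 3 → Fin 3 → ℂ)
    (h : ∀ a : Fin 3 → ℂ, 0 ≤ (∑ j, ∑ k, H j k * a j * conj (a k)).re)
    (a : Fin 3 → ℂ) :
    0 ≤ ((∑ j, H j j) * (∑ k, (‖a k‖ : ℂ) ^ 2) -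
        ∑ j, ∑ k, H k j * a j * conj (a k)).re := by
  have h1 := h ![a 1, -a 0, 0]
  have h2 := h ![a 2, 0, -a 0]
  have h3 := h ![0, a 2, -a 1]
  have e : ((∑ j, H j j) * (∑ k, (‖a k‖ : ℂ) ^ 2) - ∑ j, ∑ k, H k j * a j * conj (a k)) =
      (∑ j, ∑ k, H j k * (![a 1, -a 0, 0] : Fin 3 → ℂ) j * conj ((![a 1, -a 0, 0] : Fin 3 → ℂ) k)) +
      (∑ j, ∑ k, H j k * (![a 2, 0, -a 0] : Fin 3 → ℂ) j * conj ((![a 2, 0, -a 0] : Fin 3 → ℂ) k)) +
      (∑ j, ∑ k, H j k * (![0, a 2, -a 1] : Fin 3 → ℂ) j * conj ((![0, a 2, -a 1] : Fin 3 → ℂ) k)) := by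
    have hn : ∀ k, (‖a k‖ : ℂ) ^ 2 = a k * conj (a k) := fun k => (Complex.mul_conj' (a k)).symm
    simp only [hn, Fin.sum_univ_three, Matrix.cons_val_zero, Matrix.cons_val_one, Matrix.cons_val,
      map_neg, map_zero]
    ring
  rw [e, Complex.add_re, Complex.add_re]
  linarith

/-- trace version -/
theorem hess_trace (P : E3 → ℝ) (x : E3)
    (h : ∀ a : Fin 3 → ℂ, 0 ≤ (∑ j, ∑ k, Hess P j k x * a j * conj (a k)).re)
    (a : Fin 3 → ℂ) :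
    0 ≤ ((∑ j, Hess P j j x) * (∑ k, (‖a k‖ : ℂ) ^ 2) -
        ∑ j, ∑ k, Hess P k j x * a j * conj (a k)).re :=
  hess_trace_aux (fun j k => Hess P j k x) h a

end DbarN.JHE2
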