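import Pool.Agent.H314.DN.Stmts2
import Pool.Agent.H314.DN.A0
import Pool.Agent.H314.DN.A1

set_option autoImplicit false

open MeasureTheory Complex Filter Topology
open scoped ContDiff InnerProductSpace ENNReal ComplexConjugate

namespace DbarN.JHS2

theorem hs2_dbar_notMem {φ : E3 → ℂ} {x : E3} (hx : x ∉ tsupport φ) (j : Fin 3) :
    dbar j φ x = 0 := by
  unfold dbar
  rw [fderiv_of_notMem_tsupport ℝ hx]
  simp

theorem hs2_dbar_smooth {φ : E3 → ℂ} (h : ContDiff ℝ ∞ φ) (j : Fin 3) :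
    ContDiff ℝ ∞ (dbar j φ) := by
  have h1 : ContDiff ℝ ∞ (fderiv ℝ φ) := h.fderiv_right (m := ∞) (by simp)
  unfold dbar
  exact contDiff_const.mul ((h1.clm_apply contDiff_const).add
    (contDiff_const.mul (h1.clm_apply contDiff_const)))

theorem hs2_dbar_lin {φ ψ : E3 → ℂ} {x : E3} (hφ : DifferentiableAt ℝ φ x)
    (hψ : DifferentiableAt ℝ ψ x) (c : ℂ) (j : Fin 3) :
    dbar j (fun y => φ y + c * ψ y) x = dbar j φ x + c * dbar j ψ x := by
  have h : HasFDerivAt (fun y => φ y + c * ψ y) (fderiv ℝ φ x + c • fderiv ℝ ψ x) x :=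
    hφ.hasFDerivAt.add (hψ.hasFDerivAt.const_mul c)
  unfold dbar
  rw [h.fderiv]
  simp only [add_apply, smul_apply, smul_eq_mul]
  ring

theorem hs2_dz_lin {φ ψ : E3 → ℂ} {x : E3} (hφ : DifferentiableAt ℝ φ x)
    (hψ : DifferentiableAt ℝ ψ x) (c : ℂ) (j : Fin 3) :
    dz j (fun y => φ y + c * ψ y) x = dz j φ x + c * dz j ψ x := by
  have h : HasFDerivAt (fun y => φ y + c * ψ y) (fderiv ℝ φ x + c • fderiv ℝ ψ x) x :=
    hφ.hasFDerivAt.add (hψ.hasFDerivAt.const_mul c)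
  unfold dz
  rw [h.fderiv]
  simp only [add_apply, smul_apply, smul_eq_mul]
  ring

theorem hs2_Ph_smooth {Φ : E3 → ℝ} (h : ContDiff ℝ ∞ Φ) : ContDiff ℝ ∞ (Ph Φ) :=
  Complex.ofRealCLM.contDiff.comp h

theorem hs2_Hess_lin {Φ Ψ : E3 → ℝ} (hΦ : ContDiff ℝ ∞ Φ) (hΨ : ContDiff ℝ ∞ Ψ) (c : ℝ)
    (j k : Fin 3) (x : E3) :
    Hess (fun y => Φ y + c * Ψ y) j k x = Hess Φ j k x + c * Hess Ψ j k x := by
  unfold Hess
  have h1 : Ph (fun y => Φ y + c * Ψ y) = fun y => Ph Φ y + (c : ℂ) * Ph Ψ y := by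
    funext y
    simp [Ph]
  have h2 : dbar k (Ph (fun y => Φ y + c * Ψ y)) =
      fun y => dbar k (Ph Φ) y + (c : ℂ) * dbar k (Ph Ψ) y := by
    funext y
    rw [h1]
    exact hs2_dbar_lin ((hs2_Ph_smooth hΦ).differentiable (by simp) y)
      ((hs2_Ph_smooth hΨ).differentiable (by simp) y) c k
  rw [h2]
  exact hs2_dz_lin ((hs2_dbar_smooth (hs2_Ph_smooth hΦ) k).differentiable (by simp) x)
      ((hs2_dbar_smooth (hs2_Ph_smooth hΨ) k).differentiable (by simp) x) c j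

/-- the quadratic weight -/
noncomputable def hs2_q (m : Fin 3) (x : E3) : ℝ := ‖x m‖ ^ 2

theorem hs2_q_smooth (m : Fin 3) : ContDiff ℝ ∞ (hs2_q m) := by
  unfold hs2_q
  have h : ContDiff ℝ ∞ (fun x : E3 => x m) := contDiff_apply ℝ ℂ m
  exact h.norm_sq ℝ

theorem hs2_dbar_q (m k : Fin 3) (x : E3) :
    dbar k (Ph (hs2_q m)) x = if k = m then x m else 0 := by
  have h0 : Ph (hs2_q m) = fun y : E3 => y m * conj (y m) := by
    funext y
    simp only [Ph, hs2_q]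
    rw [Complex.mul_conj, Complex.normSq_eq_norm_sq]
  have h1 : HasFDerivAt (fun y : E3 => y m) (ContinuousLinearMap.proj m : E3 →L[ℝ] ℂ) x :=
    (ContinuousLinearMap.proj m : E3 →L[ℝ] ℂ).hasFDerivAt
  have h2 : HasFDerivAt (fun y : E3 => conj (y m))
      ((Complex.conjCLE : ℂ →L[ℝ] ℂ).comp (ContinuousLinearMap.proj m : E3 →L[ℝ] ℂ)) x :=
    ((Complex.conjCLE : ℂ →L[ℝ] ℂ).comp (ContinuousLinearMap.proj m : E3 →L[ℝ] ℂ)).hasFDerivAt
  have h3 : HasFDerivAt (fun y : E3 => y m * conj (y m))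
      ((x m) • ((Complex.conjCLE : ℂ →L[ℝ] ℂ).comp (ContinuousLinearMap.proj m : E3 →L[ℝ] ℂ)) +
        (conj (x m)) • (ContinuousLinearMap.proj m : E3 →L[ℝ] ℂ)) x := h1.mul h2
  unfold dbar
  rw [h0, h3.fderiv]
  by_cases hkm : k = m
  · subst hkm
    simp
    ring_nf
    simp
    ring
  · have e1 : (Pi.single k (1:ℂ) : E3) m = 0 := by simp [Pi.single_apply, Ne.symm hkm]
    have e2 : (Pi.single k I : E3) m = 0 := by simp [Pi.single_apply, Ne.symm hkm]
    simp [e1, e2, hkm]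

theorem hs2_dz_coord (m j : Fin 3) (x : E3) :
    dz j (fun y : E3 => y m) x = if j = m then 1 else 0 := by
  have h1 : HasFDerivAt (fun y : E3 => y m) (ContinuousLinearMap.proj m : E3 →L[ℝ] ℂ) x :=
    (ContinuousLinearMap.proj m : E3 →L[ℝ] ℂ).hasFDerivAt
  unfold dz
  rw [h1.fderiv]
  by_cases hkm : j = m
  · subst hkm
    simp
    norm_num
  · have e1 : (Pi.single j (1:ℂ) : E3) m = 0 := by simp [Pi.single_apply, Ne.symm hkm]
    have e2 : (Pi.single j I : E3) m = 0 := by simp [Pi.single_apply, Ne.symm hkm]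
    simp [e1, e2, hkm]

theorem hs2_dz_const (j : Fin 3) (x : E3) (c : ℂ) : dz j (fun _ : E3 => c) x = 0 := by
  unfold dz
  simp

theorem hs2_Hess_q (m j k : Fin 3) (x : E3) :
    Hess (hs2_q m) j k x = if j = m ∧ k = m then 1 else 0 := by
  unfold Hess
  have h1 : dbar k (Ph (hs2_q m)) = fun x => if k = m then x m else 0 := by
    funext y
    exact hs2_dbar_q m k y
  rw [h1]
  by_cases hk : k = m
  · simp only [hk, if_true, and_true]
    exact hs2_dz_coord m j x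
  · simp only [hk, if_false, and_false]
    exact hs2_dz_const j x 0

/-- the weight -/
noncomputable def hs2_Phi (κ : ℝ) (P : E3 → ℝ) (N : ℝ) (x : E3) : ℝ :=
  (((0:ℝ) + κ * hs2_q 1 x) + κ * hs2_q 2 x) + N * P x

theorem hs2_Phi_smooth (κ : ℝ) {P : E3 → ℝ} (hP : ContDiff ℝ ∞ P) (N : ℝ) :
    ContDiff ℝ ∞ (hs2_Phi κ P N) := by
  unfold hs2_Phi
  exact ((contDiff_const.add (contDiff_const.mul (hs2_q_smooth 1))).add
    (contDiff_const.mul (hs2_q_smooth 2))).add (contDiff_const.mul hP)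

theorem hs2_Hess_Phi (κ : ℝ) {P : E3 → ℝ} (hP : ContDiff ℝ ∞ P) (N : ℝ) (j k : Fin 3) (x : E3) :
    Hess (hs2_Phi κ P N) j k x = (κ : ℂ) * (if j = 1 ∧ k = 1 then 1 else 0) +
      (κ : ℂ) * (if j = 2 ∧ k = 2 then 1 else 0) + (N : ℂ) * Hess P j k x := by
  have h0 : ContDiff ℝ ∞ (fun _ : E3 => (0:ℝ)) := contDiff_const
  have h1 : ContDiff ℝ ∞ (fun y : E3 => (0:ℝ) + κ * hs2_q 1 y) :=
    contDiff_const.add (contDiff_const.mul (hs2_q_smooth 1))
  have h2 : ContDiff ℝ ∞ (fun y : E3 => ((0:ℝ) + κ * hs2_q 1 y) + κ * hs2_q 2 y) :=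
    h1.add (contDiff_const.mul (hs2_q_smooth 2))
  have e3 := hs2_Hess_lin h2 hP N j k x
  have e2 := hs2_Hess_lin h1 (hs2_q_smooth 2) κ j k x
  have e1 := hs2_Hess_lin h0 (hs2_q_smooth 1) κ j k x
  have e0 : Hess (fun _ : E3 => (0:ℝ)) j k x = 0 := by
    unfold Hess
    have : dbar k (Ph (fun _ : E3 => (0:ℝ))) = fun _ => 0 := by
      funext y
      unfold dbar Ph
      simp
    rw [this]
    exact hs2_dz_const j x 0
  have e4 : hs2_Phi κ P N = fun y => (((0:ℝ) + κ * hs2_q 1 y) + κ * hs2_q 2 y) + N * P y := rfl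
  rw [e4, e3, e2, e1, e0, hs2_Hess_q, hs2_Hess_q, zero_add]

theorem hs2_HPos (κ : ℝ) (hκ : 0 < κ) {P : E3 → ℝ} (hP : ContDiff ℝ ∞ P) (N : ℝ) (hN : 0 ≤ N)
    (hH : ∀ (x : E3) (a : Fin 3 → ℂ),
      0 ≤ ((∑ j, Hess P j j x) * (∑ k, (‖a k‖ : ℂ) ^ 2) -
        ∑ j, ∑ k, Hess P k j x * a j * conj (a k)).re) :
    HPos2 (hs2_Phi κ P N) κ := by
  intro x b
  have c0 : b 0 * conj (b 0) = (‖b 0‖:ℂ) ^ 2 := Complex.mul_conj' _
  have c1 : b 1 * conj (b 1) = (‖b 1‖:ℂ) ^ 2 := Complex.mul_conj' _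
  have c2 : b 2 * conj (b 2) = (‖b 2‖:ℂ) ^ 2 := Complex.mul_conj' _
  have key : (∑ j, Hess (hs2_Phi κ P N) j j x) * (∑ k, (‖b k‖ : ℂ) ^ 2) -
        ∑ j, ∑ k, Hess (hs2_Phi κ P N) k j x * b j * conj (b k) =
      ((κ * (2 * ‖b 0‖ ^ 2 + ‖b 1‖ ^ 2 + ‖b 2‖ ^ 2) : ℝ) : ℂ) +
      (N : ℂ) * ((∑ j, Hess P j j x) * (∑ k, (‖b k‖ : ℂ) ^ 2) -
        ∑ j, ∑ k, Hess P k j x * b j * conj (b k)) := by
    simp only [hs2_Hess_Phi κ hP, Fin.sum_univ_three]
    simp
    linear_combination (-(κ:ℂ)) * c1 - (κ:ℂ) * c2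
  rw [key, Complex.add_re, Complex.ofReal_re, Complex.re_ofReal_mul, Fin.sum_univ_three]
  have h1 := mul_nonneg hN (hH x b)
  have h2 := mul_nonneg hκ.le (sq_nonneg ‖b 0‖)
  nlinarith

theorem hs2_transfer {Ω : Set E3} (hΩ : IsOpen Ω) {Φ : E3 → ℝ} (hΦ : Continuous Φ)
    (hΦ1 : ∀ x ∈ Ω, Φ x ≤ 1) {f : E3 → ℂ}
    (hf : MemLp (fun x => f x * Real.exp (-Φ x / 2)) 2 (volume : Measure E3)) :
    MemLp f 2 (volume.restrict Ω) ∧
      ∫ x in Ω, ‖f x‖ ^ 2 ≤ 3 * ∫ x, ‖f x‖ ^ 2 * Real.exp (-Φ x) := by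
  have hmeas : AEStronglyMeasurable f (volume : Measure E3) := by
    have h1 : f = fun x => (f x * Real.exp (-Φ x / 2)) * ((Real.exp (Φ x / 2) : ℝ) : ℂ) := by
      funext x
      rw [mul_assoc, ← Complex.ofReal_mul, ← Real.exp_add]
      have : -Φ x / 2 + Φ x / 2 = 0 := by ring
      rw [this]
      simp
    rw [h1]
    refine hf.aestronglyMeasurable.mul ?_
    exact (Complex.continuous_ofReal.comp
      (Real.continuous_exp.comp (hΦ.div_const 2))).aestronglyMeasurable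
  have hn : ∀ x, ‖f x * Real.exp (-Φ x / 2)‖ = ‖f x‖ * Real.exp (-Φ x / 2) := by
    intro x
    rw [norm_mul, Complex.norm_real, Real.norm_eq_abs, abs_of_pos (Real.exp_pos _)]
  have hn2 : ∀ x, ‖f x * Real.exp (-Φ x / 2)‖ ^ 2 = ‖f x‖ ^ 2 * Real.exp (-Φ x) := by
    intro x
    rw [hn, mul_pow, ← Real.exp_nat_mul]
    congr 2
    push_cast
    ring
  have hM : MemLp f 2 (volume.restrict Ω) := by
    refine (hf.restrict Ω).of_le_mul (c := Real.exp (1 / 2)) hmeas.restrict ?_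
    refine (ae_restrict_iff' hΩ.measurableSet).mpr (Filter.Eventually.of_forall fun x hx => ?_)
    rw [hn, mul_comm ‖f x‖, ← mul_assoc, ← Real.exp_add]
    have h1 : 0 ≤ 1 / 2 + -Φ x / 2 := by linarith [hΦ1 x hx]
    have h2 := Real.one_le_exp h1
    exact le_mul_of_one_le_left (norm_nonneg _) h2
  refine ⟨hM, ?_⟩
  have hi2 : Integrable (fun x => ‖f x‖ ^ 2 * Real.exp (-Φ x)) (volume : Measure E3) := by
    have h1 := (memLp_two_iff_integrable_sq_norm hf.aestronglyMeasurable).mp hf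
    simpa only [hn2] using h1
  have hi1 : Integrable (fun x => ‖f x‖ ^ 2) ((volume : Measure E3).restrict Ω) :=
    (memLp_two_iff_integrable_sq_norm hM.aestronglyMeasurable).mp hM
  calc ∫ x in Ω, ‖f x‖ ^ 2 ≤ ∫ x in Ω, 3 * (‖f x‖ ^ 2 * Real.exp (-Φ x)) := by
        refine setIntegral_mono_on hi1 (hi2.const_mul 3).integrableOn hΩ.measurableSet ?_
        intro x hx
        have h1 : 1 ≤ 3 * Real.exp (-Φ x) := by
          have e1 : Real.exp (-1) ≤ Real.exp (-Φ x) := Real.exp_le_exp.mpr (by linarith [hΦ1 x hx])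
          have e2 : 1 ≤ 3 * Real.exp (-1) := by
            have e3 := Real.exp_one_lt_d9
            rw [Real.exp_neg]
            have e4 := Real.exp_pos 1
            rw [← div_eq_mul_inv, le_div_iff₀ e4]
            linarith
          linarith
        have h2 := sq_nonneg ‖f x‖
        nlinarith
    _ ≤ ∫ x, 3 * (‖f x‖ ^ 2 * Real.exp (-Φ x)) := by
        refine setIntegral_le_integral (hi2.const_mul 3) (Filter.Eventually.of_forall fun x => ?_)
        show (0:ℝ) ≤ 3 * (‖f x‖ ^ 2 * Real.exp (-Φ x))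
        positivity
    _ = _ := by rw [integral_const_mul]

theorem hs2_int {D : E3 → ℂ} (hc : Continuous D) (hs : HasCompactSupport D) :
    Integrable (fun x => ‖D x‖ ^ 2) (volume : Measure E3) := by
  have h1 : Continuous (fun x => ‖D x‖ ^ 2) := by fun_prop
  refine h1.integrable_of_hasCompactSupport ?_
  refine HasCompactSupport.intro (K := tsupport D) hs ?_
  intro x hx
  rw [image_eq_zero_of_notMem_tsupport hx]
  simp

theorem hs2 (hW : WS2_stmt) (hP : Pfun_stmt)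
    (hH : ∀ P : E3 → ℝ, ContDiff ℝ ∞ P → ConvexOn ℝ Set.univ P → ∀ (x : E3) (a : Fin 3 → ℂ),
      0 ≤ ((∑ j, Hess P j j x) * (∑ k, (‖a k‖ : ℂ) ^ 2) -
        ∑ j, ∑ k, Hess P k j x * a j * conj (a k)).re) : HS2_stmt := by
  intro Ω hΩ hconv hbd h0 a ha haΩ v U hv hU hKU hdiv η hη
  obtain ⟨P, hPs, hPc, hP0, hPK, hPU⟩ := hP (closure Ω) U hbd.isCompact_closure hconv.closure
    ⟨0, subset_closure h0⟩ hU hKU
  obtain ⟨κ, hκ⟩ : ∃ κ : ℝ, κ = 1 / a ^ 2 := ⟨_, rfl⟩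
  have hκ0 : 0 < κ := by rw [hκ]; positivity
  have hκa : κ * a ^ 2 = 1 := by rw [hκ]; field_simp
  have hΦs : ∀ N : ℝ, ContDiff ℝ ∞ (hs2_Phi κ P N) := fun N => hs2_Phi_smooth κ hPs N
  have hΦ0 : ∀ (N : ℝ), 0 ≤ N → ∀ x, 0 ≤ hs2_Phi κ P N x := by
    intro N hN x
    unfold hs2_Phi hs2_q
    have := mul_nonneg hN (hP0 x)
    positivity
  have hΦ1 : ∀ (N : ℝ), ∀ x ∈ Ω, hs2_Phi κ P N x ≤ 1 := by
    intro N x hx
    unfold hs2_Phi hs2_q
    rw [hPK x (subset_closure hx), mul_zero, add_zero, zero_add, ← mul_add]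
    calc κ * (‖x 1‖ ^ 2 + ‖x 2‖ ^ 2) ≤ κ * a ^ 2 := mul_le_mul_of_nonneg_left (haΩ x hx) hκ0.le
      _ = 1 := hκa
  -- the divergence
  obtain ⟨D, hD⟩ : ∃ D : E3 → ℂ, D = fun x => ∑ i, dbar i (v i) x := ⟨_, rfl⟩
  have hDc : Continuous D := by
    rw [hD]
    exact continuous_finset_sum _ fun i _ => (hs2_dbar_smooth (hv i).smooth i).continuous
  have hDs : HasCompactSupport D := by
    refine HasCompactSupport.intro (K := ⋃ i : Fin 3, tsupport (v i))
      (isCompact_iUnion fun i => (hv i).compact) ?_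
    intro x hx
    rw [hD]
    refine Finset.sum_eq_zero fun i _ => hs2_dbar_notMem ?_ i
    intro hx'
    exact hx (Set.mem_iUnion.mpr ⟨i, hx'⟩)
  have hDi : Integrable (fun x => ‖D x‖ ^ 2) (volume : Measure E3) := hs2_int hDc hDs
  have hlim : Tendsto (fun N : ℕ => ∫ x, ‖D x‖ ^ 2 * Real.exp (-hs2_Phi κ P N x)) atTop
      (𝓝 0) := by
    have h1 := tendsto_integral_of_dominated_convergence (μ := (volume : Measure E3))
      (F := fun (N : ℕ) x => ‖D x‖ ^ 2 * Real.exp (-hs2_Phi κ P N x)) (f := fun _ => (0:ℝ))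
      (fun x => ‖D x‖ ^ 2) ?_ hDi ?_ ?_
    · simpa using h1
    · intro N
      exact ((hDc.norm.pow 2).mul
        (Real.continuous_exp.comp (hΦs N).continuous.neg)).aestronglyMeasurable
    · intro N
      refine Filter.Eventually.of_forall fun x => ?_
      rw [Real.norm_eq_abs, abs_of_nonneg (by positivity)]
      have h2 : Real.exp (-hs2_Phi κ P N x) ≤ 1 :=
        Real.exp_le_one_iff.mpr (by linarith [hΦ0 N (Nat.cast_nonneg N) x])
      exact mul_le_of_le_one_right (sq_nonneg _) h2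
    · refine Filter.Eventually.of_forall fun x => ?_
      by_cases hPx : P x = 0
      · have hxU : x ∈ U := by
          by_contra hxU
          exact (hPU x hxU).ne' hPx
        have hDx : D x = 0 := by rw [hD]; exact hdiv x hxU
        simp [hDx]
      · have hPx' : 0 < P x := lt_of_le_of_ne (hP0 x) (Ne.symm hPx)
        have h2 : Tendsto (fun N : ℕ => hs2_Phi κ P N x) atTop atTop := by
          unfold hs2_Phi
          exact tendsto_atTop_add_const_left _ _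
            (tendsto_natCast_atTop_atTop.atTop_mul_const hPx')
        have h3 := (Real.tendsto_exp_neg_atTop_nhds_zero.comp h2).const_mul (‖D x‖ ^ 2)
        rw [mul_zero] at h3
        exact h3
  have hpos : 0 < η / (3 * a ^ 2) := by positivity
  obtain ⟨N, hN⟩ := (hlim.eventually (gt_mem_nhds hpos)).exists
  have hN0 : (0:ℝ) ≤ (N:ℝ) := Nat.cast_nonneg N
  obtain ⟨w, e, hw, he, hrel, hw2, he2⟩ := hW (hs2_Phi κ P N) (hΦs N) κ hκ0
    (hs2_HPos κ hκ0 hPs N hN0 (hH P hPs hPc)) v hv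
  have hcΦ := (hΦs N).continuous
  have hvi : ∀ j, Integrable (fun x => ‖v j x‖ ^ 2) (volume : Measure E3) := fun j =>
    hs2_int (hv j).smooth.continuous (hv j).compact
  refine ⟨w, e, fun j => (hs2_transfer hΩ hcΦ (hΦ1 N) (hw j)).1,
    fun j => (hs2_transfer hΩ hcΦ (hΦ1 N) (he j)).1, ?_, ?_, ?_⟩
  · intro i φ hφ
    have hφ' : IsTest Set.univ φ := ⟨hφ.smooth, hφ.compact, Set.subset_univ _⟩
    have h1 := hrel i φ hφ'
    have hout : ∀ x, x ∉ Ω → x ∉ tsupport φ := fun x hx hx' => hx (hφ.supp hx')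
    rw [setIntegral_eq_integral_of_forall_compl_eq_zero,
      setIntegral_eq_integral_of_forall_compl_eq_zero]
    · exact h1
    · intro x hx
      rw [image_eq_zero_of_notMem_tsupport (hout x hx), mul_zero]
    · intro x hx
      rw [hs2_dbar_notMem (hout x hx), hs2_dbar_notMem (hout x hx), mul_zero, mul_zero, sub_zero]
  · have h1 : ∑ j, ∫ x in Ω, ‖w j x‖ ^ 2 ≤
        3 * ∑ j, ∫ x, ‖w j x‖ ^ 2 * Real.exp (-hs2_Phi κ P N x) := by
      rw [Finset.mul_sum]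
      exact Finset.sum_le_sum fun j _ => (hs2_transfer hΩ hcΦ (hΦ1 N) (hw j)).2
    have h2 : ∑ j, ∫ x, ‖v j x‖ ^ 2 * Real.exp (-hs2_Phi κ P N x) ≤ ∑ j, ∫ x, ‖v j x‖ ^ 2 := by
      refine Finset.sum_le_sum fun j _ => ?_
      refine integral_mono_of_nonneg (Filter.Eventually.of_forall fun x => ?_) (hvi j)
        (Filter.Eventually.of_forall fun x => ?_)
      · show (0:ℝ) ≤ ‖v j x‖ ^ 2 * Real.exp (-hs2_Phi κ P N x)
        positivity
      · have h2 : Real.exp (-hs2_Phi κ P N x) ≤ 1 :=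
          Real.exp_le_one_iff.mpr (by linarith [hΦ0 N hN0 x])
        exact mul_le_of_le_one_right (sq_nonneg _) h2
    have h3 := hw2.trans h2
    have ha2 : 0 < a ^ 2 := by positivity
    have h4 := mul_le_mul_of_nonneg_left h3 ha2.le
    rw [← mul_assoc, mul_comm (a ^ 2) κ, hκa, one_mul] at h4
    linarith
  · have h1 : ∑ j, ∫ x in Ω, ‖e j x‖ ^ 2 ≤
        3 * ∑ j, ∫ x, ‖e j x‖ ^ 2 * Real.exp (-hs2_Phi κ P N x) := by
      rw [Finset.mul_sum]
      exact Finset.sum_le_sum fun j _ => (hs2_transfer hΩ hcΦ (hΦ1 N) (he j)).2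
    have h3 : κ * ∑ j, ∫ x, ‖e j x‖ ^ 2 * Real.exp (-hs2_Phi κ P N x) ≤ η / (3 * a ^ 2) := by
      refine he2.trans ?_
      rw [hD] at hN
      exact hN.le
    have ha2 : 0 < a ^ 2 := by positivity
    have h4 := mul_le_mul_of_nonneg_left h3 ha2.le
    rw [← mul_assoc, mul_comm (a ^ 2) κ, hκa, one_mul] at h4
    have h5 : a ^ 2 * (η / (3 * a ^ 2)) = η / 3 := by field_simp
    rw [h5] at h4
    linarith

end DbarN.JHS2
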