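import Pool.Agent.H314.DN.Stmts4
import Pool.Agent.H314.DN.A0
import Pool.Agent.H314.DN.A1

set_option autoImplicit false

open MeasureTheory Complex Filter Topology
open scoped ContDiff InnerProductSpace ENNReal ComplexConjugate

namespace DbarN.JN1

theorem neg1_rot (j : ℤ) (f : ℂ → ℂ) (hf : ContDiff ℝ ∞ f)
    (hm : ∀ (θ : ℝ) (w : ℂ),
      f (Complex.exp (θ * I) * w) = Complex.exp (I * (j * θ)) * f w) (θ : ℝ) (w v : ℂ) :
    fderiv ℝ f (Complex.exp (θ * I) * w) (Complex.exp (θ * I) * v) =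
      Complex.exp (I * (j * θ)) * fderiv ℝ f w v := by
  have hd : ∀ x, HasFDerivAt f (fderiv ℝ f x) x := fun x =>
    ((hf.differentiable (by simp)) x).hasFDerivAt
  have h1 : HasFDerivAt (fun w => f (Complex.exp (θ * I) * w))
      ((fderiv ℝ f (Complex.exp (θ * I) * w)).comp
        ((Complex.exp (θ * I)) • (ContinuousLinearMap.id ℝ ℂ))) w := by
    have h2 : HasFDerivAt (fun w : ℂ => Complex.exp (θ * I) * w)
        ((Complex.exp (θ * I)) • (ContinuousLinearMap.id ℝ ℂ)) w :=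
      (hasFDerivAt_id w).const_mul _
    exact (hd _).comp w h2
  have h2 : HasFDerivAt (fun w => f (Complex.exp (θ * I) * w))
      ((Complex.exp (I * (j * θ))) • fderiv ℝ f w) w := by
    have h3 : (fun w => f (Complex.exp (θ * I) * w)) =
        fun w => Complex.exp (I * (j * θ)) * f w := by
      funext w
      exact hm θ w
    rw [h3]
    exact (hd w).const_mul _
  have h3 := h1.unique h2
  have h4 := congrArg (fun L : ℂ →L[ℝ] ℂ => L v) h3
  simpa using h4

theorem neg1_theta (j : ℤ) (f : ℂ → ℂ) (hf : ContDiff ℝ ∞ f)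
    (hm : ∀ (θ : ℝ) (w : ℂ),
      f (Complex.exp (θ * I) * w) = Complex.exp (I * (j * θ)) * f w) (w : ℂ) :
    fderiv ℝ f w (I * w) = I * j * f w := by
  have hd : HasFDerivAt f (fderiv ℝ f w) w :=
    ((hf.differentiable (by simp)) w).hasFDerivAt
  have h0 : HasDerivAt (fun θ : ℝ => Complex.exp (θ * I) * w) (I * w) 0 := by
    have h1 : HasDerivAt (fun θ : ℝ => ((θ : ℝ) : ℂ) * I) (1 * I) 0 :=
      (Complex.ofRealCLM.hasDerivAt).mul_const I
    have h2 := (h1.cexp).mul_const w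
    simpa using h2
  have h1 : HasDerivAt (fun θ : ℝ => f (Complex.exp (θ * I) * w)) (fderiv ℝ f w (I * w)) 0 := by
    have hd' : HasFDerivAt f (fderiv ℝ f w) (Complex.exp (((0 : ℝ) : ℂ) * I) * w) := by
      simpa using hd
    exact hd'.comp_hasDerivAt 0 h0
  have h2 : HasDerivAt (fun θ : ℝ => f (Complex.exp (θ * I) * w)) (I * j * f w) 0 := by
    have h3 : (fun θ : ℝ => f (Complex.exp (θ * I) * w)) =
        fun θ : ℝ => Complex.exp (I * (j * θ)) * f w := by
      funext θ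
      exact hm θ w
    rw [h3]
    have h4 : HasDerivAt (fun θ : ℝ => I * (j * ((θ : ℝ) : ℂ))) (I * (j * 1)) 0 :=
      ((Complex.ofRealCLM.hasDerivAt).const_mul (j : ℂ)).const_mul I
    have h5 := (h4.cexp).mul_const (f w)
    simpa using h5
  exact h1.unique h2

theorem neg1_db_rot (j : ℤ) (f : ℂ → ℂ) (hf : ContDiff ℝ ∞ f)
    (hm : ∀ (θ : ℝ) (w : ℂ),
      f (Complex.exp (θ * I) * w) = Complex.exp (I * (j * θ)) * f w) (θ : ℝ) (w : ℂ) :
    ‖db1 f (Complex.exp (θ * I) * w)‖ = ‖db1 f w‖ := by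
  have h1 := neg1_rot j f hf hm θ w 1
  have h2 := neg1_rot j f hf hm θ w I
  set D := fderiv ℝ f (Complex.exp (θ * I) * w) with hD
  have hlin : ∀ z : ℂ, D z = (z.re : ℂ) * D 1 + (z.im : ℂ) * D I := by
    intro z
    have h3 : z = (z.re) • (1 : ℂ) + (z.im) • I := by
      apply Complex.ext <;> simp
    conv_lhs => rw [h3]
    rw [map_add, map_smul, map_smul]
    simp
  have he : Complex.exp (θ * I) = Complex.cos θ + Complex.sin θ * I := Complex.exp_mul_I _
  have hre : (Complex.exp (θ * I)).re = Real.cos θ := Complex.exp_ofReal_mul_I_re θ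
  have him : (Complex.exp (θ * I)).im = Real.sin θ := Complex.exp_ofReal_mul_I_im θ
  have h3 : Complex.exp (I * (j * θ)) * (2 * db1 f w) =
      Complex.exp (-(θ * I)) * (2 * db1 f (Complex.exp (θ * I) * w)) := by
    have e1 : Complex.exp (-(θ * I)) = Complex.cos θ - Complex.sin θ * I := by
      rw [show -((θ : ℂ) * I) = ((-θ : ℝ) : ℂ) * I by push_cast; ring, Complex.exp_mul_I]
      push_cast
      rw [Complex.cos_neg, Complex.sin_neg]
      ring
    have e2 : (2 : ℂ) * db1 f w = fderiv ℝ f w 1 + I * fderiv ℝ f w I := by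
      unfold db1; ring
    have e3 : (2 : ℂ) * db1 f (Complex.exp (θ * I) * w) = D 1 + I * D I := by
      unfold db1; rw [← hD]; ring
    rw [e2, e3, e1, mul_add, ← h1,
      show Complex.exp (I * (j * θ)) * (I * fderiv ℝ f w I) =
        I * (Complex.exp (I * (j * θ)) * fderiv ℝ f w I) by ring, ← h2,
      hlin (Complex.exp (θ * I) * 1), hlin (Complex.exp (θ * I) * I)]
    rw [mul_one, hre, him, Complex.mul_re, Complex.mul_im, hre, him]
    simp only [I_re, I_im]
    push_cast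
    have hI : I * I = -1 := Complex.I_mul_I
    linear_combination ((Complex.sin θ) * D I) * hI
  have h4 := congrArg norm h3
  rw [norm_mul, norm_mul, norm_mul, norm_mul] at h4
  have n1 : ‖Complex.exp (I * (j * θ))‖ = 1 := by
    rw [show I * ((j : ℂ) * θ) = (((j : ℝ) * θ : ℝ) : ℂ) * I by push_cast; ring]
    exact Complex.norm_exp_ofReal_mul_I _
  have n2 : ‖Complex.exp (-(θ * I))‖ = 1 := by
    rw [show -((θ : ℂ) * I) = ((-θ : ℝ) : ℂ) * I by push_cast; ring]
    exact Complex.norm_exp_ofReal_mul_I _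
  rw [n1, n2, one_mul, one_mul] at h4
  have h5 : ‖(2 : ℂ)‖ ≠ 0 := by simp
  exact (mul_left_cancel₀ h5 h4).symm

/-- radial functions and integrals on discs -/
theorem neg1_radial (F : ℂ → ℝ) (hF : ∀ w : ℂ, F w = F (‖w‖ : ℂ)) (R : ℝ) :
    ∫ w in Metric.ball (0 : ℂ) R, F w =
      (Module.finrank ℝ ℂ) • (volume : Measure ℂ).real (Metric.ball 0 1) •
        ∫ y in Set.Ioi (0 : ℝ), y ^ (Module.finrank ℝ ℂ - 1) •
          ((Set.Iio R).indicator (fun y => F (y : ℂ)) y) := by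
  rw [← MeasureTheory.integral_fun_norm_addHaar (μ := (volume : Measure ℂ))
    (fun y : ℝ => (Set.Iio R).indicator (fun y => F (y : ℂ)) y),
    ← MeasureTheory.integral_indicator measurableSet_ball]
  congr 1
  funext w
  by_cases hw : ‖w‖ < R
  · rw [Set.indicator_of_mem (by simpa using hw), Set.indicator_of_mem (by simpa using hw)]
    exact hF w
  · rw [Set.indicator_of_notMem (by simpa using hw), Set.indicator_of_notMem (by simpa using hw)]

theorem neg1_radial' (F : ℂ → ℝ) (hF : ∀ w : ℂ, F w = F (‖w‖ : ℂ)) (R : ℝ) (hR : 0 < R) :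
    ∫ w in Metric.ball (0 : ℂ) R, F w =
      (2 * (volume : Measure ℂ).real (Metric.ball 0 1)) *
        ∫ y in (0 : ℝ)..R, y * F (y : ℂ) := by
  rw [neg1_radial F hF R, Complex.finrank_real_complex]
  have h1 : ∫ y in Set.Ioi (0 : ℝ), y ^ (2 - 1) •
          ((Set.Iio R).indicator (fun y : ℝ => F (y : ℂ)) y) = ∫ y in (0 : ℝ)..R, y * F (y : ℂ) := by
    rw [intervalIntegral.integral_of_le hR.le, MeasureTheory.integral_Ioc_eq_integral_Ioo]
    have h2 : Set.Ioo 0 R = Set.Ioi 0 ∩ Set.Iio R := rfl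
    rw [h2, ← MeasureTheory.setIntegral_indicator measurableSet_Iio]
    congr 1
    funext y
    by_cases hy : y ∈ Set.Iio R
    · rw [Set.indicator_of_mem hy, Set.indicator_of_mem hy]
      simp
    · rw [Set.indicator_of_notMem hy, Set.indicator_of_notMem hy]
      simp
  rw [h1]
  simp only [nsmul_eq_mul, smul_eq_mul]
  push_cast
  ring

theorem neg1 : Neg1_stmt := by
  intro j hj f hf hm R hR
  have hd : ∀ x, HasFDerivAt f (fderiv ℝ f x) x := fun x =>
    ((hf.differentiable (by simp)) x).hasFDerivAt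
  have hpol : ∀ w : ℂ, w = Complex.exp ((Complex.arg w : ℝ) * I) * (‖w‖ : ℂ) := by
    intro w
    rw [mul_comm]
    exact (Complex.norm_mul_exp_arg_mul_I w).symm
  have n1 : ∀ θ : ℝ, ‖Complex.exp (I * (j * θ))‖ = 1 := by
    intro θ
    rw [show I * ((j : ℂ) * θ) = (((j : ℝ) * θ : ℝ) : ℂ) * I by push_cast; ring]
    exact Complex.norm_exp_ofReal_mul_I _
  have hr1 : ∀ w : ℂ, ‖f w‖ ^ 2 = ‖f (‖w‖ : ℂ)‖ ^ 2 := by
    intro w
    have h1 : ‖f w‖ = ‖f (‖w‖ : ℂ)‖ := by
      conv_lhs => rw [hpol w]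
      rw [hm, norm_mul, n1, one_mul]
    rw [h1]
  have hr2 : ∀ w : ℂ, ‖db1 f w‖ ^ 2 = ‖db1 f (‖w‖ : ℂ)‖ ^ 2 := by
    intro w
    have h1 : ‖db1 f w‖ = ‖db1 f (‖w‖ : ℂ)‖ := by
      conv_lhs => rw [hpol w]
      rw [neg1_db_rot j f hf hm]
    rw [h1]
  -- value at the origin
  have hf0 : f 0 = 0 := by
    have h1 := hm (Real.pi / j) 0
    have hj0 : (j : ℂ) ≠ 0 := by
      exact_mod_cast hj.ne
    have h2 : I * ((j : ℂ) * ((Real.pi / j : ℝ) : ℂ)) = Real.pi * I := by
      push_cast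
      field_simp
    rw [h2, Complex.exp_pi_mul_I, mul_zero] at h1
    have h3 : (2 : ℂ) * f 0 = 0 := by linear_combination h1
    simpa using h3
  -- continuity of db1 f
  have hcd : Continuous (db1 f) := by
    have h1 : Continuous (fderiv ℝ f) := hf.continuous_fderiv (by simp)
    unfold db1
    fun_prop
  have hcf : Continuous f := hf.continuous
  -- the ODE identity
  have hode : ∀ t : ℝ, (t : ℂ) * fderiv ℝ f (t : ℂ) 1 =
      2 * (t : ℂ) * db1 f (t : ℂ) + (j : ℂ) * f (t : ℂ) := by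
    intro t
    have h1 := neg1_theta j f hf hm (t : ℂ)
    have h2 : fderiv ℝ f (t : ℂ) (I * (t : ℂ)) = (t : ℂ) * fderiv ℝ f (t : ℂ) I := by
      rw [show I * (t : ℂ) = t • I by rw [Complex.real_smul, mul_comm], map_smul,
        Complex.real_smul]
    rw [h2] at h1
    have h3 : (2 : ℂ) * db1 f (t : ℂ) = fderiv ℝ f (t : ℂ) 1 + I * fderiv ℝ f (t : ℂ) I := by
      unfold db1; ring
    have hI : I * I = -1 := Complex.I_mul_I
    linear_combination (-(t : ℂ)) * h3 - I * h1 - ((j : ℂ) * f (t : ℂ)) * hI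
  -- the comparison function
  have hder : ∀ t : ℝ, HasDerivAt (fun t : ℝ => f (t : ℂ)) (fderiv ℝ f (t : ℂ) 1) t := by
    intro t
    have h1 : HasDerivAt (fun t : ℝ => (t : ℂ)) 1 t := Complex.ofRealCLM.hasDerivAt
    exact (hd (t : ℂ)).comp_hasDerivAt t h1
  set g : ℝ → ℝ := fun s => s * ‖db1 f (s : ℂ)‖ ^ 2 with hg
  have hgc : Continuous g := by
    rw [hg]
    fun_prop
  set Q : ℝ → ℝ := fun t => 2 * (∫ s in (0 : ℝ)..t, g s) - ‖f (t : ℂ)‖ ^ 2 with hQ
  have hQd : ∀ t : ℝ, HasDerivAt Q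
      (2 * g t - 2 * inner ℝ (f (t : ℂ)) (fderiv ℝ f (t : ℂ) 1)) t := by
    intro t
    have h1 : HasDerivAt (fun t : ℝ => ∫ s in (0 : ℝ)..t, g s) (g t) t :=
      intervalIntegral.integral_hasDerivAt_right (hgc.intervalIntegrable _ _)
        (hgc.stronglyMeasurableAtFilter _ _) hgc.continuousAt
    exact (h1.const_mul 2).sub ((hder t).norm_sq)
  have hQmono : MonotoneOn Q (Set.Ici 0) := by
    apply monotoneOn_of_deriv_nonneg (convex_Ici 0)
    · exact fun t _ => (hQd t).continuousAt.continuousWithinAt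
    · exact fun t _ => (hQd t).differentiableAt.differentiableWithinAt
    · intro t ht
      rw [interior_Ici] at ht
      have ht0 : 0 < t := ht
      rw [(hQd t).deriv]
      have h1 : t * inner ℝ (f (t : ℂ)) (fderiv ℝ f (t : ℂ) 1) =
          2 * t * inner ℝ (f (t : ℂ)) (db1 f (t : ℂ)) + j * ‖f (t : ℂ)‖ ^ 2 := by
        have h2 : t • fderiv ℝ f (t : ℂ) 1 = (2 * t) • db1 f (t : ℂ) + (j : ℝ) • f (t : ℂ) := by
          rw [Complex.real_smul, Complex.real_smul, Complex.real_smul]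
          push_cast
          exact hode t
        rw [← real_inner_smul_right, h2, inner_add_right, real_inner_smul_right,
          real_inner_smul_right, real_inner_self_eq_norm_sq]
      have h2 : inner ℝ (f (t : ℂ)) (db1 f (t : ℂ)) ≤ ‖f (t : ℂ)‖ * ‖db1 f (t : ℂ)‖ :=
        real_inner_le_norm _ _
      have hj1 : (j : ℝ) ≤ -1 := by exact_mod_cast (by omega : j ≤ -1)
      have h3 : 0 ≤ t * (2 * g t - 2 * inner ℝ (f (t : ℂ)) (fderiv ℝ f (t : ℂ) 1)) := by
        have h4 : t * (2 * g t - 2 * inner ℝ (f (t : ℂ)) (fderiv ℝ f (t : ℂ) 1)) =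
            2 * t ^ 2 * ‖db1 f (t : ℂ)‖ ^ 2 - 4 * t * inner ℝ (f (t : ℂ)) (db1 f (t : ℂ)) -
              2 * j * ‖f (t : ℂ)‖ ^ 2 := by
          have : t * (2 * g t - 2 * inner ℝ (f (t : ℂ)) (fderiv ℝ f (t : ℂ) 1)) =
            2 * t * g t - 2 * (t * inner ℝ (f (t : ℂ)) (fderiv ℝ f (t : ℂ) 1)) := by ring
          rw [this, h1, hg]
          ring
        rw [h4]
        have h5 : t * inner ℝ (f (t : ℂ)) (db1 f (t : ℂ)) ≤
            t * (‖f (t : ℂ)‖ * ‖db1 f (t : ℂ)‖) := mul_le_mul_of_nonneg_left h2 ht0.le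
        have h6 : 0 ≤ (-1 - (j : ℝ)) * ‖f (t : ℂ)‖ ^ 2 :=
          mul_nonneg (by linarith) (by positivity)
        nlinarith [sq_nonneg (t * ‖db1 f (t : ℂ)‖ - ‖f (t : ℂ)‖)]
      exact nonneg_of_mul_nonneg_right h3 ht0
  have hQ0 : Q 0 = 0 := by
    simp [hQ, hf0]
  have hpt : ∀ t : ℝ, 0 ≤ t → ‖f (t : ℂ)‖ ^ 2 ≤ 2 * ∫ s in (0 : ℝ)..t, g s := by
    intro t ht
    have h1 := hQmono (Set.mem_Ici.2 le_rfl) (Set.mem_Ici.2 ht) ht
    rw [hQ0] at h1
    simp only [hQ] at h1
    linarith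
  have hgn : ∀ s : ℝ, 0 ≤ s → 0 ≤ g s := by
    intro s hs
    rw [hg]
    positivity
  have hGmono : ∀ t : ℝ, 0 ≤ t → t ≤ R → ∫ s in (0 : ℝ)..t, g s ≤ ∫ s in (0 : ℝ)..R, g s := by
    intro t ht htR
    rw [← intervalIntegral.integral_add_adjacent_intervals (hgc.intervalIntegrable 0 t)
      (hgc.intervalIntegrable t R)]
    have h1 : 0 ≤ ∫ s in t..R, g s := by
      apply intervalIntegral.integral_nonneg htR
      intro u hu
      exact hgn u (ht.trans hu.1)
    linarith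
  have h1D : ∫ y in (0 : ℝ)..R, y * ‖f (y : ℂ)‖ ^ 2 ≤ R ^ 2 * ∫ s in (0 : ℝ)..R, g s := by
    have h1 : ∫ y in (0 : ℝ)..R, y * ‖f (y : ℂ)‖ ^ 2 ≤
        ∫ y in (0 : ℝ)..R, y * (2 * ∫ s in (0 : ℝ)..R, g s) := by
      apply intervalIntegral.integral_mono_on hR.le
      · apply Continuous.intervalIntegrable
        fun_prop
      · apply Continuous.intervalIntegrable
        fun_prop
      · intro y hy
        apply mul_le_mul_of_nonneg_left _ hy.1
        have h2 := hpt y hy.1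
        have h3 := hGmono y hy.1 hy.2
        linarith
    rw [intervalIntegral.integral_mul_const, integral_id] at h1
    refine h1.trans (le_of_eq ?_)
    ring
  rw [neg1_radial' (fun w => ‖f w‖ ^ 2) hr1 R hR, neg1_radial' (fun w => ‖db1 f w‖ ^ 2) hr2 R hR]
  have hC : 0 ≤ 2 * (volume : Measure ℂ).real (Metric.ball 0 1) := by positivity
  calc _ ≤ (2 * (volume : Measure ℂ).real (Metric.ball 0 1)) *
        (R ^ 2 * ∫ s in (0 : ℝ)..R, g s) := mul_le_mul_of_nonneg_left h1D hC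
    _ = _ := by
      rw [hg]
      ring

end DbarN.JN1
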