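import Pool.Agent.H314.DN.Stmts
import Pool.Agent.H314.DN.A0
import Pool.Agent.H314.DN.A1

set_option autoImplicit false

open MeasureTheory Complex Filter Topology
open scoped ContDiff InnerProductSpace ENNReal ComplexConjugate

namespace DbarN.JMO

namespace MO

/-- unnormalised kernel -/
noncomputable def kap (δ : ℝ) (x : E3) : ℝ := Real.smoothTransition (δ ^ 2 - ∑ i, ‖x i‖ ^ 2)

theorem kap_smooth (δ : ℝ) : ContDiff ℝ ∞ (kap δ) := by
  unfold kap
  refine Real.smoothTransition.contDiff.comp ?_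
  refine contDiff_const.sub (ContDiff.sum fun i _ => ?_)
  exact (contDiff_apply ℝ ℂ i).norm_sq ℝ

theorem kap_nonneg (δ : ℝ) (x : E3) : 0 ≤ kap δ x := Real.smoothTransition.nonneg _

theorem kap_supp {δ : ℝ} (hδ : 0 < δ) {x : E3} (h : kap δ x ≠ 0) : ‖x‖ < δ := by
  have h1 : 0 < δ ^ 2 - ∑ i, ‖x i‖ ^ 2 := by
    by_contra hcon
    push Not at hcon
    exact h (Real.smoothTransition.zero_of_nonpos hcon)
  rw [pi_norm_lt_iff hδ]
  intro i
  have h2 : ‖x i‖ ^ 2 ≤ ∑ i, ‖x i‖ ^ 2 :=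
    Finset.single_le_sum (f := fun i => ‖x i‖ ^ 2) (fun i _ => sq_nonneg _) (Finset.mem_univ i)
  exact lt_of_pow_lt_pow_left₀ 2 hδ.le (by linarith)

theorem kap_zero_pos {δ : ℝ} (hδ : 0 < δ) : kap δ 0 ≠ 0 := by
  unfold kap
  refine (Real.smoothTransition.pos_of_pos ?_).ne'
  simp
  positivity

theorem kap_compact {δ : ℝ} (hδ : 0 < δ) : HasCompactSupport (kap δ) := by
  refine HasCompactSupport.of_support_subset_isCompact (isCompact_closedBall (0 : E3) δ) ?_
  intro x hx
  rw [mem_closedBall_zero_iff]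
  exact (kap_supp hδ hx).le

/-- total mass -/
noncomputable def mass (δ : ℝ) : ℝ := ∫ y : E3, kap δ y

theorem mass_pos {δ : ℝ} (hδ : 0 < δ) : 0 < mass δ :=
  (kap_smooth δ).continuous.integral_pos_of_hasCompactSupport_nonneg_nonzero (kap_compact hδ)
    (kap_nonneg δ) (kap_zero_pos hδ)

/-- the kernel -/
noncomputable def kk (δ : ℝ) (x : E3) : ℝ := kap δ x / mass δ

theorem kk_smooth (δ : ℝ) : ContDiff ℝ ∞ (kk δ) := (kap_smooth δ).div_const _

theorem kk_nonneg {δ : ℝ} (hδ : 0 < δ) (x : E3) : 0 ≤ kk δ x :=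
  div_nonneg (kap_nonneg _ _) (mass_pos hδ).le

theorem kk_supp {δ : ℝ} (hδ : 0 < δ) {x : E3} (h : kk δ x ≠ 0) : ‖x‖ < δ := by
  refine kap_supp hδ ?_
  intro h0
  exact h (by unfold kk; rw [h0, zero_div])

theorem kk_int {δ : ℝ} (hδ : 0 < δ) : ∫ x, kk δ x = 1 := by
  unfold kk
  rw [integral_div]
  exact div_self (mass_pos hδ).ne'

theorem kk_compact {δ : ℝ} (hδ : 0 < δ) : HasCompactSupport (kk δ) := by
  refine HasCompactSupport.of_support_subset_isCompact (isCompact_closedBall (0 : E3) δ) ?_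
  intro x hx
  rw [mem_closedBall_zero_iff]
  exact (kk_supp hδ hx).le

theorem rot_norm (θ₁ θ₂ : ℝ) (x : E3) (i : Fin 3) : ‖rot θ₁ θ₂ x i‖ = ‖x i‖ := by
  fin_cases i
  · rfl
  · change ‖Complex.exp (θ₁ * I) * x 1‖ = ‖x 1‖
    rw [norm_mul, Complex.norm_exp_ofReal_mul_I, one_mul]
  · change ‖Complex.exp (θ₂ * I) * x 2‖ = ‖x 2‖
    rw [norm_mul, Complex.norm_exp_ofReal_mul_I, one_mul]

theorem kk_rot (δ θ₁ θ₂ : ℝ) (x : E3) : kk δ (rot θ₁ θ₂ x) = kk δ x := by
  unfold kk kap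
  simp only [rot_norm]

/-- complex valued kernel -/
noncomputable def kc (δ : ℝ) (x : E3) : ℂ := (kk δ x : ℂ)

theorem kc_smooth (δ : ℝ) : ContDiff ℝ ∞ (kc δ) := Complex.ofRealCLM.contDiff.comp (kk_smooth δ)

theorem kc_compact {δ : ℝ} (hδ : 0 < δ) : HasCompactSupport (kc δ) :=
  (kk_compact hδ).comp_left (g := fun x : ℝ => (x : ℂ)) Complex.ofReal_zero

theorem kc_supp {δ : ℝ} (hδ : 0 < δ) {x : E3} (h : kc δ x ≠ 0) : ‖x‖ < δ :=
  kk_supp hδ fun h0 => h (by unfold kc; rw [h0, Complex.ofReal_zero])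

/-- convolution with the kernel -/
noncomputable def cv (δ : ℝ) (h : E3 → ℂ) : E3 → ℂ :=
  MeasureTheory.convolution h (kc δ) (ContinuousLinearMap.mul ℝ ℂ) volume

theorem cv_apply (δ : ℝ) (h : E3 → ℂ) (x : E3) : cv δ h x = ∫ t, h t * kc δ (x - t) := rfl

theorem cv_swap (δ : ℝ) (h : E3 → ℂ) (x : E3) : cv δ h x = ∫ t, h (x - t) * kc δ t := by
  unfold cv
  rw [convolution_eq_swap]
  rfl

theorem cv_smooth {δ : ℝ} (hδ : 0 < δ) {h : E3 → ℂ} (hh : LocallyIntegrable h) :
    ContDiff ℝ ∞ (cv δ h) :=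
  (kc_compact hδ).contDiff_convolution_right _ hh (kc_smooth δ)

theorem cv_int {δ : ℝ} (hδ : 0 < δ) {h : E3 → ℂ} (hh : LocallyIntegrable h) (x : E3) :
    Integrable (fun t => h t * kc δ (x - t)) :=
  (kc_compact hδ).convolutionExists_right (ContinuousLinearMap.mul ℝ ℂ) hh
    (kc_smooth δ).continuous x

theorem cv_compact {δ : ℝ} (hδ : 0 < δ) {h : E3 → ℂ} (hh : HasCompactSupport h) :
    HasCompactSupport (cv δ h) :=
  HasCompactSupport.convolution _ hh (kc_compact hδ)

theorem cv_fderiv {δ : ℝ} (hδ : 0 < δ) {h : E3 → ℂ} (hh : LocallyIntegrable h) (x v : E3) :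
    fderiv ℝ (cv δ h) x v = ∫ t, h t * fderiv ℝ (kc δ) (x - t) v := by
  have h1 := (kc_compact hδ).hasFDerivAt_convolution_right (ContinuousLinearMap.mul ℝ ℂ)
    hh ((kc_smooth δ).of_le (by norm_cast)) x
  have h2 := h1.fderiv
  have h3 := convolution_precompR_apply (ContinuousLinearMap.mul ℝ ℂ) hh
    ((kc_compact hδ).fderiv ℝ) ((kc_smooth δ).continuous_fderiv (by simp)) x v
  unfold cv
  rw [h2, h3]
  rfl

theorem cv_fderiv_int {δ : ℝ} (hδ : 0 < δ) {h : E3 → ℂ} (hh : LocallyIntegrable h) (x v : E3) :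
    Integrable (fun t => h t * fderiv ℝ (kc δ) (x - t) v) := by
  have h1 : HasCompactSupport (fun y => fderiv ℝ (kc δ) y v) :=
    ((kc_compact hδ).fderiv ℝ).comp_left (g := fun L : E3 →L[ℝ] ℂ => L v) (by simp)
  exact h1.convolutionExists_right (ContinuousLinearMap.mul ℝ ℂ) hh
    (((kc_smooth δ).continuous_fderiv (by simp)).clm_apply continuous_const) x


theorem sqn {α : Type*} [MeasurableSpace α] (μ : Measure α) (f : α → ℂ) :
    eLpNorm f 2 μ ^ 2 = ∫⁻ x, ‖f x‖ₑ ^ 2 ∂μ := by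
  have h := eLpNorm_nnreal_pow_eq_lintegral (f := f) (μ := μ) (p := 2) two_ne_zero
  have e : ((2 : NNReal) : ℝ≥0∞) = 2 := rfl
  rw [e] at h
  simpa using h

/-- the probability measure with density `kk δ` -/
noncomputable def nu (δ : ℝ) : Measure E3 :=
  (volume : Measure E3).withDensity fun s => ENNReal.ofReal (kk δ s)

theorem nu_prob {δ : ℝ} (hδ : 0 < δ) : IsProbabilityMeasure (nu δ) := by
  refine ⟨?_⟩
  unfold nu
  rw [withDensity_apply _ MeasurableSet.univ, Measure.restrict_univ,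
    ← ofReal_integral_eq_lintegral_ofReal, kk_int hδ, ENNReal.ofReal_one]
  · exact (kk_smooth δ).continuous.integrable_of_hasCompactSupport (kk_compact hδ)
  · exact Filter.Eventually.of_forall fun x => kk_nonneg hδ x

theorem cv_contract_meas {δ : ℝ} (hδ : 0 < δ) {h : E3 → ℂ} (hh : Measurable h) :
    eLpNorm (cv δ h) 2 volume ≤ eLpNorm h 2 volume := by
  have : IsProbabilityMeasure (nu δ) := nu_prob hδ
  have hkm : Measurable fun s : E3 => ENNReal.ofReal (kk δ s) :=
    (kk_smooth δ).continuous.measurable.ennreal_ofReal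
  have h1 : ∀ x, ‖cv δ h x‖ₑ ^ 2 ≤ ∫⁻ s, ‖h (x - s)‖ₑ ^ 2 ∂(nu δ) := by
    intro x
    have hm : Measurable fun s => h (x - s) := hh.comp (measurable_const.sub measurable_id)
    have e1 : ‖cv δ h x‖ₑ ≤ ∫⁻ s, ‖h (x - s)‖ₑ ∂(nu δ) := by
      rw [cv_swap]
      refine (enorm_integral_le_lintegral_enorm _).trans (le_of_eq ?_)
      unfold nu
      rw [lintegral_withDensity_eq_lintegral_mul _ hkm hm.enorm]
      refine lintegral_congr fun s => ?_
      rw [Pi.mul_apply, enorm_mul, mul_comm]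
      congr 1
      unfold kc
      rw [← ofReal_norm, Complex.norm_real, Real.norm_of_nonneg (kk_nonneg hδ s)]
    have e2 : (∫⁻ s, ‖h (x - s)‖ₑ ∂(nu δ)) = eLpNorm (fun s => h (x - s)) 1 (nu δ) :=
      eLpNorm_one_eq_lintegral_enorm.symm
    have e3 : eLpNorm (fun s => h (x - s)) 1 (nu δ) ≤ eLpNorm (fun s => h (x - s)) 2 (nu δ) :=
      eLpNorm_le_eLpNorm_of_exponent_le (by norm_num) hm.aestronglyMeasurable
    rw [← sqn (nu δ) (fun s => h (x - s))]
    exact pow_le_pow_left' (e1.trans (e2.le.trans e3)) 2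
  rw [← ENNReal.pow_le_pow_left_iff two_ne_zero, sqn, sqn]
  calc ∫⁻ x, ‖cv δ h x‖ₑ ^ 2 ≤ ∫⁻ x, ∫⁻ s, ‖h (x - s)‖ₑ ^ 2 ∂(nu δ) := lintegral_mono h1
    _ = ∫⁻ s, (∫⁻ x, ‖h (x - s)‖ₑ ^ 2) ∂(nu δ) := by
        refine lintegral_lintegral_swap ?_
        have : Measurable fun p : E3 × E3 => ‖h (p.1 - p.2)‖ₑ ^ 2 :=
          (hh.comp (measurable_fst.sub measurable_snd)).enorm.pow_const 2
        exact this.aemeasurable
    _ = ∫⁻ _s, (∫⁻ x, ‖h x‖ₑ ^ 2) ∂(nu δ) := by
        refine lintegral_congr fun s => ?_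
        exact lintegral_sub_right_eq_self (μ := (volume : Measure E3)) (fun x => ‖h x‖ₑ ^ 2) s
    _ = ∫⁻ x, ‖h x‖ₑ ^ 2 := by
        rw [lintegral_const, measure_univ, mul_one]

theorem cv_contract {δ : ℝ} (hδ : 0 < δ) {h : E3 → ℂ}
    (hh : AEStronglyMeasurable h (volume : Measure E3)) :
    eLpNorm (cv δ h) 2 volume ≤ eLpNorm h 2 volume := by
  have h1 : cv δ h = cv δ (hh.mk h) := by
    unfold cv
    exact convolution_congr _ hh.ae_eq_mk (Filter.EventuallyEq.refl _ _)
  rw [h1, eLpNorm_congr_ae hh.ae_eq_mk]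
  exact cv_contract_meas hδ hh.stronglyMeasurable_mk.measurable

theorem dil_norm {r : ℝ} (hr : 0 < r) {F : E3 → ℂ} (hF : Continuous F) :
    ENNReal.ofReal (r ^ 3) * eLpNorm (fun x => F (r • x)) 2 volume = eLpNorm F 2 volume := by
  have h1 : Measure.map (fun x : E3 => r • x) volume
      = ENNReal.ofReal |(r ^ Module.finrank ℝ E3)⁻¹| • (volume : Measure E3) :=
    Measure.map_addHaar_smul volume hr.ne'
  have h2 : Module.finrank ℝ E3 = 6 := by
    rw [Module.finrank_pi_fintype]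
    simp
  have hmeas : Measurable fun x : E3 => r • x := measurable_const_smul r
  have h3 : ∫⁻ x, ‖F (r • x)‖ₑ ^ 2 = ENNReal.ofReal ((r ^ 6)⁻¹) * ∫⁻ x, ‖F x‖ₑ ^ 2 := by
    have h4 := lintegral_map (μ := (volume : Measure E3)) (f := fun x => ‖F x‖ₑ ^ 2)
      (hF.measurable.enorm.pow_const 2) hmeas
    rw [← h4, h1, h2, lintegral_smul_measure, abs_of_pos (by positivity), smul_eq_mul]
  have h5 : (ENNReal.ofReal (r ^ 3) * eLpNorm (fun x => F (r • x)) 2 volume) ^ 2
      = (eLpNorm F 2 volume) ^ 2 := by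
    rw [mul_pow, sqn, sqn, h3, ← ENNReal.ofReal_pow (by positivity), ← mul_assoc,
      ← ENNReal.ofReal_mul (by positivity), ← pow_mul]
    rw [mul_inv_cancel₀ (by positivity), ENNReal.ofReal_one, one_mul]
  refine le_antisymm ?_ ?_
  · exact (ENNReal.pow_le_pow_left_iff two_ne_zero).1 h5.le
  · exact (ENNReal.pow_le_pow_left_iff two_ne_zero).1 h5.ge

/-- dilated mollification -/
noncomputable def TT (δ r : ℝ) (h : E3 → ℂ) : E3 → ℂ := fun x => cv δ h (r • x)

theorem TT_contract {δ r : ℝ} (hδ : 0 < δ) (hr : 0 < r) {h : E3 → ℂ}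
    (hh : MemLp h 2 (volume : Measure E3)) :
    ENNReal.ofReal (r ^ 3) * eLpNorm (TT δ r h) 2 volume ≤ eLpNorm h 2 volume := by
  unfold TT
  have hl : LocallyIntegrable h := hh.locallyIntegrable (by norm_num)
  rw [dil_norm hr (cv_smooth hδ hl).continuous]
  exact cv_contract hδ hh.aestronglyMeasurable

theorem TT_test {δ r : ℝ} (hδ : 0 < δ) (hr : 0 < r) {h : E3 → ℂ}
    (hh : LocallyIntegrable h) (hc : HasCompactSupport h) : IsTest Set.univ (TT δ r h) := by
  refine ⟨?_, ?_, Set.subset_univ _⟩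
  · exact (cv_smooth hδ hh).comp (contDiff_const_smul r)
  · have := (cv_compact hδ hc).comp_homeomorph (Homeomorph.smulOfNeZero r hr.ne')
    exact this


theorem kc_int {δ : ℝ} (hδ : 0 < δ) : ∫ x, kc δ x = 1 := by
  unfold kc
  rw [integral_complex_ofReal, kk_int hδ, Complex.ofReal_one]

theorem kk_integrable {δ : ℝ} (hδ : 0 < δ) : Integrable (kk δ) :=
  (kk_smooth δ).continuous.integrable_of_hasCompactSupport (kk_compact hδ)

theorem kc_integrable {δ : ℝ} (hδ : 0 < δ) : Integrable (kc δ) :=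
  (kc_smooth δ).continuous.integrable_of_hasCompactSupport (kc_compact hδ)

theorem TT_near {δ r η ε : ℝ} (hδ : 0 < δ) (hr1 : r < 1) {g : E3 → ℂ} (hg : Continuous g)
    (hε : 0 ≤ ε) (hu : ∀ a b : E3, dist a b < η → dist (g a) (g b) ≤ ε) {D : ℝ} (x : E3)
    (hx : ‖x‖ ≤ D) (h1 : (1 - r) * D + δ < η) : ‖TT δ r g x - g x‖ ≤ ε := by
  have i1 : Integrable (fun t => g (r • x - t) * kc δ t) := by
    refine Continuous.integrable_of_hasCompactSupport ?_ ?_
    · exact (hg.comp (continuous_const.sub continuous_id)).mul (kc_smooth δ).continuous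
    · exact (kc_compact hδ).mul_left
  have i2 : Integrable (fun t => g x * kc δ t) := (kc_integrable hδ).const_mul _
  have e1 : g x = ∫ t, g x * kc δ t := by
    rw [integral_const_mul, kc_int hδ, mul_one]
  have e2 : TT δ r g x - g x = ∫ t, (g (r • x - t) - g x) * kc δ t := by
    unfold TT
    rw [cv_swap]
    have e5 : (∫ t, g (r • x - t) * kc δ t) - ∫ t, g x * kc δ t
        = ∫ t, (g (r • x - t) - g x) * kc δ t := by
      rw [← integral_sub i1 i2]
      refine integral_congr_ae (Filter.Eventually.of_forall fun t => ?_)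
      change g (r • x - t) * kc δ t - g x * kc δ t = (g (r • x - t) - g x) * kc δ t
      ring
    rw [← e5, ← e1]
  rw [e2]
  have e3 : ∫ t, ε * kk δ t = ε := by rw [integral_const_mul, kk_int hδ, mul_one]
  refine (norm_integral_le_of_norm_le ((kk_integrable hδ).const_mul ε)
    (Filter.Eventually.of_forall fun t => ?_)).trans e3.le
  rw [norm_mul]
  have e4 : ‖kc δ t‖ = kk δ t := by
    unfold kc
    rw [Complex.norm_real, Real.norm_of_nonneg (kk_nonneg hδ t)]
  rw [e4]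
  by_cases ht : kk δ t = 0
  · rw [ht, mul_zero, mul_zero]
  · refine mul_le_mul_of_nonneg_right ?_ (kk_nonneg hδ t)
    rw [← dist_eq_norm]
    apply hu
    rw [dist_eq_norm]
    have e5 : r • x - t - x = -((1 - r) • x) - t := by
      rw [sub_smul, one_smul]; abel
    rw [e5]
    have e6 : ‖(1 - r) • x‖ ≤ (1 - r) * D := by
      rw [norm_smul, Real.norm_of_nonneg (by linarith)]
      exact mul_le_mul_of_nonneg_left hx (by linarith)
    calc ‖-((1 - r) • x) - t‖ ≤ ‖-((1 - r) • x)‖ + ‖t‖ := norm_sub_le _ _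
      _ < η := by
        rw [norm_neg]
        have := kk_supp hδ ht
        linarith

theorem TT_sub {δ r : ℝ} (hδ : 0 < δ) {g h : E3 → ℂ} (hg : LocallyIntegrable g)
    (hh : LocallyIntegrable h) : TT δ r (g - h) = TT δ r g - TT δ r h := by
  funext x
  unfold TT
  rw [Pi.sub_apply, cv_apply, cv_apply, cv_apply, ← integral_sub (cv_int hδ hg _)
    (cv_int hδ hh _)]
  refine integral_congr_ae (Filter.Eventually.of_forall fun t => ?_)
  change (g t - h t) * _ = _
  ring

theorem small_real (c ε : ℝ≥0∞) (hc : c ≠ ⊤) (hε : ε ≠ 0) :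
    ∃ η : ℝ, 0 < η ∧ c * ENNReal.ofReal η ≤ ε := by
  have h1 : 0 < (min ε 1) := lt_min (pos_iff_ne_zero.2 hε) one_pos
  have h2 : min ε 1 ≠ ⊤ := ne_top_of_le_ne_top ENNReal.one_ne_top (min_le_right _ _)
  have h3 : 0 < (min ε 1).toReal := ENNReal.toReal_pos h1.ne' h2
  have h4 : 0 ≤ c.toReal := ENNReal.toReal_nonneg
  refine ⟨(min ε 1).toReal / (c.toReal + 1), by positivity, ?_⟩
  have h5 : c = ENNReal.ofReal c.toReal := (ENNReal.ofReal_toReal hc).symm
  calc c * ENNReal.ofReal ((min ε 1).toReal / (c.toReal + 1))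
      = ENNReal.ofReal c.toReal * ENNReal.ofReal ((min ε 1).toReal / (c.toReal + 1)) := by
        rw [← h5]
    _ = ENNReal.ofReal (c.toReal * ((min ε 1).toReal / (c.toReal + 1))) :=
        (ENNReal.ofReal_mul h4).symm
    _ ≤ ENNReal.ofReal ((min ε 1).toReal) := by
        refine ENNReal.ofReal_le_ofReal ?_
        rw [mul_div_assoc', div_le_iff₀ (by positivity)]
        nlinarith
    _ = min ε 1 := ENNReal.ofReal_toReal h2
    _ ≤ ε := min_le_left _ _

theorem TT_tendsto (Ω : Set E3) (hb : Bornology.IsBounded Ω) (hm : MeasurableSet Ω)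
    (δ r : ℕ → ℝ) (hδ : ∀ n, 0 < δ n) (hδ0 : Tendsto δ atTop (𝓝 0)) (hr : ∀ n, 1 / 2 ≤ r n)
    (hr1 : ∀ n, r n < 1) (hr0 : Tendsto r atTop (𝓝 1)) (h : E3 → ℂ)
    (hh : MemLp h 2 (volume : Measure E3)) :
    Tendsto (fun n => eLpNorm (TT (δ n) (r n) h - h) 2 (volume.restrict Ω)) atTop (𝓝 0) := by
  rw [ENNReal.tendsto_nhds_zero]
  intro ε hε
  have hε' : ε / 10 ≠ 0 := by
    simp only [ne_eq, ENNReal.div_eq_zero_iff, not_or]
    exact ⟨hε.ne', by norm_num⟩
  obtain ⟨g, hgc, hgε, hgcont, hgm⟩ :=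
    hh.exists_hasCompactSupport_eLpNorm_sub_le (by norm_num) hε'
  have hvol : volume Ω ≠ ⊤ := hb.measure_lt_top.ne
  have hc : (volume.restrict Ω) Set.univ ^ (2 : ℝ≥0∞).toReal⁻¹ ≠ ⊤ := by
    rw [Measure.restrict_apply_univ]
    exact ENNReal.rpow_ne_top_of_nonneg (by positivity) hvol
  obtain ⟨η, hη, hηε⟩ := small_real _ _ hc hε'
  have huc : UniformContinuous g := hgc.uniformContinuous_of_continuous hgcont
  obtain ⟨ρ, hρ, hu⟩ := Metric.uniformContinuous_iff.1 huc η hη
  obtain ⟨D, hD⟩ := hb.exists_norm_le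
  have hev : ∀ᶠ n in atTop, (1 - r n) * D + δ n < ρ := by
    have : Tendsto (fun n => (1 - r n) * D + δ n) atTop (𝓝 ((1 - 1) * D + 0)) :=
      ((tendsto_const_nhds.sub hr0).mul_const D).add hδ0
    rw [sub_self, zero_mul, add_zero] at this
    exact this.eventually (gt_mem_nhds hρ)
  filter_upwards [hev] with n hn
  have hhl : LocallyIntegrable h := hh.locallyIntegrable (by norm_num)
  have hgl : LocallyIntegrable g := hgm.locallyIntegrable (by norm_num)
  have e1 : TT (δ n) (r n) h - h = (TT (δ n) (r n) (h - g) + (TT (δ n) (r n) g - g)) - (h - g) := by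
    rw [TT_sub (hδ n) hhl hgl]
    abel
  have hcont1 : Continuous (TT (δ n) (r n) h) :=
    (cv_smooth (hδ n) hhl).continuous.comp (continuous_const_smul (r n))
  have hcont2 : Continuous (TT (δ n) (r n) g) :=
    (cv_smooth (hδ n) hgl).continuous.comp (continuous_const_smul (r n))
  have m1 : AEStronglyMeasurable (TT (δ n) (r n) (h - g)) (volume.restrict Ω) := by
    rw [TT_sub (hδ n) hhl hgl]
    exact (hcont1.sub hcont2).aestronglyMeasurable
  have m2 : AEStronglyMeasurable (TT (δ n) (r n) g - g) (volume.restrict Ω) :=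
    (hcont2.sub hgcont).aestronglyMeasurable
  have m3 : AEStronglyMeasurable (h - g) (volume.restrict Ω) :=
    (hh.aestronglyMeasurable.sub hgm.aestronglyMeasurable).mono_measure Measure.restrict_le_self
  have b1 : eLpNorm (TT (δ n) (r n) (h - g)) 2 (volume.restrict Ω) ≤ 8 * (ε / 10) := by
    have c1 := TT_contract (hδ n) (lt_of_lt_of_le (by norm_num) (hr n)) (hh.sub hgm)
    have c2 : ENNReal.ofReal (1 / 8) ≤ ENNReal.ofReal (r n ^ 3) := by
      refine ENNReal.ofReal_le_ofReal ?_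
      have := pow_le_pow_left₀ (by norm_num : (0:ℝ) ≤ 1 / 2) (hr n) 3
      linarith
    have c3 : (8 : ℝ≥0∞) * ENNReal.ofReal (1 / 8) = 1 := by
      have : (8 : ℝ≥0∞) = ENNReal.ofReal 8 := by norm_num
      rw [this, ← ENNReal.ofReal_mul (by norm_num)]
      norm_num
    calc eLpNorm (TT (δ n) (r n) (h - g)) 2 (volume.restrict Ω)
        ≤ eLpNorm (TT (δ n) (r n) (h - g)) 2 volume :=
          eLpNorm_mono_measure _ Measure.restrict_le_self
      _ = 8 * (ENNReal.ofReal (1 / 8) * eLpNorm (TT (δ n) (r n) (h - g)) 2 volume) := by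
          rw [← mul_assoc, c3, one_mul]
      _ ≤ 8 * (ENNReal.ofReal (r n ^ 3) * eLpNorm (TT (δ n) (r n) (h - g)) 2 volume) := by
          gcongr
      _ ≤ 8 * (ε / 10) := by
          gcongr
          exact c1.trans hgε
  have b2 : eLpNorm (TT (δ n) (r n) g - g) 2 (volume.restrict Ω) ≤ ε / 10 := by
    refine (eLpNorm_le_of_ae_bound (C := η) ?_).trans hηε
    rw [ae_restrict_iff' hm]
    refine Filter.Eventually.of_forall fun x hx => ?_
    exact TT_near (hδ n) (hr1 n) hgcont hη.le (fun a b hab => (hu hab).le) x (hD x hx) hn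
  have b3 : eLpNorm (h - g) 2 (volume.restrict Ω) ≤ ε / 10 :=
    (eLpNorm_mono_measure _ Measure.restrict_le_self).trans hgε
  rw [e1]
  calc eLpNorm ((TT (δ n) (r n) (h - g) + (TT (δ n) (r n) g - g)) - (h - g)) 2 (volume.restrict Ω)
      ≤ eLpNorm (TT (δ n) (r n) (h - g) + (TT (δ n) (r n) g - g)) 2 (volume.restrict Ω)
        + eLpNorm (h - g) 2 (volume.restrict Ω) := eLpNorm_sub_le (m1.add m2) m3 (by norm_num)
    _ ≤ (eLpNorm (TT (δ n) (r n) (h - g)) 2 (volume.restrict Ω)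
        + eLpNorm (TT (δ n) (r n) g - g) 2 (volume.restrict Ω))
        + eLpNorm (h - g) 2 (volume.restrict Ω) := by
          gcongr
          exact eLpNorm_add_le m1 m2 (by norm_num)
    _ ≤ (8 * (ε / 10) + ε / 10) + ε / 10 := by gcongr
    _ = 10 * (ε / 10) := by ring
    _ = ε := ENNReal.mul_div_cancel (by norm_num) (by norm_num)


theorem TT_dbar {δ r : ℝ} (hδ : 0 < δ) {h : E3 → ℂ} (hh : LocallyIntegrable h)
    (j : Fin 3) (x : E3) : dbar j (TT δ r h) x = (r : ℂ) * dbar j (cv δ h) (r • x) := by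
  have h1 : ∀ v : E3, fderiv ℝ (TT δ r h) x v = (r : ℂ) * fderiv ℝ (cv δ h) (r • x) v := by
    intro v
    have h2 : HasFDerivAt (cv δ h) (fderiv ℝ (cv δ h) (r • x)) (r • x) :=
      (((cv_smooth hδ hh).differentiable (by simp)) (r • x)).hasFDerivAt
    have h3 : HasFDerivAt (fun y : E3 => r • y) (r • ContinuousLinearMap.id ℝ E3) x :=
      (hasFDerivAt_id x).const_smul r
    have h4 : HasFDerivAt (TT δ r h) _ x := h2.comp x h3
    rw [h4.fderiv]
    simp
  unfold dbar
  rw [h1, h1]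
  ring

theorem cv_dbar {δ : ℝ} (hδ : 0 < δ) {h : E3 → ℂ} (hh : LocallyIntegrable h)
    (j : Fin 3) (x : E3) : dbar j (cv δ h) x = ∫ t, h t * dbar j (kc δ) (x - t) := by
  unfold dbar
  rw [cv_fderiv hδ hh, cv_fderiv hδ hh, ← integral_const_mul, ← integral_add
    (cv_fderiv_int hδ hh _ _) ((cv_fderiv_int hδ hh _ _).const_mul I), ← integral_const_mul]
  refine integral_congr_ae (Filter.Eventually.of_forall fun t => ?_)
  change (1 / 2 : ℂ) * (h t * _ + I * (h t * _)) = h t * (1 / 2 * (_ + I * _))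
  ring

theorem cv_dbar_int {δ : ℝ} (hδ : 0 < δ) {h : E3 → ℂ} (hh : LocallyIntegrable h)
    (j : Fin 3) (x : E3) : Integrable (fun t => h t * dbar j (kc δ) (x - t)) := by
  have h1 := ((cv_fderiv_int hδ hh x (Pi.single j 1)).add
    ((cv_fderiv_int hδ hh x (Pi.single j I)).const_mul I)).const_mul (1 / 2)
  refine h1.congr (Filter.Eventually.of_forall fun t => ?_)
  unfold dbar
  change (1 / 2 : ℂ) * (h t * _ + I * (h t * _)) = h t * (1 / 2 * (_ + I * _))
  ring

theorem ref_dbar (δ : ℝ) (j : Fin 3) (y t : E3) :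
    dbar j (fun t => kc δ (y - t)) t = - dbar j (kc δ) (y - t) := by
  have h1 : ∀ v : E3, fderiv ℝ (fun t => kc δ (y - t)) t v = - fderiv ℝ (kc δ) (y - t) v := by
    intro v
    have h2 : HasFDerivAt (kc δ) (fderiv ℝ (kc δ) (y - t)) (y - t) :=
      (((kc_smooth δ).differentiable (by simp)) (y - t)).hasFDerivAt
    have h3 : HasFDerivAt (fun t : E3 => y - t) (-(ContinuousLinearMap.id ℝ E3)) t :=
      (hasFDerivAt_id t).const_sub y
    have h4 : HasFDerivAt (fun t => kc δ (y - t)) _ t := h2.comp t h3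
    rw [h4.fderiv]
    simp
  unfold dbar
  rw [h1, h1]
  ring

theorem ref_test {δ : ℝ} (hδ : 0 < δ) (Ω : Set E3) (y : E3) (hy : Metric.closedBall y δ ⊆ Ω) :
    IsTest Ω (fun t => kc δ (y - t)) := by
  have hs : Function.support (fun t => kc δ (y - t)) ⊆ Metric.closedBall y δ := by
    intro t ht
    have h1 := kc_supp hδ (x := y - t) ht
    rw [Metric.mem_closedBall, dist_comm, dist_eq_norm]
    exact h1.le
  refine ⟨(kc_smooth δ).comp (contDiff_const.sub contDiff_id), ?_, ?_⟩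
  · exact HasCompactSupport.of_support_subset_isCompact (isCompact_closedBall y δ) hs
  · exact (closure_minimal hs Metric.isClosed_closedBall).trans hy

theorem TT_rel {δ r : ℝ} (hδ : 0 < δ) (Ω : Set E3) (hm : MeasurableSet Ω) (x : E3)
    (hx : Metric.closedBall (r • x) δ ⊆ Ω) (α : Fin 3 → Fin 3 → ℂ) (u : Fin 3 → E3 → ℂ)
    (g : E3 → ℂ) (hu : ∀ i, LocallyIntegrable (Ω.indicator (u i)))
    (hrel : ∀ φ, IsTest Ω φ →
      ∫ x in Ω, ∑ i, u i x * (∑ j, α i j * dbar j φ x) = - ∫ x in Ω, g x * φ x) :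
    ∑ i, ∑ j, α i j * dbar j (TT δ r (Ω.indicator (u i))) x
      = (r : ℂ) * TT δ r (Ω.indicator g) x := by
  have h1 := hrel _ (ref_test hδ Ω (r • x) hx)
  have h2 : ∫ t in Ω, g t * kc δ (r • x - t) = cv δ (Ω.indicator g) (r • x) := by
    rw [cv_apply, ← integral_indicator hm]
    refine integral_congr_ae (Filter.Eventually.of_forall fun t => ?_)
    by_cases ht : t ∈ Ω <;> simp [ht]
  have h3 : ∫ t in Ω, ∑ i, u i t * (∑ j, α i j * dbar j (fun t => kc δ (r • x - t)) t)
      = - ∑ i, ∑ j, α i j * ∫ t, Ω.indicator (u i) t * dbar j (kc δ) (r • x - t) := by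
    rw [← integral_indicator hm]
    have h4 : ∀ i j, Integrable (fun t => α i j * (Ω.indicator (u i) t *
        dbar j (kc δ) (r • x - t))) := fun i j => (cv_dbar_int hδ (hu i) j _).const_mul _
    calc ∫ t, Ω.indicator (fun t => ∑ i, u i t *
          (∑ j, α i j * dbar j (fun t => kc δ (r • x - t)) t)) t
        = ∫ t, -(∑ i, ∑ j, α i j * (Ω.indicator (u i) t * dbar j (kc δ) (r • x - t))) := by
          refine integral_congr_ae (Filter.Eventually.of_forall fun t => ?_)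
          by_cases ht : t ∈ Ω
          · simp only [Set.indicator_of_mem ht, ref_dbar]
            rw [← Finset.sum_neg_distrib]
            refine Finset.sum_congr rfl fun i _ => ?_
            rw [Finset.mul_sum, ← Finset.sum_neg_distrib]
            refine Finset.sum_congr rfl fun j _ => ?_
            ring
          · simp [ht]
      _ = - ∑ i, ∑ j, α i j * ∫ t, Ω.indicator (u i) t * dbar j (kc δ) (r • x - t) := by
          rw [integral_neg]
          congr 1
          rw [integral_finsetSum _ fun i _ => integrable_finsetSum _ fun j _ => h4 i j]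
          refine Finset.sum_congr rfl fun i _ => ?_
          rw [integral_finsetSum _ fun j _ => h4 i j]
          refine Finset.sum_congr rfl fun j _ => ?_
          rw [integral_const_mul]
  rw [h3, h2] at h1
  have h5 := neg_injective h1
  unfold TT at *
  rw [← h5, Finset.mul_sum]
  refine Finset.sum_congr rfl fun i _ => ?_
  rw [Finset.mul_sum]
  refine Finset.sum_congr rfl fun j _ => ?_
  have h6 := TT_dbar (r := r) hδ (hu i) j x
  unfold TT at h6
  rw [h6, cv_dbar hδ (hu i)]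
  ring

theorem mul_mp (θ : ℝ) : MeasurePreserving (fun z : ℂ => Complex.exp (θ * I) * z) volume volume := by
  have h1 := (rotation (Circle.exp θ)).measurePreserving
  have h2 : (fun z : ℂ => Complex.exp (θ * I) * z) = (rotation (Circle.exp θ) : ℂ → ℂ) := by
    funext z
    rw [rotation_apply, Circle.coe_exp]
  rw [h2]
  exact h1

theorem rot_mp (θ₁ θ₂ : ℝ) : MeasurePreserving (rot θ₁ θ₂) volume volume := by
  have h1 : ∀ i : Fin 3, MeasurePreserving ((![id, fun z : ℂ => Complex.exp (θ₁ * I) * z,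
      fun z : ℂ => Complex.exp (θ₂ * I) * z] : Fin 3 → ℂ → ℂ) i) volume volume := by
    intro i
    fin_cases i
    · exact MeasurePreserving.id _
    · exact mul_mp θ₁
    · exact mul_mp θ₂
  have h2 := volume_preserving_pi (f := (![id, fun z : ℂ => Complex.exp (θ₁ * I) * z,
      fun z : ℂ => Complex.exp (θ₂ * I) * z] : Fin 3 → ℂ → ℂ)) h1
  have h3 : rot θ₁ θ₂ = fun a i => (![id, fun z : ℂ => Complex.exp (θ₁ * I) * z,
      fun z : ℂ => Complex.exp (θ₂ * I) * z] : Fin 3 → ℂ → ℂ) i (a i) := by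
    funext x i
    fin_cases i <;> rfl
  rw [h3]
  exact h2

theorem rot_cont (θ₁ θ₂ : ℝ) : Continuous (rot θ₁ θ₂) := by
  refine continuous_pi fun i => ?_
  fin_cases i
  · exact continuous_apply 0
  · exact continuous_const.mul (continuous_apply 1)
  · exact continuous_const.mul (continuous_apply 2)

theorem rot_inj (θ₁ θ₂ : ℝ) : Function.Injective (rot θ₁ θ₂) := by
  intro x y h
  have h0 := congrFun h 0
  have h1 := congrFun h 1
  have h2 := congrFun h 2
  change x 0 = y 0 at h0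
  change Complex.exp (θ₁ * I) * x 1 = Complex.exp (θ₁ * I) * y 1 at h1
  change Complex.exp (θ₂ * I) * x 2 = Complex.exp (θ₂ * I) * y 2 at h2
  have h1' := mul_left_cancel₀ (Complex.exp_ne_zero _) h1
  have h2' := mul_left_cancel₀ (Complex.exp_ne_zero _) h2
  funext i
  fin_cases i
  · exact h0
  · exact h1'
  · exact h2'

theorem rot_sub (θ₁ θ₂ : ℝ) (x y : E3) : rot θ₁ θ₂ (x - y) = rot θ₁ θ₂ x - rot θ₁ θ₂ y := by
  funext i
  fin_cases i
  · rfl
  · change Complex.exp (θ₁ * I) * (x 1 - y 1) = Complex.exp (θ₁ * I) * x 1 - Complex.exp (θ₁ * I) * y 1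
    ring
  · change Complex.exp (θ₂ * I) * (x 2 - y 2) = Complex.exp (θ₂ * I) * x 2 - Complex.exp (θ₂ * I) * y 2
    ring

theorem rot_smul (θ₁ θ₂ r : ℝ) (x : E3) : rot θ₁ θ₂ (r • x) = r • rot θ₁ θ₂ x := by
  funext i
  fin_cases i
  · rfl
  · change Complex.exp (θ₁ * I) * (r • x 1) = r • (Complex.exp (θ₁ * I) * x 1)
    rw [mul_smul_comm]
  · change Complex.exp (θ₂ * I) * (r • x 2) = r • (Complex.exp (θ₂ * I) * x 2)
    rw [mul_smul_comm]

theorem TT_rot (δ r θ₁ θ₂ : ℝ) (c : ℂ) (h : E3 → ℂ)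
    (hrot : ∀ᵐ x ∂(volume : Measure E3), h (rot θ₁ θ₂ x) = c * h x) (x : E3) :
    TT δ r h (rot θ₁ θ₂ x) = c * TT δ r h x := by
  unfold TT
  rw [cv_apply, cv_apply, ← integral_const_mul, ← (rot_mp θ₁ θ₂).integral_comp
    ((rot_cont θ₁ θ₂).measurableEmbedding (rot_inj θ₁ θ₂))]
  refine integral_congr_ae ?_
  filter_upwards [hrot] with t ht
  rw [ht, ← rot_smul, ← rot_sub]
  unfold kc
  rw [kk_rot]
  ring

theorem choose_delta (Ω : Set E3) (hΩ : IsOpen Ω) (hconv : Convex ℝ Ω)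
    (hb : Bornology.IsBounded Ω) (h0 : (0 : E3) ∈ Ω) (r ε : ℝ) (hr0 : 0 < r) (hr1 : r < 1)
    (hε : 0 < ε) : ∃ (δ : ℝ) (U : Set E3), 0 < δ ∧ δ ≤ ε ∧ IsOpen U ∧ closure Ω ⊆ U ∧
      ∀ x ∈ U, Metric.closedBall (r • x) δ ⊆ Ω := by
  have hK : IsCompact ((fun x : E3 => r • x) '' closure Ω) :=
    (hb.isCompact_closure).image (continuous_const_smul r)
  have hKΩ : (fun x : E3 => r • x) '' closure Ω ⊆ Ω := by
    rintro _ ⟨x, hx, rfl⟩
    have h1 := hconv.combo_interior_closure_mem_interior (x := 0) (y := x)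
      (by rw [hΩ.interior_eq]; exact h0) hx (a := 1 - r) (b := r) (by linarith) hr0.le (by ring)
    rw [smul_zero, zero_add, hΩ.interior_eq] at h1
    exact h1
  obtain ⟨δ₀, hδ₀, hsub⟩ := hK.exists_cthickening_subset_open hΩ hKΩ
  refine ⟨min (δ₀ / 2) ε, (fun x : E3 => r • x) ⁻¹'
    Metric.thickening (δ₀ / 2) ((fun x : E3 => r • x) '' closure Ω), lt_min (by linarith) hε,
    min_le_right _ _, ?_, ?_, ?_⟩
  · exact Metric.isOpen_thickening.preimage (continuous_const_smul r)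
  · intro x hx
    exact Metric.self_subset_thickening (by linarith) _ ⟨x, hx, rfl⟩
  · intro x hx y hy
    have hx' : r • x ∈ Metric.thickening (δ₀ / 2) ((fun x : E3 => r • x) '' closure Ω) := hx
    rw [Metric.mem_thickening_iff] at hx'
    obtain ⟨k, hk, hxk⟩ := hx'
    refine hsub (Metric.mem_cthickening_of_dist_le y k δ₀ _ hk ?_)
    have h1 : dist y (r • x) ≤ δ₀ / 2 := (Metric.mem_closedBall.1 hy).trans (min_le_left _ _)
    linarith [dist_triangle y (r • x) k]

end MO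

theorem moll : Moll_stmt := by
  intro Ω hΩ hconv hb h0
  have hm : MeasurableSet Ω := hΩ.measurableSet
  let r : ℕ → ℝ := fun n => 1 - 1 / ((n : ℝ) + 2)
  have hr0 : Tendsto r atTop (𝓝 1) := by
    have h1 : Tendsto (fun n : ℕ => 1 / (((n + 1 : ℕ) : ℝ) + 1)) atTop (𝓝 0) :=
      (tendsto_one_div_add_atTop_nhds_zero_nat (𝕜 := ℝ)).comp (tendsto_add_atTop_nat 1)
    have h2 := (tendsto_const_nhds (x := (1 : ℝ))).sub h1
    rw [sub_zero] at h2
    refine h2.congr fun n => ?_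
    simp only [r]
    push_cast
    ring
  have hrh : ∀ n, 1 / 2 ≤ r n := by
    intro n
    simp only [r]
    have : 1 / ((n : ℝ) + 2) ≤ 1 / 2 := by
      apply one_div_le_one_div_of_le (by norm_num)
      have := Nat.cast_nonneg (α := ℝ) n
      linarith
    linarith
  have hr1 : ∀ n, r n < 1 := by
    intro n
    simp only [r]
    have : 0 < 1 / ((n : ℝ) + 2) := by positivity
    linarith
  have hrpos : ∀ n, 0 < r n := fun n => lt_of_lt_of_le (by norm_num) (hrh n)
  have hch := fun n : ℕ => MO.choose_delta Ω hΩ hconv hb h0 (r n) (1 / ((n : ℝ) + 1)) (hrpos n)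
    (hr1 n) (by positivity)
  choose δ U hδ hδle hUo hUc hUb using hch
  have hδ0 : Tendsto δ atTop (𝓝 0) :=
    squeeze_zero (fun n => (hδ n).le) hδle (tendsto_one_div_add_atTop_nhds_zero_nat (𝕜 := ℝ))
  have hL2 : ∀ f : E3 → ℂ, MemLp f 2 (volume.restrict Ω) →
      MemLp (Ω.indicator f) 2 (volume : Measure E3) := fun f hf =>
    (memLp_indicator_iff_restrict hm).2 hf
  have hLI : ∀ f : E3 → ℂ, MemLp f 2 (volume.restrict Ω) →
      LocallyIntegrable (Ω.indicator f) (volume : Measure E3) := fun f hf =>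
    (hL2 f hf).locallyIntegrable (by norm_num)
  refine ⟨fun n f => MO.TT (δ n) (r n) (Ω.indicator f), r, hr0, fun n => ⟨hrpos n, hr1 n⟩,
    ?_, ?_, ?_⟩
  · intro f hf
    refine ⟨fun n => ?_, ?_, fun n => ?_⟩
    · refine MO.TT_test (hδ n) (hrpos n) (hLI f hf) ?_
      refine HasCompactSupport.of_support_subset_isCompact hb.isCompact_closure ?_
      exact (Set.support_indicator_subset).trans subset_closure
    · have h1 := MO.TT_tendsto Ω hb hm δ r hδ hδ0 hrh hr1 hr0 _ (hL2 f hf)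
      refine h1.congr fun n => ?_
      refine eLpNorm_congr_ae ?_
      rw [Filter.EventuallyEq, ae_restrict_iff' hm]
      refine Filter.Eventually.of_forall fun x hx => ?_
      simp [hx]
    · have h1 := MO.TT_contract (hδ n) (hrpos n) (hL2 f hf)
      rwa [eLpNorm_indicator_eq_eLpNorm_restrict hm] at h1
  · intro n
    refine ⟨U n, hUo n, hUc n, fun α u g hu hg hrel x hx => ?_⟩
    exact MO.TT_rel (hδ n) Ω hm x (hUb n x hx) α u g (fun i => hLI _ (hu i)) hrel
  · intro n θ₁ θ₂ c f hinv hf hrot x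
    refine MO.TT_rot (δ n) (r n) θ₁ θ₂ c _ ?_ x
    rw [ae_restrict_iff' hm] at hrot
    filter_upwards [hrot] with y hy
    by_cases hyΩ : y ∈ Ω
    · rw [Set.indicator_of_mem ((hinv y).2 hyΩ), Set.indicator_of_mem hyΩ]
      exact hy hyΩ
    · rw [Set.indicator_of_notMem (fun h => hyΩ ((hinv y).1 h)), Set.indicator_of_notMem hyΩ,
        mul_zero]

end DbarN.JMO
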