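import Pool.Agent.H314.DN.Stmts4
import Pool.Agent.H314.DN.CA1
import Pool.Agent.H314.DN.CA2

set_option autoImplicit false

open MeasureTheory Complex Filter Topology
open scoped ContDiff InnerProductSpace ENNReal ComplexConjugate

namespace DbarN.JPD

open DbarN.JCA1 DbarN.JCA2

/-- functions of two variables, separately continuous and locally bounded in the first variable -/
structure NB19164 (T : ℝ) (H : ℝ → ℝ → ℝ) : Prop where
  cs : ∀ t ∈ Set.Ioo (-1) T, ContinuousOn (H t) (Set.Ioo (0 : ℝ) 1)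
  ct : ∀ s ∈ Set.Ioo (0 : ℝ) 1, ContinuousOn (fun t => H t s) (Set.Ioo (-1) T)
  bd : ∀ t0 ∈ Set.Ioo (-1) T, ∃ C : ℝ, ∀ᶠ t in 𝓝 t0, ∀ s ∈ Set.Ioo (0 : ℝ) 1, |H t s| ≤ C

namespace NB19164

variable {T : ℝ} {H H' : ℝ → ℝ → ℝ}

theorem mul (h : NB19164 T H) (h' : NB19164 T H') : NB19164 T (fun t s => H t s * H' t s) where
  cs t ht := (h.cs t ht).mul (h'.cs t ht)
  ct s hs := (h.ct s hs).mul (h'.ct s hs)
  bd t0 ht0 := by
    obtain ⟨C, hC⟩ := h.bd t0 ht0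
    obtain ⟨C', hC'⟩ := h'.bd t0 ht0
    refine ⟨C * C', ?_⟩
    filter_upwards [hC, hC'] with t h1 h2 s hs
    rw [abs_mul]
    exact mul_le_mul (h1 s hs) (h2 s hs) (abs_nonneg _) ((abs_nonneg _).trans (h1 s hs))

theorem add (h : NB19164 T H) (h' : NB19164 T H') : NB19164 T (fun t s => H t s + H' t s) where
  cs t ht := (h.cs t ht).add (h'.cs t ht)
  ct s hs := (h.ct s hs).add (h'.ct s hs)
  bd t0 ht0 := by
    obtain ⟨C, hC⟩ := h.bd t0 ht0
    obtain ⟨C', hC'⟩ := h'.bd t0 ht0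
    refine ⟨C + C', ?_⟩
    filter_upwards [hC, hC'] with t h1 h2 s hs
    exact (abs_add_le _ _).trans (add_le_add (h1 s hs) (h2 s hs))

theorem of_t {f : ℝ → ℝ} (hf : ContinuousOn f (Set.Ioo (-1) T)) : NB19164 T (fun t _ => f t) where
  cs _ _ := continuousOn_const
  ct _ _ := hf
  bd t0 ht0 := by
    refine ⟨|f t0| + 1, ?_⟩
    have h1 : ContinuousAt (fun t => |f t|) t0 :=
      ((hf t0 ht0).continuousAt (isOpen_Ioo.mem_nhds ht0)).abs
    have h2 : ∀ᶠ t in 𝓝 t0, |f t| < |f t0| + 1 := h1.eventually_lt_const (by linarith)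
    filter_upwards [h2] with t ht _ _
    exact ht.le

theorem const (c : ℝ) : NB19164 T (fun _ _ => c) := of_t continuousOn_const

theorem of_s {g : ℝ → ℝ} (hg : ContinuousOn g (Set.Ioo (0 : ℝ) 1)) (C : ℝ)
    (hC : ∀ s ∈ Set.Ioo (0 : ℝ) 1, |g s| ≤ C) : NB19164 T (fun _ s => g s) where
  cs _ _ := hg
  ct _ _ := continuousOn_const
  bd _ _ := ⟨C, Filter.Eventually.of_forall (fun _ s hs => hC s hs)⟩

theorem pow (h : NB19164 T H) (n : ℕ) : NB19164 T (fun t s => H t s ^ n) := by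
  induction n with
  | zero =>
    have : (fun t s => H t s ^ 0) = fun _ _ => (1 : ℝ) := by funext t s; exact pow_zero _
    rw [this]
    exact const 1
  | succ n ih =>
    have : (fun t s => H t s ^ (n + 1)) = fun t s => H t s ^ n * H t s := by
      funext t s; exact pow_succ _ _
    rw [this]
    exact ih.mul h

theorem congr (h : NB19164 T H) (he : ∀ t s, H' t s = H t s) : NB19164 T H' := by
  have : H' = H := by funext t s; exact he t s
  rw [this]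
  exact h

theorem meas (h : NB19164 T H) {t : ℝ} (ht : t ∈ Set.Ioo (-1) T) :
    AEStronglyMeasurable (H t) (volume.restrict (Set.Ioo (0 : ℝ) 1)) :=
  (h.cs t ht).aestronglyMeasurable measurableSet_Ioo

theorem int (h : NB19164 T H) {t : ℝ} (ht : t ∈ Set.Ioo (-1) T) :
    IntegrableOn (H t) (Set.Ioo (0 : ℝ) 1) := by
  obtain ⟨C, hC⟩ := h.bd t ht
  have h1 := hC.self_of_nhds
  refine Integrable.mono' (integrable_const C) (h.meas ht) ?_
  rw [ae_restrict_iff' measurableSet_Ioo]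
  filter_upwards with s hs
  exact h1 s hs

theorem cont_int (h : NB19164 T H) :
    ContinuousOn (fun t => ∫ s in Set.Ioo (0 : ℝ) 1, H t s) (Set.Ioo (-1) T) := by
  intro t0 ht0
  apply ContinuousAt.continuousWithinAt
  obtain ⟨C, hC⟩ := h.bd t0 ht0
  have hm : ∀ᶠ t in 𝓝 t0, t ∈ Set.Ioo (-1) T := isOpen_Ioo.mem_nhds ht0
  refine continuousAt_of_dominated (bound := fun _ => C) ?_ ?_ (integrable_const C) ?_
  · filter_upwards [hm] with t ht
    exact h.meas ht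
  · filter_upwards [hC] with t ht
    rw [ae_restrict_iff' measurableSet_Ioo]
    filter_upwards with s hs
    exact ht s hs
  · rw [ae_restrict_iff' measurableSet_Ioo]
    filter_upwards with s hs
    exact (h.ct s hs).continuousAt (isOpen_Ioo.mem_nhds ht0)

theorem deriv_int (h : NB19164 T H) (h' : NB19164 T H')
    (hd : ∀ t ∈ Set.Ioo (-1) T, ∀ s ∈ Set.Ioo (0 : ℝ) 1, HasDerivAt (fun t => H t s) (H' t s) t)
    {t0 : ℝ} (ht0 : t0 ∈ Set.Ioo (-1) T) :
    HasDerivAt (fun t => ∫ s in Set.Ioo (0 : ℝ) 1, H t s) (∫ s in Set.Ioo (0 : ℝ) 1, H' t0 s) t0 := by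
  obtain ⟨C, hC⟩ := h'.bd t0 ht0
  have hm : ∀ᶠ t in 𝓝 t0, t ∈ Set.Ioo (-1) T := isOpen_Ioo.mem_nhds ht0
  refine (hasDerivAt_integral_of_dominated_loc_of_deriv_le (bound := fun _ => C)
    (s := {t | (∀ s ∈ Set.Ioo (0 : ℝ) 1, |H' t s| ≤ C) ∧ t ∈ Set.Ioo (-1) T}) (hC.and hm) ?_
    (h.int ht0) (h'.meas ht0) ?_ (integrable_const C) ?_).2
  · filter_upwards [hm] with t ht
    exact h.meas ht
  · rw [ae_restrict_iff' measurableSet_Ioo]
    filter_upwards with s hs t ht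
    exact ht.1 s hs
  · rw [ae_restrict_iff' measurableSet_Ioo]
    filter_upwards with s hs t ht
    exact hd t ht.2 s hs

end NB19164

section
variable {k1 l1 : ℝ}

theorem tB_lt_19164 (hk : 0 < k1) (hk1 : k1 ≤ 1 / 100) (hl : 100 ≤ l1) : tB k1 l1 < 2 := by
  unfold tB
  have : k1 / l1 < 1 := by
    rw [div_lt_one (by linarith)]
    linarith
  linarith

theorem nb_inv_el_19164 (hk : 0 < k1) (hk1 : k1 ≤ 1 / 100) (hl : 100 ≤ l1) :
    NB19164 (tB k1 l1) (fun t s => 1 / el k1 l1 t s) := by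
  have h2 := tB_lt_19164 hk hk1 hl
  have hl0 : 0 < l1 := by linarith
  have key : ∀ t ∈ Set.Ioo (-1) (tB k1 l1), ∀ s ∈ Set.Ioo (0 : ℝ) 1, 100 ≤ el k1 l1 t s ∧
      ContinuousAt (fun t => el k1 l1 t s) t ∧ ContinuousAt (fun s => el k1 l1 t s) s := by
    intro t ht s hs
    have := X_derivs (k1 := k1) (l1 := l1) t s hs.1.le hs.2 (Lm_hasDerivAt hk hl0 ht.2)
      (Lm1_hasDerivAt hk hl0 ht.2) (Lm_nonneg hk hl0 ht.2) (ht.2.trans h2)
    exact ⟨this.1, this.2.2.1.continuousAt, this.2.2.2.1.continuousAt⟩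
  refine ⟨?_, ?_, ?_⟩
  · intro t ht s hs
    obtain ⟨h3, _, h5⟩ := key t ht s hs
    exact (continuousAt_const.div h5 (by linarith)).continuousWithinAt
  · intro s hs t ht
    obtain ⟨h3, h4, _⟩ := key t ht s hs
    exact (continuousAt_const.div h4 (by linarith)).continuousWithinAt
  · intro t0 ht0
    refine ⟨1, ?_⟩
    have hm : ∀ᶠ t in 𝓝 t0, t ∈ Set.Ioo (-1) (tB k1 l1) := isOpen_Ioo.mem_nhds ht0
    filter_upwards [hm] with t ht s hs
    obtain ⟨h3, _, _⟩ := key t ht s hs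
    rw [abs_of_nonneg (by positivity), div_le_one (by linarith)]
    linarith

theorem nb_inv_1X_19164 (hk : 0 < k1) (hk1 : k1 ≤ 1 / 100) (hl : 100 ≤ l1) :
    NB19164 (tB k1 l1) (fun t s => 1 / (1 + XX k1 l1 t s)) := by
  have h2 := tB_lt_19164 hk hk1 hl
  have hl0 : 0 < l1 := by linarith
  have key : ∀ t ∈ Set.Ioo (-1) (tB k1 l1), ∀ s ∈ Set.Ioo (0 : ℝ) 1, 0 < XX k1 l1 t s ∧
      ContinuousAt (fun t => XX k1 l1 t s) t ∧ ContinuousAt (fun s => XX k1 l1 t s) s := by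
    intro t ht s hs
    have := X_derivs (k1 := k1) (l1 := l1) t s hs.1.le hs.2 (Lm_hasDerivAt hk hl0 ht.2)
      (Lm1_hasDerivAt hk hl0 ht.2) (Lm_nonneg hk hl0 ht.2) (ht.2.trans h2)
    exact ⟨this.2.1, this.2.2.2.2.1.continuousAt, this.2.2.2.2.2.2.1.continuousAt⟩
  refine ⟨?_, ?_, ?_⟩
  · intro t ht s hs
    obtain ⟨h3, _, h5⟩ := key t ht s hs
    have hne : (1 + XX k1 l1 t s) ≠ 0 := by positivity
    exact (continuousAt_const.div (continuousAt_const.add h5) hne).continuousWithinAt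
  · intro s hs t ht
    obtain ⟨h3, h4, _⟩ := key t ht s hs
    have hne : (1 + XX k1 l1 t s) ≠ 0 := by positivity
    exact (continuousAt_const.div (continuousAt_const.add h4) hne).continuousWithinAt
  · intro t0 ht0
    refine ⟨1, ?_⟩
    have hm : ∀ᶠ t in 𝓝 t0, t ∈ Set.Ioo (-1) (tB k1 l1) := isOpen_Ioo.mem_nhds ht0
    filter_upwards [hm] with t ht s hs
    obtain ⟨h3, _, _⟩ := key t ht s hs
    rw [abs_of_nonneg (by positivity), div_le_one (by linarith)]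
    linarith

theorem nb_all_19164 (hk : 0 < k1) (hk1 : k1 ≤ 1 / 100) (hl : 100 ≤ l1) (j k : ℕ) :
    NB19164 (tB k1 l1) (fun t s => Yt k1 l1 t s) ∧ NB19164 (tB k1 l1) (fun t s => Ytt k1 l1 t s) ∧
    NB19164 (tB k1 l1) (fun t s => 1 / el k1 l1 t s + t * Lm2 k1 l1 t / el k1 l1 t s ^ 2) ∧
    NB19164 (tB k1 l1) (fun t s => den k1 l1 j k t s) := by
  have hl0 : 0 < l1 := by linarith
  have ha := nb_inv_el_19164 hk hk1 hl
  have hb := nb_inv_1X_19164 hk hk1 hl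
  have hc2 : NB19164 (tB k1 l1) (fun t _ => Lm2 k1 l1 t) :=
    NB19164.of_t ((Lm2_continuousOn hk hl0).mono (fun t ht => ht.2))
  have hc1 : NB19164 (tB k1 l1) (fun t _ => Lm1 k1 l1 t) :=
    NB19164.of_t (fun t ht => (Lm1_hasDerivAt hk hl0 ht.2).continuousAt.continuousWithinAt)
  have hd : NB19164 (tB k1 l1) (fun t _ => 2 - t) := NB19164.of_t (by fun_prop)
  have hid : NB19164 (tB k1 l1) (fun t _ => t) := NB19164.of_t (by fun_prop)
  have hm1 : NB19164 (tB k1 l1) (fun _ _ => (-1 : ℝ)) := NB19164.const _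
  have h2c : NB19164 (tB k1 l1) (fun _ _ => (2 : ℝ)) := NB19164.const _
  have h1c : NB19164 (tB k1 l1) (fun _ _ => (1 : ℝ)) := NB19164.const _
  have hXt : NB19164 (tB k1 l1) (fun t s => Xt k1 l1 t s) := by
    refine ((hm1.mul ha).add (((hm1.mul hd).mul hc1).mul (ha.pow 2))).congr ?_
    intro t s
    unfold Xt
    ring
  have hXtt : NB19164 (tB k1 l1) (fun t s => Xtt k1 l1 t s) := by
    refine ((((h2c.mul hc1).mul (ha.pow 2)).add (((hm1.mul hd).mul hc2).mul (ha.pow 2))).add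
      (((h2c.mul hd).mul (hc1.pow 2)).mul (ha.pow 3))).congr ?_
    intro t s
    unfold Xtt
    ring
  refine ⟨?_, ?_, ?_, ?_⟩
  · refine (hXt.mul hb).congr ?_
    intro t s
    unfold Yt
    ring
  · refine ((hXtt.mul hb).add ((hm1.mul (hXt.pow 2)).mul (hb.pow 2))).congr ?_
    intro t s
    unfold Ytt
    generalize 1 + XX k1 l1 t s = u
    ring
  · refine (ha.add ((hid.mul hc2).mul (ha.pow 2))).congr ?_
    intro t s
    ring
  · have hs : NB19164 (tB k1 l1) (fun _ s => s ^ (2 * k + 1)) := by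
      refine NB19164.of_s (by fun_prop) 1 ?_
      intro s hs
      rw [abs_of_nonneg (pow_nonneg hs.1.le _)]
      exact pow_le_one₀ hs.1.le hs.2.le
    refine (hs.mul ((h1c.add (hd.mul ha)).pow (j + 1))).congr ?_
    intro t s
    unfold den XX
    ring

theorem den_ge_19164 (hk : 0 < k1) (hk1 : k1 ≤ 1 / 100) (hl : 100 ≤ l1) (j k : ℕ) {t s : ℝ}
    (ht : t ∈ Set.Ioo (-1) (tB k1 l1)) (hs : s ∈ Set.Ioo (0 : ℝ) 1) :
    0 < den k1 l1 j k t s ∧
      HasDerivAt (fun t => den k1 l1 j k t s) ((j + 1) * (Yt k1 l1 t s * den k1 l1 j k t s)) t ∧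
      HasDerivAt (fun t => Yt k1 l1 t s) (Ytt k1 l1 t s) t := by
  have h2 := tB_lt_19164 hk hk1 hl
  have hl0 : 0 < l1 := by linarith
  have hX := X_derivs (k1 := k1) (l1 := l1) t s hs.1.le hs.2 (Lm_hasDerivAt hk hl0 ht.2)
      (Lm1_hasDerivAt hk hl0 ht.2) (Lm_nonneg hk hl0 ht.2) (ht.2.trans h2)
  have hY := Y_derivs (k1 := k1) (l1 := l1) t s hs.1.le hs.2 (Lm_hasDerivAt hk hl0 ht.2)
      (Lm1_hasDerivAt hk hl0 ht.2) (Lm_nonneg hk hl0 ht.2) (ht.2.trans h2)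
  have hXp := hX.2.1
  have h1X : 0 < 1 + XX k1 l1 t s := by linarith
  refine ⟨?_, ?_, hY.2.1⟩
  · unfold den
    exact mul_pos (pow_pos hs.1 _) (pow_pos h1X _)
  · have h3 : HasDerivAt (fun t => 1 + XX k1 l1 t s) (Xt k1 l1 t s) t := hX.2.2.2.2.1.const_add 1
    have h4 := (h3.fun_pow (j + 1)).const_mul (s ^ (2 * k + 1))
    have e : ((j : ℝ) + 1) * (Yt k1 l1 t s * den k1 l1 j k t s) =
        s ^ (2 * k + 1) * (((j + 1 : ℕ) : ℝ) * (1 + XX k1 l1 t s) ^ (j + 1 - 1) * Xt k1 l1 t s) := by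
      unfold Yt den
      rw [Nat.add_sub_cancel, pow_succ (1 + XX k1 l1 t s) j]
      push_cast
      field_simp
    rw [e]
    exact h4

theorem Iw_pos_19164 (hk : 0 < k1) (hk1 : k1 ≤ 1 / 100) (hl : 100 ≤ l1) (j k : ℕ) {t : ℝ}
    (ht : t ∈ Set.Ioo (-1) (tB k1 l1)) : 0 < Iw k1 l1 j k t := by
  unfold Iw
  rw [setIntegral_pos_iff_support_of_nonneg_ae]
  · have hsub : Set.Ioo (0 : ℝ) 1 ⊆ (Function.support fun s => den k1 l1 j k t s) ∩ Set.Ioo (0 : ℝ) 1 := by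
      intro s hs
      exact ⟨(den_ge_19164 hk hk1 hl j k ht hs).1.ne', hs⟩
    refine lt_of_lt_of_le ?_ (measure_mono hsub)
    rw [Real.volume_Ioo]
    simp
  · rw [Filter.EventuallyLE, ae_restrict_iff' measurableSet_Ioo]
    filter_upwards with s hs
    exact (den_ge_19164 hk hk1 hl j k ht hs).1.le
  · exact (nb_all_19164 hk hk1 hl j k).2.2.2.int ht

end

theorem psiD : PsiD_stmt := by
  intro e k1 l1 hp j k
  obtain ⟨he, he1, hk, hk1, hl⟩ := hp
  have hl0 : 0 < l1 := by linarith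
  obtain ⟨nY, nYY, nM, nD⟩ := nb_all_19164 hk hk1 hl j k
  have hjc : NB19164 (tB k1 l1) (fun _ _ => ((j : ℝ) + 1)) := NB19164.const _
  -- derivatives of the integrals
  have dI : ∀ t ∈ Set.Ioo (-1) (tB k1 l1), HasDerivAt (Iw k1 l1 j k)
      ((j + 1) * ∫ s in Set.Ioo (0 : ℝ) 1, Yt k1 l1 t s * den k1 l1 j k t s) t := by
    intro t ht
    have h1 := nD.deriv_int (hjc.mul (nY.mul nD))
      (fun t ht s hs => (den_ge_19164 hk hk1 hl j k ht hs).2.1) ht
    rw [integral_const_mul] at h1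
    exact h1
  have dI1 : ∀ t ∈ Set.Ioo (-1) (tB k1 l1), HasDerivAt
      (fun t => ∫ s in Set.Ioo (0 : ℝ) 1, Yt k1 l1 t s * den k1 l1 j k t s)
      ((∫ s in Set.Ioo (0 : ℝ) 1, Ytt k1 l1 t s * den k1 l1 j k t s) +
        (j + 1) * ∫ s in Set.Ioo (0 : ℝ) 1, Yt k1 l1 t s ^ 2 * den k1 l1 j k t s) t := by
    intro t ht
    have h1 := (nY.mul nD).deriv_int ((nYY.mul nD).add (hjc.mul ((nY.pow 2).mul nD)))
      (fun t ht s hs => by
        obtain ⟨_, h3, h4⟩ := den_ge_19164 hk hk1 hl j k ht hs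
        have h5 := h4.mul h3
        have e5 : Ytt k1 l1 t s * den k1 l1 j k t s + ((j : ℝ) + 1) * (Yt k1 l1 t s ^ 2 * den k1 l1 j k t s) =
            Ytt k1 l1 t s * den k1 l1 j k t s + Yt k1 l1 t s *
              ((j + 1) * (Yt k1 l1 t s * den k1 l1 j k t s)) := by ring
        rw [e5]
        exact h5) ht
    rw [integral_add ((nYY.mul nD).int ht) ((hjc.mul ((nY.pow 2).mul nD)).int ht),
      integral_const_mul] at h1
    exact h1
  have hIp : ∀ t ∈ Set.Ioo (-1) (tB k1 l1), 0 < Iw k1 l1 j k t :=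
    fun t ht => Iw_pos_19164 hk hk1 hl j k ht
  have hww : ∀ t ∈ Set.Ioo (-1) (tB k1 l1), 0 < ww k1 l1 j k t := by
    intro t ht
    unfold ww
    exact mul_pos (pow_pos (dl_pos hk hl0 ht.2) _) (hIp t ht)
  have cI : ContinuousOn (Iw k1 l1 j k) (Set.Ioo (-1) (tB k1 l1)) :=
    fun t ht => (dI t ht).continuousAt.continuousWithinAt
  have cL1 : ContinuousOn (Lm1 k1 l1) (Set.Ioo (-1) (tB k1 l1)) :=
    fun t ht => (Lm1_hasDerivAt hk hl0 ht.2).continuousAt.continuousWithinAt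
  have cL2 : ContinuousOn (Lm2 k1 l1) (Set.Ioo (-1) (tB k1 l1)) :=
    (Lm2_continuousOn hk hl0).mono (fun t ht => ht.2)
  have hne : ∀ t ∈ Set.Ioo (-1) (tB k1 l1), Iw k1 l1 j k t ≠ 0 := fun t ht => (hIp t ht).ne'
  refine ⟨?_, ?_, ?_, ?_, fun t h1 h2 => hww t ⟨h1, h2⟩⟩
  · intro t ht1 ht2
    have ht : t ∈ Set.Ioo (-1) (tB k1 l1) := ⟨ht1, ht2⟩
    have h3 := ((dl_hasDerivAt (l1 := l1) hk t).fun_pow (k + 1)).mul (dI t ht)
    have h4 : HasDerivAt (psi k1 l1 j k) (-((((k + 1 : ℕ) : ℝ) * dl k1 l1 t ^ (k + 1 - 1) *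
        -om1 k1 l1 t * Iw k1 l1 j k t + dl k1 l1 t ^ (k + 1) *
        ((j + 1) * ∫ s in Set.Ioo (0 : ℝ) 1, Yt k1 l1 t s * den k1 l1 j k t s)) /
        (dl k1 l1 t ^ (k + 1) * Iw k1 l1 j k t))) t := (h3.log (hww t ht).ne').neg
    have h5 := dl_pos hk hl0 ht2
    have h6 := hIp t ht
    have e4 : (k + 1) * Lm1 k1 l1 t - (j + 1) * Es k1 l1 j k t (fun s => Yt k1 l1 t s) =
        -((((k + 1 : ℕ) : ℝ) * dl k1 l1 t ^ (k + 1 - 1) *
        -om1 k1 l1 t * Iw k1 l1 j k t + dl k1 l1 t ^ (k + 1) *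
        ((j + 1) * ∫ s in Set.Ioo (0 : ℝ) 1, Yt k1 l1 t s * den k1 l1 j k t s)) /
        (dl k1 l1 t ^ (k + 1) * Iw k1 l1 j k t)) := by
      unfold Lm1 Es
      rw [Nat.add_sub_cancel]
      generalize (∫ s in Set.Ioo (0 : ℝ) 1, Yt k1 l1 t s * den k1 l1 j k t s) = q
      push_cast
      rw [pow_succ]
      field_simp
      ring
    rw [e4]
    exact h4
  · intro t ht1 ht2
    have ht : t ∈ Set.Ioo (-1) (tB k1 l1) := ⟨ht1, ht2⟩
    have h6 := hIp t ht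
    have h3 := ((Lm1_hasDerivAt (l1 := l1) hk hl0 ht2).const_mul ((k : ℝ) + 1)).sub
      (((dI1 t ht).div (dI t ht) h6.ne').const_mul ((j : ℝ) + 1))
    have e4 : (k + 1) * Lm2 k1 l1 t - (j + 1) * Es k1 l1 j k t (fun s => Ytt k1 l1 t s) -
        (j + 1) ^ 2 * (Es k1 l1 j k t (fun s => Yt k1 l1 t s ^ 2) -
          Es k1 l1 j k t (fun s => Yt k1 l1 t s) ^ 2) =
        ((k : ℝ) + 1) * Lm2 k1 l1 t - ((j : ℝ) + 1) *
        ((((∫ s in Set.Ioo (0 : ℝ) 1, Ytt k1 l1 t s * den k1 l1 j k t s) +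
        (j + 1) * ∫ s in Set.Ioo (0 : ℝ) 1, Yt k1 l1 t s ^ 2 * den k1 l1 j k t s) * Iw k1 l1 j k t -
        (∫ s in Set.Ioo (0 : ℝ) 1, Yt k1 l1 t s * den k1 l1 j k t s) *
        ((j + 1) * ∫ s in Set.Ioo (0 : ℝ) 1, Yt k1 l1 t s * den k1 l1 j k t s)) /
        Iw k1 l1 j k t ^ 2) := by
      unfold Es
      generalize (∫ s in Set.Ioo (0 : ℝ) 1, Yt k1 l1 t s * den k1 l1 j k t s) = q
      generalize (∫ s in Set.Ioo (0 : ℝ) 1, Ytt k1 l1 t s * den k1 l1 j k t s) = q2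
      generalize (∫ s in Set.Ioo (0 : ℝ) 1, Yt k1 l1 t s ^ 2 * den k1 l1 j k t s) = q3
      field_simp
      ring
    rw [e4]
    exact h3
  · unfold Es
    have c1 := (nYY.mul nD).cont_int
    have c2 := ((nY.pow 2).mul nD).cont_int
    have c3 := (nY.mul nD).cont_int
    exact ((continuousOn_const.mul cL2).sub (continuousOn_const.mul (c1.div cI hne))).sub
      (continuousOn_const.mul ((c2.div cI hne).sub ((c3.div cI hne).pow 2)))
  · unfold mm Es
    have c1 := (nM.mul nD).cont_int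
    exact (continuousOn_const.mul (cL1.add (continuousOn_id.mul cL2))).add
      (continuousOn_const.mul (c1.div cI hne))

end DbarN.JPD
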