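import Pool.Agent.H314.DN.Stmts4
import Pool.Agent.H314.DN.CA1
import Pool.Agent.H314.DN.CA2

set_option autoImplicit false

open MeasureTheory Complex Filter Topology
open scoped ContDiff InnerProductSpace ENNReal ComplexConjugate

namespace DbarN.JPM

open DbarN.JCA1 DbarN.JCA2

theorem tB_gt_pm {e k1 l1 : ℝ} (hp : ParOK e k1 l1) : 1 < tB k1 l1 := by
  have h1 := hp.hk
  have h2 := hp.hl
  unfold tB
  have : 0 < k1 / l1 := by positivity
  linarith

theorem tB_lt_pm {e k1 l1 : ℝ} (hp : ParOK e k1 l1) : tB k1 l1 < 2 := by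
  have h1 := hp.hk
  have h2 := hp.hl
  have h3 := hp.hk1
  unfold tB
  have : k1 / l1 < 1 := by
    rw [div_lt_one (by linarith)]
    linarith
  linarith

theorem X_pos {e k1 l1 : ℝ} (hp : ParOK e k1 l1) {t s : ℝ} (ht : t < tB k1 l1) (h0 : 0 ≤ s)
    (h1 : s < 1) : 0 < XX k1 l1 t s := by
  have hl : (0:ℝ) < l1 := by have := hp.hl; linarith
  have a1 := Lm_nonneg hp.hk hl ht
  have a2 := tau_nonneg h0 h1
  have a3 := tB_lt_pm hp
  unfold XX
  apply div_pos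
  · linarith
  · unfold el
    linarith

theorem X_le {e k1 l1 : ℝ} (hp : ParOK e k1 l1) {t s : ℝ} (ht0 : 0 ≤ t) (ht : t < tB k1 l1)
    (h0 : 0 ≤ s) (h1 : s < 1) : XX k1 l1 t s ≤ 1 := by
  have hl : (0:ℝ) < l1 := by have := hp.hl; linarith
  have a1 := Lm_nonneg hp.hk hl ht
  have a2 := tau_nonneg h0 h1
  have a3 := tB_lt_pm hp
  have a4 : (100:ℝ) ≤ el k1 l1 t s := by
    unfold el
    linarith
  unfold XX
  rw [div_le_one (by linarith)]
  linarith

theorem dl_mem {e k1 l1 : ℝ} (hp : ParOK e k1 l1) {t : ℝ} (ht : t < tB k1 l1) :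
    0 < dl k1 l1 t ∧ dl k1 l1 t ≤ 1 := by
  have hl : (0:ℝ) < l1 := by have := hp.hl; linarith
  exact ⟨dl_pos hp.hk hl ht, dl_le_one t⟩

theorem lint_ff (h : ℝ → ℝ → ℝ) (hm : Measurable (Function.uncurry h)) (B : ℝ)
    (h0 : ∀ v ∈ Set.Ioo (0 : ℝ) 1, ∀ s ∈ Set.Ioo (0 : ℝ) 1, 0 ≤ h v s)
    (hB : ∀ v ∈ Set.Ioo (0 : ℝ) 1, ∀ s ∈ Set.Ioo (0 : ℝ) 1, h v s ≤ B) :
    ∫⁻ v in Set.Ioo (0 : ℝ) 1, ∫⁻ s in Set.Ioo (0 : ℝ) 1, ENNReal.ofReal (h v s) =
      ENNReal.ofReal (∫ v in Set.Ioo (0 : ℝ) 1, ∫ s in Set.Ioo (0 : ℝ) 1, h v s) := by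
  have hvol : volume (Set.Ioo (0 : ℝ) 1) ≠ ⊤ := measure_Ioo_lt_top.ne
  have hin : ∀ v ∈ Set.Ioo (0 : ℝ) 1, ∫⁻ s in Set.Ioo (0 : ℝ) 1, ENNReal.ofReal (h v s) =
      ENNReal.ofReal (∫ s in Set.Ioo (0 : ℝ) 1, h v s) := by
    intro v hv
    have hmv : Measurable (h v) := hm.comp (measurable_const.prodMk measurable_id)
    rw [ofReal_integral_eq_lintegral_ofReal]
    · refine Measure.integrableOn_of_bounded (M := B) hvol hmv.aestronglyMeasurable ?_
      refine (ae_restrict_iff' measurableSet_Ioo).2 (Eventually.of_forall fun s hs => ?_)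
      rw [Real.norm_of_nonneg (h0 v hv s hs)]
      exact hB v hv s hs
    · exact (ae_restrict_iff' measurableSet_Ioo).2 (Eventually.of_forall fun s hs => h0 v hv s hs)
  rw [setLIntegral_congr_fun measurableSet_Ioo hin, ofReal_integral_eq_lintegral_ofReal]
  · have hsm : StronglyMeasurable (fun v => ∫ s in Set.Ioo (0 : ℝ) 1, h v s) :=
      StronglyMeasurable.integral_prod_right hm.stronglyMeasurable
    refine Measure.integrableOn_of_bounded (M := B * volume.real (Set.Ioo (0 : ℝ) 1)) hvol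
      hsm.aestronglyMeasurable ?_
    refine (ae_restrict_iff' measurableSet_Ioo).2 (Eventually.of_forall fun v hv => ?_)
    refine norm_setIntegral_le_of_norm_le_const measure_Ioo_lt_top fun s hs => ?_
    rw [Real.norm_of_nonneg (h0 v hv s hs)]
    exact hB v hv s hs
  · refine (ae_restrict_iff' measurableSet_Ioo).2 (Eventually.of_forall fun v hv => ?_)
    exact setIntegral_nonneg measurableSet_Ioo fun s hs => h0 v hv s hs

theorem meas_XX_ff (k1 l1 t : ℝ) : Measurable (fun s : ℝ => XX k1 l1 t s) := by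
  have h1 : Measurable (fun s : ℝ => tau s) := by
    unfold tau
    exact (Real.measurable_log.comp (by fun_prop)).neg
  unfold XX el
  exact measurable_const.div (measurable_const.add h1)

theorem meas_Pt_ff (e k1 l1 : ℝ) (z : ℂ) :
    Measurable (fun p : ℝ × ℝ => Pt e k1 l1 z p.1 p.2) := by
  have hX : Measurable (fun p : ℝ × ℝ => XX k1 l1 (‖z‖ ^ 2) p.2) :=
    (meas_XX_ff k1 l1 (‖z‖ ^ 2)).comp measurable_snd
  refine measurable_pi_iff.2 fun i => ?_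
  fin_cases i
  · exact measurable_const
  · have h1 : Measurable (fun p : ℝ × ℝ => e * p.1 * Real.sqrt (1 + XX k1 l1 (‖z‖ ^ 2) p.2)) :=
      (measurable_fst.const_mul e).mul ((measurable_const.add hX).sqrt)
    exact Complex.measurable_ofReal.comp h1
  · have h1 : Measurable (fun p : ℝ × ℝ => e * Real.sqrt (dl k1 l1 (‖z‖ ^ 2)) * p.2) :=
      measurable_snd.const_mul _
    exact Complex.measurable_ofReal.comp h1

theorem alg_ff {e v s X δ g : ℝ} (he : 0 < e) (hv : 0 < v) (hs : 0 < s) (hX : 0 < X)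
    (hδ : 0 < δ) (j k : ℕ) :
    g * (4 * Real.pi ^ 2 * e ^ 4 * v * (1 + X) * δ * s) =
      (4 * Real.pi ^ 2 * e ^ (2 * j + 2 * k + 4) * δ ^ (k + 1)) *
        (g / ((e * v * Real.sqrt (1 + X)) ^ j * (e * Real.sqrt δ * s) ^ k) ^ 2 *
          (v ^ (2 * j + 1) * (s ^ (2 * k + 1) * (1 + X) ^ (j + 1)))) := by
  have h1 : ((e * v * Real.sqrt (1 + X)) ^ j * (e * Real.sqrt δ * s) ^ k) ^ 2 =
      e ^ (2 * j + 2 * k) * v ^ (2 * j) * (1 + X) ^ j * δ ^ k * s ^ (2 * k) := by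
    have e1 : ((e * v * Real.sqrt (1 + X)) ^ j) ^ 2 = e ^ (2 * j) * v ^ (2 * j) * (1 + X) ^ j := by
      rw [← pow_mul, mul_comm j 2, mul_pow, mul_pow, pow_mul (Real.sqrt (1 + X)),
        Real.sq_sqrt (by linarith)]
    have e2 : ((e * Real.sqrt δ * s) ^ k) ^ 2 = e ^ (2 * k) * δ ^ k * s ^ (2 * k) := by
      rw [← pow_mul, mul_comm k 2, mul_pow, mul_pow, pow_mul (Real.sqrt δ),
        Real.sq_sqrt hδ.le]
    rw [mul_pow, e1, e2, pow_add]
    ring
  rw [h1]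
  have hX1 : 0 < 1 + X := by linarith
  field_simp
  ring

theorem fibre_formula {e k1 l1 : ℝ} (hp : ParOK e k1 l1) (hPol : Pol_stmt) (hPsi : Psi_stmt)
    (j k : ℕ) (H : E3 → ℝ) (hm : Measurable H) (h0 : ∀ x, 0 ≤ H x)
    (hrot : ∀ θ₁ θ₂ x, H (rot θ₁ θ₂ x) = H x)
    (hb : ∀ z ∈ BB k1 l1, ∃ M : ℝ, ∀ v ∈ Set.Ioo (0 : ℝ) 1, ∀ s ∈ Set.Ioo (0 : ℝ) 1,
      H (Pt e k1 l1 z v s) ≤ M) :
    ∫⁻ x in Omega e k1 l1, ENNReal.ofReal (H x) =
      ENNReal.ofReal (4 * Real.pi ^ 2 * e ^ (2 * j + 2 * k + 4) / (2 * j + 2)) *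
        ∫⁻ z in BB k1 l1, ENNReal.ofReal (ww k1 l1 j k (‖z‖ ^ 2) *
          EE k1 l1 j k (‖z‖ ^ 2) (fun v s =>
            H (Pt e k1 l1 z v s) / mono e k1 l1 j k z v s ^ 2)) := by
  have h1 := hPol e k1 l1 hp (fun x => ENNReal.ofReal (H x)) hm.ennreal_ofReal
    (fun a b x => by rw [hrot])
  rw [h1, ← lintegral_const_mul' _ _ ENNReal.ofReal_ne_top]
  have hBB : MeasurableSet (BB k1 l1) := by
    have : IsOpen (BB k1 l1) := isOpen_lt (by fun_prop) continuous_const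
    exact this.measurableSet
  refine setLIntegral_congr_fun hBB fun z hz => ?_
  have he := hp.he
  have ht : ‖z‖ ^ 2 < tB k1 l1 := hz
  have ht0 : 0 ≤ ‖z‖ ^ 2 := by positivity
  obtain ⟨hd0, hd1⟩ := dl_mem hp ht
  obtain ⟨psi1, psi2, _, _, _, _, _, hw⟩ := hPsi e k1 l1 hp j k
  have hwp := hw (‖z‖ ^ 2) ⟨by linarith, ht⟩
  have hIw : Iw k1 l1 j k (‖z‖ ^ 2) ≠ 0 := by
    intro h
    rw [ww, h, mul_zero] at hwp
    exact lt_irrefl _ hwp
  obtain ⟨M, hM⟩ := hb z hz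
  -- the function on the fibre
  set h : ℝ → ℝ → ℝ := fun v s => H (Pt e k1 l1 z v s) *
    (4 * Real.pi ^ 2 * e ^ 4 * v * (1 + XX k1 l1 (‖z‖ ^ 2) s) * dl k1 l1 (‖z‖ ^ 2) * s) with hh
  have hmeas : Measurable (Function.uncurry h) := by
    have hX : Measurable (fun p : ℝ × ℝ => XX k1 l1 (‖z‖ ^ 2) p.2) :=
      (meas_XX_ff k1 l1 (‖z‖ ^ 2)).comp measurable_snd
    have hP : Measurable (fun p : ℝ × ℝ => H (Pt e k1 l1 z p.1 p.2)) :=
      hm.comp (meas_Pt_ff e k1 l1 z)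
    have hW : Measurable (fun p : ℝ × ℝ => 4 * Real.pi ^ 2 * e ^ 4 * p.1 *
        (1 + XX k1 l1 (‖z‖ ^ 2) p.2) * dl k1 l1 (‖z‖ ^ 2) * p.2) :=
      (((measurable_fst.const_mul _).mul (measurable_const.add hX)).mul_const _).mul
        measurable_snd
    exact hP.mul hW
  have hwt : ∀ v ∈ Set.Ioo (0 : ℝ) 1, ∀ s ∈ Set.Ioo (0 : ℝ) 1,
      0 ≤ 4 * Real.pi ^ 2 * e ^ 4 * v * (1 + XX k1 l1 (‖z‖ ^ 2) s) * dl k1 l1 (‖z‖ ^ 2) * s ∧
      4 * Real.pi ^ 2 * e ^ 4 * v * (1 + XX k1 l1 (‖z‖ ^ 2) s) * dl k1 l1 (‖z‖ ^ 2) * s ≤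
        4 * Real.pi ^ 2 * e ^ 4 * 1 * 2 * 1 * 1 := by
    intro v hv s hs
    have hX0 := X_pos hp ht hs.1.le hs.2
    have hX1 := X_le hp ht0 ht hs.1.le hs.2
    have hv0 := hv.1
    have hs0 := hs.1
    constructor
    · positivity
    · have a1 : v ≤ 1 := hv.2.le
      have a2 : 1 + XX k1 l1 (‖z‖ ^ 2) s ≤ 2 := by linarith
      have a3 : s ≤ 1 := hs.2.le
      have a4 : 0 ≤ 1 + XX k1 l1 (‖z‖ ^ 2) s := by linarith
      gcongr
  have hnn : ∀ v ∈ Set.Ioo (0 : ℝ) 1, ∀ s ∈ Set.Ioo (0 : ℝ) 1, 0 ≤ h v s := fun v hv s hs =>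
    mul_nonneg (h0 _) (hwt v hv s hs).1
  have hbd : ∀ v ∈ Set.Ioo (0 : ℝ) 1, ∀ s ∈ Set.Ioo (0 : ℝ) 1,
      h v s ≤ M * (4 * Real.pi ^ 2 * e ^ 4 * 1 * 2 * 1 * 1) := fun v hv s hs =>
    mul_le_mul (hM v hv s hs) (hwt v hv s hs).2 (hwt v hv s hs).1
      ((h0 _).trans (hM v hv s hs))
  have hL := lint_ff h hmeas _ hnn hbd
  have hL2 : ∫⁻ v in Set.Ioo (0 : ℝ) 1, ∫⁻ s in Set.Ioo (0 : ℝ) 1,
      ENNReal.ofReal (H (Pt e k1 l1 z v s)) * ENNReal.ofReal (4 * Real.pi ^ 2 * e ^ 4 * v *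
        (1 + XX k1 l1 (‖z‖ ^ 2) s) * dl k1 l1 (‖z‖ ^ 2) * s) =
      ∫⁻ v in Set.Ioo (0 : ℝ) 1, ∫⁻ s in Set.Ioo (0 : ℝ) 1, ENNReal.ofReal (h v s) := by
    refine lintegral_congr fun v => lintegral_congr fun s => ?_
    rw [hh]
    simp only
    rw [ENNReal.ofReal_mul (h0 _)]
  rw [hL2, hL]
  -- the algebra
  have hint : ∫ v in Set.Ioo (0 : ℝ) 1, ∫ s in Set.Ioo (0 : ℝ) 1, h v s =
      (4 * Real.pi ^ 2 * e ^ (2 * j + 2 * k + 4) * dl k1 l1 (‖z‖ ^ 2) ^ (k + 1)) *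
        ∫ v in Set.Ioo (0 : ℝ) 1, ∫ s in Set.Ioo (0 : ℝ) 1,
          H (Pt e k1 l1 z v s) / mono e k1 l1 j k z v s ^ 2 *
            (v ^ (2 * j + 1) * den k1 l1 j k (‖z‖ ^ 2) s) := by
    rw [← integral_const_mul]
    refine setIntegral_congr_fun measurableSet_Ioo fun v hv => ?_
    rw [← integral_const_mul]
    refine setIntegral_congr_fun measurableSet_Ioo fun s hs => ?_
    exact alg_ff he hv.1 hs.1 (X_pos hp ht hs.1.le hs.2) hd0 j k
  rw [hint]
  set I0 := ∫ v in Set.Ioo (0 : ℝ) 1, ∫ s in Set.Ioo (0 : ℝ) 1,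
          H (Pt e k1 l1 z v s) / mono e k1 l1 j k z v s ^ 2 *
            (v ^ (2 * j + 1) * den k1 l1 j k (‖z‖ ^ 2) s) with hI0
  have hEE : EE k1 l1 j k (‖z‖ ^ 2) (fun v s =>
      H (Pt e k1 l1 z v s) / mono e k1 l1 j k z v s ^ 2) =
      I0 * ((2 * j + 2) / Iw k1 l1 j k (‖z‖ ^ 2)) := rfl
  have hc : 0 ≤ 4 * Real.pi ^ 2 * e ^ (2 * j + 2 * k + 4) / (2 * (j : ℝ) + 2) := by positivity
  rw [hEE, ← ENNReal.ofReal_mul hc]
  congr 1
  rw [ww]
  have hj : (2 * (j : ℝ) + 2) ≠ 0 := by positivity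
  field_simp


/-- the measure on the square -/
noncomputable abbrev mu_fv : Measure (ℝ × ℝ) :=
  (volume.restrict (Set.Ioo (0 : ℝ) 1)).prod (volume.restrict (Set.Ioo (0 : ℝ) 1))

theorem int_fv {E : Type} [NormedAddCommGroup E] (f : ℝ × ℝ → E)
    (hf : AEStronglyMeasurable f mu_fv) (C : ℝ)
    (hC : ∀ v ∈ Set.Ioo (0 : ℝ) 1, ∀ s ∈ Set.Ioo (0 : ℝ) 1, ‖f (v, s)‖ ≤ C) :
    Integrable f mu_fv := by
  refine Integrable.of_bound hf C ?_
  have h1 : mu_fv = (volume : Measure (ℝ × ℝ)).restrict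
      (Set.Ioo (0 : ℝ) 1 ×ˢ Set.Ioo (0 : ℝ) 1) := Measure.prod_restrict _ _
  rw [h1]
  filter_upwards [ae_restrict_mem (measurableSet_Ioo.prod measurableSet_Ioo)] with p hp
  exact hC _ hp.1 _ hp.2

theorem EE_fv (k1 l1 : ℝ) (j k : ℕ) (t : ℝ) (H : ℝ → ℝ → ℝ)
    (hint : Integrable (fun p : ℝ × ℝ =>
      H p.1 p.2 * (p.1 ^ (2 * j + 1) * den k1 l1 j k t p.2)) mu_fv) :
    EE k1 l1 j k t H = (∫ p : ℝ × ℝ, H p.1 p.2 * (p.1 ^ (2 * j + 1) * den k1 l1 j k t p.2) ∂mu_fv) *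
      ((2 * j + 2) / Iw k1 l1 j k t) := by
  unfold EE
  rw [integral_prod _ hint]

theorem EC_fv (k1 l1 : ℝ) (j k : ℕ) (t : ℝ) (H : ℝ → ℝ → ℂ)
    (hint : Integrable (fun p : ℝ × ℝ =>
      H p.1 p.2 * ((p.1 ^ (2 * j + 1) * den k1 l1 j k t p.2 : ℝ) : ℂ)) mu_fv) :
    EC k1 l1 j k t H =
      (∫ p : ℝ × ℝ, H p.1 p.2 * ((p.1 ^ (2 * j + 1) * den k1 l1 j k t p.2 : ℝ) : ℂ) ∂mu_fv) *
      (((2 * j + 2) / Iw k1 l1 j k t : ℝ) : ℂ) := by
  unfold EC
  rw [integral_prod _ hint]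

theorem XX_meas_fv (k1 l1 t : ℝ) : Measurable (fun p : ℝ × ℝ => XX k1 l1 t p.2) := by
  unfold XX el tau
  fun_prop

theorem den_meas_fv (k1 l1 : ℝ) (j k : ℕ) (t : ℝ) :
    Measurable (fun p : ℝ × ℝ => p.1 ^ (2 * j + 1) * den k1 l1 j k t p.2) := by
  have h := XX_meas_fv k1 l1 t
  unfold den
  fun_prop

theorem mono_meas_fv (e k1 l1 : ℝ) (j k : ℕ) (z : ℂ) :
    Measurable (fun p : ℝ × ℝ => mono e k1 l1 j k z p.1 p.2) := by
  have h := XX_meas_fv k1 l1 (‖z‖ ^ 2)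
  unfold mono
  fun_prop

theorem Pt_meas_fv (e k1 l1 : ℝ) (z : ℂ) :
    Measurable (fun p : ℝ × ℝ => Pt e k1 l1 z p.1 p.2) := by
  have h := XX_meas_fv k1 l1 (‖z‖ ^ 2)
  rw [measurable_pi_iff]
  intro i
  fin_cases i
  · show Measurable (fun p : ℝ × ℝ => z)
    exact measurable_const
  · show Measurable (fun p : ℝ × ℝ => ((e * p.1 * Real.sqrt (1 + XX k1 l1 (‖z‖ ^ 2) p.2) : ℝ) : ℂ))
    apply Complex.measurable_ofReal.comp
    fun_prop
  · show Measurable (fun p : ℝ × ℝ => ((e * Real.sqrt (dl k1 l1 (‖z‖ ^ 2)) * p.2 : ℝ) : ℂ))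
    apply Complex.measurable_ofReal.comp
    fun_prop

theorem bd_fv {e k1 l1 : ℝ} (hp : ParOK e k1 l1) (j k : ℕ) (z : ℂ) (hz : z ∈ BB k1 l1) :
    ∃ C0 M0 : ℝ, 0 ≤ C0 ∧ 0 ≤ M0 ∧ ∀ v ∈ Set.Ioo (0 : ℝ) 1, ∀ s ∈ Set.Ioo (0 : ℝ) 1,
      0 < mono e k1 l1 j k z v s ∧ mono e k1 l1 j k z v s ≤ M0 ∧
      0 ≤ v ^ (2 * j + 1) * den k1 l1 j k (‖z‖ ^ 2) s ∧
      v ^ (2 * j + 1) * den k1 l1 j k (‖z‖ ^ 2) s ≤ C0 * mono e k1 l1 j k z v s ^ 2 := by
  have he := hp.he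
  have he1 := hp.he1
  obtain ⟨hd0, hd1⟩ := dl_mem hp (show ‖z‖ ^ 2 < tB k1 l1 from hz)
  refine ⟨2 / (e ^ (2 * j + 2 * k) * dl k1 l1 (‖z‖ ^ 2) ^ k), 2 ^ j * 1 ^ k, by positivity,
    by positivity, ?_⟩
  rintro v ⟨hv0, hv1⟩ s ⟨hs0, hs1⟩
  have hX0 := X_pos hp (show ‖z‖ ^ 2 < tB k1 l1 from hz) hs0.le hs1
  have hX1 := X_le hp (sq_nonneg ‖z‖) (show ‖z‖ ^ 2 < tB k1 l1 from hz) hs0.le hs1
  obtain ⟨a, ha⟩ : ∃ a, a = Real.sqrt (1 + XX k1 l1 (‖z‖ ^ 2) s) := ⟨_, rfl⟩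
  obtain ⟨b, hb⟩ : ∃ b, b = Real.sqrt (dl k1 l1 (‖z‖ ^ 2)) := ⟨_, rfl⟩
  have ha0 : 0 < a := by rw [ha]; exact Real.sqrt_pos.2 (by linarith)
  have hb0 : 0 < b := by rw [hb]; exact Real.sqrt_pos.2 hd0
  have ha2 : 1 + XX k1 l1 (‖z‖ ^ 2) s = a ^ 2 := by rw [ha, Real.sq_sqrt (by linarith)]
  have hb2 : dl k1 l1 (‖z‖ ^ 2) = b ^ 2 := by rw [hb, Real.sq_sqrt hd0.le]
  have ha22 : a ^ 2 ≤ 2 := by rw [← ha2]; linarith
  have ha12 : a ≤ 2 := by nlinarith
  have hb1 : b ≤ 1 := by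
    have : b ^ 2 ≤ 1 := by rw [← hb2]; exact hd1
    nlinarith
  have hmono : mono e k1 l1 j k z v s = (e * v * a) ^ j * (e * b * s) ^ k := by
    unfold mono
    rw [← ha, ← hb]
  have hden : v ^ (2 * j + 1) * den k1 l1 j k (‖z‖ ^ 2) s =
      (v ^ (2 * j) * s ^ (2 * k) * a ^ (2 * j)) * (v * s * a ^ 2) := by
    unfold den
    rw [ha2]
    ring
  have hmono2 : mono e k1 l1 j k z v s ^ 2 =
      (e ^ (2 * j + 2 * k) * dl k1 l1 (‖z‖ ^ 2) ^ k) * (v ^ (2 * j) * s ^ (2 * k) * a ^ (2 * j)) := by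
    rw [hmono, hb2]
    ring
  refine ⟨?_, ?_, ?_, ?_⟩
  · rw [hmono]
    positivity
  · rw [hmono]
    refine mul_le_mul ?_ ?_ (by positivity) (by positivity)
    · refine pow_le_pow_left₀ (by positivity) ?_ j
      have h1 : e * v ≤ 1 := mul_le_one₀ he1 hv0.le hv1.le
      calc e * v * a ≤ 1 * a := mul_le_mul_of_nonneg_right h1 ha0.le
        _ ≤ 2 := by linarith
    · refine pow_le_pow_left₀ (by positivity) ?_ k
      have h1 : e * b ≤ 1 := mul_le_one₀ he1 hb0.le hb1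
      exact mul_le_one₀ h1 hs0.le hs1.le
  · rw [hden]
    positivity
  · rw [hden, hmono2]
    have hZ : 0 < e ^ (2 * j + 2 * k) * dl k1 l1 (‖z‖ ^ 2) ^ k := by positivity
    have h1 : 2 / (e ^ (2 * j + 2 * k) * dl k1 l1 (‖z‖ ^ 2) ^ k) *
        ((e ^ (2 * j + 2 * k) * dl k1 l1 (‖z‖ ^ 2) ^ k) *
          (v ^ (2 * j) * s ^ (2 * k) * a ^ (2 * j))) =
        (v ^ (2 * j) * s ^ (2 * k) * a ^ (2 * j)) * 2 := by
      field_simp
    rw [h1]
    refine mul_le_mul_of_nonneg_left ?_ (by positivity)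
    have h2 : v * s ≤ 1 := mul_le_one₀ hv1.le hs0.le hs1.le
    calc v * s * a ^ 2 ≤ 1 * a ^ 2 := mul_le_mul_of_nonneg_right h2 (by positivity)
      _ ≤ 2 := by linarith

theorem pt_fv {e k1 l1 : ℝ} (hp : ParOK e k1 l1) (z : ℂ) (hz : z ∈ BB k1 l1) {G : Type}
    [NormedAddCommGroup G] (K : E3 → G) (hK : Continuous K) :
    ∃ C : ℝ, 0 ≤ C ∧ ∀ v ∈ Set.Ioo (0 : ℝ) 1, ∀ s ∈ Set.Ioo (0 : ℝ) 1,
      ‖K (Pt e k1 l1 z v s)‖ ≤ C := by
  obtain ⟨C, hC⟩ := (isCompact_closedBall (0 : E3) (max ‖z‖ 2)).exists_bound_of_continuousOn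
    hK.continuousOn
  refine ⟨max C 0, le_max_right _ _, ?_⟩
  rintro v ⟨hv0, hv1⟩ s ⟨hs0, hs1⟩
  refine (hC _ ?_).trans (le_max_left _ _)
  have he := hp.he
  have he1 := hp.he1
  obtain ⟨hd0, hd1⟩ := dl_mem hp (show ‖z‖ ^ 2 < tB k1 l1 from hz)
  have hX0 := X_pos hp (show ‖z‖ ^ 2 < tB k1 l1 from hz) hs0.le hs1
  have hX1 := X_le hp (sq_nonneg ‖z‖) (show ‖z‖ ^ 2 < tB k1 l1 from hz) hs0.le hs1
  obtain ⟨a, ha⟩ : ∃ a, a = Real.sqrt (1 + XX k1 l1 (‖z‖ ^ 2) s) := ⟨_, rfl⟩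
  obtain ⟨b, hb⟩ : ∃ b, b = Real.sqrt (dl k1 l1 (‖z‖ ^ 2)) := ⟨_, rfl⟩
  have ha0 : 0 < a := by rw [ha]; exact Real.sqrt_pos.2 (by linarith)
  have hb0 : 0 < b := by rw [hb]; exact Real.sqrt_pos.2 hd0
  have ha2 : 1 + XX k1 l1 (‖z‖ ^ 2) s = a ^ 2 := by rw [ha, Real.sq_sqrt (by linarith)]
  have hb2 : dl k1 l1 (‖z‖ ^ 2) = b ^ 2 := by rw [hb, Real.sq_sqrt hd0.le]
  have ha12 : a ≤ 2 := by
    have : a ^ 2 ≤ 2 := by rw [← ha2]; linarith
    nlinarith
  have hb1 : b ≤ 1 := by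
    have : b ^ 2 ≤ 1 := by rw [← hb2]; exact hd1
    nlinarith
  rw [mem_closedBall_zero_iff, pi_norm_le_iff_of_nonneg (by positivity)]
  intro i
  fin_cases i
  · exact le_max_left _ _
  · refine le_trans ?_ (le_max_right _ _)
    show ‖((e * v * Real.sqrt (1 + XX k1 l1 (‖z‖ ^ 2) s) : ℝ) : ℂ)‖ ≤ 2
    rw [Complex.norm_real, ← ha, Real.norm_of_nonneg (by positivity)]
    have h1 : e * v ≤ 1 := mul_le_one₀ he1 hv0.le hv1.le
    calc e * v * a ≤ 1 * a := mul_le_mul_of_nonneg_right h1 ha0.le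
      _ ≤ 2 := by linarith
  · refine le_trans ?_ (le_max_right _ _)
    show ‖((e * Real.sqrt (dl k1 l1 (‖z‖ ^ 2)) * s : ℝ) : ℂ)‖ ≤ 2
    rw [Complex.norm_real, ← hb, Real.norm_of_nonneg (by positivity)]
    have h1 : e * b ≤ 1 := mul_le_one₀ he1 hb0.le hb1
    have h2 : e * b * s ≤ 1 := mul_le_one₀ h1 hs0.le hs1.le
    linarith

theorem intA_fv {e k1 l1 : ℝ} (hp : ParOK e k1 l1) (j k : ℕ) (z : ℂ) (hz : z ∈ BB k1 l1)
    (K : E3 → ℝ) (hK : Continuous K) :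
    Integrable (fun p : ℝ × ℝ => K (Pt e k1 l1 z p.1 p.2) / mono e k1 l1 j k z p.1 p.2 ^ 2 *
      (p.1 ^ (2 * j + 1) * den k1 l1 j k (‖z‖ ^ 2) p.2)) mu_fv := by
  obtain ⟨C0, M0, hC0, hM0, hbd⟩ := bd_fv hp j k z hz
  obtain ⟨CK, hCK0, hCK⟩ := pt_fv hp z hz K hK
  refine int_fv _ ?_ (CK * C0) ?_
  · apply Measurable.aestronglyMeasurable
    have h1 := Pt_meas_fv e k1 l1 z
    have h2 := mono_meas_fv e k1 l1 j k z
    have h3 := den_meas_fv k1 l1 j k (‖z‖ ^ 2)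
    exact ((hK.measurable.comp h1).div (h2.pow_const 2)).mul h3
  · intro v hv s hs
    obtain ⟨h1, h2, h3, h4⟩ := hbd v hv s hs
    have h5 := hCK v hv s hs
    have hm2 : 0 < mono e k1 l1 j k z v s ^ 2 := by positivity
    show ‖K (Pt e k1 l1 z v s) / mono e k1 l1 j k z v s ^ 2 *
      (v ^ (2 * j + 1) * den k1 l1 j k (‖z‖ ^ 2) s)‖ ≤ CK * C0
    rw [norm_mul, norm_div, Real.norm_of_nonneg h3, Real.norm_of_nonneg hm2.le]
    calc ‖K (Pt e k1 l1 z v s)‖ / mono e k1 l1 j k z v s ^ 2 *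
        (v ^ (2 * j + 1) * den k1 l1 j k (‖z‖ ^ 2) s) ≤
        CK / mono e k1 l1 j k z v s ^ 2 * (C0 * mono e k1 l1 j k z v s ^ 2) := by
          refine mul_le_mul ?_ h4 h3 (by positivity)
          exact div_le_div_of_nonneg_right h5 hm2.le
      _ = CK * C0 := by field_simp

theorem intB_fv {e k1 l1 : ℝ} (hp : ParOK e k1 l1) (j k : ℕ) (z : ℂ) (hz : z ∈ BB k1 l1)
    (K : E3 → ℂ) (hK : Continuous K) :
    Integrable (fun p : ℝ × ℝ => cc e k1 l1 j k K z p.1 p.2 *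
      ((p.1 ^ (2 * j + 1) * den k1 l1 j k (‖z‖ ^ 2) p.2 : ℝ) : ℂ)) mu_fv := by
  obtain ⟨C0, M0, hC0, hM0, hbd⟩ := bd_fv hp j k z hz
  obtain ⟨CK, hCK0, hCK⟩ := pt_fv hp z hz K hK
  refine int_fv _ ?_ (CK * C0 * M0) ?_
  · apply Measurable.aestronglyMeasurable
    have h1 := Pt_meas_fv e k1 l1 z
    have h2 := mono_meas_fv e k1 l1 j k z
    have h3 := den_meas_fv k1 l1 j k (‖z‖ ^ 2)
    exact ((hK.measurable.comp h1).div (Complex.measurable_ofReal.comp h2)).mul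
      (Complex.measurable_ofReal.comp h3)
  · intro v hv s hs
    obtain ⟨h1, h2, h3, h4⟩ := hbd v hv s hs
    have h5 := hCK v hv s hs
    show ‖K (Pt e k1 l1 z v s) / (mono e k1 l1 j k z v s : ℂ) *
      ((v ^ (2 * j + 1) * den k1 l1 j k (‖z‖ ^ 2) s : ℝ) : ℂ)‖ ≤ CK * C0 * M0
    rw [norm_mul, norm_div, Complex.norm_real, Complex.norm_real, Real.norm_of_nonneg h3,
      Real.norm_of_nonneg h1.le]
    calc ‖K (Pt e k1 l1 z v s)‖ / mono e k1 l1 j k z v s *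
        (v ^ (2 * j + 1) * den k1 l1 j k (‖z‖ ^ 2) s) ≤
        CK / mono e k1 l1 j k z v s * (C0 * mono e k1 l1 j k z v s ^ 2) := by
          refine mul_le_mul ?_ h4 h3 (by positivity)
          exact div_le_div_of_nonneg_right h5 h1.le
      _ = CK * C0 * mono e k1 l1 j k z v s := by field_simp
      _ ≤ CK * C0 * M0 := mul_le_mul_of_nonneg_left h2 (by positivity)

theorem intC_fv {e k1 l1 : ℝ} (hp : ParOK e k1 l1) (j k : ℕ) (z : ℂ) (hz : z ∈ BB k1 l1) :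
    Integrable (fun p : ℝ × ℝ => p.1 ^ (2 * j + 1) * den k1 l1 j k (‖z‖ ^ 2) p.2) mu_fv := by
  obtain ⟨C0, M0, hC0, hM0, hbd⟩ := bd_fv hp j k z hz
  refine int_fv _ (den_meas_fv k1 l1 j k (‖z‖ ^ 2)).aestronglyMeasurable (C0 * M0 ^ 2) ?_
  intro v hv s hs
  obtain ⟨h1, h2, h3, h4⟩ := hbd v hv s hs
  show ‖v ^ (2 * j + 1) * den k1 l1 j k (‖z‖ ^ 2) s‖ ≤ C0 * M0 ^ 2
  rw [Real.norm_of_nonneg h3]
  exact h4.trans (mul_le_mul_of_nonneg_left (pow_le_pow_left₀ h1.le h2 2) hC0)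

theorem one_fv {e k1 l1 : ℝ} (hp : ParOK e k1 l1) (hPsi : Psi_stmt) (j k : ℕ) (z : ℂ)
    (hz : z ∈ BB k1 l1) :
    (∫ p : ℝ × ℝ, p.1 ^ (2 * j + 1) * den k1 l1 j k (‖z‖ ^ 2) p.2 ∂mu_fv) *
      ((2 * j + 2) / Iw k1 l1 j k (‖z‖ ^ 2)) = 1 := by
  obtain ⟨psi1, psi2, -, -, -, -, -, hww⟩ := hPsi e k1 l1 hp j k
  have hI : Iw k1 l1 j k (‖z‖ ^ 2) ≠ 0 := by
    intro h0
    have h1 := hww (‖z‖ ^ 2) ⟨by have := sq_nonneg ‖z‖; linarith, hz⟩
    unfold ww at h1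
    rw [h0, mul_zero] at h1
    exact lt_irrefl _ h1
  rw [integral_prod _ (intC_fv hp j k z hz)]
  have h1 : ∀ v : ℝ, ∫ s in Set.Ioo (0 : ℝ) 1, v ^ (2 * j + 1) * den k1 l1 j k (‖z‖ ^ 2) s =
      v ^ (2 * j + 1) * Iw k1 l1 j k (‖z‖ ^ 2) := by
    intro v
    rw [integral_const_mul]
    rfl
  simp only [h1]
  rw [integral_mul_const]
  have h2 : ∫ v in Set.Ioo (0 : ℝ) 1, v ^ (2 * j + 1) = 1 / (2 * j + 2) := by
    rw [← integral_Ioc_eq_integral_Ioo, ← intervalIntegral.integral_of_le zero_le_one,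
      integral_pow]
    push_cast
    rw [one_pow, zero_pow (by omega)]
    ring
  rw [h2]
  have h3 : (2 * (j : ℝ) + 2) ≠ 0 := by positivity
  field_simp

theorem split_fv {μ : Measure (ℝ × ℝ)} (f g h : ℝ × ℝ → ℝ) (hf : Integrable f μ)
    (hg : Integrable g μ) (hh : Integrable h μ) (c d : ℝ) :
    ∫ p, (f p - c * g p) + d * h p ∂μ = (∫ p, f p ∂μ) - c * (∫ p, g p ∂μ) + d * ∫ p, h p ∂μ := by
  have h1 : Integrable (fun p => f p - c * g p) μ := hf.sub (hg.const_mul c)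
  rw [integral_add h1 (hh.const_mul d), integral_sub hf (hg.const_mul c), integral_const_mul,
    integral_const_mul]

theorem alg_fv (Q : ℝ) (a A : ℂ) : Q - 2 * (conj A * a).re + ‖A‖ ^ 2 =
    (Q - 2 * (conj a * a).re + ‖a‖ ^ 2) + ‖a - A‖ ^ 2 := by
  rw [Complex.sq_norm, Complex.sq_norm, Complex.sq_norm, Complex.normSq_apply,
    Complex.normSq_apply, Complex.normSq_apply]
  simp only [Complex.sub_re, Complex.sub_im, Complex.mul_re, Complex.conj_re,
    Complex.conj_im]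
  ring

theorem expand_fv {e k1 l1 : ℝ} (hp : ParOK e k1 l1) (hPsi : Psi_stmt) (j k : ℕ) (z : ℂ)
    (hz : z ∈ BB k1 l1) (F : E3 → ℂ) (hF : Continuous F) (A : ℂ) :
    EE k1 l1 j k (‖z‖ ^ 2) (fun v s => ‖cc e k1 l1 j k F z v s - A‖ ^ 2) =
      (∫ p : ℝ × ℝ, ‖F (Pt e k1 l1 z p.1 p.2)‖ ^ 2 / mono e k1 l1 j k z p.1 p.2 ^ 2 *
        (p.1 ^ (2 * j + 1) * den k1 l1 j k (‖z‖ ^ 2) p.2) ∂mu_fv) *
        ((2 * j + 2) / Iw k1 l1 j k (‖z‖ ^ 2)) -
      2 * (conj A * aa e k1 l1 j k F z).re + ‖A‖ ^ 2 := by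
  have hA := intA_fv hp j k z hz (fun x => ‖F x‖ ^ 2) (hF.norm.pow 2)
  have hB := intB_fv hp j k z hz F hF
  have hC := intC_fv hp j k z hz
  have hB2 := hB.const_mul (conj A)
  have hB3 := hB2.re
  have hfun : (fun p : ℝ × ℝ => ‖cc e k1 l1 j k F z p.1 p.2 - A‖ ^ 2 *
      (p.1 ^ (2 * j + 1) * den k1 l1 j k (‖z‖ ^ 2) p.2)) =
      fun p : ℝ × ℝ => (‖F (Pt e k1 l1 z p.1 p.2)‖ ^ 2 / mono e k1 l1 j k z p.1 p.2 ^ 2 *
        (p.1 ^ (2 * j + 1) * den k1 l1 j k (‖z‖ ^ 2) p.2) -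
        2 * RCLike.re (conj A * (cc e k1 l1 j k F z p.1 p.2 *
          ((p.1 ^ (2 * j + 1) * den k1 l1 j k (‖z‖ ^ 2) p.2 : ℝ) : ℂ)))) +
        ‖A‖ ^ 2 * (p.1 ^ (2 * j + 1) * den k1 l1 j k (‖z‖ ^ 2) p.2) := by
    funext p
    have h1 : ‖F (Pt e k1 l1 z p.1 p.2)‖ ^ 2 / mono e k1 l1 j k z p.1 p.2 ^ 2 =
        ‖cc e k1 l1 j k F z p.1 p.2‖ ^ 2 := by
      unfold cc
      rw [norm_div, div_pow, Complex.norm_real, Real.norm_eq_abs, sq_abs]
    rw [h1]
    generalize cc e k1 l1 j k F z p.1 p.2 = c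
    generalize p.1 ^ (2 * j + 1) * den k1 l1 j k (‖z‖ ^ 2) p.2 = W
    have h2 : ‖c - A‖ ^ 2 = ‖c‖ ^ 2 - 2 * (conj A * c).re + ‖A‖ ^ 2 := by
      rw [Complex.sq_norm, Complex.sq_norm, Complex.sq_norm, Complex.normSq_apply,
        Complex.normSq_apply, Complex.normSq_apply]
      simp only [Complex.sub_re, Complex.sub_im, Complex.mul_re, Complex.conj_re,
        Complex.conj_im]
      ring
    have h3 : RCLike.re (conj A * (c * (W : ℂ))) = (conj A * c).re * W := by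
      show (conj A * (c * (W : ℂ))).re = _
      rw [← mul_assoc, Complex.re_mul_ofReal]
    rw [h2, h3]
    ring
  have hint : Integrable (fun p : ℝ × ℝ => ‖cc e k1 l1 j k F z p.1 p.2 - A‖ ^ 2 *
      (p.1 ^ (2 * j + 1) * den k1 l1 j k (‖z‖ ^ 2) p.2)) mu_fv := by
    rw [hfun]
    exact (hA.sub (hB3.const_mul 2)).add (hC.const_mul (‖A‖ ^ 2))
  rw [EE_fv _ _ _ _ _ _ hint, hfun]
  have hs := split_fv _ _ _ hA hB3 hC 2 (‖A‖ ^ 2)
  beta_reduce at hs
  rw [hs, integral_re hB2, integral_const_mul]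
  have haa : aa e k1 l1 j k F z = _ := EC_fv k1 l1 j k (‖z‖ ^ 2) (cc e k1 l1 j k F z) hB
  rw [haa]
  have h1 := one_fv hp hPsi j k z hz
  generalize (∫ p : ℝ × ℝ, cc e k1 l1 j k F z p.1 p.2 *
    ((p.1 ^ (2 * j + 1) * den k1 l1 j k (‖z‖ ^ 2) p.2 : ℝ) : ℂ) ∂mu_fv) = Q
  generalize ((2 * (j : ℝ) + 2) / Iw k1 l1 j k (‖z‖ ^ 2)) = c0 at h1 ⊢
  have h2 : (conj A * (Q * (c0 : ℂ))).re = RCLike.re (conj A * Q) * c0 := by
    show _ = (conj A * Q).re * c0
    rw [← mul_assoc, Complex.re_mul_ofReal]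
  rw [h2, add_mul, sub_mul, mul_assoc (‖A‖ ^ 2), h1]
  ring

theorem fibre_add {e k1 l1 : ℝ} (hp : ParOK e k1 l1) (hPsi : Psi_stmt) (j k : ℕ) (z : ℂ)
    (hz : z ∈ BB k1 l1) (H1 H2 : E3 → ℝ) (h1 : Continuous H1) (h2 : Continuous H2) :
    EE k1 l1 j k (‖z‖ ^ 2) (fun v s => H1 (Pt e k1 l1 z v s) / mono e k1 l1 j k z v s ^ 2 +
        H2 (Pt e k1 l1 z v s) / mono e k1 l1 j k z v s ^ 2) =
      EE k1 l1 j k (‖z‖ ^ 2) (fun v s => H1 (Pt e k1 l1 z v s) / mono e k1 l1 j k z v s ^ 2) +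
      EE k1 l1 j k (‖z‖ ^ 2) (fun v s => H2 (Pt e k1 l1 z v s) / mono e k1 l1 j k z v s ^ 2) := by
  have hi1 := intA_fv hp j k z hz H1 h1
  have hi2 := intA_fv hp j k z hz H2 h2
  have hfun : (fun p : ℝ × ℝ => (H1 (Pt e k1 l1 z p.1 p.2) / mono e k1 l1 j k z p.1 p.2 ^ 2 +
      H2 (Pt e k1 l1 z p.1 p.2) / mono e k1 l1 j k z p.1 p.2 ^ 2) *
      (p.1 ^ (2 * j + 1) * den k1 l1 j k (‖z‖ ^ 2) p.2)) =
      fun p : ℝ × ℝ => H1 (Pt e k1 l1 z p.1 p.2) / mono e k1 l1 j k z p.1 p.2 ^ 2 *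
        (p.1 ^ (2 * j + 1) * den k1 l1 j k (‖z‖ ^ 2) p.2) +
        H2 (Pt e k1 l1 z p.1 p.2) / mono e k1 l1 j k z p.1 p.2 ^ 2 *
        (p.1 ^ (2 * j + 1) * den k1 l1 j k (‖z‖ ^ 2) p.2) := by
    funext p
    ring
  have e1 := EE_fv k1 l1 j k (‖z‖ ^ 2)
    (fun v s => H1 (Pt e k1 l1 z v s) / mono e k1 l1 j k z v s ^ 2) hi1
  have e2 := EE_fv k1 l1 j k (‖z‖ ^ 2)
    (fun v s => H2 (Pt e k1 l1 z v s) / mono e k1 l1 j k z v s ^ 2) hi2
  have e3 := EE_fv k1 l1 j k (‖z‖ ^ 2)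
    (fun v s => H1 (Pt e k1 l1 z v s) / mono e k1 l1 j k z v s ^ 2 +
      H2 (Pt e k1 l1 z v s) / mono e k1 l1 j k z v s ^ 2) (by rw [hfun]; exact hi1.add hi2)
  rw [e1, e2, e3, hfun, integral_add hi1 hi2, add_mul]

theorem fibre_var {e k1 l1 : ℝ} (hp : ParOK e k1 l1) (hPsi : Psi_stmt) (j k : ℕ) (z : ℂ)
    (hz : z ∈ BB k1 l1) (F : E3 → ℂ) (hF : Continuous F) (A : ℂ) :
    EE k1 l1 j k (‖z‖ ^ 2) (fun v s => ‖cc e k1 l1 j k F z v s - A‖ ^ 2) =
      EE k1 l1 j k (‖z‖ ^ 2) (fun v s =>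
        ‖cc e k1 l1 j k F z v s - aa e k1 l1 j k F z‖ ^ 2) +
      ‖aa e k1 l1 j k F z - A‖ ^ 2 := by
  rw [expand_fv hp hPsi j k z hz F hF A, expand_fv hp hPsi j k z hz F hF (aa e k1 l1 j k F z)]
  exact alg_fv _ _ _


theorem db1_pow_wh (ψ : ℂ → ℂ) (h : ContDiff ℝ ∞ ψ) (hc : HasCompactSupport ψ) (j : ℕ) :
    ∫ w, w ^ j * db1 ψ w = 0 := by
  have hfd : ∀ w v : ℂ, fderiv ℝ (fun w : ℂ => w ^ j) w v = (j * w ^ (j - 1)) * v := by
    intro w v
    have h1 : HasFDerivAt (fun w : ℂ => w ^ j) _ w :=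
      ((hasDerivAt_pow j w).hasFDerivAt).restrictScalars ℝ
    rw [h1.fderiv]
    simp [mul_comm]
  have hF : Continuous (fderiv ℝ ψ) := h.continuous_fderiv (by simp)
  have hFc : HasCompactSupport (fderiv ℝ ψ) := hc.fderiv ℝ
  have hFv : ∀ v : ℂ, Continuous fun w => fderiv ℝ ψ w v := fun v => hF.clm_apply continuous_const
  have hFvc : ∀ v : ℂ, HasCompactSupport fun w => fderiv ℝ ψ w v := fun v => by
    refine hFc.mono' ?_
    refine Set.Subset.trans ?_ subset_closure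
    intro w hw hw0
    apply hw
    simp [hw0]
  have hint : ∀ v : ℂ, Integrable fun w => w ^ j * fderiv ℝ ψ w v := fun v =>
    ((continuous_pow j).mul (hFv v)).integrable_of_hasCompactSupport ((hFvc v).mul_left)
  have hint2 : ∀ v : ℂ, Integrable fun w => fderiv ℝ (fun w : ℂ => w ^ j) w v * ψ w := fun v => by
    simp only [hfd]
    exact (((continuous_const.mul (continuous_pow (j - 1))).mul continuous_const).mul
      h.continuous).integrable_of_hasCompactSupport (hc.mul_left)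
  have hint3 : Integrable fun w => w ^ j * ψ w :=
    ((continuous_pow j).mul h.continuous).integrable_of_hasCompactSupport (hc.mul_left)
  have hI : ∀ v : ℂ, ∫ w, w ^ j * fderiv ℝ ψ w v =
      - ∫ w, fderiv ℝ (fun w : ℂ => w ^ j) w v * ψ w := fun v =>
    integral_mul_fderiv_eq_neg_fderiv_mul_of_integrable (hint2 v) (hint v) hint3
      (fun w _ => (differentiableAt_pow (𝕜 := ℂ) j).restrictScalars ℝ)
      (fun w _ => (h.differentiable (by simp)) w)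
  have e1 : ∫ w, w ^ j * db1 ψ w = (1 / 2) * (∫ w, w ^ j * fderiv ℝ ψ w 1) +
      (1 / 2) * I * ∫ w, w ^ j * fderiv ℝ ψ w I := by
    rw [← integral_const_mul, ← integral_const_mul, ← integral_add
      ((hint 1).const_mul _) ((hint I).const_mul _)]
    refine integral_congr_ae (Filter.Eventually.of_forall fun w => ?_)
    simp only [db1]
    ring
  have e2 : ∫ w, fderiv ℝ (fun w : ℂ => w ^ j) w I * ψ w =
      I * ∫ w, fderiv ℝ (fun w : ℂ => w ^ j) w 1 * ψ w := by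
    rw [← integral_const_mul]
    refine integral_congr_ae (Filter.Eventually.of_forall fun w => ?_)
    simp only [hfd]
    ring
  rw [e1, hI, hI, e2]
  have hII : I * I = -1 := I_mul_I
  linear_combination (-(1 / 2) * ∫ w, fderiv ℝ (fun w : ℂ => w ^ j) w 1 * ψ w) * hII

theorem insertNth_wh (i : Fin 3) (w : ℂ) (y : Fin 2 → ℂ) :
    (i.insertNth w y : E3) = ContinuousLinearMap.single ℝ (fun _ : Fin 3 => ℂ) i w +
      (i.insertNth 0 y : E3) := by
  funext k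
  refine Fin.succAboveCases i ?_ (fun m => ?_) k
  · simp
  · simp

theorem weak_hol (Ω : Set E3) (hΩ : IsOpen Ω) (B : Set ℂ) (hB : IsOpen B)
    (hΩB : ∀ x ∈ Ω, x 0 ∈ B) (A : ℂ → ℂ) (hA : Measurable A)
    (hw : ∀ φ : ℂ → ℂ, ContDiff ℝ ∞ φ → HasCompactSupport φ → tsupport φ ⊆ B →
      ∫ z in B, A z * db1 φ z = 0) (j k : ℕ) (i : Fin 3) (φ : E3 → ℂ) (hφ : IsTest Ω φ) :
    ∫ x in Ω, (A (x 0) * x 1 ^ j * x 2 ^ k) * dbar i φ x = 0 := by
  have hfd0 : ∀ x, x ∉ tsupport φ → fderiv ℝ φ x = 0 := by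
    intro x hx
    by_contra hne
    exact hx (support_fderiv_subset ℝ hne)
  rw [setIntegral_eq_integral_of_forall_compl_eq_zero (fun x hx => by
    have h1 : fderiv ℝ φ x = 0 := hfd0 x fun h => hx (hφ.supp h)
    simp [dbar, h1])]
  have hmp := (volume_preserving_piFinSuccAbove (fun _ : Fin 3 => ℂ) i).symm
  rw [← hmp.integral_comp']
  set F : ℂ × (Fin 2 → ℂ) → ℂ := fun p =>
    (A ((i.insertNth p.1 p.2 : E3) 0) * (i.insertNth p.1 p.2 : E3) 1 ^ j *
      (i.insertNth p.1 p.2 : E3) 2 ^ k) * dbar i φ (i.insertNth p.1 p.2 : E3) with hF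
  change ∫ p, F p ∂((volume : Measure ℂ).prod (volume : Measure (Fin 2 → ℂ))) = 0
  by_cases hint : Integrable F ((volume : Measure ℂ).prod (volume : Measure (Fin 2 → ℂ)))
  swap
  · exact integral_undef hint
  rw [integral_prod_symm _ hint]
  suffices hz : ∀ y : Fin 2 → ℂ, ∫ w, F (w, y) = 0 by
    simp only [hz, integral_zero]
  intro y
  -- the slice
  obtain ⟨g, hg⟩ : ∃ g : ℂ → E3, g = fun w => (i.insertNth w y : E3) := ⟨_, rfl⟩
  have hgd : ∀ w, HasFDerivAt g (ContinuousLinearMap.single ℝ (fun _ : Fin 3 => ℂ) i) w := by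
    intro w
    have h1 : g = fun w => ContinuousLinearMap.single ℝ (fun _ : Fin 3 => ℂ) i w +
        (i.insertNth 0 y : E3) := by
      rw [hg]
      funext w
      exact insertNth_wh i w y
    rw [h1]
    exact (ContinuousLinearMap.hasFDerivAt _).add_const _
  have hgc : ContDiff ℝ ∞ g := by
    have h1 : g = fun w => ContinuousLinearMap.single ℝ (fun _ : Fin 3 => ℂ) i w +
        (i.insertNth 0 y : E3) := by
      rw [hg]
      funext w
      exact insertNth_wh i w y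
    rw [h1]
    exact (ContinuousLinearMap.contDiff _).add contDiff_const
  have hgi : ∀ w, g w i = w := by
    intro w
    rw [hg]
    simp
  obtain ⟨ψ, hψ⟩ : ∃ ψ : ℂ → ℂ, ψ = fun w => φ (g w) := ⟨_, rfl⟩
  have hψs : ContDiff ℝ ∞ ψ := by
    rw [hψ]
    exact hφ.smooth.comp hgc
  have hψc : HasCompactSupport ψ := by
    refine HasCompactSupport.of_support_subset_isCompact
      (hφ.compact.image (continuous_apply i)) ?_
    intro w hw
    refine ⟨g w, subset_closure ?_, hgi w⟩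
    intro h0
    apply hw
    rw [hψ]
    exact h0
  have hψt : ∀ w ∈ tsupport ψ, g w ∈ tsupport φ := by
    intro w hw
    have h1 : tsupport ψ ⊆ g ⁻¹' (tsupport φ) := by
      refine closure_minimal ?_ ((isClosed_tsupport φ).preimage hgc.continuous)
      intro w' hw'
      apply subset_closure
      intro h0
      apply hw'
      rw [hψ]
      exact h0
    exact h1 hw
  have hdb : ∀ w, dbar i φ (g w) = db1 ψ w := by
    intro w
    have h1 : HasFDerivAt ψ ((fderiv ℝ φ (g w)).comp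
        (ContinuousLinearMap.single ℝ (fun _ : Fin 3 => ℂ) i)) w := by
      rw [hψ]
      exact ((hφ.smooth.differentiable (by simp)) (g w)).hasFDerivAt.comp w (hgd w)
    rw [dbar, db1, h1.fderiv]
    rfl
  have hFw : ∀ w, F (w, y) = (A (g w 0) * g w 1 ^ j * g w 2 ^ k) * db1 ψ w := by
    intro w
    rw [← hdb w, hg]
  simp only [hFw]
  fin_cases i
  · -- i = 0
    have g0 : ∀ w, g w 0 = w := hgi
    have g1 : ∀ w, g w 1 = y 0 := by intro w; rw [hg]; rfl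
    have g2 : ∀ w, g w 2 = y 1 := by intro w; rw [hg]; rfl
    have e1 : (∫ w, (A (g w 0) * g w 1 ^ j * g w 2 ^ k) * db1 ψ w) =
        (y 0 ^ j * y 1 ^ k) * ∫ w, A w * db1 ψ w := by
      rw [← integral_const_mul]
      refine integral_congr_ae (Filter.Eventually.of_forall fun w => ?_)
      simp only [g0, g1, g2]
      ring
    rw [e1]
    have htB : tsupport ψ ⊆ B := by
      intro w hw
      have h1 := hΩB _ (hφ.supp (hψt w hw))
      rwa [g0] at h1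
    have e2 := hw ψ hψs hψc htB
    rw [setIntegral_eq_integral_of_forall_compl_eq_zero (fun w hw => by
      have h1 : fderiv ℝ ψ w = 0 := by
        by_contra hne
        exact hw (htB (support_fderiv_subset ℝ hne))
      simp [db1, h1])] at e2
    rw [e2, mul_zero]
  · -- i = 1
    have g1 : ∀ w, g w 1 = w := hgi
    have g0 : ∀ w, g w 0 = y 0 := by intro w; rw [hg]; rfl
    have g2 : ∀ w, g w 2 = y 1 := by intro w; rw [hg]; rfl
    have e1 : (∫ w, (A (g w 0) * g w 1 ^ j * g w 2 ^ k) * db1 ψ w) =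
        (A (y 0) * y 1 ^ k) * ∫ w, w ^ j * db1 ψ w := by
      rw [← integral_const_mul]
      refine integral_congr_ae (Filter.Eventually.of_forall fun w => ?_)
      simp only [g0, g1, g2]
      ring
    rw [e1, db1_pow_wh ψ hψs hψc, mul_zero]
  · -- i = 2
    have g2 : ∀ w, g w 2 = w := hgi
    have g0 : ∀ w, g w 0 = y 0 := by intro w; rw [hg]; rfl
    have g1 : ∀ w, g w 1 = y 1 := by intro w; rw [hg]; rfl
    have e1 : (∫ w, (A (g w 0) * g w 1 ^ j * g w 2 ^ k) * db1 ψ w) =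
        (A (y 0) * y 1 ^ j) * ∫ w, w ^ k * db1 ψ w := by
      rw [← integral_const_mul]
      refine integral_congr_ae (Filter.Eventually.of_forall fun w => ?_)
      simp only [g0, g1, g2]
      ring
    rw [e1, db1_pow_wh ψ hψs hψc, mul_zero]


/-! elementary arithmetic -/

theorem arith_pm {lam L m m0 e lam' E0 E' V : ℝ} {p q : ℂ} (hlam : 0 < lam) (hL : L = lam + 1)
    (hm0 : 0 < m0) (hm : m0 ≤ m) (he : e ^ 2 * (10 ^ 6 * L ^ 2) ≤ lam)
    (hl' : lam' = lam + min (1 / 2) (m0 / 64)) (hE : 0 ≤ E')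
    (hp : ‖p‖ ^ 2 ≤ E0) (hq : ‖q‖ ^ 2 ≤ 100 * e ^ 2 * m * E') (hV : V ≤ 100 * e ^ 2 * E') :
    lam' * (V + ‖p + q‖ ^ 2 / (lam + m / 16)) ≤ E0 + E' := by
  have hmp : 0 < m := by linarith
  have hLp : 1 < L := by linarith
  have hL0 : 0 < L := by linarith
  have h1 : lam' ≤ lam + 1 / 2 := by rw [hl']; gcongr; exact min_le_left _ _
  have h2 : lam' ≤ lam + m0 / 64 := by rw [hl']; gcongr; exact min_le_right _ _
  have h3 : 0 < lam' := by
    rw [hl']
    have : 0 < min (1 / 2 : ℝ) (m0 / 64) := by positivity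
    linarith
  have h4 : lam' ≤ L := by linarith
  set τ : ℝ := m / (32 * L) with hτ
  have hτp : 0 < τ := by positivity
  have hDp : 0 < lam + m / 16 := by positivity
  -- first coefficient
  have c1 : lam' * (1 + τ) ≤ lam + m / 16 := by
    have : lam' * τ ≤ m / 32 := by
      rw [hτ]
      calc lam' * (m / (32 * L)) ≤ L * (m / (32 * L)) := by gcongr
        _ = m / 32 := by field_simp
    nlinarith
  -- second coefficient
  have c2 : lam' * (100 * e ^ 2) * (1 + (1 + 1 / τ) * m / (lam + m / 16)) ≤ 1 := by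
    have a1 : (1 + 1 / τ) * m = m + 32 * L := by
      rw [hτ]; field_simp
    rw [a1]
    have a2 : (m + 32 * L) / (lam + m / 16) ≤ 16 + 32 * L / lam := by
      rw [div_le_iff₀ hDp]
      have : 32 * L / lam * lam = 32 * L := by field_simp
      have h5 : 0 ≤ 32 * L / lam * (m / 16) := by positivity
      nlinarith
    have a3 : lam' * (100 * e ^ 2) * (1 + (m + 32 * L) / (lam + m / 16)) ≤
        L * (100 * e ^ 2) * (17 + 32 * L / lam) := by
      have : 1 + (m + 32 * L) / (lam + m / 16) ≤ 17 + 32 * L / lam := by linarith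
      gcongr
    refine a3.trans ?_
    have a4 : L * (100 * e ^ 2) * (17 + 32 * L / lam) =
        (e ^ 2 * (10 ^ 6 * L ^ 2)) * (17 * lam + 32 * L) / (10 ^ 4 * L * lam) := by
      field_simp
      try ring
    rw [a4, div_le_one (by positivity)]
    have a5 : (e ^ 2 * (10 ^ 6 * L ^ 2)) * (17 * lam + 32 * L) ≤ lam * (17 * lam + 32 * L) := by
      gcongr
    refine a5.trans ?_
    have : 17 * lam + 32 * L ≤ 10 ^ 4 * L := by linarith
    calc lam * (17 * lam + 32 * L) ≤ lam * (10 ^ 4 * L) := by gcongr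
      _ = 10 ^ 4 * L * lam := by ring
  -- Young
  have hY : ‖p + q‖ ^ 2 ≤ (1 + τ) * ‖p‖ ^ 2 + (1 + 1 / τ) * ‖q‖ ^ 2 := by
    have n1 : ‖p + q‖ ≤ ‖p‖ + ‖q‖ := norm_add_le _ _
    have n2 : ‖p + q‖ ^ 2 ≤ (‖p‖ + ‖q‖) ^ 2 := by gcongr
    have n3 : 2 * ‖p‖ * ‖q‖ ≤ τ * ‖p‖ ^ 2 + 1 / τ * ‖q‖ ^ 2 := by
      have h6 : 0 ≤ (τ * ‖p‖ - ‖q‖) ^ 2 := sq_nonneg _
      have : τ * ‖p‖ ^ 2 + 1 / τ * ‖q‖ ^ 2 - 2 * ‖p‖ * ‖q‖ = (τ * ‖p‖ - ‖q‖) ^ 2 / τ := by
        field_simp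
        ring
      have h7 : 0 ≤ (τ * ‖p‖ - ‖q‖) ^ 2 / τ := by positivity
      linarith
    nlinarith
  have hfin : lam' * (V + ‖p + q‖ ^ 2 / (lam + m / 16)) ≤
      lam' * (100 * e ^ 2 * E' + ((1 + τ) * E0 + (1 + 1 / τ) * (100 * e ^ 2 * m * E')) /
        (lam + m / 16)) := by
    have : ‖p + q‖ ^ 2 ≤ (1 + τ) * E0 + (1 + 1 / τ) * (100 * e ^ 2 * m * E') := by
      refine hY.trans ?_
      gcongr
    gcongr
  refine hfin.trans ?_
  have hE0 : 0 ≤ E0 := le_trans (by positivity) hp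
  have e1 : lam' * (100 * e ^ 2 * E' + ((1 + τ) * E0 + (1 + 1 / τ) * (100 * e ^ 2 * m * E')) /
        (lam + m / 16)) =
      (lam' * (1 + τ)) / (lam + m / 16) * E0 +
      lam' * (100 * e ^ 2) * (1 + (1 + 1 / τ) * m / (lam + m / 16)) * E' := by
    field_simp
    try ring
  rw [e1]
  have e2 : (lam' * (1 + τ)) / (lam + m / 16) ≤ 1 := by
    rw [div_le_one hDp]; exact c1
  calc _ ≤ 1 * E0 + 1 * E' := by gcongr
    _ = E0 + E' := by ring

/-! fibre facts -/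

theorem isOpen_BB_pm (k1 l1 : ℝ) : IsOpen (BB k1 l1) := by
  unfold BB
  exact isOpen_lt (by fun_prop) continuous_const

theorem den_nonneg_pm {e k1 l1 : ℝ} (hp : ParOK e k1 l1) (j k : ℕ) {t s : ℝ} (ht : t < tB k1 l1)
    (h0 : 0 ≤ s) (h1 : s < 1) : 0 ≤ den k1 l1 j k t s := by
  have := X_pos hp ht h0 h1
  unfold den
  positivity

theorem Iw_nonneg_pm {e k1 l1 : ℝ} (hp : ParOK e k1 l1) (j k : ℕ) {t : ℝ} (ht : t < tB k1 l1) :
    0 ≤ Iw k1 l1 j k t := by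
  unfold Iw
  apply setIntegral_nonneg measurableSet_Ioo
  intro s hs
  exact den_nonneg_pm hp j k ht hs.1.le hs.2

theorem EE_nonneg_pm {e k1 l1 : ℝ} (hp : ParOK e k1 l1) (j k : ℕ) {t : ℝ} (ht : t < tB k1 l1)
    {H : ℝ → ℝ → ℝ} (hH : ∀ v s, 0 ≤ H v s) : 0 ≤ EE k1 l1 j k t H := by
  unfold EE
  have h1 := Iw_nonneg_pm hp j k ht
  apply mul_nonneg
  · apply setIntegral_nonneg measurableSet_Ioo
    intro v hv
    apply setIntegral_nonneg measurableSet_Ioo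
    intro s hs
    have h2 := den_nonneg_pm hp j k ht hs.1.le hs.2
    have h3 := hv.1
    have h4 := hH v s
    positivity
  · positivity

theorem EE_congr_pm (k1 l1 : ℝ) (j k : ℕ) (t : ℝ) {H1 H2 : ℝ → ℝ → ℝ}
    (h : ∀ v ∈ Set.Ioo (0 : ℝ) 1, ∀ s ∈ Set.Ioo (0 : ℝ) 1, H1 v s = H2 v s) :
    EE k1 l1 j k t H1 = EE k1 l1 j k t H2 := by
  unfold EE
  congr 1
  apply setIntegral_congr_fun measurableSet_Ioo
  intro v hv
  apply setIntegral_congr_fun measurableSet_Ioo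
  intro s hs
  simp only
  rw [h v hv s hs]

theorem mono_pos_pm {e k1 l1 : ℝ} (hp : ParOK e k1 l1) (j k : ℕ) {z : ℂ} (hz : z ∈ BB k1 l1)
    {v s : ℝ} (hv : v ∈ Set.Ioo (0 : ℝ) 1) (hs : s ∈ Set.Ioo (0 : ℝ) 1) :
    0 < mono e k1 l1 j k z v s := by
  have h1 := X_pos hp (show ‖z‖ ^ 2 < tB k1 l1 from hz) hs.1.le hs.2
  have h2 := (dl_mem hp (show ‖z‖ ^ 2 < tB k1 l1 from hz)).1
  have h3 := hv.1
  have h4 := hs.1
  have h5 := hp.he
  unfold mono
  positivity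

theorem Pt_bdd_pm {e k1 l1 : ℝ} (hp : ParOK e k1 l1) {z : ℂ} (hz : z ∈ BB k1 l1)
    (G : E3 → ℝ) (hG : Continuous G) :
    ∃ M : ℝ, ∀ v ∈ Set.Ioo (0 : ℝ) 1, ∀ s ∈ Set.Ioo (0 : ℝ) 1, G (Pt e k1 l1 z v s) ≤ M := by
  have hK : IsCompact (Metric.closedBall (0 : E3) (max ‖z‖ 2)) := isCompact_closedBall _ _
  obtain ⟨M, hM⟩ := hK.bddAbove_image hG.continuousOn
  refine ⟨M, ?_⟩
  intro v hv s hs
  apply hM
  refine ⟨_, ?_, rfl⟩
  rw [mem_closedBall_zero_iff, pi_norm_le_iff_of_nonneg (by positivity)]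
  have h1 := X_pos hp (show ‖z‖ ^ 2 < tB k1 l1 from hz) hs.1.le hs.2
  have h1' := X_le hp (by positivity) (show ‖z‖ ^ 2 < tB k1 l1 from hz) hs.1.le hs.2
  have h2 := (dl_mem hp (show ‖z‖ ^ 2 < tB k1 l1 from hz))
  have h3 := hv.1
  have h3' := hv.2
  have h4 := hs.1
  have h4' := hs.2
  have h5 := hp.he
  have h6 := hp.he1
  have s1 : Real.sqrt (1 + XX k1 l1 (‖z‖ ^ 2) s) ≤ 2 := by
    rw [Real.sqrt_le_left (by norm_num)]
    linarith
  have s2 : Real.sqrt (dl k1 l1 (‖z‖ ^ 2)) ≤ 1 := by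
    rw [Real.sqrt_le_left (by norm_num)]
    linarith
  have s1' := Real.sqrt_nonneg (1 + XX k1 l1 (‖z‖ ^ 2) s)
  have s2' := Real.sqrt_nonneg (dl k1 l1 (‖z‖ ^ 2))
  intro i
  fin_cases i
  · simp [Pt]
  · simp only [Pt, Fin.mk_one, Matrix.cons_val_one, Matrix.cons_val_zero, Complex.norm_real,
      Real.norm_eq_abs]
    rw [abs_of_nonneg (by positivity)]
    apply le_max_of_le_right
    calc e * v * Real.sqrt (1 + XX k1 l1 (‖z‖ ^ 2) s) ≤ 1 * 1 * 2 := by gcongr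
      _ = 2 := by norm_num
  · simp only [Pt, Fin.reduceFinMk, Matrix.cons_val, Complex.norm_real,
      Real.norm_eq_abs]
    rw [abs_of_nonneg (by positivity)]
    apply le_max_of_le_right
    calc e * Real.sqrt (dl k1 l1 (‖z‖ ^ 2)) * s ≤ 1 * 1 * 1 := by gcongr
      _ ≤ 2 := by norm_num

/-! derivatives of mode functions -/

theorem cont_dbar_pm (i : Fin 3) (F : E3 → ℂ) (hF : ContDiff ℝ ∞ F) : Continuous (dbar i F) := by
  have h1 : Continuous (fderiv ℝ F) := hF.continuous_fderiv (by simp)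
  unfold dbar
  fun_prop

/-- rotation as a linear map -/
noncomputable def rotL_pm (θ₁ θ₂ : ℝ) : E3 →L[ℝ] E3 :=
  ContinuousLinearMap.pi (fun i => (![1, Complex.exp (θ₁ * I), Complex.exp (θ₂ * I)] i) •
    (ContinuousLinearMap.proj i : E3 →L[ℝ] ℂ))

theorem rotL_apply_pm (θ₁ θ₂ : ℝ) (x : E3) : rotL_pm θ₁ θ₂ x = rot θ₁ θ₂ x := by
  ext i
  fin_cases i <;> simp [rotL_pm, rot]

theorem rotL_single_pm (θ₁ θ₂ : ℝ) (i : Fin 3) (c : ℂ) : rotL_pm θ₁ θ₂ (Pi.single i c) =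
    Pi.single i ((![1, Complex.exp (θ₁ * I), Complex.exp (θ₂ * I)] i) * c) := by
  ext l
  by_cases h : l = i
  · subst h; simp [rotL_pm]
  · simp [rotL_pm, Pi.single_eq_of_ne h]

theorem D_single_pm (D : E3 →L[ℝ] ℂ) (i : Fin 3) (r : ℂ) :
    D (Pi.single i (r * 1)) + I * D (Pi.single i (r * I)) =
      conj r * (D (Pi.single i 1) + I * D (Pi.single i I)) := by
  have h1 : (Pi.single i (r * 1) : E3) = r.re • (Pi.single i (1:ℂ) : E3) +
      r.im • (Pi.single i I : E3) := by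
    ext l
    by_cases h : l = i
    · subst h
      simp [Complex.re_add_im]
    · simp [Pi.single_eq_of_ne h]
  have h2 : (Pi.single i (r * I) : E3) = (-r.im) • (Pi.single i (1:ℂ) : E3) +
      r.re • (Pi.single i I : E3) := by
    ext l
    by_cases h : l = i
    · subst h
      simp
      apply Complex.ext <;> simp
    · simp [Pi.single_eq_of_ne h]
  rw [h1, h2, map_add, map_add, map_smul, map_smul, map_smul, map_smul]
  have h3 : conj r = (r.re : ℂ) - r.im * I := by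
    apply Complex.ext <;> simp
  rw [h3]
  simp only [Complex.real_smul]
  push_cast
  linear_combination ((r.im : ℂ) * D (Pi.single i I)) * Complex.I_sq

theorem norm_dbar_rot_pm {j k : ℤ} {F : E3 → ℂ} (hF : ContDiff ℝ ∞ F) (hm : IsModeFn j k F)
    (i : Fin 3) (θ₁ θ₂ : ℝ) (x : E3) : ‖dbar i F (rot θ₁ θ₂ x)‖ = ‖dbar i F x‖ := by
  set c : ℂ := Complex.exp (I * (j * θ₁ + k * θ₂)) with hc
  have hcn : ‖c‖ = 1 := by
    rw [hc, show I * ((j:ℂ) * θ₁ + k * θ₂) = ((j * θ₁ + k * θ₂ : ℝ) : ℂ) * I by push_cast; ring]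
    exact Complex.norm_exp_ofReal_mul_I _
  set r : ℂ := (![1, Complex.exp (θ₁ * I), Complex.exp (θ₂ * I)] i) with hr
  have hrn : ‖r‖ = 1 := by
    rw [hr]
    fin_cases i
    · simp
    · simp [Complex.norm_exp_ofReal_mul_I]
    · simp [Complex.norm_exp_ofReal_mul_I]
  have hd : Differentiable ℝ F := hF.differentiable (by simp)
  have e1 : (fun y => F (rotL_pm θ₁ θ₂ y)) = fun y => c * F y := by
    funext y
    rw [rotL_apply_pm]
    exact hm θ₁ θ₂ y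
  have e2 : fderiv ℝ (fun y => F (rotL_pm θ₁ θ₂ y)) x =
      (fderiv ℝ F (rotL_pm θ₁ θ₂ x)).comp (rotL_pm θ₁ θ₂) := by
    have := fderiv_comp (𝕜 := ℝ) x (g := F) (f := rotL_pm θ₁ θ₂) (hd _)
      (rotL_pm θ₁ θ₂).differentiableAt
    rw [ContinuousLinearMap.fderiv] at this
    exact this
  have e3 : fderiv ℝ (fun y => c * F y) x = c • fderiv ℝ F x := by
    exact fderiv_const_mul (hd x) c
  rw [e1, e3] at e2
  have e4 : ∀ w : E3, c * fderiv ℝ F x w = fderiv ℝ F (rotL_pm θ₁ θ₂ x) (rotL_pm θ₁ θ₂ w) := by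
    intro w
    have := congrArg (fun T => T w) e2
    simpa using this
  have e5 : c * dbar i F x = conj r * dbar i F (rot θ₁ θ₂ x) := by
    unfold dbar
    have a1 := e4 (Pi.single i 1)
    have a2 := e4 (Pi.single i I)
    rw [rotL_single_pm, ← hr, rotL_apply_pm] at a1 a2
    have a3 := D_single_pm (fderiv ℝ F (rot θ₁ θ₂ x)) i r
    rw [← a1, ← a2] at a3
    linear_combination (1 / 2 : ℂ) * a3
  have e6 := congrArg norm e5
  rw [norm_mul, norm_mul, hcn, Complex.norm_conj, hrn] at e6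
  linarith

/-! integrability against test functions -/

theorem int_a_pm (B : Set ℂ) (hB : IsOpen B) (a : ℂ → ℂ) (ha : ContinuousOn a B)
    (g : ℂ → ℂ) (hg : Continuous g) (hgc : HasCompactSupport g) (hgs : tsupport g ⊆ B) :
    IntegrableOn (fun z => a z * g z) B := by
  have hK : IsCompact (tsupport g) := hgc
  obtain ⟨M, hM⟩ := hK.exists_bound_of_continuousOn (ha.mono hgs)
  obtain ⟨N, hN⟩ := hgc.exists_bound_of_continuous hg
  have hi : Integrable ((tsupport g).indicator (fun _ => M * N)) (volume : Measure ℂ) := by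
    rw [integrable_indicator_iff hK.measurableSet]
    exact integrableOn_const hK.measure_lt_top.ne
  refine Integrable.mono' (hi.mono_measure Measure.restrict_le_self) ?_ ?_
  · exact (ha.mul hg.continuousOn).aestronglyMeasurable hB.measurableSet
  · refine Filter.Eventually.of_forall ?_
    intro z
    by_cases hz : z ∈ tsupport g
    · rw [Set.indicator_of_mem hz, norm_mul]
      have h1 := hM z hz
      have h2 := hN z
      have h3 := norm_nonneg (a z)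
      have h4 := norm_nonneg (g z)
      exact mul_le_mul h1 h2 h4 (h3.trans h1)
    · rw [Set.indicator_of_notMem hz, image_eq_zero_of_notMem_tsupport hz]
      simp

theorem ibpv_ib (B : Set ℂ) (hB : IsOpen B) (a : ℂ → ℂ) (ha : ContDiffOn ℝ 1 a B) (φ : ℂ → ℂ)
    (h1 : ContDiff ℝ ∞ φ) (h2 : HasCompactSupport φ) (h3 : tsupport φ ⊆ B) (v : ℂ) :
    IntegrableOn (fun z => a z * fderiv ℝ φ z v) B ∧
    IntegrableOn (fun z => fderiv ℝ a z v * φ z) B ∧
    ∫ z in B, a z * fderiv ℝ φ z v = - ∫ z in B, fderiv ℝ a z v * φ z := by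
  have hfc : Continuous (fun z => fderiv ℝ φ z v) := by
    have h4 : Continuous (fderiv ℝ φ) := h1.continuous_fderiv (by simp)
    fun_prop
  have hts : tsupport (fun z => fderiv ℝ φ z v) ⊆ tsupport φ := by
    apply closure_minimal _ (isClosed_tsupport φ)
    intro x hx
    by_contra hc
    apply hx
    have h1 : fderiv ℝ φ x = 0 := by
      by_contra h2
      exact hc (support_fderiv_subset ℝ h2)
    simp [h1]
  have hfs : HasCompactSupport (fun z => fderiv ℝ φ z v) :=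
    h2.of_isClosed_subset (isClosed_tsupport _) hts
  have hac : ContinuousOn (fun z => fderiv ℝ a z v) B :=
    (ha.continuousOn_fderiv_of_isOpen hB le_rfl).clm_apply continuousOn_const
  have i1 := int_a_pm B hB a ha.continuousOn _ hfc hfs (hts.trans h3)
  have i2 := int_a_pm B hB _ hac φ h1.continuous h2 h3
  have i3 := int_a_pm B hB a ha.continuousOn φ h1.continuous h2 h3
  have s1 : Function.support (fun z => a z * fderiv ℝ φ z v) ⊆ B := by
    intro z hz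
    by_contra hc
    apply hz
    have : fderiv ℝ φ z v = 0 :=
      image_eq_zero_of_notMem_tsupport (f := fun z => fderiv ℝ φ z v)
        (fun h => hc (h3 (hts h)))
    simp [this]
  have s2 : Function.support (fun z => fderiv ℝ a z v * φ z) ⊆ B := by
    intro z hz
    by_contra hc
    apply hz
    have : φ z = 0 := image_eq_zero_of_notMem_tsupport (fun h => hc (h3 h))
    simp [this]
  have s3 : Function.support (fun z => a z * φ z) ⊆ B := by
    intro z hz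
    by_contra hc
    apply hz
    have : φ z = 0 := image_eq_zero_of_notMem_tsupport (fun h => hc (h3 h))
    simp [this]
  refine ⟨i1, i2, ?_⟩
  rw [setIntegral_eq_integral_of_forall_compl_eq_zero (fun z hz => by
      by_contra hc; exact hz (s1 hc)), setIntegral_eq_integral_of_forall_compl_eq_zero
      (fun z hz => by by_contra hc; exact hz (s2 hc))]
  apply integral_mul_fderiv_eq_neg_fderiv_mul_of_integrable
  · exact (integrableOn_iff_integrable_of_support_subset s2).1 i2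
  · exact (integrableOn_iff_integrable_of_support_subset s1).1 i1
  · exact (integrableOn_iff_integrable_of_support_subset s3).1 i3
  · intro x hx
    exact (ha.contDiffAt (hB.mem_nhds (h3 hx))).differentiableAt (by simp)
  · intro x _
    exact (h1.differentiable (by simp)) x

theorem ibp_B (B : Set ℂ) (hB : IsOpen B) (a : ℂ → ℂ) (ha : ContDiffOn ℝ 1 a B) (φ : ℂ → ℂ)
    (h1 : ContDiff ℝ ∞ φ) (h2 : HasCompactSupport φ) (h3 : tsupport φ ⊆ B) :
    ∫ z in B, a z * db1 φ z = - ∫ z in B, db1 a z * φ z := by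
  obtain ⟨a1, a2, a3⟩ := ibpv_ib B hB a ha φ h1 h2 h3 1
  obtain ⟨b1, b2, b3⟩ := ibpv_ib B hB a ha φ h1 h2 h3 I
  have e1 : ∫ z in B, a z * db1 φ z = (1 / 2) * ((∫ z in B, a z * fderiv ℝ φ z 1) +
      I * ∫ z in B, a z * fderiv ℝ φ z I) := by
    rw [← integral_const_mul, ← integral_add a1 (b1.const_mul I), ← integral_const_mul]
    congr 1
    funext z
    simp only [db1]
    ring
  have e2 : ∫ z in B, db1 a z * φ z = (1 / 2) * ((∫ z in B, fderiv ℝ a z 1 * φ z) +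
      I * ∫ z in B, fderiv ℝ a z I * φ z) := by
    rw [← integral_const_mul, ← integral_add a2 (b2.const_mul I), ← integral_const_mul]
    congr 1
    funext z
    simp only [db1]
    ring
  rw [e1, e2, a3, b3]
  ring

theorem int_b_pm (B : Set ℂ) (hB : IsOpen B) (w : ℂ → ℝ) (hw : ContinuousOn w B)
    (hwp : ∀ z ∈ B, 0 < w z) (b : ℂ → ℂ) (hb : AEStronglyMeasurable b (volume.restrict B))
    (hbi : IntegrableOn (fun z => ‖b z‖ ^ 2 * w z) B)
    (g : ℂ → ℂ) (hg : Continuous g) (hgc : HasCompactSupport g) (hgs : tsupport g ⊆ B) :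
    IntegrableOn (fun z => b z * g z) B := by
  have hK : IsCompact (tsupport g) := hgc
  obtain ⟨w0, hw0, hw1⟩ : ∃ w0 > 0, ∀ z ∈ tsupport g, w0 ≤ w z := by
    by_cases hne : (tsupport g).Nonempty
    · obtain ⟨z0, hz0, hmin⟩ := hK.exists_isMinOn hne (hw.mono hgs)
      exact ⟨w z0, hwp z0 (hgs hz0), fun z hz => hmin hz⟩
    · refine ⟨1, one_pos, ?_⟩
      intro z hz
      exact absurd ⟨z, hz⟩ hne
  obtain ⟨N, hN⟩ := hgc.exists_bound_of_continuous hg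
  have hN0 : 0 ≤ N := le_trans (norm_nonneg _) (hN 0)
  have hi : IntegrableOn ((tsupport g).indicator (fun _ => N)) B := by
    refine Integrable.mono_measure ?_ (Measure.restrict_le_self (μ := (volume : Measure ℂ)))
    rw [integrable_indicator_iff hK.measurableSet]
    exact integrableOn_const hK.measure_lt_top.ne
  have hi2 : IntegrableOn (fun z => (tsupport g).indicator (fun _ => N) z +
      N / w0 * (‖b z‖ ^ 2 * w z)) B := hi.add (hbi.const_mul _)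
  refine Integrable.mono' hi2 ?_ ?_
  · exact hb.mul hg.aestronglyMeasurable
  · rw [ae_restrict_iff' hB.measurableSet]
    refine Filter.Eventually.of_forall ?_
    intro z hzB
    have hwz := hwp z hzB
    by_cases hz : z ∈ tsupport g
    · rw [Set.indicator_of_mem hz, norm_mul]
      have h1 := hw1 z hz
      have h2 := hN z
      have h3 := norm_nonneg (b z)
      have h5 : ‖b z‖ ≤ 1 + ‖b z‖ ^ 2 := by nlinarith [sq_nonneg (‖b z‖ - 1)]
      have h6 : ‖b z‖ ^ 2 ≤ 1 / w0 * (‖b z‖ ^ 2 * w z) := by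
        rw [one_div, inv_mul_eq_div, le_div_iff₀ hw0]
        gcongr
      calc ‖b z‖ * ‖g z‖ ≤ (1 + 1 / w0 * (‖b z‖ ^ 2 * w z)) * N := by
            gcongr
            linarith
        _ = N + N / w0 * (‖b z‖ ^ 2 * w z) := by ring
    · rw [Set.indicator_of_notMem hz, image_eq_zero_of_notMem_tsupport hz]
      simp only [mul_zero, norm_zero, zero_add]
      positivity

theorem db1_cont_pm (φ : ℂ → ℂ) (h : ContDiff ℝ ∞ φ) : Continuous (db1 φ) := by
  have h1 : Continuous (fderiv ℝ φ) := h.continuous_fderiv (by simp)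
  unfold db1
  fun_prop

theorem db1_tsupp_pm (φ : ℂ → ℂ) : tsupport (db1 φ) ⊆ tsupport φ := by
  apply closure_minimal _ (isClosed_tsupport φ)
  intro x hx
  by_contra hc
  apply hx
  have h1 : fderiv ℝ φ x = 0 := by
    by_contra h2
    exact hc (support_fderiv_subset ℝ h2)
  simp [db1, h1]

theorem db1_supp_pm (φ : ℂ → ℂ) (h : HasCompactSupport φ) : HasCompactSupport (db1 φ) :=
  h.of_isClosed_subset (isClosed_tsupport _) (db1_tsupp_pm φ)

theorem db1_contOn_pm (B : Set ℂ) (hB : IsOpen B) (a : ℂ → ℂ) (ha : ContDiffOn ℝ 1 a B) :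
    ContinuousOn (db1 a) B := by
  have h1 : ContinuousOn (fderiv ℝ a) B := ha.continuousOn_fderiv_of_isOpen hB le_rfl
  unfold db1
  have h2 : ContinuousOn (fun z => fderiv ℝ a z 1) B := h1.clm_apply continuousOn_const
  have h3 : ContinuousOn (fun z => fderiv ℝ a z I) B := h1.clm_apply continuousOn_const
  fun_prop

theorem hw_pm (B : Set ℂ) (hB : IsOpen B) (w : ℂ → ℝ) (hw : ContinuousOn w B)
    (hwp : ∀ z ∈ B, 0 < w z) (a : ℂ → ℂ) (ha : ContDiffOn ℝ 1 a B)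
    (b : ℂ → ℂ) (hb : AEStronglyMeasurable b (volume.restrict B))
    (hbi : IntegrableOn (fun z => ‖b z‖ ^ 2 * w z) B)
    (heq : ∀ φ : ℂ → ℂ, ContDiff ℝ ∞ φ → HasCompactSupport φ → tsupport φ ⊆ B →
          ∫ z in B, b z * db1 φ z = - ∫ z in B, db1 a z * φ z)
    (A : ℂ → ℂ) (hA : ∀ᵐ z ∂(volume.restrict B), A z = a z - b z) :
    ∀ φ : ℂ → ℂ, ContDiff ℝ ∞ φ → HasCompactSupport φ → tsupport φ ⊆ B →
      ∫ z in B, A z * db1 φ z = 0 := by
  intro φ h1 h2 h3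
  have e1 : ∫ z in B, A z * db1 φ z = ∫ z in B, (a z * db1 φ z - b z * db1 φ z) := by
    apply integral_congr_ae
    filter_upwards [hA] with z hz
    rw [hz]
    ring
  rw [e1, integral_sub]
  · rw [heq φ h1 h2 h3, ibp_B B hB a ha φ h1 h2 h3]
    ring
  · exact int_a_pm B hB a ha.continuousOn _ (db1_cont_pm φ h1) (db1_supp_pm φ h2)
      ((db1_tsupp_pm φ).trans h3)
  · exact int_b_pm B hB w hw hwp b hb hbi _ (db1_cont_pm φ h1) (db1_supp_pm φ h2)
      ((db1_tsupp_pm φ).trans h3)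

/-! the pointwise estimate -/

theorem ptw_pm {e k1 l1 : ℝ} (hp : ParOK e k1 l1) (hPsi : Psi_stmt) (hFib : Fib_stmt)
    (hlam : 0 < lamStar) (he : e ^ 2 * (10 ^ 6 * (lamStar + 1) ^ 2) ≤ lamStar) (j k : ℕ)
    (m0 : ℝ) (hm0 : 0 < m0) (hm : ∀ t ∈ Set.Ico 0 (tB k1 l1), m0 ≤ mm k1 l1 j k t)
    (F : E3 → ℂ) (hF : ContDiff ℝ ∞ F) (hmode : IsModeFn j k F) (z : ℂ) (hz : z ∈ BB k1 l1) :
    (lamStar + min (1 / 2) (m0 / 64)) * (EE k1 l1 j k (‖z‖ ^ 2) (fun v s =>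
        ‖cc e k1 l1 j k F z v s - aa e k1 l1 j k F z‖ ^ 2) +
      ‖db1 (aa e k1 l1 j k F) z‖ ^ 2 / (lamStar + mm k1 l1 j k (‖z‖ ^ 2) / 16)) ≤
    EE k1 l1 j k (‖z‖ ^ 2) (fun v s => (∑ i, ‖dbar i F (Pt e k1 l1 z v s)‖ ^ 2) /
      mono e k1 l1 j k z v s ^ 2) := by
  obtain ⟨ha, hfib⟩ := hFib e k1 l1 hp j k F hF hmode
  obtain ⟨p, q, h1, h2, h3, h4⟩ := hfib z hz
  have hG : ∀ (i : Fin 3) v s, ‖GG e k1 l1 j k F i z v s‖ ^ 2 =
      ‖dbar i F (Pt e k1 l1 z v s)‖ ^ 2 / mono e k1 l1 j k z v s ^ 2 := by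
    intro i v s
    unfold GG
    rw [norm_div, div_pow, Complex.norm_real, Real.norm_eq_abs, sq_abs]
  have hc : ∀ i, Continuous (fun x => ‖dbar i F x‖ ^ 2) :=
    fun i => (cont_dbar_pm i F hF).norm.pow 2
  have key : EE k1 l1 j k (‖z‖ ^ 2) (fun v s => (∑ i, ‖dbar i F (Pt e k1 l1 z v s)‖ ^ 2) /
      mono e k1 l1 j k z v s ^ 2) =
      EE k1 l1 j k (‖z‖ ^ 2) (fun v s => ‖GG e k1 l1 j k F 0 z v s‖ ^ 2) +
      EE k1 l1 j k (‖z‖ ^ 2) (fun v s => ‖GG e k1 l1 j k F 1 z v s‖ ^ 2 +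
        ‖GG e k1 l1 j k F 2 z v s‖ ^ 2) := by
    have := fibre_add hp hPsi j k z hz (fun x => ‖dbar 0 F x‖ ^ 2)
      (fun x => ‖dbar 1 F x‖ ^ 2 + ‖dbar 2 F x‖ ^ 2) (hc 0) ((hc 1).add (hc 2))
    simp only [hG]
    have e1 : ∀ v s, ‖dbar 1 F (Pt e k1 l1 z v s)‖ ^ 2 / mono e k1 l1 j k z v s ^ 2 +
        ‖dbar 2 F (Pt e k1 l1 z v s)‖ ^ 2 / mono e k1 l1 j k z v s ^ 2 =
        (‖dbar 1 F (Pt e k1 l1 z v s)‖ ^ 2 + ‖dbar 2 F (Pt e k1 l1 z v s)‖ ^ 2) /
          mono e k1 l1 j k z v s ^ 2 := by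
      intro v s; ring
    simp only [e1]
    rw [← this]
    congr 1
    funext v s
    rw [Fin.sum_univ_three]
    ring
  rw [key, h1]
  refine arith_pm hlam rfl hm0 (hm _ ⟨by positivity, hz⟩) he rfl ?_ h2 h3 h4
  exact EE_nonneg_pm hp j k hz (fun v s => by positivity)

theorem W_pm {e k1 l1 : ℝ} (hp : ParOK e k1 l1) (hPsi : Psi_stmt) (j k : ℕ) {t : ℝ}
    (ht : t ∈ Set.Ioo (-1) (tB k1 l1)) : Real.exp (-psi k1 l1 j k t) = ww k1 l1 j k t := by
  obtain ⟨psi1, psi2, hd1, hd2, hc2, hcm, hlow, hwp⟩ := hPsi e k1 l1 hp j k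
  unfold psi
  rw [neg_neg, Real.exp_log (hwp t ht)]

theorem memIoo_pm {k1 l1 : ℝ} {z : ℂ} (hz : z ∈ BB k1 l1) :
    ‖z‖ ^ 2 ∈ Set.Ioo (-1) (tB k1 l1) := ⟨by nlinarith [sq_nonneg ‖z‖], hz⟩

/-- the real inequality from the `lintegral` pieces -/
theorem chain_pm (B : Set ℂ) (hB : MeasurableSet B) (lam' : ℝ) (hl : 0 < lam')
    (w V S D β : ℂ → ℝ) (hw : ∀ z ∈ B, 0 < w z) (hV : ∀ z ∈ B, 0 ≤ V z) (hD : ∀ z ∈ B, 0 ≤ D z)
    (hβ : ∀ z, 0 ≤ β z)
    (hP : ∀ z ∈ B, lam' * (V z + D z) ≤ S z)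
    (hDm : IntegrableOn (fun z => D z * w z) B)
    (hβm : IntegrableOn (fun z => β z * w z) B)
    (hle : ∫ z in B, β z * w z ≤ ∫ z in B, D z * w z) :
    ENNReal.ofReal lam' * ∫⁻ z in B, ENNReal.ofReal (w z * (V z + β z)) ≤
      ∫⁻ z in B, ENNReal.ofReal (w z * S z) := by
  have h1 : ∫⁻ z in B, ENNReal.ofReal (w z * (V z + β z)) =
      (∫⁻ z in B, ENNReal.ofReal (w z * V z)) + ∫⁻ z in B, ENNReal.ofReal (β z * w z) := by
    rw [← lintegral_add_right']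
    · apply setLIntegral_congr_fun hB
      intro z hz
      simp only
      rw [← ENNReal.ofReal_add]
      · congr 1; ring
      · exact mul_nonneg (hw z hz).le (hV z hz)
      · exact mul_nonneg (hβ z) (hw z hz).le
    · exact hβm.aestronglyMeasurable.aemeasurable.ennreal_ofReal
  have h2 : ∫⁻ z in B, ENNReal.ofReal (β z * w z) ≤ ∫⁻ z in B, ENNReal.ofReal (D z * w z) := by
    rw [← ofReal_integral_eq_lintegral_ofReal hβm, ← ofReal_integral_eq_lintegral_ofReal hDm]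
    · exact ENNReal.ofReal_le_ofReal hle
    · rw [Filter.EventuallyLE, ae_restrict_iff' hB]
      exact Filter.Eventually.of_forall (fun z hz => mul_nonneg (hD z hz) (hw z hz).le)
    · rw [Filter.EventuallyLE, ae_restrict_iff' hB]
      exact Filter.Eventually.of_forall (fun z hz => mul_nonneg (hβ z) (hw z hz).le)
  have h3 : (∫⁻ z in B, ENNReal.ofReal (w z * V z)) + ∫⁻ z in B, ENNReal.ofReal (D z * w z) =
      ∫⁻ z in B, ENNReal.ofReal (w z * (V z + D z)) := by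
    rw [← lintegral_add_right']
    · apply setLIntegral_congr_fun hB
      intro z hz
      simp only
      rw [← ENNReal.ofReal_add]
      · congr 1; ring
      · exact mul_nonneg (hw z hz).le (hV z hz)
      · exact mul_nonneg (hD z hz) (hw z hz).le
    · exact hDm.aestronglyMeasurable.aemeasurable.ennreal_ofReal
  calc ENNReal.ofReal lam' * ∫⁻ z in B, ENNReal.ofReal (w z * (V z + β z))
      ≤ ENNReal.ofReal lam' * ∫⁻ z in B, ENNReal.ofReal (w z * (V z + D z)) := by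
        rw [h1, ← h3]
        gcongr
    _ = ∫⁻ z in B, ENNReal.ofReal lam' * ENNReal.ofReal (w z * (V z + D z)) := by
        rw [lintegral_const_mul' _ _ ENNReal.ofReal_ne_top]
    _ ≤ ∫⁻ z in B, ENNReal.ofReal (w z * S z) := by
        apply setLIntegral_mono' hB
        intro z hz
        rw [← ENNReal.ofReal_mul hl.le]
        apply ENNReal.ofReal_le_ofReal
        have := hP z hz
        have := hw z hz
        nlinarith

theorem bdd_int_pm (Ω : Set E3) (hb : Bornology.IsBounded Ω) (G : E3 → ℝ) (hG : Continuous G) :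
    IntegrableOn G Ω := by
  have h1 : IsCompact (closure Ω) := hb.isCompact_closure
  exact (hG.continuousOn.integrableOn_compact h1).mono_set subset_closure

theorem bdd_memLp_pm (Ω : Set E3) (hb : Bornology.IsBounded Ω) (F : E3 → ℂ) (hF : Continuous F) :
    MemLp F 2 (volume.restrict Ω) := by
  rw [memLp_two_iff_integrable_sq_norm hF.aestronglyMeasurable]
  exact bdd_int_pm Ω hb _ (by fun_prop)

theorem pos_mode (C : ℝ) (hC : 1 ≤ C) (hPL : PLC C) (hPol : Pol_stmt) (hPsi : Psi_stmt)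
    (hMB : MB_stmt) (hFib : Fib_stmt) (hlam : 0 < lamStar) (hMem : Mem_stmt) (hDom : Dom_stmt)
    (e k1 l1 : ℝ) (hp : ParOK e k1 l1)
    (hl : 100 * (C + 1) * (lamStar + 1) ≤ l1) (hk : k1 ≤ 1 / (1000 * (lamStar + 1)))
    (he : e ^ 2 * (10 ^ 6 * (lamStar + 1) ^ 2) ≤ lamStar) (j k : ℕ) :
    Mode_stmt e k1 l1 j k := by
  obtain ⟨y, hy0, hy1, hm1, hm2⟩ := hMB C hC e k1 l1 hp hl hk j k
  obtain ⟨psi1, psi2, hd1, hd2, hc2, hcm, hlow, hwp⟩ := hPsi e k1 l1 hp j k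
  obtain ⟨hΩo, -, hΩb, -, -, -⟩ := hDom e k1 l1 hp
  set m0 : ℝ := 32 * (lamStar + 1) * y with hm0d
  have hm0 : 0 < m0 := by positivity
  have hm : ∀ t ∈ Set.Ico 0 (tB k1 l1), m0 ≤ mm k1 l1 j k t := by
    intro t ht
    rcases le_total t (1 + y) with h | h
    · exact hm1 t ht h
    · refine le_trans ?_ (hm2 t ht h)
      have h1 : 100 ≤ C / y ^ 2 := by
        rw [le_div_iff₀ (by positivity)]
        nlinarith
      rw [hm0d]
      nlinarith
  have hminp : 0 < min (1 / 2 : ℝ) (m0 / 64) := by positivity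
  refine ⟨lamStar + min (1 / 2) (m0 / 64), by linarith, ?_⟩
  intro F hF hmode
  obtain ⟨ha, -⟩ := hFib e k1 l1 hp j k F hF hmode
  have hptw := ptw_pm hp hPsi hFib hlam he j k m0 hm0 hm F hF hmode
  set lam' : ℝ := lamStar + min (1 / 2) (m0 / 64) with hlam'
  have hlam'p : 0 < lam' := by linarith
  set B : Set ℂ := BB k1 l1 with hBdef
  have hBo : IsOpen B := isOpen_BB_pm k1 l1
  have hBm : MeasurableSet B := hBo.measurableSet
  set a : ℂ → ℂ := aa e k1 l1 j k F with hadef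
  set w : ℂ → ℝ := fun z => Real.exp (-psi k1 l1 j k (‖z‖ ^ 2)) with hwdef
  have hww : ∀ z ∈ B, w z = ww k1 l1 j k (‖z‖ ^ 2) := fun z hz => W_pm hp hPsi j k (memIoo_pm hz)
  have hwpos : ∀ z, 0 < w z := fun z => Real.exp_pos _
  have hwc : ContinuousOn w B := by
    have h1 : ContinuousOn (psi k1 l1 j k) (Set.Ioo (-1) (tB k1 l1)) :=
      fun t ht => (hd1 t ht).continuousAt.continuousWithinAt
    have h2 : ContinuousOn (fun z : ℂ => psi k1 l1 j k (‖z‖ ^ 2)) B :=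
      h1.comp (by fun_prop) (fun z hz => memIoo_pm hz)
    exact (h2.neg).rexp
  have hmc : ContinuousOn (fun z : ℂ => mm k1 l1 j k (‖z‖ ^ 2)) B :=
    hcm.comp (by fun_prop) (fun z hz => memIoo_pm hz)
  have hmpos : ∀ z ∈ B, 0 < lamStar + mm k1 l1 j k (‖z‖ ^ 2) / 16 := by
    intro z hz
    have := hm _ ⟨by positivity, hz⟩
    linarith
  set D : ℂ → ℝ := fun z => ‖db1 a z‖ ^ 2 / (lamStar + mm k1 l1 j k (‖z‖ ^ 2) / 16) with hDdef
  set V : ℂ → ℝ := fun z => EE k1 l1 j k (‖z‖ ^ 2) (fun v s =>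
        ‖cc e k1 l1 j k F z v s - a z‖ ^ 2) with hVdef
  set S : ℂ → ℝ := fun z => EE k1 l1 j k (‖z‖ ^ 2) (fun v s =>
      (∑ i, ‖dbar i F (Pt e k1 l1 z v s)‖ ^ 2) / mono e k1 l1 j k z v s ^ 2) with hSdef
  have hDc : ContinuousOn D B := by
    have h1 := db1_contOn_pm B hBo a ha
    apply ContinuousOn.div (by fun_prop) (by fun_prop)
    intro z hz
    exact (hmpos z hz).ne'
  have hD0 : ∀ z ∈ B, 0 ≤ D z := fun z hz => div_nonneg (by positivity) (hmpos z hz).le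
  have hV0 : ∀ z ∈ B, 0 ≤ V z := fun z hz => EE_nonneg_pm hp j k hz (fun v s => by positivity)
  have hP : ∀ z ∈ B, lam' * (V z + D z) ≤ S z := fun z hz => hptw z hz
  -- fibre formula for the derivatives
  set c0 : ℝ := 4 * Real.pi ^ 2 * e ^ (2 * j + 2 * k + 4) / (2 * j + 2) with hc0
  have hc0p : 0 < c0 := by
    have := hp.he
    have := Real.pi_pos
    positivity
  have hdc : ∀ i, Continuous (dbar i F) := fun i => cont_dbar_pm i F hF
  have I1 : ∫⁻ x in Omega e k1 l1, ENNReal.ofReal (∑ i, ‖dbar i F x‖ ^ 2) =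
      ENNReal.ofReal c0 * ∫⁻ z in B, ENNReal.ofReal (w z * S z) := by
    rw [fibre_formula hp hPol hPsi j k (fun x => ∑ i, ‖dbar i F x‖ ^ 2)
      (by fun_prop) (fun x => by positivity) ?_ ?_]
    · congr 1
      apply setLIntegral_congr_fun hBm
      intro z hz
      simp only [hww z hz, hSdef]
    · intro θ₁ θ₂ x
      simp only [norm_dbar_rot_pm hF hmode]
    · intro z hz
      exact Pt_bdd_pm hp hz (fun x => ∑ i, ‖dbar i F x‖ ^ 2) (by fun_prop)
  have hfin : ∫⁻ x in Omega e k1 l1, ENNReal.ofReal (∑ i, ‖dbar i F x‖ ^ 2) < ⊤ := by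
    have h1 : IntegrableOn (fun x => ∑ i, ‖dbar i F x‖ ^ 2) (Omega e k1 l1) :=
      bdd_int_pm _ hΩb _ (by fun_prop)
    exact h1.lintegral_lt_top
  have hSfin : ∫⁻ z in B, ENNReal.ofReal (w z * S z) < ⊤ := by
    rw [I1] at hfin
    by_contra hcon
    have h1 : ∫⁻ z in B, ENNReal.ofReal (w z * S z) = ⊤ := by
      simpa using hcon
    rw [h1, ENNReal.mul_top (ENNReal.ofReal_pos.2 hc0p).ne'] at hfin
    exact lt_irrefl _ hfin
  have hDi : IntegrableOn (fun z => D z * w z) B := by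
    refine ⟨(hDc.mul hwc).aestronglyMeasurable hBm, ?_⟩
    rw [hasFiniteIntegral_iff_ofReal]
    · refine lt_of_le_of_lt ?_ (ENNReal.mul_lt_top (a := ENNReal.ofReal (1 / lam'))
        ENNReal.ofReal_lt_top hSfin)
      rw [← lintegral_const_mul' _ _ ENNReal.ofReal_ne_top]
      apply setLIntegral_mono' hBm
      intro z hz
      rw [← ENNReal.ofReal_mul (by positivity)]
      apply ENNReal.ofReal_le_ofReal
      have h1 := hP z hz
      have h2 := hV0 z hz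
      have h3 := hwpos z
      rw [one_div, inv_mul_eq_div, le_div_iff₀ hlam'p]
      nlinarith [mul_nonneg hlam'p.le h2]
    · rw [Filter.EventuallyLE, ae_restrict_iff' hBm]
      exact Filter.Eventually.of_forall (fun z hz => mul_nonneg (hD0 z hz) (hwpos z).le)
  -- planar solution
  obtain ⟨b, hbm, hbi, hble, hbeq⟩ := hPL (tB k1 l1) y (psi k1 l1 j k) psi1 psi2 (mm k1 l1 j k)
    (tB_gt_pm hp) hy0 hy1 hd1 hd2 hc2 (hcm.mono (fun t ht => ⟨by linarith [ht.1], ht.2⟩)) hlow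
    hm1 hm2 (db1 a) (db1_contOn_pm B hBo a ha) hDi
  have hbm' : AEStronglyMeasurable b (volume.restrict B) := hbm
  set b' : ℂ → ℂ := hbm'.mk b with hb'
  have hb'm : Measurable b' := hbm'.stronglyMeasurable_mk.measurable
  have hbb' : b =ᵐ[volume.restrict B] b' := hbm'.ae_eq_mk
  set A : ℂ → ℂ := fun z => B.indicator a z - b' z with hA
  have hAm : Measurable A := by
    apply Measurable.sub _ hb'm
    classical
    have h1 := ContinuousOn.measurable_piecewise (s := B) (f := a) (g := 0) ha.continuousOn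
      continuousOn_const hBm
    rwa [Set.piecewise_eq_indicator] at h1
  have hAae : ∀ᵐ z ∂(volume.restrict B), A z = a z - b z := by
    filter_upwards [hbb', ae_restrict_mem hBm] with z hz hzB
    simp only [hA]
    rw [Set.indicator_of_mem hzB, hz]
  have hhw := hw_pm B hBo w hwc (fun z _ => hwpos z) a ha b hbm' hbi hbeq A hAae
  set h : E3 → ℂ := fun x => A (x 0) * x 1 ^ j * x 2 ^ k with hh
  have hhm : Measurable h := by
    have h1 : Measurable (fun x : E3 => A (x 0)) := hAm.comp (measurable_pi_apply 0)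
    have h2 : Measurable (fun x : E3 => x 1) := measurable_pi_apply 1
    have h3 : Measurable (fun x : E3 => x 2) := measurable_pi_apply 2
    exact (h1.mul (h2.pow_const j)).mul (h3.pow_const k)
  have hFc : Continuous F := hF.continuous
  -- fibre formula for `F - h`
  have I2 : ∫⁻ x in Omega e k1 l1, ENNReal.ofReal (‖F x - h x‖ ^ 2) =
      ENNReal.ofReal c0 * ∫⁻ z in B, ENNReal.ofReal (w z * (V z + ‖b' z‖ ^ 2)) := by
    rw [fibre_formula hp hPol hPsi j k (fun x => ‖F x - h x‖ ^ 2)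
      ((hFc.measurable.sub hhm).norm.pow_const 2) (fun x => by positivity) ?_ ?_]
    · congr 1
      apply setLIntegral_congr_fun hBm
      intro z hz
      simp only
      rw [hww z hz]
      congr 2
      have h1 := fibre_var hp hPsi j k z hz F hFc (A z)
      have h2 : aa e k1 l1 j k F z - A z = b' z := by
        simp only [hA, Set.indicator_of_mem hz]
        rw [← hadef]
        ring
      rw [h2] at h1
      rw [← h1]
      apply EE_congr_pm
      intro v hv s hs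
      have h3 := mono_pos_pm hp j k hz hv hs
      have h4 : h (Pt e k1 l1 z v s) = A z * (mono e k1 l1 j k z v s : ℂ) := by
        simp only [hh, Pt, mono]
        simp
        ring
      rw [h4]
      unfold cc
      have h5 : F (Pt e k1 l1 z v s) / (mono e k1 l1 j k z v s : ℂ) - A z =
          (F (Pt e k1 l1 z v s) - A z * (mono e k1 l1 j k z v s : ℂ)) /
            (mono e k1 l1 j k z v s : ℂ) := by
        have : (mono e k1 l1 j k z v s : ℂ) ≠ 0 := by exact_mod_cast h3.ne'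
        field_simp
      rw [h5, norm_div, div_pow, Complex.norm_real, Real.norm_eq_abs, sq_abs]
    · intro θ₁ θ₂ x
      have h1 : h (rot θ₁ θ₂ x) = Complex.exp (I * (j * θ₁ + k * θ₂)) * h x := by
        simp only [hh, rot]
        simp only [Matrix.cons_val_zero, Matrix.cons_val_one, Matrix.cons_val, mul_pow]
        rw [← Complex.exp_nat_mul, ← Complex.exp_nat_mul]
        have : Complex.exp (I * (j * θ₁ + k * θ₂)) = Complex.exp (j * (θ₁ * I)) *
            Complex.exp (k * (θ₂ * I)) := by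
          rw [← Complex.exp_add]
          congr 1
          ring
        rw [this]
        ring
      have h2 : F (rot θ₁ θ₂ x) = Complex.exp (I * (j * θ₁ + k * θ₂)) * F x := by
        have := hmode θ₁ θ₂ x
        simpa using this
      have h3 : ‖Complex.exp (I * (j * θ₁ + k * θ₂))‖ = 1 := by
        rw [show I * ((j:ℂ) * θ₁ + k * θ₂) = ((j * θ₁ + k * θ₂ : ℝ) : ℂ) * I by push_cast; ring]
        exact Complex.norm_exp_ofReal_mul_I _
      rw [h1, h2, ← mul_sub, norm_mul, h3, one_mul]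
    · intro z hz
      obtain ⟨M, hM⟩ := Pt_bdd_pm hp hz (fun x => ‖F x - A z * x 1 ^ j * x 2 ^ k‖ ^ 2)
        (by fun_prop)
      refine ⟨M, ?_⟩
      intro v hv s hs
      have := hM v hv s hs
      refine le_trans (le_of_eq ?_) this
      simp only [hh]
      rfl
  have hb'i : IntegrableOn (fun z => ‖b' z‖ ^ 2 * w z) B := by
    refine (Integrable.congr hbi ?_)
    filter_upwards [hbb'] with z hz
    rw [hz]
  have hb'le : ∫ z in B, ‖b' z‖ ^ 2 * w z ≤ ∫ z in B, D z * w z := by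
    refine le_trans (le_of_eq ?_) hble
    apply integral_congr_ae
    filter_upwards [hbb'] with z hz
    rw [hz]
  have hchain := chain_pm B hBm lam' hlam'p w V S D (fun z => ‖b' z‖ ^ 2) (fun z _ => hwpos z) hV0
    hD0 (fun z => by positivity) hP hDi hb'i hb'le
  have hmain : ENNReal.ofReal lam' * ∫⁻ x in Omega e k1 l1, ENNReal.ofReal (‖F x - h x‖ ^ 2) ≤
      ∫⁻ x in Omega e k1 l1, ENNReal.ofReal (∑ i, ‖dbar i F x‖ ^ 2) := by
    rw [I1, I2]
    calc _ = ENNReal.ofReal c0 * (ENNReal.ofReal lam' *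
          ∫⁻ z in B, ENNReal.ofReal (w z * (V z + ‖b' z‖ ^ 2))) := by ring
      _ ≤ _ := by gcongr
  have hFhfin : ∫⁻ x in Omega e k1 l1, ENNReal.ofReal (‖F x - h x‖ ^ 2) < ⊤ := by
    by_contra hcon
    have h1 : ∫⁻ x in Omega e k1 l1, ENNReal.ofReal (‖F x - h x‖ ^ 2) = ⊤ := by
      simpa using hcon
    rw [h1, ENNReal.mul_top (ENNReal.ofReal_pos.2 hlam'p).ne'] at hmain
    exact absurd (lt_of_le_of_lt hmain hfin) (lt_irrefl _)
  have hFhm : AEStronglyMeasurable (fun x => F x - h x) (volume.restrict (Omega e k1 l1)) :=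
    (hFc.measurable.sub hhm).aestronglyMeasurable
  have hFhm2 : AEStronglyMeasurable (fun x => ‖F x - h x‖ ^ 2)
      (volume.restrict (Omega e k1 l1)) := hFhm.norm.pow 2
  have hFhi : IntegrableOn (fun x => ‖F x - h x‖ ^ 2) (Omega e k1 l1) := by
    refine ⟨hFhm2, ?_⟩
    rw [hasFiniteIntegral_iff_ofReal (Filter.Eventually.of_forall (fun x => by positivity))]
    exact hFhfin
  refine ⟨h, ?_, ?_, ?_⟩
  · have h1 : MemLp (fun x => F x - h x) 2 (volume.restrict (Omega e k1 l1)) := by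
      rw [memLp_two_iff_integrable_sq_norm hFhm]
      exact hFhi
    have h2 := (bdd_memLp_pm _ hΩb F hFc).sub h1
    have h3 : (F - fun x => F x - h x) = h := by
      funext x
      simp
    rwa [h3] at h2
  · intro i φ hφ
    refine weak_hol (Omega e k1 l1) hΩo B hBo ?_ A hAm hhw j k i φ hφ
    intro x hx
    exact ((hMem e k1 l1 hp x).1 hx).1
  · have e1 : ∑ i, ∫ x in Omega e k1 l1, ‖dbar i F x‖ ^ 2 =
        ∫ x in Omega e k1 l1, ∑ i, ‖dbar i F x‖ ^ 2 := by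
      rw [integral_finsetSum]
      intro i _
      exact bdd_int_pm _ hΩb _ (by fun_prop)
    rw [e1]
    rw [integral_eq_lintegral_of_nonneg_ae (Filter.Eventually.of_forall (fun x => by positivity))
      hFhm2, integral_eq_lintegral_of_nonneg_ae
      (Filter.Eventually.of_forall (fun x => by positivity))
      (Continuous.aestronglyMeasurable (by fun_prop))]
    have e2 := ENNReal.toReal_mono hfin.ne hmain
    rwa [ENNReal.toReal_mul, ENNReal.toReal_ofReal hlam'p.le] at e2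

end DbarN.JPM
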