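import Pool.Agent.H314.DN.WSDefs

set_option autoImplicit false

open MeasureTheory Complex
open scoped ContDiff InnerProductSpace ENNReal ComplexConjugate

namespace DbarN.JE1

/-! ### basic lemmas on smooth functions and directional derivatives -/

/-- directional derivative -/
noncomputable def Dv (w : E3) (v : E3 → ℂ) (x : E3) : ℂ := fderiv ℝ v x w

theorem Dv_smooth {v : E3 → ℂ} (hv : ContDiff ℝ ∞ v) (w : E3) : ContDiff ℝ ∞ (Dv w v) := by
  unfold Dv
  exact (hv.fderiv_right (m := ∞) (by norm_num)).clm_apply contDiff_const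

theorem Dv_compact {v : E3 → ℂ} (hv : HasCompactSupport v) (w : E3) :
    HasCompactSupport (Dv w v) := by
  unfold Dv
  exact hv.fderiv_apply ℝ w

theorem smooth_diff {v : E3 → ℂ} (hv : ContDiff ℝ ∞ v) : Differentiable ℝ v :=
  hv.differentiable (by norm_num)

theorem Dv_lin {a b : E3 → ℂ} (ha : ContDiff ℝ ∞ a) (hb : ContDiff ℝ ∞ b) (c d : ℂ) (w x : E3) :
    Dv w (fun x => c * (a x + d * b x)) x = c * (Dv w a x + d * Dv w b x) := by
  unfold Dv
  have h1 : HasFDerivAt (fun x => c * (a x + d * b x))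
      (c • (fderiv ℝ a x + d • fderiv ℝ b x)) x :=
    (((smooth_diff ha) x).hasFDerivAt.add (((smooth_diff hb) x).hasFDerivAt.const_mul d)).const_mul c
  rw [h1.fderiv]
  simp
  ring

theorem Dv_mul {a b : E3 → ℂ} (ha : ContDiff ℝ ∞ a) (hb : ContDiff ℝ ∞ b) (w x : E3) :
    Dv w (fun x => a x * b x) x = Dv w a x * b x + a x * Dv w b x := by
  unfold Dv
  have h1 : HasFDerivAt (fun x => a x * b x) (a x • fderiv ℝ b x + b x • fderiv ℝ a x) x :=
    ((smooth_diff ha) x).hasFDerivAt.mul ((smooth_diff hb) x).hasFDerivAt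
  rw [h1.fderiv]
  simp
  ring

theorem Dv_add {a b : E3 → ℂ} (ha : ContDiff ℝ ∞ a) (hb : ContDiff ℝ ∞ b) (w x : E3) :
    Dv w (fun x => a x + b x) x = Dv w a x + Dv w b x := by
  unfold Dv
  have h1 : HasFDerivAt (fun x => a x + b x) (fderiv ℝ a x + fderiv ℝ b x) x :=
    ((smooth_diff ha) x).hasFDerivAt.add ((smooth_diff hb) x).hasFDerivAt
  rw [h1.fderiv]
  simp

theorem Dv_conj {a : E3 → ℂ} (ha : ContDiff ℝ ∞ a) (w x : E3) :
    Dv w (fun x => conj (a x)) x = conj (Dv w a x) := by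
  unfold Dv
  have h1 : HasFDerivAt (fun x => conj (a x))
      ((Complex.conjCLE : ℂ →L[ℝ] ℂ).comp (fderiv ℝ a x)) x :=
    (Complex.conjCLE : ℂ →L[ℝ] ℂ).hasFDerivAt.comp x ((smooth_diff ha) x).hasFDerivAt
  rw [h1.fderiv]
  simp

theorem Dv_comm {a : E3 → ℂ} (ha : ContDiff ℝ ∞ a) (w u x : E3) :
    Dv w (Dv u a) x = Dv u (Dv w a) x := by
  have h0 : Differentiable ℝ (fderiv ℝ a) :=
    (ha.fderiv_right (m := ∞) (by norm_num)).differentiable (by norm_num)
  have h1 : ∀ w u : E3, Dv w (Dv u a) x = fderiv ℝ (fderiv ℝ a) x w u := by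
    intro w u
    unfold Dv
    have h2 : HasFDerivAt (fun x => fderiv ℝ a x u)
        ((ContinuousLinearMap.apply ℝ ℂ u).comp (fderiv ℝ (fderiv ℝ a) x)) x :=
      (ContinuousLinearMap.apply ℝ ℂ u).hasFDerivAt.comp x (h0 x).hasFDerivAt
    rw [h2.fderiv]
    simp
  rw [h1, h1]
  have h3 : IsSymmSndFDerivAt ℝ a x := by
    apply ContDiffAt.isSymmSndFDerivAt (n := ∞) ha.contDiffAt
    rw [minSmoothness_of_isRCLikeNormedField]
    exact WithTop.coe_le_coe.2 le_top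
  exact h3 w u

theorem dbar_eq (j : Fin 3) (v : E3 → ℂ) :
    dbar j v = fun x => (1 / 2) * (Dv (Pi.single j 1) v x + I * Dv (Pi.single j I) v x) := rfl

theorem dz_eq (j : Fin 3) (v : E3 → ℂ) :
    dz j v = fun x => (1 / 2) * (Dv (Pi.single j 1) v x + (-I) * Dv (Pi.single j I) v x) := by
  funext x
  unfold dz Dv
  ring

theorem dbar_smooth {v : E3 → ℂ} (hv : ContDiff ℝ ∞ v) (j : Fin 3) : ContDiff ℝ ∞ (dbar j v) := by
  rw [dbar_eq]
  exact contDiff_const.mul ((Dv_smooth hv _).add (contDiff_const.mul (Dv_smooth hv _)))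

theorem dz_smooth {v : E3 → ℂ} (hv : ContDiff ℝ ∞ v) (j : Fin 3) : ContDiff ℝ ∞ (dz j v) := by
  rw [dz_eq]
  exact contDiff_const.mul ((Dv_smooth hv _).add (contDiff_const.mul (Dv_smooth hv _)))

theorem dbar_dz_comm {v : E3 → ℂ} (hv : ContDiff ℝ ∞ v) (j k : Fin 3) (x : E3) :
    dbar k (dz j v) x = dz j (dbar k v) x := by
  have h1 : dbar k (dz j v) x = (1 / 2) * (Dv (Pi.single k 1) (dz j v) x
      + I * Dv (Pi.single k I) (dz j v) x) := rfl
  have h2 : dz j (dbar k v) x = (1 / 2) * (Dv (Pi.single j 1) (dbar k v) x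
      + (-I) * Dv (Pi.single j I) (dbar k v) x) := by rw [dz_eq]
  rw [h1, h2, dz_eq, dbar_eq]
  rw [Dv_lin (Dv_smooth hv _) (Dv_smooth hv _), Dv_lin (Dv_smooth hv _) (Dv_smooth hv _),
    Dv_lin (Dv_smooth hv _) (Dv_smooth hv _), Dv_lin (Dv_smooth hv _) (Dv_smooth hv _)]
  rw [Dv_comm hv (Pi.single k 1) (Pi.single j 1), Dv_comm hv (Pi.single k 1) (Pi.single j I),
    Dv_comm hv (Pi.single k I) (Pi.single j 1), Dv_comm hv (Pi.single k I) (Pi.single j I)]
  ring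

theorem dbar_mul {a b : E3 → ℂ} (ha : ContDiff ℝ ∞ a) (hb : ContDiff ℝ ∞ b) (j : Fin 3) (x : E3) :
    dbar j (fun x => a x * b x) x = dbar j a x * b x + a x * dbar j b x := by
  simp only [dbar_eq]
  rw [Dv_mul ha hb, Dv_mul ha hb]
  ring

theorem dz_mul {a b : E3 → ℂ} (ha : ContDiff ℝ ∞ a) (hb : ContDiff ℝ ∞ b) (j : Fin 3) (x : E3) :
    dz j (fun x => a x * b x) x = dz j a x * b x + a x * dz j b x := by
  simp only [dz_eq]
  rw [Dv_mul ha hb, Dv_mul ha hb]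
  ring

theorem dbar_lin {a b : E3 → ℂ} (ha : ContDiff ℝ ∞ a) (hb : ContDiff ℝ ∞ b) (c d : ℂ) (j : Fin 3)
    (x : E3) : dbar j (fun x => c * (a x + d * b x)) x = c * (dbar j a x + d * dbar j b x) := by
  simp only [dbar_eq]
  rw [Dv_lin ha hb, Dv_lin ha hb]
  ring

theorem dz_lin {a b : E3 → ℂ} (ha : ContDiff ℝ ∞ a) (hb : ContDiff ℝ ∞ b) (c d : ℂ) (j : Fin 3)
    (x : E3) : dz j (fun x => c * (a x + d * b x)) x = c * (dz j a x + d * dz j b x) := by
  simp only [dz_eq]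
  rw [Dv_lin ha hb, Dv_lin ha hb]
  ring

theorem conj_smooth {a : E3 → ℂ} (ha : ContDiff ℝ ∞ a) : ContDiff ℝ ∞ (fun x => conj (a x)) :=
  (Complex.conjCLE : ℂ →L[ℝ] ℂ).contDiff.comp ha

theorem dbar_conj {a : E3 → ℂ} (ha : ContDiff ℝ ∞ a) (j : Fin 3) (x : E3) :
    dbar j (fun x => conj (a x)) x = conj (dz j a x) := by
  simp only [dbar_eq, dz_eq]
  have h2 : (starRingEnd ℂ) (1 / 2 : ℂ) = 1 / 2 := by
    rw [map_div₀, map_one, map_ofNat]
  rw [Dv_conj ha, Dv_conj ha, map_mul, h2, map_add, map_mul, map_neg, conj_I, neg_neg]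

theorem Ph_smooth {Φ : E3 → ℝ} (hΦ : ContDiff ℝ ∞ Φ) : ContDiff ℝ ∞ (Ph Φ) :=
  Complex.ofRealCLM.contDiff.comp hΦ

theorem dbar_Ph {Φ : E3 → ℝ} (hΦ : ContDiff ℝ ∞ Φ) (j : Fin 3) (x : E3) :
    dbar j (Ph Φ) x = conj (dz j (Ph Φ) x) := by
  rw [← dbar_conj (Ph_smooth hΦ)]
  congr 1
  funext y
  simp [Ph]

/-- smooth with compact support -/
structure Tst (a : E3 → ℂ) : Prop where
  sm : ContDiff ℝ ∞ a
  cp : HasCompactSupport a

theorem Tst.dbar {a : E3 → ℂ} (h : Tst a) (j : Fin 3) : Tst (dbar j a) := by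
  refine ⟨dbar_smooth h.sm j, ?_⟩
  rw [dbar_eq]
  have h1 : HasCompactSupport (fun x => Dv (Pi.single j 1) a x + I * Dv (Pi.single j I) a x) :=
    (Dv_compact h.cp _).add ((Dv_compact h.cp _).mul_left (f := fun _ => I))
  exact h1.mul_left (f := fun _ => (1 / 2 : ℂ))

theorem Tst.dz {a : E3 → ℂ} (h : Tst a) (j : Fin 3) : Tst (dz j a) := by
  refine ⟨dz_smooth h.sm j, ?_⟩
  rw [dz_eq]
  have h1 : HasCompactSupport (fun x => Dv (Pi.single j 1) a x + (-I) * Dv (Pi.single j I) a x) :=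
    (Dv_compact h.cp _).add ((Dv_compact h.cp _).mul_left (f := fun _ => -I))
  exact h1.mul_left (f := fun _ => (1 / 2 : ℂ))

theorem Tst.mulL {a f : E3 → ℂ} (h : Tst a) (hf : ContDiff ℝ ∞ f) : Tst (fun x => f x * a x) :=
  ⟨hf.mul h.sm, h.cp.mul_left⟩

theorem Tst.add {a b : E3 → ℂ} (h : Tst a) (h' : Tst b) : Tst (fun x => a x + b x) :=
  ⟨h.sm.add h'.sm, h.cp.add h'.cp⟩

theorem Tst.neg {a : E3 → ℂ} (h : Tst a) : Tst (fun x => - a x) :=
  ⟨h.sm.neg, h.cp.neg⟩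

theorem Tst.conj {a : E3 → ℂ} (h : Tst a) : Tst (fun x => conj (a x)) :=
  ⟨conj_smooth h.sm, h.cp.comp_left (g := fun z : ℂ => (starRingEnd ℂ) z) (map_zero _)⟩

theorem Tst.integrable {a b : E3 → ℂ} (h : Tst a) (hb : Continuous b) :
    Integrable (fun x => a x * b x) :=
  (h.sm.continuous.mul hb).integrable_of_hasCompactSupport h.cp.mul_right

theorem Tst.integrable' {a b : E3 → ℂ} (h : Tst a) (hb : Continuous b) :
    Integrable (fun x => b x * a x) :=
  (hb.mul h.sm.continuous).integrable_of_hasCompactSupport h.cp.mul_left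

theorem AA_eq (Φ : E3 → ℝ) (j : Fin 3) (v : E3 → ℂ) :
    AA Φ j v = fun x => dbar j v x + ((1 / 2) * dbar j (Ph Φ) x) * v x := rfl

theorem AS_eq (Φ : E3 → ℝ) (j : Fin 3) (v : E3 → ℂ) :
    AS Φ j v = fun x => - dz j v x + ((1 / 2) * dz j (Ph Φ) x) * v x := rfl

theorem Tst.AA {Φ : E3 → ℝ} (hΦ : ContDiff ℝ ∞ Φ) {a : E3 → ℂ} (h : Tst a) (j : Fin 3) :
    Tst (AA Φ j a) := by
  rw [AA_eq]
  exact (h.dbar j).add (h.mulL (contDiff_const.mul (dbar_smooth (Ph_smooth hΦ) j)))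

theorem Tst.AS {Φ : E3 → ℝ} (hΦ : ContDiff ℝ ∞ Φ) {a : E3 → ℂ} (h : Tst a) (j : Fin 3) :
    Tst (AS Φ j a) := by
  rw [AS_eq]
  exact (h.dz j).neg.add (h.mulL (contDiff_const.mul (dz_smooth (Ph_smooth hΦ) j)))

/-- integration by parts for the directional derivatives -/
theorem Dv_ibp {a b : E3 → ℂ} (ha : Tst a) (hb : Tst b) (w : E3) :
    ∫ x, a x * Dv w b x = - ∫ x, Dv w a x * b x := by
  unfold Dv
  apply integral_mul_fderiv_eq_neg_fderiv_mul_of_integrable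
  · exact hb.integrable' (Dv_smooth ha.sm w).continuous
  · exact ha.integrable (Dv_smooth hb.sm w).continuous
  · exact ha.integrable hb.sm.continuous
  · intro x _
    exact (smooth_diff ha.sm) x
  · intro x _
    exact (smooth_diff hb.sm) x

theorem Tst.Dv {a : E3 → ℂ} (h : Tst a) (w : E3) : Tst (Dv w a) :=
  ⟨Dv_smooth h.sm w, Dv_compact h.cp w⟩

/-- integration by parts for `∂̄_j` -/
theorem dbar_ibp {a b : E3 → ℂ} (ha : Tst a) (hb : Tst b) (j : Fin 3) :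
    ∫ x, dbar j a x * b x = - ∫ x, a x * dbar j b x := by
  have h1 : ∀ w, ∫ x, Dv w a x * b x = - ∫ x, a x * Dv w b x := by
    intro w
    rw [Dv_ibp ha hb w, neg_neg]
  have e1 : ∫ x, dbar j a x * b x = (1 / 2) * ((∫ x, Dv (Pi.single j 1) a x * b x)
      + I * ∫ x, Dv (Pi.single j I) a x * b x) := by
    rw [← integral_const_mul, ← integral_add, ← integral_const_mul]
    · congr 1
      funext x
      rw [dbar_eq]
      ring
    · exact (ha.Dv _).integrable hb.sm.continuous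
    · exact ((ha.Dv _).integrable hb.sm.continuous).const_mul I
  have e2 : ∫ x, a x * dbar j b x = (1 / 2) * ((∫ x, a x * Dv (Pi.single j 1) b x)
      + I * ∫ x, a x * Dv (Pi.single j I) b x) := by
    rw [← integral_const_mul, ← integral_add, ← integral_const_mul]
    · congr 1
      funext x
      rw [dbar_eq]
      ring
    · exact ha.integrable (hb.Dv _).sm.continuous
    · exact (ha.integrable (hb.Dv _).sm.continuous).const_mul I
  rw [e1, e2, h1, h1]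
  ring

/-- `A_j^*` is the formal adjoint of `A_j` -/
theorem AA_adj {Φ : E3 → ℝ} (hΦ : ContDiff ℝ ∞ Φ) {a b : E3 → ℂ} (ha : Tst a) (hb : Tst b)
    (j : Fin 3) : ∫ x, AA Φ j a x * conj (b x) = ∫ x, a x * conj (AS Φ j b x) := by
  have hP := dbar_smooth (Ph_smooth hΦ) j
  have h1 : ∀ x, AA Φ j a x * conj (b x) = dbar j a x * conj (b x)
      + a x * ((1 / 2) * dbar j (Ph Φ) x * conj (b x)) := by
    intro x
    rw [AA_eq]
    ring
  have h2 : ∀ x, a x * conj (AS Φ j b x) = - (a x * dbar j (fun y => conj (b y)) x)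
      + a x * ((1 / 2) * dbar j (Ph Φ) x * conj (b x)) := by
    intro x
    have h3 : (starRingEnd ℂ) (1 / 2 : ℂ) = 1 / 2 := by
      rw [map_div₀, map_one, map_ofNat]
    rw [AS_eq, dbar_conj hb.sm, map_add, map_neg, map_mul, map_mul, h3, ← dbar_Ph hΦ]
    ring
  have i1 : Integrable (fun x => a x * ((1 / 2) * dbar j (Ph Φ) x * conj (b x))) :=
    ha.integrable ((continuous_const.mul hP.continuous).mul hb.conj.sm.continuous)
  have i2 : Integrable (fun x => dbar j a x * conj (b x)) :=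
    (ha.dbar j).integrable hb.conj.sm.continuous
  have i3 : Integrable (fun x => a x * dbar j (fun y => conj (b y)) x) :=
    ha.integrable (hb.conj.dbar j).sm.continuous
  have i4 : Integrable (fun x => -(a x * dbar j (fun y => conj (b y)) x)) := i3.neg
  simp only [h1, h2]
  rw [integral_add i2 i1, integral_add i4 i1, integral_neg, dbar_ibp ha hb.conj j]

theorem AS_adj {Φ : E3 → ℝ} (hΦ : ContDiff ℝ ∞ Φ) {a b : E3 → ℂ} (ha : Tst a) (hb : Tst b)
    (j : Fin 3) : ∫ x, AS Φ j a x * conj (b x) = ∫ x, a x * conj (AA Φ j b x) := by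
  have h1 := congrArg (starRingEnd ℂ) (AA_adj hΦ hb ha j)
  rw [← integral_conj, ← integral_conj] at h1
  have h2 : ∀ x, (starRingEnd ℂ) (AA Φ j b x * (starRingEnd ℂ) (a x))
      = a x * conj (AA Φ j b x) := by
    intro x
    rw [map_mul, conj_conj, mul_comm]
  have h3 : ∀ x, (starRingEnd ℂ) (b x * (starRingEnd ℂ) (AS Φ j a x))
      = AS Φ j a x * conj (b x) := by
    intro x
    rw [map_mul, conj_conj, mul_comm]
  simp only [h2, h3] at h1
  exact h1.symm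

/-- the commutator of `A_k` and `A_j^*` -/
theorem AA_AS_comm {Φ : E3 → ℝ} (hΦ : ContDiff ℝ ∞ Φ) {v : E3 → ℂ} (hv : ContDiff ℝ ∞ v)
    (j k : Fin 3) (x : E3) :
    AA Φ k (AS Φ j v) x = AS Φ j (AA Φ k v) x + Hess Φ j k x * v x := by
  have hP := Ph_smooth hΦ
  have e1 : AS Φ j v = fun x => (-1) * (dz j v x + (-1 / 2) * (dz j (Ph Φ) x * v x)) := by
    funext x; rw [AS_eq]; ring
  have e2 : AA Φ k v = fun x => 1 * (dbar k v x + (1 / 2) * (dbar k (Ph Φ) x * v x)) := by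
    funext x; rw [AA_eq]; ring
  have s1 : ContDiff ℝ ∞ (fun x => dz j (Ph Φ) x * v x) := (dz_smooth hP j).mul hv
  have s2 : ContDiff ℝ ∞ (fun x => dbar k (Ph Φ) x * v x) := (dbar_smooth hP k).mul hv
  have h1 : dbar k (AS Φ j v) x = (-1) * (dbar k (dz j v) x + (-1 / 2) *
      (dbar k (dz j (Ph Φ)) x * v x + dz j (Ph Φ) x * dbar k v x)) := by
    rw [e1, dbar_lin (dz_smooth hv j) s1, dbar_mul (dz_smooth hP j) hv]
  have h2 : dz j (AA Φ k v) x = 1 * (dz j (dbar k v) x + (1 / 2) *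
      (dz j (dbar k (Ph Φ)) x * v x + dbar k (Ph Φ) x * dz j v x)) := by
    rw [e2, dz_lin (dbar_smooth hv k) s2, dz_mul (dbar_smooth hP k) hv]
  have h3 : AA Φ k (AS Φ j v) x
      = dbar k (AS Φ j v) x + (1 / 2) * dbar k (Ph Φ) x * AS Φ j v x := rfl
  have h4 : AS Φ j (AA Φ k v) x
      = - dz j (AA Φ k v) x + (1 / 2) * dz j (Ph Φ) x * AA Φ k v x := rfl
  rw [h3, h4, h1, h2, e1, e2, dbar_dz_comm hv, dbar_dz_comm hP]
  unfold Hess
  ring

/-- the basic identity -/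
theorem AS_AS {Φ : E3 → ℝ} (hΦ : ContDiff ℝ ∞ Φ) {v w : E3 → ℂ} (hv : Tst v) (hw : Tst w)
    (j k : Fin 3) : ∫ x, AS Φ j v x * conj (AS Φ k w x)
      = (∫ x, AA Φ k v x * conj (AA Φ j w x)) + ∫ x, Hess Φ j k x * v x * conj (w x) := by
  have hH : ContDiff ℝ ∞ (Hess Φ j k) := dz_smooth (dbar_smooth (Ph_smooth hΦ) k) j
  rw [← AA_adj hΦ (hv.AS hΦ j) hw k, ← AS_adj hΦ (hv.AA hΦ k) hw j, ← integral_add]
  · congr 1
    funext x
    rw [AA_AS_comm hΦ hv.sm]
    ring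
  · exact ((hv.AA hΦ k).AS hΦ j).integrable hw.conj.sm.continuous
  · exact (hv.mulL hH).integrable hw.conj.sm.continuous

theorem kohn1 (Φ : E3 → ℝ) (hΦ : ContDiff ℝ ∞ Φ) (c : ℝ)
    (hH : ∀ x (a : Fin 3 → ℂ), c * ∑ j, ‖a j‖ ^ 2 ≤
      (∑ j, ∑ k, Hess Φ j k x * a j * conj (a k)).re)
    (v : Fin 3 → E3 → ℂ) (hv : ∀ j, IsTest Set.univ (v j)) :
    c * ∑ j, ∫ x, ‖v j x‖ ^ 2 ≤ (∫ x, ‖∑ j, AS Φ j (v j) x‖ ^ 2) +
      ∑ i : Fin 3, ∫ x, ‖AA Φ (i + 1) (v (i + 2)) x - AA Φ (i + 2) (v (i + 1)) x‖ ^ 2 := by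
  have hT : ∀ j, Tst (v j) := fun j => ⟨(hv j).smooth, (hv j).compact⟩
  have hB : ∀ j k, Tst (AA Φ j (v k)) := fun j k => (hT k).AA hΦ j
  have hS : ∀ j, Tst (AS Φ j (v j)) := fun j => (hT j).AS hΦ j
  have hHs : ∀ j k, ContDiff ℝ ∞ (Hess Φ j k) := fun j k =>
    dz_smooth (dbar_smooth (Ph_smooth hΦ) k) j
  have hsq : ∀ z : ℂ, ((‖z‖ ^ 2 : ℝ) : ℂ) = z * conj z := by
    intro z
    rw [Complex.mul_conj, Complex.normSq_eq_norm_sq]
  -- the first term
  have E1 : (((∫ x, ‖∑ j, AS Φ j (v j) x‖ ^ 2 : ℝ)) : ℂ)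
      = ∑ j, ∑ k, ∫ x, AS Φ j (v j) x * conj (AS Φ k (v k) x) := by
    rw [← integral_complex_ofReal]
    have h1 : ∀ x, ((‖∑ j, AS Φ j (v j) x‖ ^ 2 : ℝ) : ℂ)
        = ∑ j, ∑ k, AS Φ j (v j) x * conj (AS Φ k (v k) x) := by
      intro x
      rw [hsq, map_sum, Finset.sum_mul_sum]
    simp only [h1]
    rw [integral_finsetSum]
    · apply Finset.sum_congr rfl
      intro j _
      rw [integral_finsetSum]
      intro k _
      exact (hS j).integrable (hS k).conj.sm.continuous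
    · intro j _
      apply integrable_finsetSum
      intro k _
      exact (hS j).integrable (hS k).conj.sm.continuous
  -- the second term
  have hBB : ∀ j k j' k', Integrable (fun x => AA Φ j (v k) x * conj (AA Φ j' (v k') x)) :=
    fun j k j' k' => (hB j k).integrable (hB j' k').conj.sm.continuous
  have E2 : (((∑ i : Fin 3, ∫ x, ‖AA Φ (i + 1) (v (i + 2)) x
      - AA Φ (i + 2) (v (i + 1)) x‖ ^ 2 : ℝ)) : ℂ)
      = ∑ j, ∑ k, ((∫ x, AA Φ j (v k) x * conj (AA Φ j (v k) x))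
        - ∫ x, AA Φ k (v j) x * conj (AA Φ j (v k) x)) := by
    have h1 : ∀ i : Fin 3, (((∫ x, ‖AA Φ (i + 1) (v (i + 2)) x
        - AA Φ (i + 2) (v (i + 1)) x‖ ^ 2 : ℝ)) : ℂ)
        = (∫ x, AA Φ (i + 1) (v (i + 2)) x * conj (AA Φ (i + 1) (v (i + 2)) x))
          - (∫ x, AA Φ (i + 1) (v (i + 2)) x * conj (AA Φ (i + 2) (v (i + 1)) x))
          - (∫ x, AA Φ (i + 2) (v (i + 1)) x * conj (AA Φ (i + 1) (v (i + 2)) x))
          + (∫ x, AA Φ (i + 2) (v (i + 1)) x * conj (AA Φ (i + 2) (v (i + 1)) x)) := by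
      intro i
      have g1 : Integrable (fun x => AA Φ (i + 1) (v (i + 2)) x * conj (AA Φ (i + 1) (v (i + 2)) x)
          - AA Φ (i + 1) (v (i + 2)) x * conj (AA Φ (i + 2) (v (i + 1)) x)) :=
        (hBB _ _ _ _).sub (hBB _ _ _ _)
      have g2 : Integrable (fun x => AA Φ (i + 1) (v (i + 2)) x * conj (AA Φ (i + 1) (v (i + 2)) x)
          - AA Φ (i + 1) (v (i + 2)) x * conj (AA Φ (i + 2) (v (i + 1)) x)
          - AA Φ (i + 2) (v (i + 1)) x * conj (AA Φ (i + 1) (v (i + 2)) x)) :=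
        g1.sub (hBB _ _ _ _)
      have g3 : ∀ x, ((‖AA Φ (i + 1) (v (i + 2)) x - AA Φ (i + 2) (v (i + 1)) x‖ ^ 2 : ℝ) : ℂ)
          = (AA Φ (i + 1) (v (i + 2)) x * conj (AA Φ (i + 1) (v (i + 2)) x)
          - AA Φ (i + 1) (v (i + 2)) x * conj (AA Φ (i + 2) (v (i + 1)) x)
          - AA Φ (i + 2) (v (i + 1)) x * conj (AA Φ (i + 1) (v (i + 2)) x))
          + AA Φ (i + 2) (v (i + 1)) x * conj (AA Φ (i + 2) (v (i + 1)) x) := by
        intro x
        rw [hsq, map_sub]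
        ring
      rw [← integral_complex_ofReal]
      simp only [g3]
      rw [integral_add g2 (hBB _ _ _ _), integral_sub g1 (hBB _ _ _ _),
        integral_sub (hBB _ _ _ _) (hBB _ _ _ _)]
    push_cast
    simp only [h1, Fin.sum_univ_three]
    have f1 : (0 : Fin 3) + 1 = 1 := rfl
    have f2 : (0 : Fin 3) + 2 = 2 := rfl
    have f3 : (1 : Fin 3) + 1 = 2 := rfl
    have f4 : (1 : Fin 3) + 2 = 0 := rfl
    have f5 : (2 : Fin 3) + 1 = 0 := rfl
    have f6 : (2 : Fin 3) + 2 = 1 := rfl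
    simp only [f1, f2, f3, f4, f5, f6]
    ring
  -- the sum
  have E3 : ∑ j, ∑ k, ∫ x, AS Φ j (v j) x * conj (AS Φ k (v k) x)
      = (∑ j, ∑ k, ∫ x, AA Φ k (v j) x * conj (AA Φ j (v k) x))
        + ∑ j, ∑ k, ∫ x, Hess Φ j k x * v j x * conj (v k x) := by
    rw [← Finset.sum_add_distrib]
    apply Finset.sum_congr rfl
    intro j _
    rw [← Finset.sum_add_distrib]
    apply Finset.sum_congr rfl
    intro k _
    exact AS_AS hΦ (hT j) (hT k) j k
  have hHI : ∀ j k, Integrable (fun x => Hess Φ j k x * v j x * conj (v k x)) := fun j k =>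
    ((hT j).mulL (hHs j k)).integrable (hT k).conj.sm.continuous
  have hSI : Integrable (fun x => ∑ j, ∑ k, Hess Φ j k x * v j x * conj (v k x)) := by
    apply integrable_finsetSum
    intro j _
    apply integrable_finsetSum
    intro k _
    exact hHI j k
  have E4 : c * ∑ j, ∫ x, ‖v j x‖ ^ 2
      ≤ (∑ j, ∑ k, ∫ x, Hess Φ j k x * v j x * conj (v k x)).re := by
    have h1 : ∀ j, Integrable (fun x => ‖v j x‖ ^ 2) := by
      intro j
      have h2 : Integrable (fun x => ((v j x * conj (v j x)).re)) :=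
        ((hT j).integrable (hT j).conj.sm.continuous).re
      refine h2.congr ?_
      filter_upwards with x
      rw [← hsq, Complex.ofReal_re]
    have h2 : c * ∑ j, ∫ x, ‖v j x‖ ^ 2 = ∫ x, c * ∑ j, ‖v j x‖ ^ 2 := by
      rw [integral_const_mul, integral_finsetSum]
      intro j _
      exact h1 j
    have h3 : ∑ j, ∑ k, ∫ x, Hess Φ j k x * v j x * conj (v k x)
        = ∫ x, ∑ j, ∑ k, Hess Φ j k x * v j x * conj (v k x) := by
      rw [integral_finsetSum]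
      · apply Finset.sum_congr rfl
        intro j _
        rw [integral_finsetSum]
        intro k _
        exact hHI j k
      · intro j _
        apply integrable_finsetSum
        intro k _
        exact hHI j k
    rw [h2, h3]
    have h4 : (∫ x, ∑ j, ∑ k, Hess Φ j k x * v j x * conj (v k x)).re
        = ∫ x, (∑ j, ∑ k, Hess Φ j k x * v j x * conj (v k x)).re :=
      (integral_re hSI).symm
    rw [h4]
    apply integral_mono
    · exact (integrable_finsetSum _ (fun j _ => h1 j)).const_mul c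
    · exact hSI.re
    · intro x
      exact hH x (fun j => v j x)
  have E5 : 0 ≤ (∑ j, ∑ k, ∫ x, AA Φ j (v k) x * conj (AA Φ j (v k) x)).re := by
    rw [Complex.re_sum]
    apply Finset.sum_nonneg
    intro j _
    rw [Complex.re_sum]
    apply Finset.sum_nonneg
    intro k _
    have h1 : (∫ x, AA Φ j (v k) x * conj (AA Φ j (v k) x)).re
        = ∫ x, (AA Φ j (v k) x * conj (AA Φ j (v k) x)).re := (integral_re (hBB j k j k)).symm
    rw [h1]
    apply integral_nonneg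
    intro x
    show 0 ≤ (AA Φ j (v k) x * conj (AA Φ j (v k) x)).re
    rw [← hsq, Complex.ofReal_re]
    positivity
  have E6 : (∫ x, ‖∑ j, AS Φ j (v j) x‖ ^ 2) +
      ∑ i : Fin 3, ∫ x, ‖AA Φ (i + 1) (v (i + 2)) x - AA Φ (i + 2) (v (i + 1)) x‖ ^ 2
      = (∑ j, ∑ k, ∫ x, AA Φ j (v k) x * conj (AA Φ j (v k) x)).re
        + (∑ j, ∑ k, ∫ x, Hess Φ j k x * v j x * conj (v k x)).re := by
    have h1 : (((∫ x, ‖∑ j, AS Φ j (v j) x‖ ^ 2) +
      ∑ i : Fin 3, ∫ x, ‖AA Φ (i + 1) (v (i + 2)) x - AA Φ (i + 2) (v (i + 1)) x‖ ^ 2 : ℝ) : ℂ)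
      = (∑ j, ∑ k, ∫ x, AA Φ j (v k) x * conj (AA Φ j (v k) x))
        + (∑ j, ∑ k, ∫ x, Hess Φ j k x * v j x * conj (v k x)) := by
      rw [Complex.ofReal_add, E1, E2, E3]
      simp only [Finset.sum_sub_distrib]
      ring
    have h2 := congrArg Complex.re h1
    rw [Complex.ofReal_re, Complex.add_re] at h2
    exact h2
  rw [E6]
  linarith

end DbarN.JE1
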