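import Pool.Agent.H314.DN.Stmts
import Pool.Agent.H314.DN.A0
import Pool.Agent.H314.DN.A1

set_option autoImplicit false

open MeasureTheory Complex Filter Topology
open scoped ContDiff InnerProductSpace ENNReal ComplexConjugate

namespace DbarN.JG3

namespace G3

theorem dbar_supp {ψ : E3 → ℂ} (j : Fin 3) : Function.support (dbar j ψ) ⊆ tsupport ψ := by
  intro x hx
  by_contra h
  apply hx
  have h1 : fderiv ℝ ψ x = 0 := fderiv_of_notMem_tsupport (𝕜 := ℝ) h
  simp [dbar, h1]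

theorem dbar_smooth {ψ : E3 → ℂ} (h : ContDiff ℝ ∞ ψ) (j : Fin 3) : ContDiff ℝ ∞ (dbar j ψ) := by
  have h1 : ContDiff ℝ ∞ (fderiv ℝ ψ) := h.fderiv_right (m := ∞) (by simp)
  have h2 : ∀ v : E3, ContDiff ℝ ∞ (fun x => fderiv ℝ ψ x v) := fun v =>
    h1.clm_apply contDiff_const
  unfold dbar
  exact contDiff_const.mul ((h2 _).add (contDiff_const.mul (h2 _)))

theorem dbar_isTest {Ω : Set E3} {ψ : E3 → ℂ} (h : IsTest Ω ψ) (j : Fin 3) :
    IsTest Ω (dbar j ψ) :=
  ⟨dbar_smooth h.smooth j, h.compact.mono' (dbar_supp j),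
    (closure_minimal (dbar_supp j) (isClosed_tsupport _)).trans h.supp⟩

theorem test_add {Ω : Set E3} {ψ φ : E3 → ℂ} (h : IsTest Ω ψ) (h' : IsTest Ω φ) :
    IsTest Ω (ψ + φ) :=
  ⟨h.smooth.add h'.smooth, h.compact.add h'.compact,
    (tsupport_add ψ φ).trans (Set.union_subset h.supp h'.supp)⟩

theorem test_smul {Ω : Set E3} {ψ : E3 → ℂ} (c : ℂ) (h : IsTest Ω ψ) :
    IsTest Ω (c • ψ) :=
  ⟨contDiff_const.smul h.smooth, h.compact.smul_left (f := fun _ => c),
    (tsupport_smul_subset_right (fun _ => c) ψ).trans h.supp⟩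

theorem test_zero {Ω : Set E3} : IsTest Ω (0 : E3 → ℂ) :=
  ⟨contDiff_const, HasCompactSupport.zero, by simp⟩

theorem test_sub {Ω : Set E3} {ψ φ : E3 → ℂ} (h : IsTest Ω ψ) (h' : IsTest Ω φ) :
    IsTest Ω (fun x => ψ x - φ x) := by
  have := test_add h (test_smul (-1) h')
  convert this using 1
  ext x
  simp [sub_eq_add_neg]

theorem test_memLp {Ω : Set E3} {ψ : E3 → ℂ} (h : IsTest Ω ψ) :
    MemLp ψ 2 ((volume : Measure E3).restrict Ω) :=
  (h.smooth.continuous.memLp_of_hasCompactSupport h.compact (μ := volume)).restrict Ω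

theorem int_mul {ψ φ : E3 → ℂ} (hψ : Continuous ψ) (hc : HasCompactSupport ψ)
    (hφ : Continuous φ) : Integrable (fun x => ψ x * φ x) (volume : Measure E3) :=
  (hψ.mul hφ).integrable_of_hasCompactSupport hc.mul_right

theorem ibp {Ω Ω' : Set E3} {ψ φ : E3 → ℂ} (hψ : IsTest Ω ψ) (hφ : IsTest Ω' φ) (j : Fin 3) :
    ∫ x, ψ x * dbar j φ x = - ∫ x, dbar j ψ x * φ x := by
  have hdφ : ∀ v : E3, Continuous (fun x => fderiv ℝ φ x v) := fun v =>
    ((hφ.smooth.fderiv_right (m := ∞) (by simp)).clm_apply contDiff_const).continuous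
  have hdψ : ∀ v : E3, Continuous (fun x => fderiv ℝ ψ x v) := fun v =>
    ((hψ.smooth.fderiv_right (m := ∞) (by simp)).clm_apply contDiff_const).continuous
  have hcψ : ∀ v : E3, HasCompactSupport (fun x => fderiv ℝ ψ x v) := fun v =>
    hψ.compact.fderiv_apply (𝕜 := ℝ) v
  have I1 : ∀ v : E3, Integrable (fun x => fderiv ℝ ψ x v * φ x) (volume : Measure E3) :=
    fun v => int_mul (hdψ v) (hcψ v) hφ.smooth.continuous
  have I2 : ∀ v : E3, Integrable (fun x => ψ x * fderiv ℝ φ x v) (volume : Measure E3) :=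
    fun v => int_mul hψ.smooth.continuous hψ.compact (hdφ v)
  have key : ∀ v : E3, ∫ x, ψ x * fderiv ℝ φ x v = - ∫ x, fderiv ℝ ψ x v * φ x := by
    intro v
    apply integral_mul_fderiv_eq_neg_fderiv_mul_of_integrable (I1 v) (I2 v)
      (int_mul hψ.smooth.continuous hψ.compact hφ.smooth.continuous)
    · intro x _; exact (hψ.smooth.differentiable (by simp)) x
    · intro x _; exact (hφ.smooth.differentiable (by simp)) x
  have e1 : ∫ x, ψ x * dbar j φ x = (1 / 2) * (∫ x, ψ x * fderiv ℝ φ x (Pi.single j 1)) +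
      (I / 2) * (∫ x, ψ x * fderiv ℝ φ x (Pi.single j I)) := by
    rw [← integral_const_mul, ← integral_const_mul, ← integral_add ((I2 _).const_mul _)
      ((I2 _).const_mul _)]
    refine integral_congr_ae (Eventually.of_forall fun x => ?_)
    simp only [dbar]
    ring
  have e2 : ∫ x, dbar j ψ x * φ x = (1 / 2) * (∫ x, fderiv ℝ ψ x (Pi.single j 1) * φ x) +
      (I / 2) * (∫ x, fderiv ℝ ψ x (Pi.single j I) * φ x) := by
    rw [← integral_const_mul, ← integral_const_mul, ← integral_add ((I1 _).const_mul _)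
      ((I1 _).const_mul _)]
    refine integral_congr_ae (Eventually.of_forall fun x => ?_)
    simp only [dbar]
    ring
  rw [e1, e2, key, key]
  ring

/-- test functions in `L²` -/
def KT (Ω : Set E3) : Submodule ℂ (L2 Ω) where
  carrier := {f | ∃ ψ, IsTest Ω ψ ∧ (f : E3 → ℂ) =ᵐ[(volume : Measure E3).restrict Ω] ψ}
  add_mem' := by
    rintro f g ⟨ψ, h, h1⟩ ⟨φ, h', h2⟩
    exact ⟨ψ + φ, test_add h h', (Lp.coeFn_add f g).trans (h1.add h2)⟩
  zero_mem' := ⟨0, test_zero, Lp.coeFn_zero _ _ _⟩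
  smul_mem' := by
    rintro c f ⟨ψ, h, h1⟩
    exact ⟨c • ψ, test_smul c h, (Lp.coeFn_smul c f).trans (h1.const_smul c)⟩

theorem KT_dense (Ω : Set E3) (hΩ : IsOpen Ω) : Dense (KT Ω : Set (L2 Ω)) := by
  rw [Submodule.dense_iff_topologicalClosure_eq_top, Submodule.topologicalClosure_eq_top_iff,
    Submodule.eq_bot_iff]
  intro h hh
  have hli : LocallyIntegrableOn (h : E3 → ℂ) Ω (volume : Measure E3) :=
    locallyIntegrableOn_of_locallyIntegrable_restrict
      ((Lp.memLp h).locallyIntegrable (by norm_num))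
  have h1 : ∀ᵐ x ∂(volume : Measure E3), x ∈ Ω → (h : E3 → ℂ) x = 0 := by
    refine hΩ.ae_eq_zero_of_integral_contDiff_smul_eq_zero hli ?_
    intro g hg hgc hgs
    have ht : IsTest Ω (fun x => (g x : ℂ)) := by
      refine ⟨ofRealCLM.contDiff.comp hg, hgc.comp_left (g := fun r : ℝ => (r : ℂ)) (by simp),
        (tsupport_comp_subset (g := fun r : ℝ => (r : ℂ)) (by simp) g).trans hgs⟩
    have h2 := (Submodule.mem_orthogonal _ _).1 hh ((test_memLp ht).toLp _)
      ⟨_, ht, (test_memLp ht).coeFn_toLp⟩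
    rw [L2.inner_def] at h2
    rw [← h2, ← setIntegral_eq_integral_of_forall_compl_eq_zero (s := Ω)]
    · refine integral_congr_ae ?_
      filter_upwards [(test_memLp ht).coeFn_toLp] with x hx
      rw [hx]
      simp [mul_comm]
    · intro x hx
      have : g x = 0 := by
        by_contra h3
        exact hx (hgs (subset_tsupport g h3))
      simp [this]
  rw [Lp.eq_zero_iff_ae_eq_zero]
  exact (ae_restrict_iff' hΩ.measurableSet).2 h1

theorem int_Ω {Ω : Set E3} {ψ φ : E3 → ℂ} (hφ : IsTest Ω φ) :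
    ∫ x in Ω, ψ x * φ x = ∫ x, ψ x * φ x := by
  refine setIntegral_eq_integral_of_forall_compl_eq_zero fun x hx => ?_
  have : φ x = 0 := by
    by_contra h3
    exact hx (hφ.supp (subset_tsupport φ h3))
  simp [this]

theorem ibpΩ {Ω : Set E3} {ψ φ : E3 → ℂ} (hψ : IsTest Ω ψ) (hφ : IsTest Ω φ) (j : Fin 3) :
    ∫ x in Ω, ψ x * dbar j φ x = - ∫ x in Ω, dbar j ψ x * φ x := by
  rw [int_Ω (dbar_isTest hφ j), int_Ω hφ, ibp hψ hφ]

end G3

open G3 in
/-- pointwise derivatives of a test function are weak derivatives -/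
theorem dbar0_dense (Ω : Set E3) (hΩ : IsOpen Ω) : Dense {f : L2 Ω | ∃ g, IsDbar0 Ω f g} := by
  refine (KT_dense Ω hΩ).mono ?_
  rintro f ⟨ψ, hψ, hf⟩
  refine ⟨WithLp.toLp 2 (fun j => (test_memLp (dbar_isTest hψ j)).toLp _), ?_⟩
  intro j φ hφ
  have h1 : ∫ x in Ω, f x * dbar j φ x = ∫ x in Ω, ψ x * dbar j φ x := by
    refine integral_congr_ae ?_
    filter_upwards [hf] with x hx
    rw [hx]
  have h2 : ∫ x in Ω, ((test_memLp (dbar_isTest hψ j)).toLp (dbar j ψ) : E3 → ℂ) x * φ x =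
      ∫ x in Ω, dbar j ψ x * φ x := by
    refine integral_congr_ae ?_
    filter_upwards [(test_memLp (dbar_isTest hψ j)).coeFn_toLp] with x hx
    rw [hx]
  rw [h1, ibpΩ hψ hφ]
  exact congrArg Neg.neg h2.symm

open G3 in
theorem dbar1_dense (Ω : Set E3) (hΩ : IsOpen Ω) : Dense {u : Form Ω | ∃ c, IsDbar1 Ω u c} := by
  have hd : Dense (Set.pi Set.univ (fun _ : Fin 3 => (KT Ω : Set (L2 Ω)))) :=
    dense_pi _ fun _ _ => KT_dense Ω hΩ
  have hd2 := hd.preimage (PiLp.homeomorph 2 (fun _ : Fin 3 => L2 Ω)).isOpenMap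
  refine hd2.mono ?_
  intro u hu
  have hu' : ∀ j : Fin 3, ∃ ψ, IsTest Ω ψ ∧
      (u j : E3 → ℂ) =ᵐ[(volume : Measure E3).restrict Ω] ψ := fun j => hu j (Set.mem_univ j)
  choose ψ hψ hf using hu'
  have ht : ∀ i : Fin 3, IsTest Ω (fun x => dbar (i + 1) (ψ (i + 2)) x -
      dbar (i + 2) (ψ (i + 1)) x) := fun i =>
    test_sub (dbar_isTest (hψ _) _) (dbar_isTest (hψ _) _)
  refine ⟨WithLp.toLp 2 (fun i => (test_memLp (ht i)).toLp _), ?_⟩
  intro i φ hφ
  have I1 : ∀ j k : Fin 3, Integrable (fun x => ψ j x * dbar k φ x)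
      ((volume : Measure E3).restrict Ω) := fun j k =>
    (int_mul (hψ j).smooth.continuous (hψ j).compact
      (dbar_isTest hφ k).smooth.continuous).integrableOn
  have I2 : ∀ j k : Fin 3, Integrable (fun x => dbar k (ψ j) x * φ x)
      ((volume : Measure E3).restrict Ω) := fun j k =>
    (int_mul (dbar_isTest (hψ j) k).smooth.continuous (dbar_isTest (hψ j) k).compact
      hφ.smooth.continuous).integrableOn
  have h1 : ∫ x in Ω, (u (i + 2) x * dbar (i + 1) φ x - u (i + 1) x * dbar (i + 2) φ x) =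
      ∫ x in Ω, (ψ (i + 2) x * dbar (i + 1) φ x - ψ (i + 1) x * dbar (i + 2) φ x) := by
    refine integral_congr_ae ?_
    filter_upwards [hf (i + 2), hf (i + 1)] with x hx hx'
    rw [hx, hx']
  have h2 : ∫ x in Ω, ((test_memLp (ht i)).toLp _ : E3 → ℂ) x * φ x =
      ∫ x in Ω, (dbar (i + 1) (ψ (i + 2)) x - dbar (i + 2) (ψ (i + 1)) x) * φ x := by
    refine integral_congr_ae ?_
    filter_upwards [(test_memLp (ht i)).coeFn_toLp] with x hx
    rw [hx]
  have h3 : ∫ x in Ω, (dbar (i + 1) (ψ (i + 2)) x - dbar (i + 2) (ψ (i + 1)) x) * φ x =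
      (∫ x in Ω, dbar (i + 1) (ψ (i + 2)) x * φ x) - ∫ x in Ω, dbar (i + 2) (ψ (i + 1)) x * φ x := by
    rw [← integral_sub (I2 _ _) (I2 _ _)]
    refine integral_congr_ae (Eventually.of_forall fun x => ?_)
    simp only
    ring
  rw [h1, integral_sub (I1 _ _) (I1 _ _), ibpΩ (hψ _) hφ, ibpΩ (hψ _) hφ]
  refine Eq.trans ?_ (congrArg Neg.neg h2.symm)
  rw [h3]
  ring

end DbarN.JG3
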