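import Pool.Agent.H314.DN.Stmts4
import Pool.Agent.H314.DN.A0
import Pool.Agent.H314.DN.A1

set_option autoImplicit false

open MeasureTheory Complex Filter Topology
open scoped ContDiff InnerProductSpace ENNReal ComplexConjugate

namespace DbarN.JN2

/-- insert a coordinate -/
def nmIns (i : Fin 3) (w : ℂ) (y : Fin 2 → ℂ) : E3 := i.insertNth (α := fun _ => ℂ) w y

theorem nm_fubini (i : Fin 3) (g : E3 → ℝ) (hg : Integrable g (volume : Measure E3)) :
    Integrable (fun y : Fin 2 → ℂ => ∫ w : ℂ, g (nmIns i w y)) volume ∧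
    ∫ x, g x = ∫ y : Fin 2 → ℂ, ∫ w : ℂ, g (nmIns i w y) := by
  have hmp := MeasureTheory.volume_preserving_piFinSuccAbove (fun _ : Fin 3 => ℂ) i
  have h2 := hmp.symm (MeasurableEquiv.piFinSuccAbove (fun _ : Fin 3 => ℂ) i)
  have hint : Integrable (fun p : ℂ × (Fin 2 → ℂ) => g (nmIns i p.1 p.2)) (volume.prod volume) := by
    have := (h2.integrable_comp_emb (MeasurableEquiv.measurableEmbedding _)).mpr hg
    exact this
  refine ⟨hint.integral_prod_right, ?_⟩
  have h3 : ∫ p : ℂ × (Fin 2 → ℂ), g (nmIns i p.1 p.2) ∂(volume.prod volume) = ∫ x, g x :=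
    h2.integral_comp' g
  rw [← h3]
  exact MeasureTheory.integral_prod_symm _ hint

theorem nmIns_eq (i : Fin 3) (w w' : ℂ) (y : Fin 2 → ℂ) :
    nmIns i w y = Function.update (nmIns i w' y) i w := by
  unfold nmIns
  rw [Fin.update_insertNth]

theorem nmIns_same (i : Fin 3) (w : ℂ) (y : Fin 2 → ℂ) : nmIns i w y i = w := by
  unfold nmIns
  simp

theorem nm_hasFDerivAt (i : Fin 3) (y : Fin 2 → ℂ) (w : ℂ) :
    HasFDerivAt (fun w => nmIns i w y) (ContinuousLinearMap.pi (Pi.single i (ContinuousLinearMap.id ℝ ℂ)) : ℂ →L[ℝ] E3) w := by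
  have h := hasFDerivAt_update (𝕜 := ℝ) (E := fun _ : Fin 3 => ℂ) (nmIns i 0 y) (i := i) w
  have h2 : (fun w => nmIns i w y) = Function.update (nmIns i 0 y) i := by
    funext w; exact nmIns_eq i w 0 y
  rw [h2]
  exact h

theorem nm_contDiff (i : Fin 3) (y : Fin 2 → ℂ) : ContDiff ℝ ∞ (fun w => nmIns i w y) := by
  have h2 : (fun w => nmIns i w y) = Function.update (nmIns i 0 y) i := by
    funext w; exact nmIns_eq i w 0 y
  rw [h2]
  exact contDiff_update ∞ _ i

theorem nm_db1 (i : Fin 3) (y : Fin 2 → ℂ) (F : E3 → ℂ) (hF : ContDiff ℝ ∞ F) (w : ℂ) :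
    db1 (fun w => F (nmIns i w y)) w = dbar i F (nmIns i w y) := by
  have hd : DifferentiableAt ℝ F (nmIns i w y) := (hF.differentiable (by simp)).differentiableAt
  have h1 := hd.hasFDerivAt.comp w (nm_hasFDerivAt i y w)
  have h2 : fderiv ℝ (fun w => F (nmIns i w y)) w = (fderiv ℝ F (nmIns i w y)).comp
    (ContinuousLinearMap.pi (Pi.single i (ContinuousLinearMap.id ℝ ℂ)) : ℂ →L[ℝ] E3) := h1.fderiv
  have h3 : ∀ v : ℂ, (ContinuousLinearMap.pi (Pi.single i (ContinuousLinearMap.id ℝ ℂ)) : ℂ →L[ℝ] E3) v = Pi.single i v := by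
    intro v
    funext l
    by_cases hl : l = i
    · subst hl; simp
    · simp [hl]
  unfold db1 dbar
  rw [h2]
  simp only [ContinuousLinearMap.comp_apply]
  rw [h3, h3]

theorem nm_dbar_cont (i : Fin 3) (F : E3 → ℂ) (hF : ContDiff ℝ ∞ F) : Continuous (dbar i F) := by
  have h1 : Continuous (fderiv ℝ F) := hF.continuous_fderiv (by simp)
  unfold dbar
  exact continuous_const.mul ((h1.clm_apply continuous_const).add
    (continuous_const.mul (h1.clm_apply continuous_const)))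

theorem nm_slice (hN : Neg1_stmt) (Ω : Set E3) (hΩo : IsOpen Ω) (hΩb : Bornology.IsBounded Ω)
    (i : Fin 3) (a : ℝ) (j : ℤ) (hj : j < 0) (F : E3 → ℂ) (hF : ContDiff ℝ ∞ F)
    (hmode : ∀ (θ : ℝ) (x : E3), F (Function.update x i (Complex.exp (θ * I) * x i)) =
      Complex.exp (I * (j * θ)) * F x)
    (hS : ∀ x : E3, ∃ c : ℝ, ∀ w, Function.update x i w ∈ Ω ↔ ‖w‖ ^ 2 < c)
    (hA : ∀ x ∈ Ω, ‖x i‖ ^ 2 ≤ a ^ 2) :
    ∫ x in Ω, ‖F x‖ ^ 2 ≤ a ^ 2 * ∫ x in Ω, ‖dbar i F x‖ ^ 2 := by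
  have hmeas : MeasurableSet Ω := hΩo.measurableSet
  have hint : ∀ G : E3 → ℂ, Continuous G → Integrable (Ω.indicator (fun x => ‖G x‖ ^ 2)) volume := by
    intro G hG
    rw [integrable_indicator_iff hmeas]
    have hc : IsCompact (closure Ω) := hΩb.isCompact_closure
    exact ((hG.norm.pow 2).continuousOn.integrableOn_compact hc).mono_set subset_closure
  have hdb : Continuous (dbar i F) := nm_dbar_cont i F hF
  rw [← integral_indicator hmeas, ← integral_indicator hmeas]
  obtain ⟨hi1, he1⟩ := nm_fubini i _ (hint F hF.continuous)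
  obtain ⟨hi2, he2⟩ := nm_fubini i _ (hint (dbar i F) hdb)
  rw [he1, he2, ← integral_const_mul]
  apply integral_mono hi1 (hi2.const_mul _)
  intro y
  obtain ⟨c, hc⟩ := hS (nmIns i 0 y)
  have hcc : ∀ w, nmIns i w y ∈ Ω ↔ ‖w‖ ^ 2 < c := by
    intro w
    rw [nmIns_eq i w 0 y]; exact hc w
  show ∫ w : ℂ, Ω.indicator (fun x => ‖F x‖ ^ 2) (nmIns i w y) ≤
    a ^ 2 * ∫ w : ℂ, Ω.indicator (fun x => ‖dbar i F x‖ ^ 2) (nmIns i w y)
  rcases le_or_gt c 0 with hc0 | hc0
  · have hz : ∀ G : E3 → ℂ, (fun w : ℂ => Ω.indicator (fun x => ‖G x‖ ^ 2) (nmIns i w y)) = fun _ => 0 := by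
      intro G
      funext w
      apply Set.indicator_of_notMem
      rw [hcc]
      have : 0 ≤ ‖w‖ ^ 2 := by positivity
      linarith
    rw [hz, hz]
    simp
  · have hca : c ≤ a ^ 2 := by
      by_contra hcon
      push Not at hcon
      have ha2 : 0 ≤ a ^ 2 := by positivity
      have hpos : 0 ≤ (c + a ^ 2) / 2 := by linarith
      have hn : ‖((Real.sqrt ((c + a ^ 2) / 2) : ℝ) : ℂ)‖ ^ 2 = (c + a ^ 2) / 2 := by
        rw [Complex.norm_real, Real.norm_eq_abs, sq_abs, Real.sq_sqrt hpos]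
      have hmem := (hcc ((Real.sqrt ((c + a ^ 2) / 2) : ℝ) : ℂ)).mpr (by rw [hn]; linarith)
      have h2 := hA _ hmem
      rw [nmIns_same, hn] at h2
      linarith
    have hR : 0 < Real.sqrt c := Real.sqrt_pos.mpr hc0
    have hR2 : Real.sqrt c ^ 2 = c := Real.sq_sqrt hc0.le
    have hb : ∀ w : ℂ, w ∈ Metric.ball (0 : ℂ) (Real.sqrt c) ↔ ‖w‖ ^ 2 < c := by
      intro w
      rw [mem_ball_zero_iff]
      constructor
      · intro h
        calc ‖w‖ ^ 2 < Real.sqrt c ^ 2 := pow_lt_pow_left₀ h (norm_nonneg _) (by norm_num)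
          _ = c := hR2
      · intro h
        exact Real.lt_sqrt_of_sq_lt h
    have hz : ∀ G : E3 → ℂ, (fun w : ℂ => Ω.indicator (fun x => ‖G x‖ ^ 2) (nmIns i w y)) =
        (Metric.ball (0 : ℂ) (Real.sqrt c)).indicator (fun w => ‖G (nmIns i w y)‖ ^ 2) := by
      intro G
      funext w
      by_cases hw : ‖w‖ ^ 2 < c
      · rw [Set.indicator_of_mem ((hcc w).mpr hw), Set.indicator_of_mem ((hb w).mpr hw)]
      · rw [Set.indicator_of_notMem (fun h => hw ((hcc w).mp h)),
          Set.indicator_of_notMem (fun h => hw ((hb w).mp h))]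
    rw [hz, hz, integral_indicator Metric.isOpen_ball.measurableSet,
      integral_indicator Metric.isOpen_ball.measurableSet]
    have hf : ContDiff ℝ ∞ (fun w => F (nmIns i w y)) := hF.comp (nm_contDiff i y)
    have hfm : ∀ (θ : ℝ) (w : ℂ), (fun w => F (nmIns i w y)) (Complex.exp (θ * I) * w) =
        Complex.exp (I * (j * θ)) * (fun w => F (nmIns i w y)) w := by
      intro θ w
      have h := hmode θ (nmIns i w y)
      rw [nmIns_same, ← nmIns_eq] at h
      exact h
    have h := hN j hj _ hf hfm (Real.sqrt c) hR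
    rw [hR2] at h
    have hdbe : (fun w => ‖db1 (fun w => F (nmIns i w y)) w‖ ^ 2) = fun w => ‖dbar i F (nmIns i w y)‖ ^ 2 := by
      funext w
      rw [nm_db1 i y F hF w]
    rw [hdbe] at h
    refine h.trans ?_
    apply mul_le_mul_of_nonneg_right hca
    apply integral_nonneg
    intro w
    positivity

theorem nm_lam : 0 ≤ lamStar := by
  unfold lamStar
  apply Real.sInf_nonneg
  rintro r ⟨φ, _, _, _, _, rfl⟩
  have : 0 ≤ ∫ z : ℂ, ((fderiv ℝ φ z 1) ^ 2 + (fderiv ℝ φ z I) ^ 2) :=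
    integral_nonneg (fun z => by positivity)
  positivity

theorem nm_rot1 (θ : ℝ) (x : E3) : rot θ 0 x = Function.update x 1 (Complex.exp (θ * I) * x 1) := by
  funext l
  fin_cases l <;> simp [rot, Function.update]

theorem nm_rot2 (θ : ℝ) (x : E3) : rot 0 θ x = Function.update x 2 (Complex.exp (θ * I) * x 2) := by
  funext l
  fin_cases l <;> simp [rot, Function.update]

theorem neg_mode (hN : Neg1_stmt) (hM : Mem_stmt) (hD : Dom_stmt) (e k1 l1 : ℝ)
    (hp : ParOK e k1 l1) (he : 1000 * (lamStar + 1) * e ^ 2 ≤ 1) (j k : ℤ) (h : j < 0 ∨ k < 0) :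
    Mode_stmt e k1 l1 j k := by
  obtain ⟨hO, _, hBd, _, hA, _⟩ := hD e k1 l1 hp
  have hlam := nm_lam
  refine ⟨lamStar + 1, by linarith, ?_⟩
  intro F hF hFm
  refine ⟨fun _ => 0, MemLp.zero', ?_, ?_⟩
  · intro i φ _
    simp
  simp only [sub_zero]
  have key : ∃ i : Fin 3, ∫ x in Omega e k1 l1, ‖F x‖ ^ 2 ≤
      (2 * e) ^ 2 * ∫ x in Omega e k1 l1, ‖dbar i F x‖ ^ 2 := by
    rcases h with hj | hk
    · refine ⟨1, nm_slice hN _ hO hBd 1 (2 * e) j hj F hF ?_ ?_ ?_⟩
      · intro θ x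
        rw [← nm_rot1, hFm θ 0 x]
        congr 2
        push_cast
        ring
      · intro x
        by_cases hc : ‖x 0‖ ^ 2 < tB k1 l1 ∧ ‖x 2‖ ^ 2 < e ^ 2 * dl k1 l1 (‖x 0‖ ^ 2)
        · refine ⟨e ^ 2 * (1 + XX k1 l1 (‖x 0‖ ^ 2)
            (‖x 2‖ / (e * Real.sqrt (dl k1 l1 (‖x 0‖ ^ 2))))), ?_⟩
          intro w
          rw [hM e k1 l1 hp]
          have h0 : Function.update x 1 w 0 = x 0 := by simp [Function.update]
          have h1 : Function.update x 1 w 1 = w := by simp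
          have h2 : Function.update x 1 w 2 = x 2 := by simp [Function.update]
          rw [h0, h1, h2]
          exact ⟨fun hh => hh.2.2, fun hh => ⟨hc.1, hc.2, hh⟩⟩
        · refine ⟨0, ?_⟩
          intro w
          rw [hM e k1 l1 hp]
          have h0 : Function.update x 1 w 0 = x 0 := by simp [Function.update]
          have h2 : Function.update x 1 w 2 = x 2 := by simp [Function.update]
          rw [h0, h2]
          constructor
          · intro hh; exact absurd ⟨hh.1, hh.2.1⟩ hc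
          · intro hh
            have : 0 ≤ ‖w‖ ^ 2 := by positivity
            linarith
      · intro x hx
        have := hA x hx
        have h2 : 0 ≤ ‖x 2‖ ^ 2 := by positivity
        linarith
    · refine ⟨2, nm_slice hN _ hO hBd 2 (2 * e) k hk F hF ?_ ?_ ?_⟩
      · intro θ x
        rw [← nm_rot2, hFm 0 θ x]
        congr 2
        push_cast
        ring
      · intro x
        have he2 : 0 < e ^ 2 := by have := hp.he; positivity
        by_cases hc : ‖x 0‖ ^ 2 < 2
        · refine ⟨e ^ 2 * (1 - om k1 l1 (‖x 0‖ ^ 2) -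
            Real.exp 100 * expNegInvGlue ((‖x 1‖ ^ 2 / e ^ 2 - 1) / (2 - ‖x 0‖ ^ 2))), ?_⟩
          intro w
          have h0 : Function.update x 2 w 0 = x 0 := by simp [Function.update]
          have h1 : Function.update x 2 w 1 = x 1 := by simp [Function.update]
          have h2 : Function.update x 2 w 2 = w := by simp
          show (‖Function.update x 2 w 0‖ ^ 2 < 2 ∧ om k1 l1 (‖Function.update x 2 w 0‖ ^ 2) +
            Real.exp 100 * expNegInvGlue ((‖Function.update x 2 w 1‖ ^ 2 / e ^ 2 - 1) /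
              (2 - ‖Function.update x 2 w 0‖ ^ 2)) +
            ‖Function.update x 2 w 2‖ ^ 2 / e ^ 2 < 1) ↔ _
          rw [h0, h1, h2, ← div_lt_iff₀' he2]
          constructor
          · rintro ⟨_, hh⟩; linarith
          · intro hh; exact ⟨hc, by linarith⟩
        · refine ⟨0, ?_⟩
          intro w
          have h0 : Function.update x 2 w 0 = x 0 := by simp [Function.update]
          constructor
          · intro hh
            have h3 : ‖Function.update x 2 w 0‖ ^ 2 < 2 := hh.1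
            rw [h0] at h3
            exact absurd h3 hc
          · intro hh
            have : 0 ≤ ‖w‖ ^ 2 := by positivity
            linarith
      · intro x hx
        have := hA x hx
        have h2 : 0 ≤ ‖x 1‖ ^ 2 := by positivity
        linarith
  obtain ⟨i, hi⟩ := key
  have hnn : ∀ l : Fin 3, 0 ≤ ∫ x in Omega e k1 l1, ‖dbar l F x‖ ^ 2 := fun l =>
    integral_nonneg (fun x => by positivity)
  have hsum : ∫ x in Omega e k1 l1, ‖dbar i F x‖ ^ 2 ≤ ∑ l, ∫ x in Omega e k1 l1, ‖dbar l F x‖ ^ 2 :=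
    Finset.single_le_sum (f := fun l => ∫ x in Omega e k1 l1, ‖dbar l F x‖ ^ 2)
      (fun l _ => hnn l) (Finset.mem_univ i)
  refine le_trans ?_ hsum
  have h1 : (lamStar + 1) * (2 * e) ^ 2 ≤ 1 := by
    have : 0 ≤ (lamStar + 1) * e ^ 2 := by positivity
    nlinarith
  calc (lamStar + 1) * ∫ x in Omega e k1 l1, ‖F x‖ ^ 2
      ≤ (lamStar + 1) * ((2 * e) ^ 2 * ∫ x in Omega e k1 l1, ‖dbar i F x‖ ^ 2) :=
        mul_le_mul_of_nonneg_left hi (by linarith)
    _ = ((lamStar + 1) * (2 * e) ^ 2) * ∫ x in Omega e k1 l1, ‖dbar i F x‖ ^ 2 := by ring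
    _ ≤ 1 * ∫ x in Omega e k1 l1, ‖dbar i F x‖ ^ 2 := mul_le_mul_of_nonneg_right h1 (hnn i)
    _ = ∫ x in Omega e k1 l1, ‖dbar i F x‖ ^ 2 := one_mul _

end DbarN.JN2
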