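import Pool.Agent.H314.DN.Stmts
import Pool.Agent.H314.DN.A0
import Pool.Agent.H314.DN.A1

set_option autoImplicit false

open MeasureTheory Complex Filter Topology
open scoped ContDiff InnerProductSpace ENNReal ComplexConjugate

namespace DbarN.JHE1

theorem hess_convex_nonneg (P : E3 → ℝ) (hP : ContDiff ℝ ∞ P) (hc : ConvexOn ℝ Set.univ P) (x w : E3) :
    0 ≤ fderiv ℝ (fderiv ℝ P) x w w := by
  have hd : Differentiable ℝ P := hP.differentiable (by simp)
  have hF : ContDiff ℝ 1 (fderiv ℝ P) := hP.fderiv_right (by norm_cast)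
  have hFd : Differentiable ℝ (fderiv ℝ P) := hF.differentiable (by simp)
  have hline : ∀ t : ℝ, HasDerivAt (fun t : ℝ => x + t • w) w t := by
    intro t
    have := ((hasDerivAt_id t).smul_const w).const_add x
    simpa using this
  have hg1 : ∀ t : ℝ, HasDerivAt (fun t : ℝ => P (x + t • w)) (fderiv ℝ P (x + t • w) w) t := by
    intro t
    exact (hd (x + t • w)).hasFDerivAt.comp_hasDerivAt t (hline t)
  have hconv : ConvexOn ℝ Set.univ (fun t : ℝ => P (x + t • w)) := by
    refine ⟨convex_univ, ?_⟩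
    intro s _ t _ α β hα hβ hαβ
    have := hc.2 (Set.mem_univ (x + s • w)) (Set.mem_univ (x + t • w)) hα hβ hαβ
    have e : α • (x + s • w) + β • (x + t • w) = x + (α • s + β • t) • w := by
      have : x = (α + β) • x := by rw [hαβ, one_smul]
      conv_rhs => rw [this]
      simp only [smul_eq_mul]
      module
    rw [e] at this
    exact this
  have hmono : Monotone (deriv (fun t : ℝ => P (x + t • w))) := by
    have := hconv.monotoneOn_deriv (fun t _ => (hg1 t).differentiableAt)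
    exact monotoneOn_univ.mp this
  have hderiv : deriv (fun t : ℝ => P (x + t • w)) = fun t => fderiv ℝ P (x + t • w) w := by
    funext t
    exact (hg1 t).deriv
  rw [hderiv] at hmono
  have hg2 : HasDerivAt (fun t : ℝ => fderiv ℝ P (x + t • w) w) (fderiv ℝ (fderiv ℝ P) x w w) 0 := by
    have h1 : HasFDerivAt (fderiv ℝ P) (fderiv ℝ (fderiv ℝ P) x) (x + (0:ℝ) • w) := by
      rw [zero_smul, add_zero]
      exact (hFd x).hasFDerivAt
    have h2 := h1.comp_hasDerivAt (0:ℝ) (hline 0)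
    exact ((ContinuousLinearMap.apply ℝ ℝ w).hasFDerivAt).comp_hasDerivAt (0:ℝ) h2
  rw [← hg2.deriv]
  have := (hmono.monotoneOn Set.univ).derivWithin_nonneg (x := (0:ℝ))
  rwa [derivWithin_univ] at this

theorem hess_convex_formula (P : E3 → ℝ) (hP : ContDiff ℝ ∞ P) (x : E3) (j k : Fin 3) :
    Hess P j k x = (1 / 4) *
      (((fderiv ℝ (fderiv ℝ P) x (Pi.single j 1) (Pi.single k 1) : ℝ) : ℂ)
        + I * ((fderiv ℝ (fderiv ℝ P) x (Pi.single j 1) (Pi.single k I) : ℝ) : ℂ)
        - I * ((fderiv ℝ (fderiv ℝ P) x (Pi.single j I) (Pi.single k 1) : ℝ) : ℂ)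
        + ((fderiv ℝ (fderiv ℝ P) x (Pi.single j I) (Pi.single k I) : ℝ) : ℂ)) := by
  have hd : Differentiable ℝ P := hP.differentiable (by simp)
  have hF : ContDiff ℝ 1 (fderiv ℝ P) := hP.fderiv_right (by norm_cast)
  have hFd : Differentiable ℝ (fderiv ℝ P) := hF.differentiable (by simp)
  have h1 : ∀ y v, fderiv ℝ (Ph P) y v = ((fderiv ℝ P y v : ℝ) : ℂ) := by
    intro y v
    have : HasFDerivAt (Ph P) (Complex.ofRealCLM.comp (fderiv ℝ P y)) y :=
      Complex.ofRealCLM.hasFDerivAt.comp y (hd y).hasFDerivAt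
    rw [this.fderiv]
    rfl
  have h2 : dbar k (Ph P) = fun y => (1 / 2) * (((fderiv ℝ P y (Pi.single k 1) : ℝ) : ℂ)
      + I * ((fderiv ℝ P y (Pi.single k I) : ℝ) : ℂ)) := by
    funext y
    unfold dbar
    rw [h1, h1]
  have h3 : ∀ v : E3, HasFDerivAt (fun y => ((fderiv ℝ P y v : ℝ) : ℂ))
      (Complex.ofRealCLM.comp ((ContinuousLinearMap.apply ℝ ℝ v).comp (fderiv ℝ (fderiv ℝ P) x))) x := by
    intro v
    exact Complex.ofRealCLM.hasFDerivAt.comp x
      ((ContinuousLinearMap.apply ℝ ℝ v).hasFDerivAt.comp x (hFd x).hasFDerivAt)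
  have h4 : HasFDerivAt (dbar k (Ph P))
      ((1 / 2 : ℂ) • ((Complex.ofRealCLM.comp ((ContinuousLinearMap.apply ℝ ℝ (Pi.single k 1 : E3)).comp
          (fderiv ℝ (fderiv ℝ P) x)))
        + I • (Complex.ofRealCLM.comp ((ContinuousLinearMap.apply ℝ ℝ (Pi.single k I : E3)).comp
          (fderiv ℝ (fderiv ℝ P) x))))) x := by
    rw [h2]
    exact ((h3 (Pi.single k 1)).add ((h3 (Pi.single k I)).const_mul I)).const_mul (1 / 2 : ℂ)
  unfold Hess dz
  rw [h4.fderiv]
  simp only [smul_apply, add_apply, ContinuousLinearMap.comp_apply,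
    Complex.ofRealCLM_apply, ContinuousLinearMap.apply_apply, smul_eq_mul]
  linear_combination (-(1/4 : ℂ) * ((fderiv ℝ (fderiv ℝ P) x (Pi.single j I) (Pi.single k I) : ℝ) : ℂ)) * Complex.I_mul_I

/-- the complex Hessian of a smooth convex function is positive semidefinite -/
theorem hess_convex (P : E3 → ℝ) (hP : ContDiff ℝ ∞ P) (hc : ConvexOn ℝ Set.univ P) (x : E3)
    (a : Fin 3 → ℂ) :
    0 ≤ (∑ j, ∑ k, Hess P j k x * a j * conj (a k)).re := by
  obtain ⟨B, hB⟩ : ∃ B, B = fderiv ℝ (fderiv ℝ P) x := ⟨_, rfl⟩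
  have hpos : ∀ w, 0 ≤ B w w := by
    intro w
    rw [hB]
    exact hess_convex_nonneg P hP hc x w
  have hs1 : ∀ j, (Pi.single j (a j) : E3) = (a j).re • (Pi.single j (1:ℂ) : E3) + (a j).im • (Pi.single j I : E3) := by
    intro j
    rw [← Pi.single_smul, ← Pi.single_smul, ← Pi.single_add]
    congr 1
    rw [Complex.real_smul, Complex.real_smul, mul_one]
    exact (Complex.re_add_im (a j)).symm
  have hs2 : ∀ j, (Pi.single j (I * a j) : E3) =
      (-(a j).im) • (Pi.single j (1:ℂ) : E3) + (a j).re • (Pi.single j I : E3) := by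
    intro j
    rw [← Pi.single_smul, ← Pi.single_smul, ← Pi.single_add]
    congr 1
    rw [Complex.real_smul, Complex.real_smul, mul_one]
    apply Complex.ext <;> simp
  have hexp : ∀ f : Fin 3 → ℂ, B f f = ∑ j, ∑ k, B (Pi.single j (f j) : E3) (Pi.single k (f k) : E3) := by
    intro f
    have e : f = ∑ j, (Pi.single j (f j) : E3) := (Finset.univ_sum_single f).symm
    have e1 : B f = ∑ j, B (Pi.single j (f j) : E3) :=
      (congrArg (fun w => B w) e).trans (map_sum _ _ _)
    rw [e1, sum_apply]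
    apply Finset.sum_congr rfl
    intro j _
    exact (congrArg (fun w => B (Pi.single j (f j) : E3) w) e).trans (map_sum _ _ _)
  have hterm : ∀ j k, (Hess P j k x * a j * conj (a k)).re =
      (1 / 4) * (B (Pi.single j (a j) : E3) (Pi.single k (a k) : E3)
        + B (Pi.single j (I * a j) : E3) (Pi.single k (I * a k) : E3)) := by
    intro j k
    rw [hess_convex_formula P hP x j k, ← hB, hs1 j, hs1 k, hs2 j, hs2 k]
    simp only [map_add, map_smul, add_apply, smul_apply, smul_eq_mul]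
    obtain ⟨b00, h00⟩ : ∃ b, b = B (Pi.single j (1:ℂ) : E3) (Pi.single k (1:ℂ) : E3) := ⟨_, rfl⟩
    obtain ⟨b01, h01⟩ : ∃ b, b = B (Pi.single j (1:ℂ) : E3) (Pi.single k I : E3) := ⟨_, rfl⟩
    obtain ⟨b10, h10⟩ : ∃ b, b = B (Pi.single j I : E3) (Pi.single k (1:ℂ) : E3) := ⟨_, rfl⟩
    obtain ⟨b11, h11⟩ : ∃ b, b = B (Pi.single j I : E3) (Pi.single k I : E3) := ⟨_, rfl⟩
    rw [← h00, ← h01, ← h10, ← h11]
    have e1 : (1 / 4 : ℂ) * (((b00 : ℝ) : ℂ) + I * ((b01 : ℝ) : ℂ) - I * ((b10 : ℝ) : ℂ) + ((b11 : ℝ) : ℂ)) =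
        (((b00 + b11) / 4 : ℝ) : ℂ) + (((b01 - b10) / 4 : ℝ) : ℂ) * I := by
      push_cast
      ring
    rw [e1]
    simp only [Complex.mul_re, Complex.mul_im, Complex.add_re, Complex.add_im, Complex.ofReal_re,
      Complex.ofReal_im, Complex.I_re, Complex.I_im, Complex.conj_re, Complex.conj_im]
    ring
  have hsum : (∑ j, ∑ k, Hess P j k x * a j * conj (a k)).re =
      (1 / 4) * (B a a + B (fun j => I * a j) (fun j => I * a j)) := by
    rw [hexp a, hexp (fun j => I * a j), ← Finset.sum_add_distrib, Finset.mul_sum, Complex.re_sum]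
    apply Finset.sum_congr rfl
    intro j _
    rw [← Finset.sum_add_distrib, Finset.mul_sum, Complex.re_sum]
    apply Finset.sum_congr rfl
    intro k _
    exact hterm j k
  rw [hsum]
  have h1 := hpos a
  have h2 := hpos (fun j => I * a j)
  linarith

end DbarN.JHE1
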