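import Pool.Agent.H314.DN.Stmts
import Pool.Agent.H314.DN.A0
import Pool.Agent.H314.DN.A1

set_option autoImplicit false

open MeasureTheory Complex Filter Topology
open scoped ContDiff InnerProductSpace ENNReal ComplexConjugate

namespace DbarN.JWS2

namespace JW2

/-! ### calculus of `dbar`, `dz` -/

theorem k2_fd {v : E3 → ℂ} (hv : ContDiff ℝ ∞ v) (e : E3) :
    ContDiff ℝ ∞ (fun x => fderiv ℝ v x e) :=
  (hv.fderiv_right (m := ∞) (by simp)).clm_apply contDiff_const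

theorem k2_dbar_smooth {v : E3 → ℂ} (hv : ContDiff ℝ ∞ v) (j : Fin 3) :
    ContDiff ℝ ∞ (dbar j v) := by
  unfold dbar
  exact contDiff_const.mul ((k2_fd hv _).add (contDiff_const.mul (k2_fd hv _)))

theorem k2_dz_smooth {v : E3 → ℂ} (hv : ContDiff ℝ ∞ v) (j : Fin 3) :
    ContDiff ℝ ∞ (dz j v) := by
  unfold dz
  exact contDiff_const.mul ((k2_fd hv _).sub (contDiff_const.mul (k2_fd hv _)))

theorem k2_diff {v : E3 → ℂ} (hv : ContDiff ℝ ∞ v) (x : E3) : DifferentiableAt ℝ v x :=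
  (hv.differentiable (by simp)) x

theorem k2_dbar_cs {v : E3 → ℂ} (hv : HasCompactSupport v) (j : Fin 3) :
    HasCompactSupport (dbar j v) := by
  unfold dbar
  have h1 := hv.fderiv_apply ℝ (Pi.single j 1)
  have h2 := (hv.fderiv_apply ℝ (Pi.single j I)).mul_left (f := fun _ => I)
  exact (h1.add h2).mul_left (f := fun _ => (1 / 2 : ℂ))

theorem k2_dz_cs {v : E3 → ℂ} (hv : HasCompactSupport v) (j : Fin 3) :
    HasCompactSupport (dz j v) := by
  unfold dz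
  have h1 := hv.fderiv_apply ℝ (Pi.single j 1)
  have h2 := (hv.fderiv_apply ℝ (Pi.single j I)).mul_left (f := fun _ => I)
  exact (h1.sub h2).mul_left (f := fun _ => (1 / 2 : ℂ))

theorem k2_Ph {Φ : E3 → ℝ} (hΦ : ContDiff ℝ ∞ Φ) : ContDiff ℝ ∞ (Ph Φ) := by
  unfold Ph
  exact Complex.ofRealCLM.contDiff.comp hΦ

theorem k2_test {v : E3 → ℂ} (h1 : ContDiff ℝ ∞ v) (h2 : HasCompactSupport v) :
    IsTest Set.univ v := ⟨h1, h2, Set.subset_univ _⟩

theorem k2_AA_test {Φ : E3 → ℝ} (hΦ : ContDiff ℝ ∞ Φ) (j : Fin 3) {v : E3 → ℂ}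
    (hv : IsTest Set.univ v) : IsTest Set.univ (AA Φ j v) := by
  apply k2_test
  · unfold AA
    exact (k2_dbar_smooth hv.smooth j).add
      ((contDiff_const.mul (k2_dbar_smooth (k2_Ph hΦ) j)).mul hv.smooth)
  · unfold AA
    exact (k2_dbar_cs hv.compact j).add
      (hv.compact.mul_left (f := fun x => (1 / 2) * dbar j (Ph Φ) x))

theorem k2_AS_test {Φ : E3 → ℝ} (hΦ : ContDiff ℝ ∞ Φ) (j : Fin 3) {v : E3 → ℂ}
    (hv : IsTest Set.univ v) : IsTest Set.univ (AS Φ j v) := by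
  apply k2_test
  · unfold AS
    exact (k2_dz_smooth hv.smooth j).neg.add
      ((contDiff_const.mul (k2_dz_smooth (k2_Ph hΦ) j)).mul hv.smooth)
  · unfold AS
    exact (k2_dz_cs hv.compact j).neg.add
      (hv.compact.mul_left (f := fun x => (1 / 2) * dz j (Ph Φ) x))

theorem k2_conj_test {v : E3 → ℂ} (hv : IsTest Set.univ v) :
    IsTest Set.univ (fun x => conj (v x)) := by
  apply k2_test
  · exact Complex.conjCLE.contDiff.comp hv.smooth
  · exact hv.compact.comp_left (g := fun z => conj z) (map_zero _)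

theorem k2_mul_test {u v : E3 → ℂ} (hu : ContDiff ℝ ∞ u) (hv : IsTest Set.univ v) :
    IsTest Set.univ (fun x => u x * v x) :=
  k2_test (hu.mul hv.smooth) (hv.compact.mul_left (f := u))

theorem k2_int {v : E3 → ℂ} (hv : IsTest Set.univ v) : Integrable v :=
  hv.smooth.continuous.integrable_of_hasCompactSupport hv.compact

/-- first order product rule -/
theorem k2_fd_rule {p q r : E3 → ℂ} {x : E3} (hp : DifferentiableAt ℝ p x)
    (hq : DifferentiableAt ℝ q x) (hr : DifferentiableAt ℝ r x) (s : ℂ) (e : E3) :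
    fderiv ℝ (fun y => s * p y + (1 / 2) * q y * r y) x e
      = s * fderiv ℝ p x e + (1 / 2) * (fderiv ℝ q x e * r x + q x * fderiv ℝ r x e) := by
  have h := ((hp.hasFDerivAt.const_mul s).add
    ((hq.hasFDerivAt.const_mul (1 / 2 : ℂ)).mul hr.hasFDerivAt)).fderiv
  have e1 : (fun y => s * p y + (1 / 2) * q y * r y)
      = ((fun y => s * p y) + fun y => (1 / 2) * q y * r y) := rfl
  rw [e1]
  have h' := congrArg (fun T : E3 →L[ℝ] ℂ => T e) h
  refine h'.trans ?_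
  simp only [_root_.add_apply, _root_.smul_apply, smul_eq_mul]
  ring

theorem k2_dbar_rule {p q r : E3 → ℂ} {x : E3} (hp : DifferentiableAt ℝ p x)
    (hq : DifferentiableAt ℝ q x) (hr : DifferentiableAt ℝ r x) (s : ℂ) (j : Fin 3) :
    dbar j (fun y => s * p y + (1 / 2) * q y * r y) x
      = s * dbar j p x + (1 / 2) * (dbar j q x * r x + q x * dbar j r x) := by
  unfold dbar
  rw [k2_fd_rule hp hq hr, k2_fd_rule hp hq hr]
  ring

theorem k2_dz_rule {p q r : E3 → ℂ} {x : E3} (hp : DifferentiableAt ℝ p x)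
    (hq : DifferentiableAt ℝ q x) (hr : DifferentiableAt ℝ r x) (s : ℂ) (j : Fin 3) :
    dz j (fun y => s * p y + (1 / 2) * q y * r y) x
      = s * dz j p x + (1 / 2) * (dz j q x * r x + q x * dz j r x) := by
  unfold dz
  rw [k2_fd_rule hp hq hr, k2_fd_rule hp hq hr]
  ring

/-- second derivatives -/
theorem k2_symm {v : E3 → ℂ} (hv : ContDiff ℝ ∞ v) (x e e' : E3) :
    fderiv ℝ (fun y => fderiv ℝ v y e) x e' = fderiv ℝ (fun y => fderiv ℝ v y e') x e := by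
  have hd : DifferentiableAt ℝ (fderiv ℝ v) x :=
    ((hv.fderiv_right (m := ∞) (by simp)).differentiable (by simp)) x
  have h1 : ∀ a b : E3, fderiv ℝ (fun y => fderiv ℝ v y a) x b
      = fderiv ℝ (fderiv ℝ v) x b a := by
    intro a b
    have := (hd.hasFDerivAt.clm_apply (hasFDerivAt_const a x)).fderiv
    rw [this]
    simp
  rw [h1, h1]
  have hs : IsSymmSndFDerivAt ℝ v x := by
    apply (hv.contDiffAt (x := x)).isSymmSndFDerivAt
    simp only [minSmoothness_of_isRCLikeNormedField]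
    exact WithTop.coe_le_coe.2 le_top
  exact hs.eq e' e

theorem k2_fd_lin {p q : E3 → ℂ} {x : E3} (hp : DifferentiableAt ℝ p x)
    (hq : DifferentiableAt ℝ q x) (s : ℂ) (e : E3) :
    fderiv ℝ (fun y => (1 / 2) * (p y + s * q y)) x e
      = (1 / 2) * (fderiv ℝ p x e + s * fderiv ℝ q x e) := by
  have h := ((hp.hasFDerivAt.add (hq.hasFDerivAt.const_mul s)).const_mul (1 / 2 : ℂ)).fderiv
  have h' := congrArg (fun T : E3 →L[ℝ] ℂ => T e) h
  refine h'.trans ?_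
  simp only [_root_.add_apply, _root_.smul_apply, smul_eq_mul]

theorem k2_comm {v : E3 → ℂ} (hv : ContDiff ℝ ∞ v) (j k : Fin 3) (x : E3) :
    dbar j (dz k v) x = dz k (dbar j v) x := by
  have hd : ∀ e : E3, DifferentiableAt ℝ (fun y => fderiv ℝ v y e) x :=
    fun e => k2_diff (k2_fd hv e) x
  have h1 : ∀ e, fderiv ℝ (dz k v) x e = (1 / 2) *
      (fderiv ℝ (fun y => fderiv ℝ v y (Pi.single k 1)) x e
        + (-I) * fderiv ℝ (fun y => fderiv ℝ v y (Pi.single k I)) x e) := by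
    intro e
    rw [← k2_fd_lin (hd _) (hd _)]
    congr 2
    funext y
    simp only [dz]
    ring
  have h2 : ∀ e, fderiv ℝ (dbar j v) x e = (1 / 2) *
      (fderiv ℝ (fun y => fderiv ℝ v y (Pi.single j 1)) x e
        + I * fderiv ℝ (fun y => fderiv ℝ v y (Pi.single j I)) x e) := by
    intro e
    rw [← k2_fd_lin (hd _) (hd _)]
    rfl
  have e1 : dbar j (dz k v) x = (1 / 2) * (fderiv ℝ (dz k v) x (Pi.single j 1)
      + I * fderiv ℝ (dz k v) x (Pi.single j I)) := rfl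
  have e2 : dz k (dbar j v) x = (1 / 2) * (fderiv ℝ (dbar j v) x (Pi.single k 1)
      - I * fderiv ℝ (dbar j v) x (Pi.single k I)) := rfl
  rw [e1, e2, h1, h1, h2, h2, k2_symm hv x (Pi.single k 1) (Pi.single j 1),
    k2_symm hv x (Pi.single k 1) (Pi.single j I), k2_symm hv x (Pi.single k I) (Pi.single j 1),
    k2_symm hv x (Pi.single k I) (Pi.single j I)]
  ring

/-- conjugation -/
theorem k2_fd_conj {v : E3 → ℂ} {x : E3} (hv : DifferentiableAt ℝ v x) (e : E3) :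
    fderiv ℝ (fun y => conj (v y)) x e = conj (fderiv ℝ v x e) := by
  have h : HasFDerivAt (fun y => conj (v y))
      ((Complex.conjCLE : ℂ →L[ℝ] ℂ).comp (fderiv ℝ v x)) x :=
    (Complex.conjCLE : ℂ →L[ℝ] ℂ).hasFDerivAt.comp x hv.hasFDerivAt
  rw [h.fderiv]
  rfl

theorem k2_conj_dz {v : E3 → ℂ} {x : E3} (hv : DifferentiableAt ℝ v x) (j : Fin 3) :
    conj (dz j v x) = dbar j (fun y => conj (v y)) x := by
  unfold dz dbar
  rw [k2_fd_conj hv, k2_fd_conj hv]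
  simp only [map_mul, map_sub, Complex.conj_I, map_div₀, map_one, Complex.conj_ofNat]
  ring

theorem k2_conj_dz_Ph {Φ : E3 → ℝ} (hΦ : ContDiff ℝ ∞ Φ) (j : Fin 3) (x : E3) :
    conj (dz j (Ph Φ) x) = dbar j (Ph Φ) x := by
  rw [k2_conj_dz (k2_diff (k2_Ph hΦ) x)]
  congr 1
  funext y
  simp [Ph]

/-- integration by parts -/
theorem k2_ibp_fd {a b : E3 → ℂ} (ha : IsTest Set.univ a) (hb : IsTest Set.univ b) (e : E3) :
    ∫ x, fderiv ℝ a x e * b x = - ∫ x, a x * fderiv ℝ b x e := by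
  have h := integral_mul_fderiv_eq_neg_fderiv_mul_of_integrable (μ := (volume : Measure E3))
    (f := a) (g := b) (v := e)
    (k2_int (k2_mul_test (k2_fd ha.smooth e) hb))
    (k2_int (k2_test (ha.smooth.mul (k2_fd hb.smooth e)) (ha.compact.mul_right)))
    (k2_int (k2_mul_test ha.smooth hb))
    (fun x _ => k2_diff ha.smooth x) (fun x _ => k2_diff hb.smooth x)
  rw [h, neg_neg]

theorem k2_ibp {a b : E3 → ℂ} (ha : IsTest Set.univ a) (hb : IsTest Set.univ b) (j : Fin 3) :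
    ∫ x, dbar j a x * b x = - ∫ x, a x * dbar j b x := by
  have i1 : ∀ e, Integrable (fun x => fderiv ℝ a x e * b x) :=
    fun e => k2_int (k2_mul_test (k2_fd ha.smooth e) hb)
  have i2 : ∀ e, Integrable (fun x => a x * fderiv ℝ b x e) :=
    fun e => k2_int (k2_test (ha.smooth.mul (k2_fd hb.smooth e)) (ha.compact.mul_right))
  have h1 : (fun x => dbar j a x * b x) = fun x => (1 / 2) *
      (fderiv ℝ a x (Pi.single j 1) * b x) + (I / 2) * (fderiv ℝ a x (Pi.single j I) * b x) := by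
    funext x; simp only [dbar]; ring
  have h2 : (fun x => a x * dbar j b x) = fun x => (1 / 2) *
      (a x * fderiv ℝ b x (Pi.single j 1)) + (I / 2) * (a x * fderiv ℝ b x (Pi.single j I)) := by
    funext x; simp only [dbar]; ring
  rw [h1, h2, integral_add ((i1 _).const_mul _) ((i1 _).const_mul _),
    integral_add ((i2 _).const_mul _) ((i2 _).const_mul _), integral_const_mul,
    integral_const_mul, integral_const_mul, integral_const_mul, k2_ibp_fd ha hb,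
    k2_ibp_fd ha hb]
  ring

/-- adjoint relation -/
theorem k2_adj {Φ : E3 → ℝ} (hΦ : ContDiff ℝ ∞ Φ) {a b : E3 → ℂ} (ha : IsTest Set.univ a)
    (hb : IsTest Set.univ b) (j : Fin 3) :
    ∫ x, AA Φ j a x * conj (b x) = ∫ x, a x * conj (AS Φ j b x) := by
  have hcb := k2_conj_test hb
  have hP := k2_Ph hΦ
  have h1 : (fun x => AA Φ j a x * conj (b x)) = fun x => dbar j a x * conj (b x)
      + (1 / 2) * dbar j (Ph Φ) x * (a x * conj (b x)) := by
    funext x; simp only [AA]; ring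
  have h2 : (fun x => a x * conj (AS Φ j b x)) = fun x => -(a x * dbar j (fun y => conj (b y)) x)
      + (1 / 2) * dbar j (Ph Φ) x * (a x * conj (b x)) := by
    funext x
    simp only [AS, map_add, map_neg, map_mul, map_div₀, map_one, Complex.conj_ofNat]
    rw [k2_conj_dz_Ph hΦ, k2_conj_dz (k2_diff hb.smooth x)]
    ring
  have i3 : Integrable (fun x => (1 / 2) * dbar j (Ph Φ) x * (a x * conj (b x))) :=
    k2_int (k2_mul_test (contDiff_const.mul (k2_dbar_smooth hP j)) (k2_mul_test ha.smooth hcb))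
  have i1 : Integrable (fun x => dbar j a x * conj (b x)) :=
    k2_int (k2_mul_test (k2_dbar_smooth ha.smooth j) hcb)
  have i2 : Integrable (fun x => a x * dbar j (fun y => conj (b y)) x) :=
    k2_int (k2_test (ha.smooth.mul (k2_dbar_smooth hcb.smooth j)) (ha.compact.mul_right))
  have i2' : Integrable (fun x => -(a x * dbar j (fun y => conj (b y)) x)) := i2.neg
  rw [h1, h2, integral_add i1 i3, integral_add i2' i3, integral_neg, k2_ibp ha hcb]

theorem k2_adj' {Φ : E3 → ℝ} (hΦ : ContDiff ℝ ∞ Φ) {a b : E3 → ℂ} (ha : IsTest Set.univ a)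
    (hb : IsTest Set.univ b) (j : Fin 3) :
    ∫ x, a x * conj (AA Φ j b x) = ∫ x, AS Φ j a x * conj (b x) := by
  have h := congrArg conj (k2_adj hΦ hb ha j)
  rw [← integral_conj, ← integral_conj] at h
  simp only [map_mul, Complex.conj_conj] at h
  have e1 : (fun x => a x * conj (AA Φ j b x)) = fun x => conj (AA Φ j b x) * a x := by
    funext x; ring
  have e2 : (fun x => AS Φ j a x * conj (b x)) = fun x => conj (b x) * AS Φ j a x := by
    funext x; ring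
  rw [e1, e2, h]

theorem k2_ip_int {a b : E3 → ℂ} (ha : IsTest Set.univ a) (hb : IsTest Set.univ b) :
    Integrable (fun x => a x * conj (b x)) :=
  k2_int (k2_mul_test ha.smooth (k2_conj_test hb))


theorem comm_bar {v : E3 → ℂ} (hv : ContDiff ℝ ∞ v) (j k : Fin 3) (x : E3) :
    dbar j (dbar k v) x = dbar k (dbar j v) x := by
  have hd : ∀ e : E3, DifferentiableAt ℝ (fun y => fderiv ℝ v y e) x :=
    fun e => k2_diff (k2_fd hv e) x
  have h2 : ∀ (l : Fin 3) (e : E3), fderiv ℝ (dbar l v) x e = (1 / 2) *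
      (fderiv ℝ (fun y => fderiv ℝ v y (Pi.single l 1)) x e
        + I * fderiv ℝ (fun y => fderiv ℝ v y (Pi.single l I)) x e) := by
    intro l e
    rw [← k2_fd_lin (hd _) (hd _)]
    rfl
  have e1 : ∀ l m : Fin 3, dbar l (dbar m v) x = (1 / 2) * (fderiv ℝ (dbar m v) x (Pi.single l 1)
      + I * fderiv ℝ (dbar m v) x (Pi.single l I)) := fun _ _ => rfl
  rw [e1, e1, h2, h2, h2, h2, k2_symm hv x (Pi.single k 1) (Pi.single j 1),
    k2_symm hv x (Pi.single k 1) (Pi.single j I), k2_symm hv x (Pi.single k I) (Pi.single j 1),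
    k2_symm hv x (Pi.single k I) (Pi.single j I)]
  ring

theorem AT_test {Φ : E3 → ℝ} (hΦ : ContDiff ℝ ∞ Φ) (j : Fin 3) {v : E3 → ℂ}
    (hv : IsTest Set.univ v) : IsTest Set.univ (AT' Φ j v) := by
  apply k2_test
  · unfold AT'
    exact (k2_dbar_smooth hv.smooth j).neg.add
      ((contDiff_const.mul (k2_dbar_smooth (k2_Ph hΦ) j)).mul hv.smooth)
  · unfold AT'
    exact (k2_dbar_cs hv.compact j).neg.add
      (hv.compact.mul_left (f := fun x => (1 / 2) * dbar j (Ph Φ) x))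

theorem AT_comm {Φ : E3 → ℝ} (hΦ : ContDiff ℝ ∞ Φ) {v : E3 → ℂ} (hv : ContDiff ℝ ∞ v)
    (j k : Fin 3) (x : E3) :
    AT' Φ k (AT' Φ j v) x = AT' Φ j (AT' Φ k v) x := by
  have hP := k2_Ph hΦ
  have e1 : ∀ l, AT' Φ l v =
      fun y => (-1 : ℂ) * dbar l v y + (1 / 2) * dbar l (Ph Φ) y * v y := by
    intro l
    funext y; simp only [AT']; ring
  have h1 : ∀ l m, AT' Φ m (AT' Φ l v) x =
      - dbar m (AT' Φ l v) x + (1 / 2) * dbar m (Ph Φ) x * AT' Φ l v x := fun _ _ => rfl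
  rw [h1, h1, e1, e1, k2_dbar_rule (k2_diff (k2_dbar_smooth hv j) x)
    (k2_diff (k2_dbar_smooth hP j) x) (k2_diff hv x),
    k2_dbar_rule (k2_diff (k2_dbar_smooth hv k) x)
    (k2_diff (k2_dbar_smooth hP k) x) (k2_diff hv x), comm_bar hv k j, comm_bar hP k j]
  ring

/-- transposition -/
theorem AT_ibp {Φ : E3 → ℝ} (hΦ : ContDiff ℝ ∞ Φ) {a b : E3 → ℂ} (ha : IsTest Set.univ a)
    (hb : IsTest Set.univ b) (j : Fin 3) :
    ∫ x, a x * AT' Φ j b x = ∫ x, AA Φ j a x * b x := by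
  have hP := k2_Ph hΦ
  have h1 : (fun x => AA Φ j a x * b x) = fun x => dbar j a x * b x
      + (1 / 2) * dbar j (Ph Φ) x * (a x * b x) := by
    funext x; simp only [AA]; ring
  have h2 : (fun x => a x * AT' Φ j b x) = fun x => -(a x * dbar j b x)
      + (1 / 2) * dbar j (Ph Φ) x * (a x * b x) := by
    funext x
    simp only [AT']
    ring
  have i3 : Integrable (fun x => (1 / 2) * dbar j (Ph Φ) x * (a x * b x)) :=
    k2_int (k2_mul_test (contDiff_const.mul (k2_dbar_smooth hP j)) (k2_mul_test ha.smooth hb))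
  have i1 : Integrable (fun x => dbar j a x * b x) :=
    k2_int (k2_mul_test (k2_dbar_smooth ha.smooth j) hb)
  have i2 : Integrable (fun x => a x * dbar j b x) :=
    k2_int (k2_test (ha.smooth.mul (k2_dbar_smooth hb.smooth j)) (ha.compact.mul_right))
  have i2' : Integrable (fun x => -(a x * dbar j b x)) := i2.neg
  rw [h1, h2, integral_add i1 i3, integral_add i2' i3, integral_neg, k2_ibp ha hb]

/-- conjugate of `AA` -/
theorem conj_AA {Φ : E3 → ℝ} (hΦ : ContDiff ℝ ∞ Φ) {a : E3 → ℂ} (ha : ContDiff ℝ ∞ a)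
    (j : Fin 3) (x : E3) :
    conj (AA Φ j (fun y => conj (a y)) x) = dz j a x + (1 / 2) * dz j (Ph Φ) x * a x := by
  have h1 : dbar j (fun y => conj (a y)) x = conj (dz j a x) := (k2_conj_dz (k2_diff ha x) j).symm
  have h2 : dbar j (Ph Φ) x = conj (dz j (Ph Φ) x) := (k2_conj_dz_Ph hΦ j x).symm
  simp only [AA]
  rw [h1, h2]
  simp only [map_add, map_mul, map_div₀, map_one, Complex.conj_ofNat, Complex.conj_conj]

/-! ### Hilbert spaces -/

noncomputable abbrev LL := Lp ℂ 2 (volume : Measure E3)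
noncomputable abbrev FF := PiLp 2 (fun _ : Fin 3 => LL)

theorem test_memLp {v : E3 → ℂ} (hv : IsTest Set.univ v) : MemLp v 2 (volume : Measure E3) :=
  hv.smooth.continuous.memLp_of_hasCompactSupport hv.compact

noncomputable def tl (v : E3 → ℂ) (hv : IsTest Set.univ v) : LL := (test_memLp hv).toLp v

theorem tl_coe {v : E3 → ℂ} (hv : IsTest Set.univ v) : (tl v hv : E3 → ℂ) =ᵐ[volume] v :=
  (test_memLp hv).coeFn_toLp

theorem inner_tl {v : E3 → ℂ} (hv : IsTest Set.univ v) (f : LL) :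
    inner ℂ (tl v hv) f = ∫ x, f x * conj (v x) := by
  rw [MeasureTheory.L2.inner_def]
  apply integral_congr_ae
  filter_upwards [tl_coe hv] with x hx
  rw [hx, RCLike.inner_apply]

noncomputable def PL (ψ : E3 → ℂ) (hψ : IsTest Set.univ ψ) : LL →L[ℂ] ℂ :=
  innerSL ℂ (tl (fun x => conj (ψ x)) (k2_conj_test hψ))

theorem PL_apply {ψ : E3 → ℂ} (hψ : IsTest Set.univ ψ) (f : LL) :
    PL ψ hψ f = ∫ x, f x * ψ x := by
  have h := inner_tl (k2_conj_test hψ) f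
  simp only [Complex.conj_conj] at h
  exact h

theorem mul_int {ψ : E3 → ℂ} (hψ : IsTest Set.univ ψ) (f : LL) :
    Integrable (fun x => f x * ψ x) :=
  (Lp.memLp f).integrable_mul (test_memLp hψ)

theorem norm_sq_L (f : LL) : ‖f‖ ^ 2 = ∫ x, ‖f x‖ ^ 2 := by
  have h1 : ((‖f‖ ^ 2 : ℝ) : ℂ) = inner ℂ f f := by
    rw [inner_self_eq_norm_sq_to_K]
    push_cast
    rfl
  have h2 : inner ℂ f f = ((∫ x, ‖f x‖ ^ 2 : ℝ) : ℂ) := by
    rw [MeasureTheory.L2.inner_def]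
    refine Eq.trans ?_ (integral_ofReal (𝕜 := ℂ))
    congr 1
    funext x
    rw [inner_self_eq_norm_sq_to_K]
    push_cast
    rfl
  exact_mod_cast h1.trans h2

theorem norm_tl {v : E3 → ℂ} (hv : IsTest Set.univ v) : ‖tl v hv‖ ^ 2 = ∫ x, ‖v x‖ ^ 2 := by
  rw [norm_sq_L]
  apply integral_congr_ae
  filter_upwards [tl_coe hv] with x hx
  rw [hx]

theorem norm_tl_sub {v : E3 → ℂ} (hv : IsTest Set.univ v) (f : LL) :
    ‖tl v hv - f‖ = (eLpNorm (fun x => v x - f x) 2 volume).toReal := by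
  rw [Lp.norm_def]
  congr 1
  apply eLpNorm_congr_ae
  filter_upwards [tl_coe hv, Lp.coeFn_sub (tl v hv) f] with x hx hx2
  rw [hx2, Pi.sub_apply, hx]

section graphs
variable (Φ : E3 → ℝ) (hΦ : ContDiff ℝ ∞ Φ)

noncomputable def sS (φ : {φ : E3 → ℂ // IsTest Set.univ φ}) : FF × LL →L[ℂ] ℂ :=
  (∑ i, (PL (AT' Φ i φ.1) (AT_test hΦ i φ.2)).comp
    ((PiLp.proj 2 (fun _ : Fin 3 => LL) i).comp (ContinuousLinearMap.fst ℂ FF LL))) -
    (PL φ.1 φ.2).comp (ContinuousLinearMap.snd ℂ FF LL)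

noncomputable def SS : Submodule ℂ (FF × LL) :=
  ⨅ φ : {φ : E3 → ℂ // IsTest Set.univ φ}, LinearMap.ker (sS Φ hΦ φ).toLinearMap

noncomputable def tT (i : Fin 3) (φ : {φ : E3 → ℂ // IsTest Set.univ φ}) : FF × FF →L[ℂ] ℂ :=
  ((PL (AT' Φ (i + 1) φ.1) (AT_test hΦ (i + 1) φ.2)).comp
    ((PiLp.proj 2 (fun _ : Fin 3 => LL) (i + 2)).comp (ContinuousLinearMap.fst ℂ FF FF))) -
  ((PL (AT' Φ (i + 2) φ.1) (AT_test hΦ (i + 2) φ.2)).comp
    ((PiLp.proj 2 (fun _ : Fin 3 => LL) (i + 1)).comp (ContinuousLinearMap.fst ℂ FF FF))) -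
    (PL φ.1 φ.2).comp
      ((PiLp.proj 2 (fun _ : Fin 3 => LL) i).comp (ContinuousLinearMap.snd ℂ FF FF))

noncomputable def TT : Submodule ℂ (FF × FF) :=
  ⨅ (i : Fin 3) (φ : {φ : E3 → ℂ // IsTest Set.univ φ}), LinearMap.ker (tT Φ hΦ i φ).toLinearMap

theorem mem_SS (u : FF) (ρ : LL) : (u, ρ) ∈ SS Φ hΦ ↔
    ∀ φ : E3 → ℂ, ∀ _ : IsTest Set.univ φ,
      ∑ i, ∫ x, u i x * AT' Φ i φ x = ∫ x, ρ x * φ x := by
  have key : ∀ φ : {φ : E3 → ℂ // IsTest Set.univ φ}, sS Φ hΦ φ (u, ρ) =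
      (∑ i, ∫ x, u i x * AT' Φ i φ.1 x) - ∫ x, ρ x * φ.1 x := by
    intro φ
    simp only [sS, _root_.sub_apply, _root_.sum_apply,
      ContinuousLinearMap.comp_apply, ContinuousLinearMap.coe_fst', ContinuousLinearMap.coe_snd',
      PiLp.proj_apply, PL_apply]
  simp only [SS, Submodule.mem_iInf, LinearMap.mem_ker, ContinuousLinearMap.coe_coe, key,
    sub_eq_zero, Subtype.forall]

theorem mem_TT (v g : FF) : (v, g) ∈ TT Φ hΦ ↔
    ∀ (i : Fin 3) (φ : E3 → ℂ) (_ : IsTest Set.univ φ),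
      (∫ x, v (i + 2) x * AT' Φ (i + 1) φ x) - (∫ x, v (i + 1) x * AT' Φ (i + 2) φ x)
        = ∫ x, g i x * φ x := by
  have key : ∀ i, ∀ φ : {φ : E3 → ℂ // IsTest Set.univ φ}, tT Φ hΦ i φ (v, g) =
      (∫ x, v (i + 2) x * AT' Φ (i + 1) φ.1 x) - (∫ x, v (i + 1) x * AT' Φ (i + 2) φ.1 x)
        - ∫ x, g i x * φ.1 x := by
    intro i φ
    simp only [tT, _root_.sub_apply,
      ContinuousLinearMap.comp_apply, ContinuousLinearMap.coe_fst', ContinuousLinearMap.coe_snd',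
      PiLp.proj_apply, PL_apply]
  simp only [TT, Submodule.mem_iInf, LinearMap.mem_ker, ContinuousLinearMap.coe_coe, key,
    sub_eq_zero, Subtype.forall]

theorem SS_closed : IsClosed (SS Φ hΦ : Set (FF × LL)) := by
  rw [SS, Submodule.coe_iInf]
  exact isClosed_iInter fun φ => (sS Φ hΦ φ).isClosed_ker

theorem TT_closed : IsClosed (TT Φ hΦ : Set (FF × FF)) := by
  rw [TT, Submodule.coe_iInf]
  refine isClosed_iInter fun i => ?_
  rw [Submodule.coe_iInf]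
  exact isClosed_iInter fun φ => (tT Φ hΦ i φ).isClosed_ker

end graphs


theorem sum3 {M : Type*} [AddCommMonoid M] (k : Fin 3) (F : Fin 3 → M) :
    ∑ i, F i = F k + F (k + 1) + F (k + 2) := by
  fin_cases k
  · exact Fin.sum_univ_three F
  · rw [Fin.sum_univ_three]
    change F 0 + F 1 + F 2 = F 1 + F 2 + F 0
    abel
  · rw [Fin.sum_univ_three]
    change F 0 + F 1 + F 2 = F 2 + F 0 + F 1
    abel

theorem f11 (k : Fin 3) : k + 1 + 1 = k + 2 := by fin_cases k <;> rfl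
theorem f12 (k : Fin 3) : k + 1 + 2 = k := by fin_cases k <;> rfl
theorem f21 (k : Fin 3) : k + 2 + 1 = k := by fin_cases k <;> rfl
theorem f22 (k : Fin 3) : k + 2 + 2 = k + 1 := by fin_cases k <;> rfl
theorem n1 (k : Fin 3) : k + 1 ≠ k := by fin_cases k <;> decide
theorem n2 (k : Fin 3) : k + 2 ≠ k := by fin_cases k <;> decide
theorem n3 (k : Fin 3) : k + 1 ≠ k + 2 := by fin_cases k <;> decide

section graphs
variable (Φ : E3 → ℝ) (hΦ : ContDiff ℝ ∞ Φ)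

theorem hST (v g : FF) (h : (v, g) ∈ TT Φ hΦ) : (g, (0 : LL)) ∈ SS Φ hΦ := by
  rw [mem_SS]
  rw [mem_TT] at h
  intro φ hφ
  have h0 : ∫ x, (0 : LL) x * φ x = 0 := by
    rw [← PL_apply hφ, map_zero]
  rw [h0]
  have hh : ∀ i : Fin 3, ∫ x, g i x * AT' Φ i φ x =
      (∫ x, v (i + 2) x * AT' Φ (i + 1) (AT' Φ i φ) x) -
        ∫ x, v (i + 1) x * AT' Φ (i + 2) (AT' Φ i φ) x :=
    fun i => (h i _ (AT_test hΦ i hφ)).symm
  simp only [hh]
  have hc : ∀ (l j k : Fin 3), ∫ x, v l x * AT' Φ k (AT' Φ j φ) x =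
      ∫ x, v l x * AT' Φ j (AT' Φ k φ) x := by
    intro l j k
    congr 1
    funext x
    rw [AT_comm hΦ hφ.smooth]
  simp only [Fin.sum_univ_three]
  have a1 : (0 : Fin 3) + 1 = 1 := rfl
  have a2 : (0 : Fin 3) + 2 = 2 := rfl
  have a3 : (1 : Fin 3) + 1 = 2 := rfl
  have a4 : (1 : Fin 3) + 2 = 0 := rfl
  have a5 : (2 : Fin 3) + 1 = 0 := rfl
  have a6 : (2 : Fin 3) + 2 = 1 := rfl
  rw [a1, a2, a3, a4, a5, a6, hc 2 0 1, hc 0 1 2, hc 1 2 0]
  ring

/-- test elements of the graph `T` -/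
theorem mem_TT_test (k : Fin 3) (φ : E3 → ℂ) (hφ : IsTest Set.univ φ) :
    ((WithLp.toLp 2 fun i => if i = k then tl φ hφ else 0 : FF),
      (WithLp.toLp 2 fun i => if i = k + 1 then tl (AA Φ (k + 2) φ) (k2_AA_test hΦ _ hφ)
        else if i = k + 2 then - tl (AA Φ (k + 1) φ) (k2_AA_test hΦ _ hφ) else 0 : FF)) ∈
      TT Φ hΦ := by
  rw [mem_TT]
  intro i ψ hψ
  rw [← PL_apply (AT_test hΦ (i + 1) hψ), ← PL_apply (AT_test hΦ (i + 2) hψ), ← PL_apply hψ]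
  have hPL : ∀ j : Fin 3, PL (AT' Φ j ψ) (AT_test hΦ j hψ) (tl φ hφ) =
      PL ψ hψ (tl (AA Φ j φ) (k2_AA_test hΦ _ hφ)) := by
    intro j
    rw [PL_apply, PL_apply]
    have e1 : ∫ x, (tl φ hφ) x * AT' Φ j ψ x = ∫ x, φ x * AT' Φ j ψ x := by
      apply integral_congr_ae
      filter_upwards [tl_coe hφ] with x hx
      rw [hx]
    have e2 : ∫ x, (tl (AA Φ j φ) (k2_AA_test hΦ _ hφ)) x * ψ x = ∫ x, AA Φ j φ x * ψ x := by
      apply integral_congr_ae
      filter_upwards [tl_coe (k2_AA_test hΦ j hφ)] with x hx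
      rw [hx]
    rw [e1, e2, AT_ibp hΦ hφ hψ]
  rcases (show i = k ∨ i = k + 1 ∨ i = k + 2 by
    revert i k; decide) with rfl | rfl | rfl
  · simp only [n1, n2, if_false, map_zero, sub_zero, (n1 i).symm, (n2 i).symm]
  · simp only [f12, f11, if_true, if_false, n2, map_zero, sub_zero]
    exact hPL _
  · simp only [f21, f22, if_true, if_false, n1, map_zero, zero_sub, (n3 k).symm, map_neg]
    rw [hPL]

/-- the adjoint relation, weakly -/
theorem adj_weak (u f : FF) (h : AdjR (TT Φ hΦ) u f) (k : Fin 3) (ψ : E3 → ℂ)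
    (hψ : IsTest Set.univ ψ) :
    (∫ x, u (k + 1) x * (dz (k + 2) ψ x + (1 / 2) * dz (k + 2) (Ph Φ) x * ψ x)) -
      (∫ x, u (k + 2) x * (dz (k + 1) ψ x + (1 / 2) * dz (k + 1) (Ph Φ) x * ψ x)) =
      ∫ x, f k x * ψ x := by
  have h1 := h _ (mem_TT_test Φ hΦ k _ (k2_conj_test hψ))
  rw [PiLp.inner_apply, PiLp.inner_apply, sum3 k, sum3 k] at h1
  simp only [if_true, n1, n2, (n3 k).symm, (n1 k).symm, (n2 k).symm, if_false, inner_zero_left,
    inner_neg_left, add_zero, zero_add, inner_tl, conj_AA hΦ hψ.smooth, Complex.conj_conj] at h1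
  rw [sub_eq_add_neg]
  exact h1

/-- coefficients of the adjoint relation -/
def bet (k : Fin 3) (i j : Fin 3) : ℂ :=
  if i = k + 1 ∧ j = k + 2 then -1 else if i = k + 2 ∧ j = k + 1 then 1 else 0

noncomputable def zet (k : Fin 3) (i : Fin 3) : E3 → ℂ :=
  if i = k + 1 then fun x => (1 / 2) * dz (k + 2) (Ph Φ) x else
    if i = k + 2 then fun x => -((1 / 2) * dz (k + 1) (Ph Φ) x) else fun _ => 0

theorem zet_smooth (hΦ : ContDiff ℝ ∞ Φ) (k i : Fin 3) : ContDiff ℝ ∞ (zet Φ k i) := by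
  unfold zet
  split_ifs
  · exact contDiff_const.mul (k2_dz_smooth (k2_Ph hΦ) _)
  · exact (contDiff_const.mul (k2_dz_smooth (k2_Ph hΦ) _)).neg
  · exact contDiff_const

theorem dz_test {v : E3 → ℂ} (hv : IsTest Set.univ v) (j : Fin 3) :
    IsTest Set.univ (dz j v) := k2_test (k2_dz_smooth hv.smooth j) (k2_dz_cs hv.compact j)

theorem AC_test (hΦ : ContDiff ℝ ∞ Φ) (j : Fin 3) {v : E3 → ℂ}
    (hv : IsTest Set.univ v) :
    IsTest Set.univ (fun x => dz j v x + (1 / 2) * dz j (Ph Φ) x * v x) := by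
  apply k2_test
  · exact (k2_dz_smooth hv.smooth j).add
      ((contDiff_const.mul (k2_dz_smooth (k2_Ph hΦ) j)).mul hv.smooth)
  · exact (k2_dz_cs hv.compact j).add
      (hv.compact.mul_left (f := fun x => (1 / 2) * dz j (Ph Φ) x))

theorem bet_sum (k i : Fin 3) (F : Fin 3 → ℂ) : ∑ j, bet k i j * F j =
    if i = k + 1 then - F (k + 2) else if i = k + 2 then F (k + 1) else 0 := by
  rw [sum3 k]
  rcases (show i = k ∨ i = k + 1 ∨ i = k + 2 by
    revert i k; decide) with rfl | rfl | rfl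
  · simp [bet, (n1 i).symm, (n2 i).symm]
  · simp [bet, (n1 k).symm, (n2 k).symm]
  · simp [bet, (n3 _).symm, (n1 k).symm, (n2 k).symm]

theorem WPP_adj (u f : FF) (h : AdjR (TT Φ hΦ) u f) (k : Fin 3) :
    WPP 0 (bet k) (zet Φ k) (fun i => (u i : E3 → ℂ)) (f k : E3 → ℂ) := by
  intro φ hφ
  rw [← adj_weak Φ hΦ u f h k φ hφ]
  rw [← integral_sub (mul_int (AC_test Φ hΦ _ hφ) _) (mul_int (AC_test Φ hΦ _ hφ) _)]
  congr 1
  funext x
  simp only [Pi.zero_apply, zero_mul, zero_add, bet_sum]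
  rw [sum3 k]
  simp only [zet, if_true, if_false, (n1 k).symm, (n2 k).symm, (n3 k).symm]
  ring

theorem PP_adj (G : Fin 3 → E3 → ℂ) (k : Fin 3) (x : E3) :
    PP 0 (bet k) (zet Φ k) G x = AS Φ (k + 2) (G (k + 1)) x - AS Φ (k + 1) (G (k + 2)) x := by
  simp only [PP, Pi.zero_apply, zero_mul, zero_add, bet_sum k _ (fun j => dz j (G _) x)]
  rw [sum3 k]
  simp only [zet, if_true, if_false, (n1 k).symm, (n2 k).symm, (n3 k).symm, AS]
  ring

theorem WPP_S (u : FF) (ρ : LL) (h : (u, ρ) ∈ SS Φ hΦ) :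
    WPP (fun i j => if i = j then 1 else 0) 0 (fun i x => (1 / 2) * dbar i (Ph Φ) x)
      (fun i => (u i : E3 → ℂ)) (ρ : E3 → ℂ) := by
  rw [mem_SS] at h
  intro φ hφ
  rw [← h φ hφ, ← integral_finsetSum _ (fun i _ => mul_int (AT_test hΦ i hφ) (u i))]
  congr 1
  funext x
  apply Finset.sum_congr rfl
  intro i _
  simp [AT']

theorem PP_S (G : Fin 3 → E3 → ℂ) (x : E3) :
    PP (fun i j => if i = j then 1 else 0) 0 (fun i x => (1 / 2) * dbar i (Ph Φ) x) G x =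
      ∑ j, AA Φ j (G j) x := by
  simp [PP, AA]

end graphs


theorem approx (hF : Friedrichs_stmt) (Φ : E3 → ℝ) (hΦ : ContDiff ℝ ∞ Φ) (u f : FF) (ρ : LL)
    (hu : AdjR (TT Φ hΦ) u f) (hρ : (u, ρ) ∈ SS Φ hΦ) (ε : ℝ) (hε : 0 < ε) :
    ∃ G : Fin 3 → E3 → ℂ, ∃ hG : ∀ i, IsTest Set.univ (G i),
      (∀ i, ‖tl (G i) (hG i) - u i‖ < ε) ∧
      (∀ k : Fin 3, ∃ h : IsTest Set.univ
        (fun x => AS Φ (k + 2) (G (k + 1)) x - AS Φ (k + 1) (G (k + 2)) x),
        ‖tl _ h - f k‖ < ε) ∧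
      ∃ h : IsTest Set.univ (fun x => ∑ j, AA Φ j (G j) x), ‖tl _ h - ρ‖ < ε := by
  obtain ⟨R, hR1, hR2, hR3⟩ := hF
  have hε' : (0 : ℝ≥0∞) < ENNReal.ofReal ε := ENNReal.ofReal_pos.2 hε
  have e1 : ∀ᶠ ν in atTop, ∀ᶠ n in atTop, ∀ i : Fin 3,
      eLpNorm (R ν n (u i) - (u i : E3 → ℂ)) 2 volume < ENNReal.ofReal ε := by
    have := eventually_all.2 fun i : Fin 3 => hR2 (u i) (Lp.memLp (u i)) _ hε'
    filter_upwards [this] with ν hν
    exact eventually_all.2 hν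
  have e2 : ∀ᶠ ν in atTop, ∀ᶠ n in atTop, ∀ k : Fin 3,
      eLpNorm (fun x => PP 0 (bet k) (zet Φ k) (fun i => R ν n (u i)) x - f k x) 2 volume
        < ENNReal.ofReal ε := by
    have := eventually_all.2 fun k : Fin 3 => hR3 0 (bet k) (zet Φ k) (fun i => (u i : E3 → ℂ))
      (f k : E3 → ℂ) (zet_smooth Φ hΦ k) (fun i => Lp.memLp (u i)) (Lp.memLp (f k))
      (WPP_adj Φ hΦ u f hu k) _ hε'
    filter_upwards [this] with ν hν
    exact eventually_all.2 hν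
  have e3 := hR3 (fun i j => if i = j then 1 else 0) 0 (fun i x => (1 / 2) * dbar i (Ph Φ) x)
      (fun i => (u i : E3 → ℂ)) (ρ : E3 → ℂ)
      (fun i => contDiff_const.mul (k2_dbar_smooth (k2_Ph hΦ) i)) (fun i => Lp.memLp (u i))
      (Lp.memLp ρ) (WPP_S Φ hΦ u ρ hρ) _ hε'
  obtain ⟨ν, h1, h2, h3⟩ := (e1.and (e2.and e3)).exists
  obtain ⟨n, h1, h2, h3⟩ := (h1.and (h2.and h3)).exists
  have hG : ∀ i : Fin 3, IsTest Set.univ (R ν n (u i)) := fun i => hR1 ν n _ (Lp.memLp (u i))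
  refine ⟨fun i => R ν n (u i), hG, ?_, ?_, ?_⟩
  · intro i
    rw [norm_tl_sub]
    exact (ENNReal.toReal_lt_of_lt_ofReal (h1 i))
  · intro k
    have ht : IsTest Set.univ (fun x => AS Φ (k + 2) (R ν n (u (k + 1))) x -
        AS Φ (k + 1) (R ν n (u (k + 2))) x) := by
      have t1 := k2_AS_test hΦ (k + 2) (hG (k + 1))
      have t2 := k2_AS_test hΦ (k + 1) (hG (k + 2))
      exact k2_test (t1.smooth.sub t2.smooth) (t1.compact.sub t2.compact)
    refine ⟨ht, ?_⟩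
    rw [norm_tl_sub]
    have := h2 k
    simp only [PP_adj] at this
    exact (ENNReal.toReal_lt_of_lt_ofReal this)
  · have ht : IsTest Set.univ (fun x => ∑ j, AA Φ j (R ν n (u j)) x) := by
      have t := fun j => k2_AA_test hΦ j (hG j)
      simp only [Fin.sum_univ_three]
      exact k2_test (((t 0).smooth.add (t 1).smooth).add (t 2).smooth)
        (((t 0).compact.add (t 1).compact).add (t 2).compact)
    refine ⟨ht, ?_⟩
    rw [norm_tl_sub]
    simp only [PP_S] at h3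
    exact (ENNReal.toReal_lt_of_lt_ofReal h3)

theorem apriori (hF : Friedrichs_stmt) (hK : Kohn2_stmt) (Φ : E3 → ℝ) (hΦ : ContDiff ℝ ∞ Φ)
    (c : ℝ) (hc : HPos2 Φ c) (u f : FF) (ρ : LL)
    (hu : AdjR (TT Φ hΦ) u f) (hρ : (u, ρ) ∈ SS Φ hΦ) :
    c * ‖u‖ ^ 2 ≤ ‖f‖ ^ 2 + ‖ρ‖ ^ 2 := by
  have hpos : ∀ m : ℕ, (0 : ℝ) < 1 / ((m : ℝ) + 1) := fun m => by positivity
  choose G hG h1 h2 h3 using fun m : ℕ => approx hF Φ hΦ u f ρ hu hρ _ (hpos m)
  choose t2 h2 using h2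
  choose t3 h3 using h3
  have hz : Tendsto (fun m : ℕ => 1 / ((m : ℝ) + 1)) atTop (𝓝 0) :=
    tendsto_one_div_add_atTop_nhds_zero_nat
  have lim : ∀ (a : ℕ → LL) (b : LL), (∀ m, ‖a m - b‖ < 1 / ((m : ℝ) + 1)) →
      Tendsto (fun m => ‖a m‖ ^ 2) atTop (𝓝 (‖b‖ ^ 2)) := by
    intro a b hab
    have : Tendsto a atTop (𝓝 b) := by
      rw [tendsto_iff_norm_sub_tendsto_zero]
      exact squeeze_zero (fun m => norm_nonneg _) (fun m => (hab m).le) hz
    exact this.norm.pow 2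
  have L1 := fun i : Fin 3 => lim (fun m => tl (G m i) (hG m i)) (u i) (fun m => h1 m i)
  have L2 := fun k : Fin 3 => lim (fun m => tl _ (t2 m k)) (f k) (fun m => h2 m k)
  have L3 := lim (fun m => tl _ (t3 m)) ρ h3
  have A1 : Tendsto (fun m => c * ∑ i, ‖tl (G m i) (hG m i)‖ ^ 2) atTop
      (𝓝 (c * ∑ i, ‖u i‖ ^ 2)) := (tendsto_finsetSum _ fun i _ => L1 i).const_mul c
  have A2 : Tendsto (fun m => ‖tl _ (t3 m)‖ ^ 2 + ∑ k, ‖tl _ (t2 m k)‖ ^ 2) atTop
      (𝓝 (‖ρ‖ ^ 2 + ∑ k, ‖f k‖ ^ 2)) := L3.add (tendsto_finsetSum _ fun i _ => L2 i)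
  have A3 : ∀ m, c * ∑ i, ‖tl (G m i) (hG m i)‖ ^ 2 ≤
      ‖tl _ (t3 m)‖ ^ 2 + ∑ k, ‖tl _ (t2 m k)‖ ^ 2 := by
    intro m
    simp only [norm_tl]
    exact hK Φ hΦ c hc (G m) (hG m)
  have := le_of_tendsto_of_tendsto' A1 A2 A3
  rw [PiLp.norm_sq_eq_of_L2, PiLp.norm_sq_eq_of_L2]
  linarith

/-! ### exponentials -/

noncomputable def Ex (Φ : E3 → ℝ) (s : ℝ) (x : E3) : ℂ := ((Real.exp (s * Φ x) : ℝ) : ℂ)

theorem Ex_smooth {Φ : E3 → ℝ} (hΦ : ContDiff ℝ ∞ Φ) (s : ℝ) : ContDiff ℝ ∞ (Ex Φ s) := by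
  unfold Ex
  exact Complex.ofRealCLM.contDiff.comp (contDiff_const.mul hΦ).exp

theorem fd_Ex {Φ : E3 → ℝ} (hΦ : ContDiff ℝ ∞ Φ) (s : ℝ) (x e : E3) :
    fderiv ℝ (Ex Φ s) x e = Ex Φ s x * (s * fderiv ℝ (Ph Φ) x e) := by
  have hd : HasFDerivAt Φ (fderiv ℝ Φ x) x := ((hΦ.differentiable (by simp)) x).hasFDerivAt
  have h1 : HasFDerivAt (Ph Φ) (Complex.ofRealCLM.comp (fderiv ℝ Φ x)) x :=
    Complex.ofRealCLM.hasFDerivAt.comp x hd
  have h2 : HasFDerivAt (Ex Φ s)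
      (Complex.ofRealCLM.comp (Real.exp (s * Φ x) • (s • fderiv ℝ Φ x))) x :=
    Complex.ofRealCLM.hasFDerivAt.comp x ((hd.const_mul s).exp)
  rw [h1.fderiv, h2.fderiv]
  simp only [ContinuousLinearMap.comp_apply, _root_.smul_apply, smul_eq_mul,
    Complex.ofRealCLM_apply, Ex]
  push_cast
  ring

theorem fd_mul {a b : E3 → ℂ} {x : E3} (ha : DifferentiableAt ℝ a x)
    (hb : DifferentiableAt ℝ b x) (e : E3) :
    fderiv ℝ (fun y => a y * b y) x e = fderiv ℝ a x e * b x + a x * fderiv ℝ b x e := by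
  have h := (ha.hasFDerivAt.mul hb.hasFDerivAt).fderiv
  have h' := congrArg (fun T : E3 →L[ℝ] ℂ => T e) h
  refine h'.trans ?_
  simp only [_root_.add_apply, _root_.smul_apply, smul_eq_mul]
  ring

theorem dbar_mul {a b : E3 → ℂ} {x : E3} (ha : DifferentiableAt ℝ a x)
    (hb : DifferentiableAt ℝ b x) (j : Fin 3) :
    dbar j (fun y => a y * b y) x = dbar j a x * b x + a x * dbar j b x := by
  unfold dbar
  rw [fd_mul ha hb, fd_mul ha hb]
  ring

theorem dbar_Ex {Φ : E3 → ℝ} (hΦ : ContDiff ℝ ∞ Φ) (s : ℝ) (j : Fin 3) (x : E3) :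
    dbar j (Ex Φ s) x = Ex Φ s x * (s * dbar j (Ph Φ) x) := by
  unfold dbar
  rw [fd_Ex hΦ, fd_Ex hΦ]
  ring

/-- `A_j (e^{-Φ/2} g) = e^{-Φ/2} ∂̄_j g` -/
theorem AA_Ex {Φ : E3 → ℝ} (hΦ : ContDiff ℝ ∞ Φ) {g : E3 → ℂ} (hg : ContDiff ℝ ∞ g)
    (j : Fin 3) (x : E3) :
    AA Φ j (fun y => Ex Φ (-(1 / 2)) y * g y) x = Ex Φ (-(1 / 2)) x * dbar j g x := by
  have h : AA Φ j (fun y => Ex Φ (-(1 / 2)) y * g y) x =
    dbar j (fun y => Ex Φ (-(1 / 2)) y * g y) x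
      + (1 / 2) * dbar j (Ph Φ) x * (Ex Φ (-(1 / 2)) x * g x) := rfl
  rw [h, dbar_mul (k2_diff (Ex_smooth hΦ _) x) (k2_diff hg x), dbar_Ex hΦ]
  push_cast
  ring

/-- `A_j^t (e^{Φ/2} φ) = - e^{Φ/2} ∂̄_j φ` -/
theorem AT_Ex {Φ : E3 → ℝ} (hΦ : ContDiff ℝ ∞ Φ) {g : E3 → ℂ} (hg : ContDiff ℝ ∞ g)
    (j : Fin 3) (x : E3) :
    AT' Φ j (fun y => Ex Φ (1 / 2) y * g y) x = - (Ex Φ (1 / 2) x * dbar j g x) := by
  have h : AT' Φ j (fun y => Ex Φ (1 / 2) y * g y) x =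
    - dbar j (fun y => Ex Φ (1 / 2) y * g y) x
      + (1 / 2) * dbar j (Ph Φ) x * (Ex Φ (1 / 2) x * g x) := rfl
  rw [h, dbar_mul (k2_diff (Ex_smooth hΦ _) x) (k2_diff hg x), dbar_Ex hΦ]
  push_cast
  ring

theorem Ex_inv (Φ : E3 → ℝ) (x : E3) : Ex Φ (1 / 2) x * (Real.exp (-Φ x / 2) : ℝ) = 1 := by
  unfold Ex
  rw [← Complex.ofReal_mul, ← Real.exp_add]
  rw [show 1 / 2 * Φ x + -Φ x / 2 = 0 by ring]
  simp

theorem Ex_neg (Φ : E3 → ℝ) (x : E3) : Ex Φ (-(1 / 2)) x = (Real.exp (-Φ x / 2) : ℝ) := by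
  unfold Ex
  rw [show -(1 / 2) * Φ x = -Φ x / 2 by ring]

theorem sq_exp (Φ : E3 → ℝ) (x : E3) (z : ℂ) :
    ‖z * (Real.exp (-Φ x / 2) : ℝ)‖ ^ 2 = ‖z‖ ^ 2 * Real.exp (-Φ x) := by
  rw [norm_mul, mul_pow, Complex.norm_real, Real.norm_eq_abs, abs_of_pos (Real.exp_pos _)]
  congr 1
  rw [sq, ← Real.exp_add]
  congr 1
  ring

end JW2

open JW2

theorem ws2 (hF : Friedrichs_stmt) (hK : Kohn2_stmt) : WS2_stmt := by
  intro Φ hΦ c hc hH g hg
  -- the data
  have hgt : ∀ j, IsTest Set.univ (fun x => Ex Φ (-(1 / 2)) x * g j x) := fun j =>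
    k2_mul_test (Ex_smooth hΦ _) (hg j)
  have hAt : ∀ j, IsTest Set.univ (AA Φ j (fun x => Ex Φ (-(1 / 2)) x * g j x)) := fun j =>
    k2_AA_test hΦ j (hgt j)
  have hρt : IsTest Set.univ (fun x => ∑ j, AA Φ j (fun x => Ex Φ (-(1 / 2)) x * g j x) x) := by
    simp only [Fin.sum_univ_three]
    exact k2_test (((hAt 0).smooth.add (hAt 1).smooth).add (hAt 2).smooth)
        (((hAt 0).compact.add (hAt 1).compact).add (hAt 2).compact)
  set gt : FF := WithLp.toLp 2 fun j => tl _ (hgt j) with hgt_def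
  set ρ : LL := tl _ hρt with hρ_def
  have hmem : (gt, ρ) ∈ SS Φ hΦ := by
    rw [mem_SS]
    intro φ hφ
    have e1 : ∀ i, ∫ x, gt i x * AT' Φ i φ x =
        ∫ x, AA Φ i (fun x => Ex Φ (-(1 / 2)) x * g i x) x * φ x := by
      intro i
      rw [← AT_ibp hΦ (hgt i) hφ]
      apply integral_congr_ae
      filter_upwards [tl_coe (hgt i)] with x hx
      rw [hgt_def]
      exact congrArg (· * AT' Φ i φ x) hx
    have e2 : ∫ x, ρ x * φ x =
        ∫ x, (∑ j, AA Φ j (fun x => Ex Φ (-(1 / 2)) x * g j x) x) * φ x := by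
      apply integral_congr_ae
      filter_upwards [tl_coe hρt] with x hx
      rw [hρ_def, hx]
    simp only [e1]
    rw [e2, ← integral_finsetSum _ (fun i _ => k2_int (k2_mul_test (hAt i).smooth hφ))]
    congr 1
    funext x
    rw [Finset.sum_mul]
  obtain ⟨vt, g1, hT, hn1, hn2⟩ := JA1.solve_of_apriori (TT Φ hΦ) (SS Φ hΦ) (SS_closed Φ hΦ)
    (JA0.biadj (TT Φ hΦ) (TT_closed Φ hΦ)) (hST Φ hΦ) c hc
    (fun u f ρ hu hρ => apriori hF hK Φ hΦ c hH u f ρ hu hρ) gt ρ hmem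
  rw [mem_TT] at hT
  have hv : ∀ (a : E3 → ℂ) x, a x * Ex Φ (1 / 2) x * (Real.exp (-Φ x / 2) : ℝ) = a x := by
    intro a x
    rw [mul_assoc, Ex_inv, mul_one]
  have he : ∀ j x, (g j x - g1 j x * Ex Φ (1 / 2) x) * (Real.exp (-Φ x / 2) : ℝ) =
      Ex Φ (-(1 / 2)) x * g j x - g1 j x := by
    intro j x
    rw [sub_mul, hv, Ex_neg]
    ring
  refine ⟨fun j x => vt j x * Ex Φ (1 / 2) x, fun j x => g j x - g1 j x * Ex Φ (1 / 2) x,
    ?_, ?_, ?_, ?_, ?_⟩
  · intro j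
    simp only [hv]
    exact Lp.memLp (vt j)
  · intro j
    simp only [he]
    exact (test_memLp (hgt j)).sub (Lp.memLp (g1 j))
  · intro i φ hφ
    have hψ : IsTest Set.univ (fun x => Ex Φ (1 / 2) x * φ x) :=
      k2_mul_test (Ex_smooth hΦ _) hφ
    have h := hT i _ hψ
    rw [← integral_sub (mul_int (AT_test hΦ _ hψ) _) (mul_int (AT_test hΦ _ hψ) _)] at h
    simp only [AT_Ex hΦ hφ.smooth] at h
    have e1 : ∫ x, (vt (i + 2) x * Ex Φ (1 / 2) x * dbar (i + 1) φ x -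
        vt (i + 1) x * Ex Φ (1 / 2) x * dbar (i + 2) φ x) =
        - ∫ x, (vt (i + 2) x * -(Ex Φ (1 / 2) x * dbar (i + 1) φ x) -
        vt (i + 1) x * -(Ex Φ (1 / 2) x * dbar (i + 2) φ x)) := by
      rw [← integral_neg]
      congr 1
      funext x
      ring
    rw [e1, h]
    congr 2
    funext x
    ring
  · have e1 : ∀ j, ∫ x, ‖vt j x * Ex Φ (1 / 2) x‖ ^ 2 * Real.exp (-Φ x) = ‖vt j‖ ^ 2 := by
      intro j
      rw [norm_sq_L]
      congr 1
      funext x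
      rw [← sq_exp, hv]
    have e2 : ∀ j, ∫ x, ‖g j x‖ ^ 2 * Real.exp (-Φ x) = ‖gt j‖ ^ 2 := by
      intro j
      rw [hgt_def]
      refine Eq.trans ?_ (norm_tl (hgt j)).symm
      congr 1
      funext x
      rw [← sq_exp, Ex_neg, mul_comm]
    simp only [e1, e2]
    rw [PiLp.norm_sq_eq_of_L2, PiLp.norm_sq_eq_of_L2] at hn1
    exact hn1
  · have e1 : ∀ j, ∫ x, ‖g j x - g1 j x * Ex Φ (1 / 2) x‖ ^ 2 * Real.exp (-Φ x) =
        ‖(gt - g1) j‖ ^ 2 := by
      intro j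
      rw [norm_sq_L]
      apply integral_congr_ae
      have h1 : ((gt - g1) j : LL) = gt j - g1 j := rfl
      rw [h1]
      filter_upwards [Lp.coeFn_sub (gt j) (g1 j), tl_coe (hgt j)] with x hx hx2
      rw [← sq_exp, he, hx, Pi.sub_apply]
      congr 3
      exact hx2.symm
    have e2 : ∫ x, ‖∑ j, dbar j (g j) x‖ ^ 2 * Real.exp (-Φ x) = ‖ρ‖ ^ 2 := by
      rw [hρ_def, norm_tl]
      congr 1
      funext x
      rw [← sq_exp]
      simp only [AA_Ex hΦ (hg _).smooth]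
      rw [← Finset.mul_sum, Ex_neg, mul_comm]
    simp only [e1]
    rw [e2]
    rw [PiLp.norm_sq_eq_of_L2] at hn2
    exact hn2

end DbarN.JWS2
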