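import Pool.Agent.H314.DN.Stmts3
import Pool.Agent.H314.DN.A0
import Pool.Agent.H314.DN.A1

set_option autoImplicit false

open MeasureTheory Complex Filter Topology
open scoped ContDiff InnerProductSpace ENNReal ComplexConjugate

namespace DbarN.JMD

namespace JModes

/-- circle action lemma -/
theorem circ {H : Type} [NormedAddCommGroup H] [NormedSpace ℂ H] [CompleteSpace H]
    (U : ℝ → H →L[ℂ] H) (hadd : ∀ s t v, U (s + t) v = U s (U t v))
    (h0 : ∀ v, U 0 v = v)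
    (hper : ∀ v, U (2 * Real.pi) v = v) (hcont : ∀ v, Continuous (fun t => U t v))
    (D : Submodule ℂ H) (hD : IsClosed (D : Set H)) (hinv : ∀ t, ∀ v ∈ D, U t v ∈ D)
    (ℓ : H →L[ℂ] ℂ) (v : H) (hv : v ∈ D) (hl : ℓ v ≠ 0) :
    ∃ (j : ℤ) (v' : H), v' ∈ D ∧ ℓ v' ≠ 0 ∧
      ∀ t : ℝ, U t v' = Complex.exp (I * (j * t)) • v' := by
  by_contra hcon
  push Not at hcon
  have hper' : ∀ t v, U (t + 2 * Real.pi) v = U t v := by
    intro t v
    rw [hadd, hper]
  let e : ℤ → ℝ → ℂ := fun j θ => Complex.exp (-(I * (j * θ)))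
  have hec : ∀ j, Continuous (e j) := fun j => by fun_prop
  have heper : ∀ j θ, e j (θ + 2 * Real.pi) = e j θ := by
    intro j θ
    simp only [e]
    rw [Complex.exp_eq_exp_iff_exists_int]
    exact ⟨-j, by push_cast; ring⟩
  have headd : ∀ j s θ, e j (s + θ) = e j s * e j θ := by
    intro j s θ
    simp only [e]
    rw [← Complex.exp_add]; congr 1; push_cast; ring
  let G : ℤ → ℝ → H := fun j θ => e j θ • U θ v
  have hGc : ∀ j, Continuous (G j) := fun j => (hec j).smul (hcont v)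
  have hGper : ∀ j, Function.Periodic (G j) (2 * Real.pi) := by
    intro j θ
    simp only [G, heper, hper']
  let w : ℤ → H := fun j => ∫ θ in (0:ℝ)..(2*Real.pi), G j θ
  have hwD : ∀ j, w j ∈ D := by
    intro j
    have hmem : ∀ θ, G j θ ∈ D := fun θ => D.smul_mem _ (hinv θ v hv)
    have : CompleteSpace D := hD.completeSpace_coe
    let G' : ℝ → D := fun θ => ⟨G j θ, hmem θ⟩
    have hG'c : Continuous G' := (hGc j).subtype_mk _
    have h1 := D.subtypeL.intervalIntegral_comp_comm (hG'c.intervalIntegrable (μ := volume) 0 (2 * Real.pi))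
    have h2 : w j = D.subtypeL (∫ θ in (0:ℝ)..(2*Real.pi), G' θ) := by
      rw [← h1]; rfl
    rw [h2]
    exact (∫ θ in (0:ℝ)..(2*Real.pi), G' θ).2
  have hwU : ∀ j (t : ℝ), U t (w j) = Complex.exp (I * (j * t)) • w j := by
    intro j t
    have h1 := (U t).intervalIntegral_comp_comm ((hGc j).intervalIntegrable (μ := volume) 0 (2 * Real.pi))
    rw [← h1]
    have h2 : ∀ θ, U t (G j θ) = Complex.exp (I * (j * t)) • G j (t + θ) := by
      intro θ
      simp only [G]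
      rw [map_smul, ← hadd, smul_smul, headd, ← mul_assoc]
      congr 1
      simp only [e]
      rw [← Complex.exp_add]
      simp
    simp only [h2]
    rw [intervalIntegral.integral_smul]
    congr 1
    rw [intervalIntegral.integral_comp_add_left (fun x => G j x) t]
    have h3 := (hGper j).intervalIntegral_add_eq t 0
    rw [zero_add] at h3
    rw [add_zero, h3]
  have hlw : ∀ j, ℓ (w j) = 0 := by
    intro j
    by_contra hne
    obtain ⟨t, ht⟩ := hcon j (w j) (hwD j) hne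
    exact ht (hwU j t)
  -- Fourier coefficients
  have : Fact (0 < 2 * Real.pi) := ⟨Real.two_pi_pos⟩
  have hFper : Function.Periodic (fun θ => ℓ (U θ v)) (2 * Real.pi) := by
    intro θ
    simp only [hper']
  have hFc : Continuous (fun θ => ℓ (U θ v)) := ℓ.continuous.comp (hcont v)
  let f : C(AddCircle (2 * Real.pi), ℂ) :=
    ⟨hFper.lift, by
      exact continuous_coinduced_dom.mpr hFc⟩
  have hf0 : ∀ n, fourierCoeff f n = 0 := by
    intro n
    rw [fourierCoeff_eq_intervalIntegral _ n 0]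
    have h1 := ℓ.intervalIntegral_comp_comm ((hGc n).intervalIntegrable (μ := volume) 0 (2 * Real.pi))
    have h2 : (fun x : ℝ => (fourier (-n) (x : AddCircle (2 * Real.pi)) : ℂ) •
        f (x : AddCircle (2 * Real.pi))) = fun x => ℓ (G n x) := by
      funext x
      rw [fourier_coe_apply]
      simp only [G, map_smul]
      congr 1
      simp only [e]
      congr 1
      have : (Real.pi : ℂ) ≠ 0 := by exact_mod_cast Real.pi_ne_zero
      push_cast
      field_simp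
    rw [zero_add, h2, h1]
    show (1 / (2 * Real.pi)) • ℓ (w n) = 0
    rw [hlw, smul_zero]
  have hsum : Summable (fourierCoeff f) := by
    have : fourierCoeff f = fun _ => 0 := funext hf0
    rw [this]; exact summable_zero
  have h1 := hasSum_fourier_series_of_summable hsum
  have h2 : HasSum (fun i => fourierCoeff f i • (fourier i : C(AddCircle (2 * Real.pi), ℂ))) 0 := by
    have : (fun i => fourierCoeff f i • (fourier i : C(AddCircle (2 * Real.pi), ℂ)))
        = fun _ => 0 := by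
      funext i; rw [hf0, zero_smul]
    rw [this]; exact hasSum_zero
  have h3 : f = 0 := h1.unique h2
  have h4 : f ((0:ℝ) : AddCircle (2 * Real.pi)) = ℓ (U 0 v) := rfl
  rw [h3, h0] at h4
  exact hl h4.symm


noncomputable def cv (a b : ℝ) : Fin 3 → ℂ := ![1, Complex.exp (a * I), Complex.exp (b * I)]

theorem cv_norm (a b : ℝ) (i : Fin 3) : ‖cv a b i‖ = 1 := by
  fin_cases i <;> simp [cv, Complex.norm_exp_ofReal_mul_I]

theorem rot_eq (a b : ℝ) (x : E3) : rot a b x = fun i => cv a b i * x i := by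
  funext i; fin_cases i <;> simp [rot, cv]

theorem rot_zero (x : E3) : rot 0 0 x = x := by
  funext i; fin_cases i <;> simp [rot]

theorem rot_add (a b a' b' : ℝ) (x : E3) : rot (a + a') (b + b') x = rot a b (rot a' b' x) := by
  funext i
  fin_cases i
  · simp [rot]
  · simp [rot, add_mul, Complex.exp_add, mul_assoc]
  · simp [rot, add_mul, Complex.exp_add, mul_assoc]

theorem rot_neg_left (a b : ℝ) (x : E3) : rot (-a) (-b) (rot a b x) = x := by
  rw [← rot_add, neg_add_cancel, neg_add_cancel, rot_zero]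

theorem rot_neg_right (a b : ℝ) (x : E3) : rot a b (rot (-a) (-b) x) = x := by
  rw [← rot_add, add_neg_cancel, add_neg_cancel, rot_zero]

theorem rot_cont2 : Continuous (fun p : (ℝ × ℝ) × E3 => rot p.1.1 p.1.2 p.2) := by
  have : (fun p : (ℝ × ℝ) × E3 => rot p.1.1 p.1.2 p.2)
      = fun p => ![p.2 0, Complex.exp (p.1.1 * I) * p.2 1, Complex.exp (p.1.2 * I) * p.2 2] := rfl
  rw [this]
  refine continuous_pi fun i => ?_
  fin_cases i
  · simp; fun_prop
  · simp; fun_prop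
  · simp; fun_prop

theorem rot_cont (a b : ℝ) : Continuous (rot a b) :=
  rot_cont2.comp (Continuous.prodMk (continuous_const (y := (a, b))) continuous_id)

/-- the rotation as a homeomorphism -/
noncomputable def rotH (a b : ℝ) : E3 ≃ₜ E3 where
  toFun := rot a b
  invFun := rot (-a) (-b)
  left_inv := rot_neg_left a b
  right_inv := rot_neg_right a b
  continuous_toFun := rot_cont a b
  continuous_invFun := rot_cont (-a) (-b)

theorem mul_mp (c : ℂ) (hc : ‖c‖ = 1) :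
    MeasurePreserving (fun z : ℂ => c * z) volume volume := by
  have h := (rotation ⟨c, mem_sphere_zero_iff_norm.mpr hc⟩).measurePreserving
  exact h

theorem rot_mp (a b : ℝ) : MeasurePreserving (rot a b) volume volume := by
  have h := volume_preserving_pi (f := fun (i : Fin 3) (z : ℂ) => cv a b i * z)
    (fun i => mul_mp _ (cv_norm a b i))
  have e : rot a b = fun x i => cv a b i * x i := by
    funext x; exact rot_eq a b x
  rw [e]
  exact h

section Om
variable {Ω : Set E3}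

theorem rot_mpΩ (hΩ : IsOpen Ω) (hinv : ∀ a b x, rot a b x ∈ Ω ↔ x ∈ Ω) (a b : ℝ) :
    MeasurePreserving (rot a b) (volume.restrict Ω) (volume.restrict Ω) := by
  have h := (rot_mp a b).restrict_preimage hΩ.measurableSet
  have e : rot a b ⁻¹' Ω = Ω := by
    ext x; exact hinv a b x
  rwa [e] at h

theorem rot_me (a b : ℝ) : MeasurableEmbedding (rot a b) := (rotH a b).measurableEmbedding

/-- the unitary on functions -/
noncomputable def UU (hΩ : IsOpen Ω) (hinv : ∀ a b x, rot a b x ∈ Ω ↔ x ∈ Ω) (a b : ℝ) :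
    L2 Ω →ₗᵢ[ℂ] L2 Ω :=
  Lp.compMeasurePreservingₗᵢ ℂ (rot a b) (rot_mpΩ hΩ hinv a b)

theorem UU_coe (hΩ : IsOpen Ω) (hinv : ∀ a b x, rot a b x ∈ Ω ↔ x ∈ Ω) (a b : ℝ) (f : L2 Ω) :
    (UU hΩ hinv a b f : E3 → ℂ) =ᵐ[volume.restrict Ω] fun x => f (rot a b x) :=
  Lp.coeFn_compMeasurePreserving f (rot_mpΩ hΩ hinv a b)

theorem UU_add (hΩ : IsOpen Ω) (hinv : ∀ a b x, rot a b x ∈ Ω ↔ x ∈ Ω) (a b a' b' : ℝ)
    (f : L2 Ω) : UU hΩ hinv (a + a') (b + b') f = UU hΩ hinv a b (UU hΩ hinv a' b' f) := by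
  apply Lp.ext
  have h1 := UU_coe hΩ hinv (a + a') (b + b') f
  have h2 := UU_coe hΩ hinv a b (UU hΩ hinv a' b' f)
  have h3 := (rot_mpΩ hΩ hinv a b).quasiMeasurePreserving.ae_eq_comp (UU_coe hΩ hinv a' b' f)
  filter_upwards [h1, h2, h3] with x h1 h2 h3
  rw [h1, h2]
  have h3' : (UU hΩ hinv a' b' f : E3 → ℂ) (rot a b x) = f (rot a' b' (rot a b x)) := h3
  rw [h3', ← rot_add, add_comm a' a, add_comm b' b]

theorem UU_zero (hΩ : IsOpen Ω) (hinv : ∀ a b x, rot a b x ∈ Ω ↔ x ∈ Ω)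
    (f : L2 Ω) : UU hΩ hinv 0 0 f = f := by
  apply Lp.ext
  filter_upwards [UU_coe hΩ hinv 0 0 f] with x h1
  rw [h1, rot_zero]

theorem UU_cont (hΩ : IsOpen Ω) (hinv : ∀ a b x, rot a b x ∈ Ω ↔ x ∈ Ω) (f : L2 Ω) :
    Continuous (fun p : ℝ × ℝ => UU hΩ hinv p.1 p.2 f) := by
  let R : ℝ × ℝ → C(E3, E3) := fun p => ⟨rot p.1 p.2, rot_cont p.1 p.2⟩
  have hR : Continuous R := ContinuousMap.continuous_of_continuous_uncurry _ rot_cont2
  exact Continuous.compMeasurePreservingLp (f := fun _ => f) continuous_const hR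
    (fun p => rot_mpΩ hΩ hinv p.1 p.2) (by norm_num)

end Om

section Om2
variable {Ω : Set E3}

/-- the coefficients on forms -/
noncomputable def dd (a b : ℝ) (j : Fin 3) : ℂ := conj (cv a b j)

theorem dd_add (a b a' b' : ℝ) (j : Fin 3) : dd (a + a') (b + b') j = dd a b j * dd a' b' j := by
  unfold dd
  rw [← map_mul]
  congr 1
  fin_cases j
  · simp [cv]
  · simp [cv, add_mul, Complex.exp_add]
  · simp [cv, add_mul, Complex.exp_add]

theorem dd_zero (j : Fin 3) : dd 0 0 j = 1 := by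
  unfold dd
  fin_cases j <;> simp [cv]

theorem dd_norm (a b : ℝ) (j : Fin 3) : conj (dd a b j) * dd a b j = 1 := by
  unfold dd
  rw [Complex.conj_conj, Complex.mul_conj, Complex.normSq_eq_norm_sq, cv_norm]
  simp

theorem dd_cont (j : Fin 3) : Continuous (fun p : ℝ × ℝ => dd p.1 p.2 j) := by
  unfold dd
  refine Complex.continuous_conj.comp ?_
  fin_cases j
  · simp [cv]; exact continuous_const
  · simp [cv]; fun_prop
  · simp [cv]; fun_prop

/-- the unitary on forms -/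
noncomputable def VF (hΩ : IsOpen Ω) (hinv : ∀ a b x, rot a b x ∈ Ω ↔ x ∈ Ω) (a b : ℝ) :
    Form Ω →L[ℂ] Form Ω :=
  (PiLp.continuousLinearEquiv 2 ℂ (fun _ : Fin 3 => L2 Ω)).symm.toContinuousLinearMap ∘L
    (ContinuousLinearMap.pi (fun j : Fin 3 => dd a b j •
      ((UU hΩ hinv a b).toContinuousLinearMap ∘L
        (ContinuousLinearMap.proj j : (∀ _ : Fin 3, L2 Ω) →L[ℂ] L2 Ω)))) ∘L
    (PiLp.continuousLinearEquiv 2 ℂ (fun _ : Fin 3 => L2 Ω)).toContinuousLinearMap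

theorem VF_apply (hΩ : IsOpen Ω) (hinv : ∀ a b x, rot a b x ∈ Ω ↔ x ∈ Ω) (a b : ℝ)
    (g : Form Ω) (j : Fin 3) : VF hΩ hinv a b g j = dd a b j • UU hΩ hinv a b (g j) := rfl

theorem VF_add (hΩ : IsOpen Ω) (hinv : ∀ a b x, rot a b x ∈ Ω ↔ x ∈ Ω) (a b a' b' : ℝ)
    (g : Form Ω) : VF hΩ hinv (a + a') (b + b') g = VF hΩ hinv a b (VF hΩ hinv a' b' g) := by
  apply PiLp.ext
  intro j
  rw [VF_apply, VF_apply, VF_apply, UU_add, dd_add, map_smul, smul_smul]

theorem VF_zero (hΩ : IsOpen Ω) (hinv : ∀ a b x, rot a b x ∈ Ω ↔ x ∈ Ω)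
    (g : Form Ω) : VF hΩ hinv 0 0 g = g := by
  apply PiLp.ext
  intro j
  rw [VF_apply, UU_zero, dd_zero, one_smul]

theorem VF_cont (hΩ : IsOpen Ω) (hinv : ∀ a b x, rot a b x ∈ Ω ↔ x ∈ Ω) (g : Form Ω) :
    Continuous (fun p : ℝ × ℝ => VF hΩ hinv p.1 p.2 g) := by
  have h1 : Continuous (fun p : ℝ × ℝ => (fun j : Fin 3 => dd p.1 p.2 j •
      UU hΩ hinv p.1 p.2 (g j) : ∀ _ : Fin 3, L2 Ω)) :=
    continuous_pi fun j => (dd_cont j).smul (UU_cont hΩ hinv (g j))
  exact (PiLp.continuousLinearEquiv 2 ℂ (fun _ : Fin 3 => L2 Ω)).symm.continuous.comp h1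

theorem VF_inner (hΩ : IsOpen Ω) (hinv : ∀ a b x, rot a b x ∈ Ω ↔ x ∈ Ω) (a b : ℝ)
    (g h : Form Ω) : inner ℂ (VF hΩ hinv a b g) (VF hΩ hinv a b h) = inner ℂ g h := by
  rw [PiLp.inner_apply, PiLp.inner_apply]
  refine Finset.sum_congr rfl fun j _ => ?_
  rw [VF_apply, VF_apply, inner_smul_left, inner_smul_right, LinearIsometry.inner_map_map,
    ← mul_assoc, dd_norm, one_mul]

/-- chain rule -/
theorem dbar_rot (a b : ℝ) (ψ : E3 → ℂ) (hψ : Differentiable ℝ ψ) (j : Fin 3) (x : E3) :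
    dbar j (fun y => ψ (rot a b y)) x = dd a b j * dbar j ψ (rot a b x) := by
  let L : E3 →ₗ[ℝ] E3 :=
    { toFun := fun x i => cv a b i * x i
      map_add' := fun x y => by funext i; simp [mul_add]
      map_smul' := fun c x => by
        funext i
        simp only [Pi.smul_apply, RingHom.id_apply, Complex.real_smul]
        ring }
  have hL : ∀ x, rot a b x = L.toContinuousLinearMap x := fun x => rot_eq a b x
  have hR : HasFDerivAt (rot a b) L.toContinuousLinearMap x := by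
    have : rot a b = L.toContinuousLinearMap := funext hL
    rw [this]
    exact L.toContinuousLinearMap.hasFDerivAt
  have h1 : fderiv ℝ (fun y => ψ (rot a b y)) x
      = (fderiv ℝ ψ (rot a b x)).comp L.toContinuousLinearMap :=
    ((hψ (rot a b x)).hasFDerivAt.comp x hR).fderiv
  have h2 : ∀ c : ℂ, L.toContinuousLinearMap (Pi.single j c)
      = Pi.single j (cv a b j * c) := by
    intro c
    funext i
    show cv a b i * (Pi.single j c : E3) i = _
    by_cases hij : i = j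
    · subst hij; simp
    · simp [hij]
  have h3 : ∀ c : ℂ, (Pi.single j c : E3)
      = (c.re : ℝ) • (Pi.single j 1 : E3) + (c.im : ℝ) • (Pi.single j I : E3) := by
    intro c
    funext i
    by_cases hij : i = j
    · subst hij
      simp
    · simp [hij]
  unfold dbar
  rw [h1]
  simp only [ContinuousLinearMap.comp_apply, h2, mul_one]
  set D := fderiv ℝ ψ (rot a b x)
  rw [h3 (cv a b j), h3 (cv a b j * I)]
  simp only [map_add, map_smul, Complex.real_smul]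
  set c := cv a b j
  have e1 : dd a b j = (c.re : ℂ) - c.im * I := by
    unfold dd
    show conj c = _
    apply Complex.ext <;> simp
  rw [e1]
  have e2 : (c * I).re = -c.im := by simp
  have e3 : (c * I).im = c.re := by simp
  rw [e2, e3]
  push_cast
  linear_combination ((1:ℂ) / 2 * c.im * D (Pi.single j I)) * Complex.I_sq

theorem exL (Ω : Set E3) (ψ : E3 → ℂ) (hc : Continuous ψ) (hs : HasCompactSupport ψ) :
    ∃ L : L2 Ω →L[ℂ] ℂ, ∀ f : L2 Ω, L f = ∫ x in Ω, f x * ψ x := by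
  have hc' : Continuous (fun x => conj (ψ x)) := Complex.continuous_conj.comp hc
  have hs' : HasCompactSupport (fun x => conj (ψ x)) :=
    hs.comp_left (g := fun z : ℂ => conj z) (by simp)
  have hm : MemLp (fun x => conj (ψ x)) 2 ((volume : Measure E3).restrict Ω) :=
    hc'.memLp_of_hasCompactSupport hs'
  refine ⟨innerSL ℂ (hm.toLp _), fun f => ?_⟩
  rw [innerSL_apply_apply, L2.inner_def]
  refine integral_congr_ae ?_
  filter_upwards [hm.coeFn_toLp] with x hx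
  rw [hx, RCLike.inner_apply]
  simp

theorem dbar_continuous {φ : E3 → ℂ} (h : IsTest Ω φ) (j : Fin 3) : Continuous (dbar j φ) := by
  have h1 : Continuous (fderiv ℝ φ) := h.smooth.continuous_fderiv (by simp)
  unfold dbar
  have h2 := h1.clm_apply (continuous_const (y := (Pi.single j 1 : E3)))
  have h3 := h1.clm_apply (continuous_const (y := (Pi.single j I : E3)))
  exact continuous_const.mul (h2.add (continuous_const.mul h3))

theorem dbar_compact {φ : E3 → ℂ} (h : IsTest Ω φ) (j : Fin 3) :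
    HasCompactSupport (dbar j φ) := by
  have h2 := h.compact.fderiv_apply (𝕜 := ℝ) (Pi.single j 1 : E3)
  have h3 := h.compact.fderiv_apply (𝕜 := ℝ) (Pi.single j I : E3)
  have h4 : HasCompactSupport (fun x => fderiv ℝ φ x (Pi.single j 1)
      + I * fderiv ℝ φ x (Pi.single j I)) := h2.add (h3.mul_left (f := fun _ => I))
  exact h4.mul_left (f := fun _ => (1 / 2 : ℂ))

theorem isTest_rot (hinv : ∀ a b x, rot a b x ∈ Ω ↔ x ∈ Ω) (a b : ℝ) {φ : E3 → ℂ}
    (h : IsTest Ω φ) : IsTest Ω (fun x => φ (rot a b x)) := by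
  refine ⟨?_, ?_, ?_⟩
  · have : ContDiff ℝ ∞ (rot a b) := by
      have e : rot a b = fun x i => cv a b i * x i := by
        funext x; exact rot_eq a b x
      rw [e, contDiff_pi]
      intro i
      exact contDiff_const.mul (contDiff_apply ℝ ℂ i)
    exact h.smooth.comp this
  · exact h.compact.comp_homeomorph (rotH a b)
  · intro x hx
    have h1 := tsupport_comp_subset_preimage φ (rot_cont a b) hx
    exact (hinv a b x).mp (h.supp h1)

theorem IsDbar0_rot (hΩ : IsOpen Ω) (hinv : ∀ a b x, rot a b x ∈ Ω ↔ x ∈ Ω) (a b : ℝ)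
    (f : L2 Ω) (g : Form Ω) (h : IsDbar0 Ω f g) :
    IsDbar0 Ω (UU hΩ hinv a b f) (VF hΩ hinv a b g) := by
  intro j φ hφ
  set ψ : E3 → ℂ := fun x => φ (rot (-a) (-b) x) with hψ
  have hψt : IsTest Ω ψ := isTest_rot hinv (-a) (-b) hφ
  have hφψ : φ = fun x => ψ (rot a b x) := by
    funext x
    simp only [hψ, rot_neg_left]
  have hd : ∀ x, dbar j φ x = dd a b j * dbar j ψ (rot a b x) := by
    intro x
    conv_lhs => rw [hφψ]
    exact dbar_rot a b ψ (hψt.smooth.differentiable (by simp)) j x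
  have key : ∀ F : E3 → ℂ, ∫ x in Ω, F (rot a b x) = ∫ x in Ω, F x := fun F =>
    (rot_mpΩ hΩ hinv a b).integral_comp (rot_me a b) F
  have e1 : ∫ x in Ω, (UU hΩ hinv a b f : E3 → ℂ) x * dbar j φ x
      = dd a b j * ∫ x in Ω, f x * dbar j ψ x := by
    rw [← key (fun x => f x * dbar j ψ x), ← integral_const_mul]
    refine integral_congr_ae ?_
    filter_upwards [UU_coe hΩ hinv a b f] with x hx
    rw [hx, hd]; ring
  have e2 : ∫ x in Ω, (VF hΩ hinv a b g j : E3 → ℂ) x * φ x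
      = dd a b j * ∫ x in Ω, g j x * ψ x := by
    rw [← key (fun x => g j x * ψ x), ← integral_const_mul]
    refine integral_congr_ae ?_
    rw [VF_apply]
    filter_upwards [UU_coe hΩ hinv a b (g j),
      Lp.coeFn_smul (dd a b j) (UU hΩ hinv a b (g j))] with x hx hx2
    rw [hx2, Pi.smul_apply, hx, smul_eq_mul]
    have : φ x = ψ (rot a b x) := congrFun hφψ x
    rw [this]; ring
  rw [e1, e2, h j ψ hψt]
  ring

theorem IsAdj0_rot (hΩ : IsOpen Ω) (hinv : ∀ a b x, rot a b x ∈ Ω ↔ x ∈ Ω) (a b : ℝ)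
    (u : Form Ω) (f : L2 Ω) (h : IsAdj0 Ω u f) :
    IsAdj0 Ω (VF hΩ hinv a b u) (UU hΩ hinv a b f) := by
  intro p g hpg
  have h1 := IsDbar0_rot hΩ hinv (-a) (-b) p g hpg
  have h2 := h _ _ h1
  have e1 : VF hΩ hinv a b (VF hΩ hinv (-a) (-b) g) = g := by
    rw [← VF_add, add_neg_cancel, add_neg_cancel, VF_zero]
  have e2 : UU hΩ hinv a b (UU hΩ hinv (-a) (-b) p) = p := by
    rw [← UU_add, add_neg_cancel, add_neg_cancel, UU_zero]
  rw [← VF_inner hΩ hinv a b, ← (UU hΩ hinv a b).inner_map_map, e1, e2] at h2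
  exact h2

/-- the space of eigenfunctions -/
noncomputable def DD (Ω : Set E3) (lam : ℝ) : Submodule ℂ (L2 Ω × Form Ω) where
  carrier := {p | IsDbar0 Ω p.1 p.2 ∧ IsAdj0 Ω p.2 ((lam : ℂ) • p.1)}
  add_mem' := by
    rintro p q ⟨hp1, hp2⟩ ⟨hq1, hq2⟩
    constructor
    · intro j φ hφ
      obtain ⟨L1, hL1⟩ := exL Ω (dbar j φ) (dbar_continuous hφ j) (dbar_compact hφ j)
      obtain ⟨L2, hL2⟩ := exL Ω φ hφ.smooth.continuous hφ.compact
      rw [← hL1, ← hL2]
      have h1 := hp1 j φ hφ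
      have h2 := hq1 j φ hφ
      rw [← hL1, ← hL2] at h1 h2
      show L1 (p.1 + q.1) = - L2 (p.2 j + q.2 j)
      rw [map_add, map_add, h1, h2]; ring
    · intro h g hg
      show inner ℂ g (p.2 + q.2) = inner ℂ h ((lam : ℂ) • (p.1 + q.1))
      rw [smul_add, inner_add_right, inner_add_right, hp2 h g hg, hq2 h g hg]
  zero_mem' := by
    constructor
    · intro j φ hφ
      obtain ⟨L1, hL1⟩ := exL Ω (dbar j φ) (dbar_continuous hφ j) (dbar_compact hφ j)
      obtain ⟨L2, hL2⟩ := exL Ω φ hφ.smooth.continuous hφ.compact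
      rw [← hL1, ← hL2]
      show L1 0 = - L2 0
      rw [map_zero, map_zero, neg_zero]
    · intro h g hg
      show inner ℂ g (0 : Form Ω) = inner ℂ h ((lam : ℂ) • (0 : L2 Ω))
      rw [smul_zero, inner_zero_right, inner_zero_right]
  smul_mem' := by
    rintro c p ⟨hp1, hp2⟩
    constructor
    · intro j φ hφ
      obtain ⟨L1, hL1⟩ := exL Ω (dbar j φ) (dbar_continuous hφ j) (dbar_compact hφ j)
      obtain ⟨L2, hL2⟩ := exL Ω φ hφ.smooth.continuous hφ.compact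
      rw [← hL1, ← hL2]
      have h1 := hp1 j φ hφ
      rw [← hL1, ← hL2] at h1
      show L1 (c • p.1) = - L2 (c • p.2 j)
      rw [map_smul, map_smul, h1, smul_neg]
    · intro h g hg
      show inner ℂ g (c • p.2) = inner ℂ h ((lam : ℂ) • (c • p.1))
      rw [smul_comm, inner_smul_right, inner_smul_right, hp2 h g hg]

theorem DD_closed (Ω : Set E3) (lam : ℝ) : IsClosed (DD Ω lam : Set (L2 Ω × Form Ω)) := by
  have e : (DD Ω lam : Set (L2 Ω × Form Ω)) =
      {p | IsDbar0 Ω p.1 p.2} ∩ {p | IsAdj0 Ω p.2 ((lam : ℂ) • p.1)} := rfl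
  rw [e]
  refine IsClosed.inter ?_ ?_
  · have e1 : {p : L2 Ω × Form Ω | IsDbar0 Ω p.1 p.2} = ⋂ (j : Fin 3) (φ : E3 → ℂ)
        (_ : IsTest Ω φ), {p | ∫ x in Ω, p.1 x * dbar j φ x = - ∫ x in Ω, p.2 j x * φ x} := by
      ext p
      simp only [Set.mem_ofPred_eq, Set.mem_iInter]
      rfl
    rw [e1]
    refine isClosed_iInter fun j => isClosed_iInter fun φ => isClosed_iInter fun hφ => ?_
    obtain ⟨L1, hL1⟩ := exL Ω (dbar j φ) (dbar_continuous hφ j) (dbar_compact hφ j)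
    obtain ⟨L2, hL2⟩ := exL Ω φ hφ.smooth.continuous hφ.compact
    have e2 : {p : DbarN.L2 Ω × Form Ω | ∫ x in Ω, p.1 x * dbar j φ x
        = - ∫ x in Ω, p.2 j x * φ x} = {p | L1 p.1 = - L2 (p.2 j)} := by
      ext p
      simp only [Set.mem_ofPred_eq, hL1, hL2]
    rw [e2]
    refine isClosed_eq (L1.continuous.comp continuous_fst) ?_
    refine (L2.continuous.comp ?_).neg
    exact (continuous_apply j).comp ((PiLp.continuous_ofLp 2 _).comp continuous_snd)
  · have e1 : {p : L2 Ω × Form Ω | IsAdj0 Ω p.2 ((lam : ℂ) • p.1)} = ⋂ (h : L2 Ω)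
        (g : Form Ω) (_ : IsDbar0 Ω h g), {p | inner ℂ g p.2 = inner ℂ h ((lam : ℂ) • p.1)} := by
      ext p
      simp only [Set.mem_ofPred_eq, Set.mem_iInter]
      rfl
    rw [e1]
    refine isClosed_iInter fun h => isClosed_iInter fun g => isClosed_iInter fun hg => ?_
    exact isClosed_eq (continuous_const.inner continuous_snd)
      (continuous_const.inner ((continuous_const (y := (lam : ℂ))).smul continuous_fst))

/-- the action on pairs -/
noncomputable def VV (hΩ : IsOpen Ω) (hinv : ∀ a b x, rot a b x ∈ Ω ↔ x ∈ Ω) (a b : ℝ) :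
    (L2 Ω × Form Ω) →L[ℂ] (L2 Ω × Form Ω) :=
  (UU hΩ hinv a b).toContinuousLinearMap.prodMap (VF hΩ hinv a b)

theorem VV_apply (hΩ : IsOpen Ω) (hinv : ∀ a b x, rot a b x ∈ Ω ↔ x ∈ Ω) (a b : ℝ)
    (p : L2 Ω × Form Ω) :
    VV hΩ hinv a b p = (UU hΩ hinv a b p.1, VF hΩ hinv a b p.2) := rfl

theorem VV_add (hΩ : IsOpen Ω) (hinv : ∀ a b x, rot a b x ∈ Ω ↔ x ∈ Ω) (a b a' b' : ℝ)
    (p : L2 Ω × Form Ω) :
    VV hΩ hinv (a + a') (b + b') p = VV hΩ hinv a b (VV hΩ hinv a' b' p) := by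
  rw [VV_apply, VV_apply, VV_apply, UU_add, VF_add]

theorem VV_zero (hΩ : IsOpen Ω) (hinv : ∀ a b x, rot a b x ∈ Ω ↔ x ∈ Ω)
    (p : L2 Ω × Form Ω) : VV hΩ hinv 0 0 p = p := by
  rw [VV_apply, UU_zero, VF_zero]

theorem VV_cont (hΩ : IsOpen Ω) (hinv : ∀ a b x, rot a b x ∈ Ω ↔ x ∈ Ω)
    (p : L2 Ω × Form Ω) : Continuous (fun q : ℝ × ℝ => VV hΩ hinv q.1 q.2 p) :=
  (UU_cont hΩ hinv p.1).prodMk (VF_cont hΩ hinv p.2)

theorem VV_mem (hΩ : IsOpen Ω) (hinv : ∀ a b x, rot a b x ∈ Ω ↔ x ∈ Ω) (lam : ℝ) (a b : ℝ)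
    (p : L2 Ω × Form Ω) (hp : p ∈ DD Ω lam) : VV hΩ hinv a b p ∈ DD Ω lam := by
  obtain ⟨h1, h2⟩ := hp
  refine ⟨IsDbar0_rot hΩ hinv a b _ _ h1, ?_⟩
  have := IsAdj0_rot hΩ hinv a b _ _ h2
  rw [map_smul] at this
  exact this

theorem rot_period (a b : ℝ) (x : E3) : rot (a + 2 * Real.pi) b x = rot a b x := by
  funext i
  fin_cases i
  · simp [rot]
  · simp only [rot]
    have : Complex.exp (((a + 2 * Real.pi : ℝ) : ℂ) * I) = Complex.exp (a * I) := by
      rw [Complex.exp_eq_exp_iff_exists_int]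
      exact ⟨1, by push_cast; ring⟩
    rw [this]
  · simp [rot]

theorem rot_period' (a b : ℝ) (x : E3) : rot a (b + 2 * Real.pi) x = rot a b x := by
  funext i
  fin_cases i
  · simp [rot]
  · simp [rot]
  · simp only [rot]
    have : Complex.exp (((b + 2 * Real.pi : ℝ) : ℂ) * I) = Complex.exp (b * I) := by
      rw [Complex.exp_eq_exp_iff_exists_int]
      exact ⟨1, by push_cast; ring⟩
    rw [this]

theorem UU_per1 (hΩ : IsOpen Ω) (hinv : ∀ a b x, rot a b x ∈ Ω ↔ x ∈ Ω) (f : L2 Ω) :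
    UU hΩ hinv (2 * Real.pi) 0 f = f := by
  apply Lp.ext
  filter_upwards [UU_coe hΩ hinv (2 * Real.pi) 0 f] with x h1
  rw [h1]
  have := rot_period 0 0 x
  rw [zero_add, rot_zero] at this
  rw [this]

theorem UU_per2 (hΩ : IsOpen Ω) (hinv : ∀ a b x, rot a b x ∈ Ω ↔ x ∈ Ω) (f : L2 Ω) :
    UU hΩ hinv 0 (2 * Real.pi) f = f := by
  apply Lp.ext
  filter_upwards [UU_coe hΩ hinv 0 (2 * Real.pi) f] with x h1
  rw [h1]
  have := rot_period' 0 0 x
  rw [zero_add, rot_zero] at this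
  rw [this]

theorem exp_2pi : Complex.exp (((2 * Real.pi : ℝ) : ℂ) * I) = 1 := by
  rw [Complex.exp_eq_one_iff]
  exact ⟨1, by push_cast; ring⟩

theorem dd_per1 (j : Fin 3) : dd (2 * Real.pi) 0 j = 1 := by
  unfold dd cv
  rw [exp_2pi]
  fin_cases j <;> simp

theorem dd_per2 (j : Fin 3) : dd 0 (2 * Real.pi) j = 1 := by
  unfold dd cv
  rw [exp_2pi]
  fin_cases j <;> simp

theorem VV_per1 (hΩ : IsOpen Ω) (hinv : ∀ a b x, rot a b x ∈ Ω ↔ x ∈ Ω)
    (p : L2 Ω × Form Ω) : VV hΩ hinv (2 * Real.pi) 0 p = p := by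
  rw [VV_apply, UU_per1]
  refine Prod.ext rfl ?_
  apply PiLp.ext
  intro j
  show dd (2 * Real.pi) 0 j • UU hΩ hinv (2 * Real.pi) 0 (p.2 j) = p.2 j
  rw [UU_per1, dd_per1, one_smul]

theorem VV_per2 (hΩ : IsOpen Ω) (hinv : ∀ a b x, rot a b x ∈ Ω ↔ x ∈ Ω)
    (p : L2 Ω × Form Ω) : VV hΩ hinv 0 (2 * Real.pi) p = p := by
  rw [VV_apply, UU_per2]
  refine Prod.ext rfl ?_
  apply PiLp.ext
  intro j
  show dd 0 (2 * Real.pi) j • UU hΩ hinv 0 (2 * Real.pi) (p.2 j) = p.2 j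
  rw [UU_per2, dd_per2, one_smul]

/-- eigenvectors of the first rotation -/
noncomputable def DE (hΩ : IsOpen Ω) (hinv : ∀ a b x, rot a b x ∈ Ω ↔ x ∈ Ω) (lam : ℝ) (j : ℤ) :
    Submodule ℂ (L2 Ω × Form Ω) where
  carrier := {p | p ∈ DD Ω lam ∧ ∀ t : ℝ, VV hΩ hinv t 0 p = Complex.exp (I * (j * t)) • p}
  add_mem' := by
    rintro p q ⟨hp1, hp2⟩ ⟨hq1, hq2⟩
    exact ⟨(DD Ω lam).add_mem hp1 hq1, fun t => by rw [map_add, hp2, hq2, smul_add]⟩
  zero_mem' := ⟨(DD Ω lam).zero_mem, fun t => by rw [map_zero, smul_zero]⟩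
  smul_mem' := by
    rintro c p ⟨hp1, hp2⟩
    exact ⟨(DD Ω lam).smul_mem c hp1, fun t => by rw [map_smul, hp2, smul_comm]⟩

theorem DE_closed (hΩ : IsOpen Ω) (hinv : ∀ a b x, rot a b x ∈ Ω ↔ x ∈ Ω) (lam : ℝ) (j : ℤ) :
    IsClosed (DE hΩ hinv lam j : Set (L2 Ω × Form Ω)) := by
  have e : (DE hΩ hinv lam j : Set (L2 Ω × Form Ω)) =
      (DD Ω lam : Set (L2 Ω × Form Ω)) ∩
      ⋂ t : ℝ, {p | VV hΩ hinv t 0 p = Complex.exp (I * (j * t)) • p} := by
    ext p
    simp only [Set.mem_inter_iff, Set.mem_iInter]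
    rfl
  rw [e]
  refine (DD_closed Ω lam).inter (isClosed_iInter fun t => ?_)
  exact isClosed_eq (VV hΩ hinv t 0).continuous
    ((continuous_const (y := Complex.exp (I * (j * t)))).smul continuous_id)

theorem VV_comm (hΩ : IsOpen Ω) (hinv : ∀ a b x, rot a b x ∈ Ω ↔ x ∈ Ω) (s t : ℝ)
    (p : L2 Ω × Form Ω) :
    VV hΩ hinv s 0 (VV hΩ hinv 0 t p) = VV hΩ hinv 0 t (VV hΩ hinv s 0 p) := by
  rw [← VV_add, ← VV_add]
  simp

theorem DE_inv (hΩ : IsOpen Ω) (hinv : ∀ a b x, rot a b x ∈ Ω ↔ x ∈ Ω) (lam : ℝ) (j : ℤ)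
    (t : ℝ) (p : L2 Ω × Form Ω) (hp : p ∈ DE hΩ hinv lam j) :
    VV hΩ hinv 0 t p ∈ DE hΩ hinv lam j := by
  obtain ⟨h1, h2⟩ := hp
  refine ⟨VV_mem hΩ hinv lam 0 t p h1, fun s => ?_⟩
  rw [VV_comm, h2, map_smul]

end Om2
end JModes


namespace JModes

theorem step1 {Ω : Set E3} (hΩ : IsOpen Ω) (hinv : ∀ a b x, rot a b x ∈ Ω ↔ x ∈ Ω) (lam : ℝ)
    (ℓ : (L2 Ω × Form Ω) →L[ℂ] ℂ) (v : L2 Ω × Form Ω) (hv : v ∈ DD Ω lam) (hl : ℓ v ≠ 0) :
    ∃ (j : ℤ) (v' : L2 Ω × Form Ω), v' ∈ DD Ω lam ∧ ℓ v' ≠ 0 ∧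
      ∀ t : ℝ, VV hΩ hinv t 0 v' = Complex.exp (I * (j * t)) • v' := by
  have hadd : ∀ (s t : ℝ) (v : L2 Ω × Form Ω), VV hΩ hinv (s + t) 0 v
      = VV hΩ hinv s 0 (VV hΩ hinv t 0 v) := by
    intro s t v
    have := VV_add hΩ hinv s 0 t 0 v
    rw [add_zero] at this
    exact this
  have hcont : ∀ v : L2 Ω × Form Ω, Continuous (fun t : ℝ => VV hΩ hinv t 0 v) := by
    intro v
    have h1 := VV_cont hΩ hinv v
    have h2 : Continuous (fun t : ℝ => ((t, 0) : ℝ × ℝ)) := by fun_prop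
    have h3 := h1.comp h2
    exact h3
  exact circ (fun t => VV hΩ hinv t 0) hadd (VV_zero hΩ hinv) (VV_per1 hΩ hinv) hcont
    (DD Ω lam) (DD_closed Ω lam) (fun t v hv => VV_mem hΩ hinv lam t 0 v hv) ℓ v hv hl

theorem step2 {Ω : Set E3} (hΩ : IsOpen Ω) (hinv : ∀ a b x, rot a b x ∈ Ω ↔ x ∈ Ω) (lam : ℝ)
    (j : ℤ)
    (ℓ : (L2 Ω × Form Ω) →L[ℂ] ℂ) (v : L2 Ω × Form Ω) (hv : v ∈ DE hΩ hinv lam j)
    (hl : ℓ v ≠ 0) :
    ∃ (k : ℤ) (v' : L2 Ω × Form Ω), v' ∈ DE hΩ hinv lam j ∧ ℓ v' ≠ 0 ∧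
      ∀ t : ℝ, VV hΩ hinv 0 t v' = Complex.exp (I * (k * t)) • v' := by
  have hadd : ∀ (s t : ℝ) (v : L2 Ω × Form Ω), VV hΩ hinv 0 (s + t) v
      = VV hΩ hinv 0 s (VV hΩ hinv 0 t v) := by
    intro s t v
    have := VV_add hΩ hinv 0 s 0 t v
    rw [add_zero] at this
    exact this
  have hcont : ∀ v : L2 Ω × Form Ω, Continuous (fun t : ℝ => VV hΩ hinv 0 t v) := by
    intro v
    have h1 := VV_cont hΩ hinv v
    have h2 : Continuous (fun t : ℝ => ((0, t) : ℝ × ℝ)) := by fun_prop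
    have h3 := h1.comp h2
    exact h3
  exact circ (fun t => VV hΩ hinv 0 t) hadd (VV_zero hΩ hinv) (VV_per2 hΩ hinv) hcont
    (DE hΩ hinv lam j) (DE_closed hΩ hinv lam j)
    (fun t v hv => DE_inv hΩ hinv lam j t v hv) ℓ v hv hl

end JModes

theorem modes : Modes_stmt := by
  intro Ω hΩ hinv f g lam h1 h2 hf0
  let ℓ : (L2 Ω × Form Ω) →L[ℂ] ℂ := (innerSL ℂ f) ∘L (ContinuousLinearMap.fst ℂ _ _)
  have hℓ : ∀ p, ℓ p = inner ℂ f p.1 := fun p => rfl
  have hl : ℓ (f, g) ≠ 0 := by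
    rw [hℓ]
    exact inner_self_ne_zero.mpr hf0
  obtain ⟨j, v, hvD, hvl, hvU⟩ := JModes.step1 hΩ hinv lam ℓ (f, g) ⟨h1, h2⟩ hl
  obtain ⟨k, v', hv'DE, hv'l, hv'2⟩ := JModes.step2 hΩ hinv lam j ℓ v ⟨hvD, hvU⟩ hvl
  obtain ⟨hv'D, hv'1⟩ := hv'DE
  refine ⟨j, k, v'.1, v'.2, hv'D.1, hv'D.2, ?_, ?_⟩
  · intro h
    apply hv'l
    rw [hℓ, h, inner_zero_right]
  · intro a b
    have e1 : JModes.VV hΩ hinv a b v' = Complex.exp (I * (j * a + k * b)) • v' := by
      have e0 := JModes.VV_add hΩ hinv a 0 0 b v'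
      rw [add_zero, zero_add] at e0
      rw [e0, hv'2 b, map_smul, hv'1, smul_smul, ← Complex.exp_add]
      congr 2; ring
    have e3 : JModes.UU hΩ hinv a b v'.1 = Complex.exp (I * (j * a + k * b)) • v'.1 :=
      congrArg Prod.fst e1
    have e4 := JModes.UU_coe hΩ hinv a b v'.1
    have e5 := Lp.coeFn_smul (Complex.exp (I * (j * a + k * b))) v'.1
    rw [e3] at e4
    filter_upwards [e4, e5] with x hx hx'
    rw [← hx, hx', Pi.smul_apply, smul_eq_mul]

end DbarN.JMD
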