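import Pool.Agent.H314.DN.Stmts3
import Pool.Agent.H314.DN.A0
import Pool.Agent.H314.DN.A1

set_option autoImplicit false

open MeasureTheory Complex Filter Topology
open scoped ContDiff InnerProductSpace ENNReal ComplexConjugate

namespace DbarN.JAP

namespace APL

theorem int_of_zero {U K : Set ℂ} (hU : IsOpen U) (hK : IsCompact K) (hKU : K ⊆ U)
    {F : ℂ → ℝ} (hF : ContinuousOn F U) (h0 : ∀ z, z ∉ K → F z = 0) : Integrable F := by
  have hc : Continuous F := by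
    rw [continuous_iff_continuousAt]
    intro z
    by_cases hz : z ∈ U
    · exact hF.continuousAt (hU.mem_nhds hz)
    · have hz' : z ∉ K := fun h => hz (hKU h)
      have : F =ᶠ[𝓝 z] fun _ => 0 := by
        filter_upwards [hK.isClosed.isOpen_compl.mem_nhds hz'] with y hy
        exact h0 y hy
      exact continuousAt_const.congr this.symm
  exact hc.integrable_of_hasCompactSupport (HasCompactSupport.intro hK h0)

theorem int_fderiv_mul {U K : Set ℂ} (hU : IsOpen U) (hK : IsCompact K) (hKU : K ⊆ U)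
    {f g : ℂ → ℝ} (hf : ContDiffOn ℝ 1 f U) (hg : ContDiff ℝ 1 g) (h0 : ∀ z, z ∉ K → g z = 0)
    (w : ℂ) : ∫ z, f z * fderiv ℝ g z w = - ∫ z, fderiv ℝ f z w * g z := by
  have hts : tsupport g ⊆ K := by
    refine closure_minimal ?_ hK.isClosed
    intro z hz
    by_contra h
    exact hz (h0 z h)
  have hgd : ∀ z, z ∉ K → fderiv ℝ g z w = 0 := by
    intro z hz
    have : z ∉ tsupport g := fun h => hz (hts h)
    rw [fderiv_of_notMem_tsupport (𝕜 := ℝ) this]
    simp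
  have hfc : ContinuousOn (fun z => fderiv ℝ f z w) U :=
    ((hf.continuousOn_fderiv_of_isOpen hU le_rfl).clm_apply continuousOn_const)
  have hgc : Continuous (fun z => fderiv ℝ g z w) :=
    (hg.continuous_fderiv one_ne_zero).clm_apply continuous_const
  refine integral_mul_fderiv_eq_neg_fderiv_mul_of_integrable ?_ ?_ ?_ ?_ ?_
  · refine int_of_zero hU hK hKU (hfc.mul hg.continuous.continuousOn) fun z hz => ?_
    rw [h0 z hz, mul_zero]
  · refine int_of_zero hU hK hKU (hf.continuousOn.mul hgc.continuousOn) fun z hz => ?_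
    rw [hgd z hz, mul_zero]
  · refine int_of_zero hU hK hKU (hf.continuousOn.mul hg.continuous.continuousOn) fun z hz => ?_
    rw [h0 z hz, mul_zero]
  · intro x hx
    exact (hf.differentiableOn one_ne_zero).differentiableAt (hU.mem_nhds (hKU (hts hx)))
  · intro x _
    exact (hg.differentiable one_ne_zero) x

theorem lamStar_nonneg : 0 ≤ lamStar := by
  unfold lamStar
  refine Real.sInf_nonneg ?_
  rintro r ⟨φ, -, -, -, -, rfl⟩
  refine mul_nonneg (by norm_num) (integral_nonneg fun z => ?_)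
  positivity

/-- the determinant identity -/
theorem int_jac {K : Set ℂ} (hK : IsCompact K) {a b : ℂ → ℝ} (ha : ContDiff ℝ 2 a)
    (hb : ContDiff ℝ 2 b) (ha0 : ∀ z, z ∉ K → a z = 0) :
    ∫ z, (fderiv ℝ a z 1 * fderiv ℝ b z I - fderiv ℝ b z 1 * fderiv ℝ a z I) = 0 := by
  have hb1 : ContDiff ℝ 1 (fun z => fderiv ℝ b z I) :=
    (hb.fderiv_right (m := 1) (by norm_num)).clm_apply contDiff_const
  have hb2 : ContDiff ℝ 1 (fun z => fderiv ℝ b z 1) :=
    (hb.fderiv_right (m := 1) (by norm_num)).clm_apply contDiff_const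
  have ha1 : ContDiff ℝ 1 a := ha.of_le (by norm_num)
  have hts : tsupport a ⊆ K := by
    refine closure_minimal ?_ hK.isClosed
    intro z hz
    by_contra h
    exact hz (ha0 z h)
  have had : ∀ w z, z ∉ K → fderiv ℝ a z w = 0 := by
    intro w z hz
    have : z ∉ tsupport a := fun h => hz (hts h)
    rw [fderiv_of_notMem_tsupport (𝕜 := ℝ) this]
    simp
  have hac : ∀ w, Continuous (fun z => fderiv ℝ a z w) := fun w =>
    (ha1.continuous_fderiv one_ne_zero).clm_apply continuous_const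
  have e1 := int_fderiv_mul isOpen_univ hK (Set.subset_univ _) hb1.contDiffOn ha1 ha0 1
  have e2 := int_fderiv_mul isOpen_univ hK (Set.subset_univ _) hb2.contDiffOn ha1 ha0 I
  have i1 : Integrable (fun z => fderiv ℝ b z I * fderiv ℝ a z 1) :=
    int_of_zero isOpen_univ hK (Set.subset_univ _)
      ((hb1.continuous.mul (hac 1)).continuousOn) fun z hz => by rw [had 1 z hz, mul_zero]
  have i2 : Integrable (fun z => fderiv ℝ b z 1 * fderiv ℝ a z I) :=
    int_of_zero isOpen_univ hK (Set.subset_univ _)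
      ((hb2.continuous.mul (hac I)).continuousOn) fun z hz => by rw [had I z hz, mul_zero]
  have hsym : ∀ z, fderiv ℝ (fun z => fderiv ℝ b z I) z 1 = fderiv ℝ (fun z => fderiv ℝ b z 1) z I := by
    intro z
    have hd : DifferentiableAt ℝ (fderiv ℝ b) z :=
      ((hb.fderiv_right (m := 1) (by norm_num)).differentiable one_ne_zero) z
    have hs : IsSymmSndFDerivAt ℝ b z :=
      (hb.contDiffAt).isSymmSndFDerivAt (by simp)
    rw [fderiv_clm_apply hd (differentiableAt_const _), fderiv_clm_apply hd (differentiableAt_const _)]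
    simpa using hs.eq 1 I
  have e3 : ∫ z, (fderiv ℝ a z 1 * fderiv ℝ b z I - fderiv ℝ b z 1 * fderiv ℝ a z I) =
      (∫ z, fderiv ℝ b z I * fderiv ℝ a z 1) - ∫ z, fderiv ℝ b z 1 * fderiv ℝ a z I := by
    rw [← integral_sub i1 i2]
    congr 1
    ext z
    ring
  rw [e3, e1, e2]
  simp only [hsym]
  ring

theorem psi1_smooth {T : ℝ} {psi1 psi2 : ℝ → ℝ}
    (h2 : ∀ t ∈ Set.Ioo (-1) T, HasDerivAt psi1 (psi2 t) t)
    (hc : ContinuousOn psi2 (Set.Ioo (-1) T)) : ContDiffOn ℝ 1 psi1 (Set.Ioo (-1) T) := by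
  have h01 : (1 : WithTop ℕ∞) = 0 + 1 := by norm_num
  rw [h01, contDiffOn_succ_iff_deriv_of_isOpen isOpen_Ioo]
  refine ⟨fun t ht => (h2 t ht).differentiableAt.differentiableWithinAt, by simp, ?_⟩
  rw [contDiffOn_zero]
  exact hc.congr fun t ht => (h2 t ht).deriv

theorem psi_smooth {T : ℝ} {psi psi1 psi2 : ℝ → ℝ}
    (h1 : ∀ t ∈ Set.Ioo (-1) T, HasDerivAt psi (psi1 t) t)
    (h2 : ∀ t ∈ Set.Ioo (-1) T, HasDerivAt psi1 (psi2 t) t)
    (hc : ContinuousOn psi2 (Set.Ioo (-1) T)) : ContDiffOn ℝ 2 psi (Set.Ioo (-1) T) := by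
  have h01 : (2 : WithTop ℕ∞) = 1 + 1 := by norm_num
  rw [h01, contDiffOn_succ_iff_deriv_of_isOpen isOpen_Ioo]
  refine ⟨fun t ht => (h1 t ht).differentiableAt.differentiableWithinAt, by simp, ?_⟩
  exact (psi1_smooth h2 hc).congr fun t ht => (h1 t ht).deriv

/-- the open disc -/
def UU (T : ℝ) : Set ℂ := {z | ‖z‖ ^ 2 < T}

theorem isOpen_UU (T : ℝ) : IsOpen (UU T) :=
  isOpen_lt (by fun_prop) continuous_const

theorem mapsTo_UU (T : ℝ) : Set.MapsTo (fun z : ℂ => ‖z‖ ^ 2) (UU T) (Set.Ioo (-1) T) := by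
  intro z hz
  have : (0 : ℝ) ≤ ‖z‖ ^ 2 := by positivity
  exact ⟨by linarith, hz⟩

theorem contDiff_nsq : ContDiff ℝ 2 (fun z : ℂ => ‖z‖ ^ 2) := contDiff_norm_sq ℝ

theorem fderiv_nsq (z w : ℂ) : fderiv ℝ (fun z : ℂ => ‖z‖ ^ 2) z w =
    2 * (z.re * w.re + z.im * w.im) := by
  rw [fderiv_norm_sq_apply]
  simp [Complex.inner]
  ring

/-- gradient of a radial function -/
theorem fderiv_rad {T : ℝ} {p p1 : ℝ → ℝ} (h1 : ∀ t ∈ Set.Ioo (-1) T, HasDerivAt p (p1 t) t)
    {z : ℂ} (hz : z ∈ UU T) (w : ℂ) :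
    DifferentiableAt ℝ (fun z : ℂ => p (‖z‖ ^ 2)) z ∧
    fderiv ℝ (fun z : ℂ => p (‖z‖ ^ 2)) z w =
      2 * p1 (‖z‖ ^ 2) * (z.re * w.re + z.im * w.im) := by
  have hd : HasFDerivAt (fun z : ℂ => ‖z‖ ^ 2) (fderiv ℝ (fun z : ℂ => ‖z‖ ^ 2) z) z :=
    (contDiff_nsq.differentiable (by norm_num) z).hasFDerivAt
  have h := (h1 _ (mapsTo_UU T hz)).comp_hasFDerivAt z hd
  refine ⟨h.differentiableAt, ?_⟩
  have h' : fderiv ℝ (fun z : ℂ => p (‖z‖ ^ 2)) z = p1 (‖z‖ ^ 2) • fderiv ℝ (fun z : ℂ => ‖z‖ ^ 2) z :=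
    h.fderiv
  rw [h']
  simp only [smul_apply, smul_eq_mul, fderiv_nsq]
  ring

theorem int_div_re {T : ℝ} {psi1 psi2 : ℝ → ℝ} {K : Set ℂ} (hK : IsCompact K) (hKU : K ⊆ UU T)
    (h2 : ∀ t ∈ Set.Ioo (-1) T, HasDerivAt psi1 (psi2 t) t)
    (hc : ContinuousOn psi2 (Set.Ioo (-1) T)) {g : ℂ → ℝ} (hg : ContDiff ℝ 1 g)
    (h0 : ∀ z, z ∉ K → g z = 0) :
    ∫ z : ℂ, (psi1 (‖z‖ ^ 2) * z.re) * fderiv ℝ g z 1 =
      - ∫ z : ℂ, (2 * psi2 (‖z‖ ^ 2) * z.re ^ 2 + psi1 (‖z‖ ^ 2)) * g z := by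
  have hS : ContDiffOn ℝ 1 (fun z : ℂ => psi1 (‖z‖ ^ 2)) (UU T) :=
    (psi1_smooth h2 hc).comp (contDiff_nsq.of_le (by norm_num)).contDiffOn (mapsTo_UU T)
  have hre : ContDiff ℝ 1 (fun z : ℂ => z.re) := Complex.reCLM.contDiff
  have hf : ContDiffOn ℝ 1 (fun z : ℂ => psi1 (‖z‖ ^ 2) * z.re) (UU T) := hS.mul hre.contDiffOn
  rw [int_fderiv_mul (isOpen_UU T) hK hKU hf hg h0 1]
  congr 1
  refine integral_congr_ae (Eventually.of_forall fun z => ?_)
  by_cases hz : z ∈ K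
  · have hz' := hKU hz
    obtain ⟨hd, hw⟩ := fderiv_rad h2 hz' 1
    have h3 : fderiv ℝ (fun z : ℂ => psi1 (‖z‖ ^ 2) * z.re) z 1 =
        2 * psi2 (‖z‖ ^ 2) * z.re ^ 2 + psi1 (‖z‖ ^ 2) := by
      have hred : DifferentiableAt ℝ (fun z : ℂ => z.re) z := Complex.reCLM.differentiableAt
      have hrf : fderiv ℝ (fun z : ℂ => z.re) z 1 = 1 := by
        have : fderiv ℝ (fun z : ℂ => z.re) z = Complex.reCLM := Complex.reCLM.fderiv
        rw [this]; simp
      rw [fderiv_fun_mul hd hred]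
      simp only [add_apply, smul_apply, smul_eq_mul, hw, hrf]
      simp
      ring
    simp only [h3]
  · simp only [h0 z hz, mul_zero]

theorem int_div_im {T : ℝ} {psi1 psi2 : ℝ → ℝ} {K : Set ℂ} (hK : IsCompact K) (hKU : K ⊆ UU T)
    (h2 : ∀ t ∈ Set.Ioo (-1) T, HasDerivAt psi1 (psi2 t) t)
    (hc : ContinuousOn psi2 (Set.Ioo (-1) T)) {g : ℂ → ℝ} (hg : ContDiff ℝ 1 g)
    (h0 : ∀ z, z ∉ K → g z = 0) :
    ∫ z : ℂ, (psi1 (‖z‖ ^ 2) * z.im) * fderiv ℝ g z I =
      - ∫ z : ℂ, (2 * psi2 (‖z‖ ^ 2) * z.im ^ 2 + psi1 (‖z‖ ^ 2)) * g z := by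
  have hS : ContDiffOn ℝ 1 (fun z : ℂ => psi1 (‖z‖ ^ 2)) (UU T) :=
    (psi1_smooth h2 hc).comp (contDiff_nsq.of_le (by norm_num)).contDiffOn (mapsTo_UU T)
  have hre : ContDiff ℝ 1 (fun z : ℂ => z.im) := Complex.imCLM.contDiff
  have hf : ContDiffOn ℝ 1 (fun z : ℂ => psi1 (‖z‖ ^ 2) * z.im) (UU T) := hS.mul hre.contDiffOn
  rw [int_fderiv_mul (isOpen_UU T) hK hKU hf hg h0 I]
  congr 1
  refine integral_congr_ae (Eventually.of_forall fun z => ?_)
  by_cases hz : z ∈ K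
  · have hz' := hKU hz
    obtain ⟨hd, hw⟩ := fderiv_rad h2 hz' I
    have h3 : fderiv ℝ (fun z : ℂ => psi1 (‖z‖ ^ 2) * z.im) z I =
        2 * psi2 (‖z‖ ^ 2) * z.im ^ 2 + psi1 (‖z‖ ^ 2) := by
      have hred : DifferentiableAt ℝ (fun z : ℂ => z.im) z := Complex.imCLM.differentiableAt
      have hrf : fderiv ℝ (fun z : ℂ => z.im) z I = 1 := by
        have : fderiv ℝ (fun z : ℂ => z.im) z = Complex.imCLM := Complex.imCLM.fderiv
        rw [this]; simp
      rw [fderiv_fun_mul hd hred]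
      simp only [add_apply, smul_apply, smul_eq_mul, hw, hrf]
      simp
      ring
    simp only [h3]
  · simp only [h0 z hz, mul_zero]

theorem core {T : ℝ} {psi1 psi2 m : ℝ → ℝ} {K : Set ℂ} (hK : IsCompact K) (hKU : K ⊆ UU T)
    (h2 : ∀ t ∈ Set.Ioo (-1) T, HasDerivAt psi1 (psi2 t) t)
    (hc : ContinuousOn psi2 (Set.Ioo (-1) T)) (hm : ContinuousOn m (Set.Ico 0 T))
    (hm0 : ∀ t ∈ Set.Ico 0 T, 0 ≤ m t)
    (hmp : ∀ t ∈ Set.Ico 0 T, m t / 4 ≤ psi1 t + t * psi2 t)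
    (hlam : ∀ φ : ℂ → ℝ, ContDiff ℝ 2 φ → HasCompactSupport φ → tsupport φ ⊆ {z | ‖z‖ ^ 2 < T} →
      lamStar * ∫ z, φ z ^ 2 ≤
        (1 / 4) * (∫ z, ((fderiv ℝ φ z 1) ^ 2 + (fderiv ℝ φ z I) ^ 2)) +
          ∫ z, (m (‖z‖ ^ 2) / 16) * φ z ^ 2)
    {a b : ℂ → ℝ} (ha : ContDiff ℝ 2 a) (hb : ContDiff ℝ 2 b) (ha0 : ∀ z, z ∉ K → a z = 0)
    (hb0 : ∀ z, z ∉ K → b z = 0) :
    ∫ z, (lamStar + m (‖z‖ ^ 2) / 16) * (a z ^ 2 + b z ^ 2) ≤
      ∫ z : ℂ, (1 / 4) * (((fderiv ℝ a z 1 - psi1 (‖z‖ ^ 2) * z.im * b z) +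
        (fderiv ℝ b z I - psi1 (‖z‖ ^ 2) * z.re * a z)) ^ 2 +
        ((fderiv ℝ b z 1 + psi1 (‖z‖ ^ 2) * z.im * a z) -
        (fderiv ℝ a z I + psi1 (‖z‖ ^ 2) * z.re * b z)) ^ 2) := by
  -- abbreviations
  set g : ℂ → ℝ := fun z => a z ^ 2 + b z ^ 2 with hgdef
  have hg : ContDiff ℝ 2 g := (ha.pow 2).add (hb.pow 2)
  have hg1 : ContDiff ℝ 1 g := hg.of_le (by norm_num)
  have hg0 : ∀ z, z ∉ K → g z = 0 := by
    intro z hz
    simp [hgdef, ha0 z hz, hb0 z hz]
  have hgn : ∀ z, 0 ≤ g z := fun z => by positivity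
  have had : Differentiable ℝ a := ha.differentiable (by norm_num)
  have hbd : Differentiable ℝ b := hb.differentiable (by norm_num)
  have hgd : ∀ z w, fderiv ℝ g z w = 2 * (a z * fderiv ℝ a z w + b z * fderiv ℝ b z w) := by
    intro z w
    have h : HasFDerivAt g ((2 * a z) • fderiv ℝ a z + (2 * b z) • fderiv ℝ b z) z := by
      have h1 := (had z).hasFDerivAt.pow 2
      have h2 := (hbd z).hasFDerivAt.pow 2
      have h3 := h1.add h2
      refine h3.congr_fderiv ?_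
      ext v
      simp
    rw [h.fderiv]
    simp
    ring
  have hts : ∀ {h : ℂ → ℝ}, (∀ z, z ∉ K → h z = 0) → tsupport h ⊆ K := by
    intro h hh
    refine closure_minimal ?_ hK.isClosed
    intro z hz
    by_contra h'
    exact hz (hh z h')
  have hfd0 : ∀ {h : ℂ → ℝ}, (∀ z, z ∉ K → h z = 0) → ∀ z w, z ∉ K → fderiv ℝ h z w = 0 := by
    intro h hh z w hz
    have : z ∉ tsupport h := fun h' => hz (hts hh h')
    rw [fderiv_of_notMem_tsupport (𝕜 := ℝ) this]
    simp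
  have hfc : ∀ {h : ℂ → ℝ}, ContDiff ℝ 1 h → ∀ w, Continuous (fun z => fderiv ℝ h z w) :=
    fun hh w => (hh.continuous_fderiv one_ne_zero).clm_apply continuous_const
  have ha1 : ContDiff ℝ 1 a := ha.of_le (by norm_num)
  have hb1 : ContDiff ℝ 1 b := hb.of_le (by norm_num)
  have cax := (hfc ha1 1).continuousOn (s := UU T)
  have cay := (hfc ha1 I).continuousOn (s := UU T)
  have cbx := (hfc hb1 1).continuousOn (s := UU T)
  have cby := (hfc hb1 I).continuousOn (s := UU T)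
  have cgx := (hfc hg1 1).continuousOn (s := UU T)
  have cgy := (hfc hg1 I).continuousOn (s := UU T)
  have ca := ha.continuous.continuousOn (s := UU T)
  have cb := hb.continuous.continuousOn (s := UU T)
  have cg := hg.continuous.continuousOn (s := UU T)
  have cS : ContinuousOn (fun z : ℂ => psi1 (‖z‖ ^ 2)) (UU T) :=
    (psi1_smooth h2 hc).continuousOn.comp (by fun_prop) (mapsTo_UU T)
  have cS2 : ContinuousOn (fun z : ℂ => psi2 (‖z‖ ^ 2)) (UU T) :=
    hc.comp (by fun_prop) (mapsTo_UU T)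
  have hmaps : Set.MapsTo (fun z : ℂ => ‖z‖ ^ 2) (UU T) (Set.Ico 0 T) := fun z hz =>
    ⟨by positivity, hz⟩
  have cm : ContinuousOn (fun z : ℂ => m (‖z‖ ^ 2)) (UU T) := hm.comp (by fun_prop) hmaps
  have cre : ContinuousOn (fun z : ℂ => z.re) (UU T) := Complex.continuous_re.continuousOn
  have cim : ContinuousOn (fun z : ℂ => z.im) (UU T) := Complex.continuous_im.continuousOn
  have cn : ContinuousOn (fun z : ℂ => ‖z‖ ^ 2) (UU T) := by fun_prop
  have hU := isOpen_UU T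
  set Pr : ℂ → ℝ := fun z => fderiv ℝ a z 1 - psi1 (‖z‖ ^ 2) * z.im * b z with hPr
  set Qi : ℂ → ℝ := fun z => fderiv ℝ b z I - psi1 (‖z‖ ^ 2) * z.re * a z with hQi
  set Pi : ℂ → ℝ := fun z => fderiv ℝ b z 1 + psi1 (‖z‖ ^ 2) * z.im * a z with hPi
  set Qr : ℂ → ℝ := fun z => fderiv ℝ a z I + psi1 (‖z‖ ^ 2) * z.re * b z with hQr
  have cPr : ContinuousOn Pr (UU T) := cax.sub ((cS.mul cim).mul cb)
  have cQi : ContinuousOn Qi (UU T) := cby.sub ((cS.mul cre).mul ca)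
  have cPi : ContinuousOn Pi (UU T) := cbx.add ((cS.mul cim).mul ca)
  have cQr : ContinuousOn Qr (UU T) := cay.add ((cS.mul cre).mul cb)
  set N : ℂ → ℝ := fun z => Pr z ^ 2 + Pi z ^ 2 + Qr z ^ 2 + Qi z ^ 2 with hN
  have cN : ContinuousOn N (UU T) := (((cPr.pow 2).add (cPi.pow 2)).add (cQr.pow 2)).add (cQi.pow 2)
  have hN0 : ∀ z, z ∉ K → N z = 0 := by
    intro z hz
    simp [hN, hPr, hPi, hQr, hQi, ha0 z hz, hb0 z hz, hfd0 ha0 z _ hz, hfd0 hb0 z _ hz]
  have iN : Integrable N := int_of_zero hU hK hKU cN hN0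
  have ig : Integrable g := int_of_zero hU hK hKU cg hg0
  set M : ℂ → ℝ := fun z => psi1 (‖z‖ ^ 2) + ‖z‖ ^ 2 * psi2 (‖z‖ ^ 2) with hM
  have cM : ContinuousOn M (UU T) := cS.add (cn.mul cS2)
  have iMg : Integrable (fun z => M z * g z) :=
    int_of_zero hU hK hKU (cM.mul cg) fun z hz => by rw [hg0 z hz, mul_zero]
  have img : Integrable (fun z : ℂ => (m (‖z‖ ^ 2) / 16) * g z) :=
    int_of_zero hU hK hKU ((cm.div_const 16).mul cg) fun z hz => by rw [hg0 z hz, mul_zero]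
  -- Step 1
  have hstep1 : ∫ z : ℂ, (1 / 4) * ((Pr z + Qi z) ^ 2 + (Pi z - Qr z) ^ 2) =
      (1 / 4) * (∫ z, N z) + (1 / 2) * ∫ z, M z * g z := by
    have iJ : Integrable (fun z => fderiv ℝ a z 1 * fderiv ℝ b z I -
        fderiv ℝ b z 1 * fderiv ℝ a z I) :=
      int_of_zero hU hK hKU ((cax.mul cby).sub (cbx.mul cay)) fun z hz => by
        rw [hfd0 ha0 z _ hz, hfd0 ha0 z _ hz]; ring
    have iX : Integrable (fun z : ℂ => (psi1 (‖z‖ ^ 2) * z.re) * fderiv ℝ g z 1) :=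
      int_of_zero hU hK hKU ((cS.mul cre).mul cgx) fun z hz => by
        rw [hfd0 hg0 z _ hz]; ring
    have iY : Integrable (fun z : ℂ => (psi1 (‖z‖ ^ 2) * z.im) * fderiv ℝ g z I) :=
      int_of_zero hU hK hKU ((cS.mul cim).mul cgy) fun z hz => by
        rw [hfd0 hg0 z _ hz]; ring
    have iX' : Integrable (fun z : ℂ => (2 * psi2 (‖z‖ ^ 2) * z.re ^ 2 + psi1 (‖z‖ ^ 2)) * g z) :=
      int_of_zero hU hK hKU ((((continuousOn_const.mul cS2).mul (cre.pow 2)).add cS).mul cg)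
        fun z hz => by rw [hg0 z hz]; ring
    have iY' : Integrable (fun z : ℂ => (2 * psi2 (‖z‖ ^ 2) * z.im ^ 2 + psi1 (‖z‖ ^ 2)) * g z) :=
      int_of_zero hU hK hKU ((((continuousOn_const.mul cS2).mul (cim.pow 2)).add cS).mul cg)
        fun z hz => by rw [hg0 z hz]; ring
    have eJ := int_jac hK ha hb ha0
    have eX := int_div_re hK hKU h2 hc hg1 hg0
    have eY := int_div_im hK hKU h2 hc hg1 hg0
    have eXY : (∫ z : ℂ, (2 * psi2 (‖z‖ ^ 2) * z.re ^ 2 + psi1 (‖z‖ ^ 2)) * g z) +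
        (∫ z : ℂ, (2 * psi2 (‖z‖ ^ 2) * z.im ^ 2 + psi1 (‖z‖ ^ 2)) * g z) =
        2 * ∫ z, M z * g z := by
      rw [← integral_add iX' iY', ← integral_const_mul]
      refine integral_congr_ae (Eventually.of_forall fun z => ?_)
      have hz : ‖z‖ ^ 2 = z.re ^ 2 + z.im ^ 2 := by
        rw [← Complex.normSq_eq_norm_sq, Complex.normSq_apply]; ring
      simp only [hM]
      generalize psi1 (‖z‖ ^ 2) = s1
      generalize psi2 (‖z‖ ^ 2) = s2
      rw [hz]
      ring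
    have e1 : ∫ z : ℂ, (1 / 4) * ((Pr z + Qi z) ^ 2 + (Pi z - Qr z) ^ 2) =
        (1 / 4) * (∫ z, N z) + ((1 / 2) * (∫ z, (fderiv ℝ a z 1 * fderiv ℝ b z I -
        fderiv ℝ b z 1 * fderiv ℝ a z I)) +
        ((-(1 / 4)) * (∫ z : ℂ, (psi1 (‖z‖ ^ 2) * z.re) * fderiv ℝ g z 1) +
        (-(1 / 4)) * (∫ z : ℂ, (psi1 (‖z‖ ^ 2) * z.im) * fderiv ℝ g z I))) := by
      have i3 : Integrable (fun z : ℂ => (-(1 / 4 : ℝ)) * (psi1 (‖z‖ ^ 2) * z.re * fderiv ℝ g z 1) +
          (-(1 / 4 : ℝ)) * (psi1 (‖z‖ ^ 2) * z.im * fderiv ℝ g z I)) :=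
        (iX.const_mul _).add (iY.const_mul _)
      have i4 : Integrable (fun z : ℂ => (1 / 2 : ℝ) * (fderiv ℝ a z 1 * fderiv ℝ b z I -
          fderiv ℝ b z 1 * fderiv ℝ a z I) +
          ((-(1 / 4 : ℝ)) * (psi1 (‖z‖ ^ 2) * z.re * fderiv ℝ g z 1) +
          (-(1 / 4 : ℝ)) * (psi1 (‖z‖ ^ 2) * z.im * fderiv ℝ g z I))) :=
        (iJ.const_mul _).add i3
      rw [← integral_const_mul, ← integral_const_mul, ← integral_const_mul, ← integral_const_mul,
        ← integral_add (iX.const_mul _) (iY.const_mul _),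
        ← integral_add (iJ.const_mul _) i3,
        ← integral_add (iN.const_mul _) i4]
      refine integral_congr_ae (Eventually.of_forall fun z => ?_)
      simp only [hN, hPr, hPi, hQr, hQi, hgd]
      ring
    rw [e1, eJ, eX, eY]
    linarith
  rw [hstep1]
  -- Step 2
  have isq : Integrable (fun z => Real.sqrt (g z)) :=
    int_of_zero hU hK hKU (hg.continuous.sqrt.continuousOn) fun z hz => by rw [hg0 z hz]; simp
  have hlhs : ∫ z, (lamStar + m (‖z‖ ^ 2) / 16) * g z =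
      lamStar * (∫ z, g z) + ∫ z : ℂ, (m (‖z‖ ^ 2) / 16) * g z := by
    rw [← integral_const_mul, ← integral_add (ig.const_mul _) img]
    refine integral_congr_ae (Eventually.of_forall fun z => ?_)
    simp only
    ring
  have hlhs' : ∫ z, (lamStar + m (‖z‖ ^ 2) / 16) * (a z ^ 2 + b z ^ 2) =
      lamStar * (∫ z, g z) + ∫ z : ℂ, (m (‖z‖ ^ 2) / 16) * g z := hlhs
  rw [hlhs']
  have hMm : 2 * (∫ z : ℂ, (m (‖z‖ ^ 2) / 16) * g z) ≤ (1 / 2) * ∫ z, M z * g z := by
    rw [← integral_const_mul, ← integral_const_mul]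
    refine integral_mono (img.const_mul _) (iMg.const_mul _) fun z => ?_
    by_cases hz : z ∈ K
    · have h1 := hmp _ (hmaps (hKU hz))
      have h3 := hgn z
      simp only [hM]
      nlinarith
    · simp only [hg0 z hz, mul_zero, le_refl]
  have hmain : ∀ η : ℝ, 0 < η → lamStar * (∫ z, g z) ≤ (1 / 4) * (∫ z, N z) +
      (∫ z : ℂ, (m (‖z‖ ^ 2) / 16) * g z) + 2 * η * (lamStar * ∫ z, Real.sqrt (g z)) := by
    intro η hη
    set φ : ℂ → ℝ := fun z => Real.sqrt (g z + η ^ 2) - η with hφ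
    have hpos : ∀ z, 0 < g z + η ^ 2 := fun z => by have := hgn z; positivity
    have hφs : ContDiff ℝ 2 φ :=
      ((hg.add contDiff_const).sqrt fun z => (hpos z).ne').sub contDiff_const
    have hφ0 : ∀ z, z ∉ K → φ z = 0 := by
      intro z hz
      simp only [hφ, hg0 z hz, zero_add, Real.sqrt_sq hη.le, sub_self]
    have hφc : HasCompactSupport φ := HasCompactSupport.intro hK hφ0
    have hl := hlam φ hφs hφc ((hts hφ0).trans hKU)
    have hφd : ∀ z w, fderiv ℝ φ z w = fderiv ℝ g z w / (2 * Real.sqrt (g z + η ^ 2)) := by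
      intro z w
      have h1 : HasFDerivAt (fun z => g z + η ^ 2) (fderiv ℝ g z) z :=
        ((hg1.differentiable one_ne_zero z).hasFDerivAt).add_const _
      have h3 := (h1.sqrt (hpos z).ne').sub_const η
      have h4 : fderiv ℝ φ z = (1 / (2 * Real.sqrt (g z + η ^ 2))) • fderiv ℝ g z := h3.fderiv
      rw [h4]
      simp
      ring
    have hφ1 : ContDiff ℝ 1 φ := hφs.of_le (by norm_num)
    have iφ2 : Integrable (fun z => φ z ^ 2) :=
      int_of_zero hU hK hKU (hφs.continuous.pow 2).continuousOn fun z hz => by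
        rw [hφ0 z hz]; ring
    have imφ : Integrable (fun z : ℂ => (m (‖z‖ ^ 2) / 16) * φ z ^ 2) :=
      int_of_zero hU hK hKU ((cm.div_const 16).mul (hφs.continuous.pow 2).continuousOn)
        fun z hz => by rw [hφ0 z hz]; ring
    have idφ : Integrable (fun z => (fderiv ℝ φ z 1) ^ 2 + (fderiv ℝ φ z I) ^ 2) :=
      int_of_zero hU hK hKU ((((hfc hφ1 1).pow 2).add ((hfc hφ1 I).pow 2)).continuousOn)
        fun z hz => by rw [hfd0 hφ0 z _ hz, hfd0 hφ0 z _ hz]; ring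
    have hd : ∫ z, ((fderiv ℝ φ z 1) ^ 2 + (fderiv ℝ φ z I) ^ 2) ≤ ∫ z, N z := by
      refine integral_mono idφ iN fun z => ?_
      have hs2 : Real.sqrt (g z + η ^ 2) ^ 2 = g z + η ^ 2 := Real.sq_sqrt (hpos z).le
      have hs0 : 0 < Real.sqrt (g z + η ^ 2) := Real.sqrt_pos.2 (hpos z)
      have key : ∀ X p q : ℝ, X = a z * p + b z * q →
          (2 * X / (2 * Real.sqrt (g z + η ^ 2))) ^ 2 ≤ p ^ 2 + q ^ 2 := by
        intro X p q hX
        have h5 : 2 * X / (2 * Real.sqrt (g z + η ^ 2)) = X / Real.sqrt (g z + η ^ 2) := by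
          field_simp
        rw [h5, div_pow, hs2, div_le_iff₀ (hpos z), hX]
        have h6 : g z = a z ^ 2 + b z ^ 2 := rfl
        rw [h6]
        nlinarith [sq_nonneg (a z * q - b z * p), sq_nonneg (η * p), sq_nonneg (η * q)]
      have k1 := key (a z * fderiv ℝ a z 1 + b z * fderiv ℝ b z 1) (Pr z) (Pi z)
        (by simp only [hPr, hPi]; ring)
      have k2 := key (a z * fderiv ℝ a z I + b z * fderiv ℝ b z I) (Qr z) (Qi z)
        (by simp only [hQr, hQi]; ring)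
      simp only [hφd, hgd, hN]
      linarith
    have hmφ : ∫ z : ℂ, (m (‖z‖ ^ 2) / 16) * φ z ^ 2 ≤ ∫ z : ℂ, (m (‖z‖ ^ 2) / 16) * g z := by
      refine integral_mono imφ img fun z => ?_
      by_cases hz : z ∈ K
      · have h1 := hm0 _ (hmaps (hKU hz))
        have h3 : φ z ^ 2 ≤ g z := by
          have hs2 : Real.sqrt (g z + η ^ 2) ^ 2 = g z + η ^ 2 := Real.sq_sqrt (hpos z).le
          have hs0 : η ≤ Real.sqrt (g z + η ^ 2) := by
            refine Real.le_sqrt_of_sq_le ?_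
            have := hgn z
            linarith
          simp only [hφ]
          nlinarith
        have h4 : 0 ≤ m (‖z‖ ^ 2) / 16 := by linarith
        exact mul_le_mul_of_nonneg_left h3 h4
      · simp only [hg0 z hz, hφ0 z hz]
        simp
    have hφg : (∫ z, g z) - 2 * η * (∫ z, Real.sqrt (g z)) ≤ ∫ z, φ z ^ 2 := by
      rw [← integral_const_mul, ← integral_sub ig (isq.const_mul _)]
      refine integral_mono (ig.sub (isq.const_mul _)) iφ2 fun z => ?_
      have hs2 : Real.sqrt (g z + η ^ 2) ^ 2 = g z + η ^ 2 := Real.sq_sqrt (hpos z).le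
      have hr2 : Real.sqrt (g z) ^ 2 = g z := Real.sq_sqrt (hgn z)
      have hr0 : 0 ≤ Real.sqrt (g z) := Real.sqrt_nonneg _
      have hrs : Real.sqrt (g z) ≤ Real.sqrt (g z + η ^ 2) :=
        Real.sqrt_le_sqrt (by nlinarith [sq_nonneg η])
      simp only [hφ]
      nlinarith
    have hL := lamStar_nonneg
    have h9 : lamStar * ((∫ z, g z) - 2 * η * (∫ z, Real.sqrt (g z))) ≤ lamStar * ∫ z, φ z ^ 2 :=
      mul_le_mul_of_nonneg_left hφg hL
    nlinarith
  refine le_of_forall_pos_le_add fun δ hδ => ?_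
  have hI0 : 0 ≤ lamStar * ∫ z, Real.sqrt (g z) :=
    mul_nonneg lamStar_nonneg (integral_nonneg fun z => Real.sqrt_nonneg _)
  set X := lamStar * ∫ z, Real.sqrt (g z) with hX
  have hη : 0 < δ / (2 * (X + 1)) := by positivity
  have h7 := hmain _ hη
  have h8 : 2 * (δ / (2 * (X + 1))) * X ≤ δ := by
    have : 2 * (δ / (2 * (X + 1))) * X = δ * (X / (X + 1)) := by
      field_simp
    rw [this]
    have h9 : X / (X + 1) ≤ 1 := by
      rw [div_le_one (by linarith)]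
      linarith
    nlinarith
  linarith

theorem contDiff_mul_support {U K : Set ℂ} (hU : IsOpen U) (hK : IsClosed K) (hKU : K ⊆ U)
    {G h : ℂ → ℝ} (hG : ContDiffOn ℝ 2 G U) (hh : ContDiff ℝ 2 h) (h0 : ∀ z, z ∉ K → h z = 0) :
    ContDiff ℝ 2 (fun z => G z * h z) := by
  rw [contDiff_iff_contDiffAt]
  intro z
  by_cases hz : z ∈ U
  · exact (hG.contDiffAt (hU.mem_nhds hz)).mul hh.contDiffAt
  · have hz' : z ∉ K := fun h => hz (hKU h)
    have : (fun z => G z * h z) =ᶠ[𝓝 z] fun _ => 0 := by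
      filter_upwards [hK.isOpen_compl.mem_nhds hz'] with y hy
      rw [h0 y hy, mul_zero]
    exact contDiffAt_const.congr_of_eventuallyEq this

end APL

open APL in
theorem apl : Apl_stmt := by
  intro T psi psi1 psi2 m hT h1 h2 hc hm hm0 hmp hlam u hu huc hus
  have hK : IsCompact (tsupport u) := huc
  have hKU : tsupport u ⊆ UU T := hus
  have hU := isOpen_UU T
  have hu0 : ∀ z, z ∉ tsupport u → u z = 0 := fun z hz => image_eq_zero_of_notMem_tsupport hz
  set ur : ℂ → ℝ := fun z => (u z).re with hur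
  set ui : ℂ → ℝ := fun z => (u z).im with hui
  have hurs : ContDiff ℝ 2 ur := Complex.reCLM.contDiff.comp hu
  have huis : ContDiff ℝ 2 ui := Complex.imCLM.contDiff.comp hu
  have hur0 : ∀ z, z ∉ tsupport u → ur z = 0 := fun z hz => by simp [hur, hu0 z hz]
  have hui0 : ∀ z, z ∉ tsupport u → ui z = 0 := fun z hz => by simp [hui, hu0 z hz]
  have hΨ : ContDiffOn ℝ 2 (fun z : ℂ => psi (‖z‖ ^ 2)) (UU T) :=
    (psi_smooth h1 h2 hc).comp contDiff_nsq.contDiffOn (mapsTo_UU T)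
  set G : ℂ → ℝ := fun z => Real.exp (-psi (‖z‖ ^ 2) / 2) with hG
  have hGs : ContDiffOn ℝ 2 G (UU T) := by
    have : ContDiffOn ℝ 2 (fun z : ℂ => -psi (‖z‖ ^ 2) / 2) (UU T) := (hΨ.neg).div_const 2
    exact this.exp
  have ha := contDiff_mul_support hU hK.isClosed hKU hGs hurs hur0
  have hb := contDiff_mul_support hU hK.isClosed hKU hGs huis hui0
  have hmain := core hK hKU h2 hc hm hm0 hmp hlam ha hb (fun z hz => by rw [hur0 z hz, mul_zero])
    (fun z hz => by rw [hui0 z hz, mul_zero])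
  have hG2 : ∀ z : ℂ, G z ^ 2 = Real.exp (-psi (‖z‖ ^ 2)) := by
    intro z
    rw [hG, sq, ← Real.exp_add]
    congr 1
    ring
  have hud : Differentiable ℝ u := hu.differentiable (by norm_num)
  have hfr : ∀ z w, fderiv ℝ ur z w = (fderiv ℝ u z w).re := by
    intro z w
    have h : HasFDerivAt ur (Complex.reCLM.comp (fderiv ℝ u z)) z :=
      Complex.reCLM.hasFDerivAt.comp z (hud z).hasFDerivAt
    rw [h.fderiv]; rfl
  have hfi : ∀ z w, fderiv ℝ ui z w = (fderiv ℝ u z w).im := by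
    intro z w
    have h : HasFDerivAt ui (Complex.imCLM.comp (fderiv ℝ u z)) z :=
      Complex.imCLM.hasFDerivAt.comp z (hud z).hasFDerivAt
    rw [h.fderiv]; rfl
  have hGd : ∀ z ∈ UU T, DifferentiableAt ℝ G z ∧ ∀ w, fderiv ℝ G z w =
      - (G z * (psi1 (‖z‖ ^ 2) * (z.re * w.re + z.im * w.im))) := by
    intro z hz
    obtain ⟨hd, -⟩ := fderiv_rad h1 hz 1
    have h3 : HasFDerivAt G (Real.exp (-psi (‖z‖ ^ 2) / 2) •
        ((-(1 / 2 : ℝ)) • fderiv ℝ (fun z : ℂ => psi (‖z‖ ^ 2)) z)) z := by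
      have h4 : HasFDerivAt (fun z : ℂ => -psi (‖z‖ ^ 2) / 2)
          ((-(1 / 2 : ℝ)) • fderiv ℝ (fun z : ℂ => psi (‖z‖ ^ 2)) z) z := by
        have h5 := hd.hasFDerivAt.const_mul (-(1 / 2 : ℝ))
        refine h5.congr_of_eventuallyEq (Eventually.of_forall fun y => ?_)
        simp only
        ring
      exact h4.exp
    refine ⟨h3.differentiableAt, fun w => ?_⟩
    rw [h3.fderiv]
    simp only [smul_apply, smul_eq_mul, (fderiv_rad h1 hz w).2]
    ring
  have hleft : ∫ z, (lamStar + m (‖z‖ ^ 2) / 16) * ‖u z‖ ^ 2 * Real.exp (-psi (‖z‖ ^ 2)) =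
      ∫ z, (lamStar + m (‖z‖ ^ 2) / 16) * ((G z * ur z) ^ 2 + (G z * ui z) ^ 2) := by
    refine integral_congr_ae (Eventually.of_forall fun z => ?_)
    simp only
    rw [← hG2, ← Complex.normSq_eq_norm_sq (u z), Complex.normSq_apply]
    simp only [hur, hui]
    ring
  rw [hleft]
  refine hmain.trans (le_of_eq ?_)
  refine integral_congr_ae (Eventually.of_forall fun z => ?_)
  simp only
  by_cases hz : z ∈ tsupport u
  · have hzU := hKU hz
    obtain ⟨hGd1, hGd2⟩ := hGd z hzU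
    have hA : ∀ w, fderiv ℝ (fun z => G z * ur z) z w =
        G z * (fderiv ℝ u z w).re - ur z * (G z * (psi1 (‖z‖ ^ 2) * (z.re * w.re + z.im * w.im))) := by
      intro w
      rw [fderiv_fun_mul hGd1 ((hurs.differentiable (by norm_num)) z)]
      simp only [add_apply, smul_apply, smul_eq_mul, hGd2, hfr]
      ring
    have hB : ∀ w, fderiv ℝ (fun z => G z * ui z) z w =
        G z * (fderiv ℝ u z w).im - ui z * (G z * (psi1 (‖z‖ ^ 2) * (z.re * w.re + z.im * w.im))) := by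
      intro w
      rw [fderiv_fun_mul hGd1 ((huis.differentiable (by norm_num)) z)]
      simp only [add_apply, smul_apply, smul_eq_mul, hGd2, hfi]
      ring
    rw [← hG2, hA, hA, hB, hB]
    have hnorm : ‖dz1 u z - ((psi1 (‖z‖ ^ 2) : ℝ) : ℂ) * conj z * u z‖ ^ 2 =
        ((1 / 2) * ((fderiv ℝ u z 1).re + (fderiv ℝ u z I).im) -
          psi1 (‖z‖ ^ 2) * (z.re * ur z + z.im * ui z)) ^ 2 +
        ((1 / 2) * ((fderiv ℝ u z 1).im - (fderiv ℝ u z I).re) -
          psi1 (‖z‖ ^ 2) * (z.re * ui z - z.im * ur z)) ^ 2 := by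
      rw [← Complex.normSq_eq_norm_sq, Complex.normSq_apply]
      have hre : (dz1 u z - ((psi1 (‖z‖ ^ 2) : ℝ) : ℂ) * conj z * u z).re =
          (1 / 2) * ((fderiv ℝ u z 1).re + (fderiv ℝ u z I).im) -
          psi1 (‖z‖ ^ 2) * (z.re * ur z + z.im * ui z) := by
        unfold dz1
        generalize fderiv ℝ u z 1 = p
        generalize fderiv ℝ u z I = q
        generalize psi1 (‖z‖ ^ 2) = s
        simp [hur, hui]
        ring
      have him : (dz1 u z - ((psi1 (‖z‖ ^ 2) : ℝ) : ℂ) * conj z * u z).im =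
          (1 / 2) * ((fderiv ℝ u z 1).im - (fderiv ℝ u z I).re) -
          psi1 (‖z‖ ^ 2) * (z.re * ui z - z.im * ur z) := by
        unfold dz1
        generalize fderiv ℝ u z 1 = p
        generalize fderiv ℝ u z I = q
        generalize psi1 (‖z‖ ^ 2) = s
        simp [hur, hui]
        ring
      rw [hre, him]
      ring
    rw [hnorm]
    generalize fderiv ℝ u z 1 = p
    generalize fderiv ℝ u z I = q
    generalize psi1 (‖z‖ ^ 2) = s
    simp only [Complex.one_re, Complex.one_im, Complex.I_re, Complex.I_im]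
    ring
  · have hfd0 : ∀ {h : ℂ → ℝ}, (∀ z, z ∉ tsupport u → h z = 0) → ∀ w, fderiv ℝ h z w = 0 := by
      intro h hh w
      have hts : tsupport h ⊆ tsupport u := by
        refine closure_minimal ?_ hK.isClosed
        intro y hy
        by_contra h'
        exact hy (hh y h')
      have : z ∉ tsupport h := fun h' => hz (hts h')
      rw [fderiv_of_notMem_tsupport (𝕜 := ℝ) this]
      simp
    have hd0 : dz1 u z = 0 := by
      unfold dz1
      rw [fderiv_of_notMem_tsupport (𝕜 := ℝ) hz]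
      simp
    rw [hd0, hu0 z hz, hur0 z hz, hui0 z hz,
      hfd0 (h := fun z => G z * ur z) (fun z hz => by simp only [hur0 z hz, mul_zero]),
      hfd0 (h := fun z => G z * ui z) (fun z hz => by simp only [hui0 z hz, mul_zero]),
      hfd0 (h := fun z => G z * ur z) (fun z hz => by simp only [hur0 z hz, mul_zero]),
      hfd0 (h := fun z => G z * ui z) (fun z hz => by simp only [hui0 z hz, mul_zero])]
    simp

end DbarN.JAP
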