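import Pool.Agent.H314.DN.Stmts3
import Pool.Agent.H314.DN.A0
import Pool.Agent.H314.DN.A1

set_option autoImplicit false

open MeasureTheory Complex Filter Topology
open scoped ContDiff InnerProductSpace ENNReal ComplexConjugate

namespace DbarN.JBL

/-- Right half: on `[a,b]` with `V' a ≥ 0`. -/
theorem BL_right {a b : ℝ} (hab : a ≤ b) {V V1 V2 : ℝ → ℝ} {g g1 : ℝ → ℂ}
    (hV : ∀ s ∈ Set.Icc a b, HasDerivAt V (V1 s) s)
    (hV1 : ∀ s ∈ Set.Icc a b, HasDerivAt V1 (V2 s) s)
    (hV2 : ∀ s ∈ Set.Icc a b, 0 < V2 s) (hV2c : ContinuousOn V2 (Set.Icc a b))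
    (hg : ∀ s ∈ Set.Icc a b, HasDerivAt g (g1 s) s) (hg1 : ContinuousOn g1 (Set.Icc a b))
    (ha : 0 ≤ V1 a) :
    ∫ s in a..b, ‖g s - g a‖ ^ 2 * Real.exp (-V s) ≤
      ∫ s in a..b, ‖g1 s‖ ^ 2 / V2 s * Real.exp (-V s) := by
  set q : ℝ → ℝ := fun t => ‖g1 t‖ ^ 2 / V2 t with hq
  have hVc : ContinuousOn V (Set.Icc a b) := fun s hs => (hV s hs).continuousAt.continuousWithinAt
  have hV1c : ContinuousOn V1 (Set.Icc a b) :=
    fun s hs => (hV1 s hs).continuousAt.continuousWithinAt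
  have hgc : ContinuousOn g (Set.Icc a b) := fun s hs => (hg s hs).continuousAt.continuousWithinAt
  have hqc : ContinuousOn q (Set.Icc a b) :=
    (hg1.norm.pow 2).div hV2c (fun s hs => (hV2 s hs).ne')
  have hq0 : ∀ s ∈ Set.Icc a b, 0 ≤ q s := fun s hs =>
    div_nonneg (sq_nonneg _) (hV2 s hs).le
  set G : ℝ → ℝ := fun t => ∫ x in a..t, q x with hG
  have hqi : IntervalIntegrable q volume a b := hqc.intervalIntegrable_of_Icc hab
  have hGc : ContinuousOn G (Set.Icc a b) := by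
    have := intervalIntegral.continuousOn_primitive_interval (f := q) (μ := volume) (a := a) (b := b)
      (by rw [Set.uIcc_of_le hab]; exact hqc.integrableOn_Icc)
    rwa [Set.uIcc_of_le hab] at this
  have hGd : ∀ s ∈ Set.Ioo a b, HasDerivAt G (q s) s := by
    intro s hs
    have hs' : s ∈ Set.Icc a b := ⟨hs.1.le, hs.2.le⟩
    have h1 : IntervalIntegrable q volume a s :=
      hqi.mono_set (by rw [Set.uIcc_of_le hs.1.le, Set.uIcc_of_le hab]; exact Set.Icc_subset_Icc le_rfl hs.2.le)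
    have h2 : ContinuousAt q s := (hqc s hs').continuousAt (Icc_mem_nhds hs.1 hs.2)
    exact intervalIntegral.integral_hasDerivAt_right h1
      (ContinuousOn.stronglyMeasurableAtFilter isOpen_Ioo (hqc.mono Set.Ioo_subset_Icc_self) s hs) h2
  have hG0 : ∀ s ∈ Set.Icc a b, 0 ≤ G s := by
    intro s hs
    exact intervalIntegral.integral_nonneg hs.1 (fun x hx => hq0 x ⟨hx.1, hx.2.trans hs.2⟩)
  have hGa : G a = 0 := intervalIntegral.integral_same
  -- Cauchy-Schwarz
  have hCS : ∀ s ∈ Set.Icc a b, ‖g s - g a‖ ^ 2 ≤ G s * (V1 s - V1 a) := by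
    intro s hs
    have hlam : ∀ lam : ℝ, 0 < lam → ‖g s - g a‖ ≤ (lam * G s + (V1 s - V1 a) / lam) / 2 := by
      intro lam hlam
      have key := image_norm_le_of_norm_deriv_right_le_deriv_boundary'
        (f := fun s => g s - g a) (f' := g1) (a := a) (b := b)
        (B := fun s => (lam * G s + (V1 s - V1 a) / lam) / 2)
        (B' := fun s => (lam * q s + V2 s / lam) / 2)
        (hgc.sub continuousOn_const)
        (fun x hx => ((hg x ⟨hx.1, hx.2.le⟩).sub_const (g a)).hasDerivWithinAt)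
        (by simp [hGa])
        (by
          refine ((hGc.const_smul lam).add ?_).div_const 2
          exact (hV1c.sub continuousOn_const).div_const lam)
        (by
          intro x hx
          have hx' : x ∈ Set.Icc a b := ⟨hx.1, hx.2.le⟩
          have h1 : HasDerivWithinAt G (q x) (Set.Ici x) x := by
            have hxb : x < b := hx.2
            have h1 : IntervalIntegrable q volume a x :=
              hqi.mono_set (by
                rw [Set.uIcc_of_le hx.1, Set.uIcc_of_le hab]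
                exact Set.Icc_subset_Icc le_rfl hx.2.le)
            have h2 : ContinuousWithinAt q (Set.Ioi x) x := by
              have h3 : ContinuousWithinAt q (Set.Icc a b) x := hqc x hx'
              have h4 : Set.Ioo x b ⊆ Set.Icc a b := fun y hy => ⟨hx.1.trans hy.1.le, hy.2.le⟩
              exact (h3.mono h4).mono_of_mem_nhdsWithin (Ioo_mem_nhdsGT hxb)
            refine intervalIntegral.integral_hasDerivWithinAt_right h1 ?_ h2
            refine ⟨Set.Ioo x b, Ioo_mem_nhdsGT hxb, ?_⟩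
            exact ((hqc.mono (fun y hy => ⟨hx.1.trans hy.1.le, hy.2.le⟩ : Set.Ioo x b ⊆ Set.Icc a b)).aestronglyMeasurable
              measurableSet_Ioo)
          have h2 : HasDerivWithinAt V1 (V2 x) (Set.Ici x) x := (hV1 x hx').hasDerivWithinAt
          exact ((h1.const_mul lam).add ((h2.sub_const (V1 a)).div_const lam)).div_const 2)
        (by
          intro x hx
          have hx' : x ∈ Set.Icc a b := ⟨hx.1, hx.2.le⟩
          have h1 := hV2 x hx'
          have h2 : 0 ≤ (lam * ‖g1 x‖ - V2 x) ^ 2 := sq_nonneg _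
          show ‖g1 x‖ ≤ (lam * (‖g1 x‖ ^ 2 / V2 x) + V2 x / lam) / 2
          have h3 : (lam * (‖g1 x‖ ^ 2 / V2 x) + V2 x / lam) / 2 - ‖g1 x‖ =
              (lam * ‖g1 x‖ - V2 x) ^ 2 / (2 * lam * V2 x) := by
            field_simp
            ring
          have h4 : 0 ≤ (lam * ‖g1 x‖ - V2 x) ^ 2 / (2 * lam * V2 x) := by positivity
          linarith)
      exact key hs
    have hD : 0 ≤ V1 s - V1 a := by
      have : MonotoneOn V1 (Set.Icc a b) := by
        apply monotoneOn_of_deriv_nonneg (convex_Icc a b) hV1c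
        · intro x hx
          rw [interior_Icc] at hx
          exact (hV1 x ⟨hx.1.le, hx.2.le⟩).differentiableAt.differentiableWithinAt
        · intro x hx
          rw [interior_Icc] at hx
          rw [(hV1 x ⟨hx.1.le, hx.2.le⟩).deriv]
          exact (hV2 x ⟨hx.1.le, hx.2.le⟩).le
      have := this ⟨le_rfl, hab⟩ hs hs.1
      linarith
    have hquad : ∀ x : ℝ, 0 ≤ G s * (x * x) + (-2 * ‖g s - g a‖) * x + (V1 s - V1 a) := by
      intro x
      rcases le_or_gt x 0 with hx | hx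
      · have h1 := hG0 s hs
        have h2 := norm_nonneg (g s - g a)
        have h3 : 0 ≤ G s * (x * x) := mul_nonneg h1 (mul_self_nonneg x)
        have h4 : 0 ≤ (-2 * ‖g s - g a‖) * x := by nlinarith
        linarith
      · have h1 := hlam x hx
        have h2 : x * ‖g s - g a‖ ≤ x * ((x * G s + (V1 s - V1 a) / x) / 2) :=
          mul_le_mul_of_nonneg_left h1 hx.le
        have h3 : x * ((x * G s + (V1 s - V1 a) / x) / 2) =
            (G s * (x * x) + (V1 s - V1 a)) / 2 := by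
          field_simp
        linarith
    have hd := discrim_le_zero hquad
    unfold discrim at hd
    nlinarith
  -- now integrate
  set w : ℝ → ℝ := fun s => Real.exp (-V s) with hw
  have hwc : ContinuousOn w (Set.Icc a b) := (hVc.neg).rexp
  have hwd : ∀ s ∈ Set.Icc a b, HasDerivAt w (-(V1 s) * w s) s := by
    intro s hs
    have := ((hV s hs).neg).exp
    refine this.congr_deriv ?_
    show Real.exp (-V s) * -V1 s = -(V1 s) * Real.exp (-V s)
    ring
  have h1 : ∫ s in a..b, ‖g s - g a‖ ^ 2 * w s ≤ ∫ s in a..b, G s * V1 s * w s := by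
    apply intervalIntegral.integral_mono_on hab
    · apply ContinuousOn.intervalIntegrable_of_Icc hab
      exact ((hgc.sub continuousOn_const).norm.pow 2).mul hwc
    · apply ContinuousOn.intervalIntegrable_of_Icc hab
      exact (hGc.mul hV1c).mul hwc
    · intro s hs
      have h1 := hCS s hs
      have h2 := hG0 s hs
      have h3 : 0 < w s := Real.exp_pos _
      have h4 : G s * (V1 s - V1 a) ≤ G s * V1 s := by nlinarith
      exact mul_le_mul_of_nonneg_right (h1.trans h4) h3.le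
  have h2 : ∫ s in a..b, (q s * w s - G s * V1 s * w s) = G b * w b - G a * w a := by
    refine intervalIntegral.integral_eq_sub_of_hasDerivAt_of_le (f := fun s => G s * w s) hab
      (hGc.mul hwc) ?_ ?_
    · intro s hs
      have h3 := (hGd s hs).mul (hwd s ⟨hs.1.le, hs.2.le⟩)
      refine h3.congr_deriv ?_
      ring
    · apply ContinuousOn.intervalIntegrable_of_Icc hab
      exact (hqc.mul hwc).sub ((hGc.mul hV1c).mul hwc)
  have hi1 : IntervalIntegrable (fun s => q s * w s) volume a b :=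
    (hqc.mul hwc).intervalIntegrable_of_Icc hab
  have hi2 : IntervalIntegrable (fun s => G s * V1 s * w s) volume a b :=
    ((hGc.mul hV1c).mul hwc).intervalIntegrable_of_Icc hab
  rw [intervalIntegral.integral_sub hi1 hi2] at h2
  have h3 : 0 ≤ G b * w b := mul_nonneg (hG0 b ⟨hab, le_rfl⟩) (Real.exp_pos _).le
  rw [hGa] at h2
  have h4 : ∫ s in a..b, G s * V1 s * w s ≤ ∫ s in a..b, q s * w s := by linarith
  exact h1.trans h4


/-- Left half: on `[a,b]` with `V' b ≤ 0`. -/
theorem BL_left {a b : ℝ} (hab : a ≤ b) {V V1 V2 : ℝ → ℝ} {g g1 : ℝ → ℂ}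
    (hV : ∀ s ∈ Set.Icc a b, HasDerivAt V (V1 s) s)
    (hV1 : ∀ s ∈ Set.Icc a b, HasDerivAt V1 (V2 s) s)
    (hV2 : ∀ s ∈ Set.Icc a b, 0 < V2 s) (hV2c : ContinuousOn V2 (Set.Icc a b))
    (hg : ∀ s ∈ Set.Icc a b, HasDerivAt g (g1 s) s) (hg1 : ContinuousOn g1 (Set.Icc a b))
    (hb : V1 b ≤ 0) :
    ∫ s in a..b, ‖g s - g b‖ ^ 2 * Real.exp (-V s) ≤
      ∫ s in a..b, ‖g1 s‖ ^ 2 / V2 s * Real.exp (-V s) := by
  have hmem : ∀ s ∈ Set.Icc (-b) (-a), -s ∈ Set.Icc a b := fun s hs =>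
    ⟨by linarith [hs.2], by linarith [hs.1]⟩
  have hmaps : Set.MapsTo (fun s : ℝ => -s) (Set.Icc (-b) (-a)) (Set.Icc a b) := hmem
  have h := BL_right (a := -b) (b := -a) (by linarith) (V := fun s => V (-s))
    (V1 := fun s => -V1 (-s)) (V2 := fun s => V2 (-s)) (g := fun s => g (-s))
    (g1 := fun s => -g1 (-s))
    (fun s hs => by
      have := (hV (-s) (hmem s hs)).comp s (hasDerivAt_neg s)
      exact this.congr_deriv (by ring))
    (fun s hs => by
      have := ((hV1 (-s) (hmem s hs)).comp s (hasDerivAt_neg s)).neg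
      exact this.congr_deriv (by ring))
    (fun s hs => hV2 (-s) (hmem s hs))
    (hV2c.comp continuous_neg.continuousOn hmaps)
    (fun s hs => by
      have := (hg (-s) (hmem s hs)).scomp s (hasDerivAt_neg s)
      exact this.congr_deriv (by simp))
    ((hg1.comp continuous_neg.continuousOn hmaps).neg)
    (by
      show 0 ≤ -V1 (- -b)
      rw [neg_neg]; linarith)
  have e1 := intervalIntegral.integral_comp_neg (a := -b) (b := -a)
    (f := fun s => ‖g s - g b‖ ^ 2 * Real.exp (-V s))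
  have e2 := intervalIntegral.integral_comp_neg (a := -b) (b := -a)
    (f := fun s => ‖g1 s‖ ^ 2 / V2 s * Real.exp (-V s))
  simp only [neg_neg] at e1 e2 h
  rw [← e1, ← e2]
  simpa only [norm_neg] using h

/-- On `[a,b]` there is a good constant. -/
theorem BL_const {a b : ℝ} (hab : a ≤ b) {V V1 V2 : ℝ → ℝ} {g g1 : ℝ → ℂ}
    (hV : ∀ s ∈ Set.Icc a b, HasDerivAt V (V1 s) s)
    (hV1 : ∀ s ∈ Set.Icc a b, HasDerivAt V1 (V2 s) s)
    (hV2 : ∀ s ∈ Set.Icc a b, 0 < V2 s) (hV2c : ContinuousOn V2 (Set.Icc a b))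
    (hg : ∀ s ∈ Set.Icc a b, HasDerivAt g (g1 s) s) (hg1 : ContinuousOn g1 (Set.Icc a b)) :
    ∃ c : ℂ, ∫ s in a..b, ‖g s - c‖ ^ 2 * Real.exp (-V s) ≤
      ∫ s in a..b, ‖g1 s‖ ^ 2 / V2 s * Real.exp (-V s) := by
  rcases le_total 0 (V1 a) with h0 | h0
  · exact ⟨g a, BL_right hab hV hV1 hV2 hV2c hg hg1 h0⟩
  rcases le_total (V1 b) 0 with h1 | h1
  · exact ⟨g b, BL_left hab hV hV1 hV2 hV2c hg hg1 h1⟩
  have hVc : ContinuousOn V (Set.Icc a b) := fun s hs => (hV s hs).continuousAt.continuousWithinAt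
  have hV1c : ContinuousOn V1 (Set.Icc a b) :=
    fun s hs => (hV1 s hs).continuousAt.continuousWithinAt
  have hgc : ContinuousOn g (Set.Icc a b) := fun s hs => (hg s hs).continuousAt.continuousWithinAt
  obtain ⟨t, ht, ht0⟩ := intermediate_value_Icc hab hV1c ⟨h0, h1⟩
  have hl : Set.Icc a t ⊆ Set.Icc a b := Set.Icc_subset_Icc le_rfl ht.2
  have hr : Set.Icc t b ⊆ Set.Icc a b := Set.Icc_subset_Icc ht.1 le_rfl
  have k1 := BL_left (a := a) (b := t) ht.1 (fun s hs => hV s (hl hs)) (fun s hs => hV1 s (hl hs))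
    (fun s hs => hV2 s (hl hs)) (hV2c.mono hl) (fun s hs => hg s (hl hs)) (hg1.mono hl) ht0.le
  have k2 := BL_right (a := t) (b := b) ht.2 (fun s hs => hV s (hr hs)) (fun s hs => hV1 s (hr hs))
    (fun s hs => hV2 s (hr hs)) (hV2c.mono hr) (fun s hs => hg s (hr hs)) (hg1.mono hr) ht0.ge
  refine ⟨g t, ?_⟩
  have c1 : ContinuousOn (fun s => ‖g s - g t‖ ^ 2 * Real.exp (-V s)) (Set.Icc a b) :=
    ((hgc.sub continuousOn_const).norm.pow 2).mul hVc.neg.rexp
  have c2 : ContinuousOn (fun s => ‖g1 s‖ ^ 2 / V2 s * Real.exp (-V s)) (Set.Icc a b) :=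
    ((hg1.norm.pow 2).div hV2c (fun s hs => (hV2 s hs).ne')).mul hVc.neg.rexp
  rw [← intervalIntegral.integral_add_adjacent_intervals
      ((c1.mono hl).intervalIntegrable_of_Icc ht.1) ((c1.mono hr).intervalIntegrable_of_Icc ht.2),
    ← intervalIntegral.integral_add_adjacent_intervals
      ((c2.mono hl).intervalIntegrable_of_Icc ht.1) ((c2.mono hr).intervalIntegrable_of_Icc ht.2)]
  exact add_le_add k1 k2

/-- expansion of the variance integral -/
theorem BL_expand (S : Set ℝ) {w : ℝ → ℝ} {g : ℝ → ℂ}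
    (hw : IntegrableOn w S) (hg2 : IntegrableOn (fun s => ‖g s‖ ^ 2 * w s) S)
    (hg : IntegrableOn (fun s => g s * (w s : ℂ)) S) (c : ℂ) :
    ∫ s in S, ‖g s - c‖ ^ 2 * w s = (∫ s in S, ‖g s‖ ^ 2 * w s) -
      2 * (c.re * (∫ s in S, g s * (w s : ℂ)).re + c.im * (∫ s in S, g s * (w s : ℂ)).im) +
      (c.re ^ 2 + c.im ^ 2) * ∫ s in S, w s := by
  have hre : IntegrableOn (fun s => (g s).re * w s) S := by
    have := hg.re
    refine this.congr (Filter.Eventually.of_forall fun s => ?_)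
    simp
  have him : IntegrableOn (fun s => (g s).im * w s) S := by
    have := hg.im
    refine this.congr (Filter.Eventually.of_forall fun s => ?_)
    simp
  have e1 : (∫ s in S, g s * (w s : ℂ)).re = ∫ s in S, (g s).re * w s := by
    rw [← RCLike.re_eq_complex_re, ← integral_re hg]
    refine integral_congr_ae (Filter.Eventually.of_forall fun s => ?_)
    simp
  have e2 : (∫ s in S, g s * (w s : ℂ)).im = ∫ s in S, (g s).im * w s := by
    rw [← RCLike.im_eq_complex_im, ← integral_im hg]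
    refine integral_congr_ae (Filter.Eventually.of_forall fun s => ?_)
    simp
  have e3 : (fun s => ‖g s - c‖ ^ 2 * w s) = fun s => ‖g s‖ ^ 2 * w s -
      ((2 * c.re) * ((g s).re * w s) + (2 * c.im) * ((g s).im * w s)) +
      (c.re ^ 2 + c.im ^ 2) * w s := by
    funext s
    rw [← Complex.normSq_eq_norm_sq, ← Complex.normSq_eq_norm_sq, Complex.normSq_apply,
      Complex.normSq_apply]
    simp only [Complex.sub_re, Complex.sub_im]
    ring
  rw [e3, integral_add, integral_sub, integral_add, integral_const_mul, integral_const_mul,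
    integral_const_mul, e1, e2]
  · ring
  · exact hre.const_mul _
  · exact him.const_mul _
  · exact hg2
  · exact (hre.const_mul _).add (him.const_mul _)
  · exact hg2.sub ((hre.const_mul _).add (him.const_mul _))
  · exact hw.const_mul _

theorem BL_main (V V1 V2 : ℝ → ℝ) (g g1 : ℝ → ℂ)
    (hV : ∀ s ∈ Set.Ioo (0 : ℝ) 1, HasDerivAt V (V1 s) s)
    (hV1 : ∀ s ∈ Set.Ioo (0 : ℝ) 1, HasDerivAt V1 (V2 s) s)
    (hV2 : ∀ s ∈ Set.Ioo (0 : ℝ) 1, 0 < V2 s) (hV2c : ContinuousOn V2 (Set.Ioo (0 : ℝ) 1))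
    (hw : IntegrableOn (fun s => Real.exp (-V s)) (Set.Ioo (0 : ℝ) 1))
    (hg : ∀ s ∈ Set.Ioo (0 : ℝ) 1, HasDerivAt g (g1 s) s)
    (hg1 : ContinuousOn g1 (Set.Ioo (0 : ℝ) 1))
    (hg2 : IntegrableOn (fun s => ‖g s‖ ^ 2 * Real.exp (-V s)) (Set.Ioo (0 : ℝ) 1))
    (hq : IntegrableOn (fun s => ‖g1 s‖ ^ 2 / V2 s * Real.exp (-V s)) (Set.Ioo (0 : ℝ) 1)) :
    ∫ s in Set.Ioo (0 : ℝ) 1, ‖g s - (∫ x in Set.Ioo (0 : ℝ) 1, g x * (Real.exp (-V x) : ℂ)) /
        ((∫ x in Set.Ioo (0 : ℝ) 1, Real.exp (-V x) : ℝ) : ℂ)‖ ^ 2 * Real.exp (-V s)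
      ≤ ∫ s in Set.Ioo (0 : ℝ) 1, ‖g1 s‖ ^ 2 / V2 s * Real.exp (-V s) := by
  have hVc : ContinuousOn V (Set.Ioo (0 : ℝ) 1) :=
    fun s hs => (hV s hs).continuousAt.continuousWithinAt
  have hgc : ContinuousOn g (Set.Ioo (0 : ℝ) 1) :=
    fun s hs => (hg s hs).continuousAt.continuousWithinAt
  have hgw : IntegrableOn (fun s => g s * ((Real.exp (-V s) : ℝ) : ℂ)) (Set.Ioo (0 : ℝ) 1) := by
    have h1 : IntegrableOn (fun s => ‖g s‖ ^ 2 * Real.exp (-V s) + Real.exp (-V s))
      (Set.Ioo (0 : ℝ) 1) := hg2.add hw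
    refine h1.mono' ?_ ?_
    · refine ContinuousOn.aestronglyMeasurable ?_ measurableSet_Ioo
      exact hgc.mul (Complex.continuous_ofReal.comp_continuousOn hVc.neg.rexp)
    · refine Filter.Eventually.of_forall fun s => ?_
      have h2 : 0 < Real.exp (-V s) := Real.exp_pos _
      rw [norm_mul, Complex.norm_real, Real.norm_eq_abs, abs_of_pos h2]
      nlinarith [sq_nonneg (‖g s‖ - 1), norm_nonneg (g s), sq_nonneg (‖g s‖)]
  set w : ℝ → ℝ := fun s => Real.exp (-V s) with hwdef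
  set A := ∫ s in Set.Ioo (0 : ℝ) 1, ‖g s‖ ^ 2 * w s with hA
  set B := ∫ s in Set.Ioo (0 : ℝ) 1, g s * (w s : ℂ) with hB
  set W := ∫ s in Set.Ioo (0 : ℝ) 1, w s with hW
  set R := ∫ s in Set.Ioo (0 : ℝ) 1, ‖g1 s‖ ^ 2 / V2 s * w s with hR
  have hwpos : ∀ s, 0 < w s := fun s => Real.exp_pos _
  have hWpos : 0 < W := by
    rw [hW, setIntegral_pos_iff_support_of_nonneg_ae
      (Filter.Eventually.of_forall fun s => (hwpos s).le) hw]
    have : Function.support w = Set.univ := by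
      ext s
      simp [(hwpos s).ne']
    rw [this, Set.univ_inter, Real.volume_Ioo]
    simp
  -- exhaustion
  set S : ℕ → Set ℝ := fun n => Set.Ioc (1 / ((n : ℝ) + 2)) (1 - 1 / ((n : ℝ) + 2)) with hS
  have hSm : ∀ n, MeasurableSet (S n) := fun n => measurableSet_Ioc
  have hinv : ∀ n m : ℕ, n ≤ m → 1 / ((m : ℝ) + 2) ≤ 1 / ((n : ℝ) + 2) := by
    intro n m h
    apply one_div_le_one_div_of_le (by positivity)
    have : (n : ℝ) ≤ m := by exact_mod_cast h
    linarith
  have hSmono : Monotone S := by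
    intro n m h
    apply Set.Ioc_subset_Ioc (hinv n m h)
    linarith [hinv n m h]
  have hSU : ⋃ n, S n = Set.Ioo (0 : ℝ) 1 := by
    ext x
    simp only [hS, Set.mem_iUnion, Set.mem_Ioc, Set.mem_Ioo]
    constructor
    · rintro ⟨n, h1, h2⟩
      have : 0 < 1 / ((n : ℝ) + 2) := by positivity
      constructor <;> linarith
    · rintro ⟨h1, h2⟩
      obtain ⟨n, hn⟩ := exists_nat_one_div_lt (lt_min h1 (sub_pos.2 h2))
      refine ⟨n, ?_, ?_⟩
      · have h3 : 1 / ((n : ℝ) + 2) ≤ 1 / ((n : ℝ) + 1) := by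
          apply one_div_le_one_div_of_le (by positivity); linarith
        have := min_le_left x (1 - x)
        linarith
      · have h3 : 1 / ((n : ℝ) + 2) ≤ 1 / ((n : ℝ) + 1) := by
          apply one_div_le_one_div_of_le (by positivity); linarith
        have := min_le_right x (1 - x)
        linarith
  have hSsub : ∀ n, S n ⊆ Set.Ioo (0 : ℝ) 1 := fun n => by
    rw [← hSU]; exact Set.subset_iUnion S n
  have t1 : Tendsto (fun n => ∫ s in S n, ‖g s‖ ^ 2 * w s) atTop (𝓝 A) := by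
    have := tendsto_setIntegral_of_monotone hSm hSmono (f := fun s => ‖g s‖ ^ 2 * w s)
      (μ := volume) (by rw [hSU]; exact hg2)
    rwa [hSU] at this
  have t2 : Tendsto (fun n => ∫ s in S n, g s * (w s : ℂ)) atTop (𝓝 B) := by
    have := tendsto_setIntegral_of_monotone hSm hSmono (f := fun s => g s * (w s : ℂ))
      (μ := volume) (by rw [hSU]; exact hgw)
    rwa [hSU] at this
  have t3 : Tendsto (fun n => ∫ s in S n, w s) atTop (𝓝 W) := by
    have := tendsto_setIntegral_of_monotone hSm hSmono (f := w)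
      (μ := volume) (by rw [hSU]; exact hw)
    rwa [hSU] at this
  have key : ∀ n : ℕ, (∫ s in S n, ‖g s‖ ^ 2 * w s) * (∫ s in S n, w s) -
      ((∫ s in S n, g s * (w s : ℂ)).re ^ 2 + (∫ s in S n, g s * (w s : ℂ)).im ^ 2) ≤
      R * ∫ s in S n, w s := by
    intro n
    have hn2 : 1 / ((n : ℝ) + 2) ≤ 1 / 2 := by
      apply one_div_le_one_div_of_le (by norm_num)
      have : (0 : ℝ) ≤ n := Nat.cast_nonneg n
      linarith
    have hn0 : 0 < 1 / ((n : ℝ) + 2) := by positivity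
    have hab : 1 / ((n : ℝ) + 2) ≤ 1 - 1 / ((n : ℝ) + 2) := by linarith
    have hsub : Set.Icc (1 / ((n : ℝ) + 2)) (1 - 1 / ((n : ℝ) + 2)) ⊆ Set.Ioo (0 : ℝ) 1 :=
      fun s hs => ⟨by linarith [hs.1], by linarith [hs.2]⟩
    obtain ⟨c, hc⟩ := BL_const hab (fun s hs => hV s (hsub hs)) (fun s hs => hV1 s (hsub hs))
      (fun s hs => hV2 s (hsub hs)) (hV2c.mono hsub) (fun s hs => hg s (hsub hs)) (hg1.mono hsub)
    rw [intervalIntegral.integral_of_le hab, intervalIntegral.integral_of_le hab] at hc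
    have hle : ∫ s in S n, ‖g1 s‖ ^ 2 / V2 s * w s ≤ R := by
      apply setIntegral_mono_set hq
      · rw [Filter.EventuallyLE, ae_restrict_iff' measurableSet_Ioo]
        refine Filter.Eventually.of_forall fun s hs => ?_
        exact mul_nonneg (div_nonneg (sq_nonneg _) (hV2 s hs).le) (hwpos s).le
      · exact (hSsub n).eventuallyLE
    have hexp := BL_expand (S n) (w := w) (g := g) (hw.mono_set (hSsub n)) (hg2.mono_set (hSsub n))
      (hgw.mono_set (hSsub n)) c
    have hc' : ∫ s in S n, ‖g s - c‖ ^ 2 * w s ≤ R := hc.trans hle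
    rw [hexp] at hc'
    have hWn : 0 ≤ ∫ s in S n, w s := setIntegral_nonneg (hSm n) fun s _ => (hwpos s).le
    set An := ∫ s in S n, ‖g s‖ ^ 2 * w s
    set Bn := ∫ s in S n, g s * (w s : ℂ)
    set Wn := ∫ s in S n, w s
    have h5 := mul_le_mul_of_nonneg_right hc' hWn
    nlinarith [sq_nonneg (c.re * Wn - Bn.re), sq_nonneg (c.im * Wn - Bn.im)]
  have hlim : A * W - (B.re ^ 2 + B.im ^ 2) ≤ R * W := by
    refine le_of_tendsto_of_tendsto' (((t1.mul t3).sub
      (((Complex.continuous_re.tendsto B |>.comp t2).pow 2).add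
        ((Complex.continuous_im.tendsto B |>.comp t2).pow 2)))) (t3.const_mul R) ?_
    intro n
    exact key n
  have hexp := BL_expand (Set.Ioo (0 : ℝ) 1) (w := w) (g := g) hw hg2 hgw (B / (W : ℂ))
  have e1 : (B / (W : ℂ)).re = B.re / W := Complex.div_ofReal_re B W
  have e2 : (B / (W : ℂ)).im = B.im / W := Complex.div_ofReal_im B W
  rw [e1, e2] at hexp
  show ∫ s in Set.Ioo (0 : ℝ) 1, ‖g s - B / (W : ℂ)‖ ^ 2 * w s ≤ R
  rw [hexp]
  show A - 2 * (B.re / W * B.re + B.im / W * B.im) + ((B.re / W) ^ 2 + (B.im / W) ^ 2) * W ≤ R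
  have e3 : A - 2 * (B.re / W * B.re + B.im / W * B.im) + ((B.re / W) ^ 2 + (B.im / W) ^ 2) * W =
      (A * W - (B.re ^ 2 + B.im ^ 2)) / W := by
    field_simp
    ring
  rw [e3, div_le_iff₀ hWpos]
  exact hlim

theorem bl : BL_stmt := by
  intro V V1 V2 g g1 hV hV1 hV2 hV2c hw hg hg1 hg2 hq
  exact BL_main V V1 V2 g g1 hV hV1 hV2 hV2c hw hg hg1 hg2 hq

end DbarN.JBL
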