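import Pool.Agent.H314.DN.Stmts4
import Pool.Agent.H314.DN.A0
import Pool.Agent.H314.DN.A1

set_option autoImplicit false

open MeasureTheory Complex Filter Topology
open scoped ContDiff InnerProductSpace ENNReal ComplexConjugate

namespace DbarN.JD1

theorem mem_omega_aux_om (k1 l1 t : ℝ) (hk : 0 < k1) (hl : 100 ≤ l1) :
    om k1 l1 t < 1 ↔ t < tB k1 l1 := by
  unfold om tB
  have hl0 : 0 < l1 := by linarith
  by_cases ht : t ≤ 1
  · have h1 : expNegInvGlue ((t - 1) / k1) = 0 :=
      expNegInvGlue.zero_of_nonpos (div_nonpos_of_nonpos_of_nonneg (by linarith) hk.le)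
    rw [h1, mul_zero]
    have : 0 < k1 / l1 := by positivity
    constructor
    · intro _; linarith
    · intro _; norm_num
  · push Not at ht
    have h0 : 0 < t - 1 := by linarith
    have h1 : expNegInvGlue ((t - 1) / k1) = Real.exp (-((t - 1) / k1)⁻¹) := by
      unfold expNegInvGlue
      rw [if_neg (not_le.2 (by positivity))]
    rw [h1, ← Real.exp_add, Real.exp_lt_one_iff, inv_div]
    rw [← sub_eq_add_neg, sub_neg, lt_div_iff₀ h0]
    constructor
    · intro h
      have : t - 1 < k1 / l1 := by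
        rw [lt_div_iff₀ hl0]; linarith
      linarith
    · intro h
      have : t - 1 < k1 / l1 := by linarith
      rw [lt_div_iff₀ hl0] at this
      linarith

theorem mem_omega : Mem_stmt := by
  intro e k1 l1 hp x
  obtain ⟨he, he1, hk, hk1, hl⟩ := hp
  have hl0 : 0 < l1 := by linarith
  have he2 : 0 < e ^ 2 := by positivity
  set t : ℝ := ‖x 0‖ ^ 2 with ht
  have ht0 : 0 ≤ t := by positivity
  set r : ℝ := ‖x 1‖ ^ 2 with hr
  set q : ℝ := ‖x 2‖ ^ 2 / e ^ 2 with hq
  have hq0 : 0 ≤ q := by positivity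
  have hom0 : 0 ≤ om k1 l1 t := by
    unfold om
    exact mul_nonneg (Real.exp_pos _).le (expNegInvGlue.nonneg _)
  have htB2 : tB k1 l1 < 2 := by
    unfold tB
    have : k1 / l1 ≤ (1 / 100) / 100 := by
      apply div_le_div₀ <;> norm_num <;> linarith
    linarith
  have hqq : ‖x 2‖ ^ 2 < e ^ 2 * dl k1 l1 t ↔ q < dl k1 l1 t := by
    rw [hq, div_lt_iff₀ he2, mul_comm]
  -- main equivalence
  have key : t < 2 → q < dl k1 l1 t →
      (Real.exp 100 * expNegInvGlue ((r / e ^ 2 - 1) / (2 - t)) < dl k1 l1 t - q ↔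
        r < e ^ 2 * (1 + XX k1 l1 t (‖x 2‖ / (e * Real.sqrt (dl k1 l1 t))))) := by
    intro ht2 hqd
    set d : ℝ := dl k1 l1 t with hd
    have hd1 : d ≤ 1 := by rw [hd]; unfold dl; linarith
    have hd0 : 0 < d := by linarith
    have hD0 : 0 < d - q := by linarith
    have hD1 : d - q ≤ 1 := by linarith
    have h2t : 0 < 2 - t := by linarith
    have hel : el k1 l1 t (‖x 2‖ / (e * Real.sqrt d)) = 100 - Real.log (d - q) := by
      unfold el Lm tau
      rw [← hd]
      have hs : 1 - (‖x 2‖ / (e * Real.sqrt d)) ^ 2 = (d - q) / d := by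
        rw [div_pow, mul_pow, Real.sq_sqrt hd0.le, hq]
        field_simp
      rw [hs, Real.log_div hD0.ne' hd0.ne']
      ring
    have hlog : Real.log (d - q) ≤ 0 := Real.log_nonpos hD0.le hD1
    unfold XX
    rw [hel]
    set L : ℝ := 100 - Real.log (d - q) with hL
    have hL0 : 0 < L := by linarith
    have hrw : (r < e ^ 2 * (1 + (2 - t) / L)) ↔ (r / e ^ 2 - 1) / (2 - t) < 1 / L := by
      rw [div_lt_iff₀ h2t]
      have e1 : r < e ^ 2 * (1 + (2 - t) / L) ↔ r / e ^ 2 < 1 + (2 - t) / L := by
        rw [div_lt_iff₀ he2, mul_comm]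
      rw [e1]
      constructor
      · intro h
        have : 1 / L * (2 - t) = (2 - t) / L := by ring
        rw [this]; linarith
      · intro h
        have : 1 / L * (2 - t) = (2 - t) / L := by ring
        rw [this] at h; linarith
    rw [hrw]
    set u : ℝ := (r / e ^ 2 - 1) / (2 - t) with hu
    by_cases hu0 : u ≤ 0
    · rw [expNegInvGlue.zero_of_nonpos hu0, mul_zero]
      constructor
      · intro _
        have : 0 < 1 / L := by positivity
        linarith
      · intro _; exact hD0
    · push Not at hu0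
      have h1 : expNegInvGlue u = Real.exp (-u⁻¹) := by
        unfold expNegInvGlue
        rw [if_neg (not_le.2 hu0)]
      rw [h1, ← Real.exp_add, ← Real.lt_log_iff_exp_lt hD0]
      constructor
      · intro h
        have h2 : L < u⁻¹ := by linarith
        rw [lt_div_iff₀ hL0]
        have := mul_lt_mul_of_pos_left h2 hu0
        rwa [mul_inv_cancel₀ hu0.ne'] at this
      · intro h
        rw [lt_div_iff₀ hL0] at h
        have h2 : L < u⁻¹ := by
          rw [lt_inv_comm₀ hL0 hu0]
          rw [lt_inv_comm₀ hu0 hL0]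
          by_contra hcon
          push Not at hcon
          have := mul_le_mul_of_nonneg_left hcon hu0.le
          rw [mul_inv_cancel₀ hu0.ne'] at this
          linarith
        linarith
  constructor
  · rintro ⟨h2, h3⟩
    rw [← ht] at h2
    rw [← ht, ← hr, ← hq] at h3
    have heg : 0 ≤ Real.exp 100 * expNegInvGlue ((r / e ^ 2 - 1) / (2 - t)) :=
      mul_nonneg (Real.exp_pos _).le (expNegInvGlue.nonneg _)
    have hom1 : om k1 l1 t < 1 := by linarith
    have hqd : q < dl k1 l1 t := by unfold dl; linarith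
    refine ⟨(mem_omega_aux_om k1 l1 t hk hl).1 hom1, hqq.2 hqd, (key h2 hqd).1 ?_⟩
    unfold dl
    linarith
  · rintro ⟨h1, h2, h3⟩
    have ht2 : t < 2 := by linarith
    have hqd := hqq.1 h2
    have h4 := (key ht2 hqd).2 h3
    refine ⟨ht2, ?_⟩
    rw [← ht, ← hr, ← hq]
    unfold dl at h4
    linarith

end DbarN.JD1
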