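import Pool.Agent.H314.DN.Stmts4
import Pool.Agent.H314.DN.A0
import Pool.Agent.H314.DN.A1

set_option autoImplicit false

open MeasureTheory Complex Filter Topology
open scoped ContDiff InnerProductSpace ENNReal ComplexConjugate

namespace DbarN.JD2

theorem dom_om_nonneg (k1 l1 t : ℝ) : 0 ≤ om k1 l1 t :=
  mul_nonneg (Real.exp_pos _).le (expNegInvGlue.nonneg _)

theorem dom_open {e k1 l1 : ℝ} : IsOpen (Omega e k1 l1) := by
  have hU : IsOpen {x : E3 | ‖x 0‖ ^ 2 < 2} :=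
    isOpen_lt (by fun_prop) continuous_const
  have hg : ContinuousOn (fun x : E3 => om k1 l1 (‖x 0‖ ^ 2) +
      Real.exp 100 * expNegInvGlue ((‖x 1‖ ^ 2 / e ^ 2 - 1) / (2 - ‖x 0‖ ^ 2)) +
      ‖x 2‖ ^ 2 / e ^ 2) {x : E3 | ‖x 0‖ ^ 2 < 2} := by
    have hE : Continuous expNegInvGlue := expNegInvGlue.contDiff.continuous (n := 0)
    refine ContinuousOn.add (ContinuousOn.add ?_ ?_) ?_
    · apply Continuous.continuousOn
      unfold om
      exact continuous_const.mul (hE.comp (by fun_prop))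
    · refine continuousOn_const.mul (hE.comp_continuousOn ?_)
      refine ContinuousOn.div (by fun_prop) (by fun_prop) ?_
      intro x hx
      have : ‖x 0‖ ^ 2 < 2 := hx
      linarith
    · fun_prop
  have h := hg.isOpen_inter_preimage hU (isOpen_Iio (a := (1 : ℝ)))
  exact h

theorem dom_last {e k1 l1 : ℝ} (h : ParOK e k1 l1) (x : E3) (h0 : ‖x 0‖ < 1) (h1 : ‖x 1‖ < e)
    (h2 : ‖x 2‖ < e) : x ∈ Omega e k1 l1 := by
  have he := h.he
  have hk := h.hk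
  have ht : ‖x 0‖ ^ 2 < 1 := by
    have := norm_nonneg (x 0)
    nlinarith
  have e1 : om k1 l1 (‖x 0‖ ^ 2) = 0 := by
    unfold om
    rw [expNegInvGlue.zero_of_nonpos (div_nonpos_of_nonpos_of_nonneg (by linarith) hk.le), mul_zero]
  have e2 : ‖x 1‖ ^ 2 / e ^ 2 ≤ 1 := by
    rw [div_le_one (by positivity)]
    exact pow_le_pow_left₀ (norm_nonneg _) h1.le 2
  have e3 : expNegInvGlue ((‖x 1‖ ^ 2 / e ^ 2 - 1) / (2 - ‖x 0‖ ^ 2)) = 0 :=
    expNegInvGlue.zero_of_nonpos (div_nonpos_of_nonpos_of_nonneg (by linarith) (by linarith))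
  have e4 : ‖x 2‖ ^ 2 / e ^ 2 < 1 := by
    rw [div_lt_one (by positivity)]
    exact pow_lt_pow_left₀ h2 (norm_nonneg _) two_ne_zero
  refine ⟨by linarith, ?_⟩
  rw [e1, e3, mul_zero]
  linarith

theorem dom_thin (hM : Mem_stmt) {e k1 l1 : ℝ} (h : ParOK e k1 l1) (x : E3)
    (hx : x ∈ Omega e k1 l1) : ‖x 1‖ ^ 2 + ‖x 2‖ ^ 2 ≤ (2 * e) ^ 2 := by
  obtain ⟨h0, h2, h1⟩ := (hM e k1 l1 h x).1 hx
  have he := h.he
  have he2 : 0 < e ^ 2 := by positivity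
  obtain ⟨t, ht⟩ : ∃ t, t = ‖x 0‖ ^ 2 := ⟨_, rfl⟩
  rw [← ht] at h0 h2 h1
  have ht0 : 0 ≤ t := by rw [ht]; positivity
  have hdl1 : dl k1 l1 t ≤ 1 := by
    unfold dl
    linarith [dom_om_nonneg k1 l1 t]
  have hdl0 : 0 < dl k1 l1 t := by
    have h3 : 0 < e ^ 2 * dl k1 l1 t := lt_of_le_of_lt (by positivity) h2
    exact (mul_pos_iff_of_pos_left he2).1 h3
  obtain ⟨s, hs⟩ : ∃ s, s = ‖x 2‖ / (e * Real.sqrt (dl k1 l1 t)) := ⟨_, rfl⟩
  rw [← hs] at h1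
  have hs2 : s ^ 2 < 1 := by
    rw [hs, div_pow, mul_pow, Real.sq_sqrt hdl0.le, div_lt_one (by positivity)]
    exact h2
  have hLm : 0 ≤ Lm k1 l1 t := by
    unfold Lm
    have := Real.log_nonpos hdl0.le hdl1
    linarith
  have htau : 0 ≤ tau s := by
    unfold tau
    have := Real.log_nonpos (x := 1 - s ^ 2) (by linarith) (by linarith [sq_nonneg s])
    linarith
  have hel : 100 ≤ el k1 l1 t s := by
    unfold el
    linarith
  have hXX : XX k1 l1 t s ≤ 2 / 100 := by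
    unfold XX
    rw [div_le_iff₀ (by linarith)]
    linarith
  have h3 : e ^ 2 * (1 + XX k1 l1 t s) ≤ e ^ 2 * 2 :=
    mul_le_mul_of_nonneg_left (by linarith) he2.le
  have h4 : e ^ 2 * dl k1 l1 t ≤ e ^ 2 * 1 := mul_le_mul_of_nonneg_left hdl1 he2.le
  nlinarith

theorem dom_bdd (hM : Mem_stmt) {e k1 l1 : ℝ} (h : ParOK e k1 l1) :
    Bornology.IsBounded (Omega e k1 l1) := by
  refine (Metric.isBounded_closedBall (x := (0 : E3)) (r := 2)).subset ?_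
  intro x hx
  have h1 := dom_thin hM h x hx
  have h0 : ‖x 0‖ ^ 2 < 2 := hx.1
  have he := h.he
  have he1 := h.he1
  have h2 : (2 * e) ^ 2 ≤ 4 := by nlinarith
  rw [mem_closedBall_zero_iff, pi_norm_le_iff_of_nonneg (by norm_num)]
  intro i
  refine abs_le_of_sq_le_sq' ?_ (by norm_num) |>.2
  have e0 := sq_nonneg ‖x 1‖
  have e2 := sq_nonneg ‖x 2‖
  fin_cases i
  · change ‖x 0‖ ^ 2 ≤ 2 ^ 2
    linarith
  · change ‖x 1‖ ^ 2 ≤ 2 ^ 2
    linarith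
  · change ‖x 2‖ ^ 2 ≤ 2 ^ 2
    linarith

theorem dom_rot (e k1 l1 θ₁ θ₂ : ℝ) (x : E3) :
    rot θ₁ θ₂ x ∈ Omega e k1 l1 ↔ x ∈ Omega e k1 l1 := by
  have h0 : ‖rot θ₁ θ₂ x 0‖ = ‖x 0‖ := rfl
  have h1 : ‖rot θ₁ θ₂ x 1‖ = ‖x 1‖ := by
    change ‖Complex.exp (θ₁ * I) * x 1‖ = ‖x 1‖
    rw [norm_mul, Complex.norm_exp_ofReal_mul_I, one_mul]
  have h2 : ‖rot θ₁ θ₂ x 2‖ = ‖x 2‖ := by
    change ‖Complex.exp (θ₂ * I) * x 2‖ = ‖x 2‖
    rw [norm_mul, Complex.norm_exp_ofReal_mul_I, one_mul]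
  unfold Omega
  rw [Set.mem_ofPred_eq, Set.mem_ofPred_eq, h0, h1, h2]

theorem dom (hM : Mem_stmt) : Dom_stmt := by
  intro e k1 l1 h
  have he := h.he
  refine ⟨dom_open, ?_, dom_bdd hM h, fun θ₁ θ₂ x => dom_rot e k1 l1 θ₁ θ₂ x,
    fun x hx => dom_thin hM h x hx, fun x h0 h1 h2 => dom_last h x h0 h1 h2⟩
  exact dom_last h 0 (by simp) (by simpa using he) (by simpa using he)

end DbarN.JD2
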