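import Pool.Agent.H314.DN.Stmts4
import Pool.Agent.H314.DN.A0
import Pool.Agent.H314.DN.A1

set_option autoImplicit false

open MeasureTheory Complex Filter Topology
open scoped ContDiff InnerProductSpace ENNReal ComplexConjugate

namespace DbarN.JD3

theorem eng_convex : ConvexOn ℝ (Set.Iic (1 / 2 : ℝ)) expNegInvGlue := by
  have h1 : ∀ x : ℝ, HasDerivAt expNegInvGlue (x⁻¹ ^ 2 * expNegInvGlue x) x := by
    intro x
    have := expNegInvGlue.hasDerivAt_polynomial_eval_inv_mul 1 x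
    simpa using this
  have h2 : ∀ x : ℝ, HasDerivAt (fun x => x⁻¹ ^ 2 * expNegInvGlue x)
      ((x⁻¹ ^ 2 * (x⁻¹ ^ 2 - 2 * x⁻¹)) * expNegInvGlue x) x := by
    intro x
    have := expNegInvGlue.hasDerivAt_polynomial_eval_inv_mul (Polynomial.X ^ 2) x
    simpa [Polynomial.derivative_X_pow, one_add_one_eq_two] using this
  refine convexOn_of_hasDerivWithinAt2_nonneg (convex_Iic _)
    (f' := fun x => x⁻¹ ^ 2 * expNegInvGlue x)
    (f'' := fun x => (x⁻¹ ^ 2 * (x⁻¹ ^ 2 - 2 * x⁻¹)) * expNegInvGlue x)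
    (fun x _ => (h1 x).continuousAt.continuousWithinAt) (fun x _ => (h1 x).hasDerivWithinAt)
    (fun x _ => (h2 x).hasDerivWithinAt) ?_
  intro x hx
  rw [interior_Iic] at hx
  have hx' : x < 1 / 2 := hx
  by_cases h0 : x ≤ 0
  · rw [expNegInvGlue.zero_of_nonpos h0, mul_zero]
  · push Not at h0
    refine mul_nonneg (mul_nonneg (sq_nonneg _) ?_) (expNegInvGlue.nonneg x)
    have h3 : 2 ≤ x⁻¹ := by
      rw [le_inv_comm₀ (by norm_num) h0]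
      linarith
    nlinarith

theorem om_mono (k1 l1 : ℝ) (hk : 0 < k1) : Monotone (om k1 l1) := by
  intro x y hxy
  unfold om
  refine mul_le_mul_of_nonneg_left (expNegInvGlue.monotone ?_) (Real.exp_pos _).le
  gcongr

theorem om_conv (e k1 l1 : ℝ) (hp : ParOK e k1 l1) {x y a b : ℝ} (hx : x < tB k1 l1)
    (hy : y < tB k1 l1) (ha : 0 ≤ a) (hb : 0 ≤ b) (hab : a + b = 1) :
    om k1 l1 (a * x + b * y) ≤ a * om k1 l1 x + b * om k1 l1 y := by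
  have hk := hp.hk
  have hl := hp.hl
  have hmem : ∀ t, t < tB k1 l1 → (t - 1) / k1 ∈ Set.Iic (1 / 2 : ℝ) := by
    intro t ht
    unfold tB at ht
    rw [Set.mem_Iic, div_le_iff₀ hk]
    have : k1 / l1 ≤ k1 * (1 / 2) := by
      rw [div_le_iff₀ (by linarith)]
      nlinarith
    linarith
  have := eng_convex.2 (hmem x hx) (hmem y hy) ha hb hab
  simp only [smul_eq_mul] at this
  have e1 : a * ((x - 1) / k1) + b * ((y - 1) / k1) = (a * x + b * y - 1) / k1 := by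
    field_simp
    linear_combination (-1 : ℝ) * hab
  rw [e1] at this
  unfold om
  have h2 := mul_le_mul_of_nonneg_left this (Real.exp_pos l1).le
  linarith

theorem h4_concave : ConcaveOn ℝ (Set.Ioc (0 : ℝ) 1)
    (fun S => ((100 - Real.log S)⁻¹) ^ 4) := by
  have hder : ∀ x ∈ Set.Ioc (0 : ℝ) 1, HasDerivAt (fun S : ℝ => (100 - Real.log S)⁻¹)
      (((100 - Real.log x)⁻¹) ^ 2 * x⁻¹) x := by
    intro x hx
    have h0 : 100 - Real.log x ≠ 0 := by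
      have := Real.log_nonpos hx.1.le hx.2
      linarith
    have h1 := ((Real.hasDerivAt_log hx.1.ne').const_sub 100).fun_inv h0
    refine h1.congr_deriv ?_
    rw [neg_neg, div_eq_mul_inv, inv_pow]
    ring
  refine concaveOn_of_hasDerivWithinAt2_nonpos (convex_Ioc _ _)
    (f' := fun x => 4 * ((100 - Real.log x)⁻¹) ^ 5 * x⁻¹)
    (f'' := fun x => 4 * ((100 - Real.log x)⁻¹) ^ 5 * (5 * (100 - Real.log x)⁻¹ - 1) *
      (x⁻¹) ^ 2) ?_ ?_ ?_ ?_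
  · intro x hx
    exact ((hder x hx).pow 4).continuousAt.continuousWithinAt
  · intro x hx
    rw [interior_Ioc] at hx
    have h1 := (hder x ⟨hx.1, hx.2.le⟩).fun_pow 4
    refine (h1.congr_deriv ?_).hasDerivWithinAt
    generalize (100 - Real.log x)⁻¹ = m
    push_cast
    ring
  · intro x hx
    rw [interior_Ioc] at hx
    have h1 := ((hder x ⟨hx.1, hx.2.le⟩).fun_pow 5).const_mul 4
    have h2 := h1.fun_mul (hasDerivAt_inv hx.1.ne')
    refine (h2.congr_deriv ?_).hasDerivWithinAt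
    rw [← inv_pow]
    generalize (100 - Real.log x)⁻¹ = m
    push_cast
    ring
  · intro x hx
    rw [interior_Ioc] at hx
    have h0 := Real.log_nonpos hx.1.le hx.2.le
    have h1 : (100 - Real.log x)⁻¹ ≤ 1 / 100 := by
      rw [inv_le_comm₀ (by linarith) (by norm_num)]
      linarith
    have h2 : 0 ≤ (100 - Real.log x)⁻¹ := inv_nonneg.mpr (by linarith)
    refine mul_nonpos_of_nonpos_of_nonneg ?_ (sq_nonneg _)
    exact mul_nonpos_of_nonneg_of_nonpos (by positivity) (by linarith)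

theorem hm_mono {S S' : ℝ} (h0 : 0 < S) (h : S ≤ S') (h1 : S' ≤ 1) :
    (100 - Real.log S)⁻¹ ≤ (100 - Real.log S')⁻¹ := by
  have h2 := Real.log_le_log h0 h
  have h3 := Real.log_nonpos (h0.trans_le h).le h1
  exact inv_anti₀ (by linarith) (by linarith)

/-- the elementary inequality -/
theorem key_xy {x y : ℝ} (hx : 49 / 100 ≤ x) (hy : 0 ≤ y) :
    x * y ≤ 3 / 4 + (x - 1) + 24 / 100 * (x - 1) ^ 2 + y ^ 4 / 4 := by
  by_cases h : y < 1 / 2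
  · nlinarith [mul_nonneg (sub_nonneg.mpr hx) (show (0 : ℝ) ≤ 24 / 100 * (x - 1 - 51 / 100) + (1 - y) by linarith), sq_nonneg (y ^ 2)]
  · push Not at h
    have h1 : 0 ≤ (y - 1) ^ 2 * (24 / 100 * (y ^ 2 + 2 * y + 3) - 1) :=
      mul_nonneg (sq_nonneg _) (by nlinarith)
    nlinarith [sq_nonneg (2 * (24 / 100) * (x - 1) - (y - 1))]

/-- the product inequality -/
theorem key_prod {a b c0 c1 m0 m1 D C m : ℝ} (ha : 0 ≤ a) (hb : 0 ≤ b) (hab : a + b = 1)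
    (h0 : 9999 / 10000 ≤ c0) (h0' : c0 ≤ 2) (h1 : 9999 / 10000 ≤ c1) (h1' : c1 ≤ 2)
    (hC : C = a * c0 + b * c1 + a * b * D) (hD : (c0 - c1) ^ 2 ≤ 40004 / 10000 * D)
    (hC2 : C ≤ 2)
    (hm0 : 0 ≤ m0) (hm1 : 0 ≤ m1) (hm : 0 < m)
    (h4 : a * m0 ^ 4 + b * m1 ^ 4 ≤ m ^ 4) :
    a * (c0 * m0) + b * (c1 * m1) ≤ C * m := by
  have hD0 : 0 ≤ D := by nlinarith [sq_nonneg (c0 - c1)]
  have hab0 : 0 ≤ a * b := mul_nonneg ha hb
  have hcb : 9999 / 10000 ≤ a * c0 + b * c1 := by nlinarith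
  have hC0 : 9999 / 10000 ≤ C := by nlinarith [mul_nonneg hab0 hD0]
  have hCp : 0 < C := by linarith
  have k0 := key_xy (x := c0 / C) (y := m0 / m) (by
    rw [le_div_iff₀ hCp]; nlinarith) (by positivity)
  have k1 := key_xy (x := c1 / C) (y := m1 / m) (by
    rw [le_div_iff₀ hCp]; nlinarith) (by positivity)
  have hCm : 0 < C * m := by positivity
  have e0 : c0 * m0 = C * m * (c0 / C * (m0 / m)) := by field_simp
  have e1 : c1 * m1 = C * m * (c1 / C * (m1 / m)) := by field_simp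
  rw [e0, e1]
  suffices h : a * (c0 / C * (m0 / m)) + b * (c1 / C * (m1 / m)) ≤ 1 by
    nlinarith
  have hm4 : a * (m0 / m) ^ 4 + b * (m1 / m) ^ 4 ≤ 1 := by
    rw [div_pow, div_pow, mul_div_assoc', mul_div_assoc', ← add_div, div_le_one (by positivity)]
    exact h4
  have hx : a * (c0 / C - 1) + b * (c1 / C - 1) +
      24 / 100 * (a * (c0 / C - 1) ^ 2 + b * (c1 / C - 1) ^ 2) ≤ 0 := by
    have e2 : a * (c0 / C - 1) + b * (c1 / C - 1) +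
        24 / 100 * (a * (c0 / C - 1) ^ 2 + b * (c1 / C - 1) ^ 2) =
        ((a * (c0 - C) + b * (c1 - C)) * C +
          24 / 100 * (a * (c0 - C) ^ 2 + b * (c1 - C) ^ 2)) / C ^ 2 := by
      field_simp
    rw [e2]
    refine div_nonpos_of_nonpos_of_nonneg ?_ (sq_nonneg _)
    have hb' : b = 1 - a := by linarith
    have e3 : a * (c0 - C) + b * (c1 - C) = -(a * b * D) := by
      rw [hC, hb']; ring
    have e4 : a * (c0 - C) ^ 2 + b * (c1 - C) ^ 2 =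
        a * b * (c0 - c1) ^ 2 + (a * b * D) ^ 2 := by
      rw [hC, hb']; ring
    rw [e3, e4]
    have q1 : a * b * (c0 - c1) ^ 2 ≤ a * b * (40004 / 10000 * D) :=
      mul_le_mul_of_nonneg_left hD hab0
    have hP : 0 ≤ a * b * D := mul_nonneg hab0 hD0
    have q2 : a * b * D ≤ C - 9999 / 10000 := by
      rw [hC]; linarith
    have q3 : (a * b * D) ^ 2 ≤ a * b * D * (C - 9999 / 10000) := by
      rw [sq]
      exact mul_le_mul_of_nonneg_left q2 hP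
    nlinarith [mul_nonneg hP (sub_nonneg.mpr hC0)]
  nlinarith [mul_le_mul_of_nonneg_left k0 ha, mul_le_mul_of_nonneg_left k1 hb]

theorem nsq_conv (a b : ℝ) (hab : a + b = 1) (z w : ℂ) :
    ‖(a : ℂ) * z + (b : ℂ) * w‖ ^ 2 = a * ‖z‖ ^ 2 + b * ‖w‖ ^ 2 - a * b * ‖z - w‖ ^ 2 := by
  have hb' : b = 1 - a := by linarith
  subst hb'
  simp only [Complex.sq_norm, Complex.normSq_apply, Complex.add_re, Complex.add_im,
    Complex.mul_re, Complex.mul_im, Complex.ofReal_re, Complex.ofReal_im, Complex.sub_re,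
    Complex.sub_im]
  ring

/-- membership -/
theorem mem_om (hM : Mem_stmt) (e k1 l1 : ℝ) (hp : ParOK e k1 l1) (x : E3) :
    x ∈ Omega e k1 l1 ↔ ‖x 0‖ ^ 2 < tB k1 l1 ∧ 0 < dl k1 l1 (‖x 0‖ ^ 2) - ‖x 2‖ ^ 2 / e ^ 2 ∧
      ‖x 1‖ ^ 2 < e ^ 2 * (1 + (2 - ‖x 0‖ ^ 2) *
        (100 - Real.log (dl k1 l1 (‖x 0‖ ^ 2) - ‖x 2‖ ^ 2 / e ^ 2))⁻¹) := by
  rw [hM e k1 l1 hp x]
  have he := hp.he
  have he2 : 0 < e ^ 2 := by positivity
  refine and_congr_right fun _ => ?_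
  have hiff : ‖x 2‖ ^ 2 < e ^ 2 * dl k1 l1 (‖x 0‖ ^ 2) ↔
      0 < dl k1 l1 (‖x 0‖ ^ 2) - ‖x 2‖ ^ 2 / e ^ 2 := by
    rw [sub_pos, div_lt_iff₀ he2, mul_comm]
  rw [hiff]
  refine and_congr_right fun hS => ?_
  have hdl : 0 < dl k1 l1 (‖x 0‖ ^ 2) := by
    have : 0 ≤ ‖x 2‖ ^ 2 / e ^ 2 := by positivity
    linarith
  have hs : (‖x 2‖ / (e * Real.sqrt (dl k1 l1 (‖x 0‖ ^ 2)))) ^ 2 =
      ‖x 2‖ ^ 2 / e ^ 2 / dl k1 l1 (‖x 0‖ ^ 2) := by
    rw [div_pow, mul_pow, Real.sq_sqrt hdl.le, div_div]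
  have e1 : XX k1 l1 (‖x 0‖ ^ 2) (‖x 2‖ / (e * Real.sqrt (dl k1 l1 (‖x 0‖ ^ 2)))) =
      (2 - ‖x 0‖ ^ 2) *
        (100 - Real.log (dl k1 l1 (‖x 0‖ ^ 2) - ‖x 2‖ ^ 2 / e ^ 2))⁻¹ := by
    unfold XX
    rw [div_eq_mul_inv]
    congr 2
    unfold el Lm tau
    rw [hs]
    have e2 : 1 - ‖x 2‖ ^ 2 / e ^ 2 / dl k1 l1 (‖x 0‖ ^ 2) =
        (dl k1 l1 (‖x 0‖ ^ 2) - ‖x 2‖ ^ 2 / e ^ 2) / dl k1 l1 (‖x 0‖ ^ 2) := by
      rw [sub_div, div_self hdl.ne']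
    rw [e2, Real.log_div hS.ne' hdl.ne']
    ring
  rw [e1]

theorem sum_sq_le {p q : ℝ} (h1 : p ^ 2 ≤ 10001 / 10000) (h2 : q ^ 2 ≤ 10001 / 10000) :
    (p + q) ^ 2 ≤ 40004 / 10000 := by
  nlinarith [sq_nonneg (p - q)]

theorem combo_lt {a b x y x' y' : ℝ} (ha : 0 ≤ a) (hb : 0 ≤ b) (hab : a + b = 1) (hx : x < x')
    (hy : y < y') : a * x + b * y < a * x' + b * y' := by
  rcases ha.eq_or_lt with h | h
  · have : b = 1 := by linarith
    rw [← h, this]; linarith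
  · nlinarith [mul_le_mul_of_nonneg_left hy.le hb, mul_lt_mul_of_pos_left hx h]

theorem omega_convex (hM : Mem_stmt) (e k1 l1 : ℝ) (hp : ParOK e k1 l1) :
    Convex ℝ (Omega e k1 l1) := by
  intro x hx y hy a b ha hb hab
  rw [mem_om hM e k1 l1 hp] at hx hy ⊢
  obtain ⟨hx1, hx2, hx3⟩ := hx
  obtain ⟨hy1, hy2, hy3⟩ := hy
  have he := hp.he
  have he2 : 0 < e ^ 2 := by positivity
  have hk := hp.hk
  have hk1 := hp.hk1
  have hl := hp.hl
  have hcoord : ∀ i, (a • x + b • y) i = (a : ℂ) * x i + (b : ℂ) * y i := by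
    intro i
    simp [Pi.add_apply, Pi.smul_apply]
  rw [hcoord 0, hcoord 1, hcoord 2, nsq_conv a b hab (x 0) (y 0), nsq_conv a b hab (x 1) (y 1),
    nsq_conv a b hab (x 2) (y 2)]
  set t0 := ‖x 0‖ ^ 2 with ht0
  set t1 := ‖y 0‖ ^ 2 with ht1
  set D := ‖x 0 - y 0‖ ^ 2 with hD
  have hab0 : 0 ≤ a * b := mul_nonneg ha hb
  have hD0 : 0 ≤ D := by positivity
  have hDw : 0 ≤ ‖x 2 - y 2‖ ^ 2 := by positivity
  have hDu : 0 ≤ ‖x 1 - y 1‖ ^ 2 := by positivity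
  have ht0' : 0 ≤ t0 := by positivity
  have ht1' : 0 ≤ t1 := by positivity
  have hlt : a * t0 + b * t1 < tB k1 l1 := by
    have := combo_lt ha hb hab hx1 hy1
    rwa [← add_mul, hab, one_mul] at this
  have hle : a * t0 + b * t1 - a * b * D ≤ a * t0 + b * t1 :=
    sub_le_self _ (mul_nonneg hab0 hD0)
  have htB : tB k1 l1 ≤ 1 + 1 / 10000 := by
    unfold tB
    have : k1 / l1 ≤ 1 / 10000 := by
      rw [div_le_iff₀ (by linarith)]
      linarith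
    linarith
  have hom : om k1 l1 (a * t0 + b * t1 - a * b * D) ≤ a * om k1 l1 t0 + b * om k1 l1 t1 :=
    (om_mono k1 l1 hk hle).trans (om_conv e k1 l1 hp hx1 hy1 ha hb hab)
  have hom0 : ∀ t, 0 ≤ om k1 l1 t := fun t =>
    mul_nonneg (Real.exp_pos _).le (expNegInvGlue.nonneg _)
  set S0 := dl k1 l1 t0 - ‖x 2‖ ^ 2 / e ^ 2 with hS0
  set S1 := dl k1 l1 t1 - ‖y 2‖ ^ 2 / e ^ 2 with hS1
  set S := dl k1 l1 (a * t0 + b * t1 - a * b * D) -
    (a * ‖x 2‖ ^ 2 + b * ‖y 2‖ ^ 2 - a * b * ‖x 2 - y 2‖ ^ 2) / e ^ 2 with hS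
  have hSle : ∀ t r : ℝ, 0 ≤ r → dl k1 l1 t - r / e ^ 2 ≤ 1 := by
    intro t r hr
    unfold dl
    have h1 := hom0 t
    have h2 : 0 ≤ r / e ^ 2 := by positivity
    linarith
  have hSge : a * S0 + b * S1 ≤ S := by
    rw [hS0, hS1, hS]
    unfold dl
    have h2 : 0 ≤ a * b * ‖x 2 - y 2‖ ^ 2 / e ^ 2 := by positivity
    have h3 : (a * ‖x 2‖ ^ 2 + b * ‖y 2‖ ^ 2 - a * b * ‖x 2 - y 2‖ ^ 2) / e ^ 2 =
        a * (‖x 2‖ ^ 2 / e ^ 2) + b * (‖y 2‖ ^ 2 / e ^ 2) -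
          a * b * ‖x 2 - y 2‖ ^ 2 / e ^ 2 := by ring
    rw [h3]
    have h4 : a * (1 - om k1 l1 t0 - ‖x 2‖ ^ 2 / e ^ 2) + b * (1 - om k1 l1 t1 - ‖y 2‖ ^ 2 / e ^ 2)
        = (a + b) - (a * om k1 l1 t0 + b * om k1 l1 t1) -
          (a * (‖x 2‖ ^ 2 / e ^ 2) + b * (‖y 2‖ ^ 2 / e ^ 2)) := by ring
    rw [h4, hab]
    linarith
  have hSb : 0 < a * S0 + b * S1 := by
    have := combo_lt ha hb hab hx2 hy2
    rwa [mul_zero, mul_zero, add_zero] at this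
  have hS0le : S0 ≤ 1 := hSle _ _ (by positivity)
  have hS1le : S1 ≤ 1 := hSle _ _ (by positivity)
  have hSle1 : S ≤ 1 := by
    refine hSle _ _ ?_
    rw [← nsq_conv a b hab (x 2) (y 2)]
    positivity
  have hSp : 0 < S := hSb.trans_le hSge
  refine ⟨hle.trans_lt hlt, hSp, ?_⟩
  have hmpos : ∀ T : ℝ, 0 < T → T ≤ 1 → 0 < (100 - Real.log T)⁻¹ := by
    intro T h1 h2
    have := Real.log_nonpos h1.le h2
    exact inv_pos.mpr (by linarith)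
  have h4 : a * ((100 - Real.log S0)⁻¹) ^ 4 + b * ((100 - Real.log S1)⁻¹) ^ 4 ≤
      ((100 - Real.log S)⁻¹) ^ 4 := by
    have h5 := h4_concave.2 (x := S0) ⟨hx2, hS0le⟩ (y := S1) ⟨hy2, hS1le⟩ ha hb hab
    simp only [smul_eq_mul] at h5
    refine h5.trans (pow_le_pow_left₀ ?_ (hm_mono hSb hSge hSle1) 4)
    exact (hmpos _ hSb (hSge.trans hSle1)).le
  have hDD : ((2 - t0) - (2 - t1)) ^ 2 ≤ 40004 / 10000 * D := by
    have r1 : |‖x 0‖ - ‖y 0‖| ≤ ‖x 0 - y 0‖ := abs_norm_sub_norm_le _ _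
    have r2 : (‖x 0‖ - ‖y 0‖) ^ 2 ≤ D := by
      rw [hD, ← sq_abs (‖x 0‖ - ‖y 0‖)]
      exact pow_le_pow_left₀ (abs_nonneg _) r1 2
    have r3 : (‖x 0‖ + ‖y 0‖) ^ 2 ≤ 40004 / 10000 :=
      sum_sq_le (by linarith) (by linarith)
    have r4 : ((2 - t0) - (2 - t1)) ^ 2 = (‖x 0‖ + ‖y 0‖) ^ 2 * (‖x 0‖ - ‖y 0‖) ^ 2 := by
      rw [ht0, ht1]; ring
    rw [r4]
    exact mul_le_mul r3 r2 (sq_nonneg _) (by norm_num)
  have hfin := key_prod (c0 := 2 - t0) (c1 := 2 - t1) (D := D)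
    (C := 2 - (a * t0 + b * t1 - a * b * D)) ha hb hab (by linarith) (by linarith) (by linarith)
    (by linarith) (by
      have hb' : b = 1 - a := by linarith
      rw [hb']; ring) hDD (by
      have : 0 ≤ a * t0 + b * t1 - a * b * D := by
        rw [ht0, ht1, hD, ← nsq_conv a b hab (x 0) (y 0)]
        positivity
      linarith)
    (hmpos S0 hx2 hS0le).le (hmpos S1 hy2 hS1le).le (hmpos S hSp hSle1) h4
  have hu : a * ‖x 1‖ ^ 2 + b * ‖y 1‖ ^ 2 - a * b * ‖x 1 - y 1‖ ^ 2 ≤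
      a * ‖x 1‖ ^ 2 + b * ‖y 1‖ ^ 2 := sub_le_self _ (mul_nonneg hab0 hDu)
  refine hu.trans_lt ?_
  have hstrict : a * ‖x 1‖ ^ 2 + b * ‖y 1‖ ^ 2 <
      a * (e ^ 2 * (1 + (2 - t0) * (100 - Real.log S0)⁻¹)) +
      b * (e ^ 2 * (1 + (2 - t1) * (100 - Real.log S1)⁻¹)) :=
    combo_lt ha hb hab hx3 hy3
  refine hstrict.trans_le ?_
  have : a * (e ^ 2 * (1 + (2 - t0) * (100 - Real.log S0)⁻¹)) +
      b * (e ^ 2 * (1 + (2 - t1) * (100 - Real.log S1)⁻¹)) =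
      e ^ 2 * ((a + b) + (a * ((2 - t0) * (100 - Real.log S0)⁻¹) +
        b * ((2 - t1) * (100 - Real.log S1)⁻¹))) := by ring
  rw [this, hab]
  exact mul_le_mul_of_nonneg_left (by linarith) he2.le

end DbarN.JD3
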