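import Pool.Agent.H314.DN.Stmts4
import Pool.Agent.H314.DN.A0
import Pool.Agent.H314.DN.A1

set_option autoImplicit false

open MeasureTheory Complex Filter Topology
open scoped ContDiff InnerProductSpace ENNReal ComplexConjugate

namespace DbarN.JD4

theorem omega_smooth_eng_deriv (x : ℝ) :
    HasDerivAt expNegInvGlue ((x⁻¹) ^ 2 * expNegInvGlue x) x := by
  have h := expNegInvGlue.hasDerivAt_polynomial_eval_inv_mul (1 : Polynomial ℝ) x
  simpa using h

theorem omega_smooth (hM : Mem_stmt) (hD : Dom_stmt) (e k1 l1 : ℝ) (hp : ParOK e k1 l1) :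
    SmoothBoundary (Omega e k1 l1) := by
  obtain ⟨hOpen, -, -, -, -, -⟩ := hD e k1 l1 hp
  have he := hp.he
  have hk := hp.hk
  have hk1 := hp.hk1
  have hl := hp.hl
  obtain ⟨ρ, hρ⟩ : ∃ ρ : E3 → ℝ, ρ = fun x => om k1 l1 (‖x 0‖ ^ 2) + Real.exp 100 *
      expNegInvGlue ((‖x 1‖ ^ 2 / e ^ 2 - 1) / (2 - ‖x 0‖ ^ 2)) + ‖x 2‖ ^ 2 / e ^ 2 - 1 := ⟨_, rfl⟩
  obtain ⟨U, hU⟩ : ∃ U : Set E3, U = {x : E3 | ‖x 0‖ ^ 2 < 2} := ⟨_, rfl⟩
  have hUo : IsOpen U := by
    rw [hU]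
    exact isOpen_lt (by fun_prop) continuous_const
  have hns : ∀ i : Fin 3, ContDiff ℝ ∞ (fun x : E3 => ‖x i‖ ^ 2) := fun i =>
    (contDiff_norm_sq ℝ).comp (contDiff_apply ℝ ℂ i)
  have hρs : ContDiffOn ℝ ∞ ρ U := by
    rw [hρ]
    have h1 : ContDiffOn ℝ ∞ (fun x : E3 => om k1 l1 (‖x 0‖ ^ 2)) U := by
      unfold om
      refine ContDiff.contDiffOn ?_
      exact contDiff_const.mul (expNegInvGlue.contDiff.comp
        (((hns 0).sub contDiff_const).div_const _))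
    have h2 : ContDiffOn ℝ ∞ (fun x : E3 => Real.exp 100 *
        expNegInvGlue ((‖x 1‖ ^ 2 / e ^ 2 - 1) / (2 - ‖x 0‖ ^ 2))) U := by
      refine contDiffOn_const.mul (expNegInvGlue.contDiff.comp_contDiffOn ?_)
      refine ContDiffOn.div (((hns 1).div_const _).sub contDiff_const).contDiffOn
        (contDiff_const.sub (hns 0)).contDiffOn ?_
      intro x hx
      rw [hU] at hx
      have hx' : ‖x 0‖ ^ 2 < 2 := hx
      exact (sub_pos.2 hx').ne'
    have h3 : ContDiffOn ℝ ∞ (fun x : E3 => ‖x 2‖ ^ 2 / e ^ 2) U :=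
      ((hns 2).div_const _).contDiffOn
    exact ((h1.add h2).add h3).sub contDiffOn_const
  have hmem : ∀ x ∈ U, x ∈ Omega e k1 l1 ↔ ρ x < 0 := by
    intro x hx
    rw [hU] at hx
    have hx' : ‖x 0‖ ^ 2 < 2 := hx
    rw [hρ]
    constructor
    · rintro ⟨-, h⟩
      simp only
      linarith
    · intro h
      simp only at h
      exact ⟨hx', by linarith⟩
  intro p hpf
  have hpc : p ∈ closure (Omega e k1 l1) := frontier_subset_closure hpf
  have htB : tB k1 l1 < 2 := by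
    unfold tB
    have hl0 : 0 < l1 := by linarith
    have : k1 / l1 < 1 := by
      rw [div_lt_one hl0]
      linarith
    linarith
  have hp0 : ‖p 0‖ ^ 2 ≤ tB k1 l1 := by
    have h1 : closure (Omega e k1 l1) ⊆ {x : E3 | ‖x 0‖ ^ 2 ≤ tB k1 l1} :=
      closure_minimal (fun x hx => ((hM e k1 l1 hp x).1 hx).1.le)
        (isClosed_le (by fun_prop) continuous_const)
    exact h1 hpc
  have hp2 : ‖p 0‖ ^ 2 < 2 := lt_of_le_of_lt hp0 htB
  have hpU : p ∈ U := by
    rw [hU]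
    exact hp2
  have hcont : ContinuousAt ρ p := hρs.continuousOn.continuousAt (hUo.mem_nhds hpU)
  have hle : ρ p ≤ 0 := by
    by_contra hc
    push Not at hc
    have h1 : ∀ᶠ x in 𝓝 p, 0 < ρ x := hcont.eventually (lt_mem_nhds hc)
    have h2 : ∀ᶠ x in 𝓝 p, x ∈ U := hUo.mem_nhds hpU
    have h3 : ∃ᶠ x in 𝓝 p, x ∈ Omega e k1 l1 := mem_closure_iff_frequently.1 hpc
    obtain ⟨x, hx, hx1, hx2⟩ := (h3.and_eventually (h1.and h2)).exists
    have := (hmem x hx2).1 hx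
    linarith
  have hge : ¬ ρ p < 0 := by
    intro h
    have h1 : p ∈ Omega e k1 l1 := (hmem p hpU).2 h
    exact hpf.2 (by rwa [hOpen.interior_eq])
  have hρ0 : ρ p = 0 := le_antisymm hle (not_lt.1 hge)
  refine ⟨U, ρ, hUo, hpU, hρs, hρ0, ?_, hmem⟩
  -- radial derivative
  intro hfd
  obtain ⟨a, ha⟩ : ∃ a : ℝ, a = ‖p 0‖ ^ 2 := ⟨_, rfl⟩
  obtain ⟨b, hb⟩ : ∃ b : ℝ, b = ‖p 1‖ ^ 2 / e ^ 2 := ⟨_, rfl⟩
  obtain ⟨c, hc⟩ : ∃ c : ℝ, c = ‖p 2‖ ^ 2 / e ^ 2 := ⟨_, rfl⟩
  have ha0 : 0 ≤ a := by rw [ha]; positivity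
  have hb0 : 0 ≤ b := by rw [hb]; positivity
  have hc0 : 0 ≤ c := by rw [hc]; positivity
  have ha2 : a < 2 := by rw [ha]; exact hp2
  obtain ⟨u, hu⟩ : ∃ u : ℝ, u = (b - 1) / (2 - a) := ⟨_, rfl⟩
  obtain ⟨w, hw⟩ : ∃ w : ℝ, w = (a - 1) / k1 := ⟨_, rfl⟩
  have hrad : ∀ r : ℝ, ρ (r • p) = Real.exp l1 * expNegInvGlue ((r ^ 2 * a - 1) / k1) +
      Real.exp 100 * expNegInvGlue ((r ^ 2 * b - 1) / (2 - r ^ 2 * a)) + r ^ 2 * c - 1 := by
    intro r
    have hn : ∀ i : Fin 3, ‖(r • p) i‖ ^ 2 = r ^ 2 * ‖p i‖ ^ 2 := by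
      intro i
      rw [Pi.smul_apply, norm_smul, mul_pow, Real.norm_eq_abs, sq_abs]
    rw [hρ]
    simp only [om, hn]
    rw [ha, hb, hc]
    simp only [mul_div_assoc]
  have hd1 : HasDerivAt (fun r : ℝ => ρ (r • p)) ((fderiv ℝ ρ p) p) 1 := by
    have hdiff : DifferentiableAt ℝ ρ p :=
      (hρs.contDiffAt (hUo.mem_nhds hpU)).differentiableAt (by simp)
    have h1 : HasDerivAt (fun r : ℝ => r • p) p 1 := by
      have := (hasDerivAt_id (1 : ℝ)).smul_const p
      simpa using this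
    have h2 : HasFDerivAt ρ (fderiv ℝ ρ p) ((fun r : ℝ => r • p) 1) := by
      simp only [one_smul]
      exact hdiff.hasFDerivAt
    exact h2.comp_hasDerivAt 1 h1
  rw [hfd] at hd1
  have hd2 : HasDerivAt (fun r : ℝ => ρ (r • p))
      (Real.exp l1 * (((w⁻¹) ^ 2 * expNegInvGlue w) * (2 * a / k1)) +
        Real.exp 100 * (((u⁻¹) ^ 2 * expNegInvGlue u) * ((4 * b - 2 * a) / (2 - a) ^ 2)) +
        2 * c) 1 := by
    have e0 : (fun r : ℝ => ρ (r • p)) = fun r : ℝ => Real.exp l1 *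
      expNegInvGlue ((r ^ 2 * a - 1) / k1) +
      Real.exp 100 * expNegInvGlue ((r ^ 2 * b - 1) / (2 - r ^ 2 * a)) + r ^ 2 * c - 1 :=
      funext hrad
    rw [e0]
    have q : HasDerivAt (fun r : ℝ => r ^ 2) 2 1 := by
      have := hasDerivAt_pow 2 (1 : ℝ)
      simpa using this
    have i1 : HasDerivAt (fun r : ℝ => (r ^ 2 * a - 1) / k1) (2 * a / k1) 1 :=
      ((q.mul_const a).sub_const 1).div_const k1
    have i2 : HasDerivAt (fun r : ℝ => (r ^ 2 * b - 1) / (2 - r ^ 2 * a))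
        ((4 * b - 2 * a) / (2 - a) ^ 2) 1 := by
      have j1 : HasDerivAt (fun r : ℝ => r ^ 2 * b - 1) (2 * b) 1 := (q.mul_const b).sub_const 1
      have j2 : HasDerivAt (fun r : ℝ => 2 - r ^ 2 * a) (-(2 * a)) 1 :=
        (q.mul_const a).const_sub 2
      have hne : (2 : ℝ) - 1 ^ 2 * a ≠ 0 := by
        rw [one_pow, one_mul]
        exact (sub_pos.2 ha2).ne'
      have j3 := j1.div j2 hne
      have j4 : (2 * b * (2 - 1 ^ 2 * a) - (1 ^ 2 * b - 1) * -(2 * a)) / (2 - 1 ^ 2 * a) ^ 2 =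
          (4 * b - 2 * a) / (2 - a) ^ 2 := by
        rw [one_pow, one_mul, one_mul]
        ring
      rw [← j4]
      exact j3
    have g1 : HasDerivAt expNegInvGlue ((w⁻¹) ^ 2 * expNegInvGlue w)
        ((fun r : ℝ => (r ^ 2 * a - 1) / k1) 1) := by
      have : (fun r : ℝ => (r ^ 2 * a - 1) / k1) 1 = w := by
        simp only [one_pow, one_mul]
        exact hw.symm
      rw [this]
      exact omega_smooth_eng_deriv w
    have g2 : HasDerivAt expNegInvGlue ((u⁻¹) ^ 2 * expNegInvGlue u)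
        ((fun r : ℝ => (r ^ 2 * b - 1) / (2 - r ^ 2 * a)) 1) := by
      have : (fun r : ℝ => (r ^ 2 * b - 1) / (2 - r ^ 2 * a)) 1 = u := by
        simp only [one_pow, one_mul]
        exact hu.symm
      rw [this]
      exact omega_smooth_eng_deriv u
    exact ((((g1.comp 1 i1).const_mul (Real.exp l1)).add
      ((g2.comp 1 i2).const_mul (Real.exp 100))).add (q.mul_const c)).sub_const 1
  have heq := hd1.unique hd2
  have hz : (0 : E3 →L[ℝ] ℝ) p = 0 := rfl
  rw [hz] at heq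
  have hsum : Real.exp l1 * expNegInvGlue w + Real.exp 100 * expNegInvGlue u + c = 1 := by
    have h1 := hrad 1
    rw [one_smul, hρ0] at h1
    simp only [one_pow, one_mul] at h1
    rw [← hw, ← hu] at h1
    linarith
  have gw := expNegInvGlue.nonneg w
  have gu := expNegInvGlue.nonneg u
  have E1 := Real.exp_pos l1
  have E2 := Real.exp_pos (100 : ℝ)
  have T1 : 0 ≤ Real.exp l1 * (((w⁻¹) ^ 2 * expNegInvGlue w) * (2 * a / k1)) := by positivity
  have hbu : 0 < u → 1 < b := by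
    intro h
    rw [hu] at h
    have h2a : 0 < 2 - a := sub_pos.2 ha2
    have := (div_pos_iff_of_pos_right h2a).1 h
    linarith
  have T2 : 0 ≤ Real.exp 100 * (((u⁻¹) ^ 2 * expNegInvGlue u) *
      ((4 * b - 2 * a) / (2 - a) ^ 2)) := by
    rcases le_or_gt u 0 with h | h
    · rw [expNegInvGlue.zero_of_nonpos h]
      simp
    · have h1 := hbu h
      have h2 : 0 ≤ 4 * b - 2 * a := by linarith
      positivity
  have Z1 : Real.exp l1 * (((w⁻¹) ^ 2 * expNegInvGlue w) * (2 * a / k1)) = 0 := by linarith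
  have Z2 : Real.exp 100 * (((u⁻¹) ^ 2 * expNegInvGlue u) *
      ((4 * b - 2 * a) / (2 - a) ^ 2)) = 0 := by linarith
  have Z3 : c = 0 := by linarith
  have W1 : expNegInvGlue w = 0 := by
    by_contra hne
    have hwpos : 0 < w := by
      by_contra h
      exact hne (expNegInvGlue.zero_of_nonpos (not_lt.1 h))
    have ha1 : 0 < a := by
      rw [hw] at hwpos
      have := (div_pos_iff_of_pos_right hk).1 hwpos
      linarith
    have hgw : 0 < expNegInvGlue w := expNegInvGlue.pos_of_pos hwpos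
    have : 0 < Real.exp l1 * (((w⁻¹) ^ 2 * expNegInvGlue w) * (2 * a / k1)) := by positivity
    linarith
  have W2 : expNegInvGlue u = 0 := by
    by_contra hne
    have hupos : 0 < u := by
      by_contra h
      exact hne (expNegInvGlue.zero_of_nonpos (not_lt.1 h))
    have h1 := hbu hupos
    have h2 : 0 < 4 * b - 2 * a := by linarith
    have h2a : 0 < 2 - a := sub_pos.2 ha2
    have hgu : 0 < expNegInvGlue u := expNegInvGlue.pos_of_pos hupos
    have : 0 < Real.exp 100 * (((u⁻¹) ^ 2 * expNegInvGlue u) *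
      ((4 * b - 2 * a) / (2 - a) ^ 2)) := by positivity
    linarith
  rw [W1, W2, Z3] at hsum
  norm_num at hsum

end DbarN.JD4
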