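import Pool.Agent.H314.DN.Stmts4
import Pool.Agent.H314.DN.A0
import Pool.Agent.H314.DN.A1

set_option autoImplicit false

open MeasureTheory Complex Filter Topology
open scoped ContDiff InnerProductSpace ENNReal ComplexConjugate

namespace DbarN.JD5

namespace CvxPsc

theorem compl_nonempty' (Ω : Set E3) (hb : Bornology.IsBounded Ω) : (Ωᶜ).Nonempty := by
  rw [Set.nonempty_compl]
  intro h
  rw [h] at hb
  exact NormedSpace.unbounded_univ ℝ E3 hb

theorem mem_iff (Ω : Set E3) (ho : IsOpen Ω) (hb : Bornology.IsBounded Ω) (x : E3) :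
    x ∈ Ω ↔ 0 < Metric.infDist x Ωᶜ := by
  rw [← (ho.isClosed_compl).notMem_iff_infDist_pos (compl_nonempty' Ω hb), Set.notMem_compl_iff]

theorem mem_of_dist (Ω : Set E3) (x y : E3) (h : dist x y < Metric.infDist x Ωᶜ) : y ∈ Ω := by
  by_contra hy
  exact absurd (Metric.infDist_le_dist_of_mem (x := x) (s := Ωᶜ) hy) (not_le.2 h)

theorem mid_concave (Ω : Set E3) (ho : IsOpen Ω) (hc : Convex ℝ Ω)
    (hb : Bornology.IsBounded Ω) (x y m : E3) (hx : x ∈ Ω) (hy : y ∈ Ω)
    (hm : m = (1 / 2 : ℝ) • x + (1 / 2 : ℝ) • y) :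
    (Metric.infDist x Ωᶜ + Metric.infDist y Ωᶜ) / 2 ≤ Metric.infDist m Ωᶜ := by
  have hdx := (mem_iff Ω ho hb x).1 hx
  have hdy := (mem_iff Ω ho hb y).1 hy
  obtain ⟨dx, hdx'⟩ : ∃ r, r = Metric.infDist x Ωᶜ := ⟨_, rfl⟩
  obtain ⟨dy, hdy'⟩ : ∃ r, r = Metric.infDist y Ωᶜ := ⟨_, rfl⟩
  rw [← hdx', ← hdy']
  rw [← hdx'] at hdx
  rw [← hdy'] at hdy
  rw [Metric.le_infDist (compl_nonempty' Ω hb)]
  intro p hp
  by_contra hlt
  rw [not_le] at hlt
  have hs : 0 < dx + dy := by linarith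
  have hv : ‖p - m‖ < (dx + dy) / 2 := by
    rw [← dist_eq_norm, dist_comm]
    exact hlt
  have key : ∀ (z : E3) (dd : ℝ), 0 < dd → dd = Metric.infDist z Ωᶜ →
      z + (2 * dd / (dx + dy)) • (p - m) ∈ Ω := by
    intro z dd hdd he
    refine mem_of_dist Ω z _ ?_
    rw [← he, dist_eq_norm]
    have h1 : z - (z + (2 * dd / (dx + dy)) • (p - m)) = -((2 * dd / (dx + dy)) • (p - m)) := by
      abel
    rw [h1, norm_neg, norm_smul, Real.norm_of_nonneg (by positivity)]
    have h2 : 2 * dd / (dx + dy) * ‖p - m‖ < 2 * dd / (dx + dy) * ((dx + dy) / 2) :=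
      mul_lt_mul_of_pos_left hv (by positivity)
    have h3 : 2 * dd / (dx + dy) * ((dx + dy) / 2) = dd := by
      field_simp
    linarith
  have hx' := key x dx hdx hdx'
  have hy' := key y dy hdy hdy'
  have hconv := hc hx' hy' (a := (1 / 2 : ℝ)) (b := (1 / 2 : ℝ)) (by norm_num) (by norm_num)
    (by norm_num)
  have e : (1 / 2 : ℝ) • (x + (2 * dx / (dx + dy)) • (p - m)) +
      (1 / 2 : ℝ) • (y + (2 * dy / (dx + dy)) • (p - m)) = p := by
    have e1 : (1 / 2 : ℝ) • (x + (2 * dx / (dx + dy)) • (p - m)) +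
      (1 / 2 : ℝ) • (y + (2 * dy / (dx + dy)) • (p - m)) =
      ((1 / 2 : ℝ) • x + (1 / 2 : ℝ) • y) +
      ((1 / 2 : ℝ) * (2 * dx / (dx + dy)) + (1 / 2 : ℝ) * (2 * dy / (dx + dy))) • (p - m) := by
      rw [smul_add, smul_add, add_smul, smul_smul, smul_smul]
      abel
    have e2 : (1 / 2 : ℝ) * (2 * dx / (dx + dy)) + (1 / 2 : ℝ) * (2 * dy / (dx + dy)) = 1 := by
      field_simp
    rw [e1, e2, one_smul, ← hm]
    abel
  rw [e] at hconv
  exact hp hconv

theorem mid_inv (Ω : Set E3) (ho : IsOpen Ω) (hc : Convex ℝ Ω)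
    (hb : Bornology.IsBounded Ω) (x y m : E3) (hx : x ∈ Ω) (hy : y ∈ Ω)
    (hm : m = (1 / 2 : ℝ) • x + (1 / 2 : ℝ) • y) :
    (Metric.infDist m Ωᶜ)⁻¹ ≤ ((Metric.infDist x Ωᶜ)⁻¹ + (Metric.infDist y Ωᶜ)⁻¹) / 2 := by
  have hdx := (mem_iff Ω ho hb x).1 hx
  have hdy := (mem_iff Ω ho hb y).1 hy
  have h1 := mid_concave Ω ho hc hb x y m hx hy hm
  generalize Metric.infDist x Ωᶜ = dx at *
  generalize Metric.infDist y Ωᶜ = dy at *
  have h2 : 0 < (dx + dy) / 2 := by linarith
  refine (inv_anti₀ h2 h1).trans ?_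
  rw [inv_div]
  have h3 : (dx⁻¹ + dy⁻¹) / 2 = (dx + dy) / (2 * dx * dy) := by
    field_simp
    ring
  rw [h3, div_le_div_iff₀ (by linarith) (by positivity)]
  nlinarith [sq_nonneg (dx - dy)]

end CvxPsc

theorem convex_pseudoconvex (Ω : Set E3) (ho : IsOpen Ω) (hc : Convex ℝ Ω)
    (hb : Bornology.IsBounded Ω) (hn : Ω.Nonempty) : Pseudoconvex Ω := by
  have hd : Continuous (fun x : E3 => Metric.infDist x Ωᶜ) := Metric.continuous_infDist_pt _
  have hcont : ContinuousOn (fun x : E3 => (Metric.infDist x Ωᶜ)⁻¹) Ω := by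
    refine hd.continuousOn.inv₀ fun x hx => ?_
    exact ((CvxPsc.mem_iff Ω ho hb x).1 hx).ne'
  refine ⟨fun x => (Metric.infDist x Ωᶜ)⁻¹, hcont, ?_, ?_⟩
  · intro M
    rcases le_or_gt M 0 with hM | hM
    · have h1 : {x ∈ Ω | (Metric.infDist x Ωᶜ)⁻¹ ≤ M} = ∅ := by
        rw [Set.eq_empty_iff_forall_notMem]
        rintro x ⟨hx, hxM⟩
        have h2 := inv_pos.2 ((CvxPsc.mem_iff Ω ho hb x).1 hx)
        linarith
      rw [h1]
      exact isCompact_empty
    · have h1 : {x ∈ Ω | (Metric.infDist x Ωᶜ)⁻¹ ≤ M} = {x | M⁻¹ ≤ Metric.infDist x Ωᶜ} := by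
        ext x
        constructor
        · rintro ⟨hx, hxM⟩
          have h2 := (CvxPsc.mem_iff Ω ho hb x).1 hx
          exact (inv_le_comm₀ h2 hM).1 hxM
        · intro hx
          have hx' : M⁻¹ ≤ Metric.infDist x Ωᶜ := hx
          have h2 : 0 < Metric.infDist x Ωᶜ := lt_of_lt_of_le (inv_pos.2 hM) hx'
          exact ⟨(CvxPsc.mem_iff Ω ho hb x).2 h2, (inv_le_comm₀ h2 hM).2 hx'⟩
      rw [h1]
      refine Metric.isCompact_of_isClosed_isBounded (isClosed_le continuous_const hd) ?_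
      refine hb.subset ?_
      rw [← h1]
      exact fun x hx => hx.1
  · intro a b hab
    beta_reduce
    have hexp : ∀ θ : ℝ, ‖Complex.exp (θ * I)‖ = 1 := fun θ => Complex.norm_exp_ofReal_mul_I θ
    have hmem : ∀ θ : ℝ, a + Complex.exp (θ * I) • b ∈ Ω := fun θ => hab _ (hexp θ).le
    have ha : a ∈ Ω := by
      have h := hab 0 (by rw [norm_zero]; exact zero_le_one)
      rw [zero_smul, add_zero] at h
      exact h
    obtain ⟨g, hg⟩ : ∃ g : ℝ → ℝ,
        g = fun θ : ℝ => (Metric.infDist (a + Complex.exp (θ * I) • b) Ωᶜ)⁻¹ := ⟨_, rfl⟩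
    have hgc : Continuous g := by
      rw [hg]
      have hc1 : Continuous (fun θ : ℝ => a + Complex.exp (θ * I) • b) := by
        have hc2 : Continuous (fun θ : ℝ => Complex.exp (θ * I)) :=
          Complex.continuous_exp.comp (Complex.continuous_ofReal.mul continuous_const)
        exact continuous_const.add (hc2.smul (continuous_const (y := b)))
      refine (hd.comp hc1).inv₀ fun θ => ?_
      exact ((CvxPsc.mem_iff Ω ho hb _).1 (hmem θ)).ne'
    have hpi : ∀ θ : ℝ, Complex.exp (((θ + Real.pi : ℝ) : ℂ) * I) = -Complex.exp (θ * I) := by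
      intro θ
      rw [Complex.ofReal_add, add_mul, Complex.exp_add, Complex.exp_pi_mul_I]
      ring
    have hper : Function.Periodic g (2 * Real.pi) := by
      intro θ
      have e : Complex.exp (((θ + 2 * Real.pi : ℝ) : ℂ) * I) = Complex.exp (θ * I) := by
        have e1 : θ + 2 * Real.pi = (θ + Real.pi) + Real.pi := by ring
        rw [e1, hpi, hpi, neg_neg]
      rw [hg]
      beta_reduce
      rw [e]
    have hmid : ∀ θ : ℝ, (Metric.infDist a Ωᶜ)⁻¹ ≤ (g θ + g (θ + Real.pi)) / 2 := by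
      intro θ
      rw [hg]
      beta_reduce
      refine CvxPsc.mid_inv Ω ho hc hb _ _ a (hmem θ) (hmem (θ + Real.pi)) ?_
      rw [hpi, neg_smul, ← smul_add]
      have e : a + Complex.exp (θ * I) • b + (a + -(Complex.exp (θ * I) • b)) = (2 : ℝ) • a := by
        rw [two_smul]
        abel
      rw [e, smul_smul]
      norm_num
    have hpos : 0 < 2 * Real.pi := Real.two_pi_pos
    have hint : ∫ _θ in (0 : ℝ)..(2 * Real.pi), (Metric.infDist a Ωᶜ)⁻¹ ≤
        ∫ θ in (0 : ℝ)..(2 * Real.pi), (g θ + g (θ + Real.pi)) / 2 := by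
      refine intervalIntegral.integral_mono_on hpos.le ?_ ?_ fun θ _ => hmid θ
      · exact continuous_const.intervalIntegrable _ _
      · refine Continuous.intervalIntegrable ?_ _ _
        exact (hgc.add (hgc.comp (continuous_id.add continuous_const))).div_const 2
    have hsh : ∫ θ in (0 : ℝ)..(2 * Real.pi), g (θ + Real.pi) =
        ∫ θ in (0 : ℝ)..(2 * Real.pi), g θ := by
      rw [intervalIntegral.integral_comp_add_right (fun θ => g θ) Real.pi]
      have h := hper.intervalIntegral_add_eq Real.pi 0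
      rw [zero_add] at h
      rw [zero_add, ← h, add_comm]
    have hsum : ∫ θ in (0 : ℝ)..(2 * Real.pi), (g θ + g (θ + Real.pi)) / 2 =
        ∫ θ in (0 : ℝ)..(2 * Real.pi), g θ := by
      have hgc2 : Continuous (fun θ : ℝ => g (θ + Real.pi)) :=
        hgc.comp (continuous_id.add continuous_const)
      rw [intervalIntegral.integral_div, intervalIntegral.integral_add
        (hgc.intervalIntegrable _ _) (hgc2.intervalIntegrable _ _), hsh]
      ring
    rw [hsum, intervalIntegral.integral_const, sub_zero, smul_eq_mul] at hint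
    have hgoal : (2 * Real.pi)⁻¹ * ∫ θ in (0 : ℝ)..(2 * Real.pi),
        (Metric.infDist (a + Complex.exp (θ * I) • b) Ωᶜ)⁻¹ =
        (2 * Real.pi)⁻¹ * ∫ θ in (0 : ℝ)..(2 * Real.pi), g θ := by
      rw [hg]
    rw [hgoal, inv_mul_eq_div, le_div_iff₀ hpos]
    linarith

end DbarN.JD5
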