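import Pool.Agent.H314.DN.WSDefs

set_option autoImplicit false

open MeasureTheory Complex
open scoped ContDiff InnerProductSpace ENNReal ComplexConjugate

namespace DbarN.JDL


section H16552

open ContinuousLinearMap Convolution Metric Set Filter Topology

/-- Jensen / Hölder on a probability measure. -/
theorem lint_sq_le_16552 {α : Type*} [MeasurableSpace α] (ν : Measure α) (hν : ν univ = 1)
    {h : α → ℝ≥0∞} (hh : AEMeasurable h ν) :
    (∫⁻ a, h a ∂ν) ^ (2 : ℝ) ≤ ∫⁻ a, h a ^ (2 : ℝ) ∂ν := by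
  have hpq : (2 : ℝ).HolderConjugate 2 := Real.HolderConjugate.two_two
  have := ENNReal.lintegral_mul_le_Lp_mul_Lq ν hpq hh (g := fun _ => 1) aemeasurable_const
  simp only [Pi.mul_apply, mul_one, ENNReal.one_rpow, lintegral_const, hν] at this
  calc (∫⁻ a, h a ∂ν) ^ (2 : ℝ) ≤ ((∫⁻ a, h a ^ (2 : ℝ) ∂ν) ^ (1 / (2 : ℝ))) ^ (2 : ℝ) :=
        ENNReal.rpow_le_rpow this (by norm_num)
    _ = _ := by
        rw [← ENNReal.rpow_mul]
        norm_num

/-- continuity of translations in `L²`. -/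
theorem transl_cont_16552 (g : E3 → ℂ) (hg : MemLp g 2 volume) (η : ℝ≥0∞) (hη : 0 < η) :
    ∃ ε : ℝ, 0 < ε ∧ ∀ t : E3, ‖t‖ < ε → eLpNorm (fun z => g (z - t) - g z) 2 volume ≤ η := by
  have : Fact ((1 : ENNReal) ≤ 2) := ⟨by norm_num⟩
  let G : E3 → C(E3, E3) := fun t => ⟨fun z => z - t, by fun_prop⟩
  have hG : Continuous G := ContinuousMap.continuous_of_continuous_uncurry _ (by
    show Continuous fun p : E3 × E3 => p.2 - p.1
    fun_prop)
  have hmp : ∀ t, MeasurePreserving (G t) volume volume := fun t =>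
    measurePreserving_sub_right volume t
  have hc : Continuous fun t => Lp.compMeasurePreserving (G t) (hmp t) (hg.toLp g) :=
    Continuous.compMeasurePreservingLp continuous_const hG hmp (by norm_num)
  have h0 := hc.tendsto 0
  rw [EMetric.tendsto_nhds] at h0
  have h1 := h0 η hη
  rw [Metric.eventually_nhds_iff] at h1
  obtain ⟨ε, hε, h2⟩ := h1
  refine ⟨ε, hε, fun t ht => ?_⟩
  have h3 := h2 (y := t) (by simpa [dist_eq_norm] using ht)
  rw [Lp.edist_def] at h3
  have hcoe : ∀ s : E3, (Lp.compMeasurePreserving (G s) (hmp s) (hg.toLp g) : E3 → ℂ) =ᵐ[volume]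
      fun z => g (z - s) := by
    intro s
    have e1 := Lp.coeFn_compMeasurePreserving (hg.toLp g) (hmp s)
    have e2 : (fun z => (hg.toLp g : E3 → ℂ) (G s z)) =ᵐ[volume] fun z => g (G s z) :=
      (hmp s).quasiMeasurePreserving.ae_eq_comp hg.coeFn_toLp
    exact e1.trans e2
  have h4 : eLpNorm (fun z => g (z - t) - g z) 2 volume =
      eLpNorm ((Lp.compMeasurePreserving (G t) (hmp t) (hg.toLp g) : E3 → ℂ) -
        (Lp.compMeasurePreserving (G 0) (hmp 0) (hg.toLp g) : E3 → ℂ)) 2 volume := by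
    apply eLpNorm_congr_ae
    filter_upwards [hcoe t, hcoe 0] with z h5 h6
    rw [Pi.sub_apply, h5, h6, sub_zero]
  rw [h4]
  exact h3.le

theorem mollify_L2_16552 (g : E3 → ℂ) (hgm : Measurable g) (hg : MemLp g 2 volume) (ρ : E3 → ℝ)
    (hρc : Continuous ρ) (hρs : HasCompactSupport ρ) (hρ0 : ∀ t, 0 ≤ ρ t) (hρ1 : ∫ t, ρ t = 1)
    (ε : ℝ) (hρε : ∀ t, ρ t ≠ 0 → ‖t‖ < ε) (η : ℝ≥0∞)
    (h : ∀ t : E3, ‖t‖ < ε → eLpNorm (fun z => g (z - t) - g z) 2 volume ≤ η) :
    eLpNorm (fun z => (∫ t, ρ t • g (z - t)) - g z) 2 volume ≤ η := by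
  have hρint : Integrable ρ := hρc.integrable_of_hasCompactSupport hρs
  have hloc : LocallyIntegrable g volume := hg.locallyIntegrable (by norm_num)
  have hρm : Measurable fun t => ‖ρ t‖ₑ := hρc.measurable.enorm
  set ν : Measure E3 := volume.withDensity fun t => ‖ρ t‖ₑ with hν
  have hρ1' : ∫⁻ t, ‖ρ t‖ₑ = 1 := by
    rw [← ofReal_integral_norm_eq_lintegral_enorm hρint]
    have : ∫ x, ‖ρ x‖ = 1 := by
      rw [← hρ1]
      refine integral_congr_ae (Filter.Eventually.of_forall fun w => ?_)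
      exact Real.norm_of_nonneg (hρ0 w)
    rw [this, ENNReal.ofReal_one]
  have hν1 : ν univ = 1 := by
    rw [hν, withDensity_apply _ MeasurableSet.univ, Measure.restrict_univ, hρ1']
  have hpt : ∀ z, ‖(∫ t, ρ t • g (z - t)) - g z‖ₑ ^ (2 : ℝ) ≤
      ∫⁻ t, ‖ρ t‖ₑ * ‖g (z - t) - g z‖ₑ ^ (2 : ℝ) := by
    intro z
    have hi1 : Integrable fun t => ρ t • g (z - t) :=
      hρs.convolutionExists_left (lsmul ℝ ℝ) hρc hloc z
    have hi2 : Integrable fun t => ρ t • g z := hρint.smul_const _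
    have e1 : (∫ t, ρ t • g (z - t)) - g z = ∫ t, ρ t • (g (z - t) - g z) := by
      have : ∫ t, ρ t • g z = g z := by rw [integral_smul_const, hρ1, one_smul]
      calc (∫ t, ρ t • g (z - t)) - g z = (∫ t, ρ t • g (z - t)) - ∫ t, ρ t • g z := by rw [this]
        _ = ∫ t, (ρ t • g (z - t) - ρ t • g z) := (integral_sub hi1 hi2).symm
        _ = _ := by simp only [smul_sub]
    have hm1 : Measurable fun t => ‖g (z - t) - g z‖ₑ :=
      ((hgm.comp (measurable_const.sub measurable_id)).sub measurable_const).enorm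
    have h1 : ‖∫ t, ρ t • (g (z - t) - g z)‖ₑ ≤ ∫⁻ t, ‖g (z - t) - g z‖ₑ ∂ν := by
      refine (enorm_integral_le_lintegral_enorm _).trans (le_of_eq ?_)
      rw [hν, lintegral_withDensity_eq_lintegral_mul _ hρm hm1]
      refine lintegral_congr fun t => ?_
      rw [enorm_smul]
      rfl
    rw [e1]
    calc ‖∫ t, ρ t • (g (z - t) - g z)‖ₑ ^ (2 : ℝ) ≤ (∫⁻ t, ‖g (z - t) - g z‖ₑ ∂ν) ^ (2 : ℝ) :=
          ENNReal.rpow_le_rpow h1 (by norm_num)
      _ ≤ ∫⁻ t, ‖g (z - t) - g z‖ₑ ^ (2 : ℝ) ∂ν := lint_sq_le_16552 ν hν1 hm1.aemeasurable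
      _ = _ := by
          rw [hν, lintegral_withDensity_eq_lintegral_mul _ hρm (hm1.pow_const _)]
          rfl
  have hmm : Measurable fun q : E3 × E3 => ‖ρ q.2‖ₑ * ‖g (q.1 - q.2) - g q.1‖ₑ ^ (2 : ℝ) :=
    (hρm.comp measurable_snd).mul ((((hgm.comp (measurable_fst.sub measurable_snd)).sub
      (hgm.comp measurable_fst)).enorm).pow_const _)
  have key : ∫⁻ z, ‖(∫ t, ρ t • g (z - t)) - g z‖ₑ ^ (2 : ℝ) ≤ η ^ (2 : ℝ) := by
    calc ∫⁻ z, ‖(∫ t, ρ t • g (z - t)) - g z‖ₑ ^ (2 : ℝ)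
        ≤ ∫⁻ z, ∫⁻ t, ‖ρ t‖ₑ * ‖g (z - t) - g z‖ₑ ^ (2 : ℝ) := lintegral_mono hpt
      _ = ∫⁻ t, ∫⁻ z, ‖ρ t‖ₑ * ‖g (z - t) - g z‖ₑ ^ (2 : ℝ) :=
          lintegral_lintegral_swap hmm.aemeasurable
      _ ≤ ∫⁻ t, ‖ρ t‖ₑ * η ^ (2 : ℝ) := by
          refine lintegral_mono fun t => ?_
          simp only
          have hmt : Measurable fun z => ‖g (z - t) - g z‖ₑ ^ (2 : ℝ) :=
            (((hgm.comp (measurable_id.sub_const t)).sub hgm).enorm).pow_const _
          rw [lintegral_const_mul _ hmt]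
          by_cases ht : ρ t = 0
          · rw [ht]; simp
          · gcongr
            have h1 := h t (hρε t ht)
            rw [eLpNorm_eq_lintegral_rpow_enorm_toReal (by norm_num) (by norm_num)] at h1
            simp only [ENNReal.toReal_ofNat] at h1
            have h2 := ENNReal.rpow_le_rpow h1 (show (0 : ℝ) ≤ 2 by norm_num)
            rw [← ENNReal.rpow_mul] at h2
            norm_num at h2
            norm_num
            exact h2
      _ = η ^ (2 : ℝ) := by rw [lintegral_mul_const _ hρm, hρ1', one_mul]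
  rw [eLpNorm_eq_lintegral_rpow_enorm_toReal (by norm_num) (by norm_num)]
  simp only [ENNReal.toReal_ofNat]
  calc (∫⁻ z, ‖(∫ t, ρ t • g (z - t)) - g z‖ₑ ^ (2 : ℝ)) ^ (1 / (2 : ℝ))
      ≤ (η ^ (2 : ℝ)) ^ (1 / (2 : ℝ)) := ENNReal.rpow_le_rpow key (by norm_num)
    _ = η := by rw [← ENNReal.rpow_mul]; norm_num

/-- the bumps -/
noncomputable def chi_16552 (n : ℕ) : ContDiffBump (0 : E3) :=
  ⟨1 / ((n : ℝ) + 1), 2 / ((n : ℝ) + 1), by positivity, by
    apply div_lt_div_of_pos_right (by norm_num) (by positivity)⟩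

noncomputable def rho_16552 (n : ℕ) : E3 → ℝ := (chi_16552 n).normed volume

noncomputable def mo_16552 (n : ℕ) (w : E3 → ℂ) : E3 → ℂ :=
  rho_16552 n ⋆[lsmul ℝ ℝ, volume] w

theorem rho_smooth_16552 (n : ℕ) : ContDiff ℝ ∞ (rho_16552 n) := (chi_16552 n).contDiff_normed
theorem rho_cs_16552 (n : ℕ) : HasCompactSupport (rho_16552 n) :=
  (chi_16552 n).hasCompactSupport_normed
theorem rho_nonneg_16552 (n : ℕ) (x : E3) : 0 ≤ rho_16552 n x := (chi_16552 n).nonneg_normed x
theorem rho_int_16552 (n : ℕ) : ∫ x, rho_16552 n x = 1 := (chi_16552 n).integral_normed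
theorem rho_supp_16552 (n : ℕ) (x : E3) (hx : rho_16552 n x ≠ 0) : ‖x‖ < 2 / ((n : ℝ) + 1) := by
  have h : x ∈ Function.support (rho_16552 n) := hx
  rw [rho_16552, (chi_16552 n).support_normed_eq] at h
  simpa [chi_16552] using h

theorem mo_apply_16552 (n : ℕ) (w : E3 → ℂ) (x : E3) :
    mo_16552 n w x = ∫ t, rho_16552 n t • w (x - t) := rfl

theorem mo_apply'_16552 (n : ℕ) (w : E3 → ℂ) (x : E3) :
    mo_16552 n w x = ∫ y, w y * (rho_16552 n (x - y) : ℂ) := by
  rw [mo_apply_16552, ← integral_sub_left_eq_self (fun t => rho_16552 n t • w (x - t)) volume x]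
  refine integral_congr_ae (Filter.Eventually.of_forall fun y => ?_)
  simp only [sub_sub_cancel, Complex.real_smul]
  ring

theorem mo_smooth_16552 (n : ℕ) (w : E3 → ℂ) (hw : MemLp w 2 volume) :
    ContDiff ℝ ∞ (mo_16552 n w) :=
  (rho_cs_16552 n).contDiff_convolution_left (lsmul ℝ ℝ) (rho_smooth_16552 n)
    (hw.locallyIntegrable (by norm_num))

theorem mo_cs_16552 (n : ℕ) (w : E3 → ℂ) (hw : HasCompactSupport w) :
    HasCompactSupport (mo_16552 n w) :=
  HasCompactSupport.convolution _ (rho_cs_16552 n) hw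

theorem mo_zero_16552 (n : ℕ) (w : E3 → ℂ) (R : ℝ) (hw : ∀ x, R ≤ ‖x‖ → w x = 0) (x : E3)
    (hx : R + 2 ≤ ‖x‖) : mo_16552 n w x = 0 := by
  rw [mo_apply_16552]
  have : (fun t => rho_16552 n t • w (x - t)) = fun _ => 0 := by
    funext t
    by_cases ht : rho_16552 n t = 0
    · rw [ht, zero_smul]
    · have h1 := rho_supp_16552 n t ht
      have h2 : 2 / ((n : ℝ) + 1) ≤ 2 := by
        rw [div_le_iff₀ (by positivity)]
        have : (0:ℝ) ≤ n := Nat.cast_nonneg n
        linarith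
      have h3 : ‖x‖ ≤ ‖x - t‖ + ‖t‖ := by
        have := norm_add_le (x - t) t
        rwa [sub_add_cancel] at this
      rw [hw (x - t) (by linarith), smul_zero]
  rw [this, integral_zero]

theorem mo_tendsto_16552 (w : E3 → ℂ) (hw : MemLp w 2 volume) :
    Tendsto (fun n => eLpNorm (fun x => mo_16552 n w x - w x) 2 volume) atTop (𝓝 0) := by
  set g : E3 → ℂ := hw.aestronglyMeasurable.mk _ with hg
  have hgae : w =ᵐ[volume] g := hw.aestronglyMeasurable.ae_eq_mk
  have hgm : Measurable g := hw.aestronglyMeasurable.stronglyMeasurable_mk.measurable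
  have hgL : MemLp g 2 volume := hw.ae_eq hgae
  have hmo : ∀ n, mo_16552 n w = mo_16552 n g := by
    intro n
    funext x
    rw [mo_apply'_16552, mo_apply'_16552]
    apply integral_congr_ae
    filter_upwards [hgae] with y hy
    rw [hy]
  rw [ENNReal.tendsto_nhds_zero]
  intro η hη
  obtain ⟨ε, hε, hε'⟩ := transl_cont_16552 g hgL η hη
  have hlim : Tendsto (fun n : ℕ => 2 / ((n : ℝ) + 1)) atTop (𝓝 0) := by
    apply Tendsto.div_atTop tendsto_const_nhds
    exact tendsto_atTop_add_const_right _ _ tendsto_natCast_atTop_atTop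
  have hev : ∀ᶠ n : ℕ in atTop, 2 / ((n : ℝ) + 1) < ε := hlim.eventually (gt_mem_nhds hε)
  filter_upwards [hev] with n hn
  have h1 := mollify_L2_16552 g hgm hgL (rho_16552 n) (rho_smooth_16552 n).continuous
    (rho_cs_16552 n) (rho_nonneg_16552 n) (rho_int_16552 n)
    (2 / ((n : ℝ) + 1)) (rho_supp_16552 n) η (fun t ht => hε' t (ht.trans hn))
  have h2 : eLpNorm (fun x => mo_16552 n w x - w x) 2 volume =
      eLpNorm (fun z => (∫ t, rho_16552 n t • g (z - t)) - g z) 2 volume := by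
    apply eLpNorm_congr_ae
    filter_upwards [hgae] with x hx
    rw [hmo n, mo_apply_16552, hx]
  rw [h2]
  exact h1

/-- the derivative of a mollification -/
theorem mo_fderiv_16552 (n : ℕ) (w : E3 → ℂ) (hw : MemLp w 2 volume) (x v : E3) :
    fderiv ℝ (mo_16552 n w) x v =
      - ∫ y, w y * fderiv ℝ (fun y => (rho_16552 n (x - y) : ℂ)) y v := by
  have hρs1 : ContDiff ℝ 1 (rho_16552 n) := (rho_smooth_16552 n).of_le (by norm_cast)
  have hFl : LocallyIntegrable w volume := hw.locallyIntegrable (by norm_num)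
  have h1 := (rho_cs_16552 n).hasFDerivAt_convolution_left (lsmul ℝ ℝ) hρs1 hFl x
  have h2 : fderiv ℝ (mo_16552 n w) x =
      (fderiv ℝ (rho_16552 n) ⋆[(lsmul ℝ ℝ).precompL E3, volume] w) x := h1.fderiv
  rw [h2]
  have hex : ConvolutionExistsAt (fderiv ℝ (rho_16552 n)) w x
      ((lsmul ℝ ℝ : ℝ →L[ℝ] ℂ →L[ℝ] ℂ).precompL E3) volume :=
    ((rho_cs_16552 n).fderiv ℝ).convolutionExists_left _ (hρs1.continuous_fderiv one_ne_zero) hFl x
  have h3 : (fderiv ℝ (rho_16552 n) ⋆[(lsmul ℝ ℝ).precompL E3, volume] w) x v =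
      ∫ t, fderiv ℝ (rho_16552 n) t v • w (x - t) := by
    rw [convolution_def, ContinuousLinearMap.integral_apply hex]
    rfl
  rw [h3, ← integral_sub_left_eq_self (fun t => fderiv ℝ (rho_16552 n) t v • w (x - t)) volume x,
    ← integral_neg]
  refine integral_congr_ae (Filter.Eventually.of_forall fun y => ?_)
  simp only [sub_sub_cancel]
  have ha : HasFDerivAt (fun y : E3 => x - y) (-(ContinuousLinearMap.id ℝ E3)) y :=
    (hasFDerivAt_id y).const_sub x
  have hb : HasFDerivAt (fun y => rho_16552 n (x - y)) ((fderiv ℝ (rho_16552 n) (x - y)).comp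
      (-(ContinuousLinearMap.id ℝ E3))) y :=
    ((hρs1.differentiable one_ne_zero (x - y)).hasFDerivAt).comp y ha
  have hc : HasFDerivAt (fun y => (rho_16552 n (x - y) : ℂ))
      (Complex.ofRealCLM.comp ((fderiv ℝ (rho_16552 n) (x - y)).comp
      (-(ContinuousLinearMap.id ℝ E3)))) y :=
    Complex.ofRealCLM.hasFDerivAt.comp y hb
  rw [hc.fderiv]
  simp only [ContinuousLinearMap.comp_neg, ContinuousLinearMap.comp_id,
    neg_apply, ContinuousLinearMap.comp_apply, Complex.ofRealCLM_apply,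
    Complex.real_smul]
  ring

theorem test_rho_16552 (n : ℕ) (x : E3) :
    IsTest Set.univ (fun y => (rho_16552 n (x - y) : ℂ)) := by
  refine ⟨?_, ?_, Set.subset_univ _⟩
  · exact Complex.ofRealCLM.contDiff.comp
      ((rho_smooth_16552 n).comp (contDiff_const.sub contDiff_id))
  · apply HasCompactSupport.intro (isCompact_closedBall x (2 / ((n : ℝ) + 1)))
    intro y hy
    have : rho_16552 n (x - y) = 0 := by
      by_contra hne
      apply hy
      rw [mem_closedBall, dist_comm, dist_eq_norm]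
      exact (rho_supp_16552 n _ hne).le
    rw [this, Complex.ofReal_zero]

theorem int_mul_16552 (w φ : E3 → ℂ) (hw : MemLp w 2 volume) (hφ : Continuous φ)
    (hc : HasCompactSupport φ) : Integrable (fun y => w y * φ y) volume := by
  have h : MemLp φ 2 volume := hφ.memLp_of_hasCompactSupport hc
  exact hw.integrable_mul h

theorem fd_cont_16552 (φ : E3 → ℂ) (hφ : ContDiff ℝ ∞ φ) (v : E3) :
    Continuous (fun y => fderiv ℝ φ y v) := by
  have h1 : Continuous (fderiv ℝ φ) := hφ.continuous_fderiv (by simp)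
  exact h1.clm_apply continuous_const

theorem fd_cs_16552 (φ : E3 → ℂ) (hφ : HasCompactSupport φ) (v : E3) :
    HasCompactSupport (fun y => fderiv ℝ φ y v) := by
  have h1 : HasCompactSupport (fderiv ℝ φ) := hφ.fderiv ℝ
  exact h1.comp_left (g := fun L : E3 →L[ℝ] ℂ => L v) (by simp)

/-- the first order operator -/
noncomputable def DD_16552 (a b : Fin 3 → ℂ) (φ : E3 → ℂ) (x : E3) : ℂ :=
  ∑ j, (a j * dbar j φ x + b j * dz j φ x)

theorem DD_cont_16552 (a b : Fin 3 → ℂ) (φ : E3 → ℂ) (hφ : ContDiff ℝ ∞ φ) :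
    Continuous (DD_16552 a b φ) := by
  unfold DD_16552 dbar dz
  refine continuous_finsetSum _ fun j _ => ?_
  have h1 := fd_cont_16552 φ hφ (Pi.single j 1)
  have h2 := fd_cont_16552 φ hφ (Pi.single j I)
  fun_prop

theorem DD_cs_16552 (a b : Fin 3 → ℂ) (φ : E3 → ℂ) (hφ : HasCompactSupport φ) :
    HasCompactSupport (DD_16552 a b φ) := by
  have h1 : HasCompactSupport (fderiv ℝ φ) := hφ.fderiv ℝ
  have h2 := h1.comp_left (g := fun L : E3 →L[ℝ] ℂ => ∑ j, (a j * ((1 / 2) *
    (L (Pi.single j 1) + I * L (Pi.single j I))) + b j * ((1 / 2) *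
    (L (Pi.single j 1) - I * L (Pi.single j I))))) (by simp)
  exact h2

theorem DD_mul_16552 (a b : Fin 3 → ℂ) (η φ : E3 → ℂ) (x : E3) (hη : DifferentiableAt ℝ η x)
    (hφ : DifferentiableAt ℝ φ x) :
    DD_16552 a b (fun y => η y * φ y) x = η x * DD_16552 a b φ x + φ x * DD_16552 a b η x := by
  have hf : ∀ v, fderiv ℝ (fun y => η y * φ y) x v = η x * fderiv ℝ φ x v + φ x * fderiv ℝ η x v := by
    intro v
    rw [fderiv_fun_mul hη hφ]
    simp
  unfold DD_16552 dbar dz
  rw [Finset.mul_sum, Finset.mul_sum, ← Finset.sum_add_distrib]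
  refine Finset.sum_congr rfl fun j _ => ?_
  rw [hf, hf]
  ring

theorem DD_bound_16552 (a b : Fin 3 → ℂ) (φ : E3 → ℂ) (x : E3) :
    ‖DD_16552 a b φ x‖ ≤ (∑ j, (‖a j‖ + ‖b j‖)) * ‖fderiv ℝ φ x‖ := by
  have h1 : ∀ j : Fin 3, ‖fderiv ℝ φ x (Pi.single j 1)‖ ≤ ‖fderiv ℝ φ x‖ := by
    intro j
    have := (fderiv ℝ φ x).le_opNorm (Pi.single j 1)
    simpa [Pi.norm_single] using this
  have h2 : ∀ j : Fin 3, ‖fderiv ℝ φ x (Pi.single j I)‖ ≤ ‖fderiv ℝ φ x‖ := by
    intro j
    have := (fderiv ℝ φ x).le_opNorm (Pi.single j I)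
    simpa [Pi.norm_single] using this
  have h3 : ∀ j : Fin 3, ‖dbar j φ x‖ ≤ ‖fderiv ℝ φ x‖ := by
    intro j
    unfold dbar
    rw [norm_mul]
    have e1 : ‖(1 / 2 : ℂ)‖ = 1 / 2 := by norm_num
    have e2 := norm_add_le (fderiv ℝ φ x (Pi.single j 1)) (I * fderiv ℝ φ x (Pi.single j I))
    rw [norm_mul, Complex.norm_I, one_mul] at e2
    rw [e1]
    have := h1 j
    have := h2 j
    linarith
  have h4 : ∀ j : Fin 3, ‖dz j φ x‖ ≤ ‖fderiv ℝ φ x‖ := by
    intro j
    unfold dz
    rw [norm_mul]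
    have e1 : ‖(1 / 2 : ℂ)‖ = 1 / 2 := by norm_num
    have e2 := norm_sub_le (fderiv ℝ φ x (Pi.single j 1)) (I * fderiv ℝ φ x (Pi.single j I))
    rw [norm_mul, Complex.norm_I, one_mul] at e2
    rw [e1]
    have := h1 j
    have := h2 j
    linarith
  unfold DD_16552
  rw [Finset.sum_mul]
  refine (norm_sum_le _ _).trans (Finset.sum_le_sum fun j _ => ?_)
  refine (norm_add_le _ _).trans ?_
  rw [norm_mul, norm_mul, add_mul]
  exact add_le_add (mul_le_mul_of_nonneg_left (h3 j) (norm_nonneg _))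
    (mul_le_mul_of_nonneg_left (h4 j) (norm_nonneg _))

/-- `D (mo w) = - ∫ w D φ_x` -/
theorem DD_mo_16552 (a b : Fin 3 → ℂ) (n : ℕ) (w : E3 → ℂ) (hw : MemLp w 2 volume) (x : E3) :
    DD_16552 a b (mo_16552 n w) x =
      - ∫ y, w y * DD_16552 a b (fun y => (rho_16552 n (x - y) : ℂ)) y := by
  set φ : E3 → ℂ := fun y => (rho_16552 n (x - y) : ℂ) with hφ
  have hT := test_rho_16552 n x
  have hint : ∀ v, Integrable (fun y => w y * fderiv ℝ φ y v) volume := fun v =>
    int_mul_16552 w _ hw (fd_cont_16552 φ hT.smooth v) (fd_cs_16552 φ hT.compact v)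
  have h1 : ∀ j, dbar j (mo_16552 n w) x = - ∫ y, w y * dbar j φ y := by
    intro j
    unfold dbar
    rw [mo_fderiv_16552 n w hw, mo_fderiv_16552 n w hw]
    have : (fun y => w y * ((1 / 2) * (fderiv ℝ φ y (Pi.single j 1) +
        I * fderiv ℝ φ y (Pi.single j I)))) = fun y => (1 / 2) * (w y * fderiv ℝ φ y (Pi.single j 1))
        + (1 / 2 * I) * (w y * fderiv ℝ φ y (Pi.single j I)) := by
      funext y; ring
    rw [this, integral_add ((hint _).const_mul _) ((hint _).const_mul _), integral_const_mul,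
      integral_const_mul]
    ring
  have h2 : ∀ j, dz j (mo_16552 n w) x = - ∫ y, w y * dz j φ y := by
    intro j
    unfold dz
    rw [mo_fderiv_16552 n w hw, mo_fderiv_16552 n w hw]
    have : (fun y => w y * ((1 / 2) * (fderiv ℝ φ y (Pi.single j 1) -
        I * fderiv ℝ φ y (Pi.single j I)))) = fun y => (1 / 2) * (w y * fderiv ℝ φ y (Pi.single j 1))
        - (1 / 2 * I) * (w y * fderiv ℝ φ y (Pi.single j I)) := by
      funext y; ring
    rw [this, integral_sub ((hint _).const_mul _) ((hint _).const_mul _), integral_const_mul,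
      integral_const_mul]
    ring
  have hi1 : ∀ j, Integrable (fun y => w y * dbar j φ y) volume := by
    intro j
    have : (fun y => w y * dbar j φ y) = fun y => (1 / 2) * (w y * fderiv ℝ φ y (Pi.single j 1))
        + (1 / 2 * I) * (w y * fderiv ℝ φ y (Pi.single j I)) := by
      funext y; unfold dbar; ring
    rw [this]
    exact ((hint _).const_mul _).add ((hint _).const_mul _)
  have hi2 : ∀ j, Integrable (fun y => w y * dz j φ y) volume := by
    intro j
    have : (fun y => w y * dz j φ y) = fun y => (1 / 2) * (w y * fderiv ℝ φ y (Pi.single j 1))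
        - (1 / 2 * I) * (w y * fderiv ℝ φ y (Pi.single j I)) := by
      funext y; unfold dz; ring
    rw [this]
    exact ((hint _).const_mul _).sub ((hint _).const_mul _)
  have h3 : (fun y => w y * DD_16552 a b φ y) = fun y => ∑ j, (a j * (w y * dbar j φ y) +
      b j * (w y * dz j φ y)) := by
    funext y
    unfold DD_16552
    rw [Finset.mul_sum]
    refine Finset.sum_congr rfl fun j _ => ?_
    ring
  have h4 : ∀ j : Fin 3, Integrable (fun y => a j * (w y * dbar j φ y) +
      b j * (w y * dz j φ y)) volume := fun j => ((hi1 j).const_mul _).add ((hi2 j).const_mul _)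
  rw [h3, integral_finsetSum _ (fun j _ => h4 j), ← Finset.sum_neg_distrib]
  unfold DD_16552
  refine Finset.sum_congr rfl fun j _ => ?_
  rw [integral_add ((hi1 j).const_mul _) ((hi2 j).const_mul _), integral_const_mul,
    integral_const_mul, h1 j, h2 j]
  ring

theorem PP_eq_16552 (α β : Fin 3 → Fin 3 → ℂ) (z u : Fin 3 → E3 → ℂ) (x : E3) :
    PP α β z u x = ∑ i, (DD_16552 (α i) (β i) (u i) x + z i x * u i x) := rfl

/-- the commutator formula -/
theorem PP_mo_16552 (α β : Fin 3 → Fin 3 → ℂ) (z : Fin 3 → E3 → ℂ) (w : Fin 3 → E3 → ℂ)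
    (F : E3 → ℂ) (hz : ∀ i, Continuous (z i)) (hw : ∀ i, MemLp (w i) 2 volume)
    (hW : WPP α β z w F) (n : ℕ) (x : E3) :
    PP α β z (fun i => mo_16552 n (w i)) x = mo_16552 n F x -
      ∑ i, (mo_16552 n (fun y => z i y * w i y) x - z i x * mo_16552 n (w i) x) := by
  set φ : E3 → ℂ := fun y => (rho_16552 n (x - y) : ℂ) with hφ
  have hT : IsTest Set.univ φ := test_rho_16552 n x
  have h1 := hW φ hT
  have hi1 : ∀ i, Integrable (fun y => w i y * DD_16552 (α i) (β i) φ y) volume := fun i =>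
    int_mul_16552 _ _ (hw i) (DD_cont_16552 _ _ φ hT.smooth) (DD_cs_16552 _ _ φ hT.compact)
  have hi2 : ∀ i, Integrable (fun y => w i y * (z i y * φ y)) volume := fun i =>
    int_mul_16552 _ _ (hw i) ((hz i).mul hT.smooth.continuous) hT.compact.mul_left
  have h2 : ∫ y, ∑ i, w i y * (-(∑ j, (α i j * dbar j φ y + β i j * dz j φ y)) + z i y * φ y) =
      ∑ i, (- (∫ y, w i y * DD_16552 (α i) (β i) φ y) + ∫ y, w i y * (z i y * φ y)) := by
    have : (fun y => ∑ i, w i y * (-(∑ j, (α i j * dbar j φ y + β i j * dz j φ y)) + z i y * φ y)) =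
        fun y => ∑ i, (-(w i y * DD_16552 (α i) (β i) φ y) + w i y * (z i y * φ y)) := by
      funext y
      refine Finset.sum_congr rfl fun i _ => ?_
      unfold DD_16552
      ring
    have h4 : ∀ i : Fin 3, Integrable (fun y => -(w i y * DD_16552 (α i) (β i) φ y) +
      w i y * (z i y * φ y)) volume := fun i => (hi1 i).neg.add (hi2 i)
    rw [this, integral_finsetSum _ (fun i _ => h4 i)]
    refine Finset.sum_congr rfl fun i _ => ?_
    have h5 : Integrable (fun y => -(w i y * DD_16552 (α i) (β i) φ y)) volume := (hi1 i).neg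
    rw [integral_add h5 (hi2 i), integral_neg]
  rw [h2] at h1
  have h3 : ∀ i, ∫ y, w i y * (z i y * φ y) = mo_16552 n (fun y => z i y * w i y) x := by
    intro i
    rw [mo_apply'_16552]
    refine integral_congr_ae (Filter.Eventually.of_forall fun y => ?_)
    simp only [hφ]
    ring
  have h4 : ∫ y, F y * φ y = mo_16552 n F x := by rw [mo_apply'_16552]
  rw [PP_eq_16552]
  have h5 : ∀ i, DD_16552 (α i) (β i) (mo_16552 n (w i)) x =
      - ∫ y, w i y * DD_16552 (α i) (β i) φ y := fun i => DD_mo_16552 _ _ n (w i) (hw i) x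
  rw [← h4, ← h1, ← Finset.sum_sub_distrib]
  refine Finset.sum_congr rfl fun i _ => ?_
  rw [h5 i, h3 i]
  ring

/-- the cutoffs -/
noncomputable def b0_16552 : ContDiffBump (0 : E3) := ⟨1, 2, by norm_num, by norm_num⟩

noncomputable def eta_16552 (ν : ℕ) (x : E3) : ℂ := (b0_16552 ((1 / ((ν : ℝ) + 1)) • x) : ℂ)

theorem eta_smooth_16552 (ν : ℕ) : ContDiff ℝ ∞ (eta_16552 ν) := by
  unfold eta_16552
  exact Complex.ofRealCLM.contDiff.comp (b0_16552.contDiff.comp (contDiff_const_smul _))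

theorem eta_one_16552 (ν : ℕ) (x : E3) (hx : ‖x‖ ≤ (ν : ℝ) + 1) : eta_16552 ν x = 1 := by
  unfold eta_16552
  rw [b0_16552.one_of_mem_closedBall, Complex.ofReal_one]
  rw [mem_closedBall, dist_zero_right, norm_smul, Real.norm_of_nonneg (by positivity)]
  show _ ≤ (1:ℝ)
  rw [one_div, inv_mul_le_iff₀ (by positivity), mul_one]
  exact hx

theorem eta_zero_16552 (ν : ℕ) (x : E3) (hx : 2 * ((ν : ℝ) + 1) ≤ ‖x‖) : eta_16552 ν x = 0 := by
  unfold eta_16552
  rw [b0_16552.zero_of_le_dist, Complex.ofReal_zero]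
  rw [dist_zero_right, norm_smul, Real.norm_of_nonneg (by positivity)]
  show (2:ℝ) ≤ _
  rw [one_div, le_inv_mul_iff₀ (by positivity)]
  linarith

theorem eta_cs_16552 (ν : ℕ) : HasCompactSupport (eta_16552 ν) := by
  apply HasCompactSupport.intro (isCompact_closedBall (0:E3) (2 * ((ν : ℝ) + 1)))
  intro y hy
  apply eta_zero_16552
  rw [mem_closedBall, dist_zero_right, not_le] at hy
  exact hy.le

theorem eta_le_16552 (ν : ℕ) (x : E3) : ‖eta_16552 ν x‖ ≤ 1 := by
  unfold eta_16552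
  rw [Complex.norm_real, Real.norm_of_nonneg b0_16552.nonneg]
  exact b0_16552.le_one

theorem eta_sub_16552 (ν : ℕ) (x : E3) : ‖eta_16552 ν x - 1‖ ≤ 1 := by
  unfold eta_16552
  rw [← Complex.ofReal_one, ← Complex.ofReal_sub, Complex.norm_real, Real.norm_eq_abs, abs_le]
  have h1 := b0_16552.nonneg (x := (1 / ((ν : ℝ) + 1)) • x)
  have h2 := b0_16552.le_one (x := (1 / ((ν : ℝ) + 1)) • x)
  constructor <;> linarith

theorem eta_fderiv_16552 : ∃ C : ℝ, 0 ≤ C ∧ ∀ (ν : ℕ) (x : E3),
    ‖fderiv ℝ (eta_16552 ν) x‖ ≤ C / ((ν : ℝ) + 1) := by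
  set f : E3 → ℂ := fun x => (b0_16552 x : ℂ) with hf
  have hfs : ContDiff ℝ ∞ f := Complex.ofRealCLM.contDiff.comp b0_16552.contDiff
  have hfc : HasCompactSupport f := b0_16552.hasCompactSupport.comp_left (g := fun t : ℝ => (t : ℂ)) (by simp)
  obtain ⟨C, hC⟩ := (hfs.continuous_fderiv (by simp)).bounded_above_of_compact_support
    (hfc.fderiv ℝ)
  refine ⟨C, (norm_nonneg _).trans (hC 0), fun ν x => ?_⟩
  set c : ℝ := 1 / ((ν : ℝ) + 1) with hc
  have hc0 : 0 ≤ c := by positivity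
  have h1 : HasFDerivAt (fun y : E3 => c • y) (c • ContinuousLinearMap.id ℝ E3) x :=
    (hasFDerivAt_id x).const_smul c
  have h2 : HasFDerivAt (eta_16552 ν) ((fderiv ℝ f (c • x)).comp (c • ContinuousLinearMap.id ℝ E3)) x :=
    ((hfs.differentiable (by simp) (c • x)).hasFDerivAt).comp x h1
  rw [h2.fderiv]
  refine (ContinuousLinearMap.opNorm_comp_le _ _).trans ?_
  rw [norm_smul, Real.norm_of_nonneg hc0]
  have h3 : ‖ContinuousLinearMap.id ℝ E3‖ ≤ 1 := ContinuousLinearMap.norm_id_le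
  calc ‖fderiv ℝ f (c • x)‖ * (c * ‖ContinuousLinearMap.id ℝ E3‖) ≤ C * (c * 1) := by
        apply mul_le_mul (hC _) _ (by positivity) ((norm_nonneg _).trans (hC 0))
        exact mul_le_mul_of_nonneg_left h3 hc0
    _ = C / ((ν : ℝ) + 1) := by rw [hc]; ring

theorem memLp_cmul_16552 (k u : E3 → ℂ) (hk : Continuous k) (C : ℝ) (hb : ∀ x, ‖k x‖ ≤ C)
    (hu : MemLp u 2 volume) : MemLp (fun x => k x * u x) 2 volume := by
  refine MemLp.of_le_mul (c := C) hu (hk.aestronglyMeasurable.mul hu.1) ?_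
  filter_upwards with x
  rw [norm_mul]
  exact mul_le_mul_of_nonneg_right (hb x) (norm_nonneg _)

theorem eta_mem_16552 (ν : ℕ) (u : E3 → ℂ) (hu : MemLp u 2 volume) :
    MemLp (fun x => eta_16552 ν x * u x) 2 volume :=
  memLp_cmul_16552 _ _ (eta_smooth_16552 ν).continuous 1 (eta_le_16552 ν) hu

theorem eta_tendsto_16552 (u : E3 → ℂ) (hu : MemLp u 2 volume) :
    Tendsto (fun ν => eLpNorm (fun x => eta_16552 ν x * u x - u x) 2 volume) atTop (𝓝 0) := by
  have h1 : ∀ ν, eLpNorm (fun x => eta_16552 ν x * u x - u x) 2 volume =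
      (∫⁻ x, ‖eta_16552 ν x * u x - u x‖ₑ ^ (2:ℝ)) ^ (1 / (2:ℝ)) := by
    intro ν
    rw [eLpNorm_eq_lintegral_rpow_enorm_toReal (by norm_num) (by norm_num)]
    simp only [ENNReal.toReal_ofNat]
  simp only [h1]
  have h2 : Tendsto (fun ν : ℕ => ∫⁻ x, ‖eta_16552 ν x * u x - u x‖ₑ ^ (2:ℝ)) atTop
      (𝓝 (∫⁻ _ : E3, 0)) := by
    refine tendsto_lintegral_of_dominated_convergence' (fun x => ‖u x‖ₑ ^ (2:ℝ)) ?_ ?_ ?_ ?_
    · intro ν
      exact ((((eta_smooth_16552 ν).continuous.aestronglyMeasurable.mul hu.1).sub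
        hu.1).enorm).pow_const _
    · intro ν
      filter_upwards with x
      apply ENNReal.rpow_le_rpow _ (by norm_num)
      have : eta_16552 ν x * u x - u x = (eta_16552 ν x - 1) * u x := by ring
      rw [this, enorm_mul]
      have h3 : ‖eta_16552 ν x - 1‖ₑ ≤ 1 := by
        rw [← ofReal_norm, ← ENNReal.ofReal_one]
        exact ENNReal.ofReal_le_ofReal (eta_sub_16552 ν x)
      calc ‖eta_16552 ν x - 1‖ₑ * ‖u x‖ₑ ≤ 1 * ‖u x‖ₑ := by gcongr
        _ = _ := one_mul _
    · have h3 := hu.2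
      rw [eLpNorm_eq_lintegral_rpow_enorm_toReal (by norm_num) (by norm_num)] at h3
      simp only [ENNReal.toReal_ofNat] at h3
      intro h4
      rw [h4] at h3
      norm_num at h3
    · filter_upwards with x
      apply tendsto_const_nhds.congr'
      obtain ⟨N, hN⟩ := exists_nat_ge ‖x‖
      filter_upwards [eventually_ge_atTop N] with ν hν
      have : ‖x‖ ≤ (ν:ℝ) + 1 := by
        have : (N:ℝ) ≤ ν := by exact_mod_cast hν
        linarith
      rw [eta_one_16552 ν x this]
      simp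
  rw [lintegral_zero] at h2
  have h3 := h2.ennrpow_const (1 / (2:ℝ))
  have h4 : (0:ℝ≥0∞) ^ (1 / (2:ℝ)) = 0 := by
    rw [ENNReal.zero_rpow_of_pos (by norm_num)]
  rw [h4] at h3
  exact h3

/-- localisation of the weak equation -/
theorem WPP_loc_16552 (α β : Fin 3 → Fin 3 → ℂ) (z u : Fin 3 → E3 → ℂ) (f : E3 → ℂ)
    (hz : ∀ i, ContDiff ℝ ∞ (z i)) (hu : ∀ i, MemLp (u i) 2 volume) (hf : MemLp f 2 volume)
    (hW : WPP α β z u f) (η : E3 → ℂ) (hη : ContDiff ℝ ∞ η) :
    WPP α β z (fun i x => η x * u i x)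
      (fun x => η x * f x + ∑ i, DD_16552 (α i) (β i) η x * u i x) := by
  intro φ hφ
  have hT : IsTest Set.univ (fun y => η y * φ y) :=
    ⟨hη.mul hφ.smooth, hφ.compact.mul_left, Set.subset_univ _⟩
  have h1 := hW _ hT
  have hd : ∀ x, DifferentiableAt ℝ η x := fun x => hη.differentiable (by simp) x
  have hd2 : ∀ x, DifferentiableAt ℝ φ x := fun x => hφ.smooth.differentiable (by simp) x
  have hc1 : ∀ i, Continuous (fun y => η y * (-(DD_16552 (α i) (β i) φ y) + z i y * φ y)) := by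
    intro i
    exact hη.continuous.mul (((DD_cont_16552 _ _ φ hφ.smooth).neg).add
      ((hz i).continuous.mul hφ.smooth.continuous))
  have hs1 : ∀ i, HasCompactSupport (fun y => η y * (-(DD_16552 (α i) (β i) φ y) + z i y * φ y)) := by
    intro i
    refine HasCompactSupport.mul_left ?_
    exact ((DD_cs_16552 _ _ φ hφ.compact).neg).add hφ.compact.mul_left
  have hi1 : ∀ i, Integrable (fun y => u i y * (η y * (-(DD_16552 (α i) (β i) φ y) + z i y * φ y)))
      volume := fun i => int_mul_16552 _ _ (hu i) (hc1 i) (hs1 i)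
  have hi2 : ∀ i, Integrable (fun y => u i y * (DD_16552 (α i) (β i) η y * φ y)) volume := fun i =>
    int_mul_16552 _ _ (hu i) ((DD_cont_16552 _ _ η hη).mul hφ.smooth.continuous)
      hφ.compact.mul_left
  have hi3 : Integrable (fun y => f y * (η y * φ y)) volume :=
    int_mul_16552 _ _ hf (hη.continuous.mul hφ.smooth.continuous) hφ.compact.mul_left
  have e1 : (fun x => ∑ i, u i x * (-(∑ j, (α i j * dbar j (fun y => η y * φ y) x +
      β i j * dz j (fun y => η y * φ y) x)) + z i x * (η x * φ x))) =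
      fun x => (∑ i, u i x * (η x * (-(DD_16552 (α i) (β i) φ x) + z i x * φ x))) -
        ∑ i, u i x * (DD_16552 (α i) (β i) η x * φ x) := by
    funext x
    rw [← Finset.sum_sub_distrib]
    refine Finset.sum_congr rfl fun i _ => ?_
    have := DD_mul_16552 (α i) (β i) η φ x (hd x) (hd2 x)
    have h2 : (∑ j, (α i j * dbar j (fun y => η y * φ y) x +
      β i j * dz j (fun y => η y * φ y) x)) = DD_16552 (α i) (β i) (fun y => η y * φ y) x := rfl
    rw [h2, this]
    ring
  rw [e1, integral_sub (integrable_finsetSum _ fun i _ => hi1 i)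
    (integrable_finsetSum _ fun i _ => hi2 i)] at h1
  have e2 : (fun x => ∑ i, (η x * u i x) * (-(∑ j, (α i j * dbar j φ x +
      β i j * dz j φ x)) + z i x * φ x)) =
      fun x => (∑ i, u i x * (η x * (-(DD_16552 (α i) (β i) φ x) + z i x * φ x))) := by
    funext x
    refine Finset.sum_congr rfl fun i _ => ?_
    unfold DD_16552
    ring
  have e3 : (fun x => (η x * f x + ∑ i, DD_16552 (α i) (β i) η x * u i x) * φ x) =
      fun x => f x * (η x * φ x) + ∑ i, u i x * (DD_16552 (α i) (β i) η x * φ x) := by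
    funext x
    rw [add_mul, Finset.sum_mul]
    congr 1
    · ring
    · refine Finset.sum_congr rfl fun i _ => ?_
      ring
  show ∫ x, ∑ i, (η x * u i x) * (-(∑ j, (α i j * dbar j φ x +
      β i j * dz j φ x)) + z i x * φ x) = ∫ x, (η x * f x + ∑ i, DD_16552 (α i) (β i) η x * u i x) * φ x
  rw [e2, e3, integral_add hi3 (integrable_finsetSum _ fun i _ => hi2 i), ← h1]
  ring

/-- `mo` step -/
theorem T1_16552 (α β : Fin 3 → Fin 3 → ℂ) (z : Fin 3 → E3 → ℂ) (w : Fin 3 → E3 → ℂ)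
    (F : E3 → ℂ) (hz : ∀ i, Continuous (z i)) (hw : ∀ i, MemLp (w i) 2 volume)
    (hzw : ∀ i, MemLp (fun x => z i x * w i x) 2 volume)
    (hF : MemLp F 2 volume) (R : ℝ) (hR : ∀ i x, R ≤ ‖x‖ → w i x = 0)
    (hW : WPP α β z w F) :
    Tendsto (fun n => eLpNorm (fun x => PP α β z (fun i => mo_16552 n (w i)) x - F x) 2 volume)
      atTop (𝓝 0) := by
  have hM : ∀ i, ∃ M : ℝ, 0 ≤ M ∧ ∀ x : E3, ‖x‖ ≤ R + 2 → ‖z i x‖ ≤ M := by
    intro i
    obtain ⟨M, hM⟩ := (isCompact_closedBall (0:E3) (R + 2)).exists_bound_of_continuousOn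
      (hz i).continuousOn
    refine ⟨max M 0, le_max_right _ _, fun x hx => (hM x ?_).trans (le_max_left _ _)⟩
    rw [mem_closedBall, dist_zero_right]
    exact hx
  choose M hM0 hM using hM
  have hmoc : ∀ n (g : E3 → ℂ), MemLp g 2 volume → AEStronglyMeasurable (fun x => mo_16552 n g x - g x)
      volume := fun n g hg => ((mo_smooth_16552 n g hg).continuous.aestronglyMeasurable).sub hg.1
  have hle : ∀ n, eLpNorm (fun x => PP α β z (fun i => mo_16552 n (w i)) x - F x) 2 volume ≤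
      eLpNorm (fun x => mo_16552 n F x - F x) 2 volume + ∑ i,
        (eLpNorm (fun x => mo_16552 n (fun y => z i y * w i y) x - z i x * w i x) 2 volume +
          ENNReal.ofReal (M i) * eLpNorm (fun x => mo_16552 n (w i) x - w i x) 2 volume) := by
    intro n
    have e1 : (fun x => PP α β z (fun i => mo_16552 n (w i)) x - F x) =
        (fun x => mo_16552 n F x - F x) + ∑ i, (fun x => z i x * (mo_16552 n (w i) x - w i x) -
          (mo_16552 n (fun y => z i y * w i y) x - z i x * w i x)) := by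
      funext x
      rw [PP_mo_16552 α β z w F hz hw hW n x]
      simp only [Pi.add_apply, Finset.sum_apply]
      have : ∑ i, (mo_16552 n (fun y => z i y * w i y) x - z i x * mo_16552 n (w i) x) =
        - ∑ i, (z i x * (mo_16552 n (w i) x - w i x) -
          (mo_16552 n (fun y => z i y * w i y) x - z i x * w i x)) := by
        rw [← Finset.sum_neg_distrib]
        refine Finset.sum_congr rfl fun i _ => ?_
        ring
      rw [this]
      ring
    have hm1 : ∀ i, AEStronglyMeasurable (fun x => z i x * (mo_16552 n (w i) x - w i x)) volume :=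
      fun i => (hz i).aestronglyMeasurable.mul (hmoc n _ (hw i))
    have hm2 : ∀ i, AEStronglyMeasurable (fun x => mo_16552 n (fun y => z i y * w i y) x -
      z i x * w i x) volume := fun i => hmoc n _ (hzw i)
    rw [e1]
    have hm3 : ∀ i, AEStronglyMeasurable (fun x => z i x * (mo_16552 n (w i) x - w i x) -
      (mo_16552 n (fun y => z i y * w i y) x - z i x * w i x)) volume :=
      fun i => (hm1 i).sub (hm2 i)
    refine (eLpNorm_add_le (hmoc n F hF) (Finset.aestronglyMeasurable_sum _ fun i _ =>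
      hm3 i) (by norm_num)).trans ?_
    gcongr
    refine (eLpNorm_sum_le (fun i _ => hm3 i) (by norm_num)).trans ?_
    refine Finset.sum_le_sum fun i _ => ?_
    refine (eLpNorm_sub_le (hm1 i) (hm2 i) (by norm_num)).trans ?_
    rw [add_comm]
    gcongr
    refine eLpNorm_le_mul_eLpNorm_of_ae_le_mul ?_ 2
    filter_upwards with x
    rw [norm_mul]
    by_cases hx : ‖x‖ ≤ R + 2
    · exact mul_le_mul_of_nonneg_right (hM i x hx) (norm_nonneg _)
    · push Not at hx
      have a1 := mo_zero_16552 n (w i) R (hR i) x hx.le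
      have a2 := hR i x (by linarith)
      rw [a1, a2]
      simp
  have hlim : Tendsto (fun n => eLpNorm (fun x => mo_16552 n F x - F x) 2 volume + ∑ i,
        (eLpNorm (fun x => mo_16552 n (fun y => z i y * w i y) x - z i x * w i x) 2 volume +
          ENNReal.ofReal (M i) * eLpNorm (fun x => mo_16552 n (w i) x - w i x) 2 volume)) atTop
      (𝓝 (0 + ∑ i : Fin 3, (0 + ENNReal.ofReal (M i) * 0))) := by
    refine (mo_tendsto_16552 F hF).add (tendsto_finsetSum _ fun i _ => ?_)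
    refine (mo_tendsto_16552 _ (hzw i)).add ?_
    exact ENNReal.Tendsto.const_mul (mo_tendsto_16552 _ (hw i)) (Or.inr ENNReal.ofReal_ne_top)
  simp only [mul_zero, add_zero, Finset.sum_const_zero] at hlim
  exact tendsto_of_tendsto_of_tendsto_of_le_of_le tendsto_const_nhds hlim
    (fun _ => bot_le) hle

theorem T2_16552 (α β : Fin 3 → Fin 3 → ℂ) (u : Fin 3 → E3 → ℂ)
    (f : E3 → ℂ) (hu : ∀ i, MemLp (u i) 2 volume)
    (hf : MemLp f 2 volume) :
    Tendsto (fun ν => eLpNorm (fun x => (eta_16552 ν x * f x +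
      ∑ i, DD_16552 (α i) (β i) (eta_16552 ν) x * u i x) - f x) 2 volume) atTop (𝓝 0) := by
  obtain ⟨C, hC0, hC⟩ := eta_fderiv_16552
  set K : Fin 3 → ℝ := fun i => ∑ j, (‖α i j‖ + ‖β i j‖) with hK
  have hK0 : ∀ i, 0 ≤ K i := fun i => Finset.sum_nonneg fun j _ => by positivity
  have hm : ∀ ν i, AEStronglyMeasurable (fun x => DD_16552 (α i) (β i) (eta_16552 ν) x * u i x)
      volume := fun ν i =>
    (DD_cont_16552 _ _ _ (eta_smooth_16552 ν)).aestronglyMeasurable.mul (hu i).1
  have hm0 : ∀ ν, AEStronglyMeasurable (fun x => eta_16552 ν x * f x - f x) volume := fun ν =>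
    (eta_mem_16552 ν f hf).1.sub hf.1
  have hle : ∀ ν : ℕ, eLpNorm (fun x => (eta_16552 ν x * f x +
      ∑ i, DD_16552 (α i) (β i) (eta_16552 ν) x * u i x) - f x) 2 volume ≤
      eLpNorm (fun x => eta_16552 ν x * f x - f x) 2 volume +
        ∑ i, ENNReal.ofReal (K i * (C / ((ν:ℝ) + 1))) * eLpNorm (u i) 2 volume := by
    intro ν
    have e1 : (fun x => (eta_16552 ν x * f x +
      ∑ i, DD_16552 (α i) (β i) (eta_16552 ν) x * u i x) - f x) =
        (fun x => eta_16552 ν x * f x - f x) +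
          ∑ i, (fun x => DD_16552 (α i) (β i) (eta_16552 ν) x * u i x) := by
      funext x
      simp only [Pi.add_apply, Finset.sum_apply]
      ring
    rw [e1]
    have hms : AEStronglyMeasurable (∑ i, (fun x => DD_16552 (α i) (β i) (eta_16552 ν) x * u i x))
      volume := Finset.aestronglyMeasurable_sum _ fun i _ => hm ν i
    refine (eLpNorm_add_le (hm0 ν) hms (by norm_num)).trans ?_
    gcongr
    refine (eLpNorm_sum_le (fun i _ => hm ν i) (by norm_num)).trans ?_
    refine Finset.sum_le_sum fun i _ => ?_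
    refine eLpNorm_le_mul_eLpNorm_of_ae_le_mul ?_ 2
    filter_upwards with x
    rw [norm_mul]
    refine mul_le_mul_of_nonneg_right ?_ (norm_nonneg _)
    refine (DD_bound_16552 _ _ _ _).trans ?_
    exact mul_le_mul_of_nonneg_left (hC ν x) (hK0 i)
  have hlim : Tendsto (fun ν : ℕ => eLpNorm (fun x => eta_16552 ν x * f x - f x) 2 volume +
        ∑ i, ENNReal.ofReal (K i * (C / ((ν:ℝ) + 1))) * eLpNorm (u i) 2 volume) atTop
      (𝓝 (0 + ∑ i : Fin 3, (ENNReal.ofReal (K i * 0) * eLpNorm (u i) 2 volume))) := by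
    refine (eta_tendsto_16552 f hf).add (tendsto_finsetSum _ fun i _ => ?_)
    refine ENNReal.Tendsto.mul_const ?_ (Or.inr (hu i).2.ne)
    apply ENNReal.tendsto_ofReal
    apply Tendsto.const_mul
    apply Tendsto.div_atTop tendsto_const_nhds
    exact tendsto_atTop_add_const_right _ _ tendsto_natCast_atTop_atTop
  simp only [mul_zero, ENNReal.ofReal_zero, zero_mul, add_zero, Finset.sum_const_zero] at hlim
  exact tendsto_of_tendsto_of_tendsto_of_le_of_le tendsto_const_nhds hlim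
    (fun _ => bot_le) hle

/-- combination -/
theorem comb_16552 (A : ℕ → ℕ → E3 → ℂ) (B : ℕ → E3 → ℂ) (f : E3 → ℂ)
    (hA : ∀ ν n, AEStronglyMeasurable (A ν n) volume) (hB : ∀ ν, AEStronglyMeasurable (B ν) volume)
    (hf : AEStronglyMeasurable f volume)
    (h1 : ∀ ν, Tendsto (fun n => eLpNorm (fun x => A ν n x - B ν x) 2 volume) atTop (𝓝 0))
    (h2 : Tendsto (fun ν => eLpNorm (fun x => B ν x - f x) 2 volume) atTop (𝓝 0))
    (ε : ℝ≥0∞) (hε : 0 < ε) :
    ∀ᶠ ν in atTop, ∀ᶠ n in atTop, eLpNorm (fun x => A ν n x - f x) 2 volume < ε := by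
  have hε2 : 0 < ε / 2 := ENNReal.half_pos hε.ne'
  filter_upwards [(tendsto_order.1 h2).2 _ hε2] with ν hν
  filter_upwards [(tendsto_order.1 (h1 ν)).2 _ hε2] with n hn
  have e1 : (fun x => A ν n x - f x) = (fun x => A ν n x - B ν x) + (fun x => B ν x - f x) := by
    funext x
    simp only [Pi.add_apply]
    ring
  rw [e1]
  calc eLpNorm ((fun x => A ν n x - B ν x) + (fun x => B ν x - f x)) 2 volume
      ≤ eLpNorm (fun x => A ν n x - B ν x) 2 volume + eLpNorm (fun x => B ν x - f x) 2 volume :=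
        eLpNorm_add_le ((hA ν n).sub (hB ν)) ((hB ν).sub hf) (by norm_num)
    _ < ε / 2 + ε / 2 := ENNReal.add_lt_add hn hν
    _ = ε := ENNReal.add_halves ε

end H16552

/-- Friedrichs: cut off and mollify. -/
theorem friedrichs : ∃ R : ℕ → ℕ → (E3 → ℂ) → (E3 → ℂ),
    (∀ ν n u, MemLp u 2 (volume : Measure E3) → IsTest Set.univ (R ν n u)) ∧
    (∀ u, MemLp u 2 (volume : Measure E3) → ∀ ε : ℝ≥0∞, 0 < ε → ∀ᶠ ν in Filter.atTop,
      ∀ᶠ n in Filter.atTop, eLpNorm (R ν n u - u) 2 volume < ε) ∧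
    (∀ (α β : Fin 3 → Fin 3 → ℂ) (z : Fin 3 → E3 → ℂ) (u : Fin 3 → E3 → ℂ) (f : E3 → ℂ),
      (∀ i, ContDiff ℝ ∞ (z i)) → (∀ i, MemLp (u i) 2 (volume : Measure E3)) →
      MemLp f 2 (volume : Measure E3) → WPP α β z u f →
      ∀ ε : ℝ≥0∞, 0 < ε → ∀ᶠ ν in Filter.atTop, ∀ᶠ n in Filter.atTop,
        eLpNorm (fun x => PP α β z (fun i => R ν n (u i)) x - f x) 2 volume < ε) := by
  refine ⟨fun ν n u => mo_16552 n (fun x => eta_16552 ν x * u x), ?_, ?_, ?_⟩
  · intro ν n u hu
    exact ⟨mo_smooth_16552 n _ (eta_mem_16552 ν u hu),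
      mo_cs_16552 n _ (eta_cs_16552 ν).mul_right, Set.subset_univ _⟩
  · intro u hu ε hε
    have := comb_16552 (fun ν n => mo_16552 n (fun x => eta_16552 ν x * u x))
      (fun ν x => eta_16552 ν x * u x) u
      (fun ν n => (mo_smooth_16552 n _ (eta_mem_16552 ν u hu)).continuous.aestronglyMeasurable)
      (fun ν => (eta_mem_16552 ν u hu).1) hu.1
      (fun ν => mo_tendsto_16552 _ (eta_mem_16552 ν u hu)) (eta_tendsto_16552 u hu) ε hε
    exact this
  · intro α β z u f hz hu hf hW ε hε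
    have hzη : ∀ ν i, MemLp (fun x => z i x * (eta_16552 ν x * u i x)) 2 volume := by
      intro ν i
      have hc : Continuous (fun x => z i x * eta_16552 ν x) :=
        (hz i).continuous.mul (eta_smooth_16552 ν).continuous
      obtain ⟨C, hC⟩ := hc.bounded_above_of_compact_support (eta_cs_16552 ν).mul_left
      have h := memLp_cmul_16552 _ (u i) hc C hC (hu i)
      have e : (fun x => z i x * (eta_16552 ν x * u i x)) =
          fun x => (z i x * eta_16552 ν x) * u i x := by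
        funext x; ring
      rw [e]
      exact h
    have hD : ∀ ν i, MemLp (fun x => DD_16552 (α i) (β i) (eta_16552 ν) x * u i x) 2 volume := by
      intro ν i
      have hc := DD_cont_16552 (α i) (β i) _ (eta_smooth_16552 ν)
      obtain ⟨C, hC⟩ := hc.bounded_above_of_compact_support (DD_cs_16552 _ _ _ (eta_cs_16552 ν))
      exact memLp_cmul_16552 _ (u i) hc C hC (hu i)
    have hF : ∀ ν, MemLp (fun x => eta_16552 ν x * f x +
        ∑ i, DD_16552 (α i) (β i) (eta_16552 ν) x * u i x) 2 volume := by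
      intro ν
      exact (eta_mem_16552 ν f hf).add (memLp_finsetSum _ fun i _ => hD ν i)
    have hPPm : ∀ ν n, AEStronglyMeasurable (fun x => PP α β z
        (fun i => mo_16552 n (fun x => eta_16552 ν x * u i x)) x) volume := by
      intro ν n
      have hc : Continuous (fun x => PP α β z
        (fun i => mo_16552 n (fun x => eta_16552 ν x * u i x)) x) := by
        simp only [PP_eq_16552]
        refine continuous_finsetSum _ fun i _ => ?_
        have hs := mo_smooth_16552 n _ (eta_mem_16552 ν (u i) (hu i))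
        exact (DD_cont_16552 _ _ _ hs).add ((hz i).continuous.mul hs.continuous)
      exact hc.aestronglyMeasurable
    refine comb_16552 (fun ν n x => PP α β z
        (fun i => mo_16552 n (fun x => eta_16552 ν x * u i x)) x)
      (fun ν x => eta_16552 ν x * f x +
        ∑ i, DD_16552 (α i) (β i) (eta_16552 ν) x * u i x) f hPPm (fun ν => (hF ν).1) hf.1
      (fun ν => ?_) (T2_16552 α β u f hu hf) ε hε
    refine T1_16552 α β z (fun i x => eta_16552 ν x * u i x) _ (fun i => (hz i).continuous)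
      (fun i => eta_mem_16552 ν (u i) (hu i)) (hzη ν) (hF ν) (2 * ((ν:ℝ) + 1)) ?_
      (WPP_loc_16552 α β z u f hz hu hf hW _ (eta_smooth_16552 ν))
    intro i x hx
    rw [eta_zero_16552 ν x hx, zero_mul]

end DbarN.JDL
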