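import Pool.Agent.H314.DN.Stmts4
import Pool.Agent.H314.DN.CA1
import Pool.Agent.H314.DN.CA2

set_option autoImplicit false

open MeasureTheory Complex Filter Topology
open scoped ContDiff InnerProductSpace ENNReal ComplexConjugate

namespace DbarN.JFI

open DbarN.JCA1 DbarN.JCA2


/-- Cauchy–Schwarz -/
theorem fiA_cs {α : Type*} [MeasurableSpace α] (P : Measure α) (f g : α → ℂ)
    (hf : MemLp f 2 P) (hg : MemLp g 2 P) :
    ‖∫ x, f x * g x ∂P‖ ^ 2 ≤ (∫ x, ‖f x‖ ^ 2 ∂P) * ∫ x, ‖g x‖ ^ 2 ∂P := by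
  have hpq : (2:ℝ).HolderConjugate 2 := Real.HolderConjugate.two_two
  have h2 : ENNReal.ofReal 2 = 2 := by norm_num
  have h1 := integral_mul_norm_le_Lp_mul_Lq hpq (by rw [h2]; exact hf) (by rw [h2]; exact hg)
  have hnn1 : 0 ≤ ∫ x, ‖f x‖ ^ 2 ∂P := integral_nonneg fun x => by positivity
  have hnn2 : 0 ≤ ∫ x, ‖g x‖ ^ 2 ∂P := integral_nonneg fun x => by positivity
  have h3 : ‖∫ x, f x * g x ∂P‖ ≤
      Real.sqrt (∫ x, ‖f x‖ ^ 2 ∂P) * Real.sqrt (∫ x, ‖g x‖ ^ 2 ∂P) := by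
    calc ‖∫ x, f x * g x ∂P‖ ≤ ∫ x, ‖f x * g x‖ ∂P := norm_integral_le_integral_norm _
      _ = ∫ x, ‖f x‖ * ‖g x‖ ∂P := by simp only [norm_mul]
      _ ≤ _ := h1
      _ = _ := by
        simp only [Real.sqrt_eq_rpow, Real.rpow_two]
  calc ‖∫ x, f x * g x ∂P‖ ^ 2
      ≤ (Real.sqrt (∫ x, ‖f x‖ ^ 2 ∂P) * Real.sqrt (∫ x, ‖g x‖ ^ 2 ∂P)) ^ 2 := by
        gcongr
    _ = _ := by rw [mul_pow, Real.sq_sqrt hnn1, Real.sq_sqrt hnn2]

lemma j19564_jensen {β : Type*} [MeasurableSpace β] (ν : Measure β) [IsProbabilityMeasure ν]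
    (h : β → ℂ) (hh : MemLp h 2 ν) : ‖∫ s, h s ∂ν‖ ^ 2 ≤ ∫ s, ‖h s‖ ^ 2 ∂ν := by
  have h1 := fiA_cs ν h (fun _ => 1) hh (memLp_const 1)
  simpa using h1

lemma j19564_sqint {β : Type*} [MeasurableSpace β] {ν : Measure β}
    {h : β → ℂ} (hh : MemLp h 2 ν) : Integrable (fun s => ‖h s‖ ^ 2) ν :=
  (memLp_two_iff_integrable_sq_norm hh.1).1 hh

lemma j19564_slice {α β : Type} [MeasurableSpace α] [MeasurableSpace β] (μ : Measure α)
    (ν : Measure β) [IsProbabilityMeasure μ] [IsProbabilityMeasure ν] (f : α → β → ℂ)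
    (hf : MemLp (fun x : α × β => f x.1 x.2) 2 (μ.prod ν)) : ∀ᵐ v ∂μ, MemLp (f v) 2 ν := by
  have h1 := hf.1.prodMk_left
  have h2 := (j19564_sqint hf).prod_right_ae
  filter_upwards [h1, h2] with v h3 h4
  exact (memLp_two_iff_integrable_sq_norm h3).2 h4

lemma j19564_mean {α β : Type} [MeasurableSpace α] [MeasurableSpace β] (μ : Measure α)
    (ν : Measure β) [IsProbabilityMeasure μ] [IsProbabilityMeasure ν] (f : α → β → ℂ)
    (hf : MemLp (fun x : α × β => f x.1 x.2) 2 (μ.prod ν)) :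
    MemLp (fun v => ∫ s, f v s ∂ν) 2 μ := by
  have h1 : AEStronglyMeasurable (fun v => ∫ s, f v s ∂ν) μ := hf.1.integral_prod_right'
  rw [memLp_two_iff_integrable_sq_norm h1]
  have h2 : Integrable (fun v => ∫ s, ‖f v s‖ ^ 2 ∂ν) μ := (j19564_sqint hf).integral_prod_left
  refine Integrable.mono' h2 (h1.norm.pow 2) ?_
  filter_upwards [j19564_slice μ ν f hf] with v hv
  rw [Real.norm_of_nonneg (by positivity)]
  exact j19564_jensen ν _ hv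

lemma j19564_swap {α β : Type} [MeasurableSpace α] [MeasurableSpace β] (μ : Measure α)
    (ν : Measure β) [IsProbabilityMeasure μ] [IsProbabilityMeasure ν] (f : α → β → ℂ)
    (hf : MemLp (fun x : α × β => f x.1 x.2) 2 (μ.prod ν)) :
    MemLp (fun x : β × α => f x.2 x.1) 2 (ν.prod μ) :=
  hf.comp_measurePreserving Measure.measurePreserving_swap

/-- tensorisation of the variance (with a factor 2) -/
theorem fiA_var {α β : Type} [MeasurableSpace α] [MeasurableSpace β] (μ : Measure α)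
    (ν : Measure β) [IsProbabilityMeasure μ] [IsProbabilityMeasure ν] (f : α → β → ℂ)
    (hf : MemLp (fun x : α × β => f x.1 x.2) 2 (μ.prod ν)) (R R' : α → β → ℝ)
    (hR : Integrable (fun x : α × β => R x.1 x.2) (μ.prod ν))
    (hR' : Integrable (fun x : α × β => R' x.1 x.2) (μ.prod ν))
    (h1 : ∀ᵐ v ∂μ, ∫ s, ‖f v s - ∫ s', f v s' ∂ν‖ ^ 2 ∂ν ≤ ∫ s, R v s ∂ν)
    (h2 : ∀ᵐ s ∂ν, ∫ v, ‖f v s - ∫ v', f v' s ∂μ‖ ^ 2 ∂μ ≤ ∫ v, R' v s ∂μ) :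
    ∫ v, ∫ s, ‖f v s - ∫ v', ∫ s', f v' s' ∂ν ∂μ‖ ^ 2 ∂ν ∂μ ≤
      2 * (∫ v, ∫ s, R v s ∂ν ∂μ) + 2 * ∫ v, ∫ s, R' v s ∂ν ∂μ := by
  set a : ℂ := ∫ v', ∫ s', f v' s' ∂ν ∂μ with ha
  set c : α → ℂ := fun v => ∫ s, f v s ∂ν with hc
  set d : β → ℂ := fun s => ∫ v, f v s ∂μ with hd
  have hF1 : Integrable (fun x : α × β => f x.1 x.2) (μ.prod ν) :=
    hf.integrable (by norm_num)
  have hcL : MemLp c 2 μ := j19564_mean μ ν f hf
  have hdL : MemLp d 2 ν := j19564_mean ν μ (fun s v => f v s) (j19564_swap μ ν f hf)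
  have hslice := j19564_slice μ ν f hf
  have hFa : MemLp (fun x : α × β => f x.1 x.2 - a) 2 (μ.prod ν) := hf.sub (memLp_const a)
  have hFd : MemLp (fun x : α × β => f x.1 x.2 - d x.2) 2 (μ.prod ν) := hf.sub (hdL.comp_snd μ)
  have hca : MemLp (fun v => c v - a) 2 μ := hcL.sub (memLp_const a)
  -- first step
  have hstep1 : ∫ v, ∫ s, ‖f v s - a‖ ^ 2 ∂ν ∂μ ≤
      2 * (∫ v, ∫ s, R v s ∂ν ∂μ) + 2 * ∫ v, ‖c v - a‖ ^ 2 ∂μ := by
    rw [← integral_const_mul, ← integral_const_mul, ← integral_add]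
    · refine integral_mono_ae (j19564_sqint hFa).integral_prod_left ?_ ?_
      · exact (hR.integral_prod_left.const_mul 2).add ((j19564_sqint hca).const_mul 2)
      · filter_upwards [hslice, h1] with v hv hv1
        have h3 : ∫ s, ‖f v s - a‖ ^ 2 ∂ν ≤
            ∫ s, (2 * ‖f v s - c v‖ ^ 2 + 2 * ‖c v - a‖ ^ 2) ∂ν := by
          apply integral_mono
          · exact j19564_sqint (hv.sub (memLp_const a))
          · exact ((j19564_sqint (hv.sub (memLp_const (c v)))).const_mul 2).add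
              (integrable_const _)
          · intro s
            have h4 : ‖f v s - a‖ ≤ ‖f v s - c v‖ + ‖c v - a‖ := by
              have := norm_add_le (f v s - c v) (c v - a)
              simpa using this
            have h5 := norm_nonneg (f v s - a)
            simp only
            nlinarith [sq_nonneg (‖f v s - c v‖ - ‖c v - a‖), norm_nonneg (f v s - c v),
              norm_nonneg (c v - a)]
        refine h3.trans ?_
        have k1 : Integrable (fun s => 2 * ‖f v s - c v‖ ^ 2) ν :=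
          (j19564_sqint (hv.sub (memLp_const (c v)))).const_mul 2
        rw [integral_add k1 (integrable_const _), integral_const_mul]
        simp only [integral_const, probReal_univ, smul_eq_mul, one_mul]
        have h6 : ∫ s, ‖f v s - c v‖ ^ 2 ∂ν ≤ ∫ s, R v s ∂ν := hv1
        linarith
    · exact hR.integral_prod_left.const_mul 2
    · exact (j19564_sqint hca).const_mul 2
  -- second step
  have had : a = ∫ s, d s ∂ν := integral_integral_swap hF1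
  have hstep2 : ∫ v, ‖c v - a‖ ^ 2 ∂μ ≤ ∫ v, ∫ s, ‖f v s - d s‖ ^ 2 ∂ν ∂μ := by
    refine integral_mono_ae (j19564_sqint hca) (j19564_sqint hFd).integral_prod_left ?_
    filter_upwards [hslice] with v hv
    have h3 : c v - a = ∫ s, (f v s - d s) ∂ν := by
      rw [had, integral_sub (hv.integrable (by norm_num)) (hdL.integrable (by norm_num))]
    rw [h3]
    exact j19564_jensen ν _ (hv.sub hdL)
  have hstep3 : ∫ v, ∫ s, ‖f v s - d s‖ ^ 2 ∂ν ∂μ ≤ ∫ v, ∫ s, R' v s ∂ν ∂μ := by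
    rw [integral_integral_swap (f := fun v s => ‖f v s - d s‖ ^ 2) (j19564_sqint hFd),
      integral_integral_swap (f := R') hR']
    refine integral_mono_ae (j19564_sqint hFd).integral_prod_right hR'.integral_prod_right ?_
    filter_upwards [h2] with s hs
    exact hs
  linarith

/-- covariance with a function of the second variable -/
theorem fiA_cov {α β : Type} [MeasurableSpace α] [MeasurableSpace β] (μ : Measure α)
    (ν : Measure β) [IsProbabilityMeasure μ] [IsProbabilityMeasure ν] (f : α → β → ℂ)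
    (hf : MemLp (fun x : α × β => f x.1 x.2) 2 (μ.prod ν)) (R : α → β → ℝ)
    (hR : Integrable (fun x : α × β => R x.1 x.2) (μ.prod ν))
    (h1 : ∀ᵐ v ∂μ, ∫ s, ‖f v s - ∫ s', f v s' ∂ν‖ ^ 2 ∂ν ≤ ∫ s, R v s ∂ν)
    (y : β → ℝ) (hy : MemLp y 2 ν) :
    ‖∫ v, ∫ s, (f v s - ∫ v', ∫ s', f v' s' ∂ν ∂μ) * (y s : ℂ) ∂ν ∂μ‖ ^ 2 ≤
      ((∫ s, y s ^ 2 ∂ν) - (∫ s, y s ∂ν) ^ 2) * ∫ v, ∫ s, R v s ∂ν ∂μ := by
  set a : ℂ := ∫ v', ∫ s', f v' s' ∂ν ∂μ with ha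
  set c : α → ℂ := fun v => ∫ s, f v s ∂ν with hc
  set b : ℝ := ∫ s, y s ∂ν with hb
  have hcL : MemLp c 2 μ := j19564_mean μ ν f hf
  have hslice := j19564_slice μ ν f hf
  have hyC : MemLp (fun s => (y s : ℂ)) 2 ν := hy.ofReal
  have hybC : MemLp (fun s => (y s : ℂ) - (b : ℂ)) 2 ν := hyC.sub (memLp_const _)
  have hFc : MemLp (fun x : α × β => f x.1 x.2 - c x.1) 2 (μ.prod ν) := hf.sub (hcL.comp_fst ν)
  have hG : MemLp (fun x : α × β => (y x.2 : ℂ) - (b : ℂ)) 2 (μ.prod ν) :=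
    hybC.comp_snd μ
  have hbC : ∫ s, (y s : ℂ) ∂ν = (b : ℂ) := by
    rw [hb]; exact integral_ofReal
  have hy1 : Integrable (fun s => (y s : ℂ)) ν := hyC.integrable (by norm_num)
  -- the product is integrable
  have hprod : Integrable (fun x : α × β => (f x.1 x.2 - c x.1) * ((y x.2 : ℂ) - (b : ℂ)))
      (μ.prod ν) := hFc.integrable_mul hG
  -- slice identity
  have hid : ∀ᵐ v ∂μ, ∫ s, (f v s - a) * (y s : ℂ) ∂ν =
      (∫ s, (f v s - c v) * ((y s : ℂ) - (b : ℂ)) ∂ν) + (c v - a) * b := by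
    filter_upwards [hslice] with v hv
    have hv1 : Integrable (f v) ν := hv.integrable (by norm_num)
    have h3 : ∀ s, (f v s - a) * (y s : ℂ) = (f v s - c v) * ((y s : ℂ) - (b : ℂ)) +
        ((c v - a) * (y s : ℂ) + (f v s - c v) * b) := by
      intro s; ring
    have i1 : Integrable (fun s => (f v s - c v) * ((y s : ℂ) - (b : ℂ))) ν :=
      (hv.sub (memLp_const (c v))).integrable_mul hybC
    have i2 : Integrable (fun s => (c v - a) * (y s : ℂ)) ν := hy1.const_mul _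
    have i3 : Integrable (fun s => (f v s - c v) * (b : ℂ)) ν :=
      (hv1.sub (integrable_const _)).mul_const _
    have i4 : Integrable (fun s => (c v - a) * (y s : ℂ) + (f v s - c v) * b) ν := i2.add i3
    rw [integral_congr_ae (Eventually.of_forall h3), integral_add i1 i4, integral_add i2 i3,
      integral_const_mul, integral_mul_const, integral_sub hv1 (integrable_const _), hbC]
    simp only [integral_const, probReal_univ, one_smul, hc, sub_self, zero_mul, add_zero]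
  have hI : ∫ v, ∫ s, (f v s - a) * (y s : ℂ) ∂ν ∂μ =
      ∫ x : α × β, (f x.1 x.2 - c x.1) * ((y x.2 : ℂ) - (b : ℂ)) ∂(μ.prod ν) := by
    have k1 : Integrable (fun v => ∫ s, (f v s - c v) * ((y s : ℂ) - (b : ℂ)) ∂ν) μ :=
      hprod.integral_prod_left
    have k2 : Integrable (fun v => (c v - a) * (b : ℂ)) μ :=
      ((hcL.integrable (by norm_num)).sub (integrable_const _)).mul_const _
    rw [integral_congr_ae hid, integral_prod _ hprod, integral_add k1 k2]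
    have h4 : ∫ v, (c v - a) * (b : ℂ) ∂μ = 0 := by
      rw [integral_mul_const, integral_sub (hcL.integrable (by norm_num)) (integrable_const _)]
      simp only [integral_const, probReal_univ, one_smul]
      rw [ha]
      simp only [hc, sub_self, zero_mul]
    rw [h4, add_zero]
  rw [hI]
  refine (fiA_cs (μ.prod ν) _ _ hFc hG).trans ?_
  have hA : ∫ x : α × β, ‖f x.1 x.2 - c x.1‖ ^ 2 ∂(μ.prod ν) ≤ ∫ v, ∫ s, R v s ∂ν ∂μ := by
    rw [integral_prod _ (j19564_sqint hFc)]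
    refine integral_mono_ae (j19564_sqint hFc).integral_prod_left hR.integral_prod_left ?_
    filter_upwards [h1] with v hv
    exact hv
  have hB : ∫ x : α × β, ‖(y x.2 : ℂ) - (b : ℂ)‖ ^ 2 ∂(μ.prod ν) =
      (∫ s, y s ^ 2 ∂ν) - b ^ 2 := by
    rw [integral_prod _ (j19564_sqint hG)]
    simp only [integral_const, probReal_univ, one_smul]
    have h5 : ∀ s, ‖(y s : ℂ) - (b : ℂ)‖ ^ 2 = y s ^ 2 - (2 * b) * y s + b ^ 2 := by
      intro s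
      rw [← Complex.ofReal_sub, Complex.norm_real, Real.norm_eq_abs, sq_abs]
      ring
    have j1 : Integrable (fun s => y s ^ 2) ν := hy.integrable_sq
    have j2 : Integrable (fun s => (2 * b) * y s) ν := (hy.integrable (by norm_num)).const_mul _
    simp only [h5]
    have j3 : Integrable (fun s => y s ^ 2 - (2 * b) * y s) ν := j1.sub j2
    rw [integral_add j3 (integrable_const _), integral_sub j1 j2, integral_const_mul,
      ← hb]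
    simp only [integral_const, probReal_univ, one_smul]
    ring
  have hBnn : 0 ≤ ∫ x : α × β, ‖(y x.2 : ℂ) - (b : ℂ)‖ ^ 2 ∂(μ.prod ν) :=
    integral_nonneg fun x => by positivity
  calc (∫ x : α × β, ‖f x.1 x.2 - c x.1‖ ^ 2 ∂(μ.prod ν)) *
        ∫ x : α × β, ‖(y x.2 : ℂ) - (b : ℂ)‖ ^ 2 ∂(μ.prod ν)
      ≤ (∫ v, ∫ s, R v s ∂ν ∂μ) * ∫ x : α × β, ‖(y x.2 : ℂ) - (b : ℂ)‖ ^ 2 ∂(μ.prod ν) :=
        mul_le_mul_of_nonneg_right hA hBnn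
    _ = _ := by rw [hB, mul_comm]





theorem exp_deriv565 (c : ℂ) : HasDerivAt (fun θ : ℝ => Complex.exp ((θ : ℂ) * c)) c 0 := by
  have h1 : HasDerivAt (fun θ : ℝ => (θ : ℂ) * c) c 0 := by
    have h2 : HasDerivAt (fun θ : ℝ => (θ : ℂ)) 1 0 := by
      simpa using (hasDerivAt_id (0:ℝ)).ofReal_comp
    simpa using h2.mul_const c
  have h3 := h1.cexp
  simpa using h3

theorem mode1_565 (j k : ℕ) (F : E3 → ℂ) (hF : ContDiff ℝ ∞ F) (hm : IsModeFn j k F) (x : E3)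
    (r : ℝ) (hr : 0 < r) (hx : x 1 = (r : ℂ)) :
    fderiv ℝ F x (Pi.single 1 1) = 2 * dbar 1 F x + (j / r : ℂ) * F x := by
  have hFd : Differentiable ℝ F := hF.differentiable (by simp)
  have hrot : HasDerivAt (fun θ : ℝ => rot θ 0 x) (Pi.single 1 (I * x 1)) 0 := by
    rw [hasDerivAt_pi]
    intro i
    fin_cases i
    · simpa [rot] using hasDerivAt_const (0:ℝ) (x 0)
    · have h1 := (exp_deriv565 I).mul_const (x 1)
      simpa [rot] using h1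
    · simpa [rot] using hasDerivAt_const (0:ℝ) (x 2)
  have hrot0 : rot 0 0 x = x := by
    funext i
    fin_cases i <;> simp [rot]
  have h1 : HasDerivAt (fun θ : ℝ => F (rot θ 0 x)) (fderiv ℝ F x (Pi.single 1 (I * x 1))) 0 := by
    have h2 := (hFd (rot 0 0 x)).hasFDerivAt.comp_hasDerivAt (0:ℝ) hrot
    rw [hrot0] at h2
    exact h2
  have h3 : HasDerivAt (fun θ : ℝ => F (rot θ 0 x)) (I * j * F x) 0 := by
    have h4 := (exp_deriv565 (I * j)).mul_const (F x)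
    have h5 : (fun θ : ℝ => F (rot θ 0 x)) = fun θ : ℝ => Complex.exp ((θ : ℂ) * (I * j)) * F x := by
      funext θ
      rw [hm θ 0 x]
      congr 2
      push_cast
      ring
    rw [h5]
    exact h4
  have h6 := h1.unique h3
  have h7 : (Pi.single 1 (I * x 1) : E3) = r • (Pi.single 1 I : E3) := by
    funext i
    fin_cases i <;> simp [hx, mul_comm]
  rw [h7, map_smul, Complex.real_smul] at h6
  have hrc : (r : ℂ) ≠ 0 := by exact_mod_cast hr.ne'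
  have h8 : fderiv ℝ F x (Pi.single 1 I) = I * j * F x / r := by
    rw [eq_div_iff hrc, mul_comm]
    exact h6
  unfold dbar
  rw [h8]
  have hI := Complex.I_mul_I
  field_simp
  linear_combination (-(j : ℂ) * F x) * hI

theorem mode2_565 (j k : ℕ) (F : E3 → ℂ) (hF : ContDiff ℝ ∞ F) (hm : IsModeFn j k F) (x : E3)
    (r : ℝ) (hr : 0 < r) (hx : x 2 = (r : ℂ)) :
    fderiv ℝ F x (Pi.single 2 1) = 2 * dbar 2 F x + (k / r : ℂ) * F x := by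
  have hFd : Differentiable ℝ F := hF.differentiable (by simp)
  have hrot : HasDerivAt (fun θ : ℝ => rot 0 θ x) (Pi.single 2 (I * x 2)) 0 := by
    rw [hasDerivAt_pi]
    intro i
    fin_cases i
    · simpa [rot] using hasDerivAt_const (0:ℝ) (x 0)
    · simpa [rot] using hasDerivAt_const (0:ℝ) (x 1)
    · have h1 := (exp_deriv565 I).mul_const (x 2)
      simpa [rot] using h1
  have hrot0 : rot 0 0 x = x := by
    funext i
    fin_cases i <;> simp [rot]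
  have h1 : HasDerivAt (fun θ : ℝ => F (rot 0 θ x)) (fderiv ℝ F x (Pi.single 2 (I * x 2))) 0 := by
    have h2 := (hFd (rot 0 0 x)).hasFDerivAt.comp_hasDerivAt (0:ℝ) hrot
    rw [hrot0] at h2
    exact h2
  have h3 : HasDerivAt (fun θ : ℝ => F (rot 0 θ x)) (I * k * F x) 0 := by
    have h4 := (exp_deriv565 (I * k)).mul_const (F x)
    have h5 : (fun θ : ℝ => F (rot 0 θ x)) = fun θ : ℝ => Complex.exp ((θ : ℂ) * (I * k)) * F x := by
      funext θ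
      rw [hm 0 θ x]
      congr 2
      push_cast
      ring
    rw [h5]
    exact h4
  have h6 := h1.unique h3
  have h7 : (Pi.single 2 (I * x 2) : E3) = r • (Pi.single 2 I : E3) := by
    funext i
    fin_cases i <;> simp [hx, mul_comm]
  rw [h7, map_smul, Complex.real_smul] at h6
  have hrc : (r : ℂ) ≠ 0 := by exact_mod_cast hr.ne'
  have h8 : fderiv ℝ F x (Pi.single 2 I) = I * k * F x / r := by
    rw [eq_div_iff hrc, mul_comm]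
    exact h6
  unfold dbar
  rw [h8]
  have hI := Complex.I_mul_I
  field_simp
  linear_combination (-(k : ℂ) * F x) * hI

theorem curve565 (j k : ℕ) (F : E3 → ℂ) (hF : ContDiff ℝ ∞ F) (hm : IsModeFn j k F) (z : ℂ)
    (rr σσ : ℝ → ℝ) (r' σ' u : ℝ) (h1 : HasDerivAt rr r' u) (h2 : HasDerivAt σσ σ' u)
    (hr : 0 < rr u) (hσ : 0 < σσ u) :
    HasDerivAt (fun u => F ![z, (rr u : ℂ), (σσ u : ℂ)] / ((rr u ^ j * σσ u ^ k : ℝ) : ℂ))
      (2 * (dbar 1 F ![z, (rr u : ℂ), (σσ u : ℂ)] / ((rr u ^ j * σσ u ^ k : ℝ) : ℂ)) * (r' : ℂ) +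
       2 * (dbar 2 F ![z, (rr u : ℂ), (σσ u : ℂ)] / ((rr u ^ j * σσ u ^ k : ℝ) : ℂ)) * (σ' : ℂ))
      u := by
  have hFd : Differentiable ℝ F := hF.differentiable (by simp)
  have hP : HasDerivAt (fun u => (![z, (rr u : ℂ), (σσ u : ℂ)] : E3))
      (![0, (r' : ℂ), (σ' : ℂ)] : E3) u := by
    rw [hasDerivAt_pi]
    intro i
    fin_cases i
    · exact hasDerivAt_const u z
    · exact h1.ofReal_comp
    · exact h2.ofReal_comp
  have hFP := (hFd _).hasFDerivAt.comp_hasDerivAt u hP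
  have hv : (![0, (r' : ℂ), (σ' : ℂ)] : E3) = r' • (Pi.single 1 1 : E3) + σ' • (Pi.single 2 1 : E3) := by
    funext i
    fin_cases i <;> simp
  rw [hv, map_add, map_smul, map_smul, Complex.real_smul, Complex.real_smul,
    mode1_565 j k F hF hm _ (rr u) hr rfl, mode2_565 j k F hF hm _ (σσ u) hσ rfl] at hFP
  have hmo : HasDerivAt (fun u => rr u ^ j * σσ u ^ k)
      ((rr u ^ j * σσ u ^ k) * (j * r' / rr u + k * σ' / σσ u)) u := by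
    have h3 := (h1.fun_pow j).mul (h2.fun_pow k)
    refine h3.congr_deriv ?_
    have e1 : (j : ℝ) * rr u ^ (j - 1) = rr u ^ j * (j / rr u) := by
      rcases Nat.eq_zero_or_pos j with hj | hj
      · simp [hj]
      · have : rr u ^ j = rr u ^ (j - 1) * rr u := by rw [← pow_succ, Nat.sub_add_cancel hj]
        rw [this]
        field_simp
    have e2 : (k : ℝ) * σσ u ^ (k - 1) = σσ u ^ k * (k / σσ u) := by
      rcases Nat.eq_zero_or_pos k with hj | hj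
      · simp [hj]
      · have : σσ u ^ k = σσ u ^ (k - 1) * σσ u := by rw [← pow_succ, Nat.sub_add_cancel hj]
        rw [this]
        field_simp
    simp only [e1, e2]
    ring
  have hmc := hmo.ofReal_comp
  have hne : ((rr u ^ j * σσ u ^ k : ℝ) : ℂ) ≠ 0 := by
    have : rr u ^ j * σσ u ^ k ≠ 0 := by positivity
    exact_mod_cast this
  have hq := hFP.div hmc hne
  refine hq.congr_deriv ?_
  have hrc : (rr u : ℂ) ≠ 0 := by exact_mod_cast hr.ne'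
  have hσc : (σσ u : ℂ) ≠ 0 := by exact_mod_cast hσ.ne'
  simp only [Function.comp_apply]
  generalize F ![z, (rr u : ℂ), (σσ u : ℂ)] = f
  generalize dbar 1 F ![z, (rr u : ℂ), (σσ u : ℂ)] = d1
  generalize dbar 2 F ![z, (rr u : ℂ), (σσ u : ℂ)] = d2
  have hcast : (((rr u ^ j * σσ u ^ k) * (j * r' / rr u + k * σ' / σσ u) : ℝ) : ℂ) =
      ((rr u ^ j * σσ u ^ k : ℝ) : ℂ) * (j * r' / rr u + k * σ' / σσ u) := by push_cast; rfl
  rw [hcast]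
  generalize ((rr u ^ j * σσ u ^ k : ℝ) : ℂ) = m at hne ⊢
  field_simp
  ring

/-- derivatives of `cc` along the fibre -/
theorem fiC (e k1 l1 : ℝ) (hp : ParOK e k1 l1) (j k : ℕ) (F : E3 → ℂ) (hF : ContDiff ℝ ∞ F)
    (hm : IsModeFn j k F) (z : ℂ) (hz : z ∈ BB k1 l1) (v s : ℝ) (hv : 0 < v) (hs : 0 < s)
    (hs1 : s < 1) :
    HasDerivAt (fun v => cc e k1 l1 j k F z v s)
      (2 * GG e k1 l1 j k F 1 z v s *
        ((e * Real.sqrt (1 + XX k1 l1 (‖z‖ ^ 2) s) : ℝ) : ℂ)) v ∧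
    HasDerivAt (fun s => cc e k1 l1 j k F z v s)
      (2 * GG e k1 l1 j k F 1 z v s *
        ((e * v * (Xs k1 l1 (‖z‖ ^ 2) s / (2 * Real.sqrt (1 + XX k1 l1 (‖z‖ ^ 2) s))) : ℝ) : ℂ) +
      2 * GG e k1 l1 j k F 2 z v s * ((e * Real.sqrt (dl k1 l1 (‖z‖ ^ 2)) : ℝ) : ℂ)) s := by
  have he := hp.he
  have hk := hp.hk
  have hl : 0 < l1 := by linarith [hp.hl]
  have ht : ‖z‖ ^ 2 < tB k1 l1 := hz
  have ht2 : ‖z‖ ^ 2 < 2 := by
    have h1 : tB k1 l1 ≤ 2 := by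
      unfold tB
      have h2 : k1 / l1 ≤ 1 := by
        rw [div_le_one hl]
        linarith [hp.hk1, hp.hl]
      linarith
    linarith
  obtain ⟨-, hX, -, -, -, -, hXs, -, -⟩ := X_derivs (k1 := k1) (l1 := l1) (‖z‖ ^ 2) s hs.le hs1
    (Lm_hasDerivAt hk hl ht) (Lm1_hasDerivAt hk hl ht) (Lm_nonneg hk hl ht) ht2
  have hdl := dl_pos hk hl ht
  have hD : 0 < Real.sqrt (dl k1 l1 (‖z‖ ^ 2)) := Real.sqrt_pos.2 hdl
  have hρ : 0 < Real.sqrt (1 + XX k1 l1 (‖z‖ ^ 2) s) := Real.sqrt_pos.2 (by linarith)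
  constructor
  · have h1 : HasDerivAt (fun v : ℝ => e * v * Real.sqrt (1 + XX k1 l1 (‖z‖ ^ 2) s))
        (e * Real.sqrt (1 + XX k1 l1 (‖z‖ ^ 2) s)) v := by
      have := ((hasDerivAt_id v).const_mul e).mul_const (Real.sqrt (1 + XX k1 l1 (‖z‖ ^ 2) s))
      simpa using this
    have h2 : HasDerivAt (fun _ : ℝ => e * Real.sqrt (dl k1 l1 (‖z‖ ^ 2)) * s) 0 v :=
      hasDerivAt_const v _
    have h3 := curve565 j k F hF hm z _ _ _ _ v h1 h2 (by positivity) (by positivity)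
    refine h3.congr_deriv ?_
    rw [Complex.ofReal_zero, mul_zero, add_zero]
    rfl
  · have h0 : HasDerivAt (fun s => Real.sqrt (1 + XX k1 l1 (‖z‖ ^ 2) s))
        (Xs k1 l1 (‖z‖ ^ 2) s / (2 * Real.sqrt (1 + XX k1 l1 (‖z‖ ^ 2) s))) s :=
      (hXs.const_add 1).sqrt (by linarith)
    have h1 : HasDerivAt (fun s : ℝ => e * v * Real.sqrt (1 + XX k1 l1 (‖z‖ ^ 2) s))
        (e * v * (Xs k1 l1 (‖z‖ ^ 2) s / (2 * Real.sqrt (1 + XX k1 l1 (‖z‖ ^ 2) s)))) s :=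
      h0.const_mul (e * v)
    have h2 : HasDerivAt (fun s : ℝ => e * Real.sqrt (dl k1 l1 (‖z‖ ^ 2)) * s)
        (e * Real.sqrt (dl k1 l1 (‖z‖ ^ 2))) s := by
      have := (hasDerivAt_id s).const_mul (e * Real.sqrt (dl k1 l1 (‖z‖ ^ 2)))
      simpa using this
    exact curve565 j k F hF hm z _ _ _ _ s h1 h2 (by positivity) (by positivity)


/-! ### setup: the fibre measures -/

section setup

variable {e k1 l1 : ℝ} {j k : ℕ} {t : ℝ}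

theorem fi_tB (hp : ParOK e k1 l1) {t : ℝ} (ht : t < tB k1 l1) : t < 2 := by
  have h1 : k1 / l1 ≤ 1 := by
    rw [div_le_one (by linarith [hp.hl])]
    linarith [hp.hl, hp.hk1]
  have h2 : tB k1 l1 = 1 + k1 / l1 := rfl
  have h3 : k1 / l1 ≤ 1 / 100 := by
    rw [div_le_div_iff₀ (by linarith [hp.hl]) (by norm_num)]
    nlinarith [hp.hl, hp.hk1]
  linarith

theorem fi_X (hp : ParOK e k1 l1) (ht0 : 0 ≤ t) (ht : t < tB k1 l1) {s : ℝ} (h0 : 0 ≤ s)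
    (h1 : s < 1) : 100 ≤ el k1 l1 t s ∧ 0 < XX k1 l1 t s ∧ XX k1 l1 t s ≤ 1 / 50 := by
  have hl : 0 < l1 := by linarith [hp.hl]
  obtain ⟨a, b, -⟩ := X_derivs (k1 := k1) (l1 := l1) t s h0 h1 (Lm_hasDerivAt hp.hk hl ht)
    (Lm1_hasDerivAt hp.hk hl ht) (Lm_nonneg hp.hk hl ht) (fi_tB hp ht)
  refine ⟨a, b, ?_⟩
  have : XX k1 l1 t s = (2 - t) / el k1 l1 t s := rfl
  rw [this, div_le_div_iff₀ (by linarith) (by norm_num)]
  linarith

theorem fi_den_meas : Measurable (fun s => den k1 l1 j k t s) := by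
  unfold den XX el tau
  fun_prop

theorem fi_den (hp : ParOK e k1 l1) (ht0 : 0 ≤ t) (ht : t < tB k1 l1) {s : ℝ}
    (h0 : 0 < s) (h1 : s < 1) : s ^ (2 * k + 1) ≤ den k1 l1 j k t s ∧
    den k1 l1 j k t s ≤ 2 ^ (j + 1) := by
  obtain ⟨-, a, b⟩ := fi_X hp ht0 ht h0.le h1
  have h2 : 0 < s ^ (2 * k + 1) := by positivity
  have h3 : s ^ (2 * k + 1) ≤ 1 := pow_le_one₀ h0.le h1.le
  have h4 : 1 ≤ (1 + XX k1 l1 t s) ^ (j + 1) := one_le_pow₀ (by linarith)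
  have h5 : (1 + XX k1 l1 t s) ^ (j + 1) ≤ 2 ^ (j + 1) :=
    pow_le_pow_left₀ (by linarith) (by linarith) _
  unfold den
  constructor
  · nlinarith
  · calc s ^ (2 * k + 1) * (1 + XX k1 l1 t s) ^ (j + 1) ≤ 1 * 2 ^ (j + 1) :=
        mul_le_mul h3 h5 (by linarith) zero_le_one
      _ = _ := one_mul _

theorem fi_den_pos (hp : ParOK e k1 l1) (ht0 : 0 ≤ t) (ht : t < tB k1 l1) {s : ℝ}
    (h0 : 0 < s) (h1 : s < 1) : 0 < den k1 l1 j k t s :=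
  lt_of_lt_of_le (by positivity) (fi_den (j := j) (k := k) hp ht0 ht h0 h1).1

theorem fi_den_int (hp : ParOK e k1 l1) (ht0 : 0 ≤ t) (ht : t < tB k1 l1) :
    IntegrableOn (fun s => den k1 l1 j k t s) (Set.Ioo (0 : ℝ) 1) := by
  refine Measure.integrableOn_of_bounded (M := 2 ^ (j + 1)) (by simp)
    fi_den_meas.aestronglyMeasurable ?_
  refine (ae_restrict_mem measurableSet_Ioo).mono fun s hs => ?_
  rw [Real.norm_eq_abs, abs_of_pos (fi_den_pos hp ht0 ht hs.1 hs.2)]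
  exact (fi_den hp ht0 ht hs.1 hs.2).2

theorem fi_pow_int (n : ℕ) : ∫ v in Set.Ioo (0 : ℝ) 1, v ^ n = 1 / (n + 1) := by
  rw [← integral_Ioc_eq_integral_Ioo, ← intervalIntegral.integral_of_le zero_le_one, integral_pow]
  simp

theorem fi_pow_intOn (n : ℕ) : IntegrableOn (fun v : ℝ => v ^ n) (Set.Ioo (0 : ℝ) 1) := by
  refine Measure.integrableOn_of_bounded (M := 1) (by simp)
    (measurable_id.pow_const n).aestronglyMeasurable ?_
  refine (ae_restrict_mem measurableSet_Ioo).mono fun s hs => ?_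
  rw [Real.norm_eq_abs, abs_of_nonneg (pow_nonneg hs.1.le n)]
  exact pow_le_one₀ hs.1.le hs.2.le

theorem fi_Iw (hp : ParOK e k1 l1) (ht0 : 0 ≤ t) (ht : t < tB k1 l1) : 0 < Iw k1 l1 j k t := by
  have h1 : ∫ s in Set.Ioo (0 : ℝ) 1, s ^ (2 * k + 1) ≤ Iw k1 l1 j k t := by
    unfold Iw
    exact setIntegral_mono_on (fi_pow_intOn _) (fi_den_int hp ht0 ht) measurableSet_Ioo
      fun s hs => (fi_den hp ht0 ht hs.1 hs.2).1
  rw [fi_pow_int] at h1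
  exact lt_of_lt_of_le (by positivity) h1

/-- weight in `v` -/
noncomputable def wvF (j : ℕ) (v : ℝ) : NNReal := Real.toNNReal (v ^ (2 * j + 1) * (2 * j + 2))

/-- weight in `s` -/
noncomputable def wsF (k1 l1 : ℝ) (j k : ℕ) (t s : ℝ) : NNReal :=
  Real.toNNReal (den k1 l1 j k t s / Iw k1 l1 j k t)

/-- fibre measure in `v` -/
noncomputable def mvF (j : ℕ) : Measure ℝ :=
  (volume.restrict (Set.Ioo (0 : ℝ) 1)).withDensity (fun v => (wvF j v : ℝ≥0∞))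

/-- fibre measure in `s` -/
noncomputable def msF (k1 l1 : ℝ) (j k : ℕ) (t : ℝ) : Measure ℝ :=
  (volume.restrict (Set.Ioo (0 : ℝ) 1)).withDensity (fun s => (wsF k1 l1 j k t s : ℝ≥0∞))

theorem wvF_meas : Measurable (wvF j) := by
  unfold wvF
  fun_prop

theorem wsF_meas : Measurable (wsF k1 l1 j k t) :=
  (fi_den_meas.div_const _).real_toNNReal

theorem mvF_ac : mvF j ≪ volume.restrict (Set.Ioo (0 : ℝ) 1) := withDensity_absolutelyContinuous _ _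

theorem msF_ac : msF k1 l1 j k t ≪ volume.restrict (Set.Ioo (0 : ℝ) 1) :=
  withDensity_absolutelyContinuous _ _

theorem mvF_int {E : Type*} [NormedAddCommGroup E] [NormedSpace ℝ E] (f : ℝ → E) :
    ∫ v, f v ∂(mvF j) = ∫ v in Set.Ioo (0 : ℝ) 1, (v ^ (2 * j + 1) * (2 * j + 2)) • f v := by
  rw [mvF, integral_withDensity_eq_integral_smul wvF_meas]
  refine setIntegral_congr_fun measurableSet_Ioo fun v hv => ?_
  have hv0 := hv.1
  change (wvF j v : ℝ) • f v = _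
  rw [wvF, Real.coe_toNNReal _ (by positivity)]

theorem msF_int {E : Type*} [NormedAddCommGroup E] [NormedSpace ℝ E] (hp : ParOK e k1 l1)
    (ht0 : 0 ≤ t) (ht : t < tB k1 l1) (f : ℝ → E) :
    ∫ s, f s ∂(msF k1 l1 j k t) =
      ∫ s in Set.Ioo (0 : ℝ) 1, (den k1 l1 j k t s / Iw k1 l1 j k t) • f s := by
  rw [msF, integral_withDensity_eq_integral_smul wsF_meas]
  refine setIntegral_congr_fun measurableSet_Ioo fun s hs => ?_
  change (wsF k1 l1 j k t s : ℝ) • f s = _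
  rw [wsF, Real.coe_toNNReal _ (div_nonneg (fi_den_pos hp ht0 ht hs.1 hs.2).le
    (fi_Iw hp ht0 ht).le)]

theorem mvF_prob : IsProbabilityMeasure (mvF j) := by
  constructor
  have h1 : ∫ v in Set.Ioo (0 : ℝ) 1, (v ^ (2 * j + 1) * (2 * j + 2)) = 1 := by
    rw [integral_mul_const, fi_pow_int]
    push_cast
    field_simp
    ring
  rw [mvF, withDensity_apply _ MeasurableSet.univ, Measure.restrict_univ]
  have h2 := ofReal_integral_eq_lintegral_ofReal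
    (μ := volume.restrict (Set.Ioo (0 : ℝ) 1)) (f := fun v => v ^ (2 * j + 1) * (2 * j + 2))
    ((fi_pow_intOn _).mul_const _) ((ae_restrict_mem measurableSet_Ioo).mono fun s hs => by
      have := hs.1
      simp only [Pi.zero_apply]
      positivity)
  rw [h1, ENNReal.ofReal_one] at h2
  exact h2.symm

theorem msF_prob (hp : ParOK e k1 l1) (ht0 : 0 ≤ t) (ht : t < tB k1 l1) :
    IsProbabilityMeasure (msF k1 l1 j k t) := by
  constructor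
  have hI := fi_Iw (j := j) (k := k) hp ht0 ht
  have h1 : ∫ s in Set.Ioo (0 : ℝ) 1, (den k1 l1 j k t s / Iw k1 l1 j k t) = 1 := by
    rw [integral_div]
    exact div_self hI.ne'
  rw [msF, withDensity_apply _ MeasurableSet.univ, Measure.restrict_univ]
  have h2 := ofReal_integral_eq_lintegral_ofReal
    (μ := volume.restrict (Set.Ioo (0 : ℝ) 1)) (f := fun s => den k1 l1 j k t s / Iw k1 l1 j k t)
    ((fi_den_int hp ht0 ht).div_const _) ((ae_restrict_mem measurableSet_Ioo).mono fun s hs => by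
      simp only [Pi.zero_apply]
      exact div_nonneg (fi_den_pos hp ht0 ht hs.1 hs.2).le hI.le)
  rw [h1, ENNReal.ofReal_one] at h2
  exact h2.symm

theorem EE_eq (hp : ParOK e k1 l1) (ht0 : 0 ≤ t) (ht : t < tB k1 l1) (H : ℝ → ℝ → ℝ) :
    EE k1 l1 j k t H = ∫ v, ∫ s, H v s ∂(msF k1 l1 j k t) ∂(mvF j) := by
  have hI := fi_Iw (j := j) (k := k) hp ht0 ht
  rw [mvF_int, EE, ← integral_mul_const]
  refine setIntegral_congr_fun measurableSet_Ioo fun v _ => ?_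
  rw [msF_int hp ht0 ht, ← integral_smul, ← integral_mul_const]
  refine setIntegral_congr_fun measurableSet_Ioo fun s _ => ?_
  simp only [smul_eq_mul]
  field_simp

theorem EC_eq (hp : ParOK e k1 l1) (ht0 : 0 ≤ t) (ht : t < tB k1 l1) (H : ℝ → ℝ → ℂ) :
    EC k1 l1 j k t H = ∫ v, ∫ s, H v s ∂(msF k1 l1 j k t) ∂(mvF j) := by
  have hI := fi_Iw (j := j) (k := k) hp ht0 ht
  have hIc : ((Iw k1 l1 j k t : ℝ) : ℂ) ≠ 0 := by exact_mod_cast hI.ne'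
  rw [mvF_int, EC, ← integral_mul_const]
  refine setIntegral_congr_fun measurableSet_Ioo fun v _ => ?_
  rw [msF_int hp ht0 ht, ← integral_smul, ← integral_mul_const]
  refine setIntegral_congr_fun measurableSet_Ioo fun s _ => ?_
  simp only [Complex.real_smul]
  push_cast
  field_simp

theorem Es_eq (hp : ParOK e k1 l1) (ht0 : 0 ≤ t) (ht : t < tB k1 l1) (H : ℝ → ℝ) :
    Es k1 l1 j k t H = ∫ s, H s ∂(msF k1 l1 j k t) := by
  rw [msF_int hp ht0 ht, Es, ← integral_div]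
  refine setIntegral_congr_fun measurableSet_Ioo fun s _ => ?_
  simp only [smul_eq_mul]
  ring

/-- functions on the fibre that are square integrable -/
def Nice (k1 l1 : ℝ) (j k : ℕ) (t : ℝ) (H : ℝ → ℝ → ℂ) : Prop :=
  ContinuousOn (fun x : ℝ × ℝ => H x.1 x.2) (Set.Ioo (0 : ℝ) 1 ×ˢ Set.Ioo (0 : ℝ) 1) ∧
  ∃ C : ℝ, ∀ v ∈ Set.Ioo (0 : ℝ) 1, ∀ s ∈ Set.Ioo (0 : ℝ) 1,
    ‖H v s‖ ^ 2 * (v ^ (2 * j + 1) * den k1 l1 j k t s) ≤ C

theorem Nice.mul_bdd {H c : ℝ → ℝ → ℂ} (hp : ParOK e k1 l1) (ht0 : 0 ≤ t) (ht : t < tB k1 l1)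
    (hH : Nice k1 l1 j k t H)
    (hc : ContinuousOn (fun x : ℝ × ℝ => c x.1 x.2) (Set.Ioo (0 : ℝ) 1 ×ˢ Set.Ioo (0 : ℝ) 1))
    (K : ℝ) (hK : ∀ v ∈ Set.Ioo (0 : ℝ) 1, ∀ s ∈ Set.Ioo (0 : ℝ) 1, ‖c v s‖ ≤ K) :
    Nice k1 l1 j k t (fun v s => H v s * c v s) := by
  obtain ⟨h1, C, hC⟩ := hH
  refine ⟨h1.mul hc, K ^ 2 * C, fun v hv s hs => ?_⟩
  have h2 := hC v hv s hs
  have h3 := hK v hv s hs
  have h4 : ‖c v s‖ ^ 2 ≤ K ^ 2 := pow_le_pow_left₀ (norm_nonneg _) h3 2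
  have h5 : 0 ≤ ‖H v s‖ ^ 2 * (v ^ (2 * j + 1) * den k1 l1 j k t s) := by
    have := (fi_den_pos (j := j) (k := k) hp ht0 ht hs.1 hs.2).le
    have := hv.1
    positivity
  rw [norm_mul, mul_pow]
  calc ‖H v s‖ ^ 2 * ‖c v s‖ ^ 2 * (v ^ (2 * j + 1) * den k1 l1 j k t s)
      = ‖c v s‖ ^ 2 * (‖H v s‖ ^ 2 * (v ^ (2 * j + 1) * den k1 l1 j k t s)) := by ring
    _ ≤ K ^ 2 * C := mul_le_mul h4 h2 h5 (by positivity)

theorem Nice.memLp {H : ℝ → ℝ → ℂ} (hp : ParOK e k1 l1) (ht0 : 0 ≤ t) (ht : t < tB k1 l1)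
    (hH : Nice k1 l1 j k t H) :
    MemLp (fun x : ℝ × ℝ => H x.1 x.2) 2 ((mvF j).prod (msF k1 l1 j k t)) := by
  obtain ⟨h1, C, hC⟩ := hH
  have hI := fi_Iw (j := j) (k := k) hp ht0 ht
  have hm1 : AEStronglyMeasurable (fun x : ℝ × ℝ => H x.1 x.2)
      ((volume.restrict (Set.Ioo (0 : ℝ) 1)).prod (volume.restrict (Set.Ioo (0 : ℝ) 1))) := by
    rw [Measure.prod_restrict]
    exact h1.aestronglyMeasurable (measurableSet_Ioo.prod measurableSet_Ioo)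
  have hac : (mvF j).prod (msF k1 l1 j k t) ≪
      (volume.restrict (Set.Ioo (0 : ℝ) 1)).prod (volume.restrict (Set.Ioo (0 : ℝ) 1)) :=
    Measure.AbsolutelyContinuous.prod mvF_ac msF_ac
  have hm := hm1.mono_ac hac
  rw [memLp_two_iff_integrable_sq_norm hm]
  have e1 : (mvF j).prod (msF k1 l1 j k t) =
      ((volume.restrict (Set.Ioo (0 : ℝ) 1)).prod (volume.restrict (Set.Ioo (0 : ℝ) 1))).withDensity
        (fun x => ((wvF j x.1 * wsF k1 l1 j k t x.2 : NNReal) : ℝ≥0∞)) := by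
    rw [mvF, msF, prod_withDensity wvF_meas.coe_nnreal_ennreal wsF_meas.coe_nnreal_ennreal]
    congr 1
  have hw : Measurable fun x : ℝ × ℝ => wvF j x.1 * wsF k1 l1 j k t x.2 :=
    (wvF_meas.comp measurable_fst).mul (wsF_meas.comp measurable_snd)
  rw [e1, integrable_withDensity_iff_integrable_smul hw]
  have hprod : (volume.restrict (Set.Ioo (0 : ℝ) 1)).prod (volume.restrict (Set.Ioo (0 : ℝ) 1)) =
      (volume.prod volume).restrict (Set.Ioo (0 : ℝ) 1 ×ˢ Set.Ioo (0 : ℝ) 1) :=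
    Measure.prod_restrict _ _
  refine Integrable.of_bound (C := (2 * j + 2) / Iw k1 l1 j k t * C) ?_ ?_
  · exact (hw.aestronglyMeasurable (μ := (volume.restrict (Set.Ioo (0 : ℝ) 1)).prod
      (volume.restrict (Set.Ioo (0 : ℝ) 1)))).smul (hm1.norm.pow 2)
  · rw [hprod]
    refine (ae_restrict_mem (measurableSet_Ioo.prod measurableSet_Ioo)).mono fun x hx => ?_
    have hv := hx.1.1
    have hs := hx.2
    have hd := (fi_den_pos (j := j) (k := k) hp ht0 ht hs.1 hs.2)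
    have e2 : ‖(wvF j x.1 * wsF k1 l1 j k t x.2) • ‖H x.1 x.2‖ ^ 2‖ =
        (2 * j + 2) / Iw k1 l1 j k t *
          (‖H x.1 x.2‖ ^ 2 * (x.1 ^ (2 * j + 1) * den k1 l1 j k t x.2)) := by
      rw [NNReal.smul_def, NNReal.coe_mul, wvF, wsF, Real.coe_toNNReal _ (by positivity),
        Real.coe_toNNReal _ (by positivity), smul_eq_mul, Real.norm_eq_abs,
        abs_of_nonneg (by positivity)]
      ring
    rw [e2]
    exact mul_le_mul_of_nonneg_left (hC x.1 hx.1 x.2 hx.2) (by positivity)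

end setup

/-! ### niceness of the coefficient functions -/

section nice

variable {e k1 l1 : ℝ} {j k : ℕ} {t : ℝ}

theorem fi_derivs (hp : ParOK e k1 l1) (ht : t < tB k1 l1) {s : ℝ} (h0 : 0 ≤ s)
    (h1 : s < 1) : HasDerivAt (fun s => el k1 l1 t s) (tau1 s) s ∧
    HasDerivAt (fun s => XX k1 l1 t s) (Xs k1 l1 t s) s ∧
    HasDerivAt (fun s => Xt k1 l1 t s) (Xts k1 l1 t s) s ∧
    HasDerivAt (fun s => Xs k1 l1 t s) (Xss k1 l1 t s) s ∧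
    HasDerivAt (fun s => YY k1 l1 t s) (Ys k1 l1 t s) s ∧
    HasDerivAt (fun s => Yt k1 l1 t s) (Yts k1 l1 t s) s ∧
    HasDerivAt (fun s => Ys k1 l1 t s) (Yss k1 l1 t s) s := by
  have hl : 0 < l1 := by linarith [hp.hl]
  obtain ⟨-, -, -, a, -, -, b, c, d⟩ := X_derivs (k1 := k1) (l1 := l1) t s h0 h1
    (Lm_hasDerivAt hp.hk hl ht)
    (Lm1_hasDerivAt hp.hk hl ht) (Lm_nonneg hp.hk hl ht) (fi_tB hp ht)
  obtain ⟨-, -, f, g, h⟩ := Y_derivs (k1 := k1) (l1 := l1) t s h0 h1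
    (Lm_hasDerivAt hp.hk hl ht)
    (Lm1_hasDerivAt hp.hk hl ht) (Lm_nonneg hp.hk hl ht) (fi_tB hp ht)
  exact ⟨a, b, c, d, f, g, h⟩

theorem fi_cont {f f' : ℝ → ℝ} (h : ∀ s, 0 ≤ s → s < 1 → HasDerivAt f (f' s) s) :
    ContinuousOn f (Set.Ioo (0 : ℝ) 1) := fun s hs =>
  (h s hs.1.le hs.2).continuousAt.continuousWithinAt

theorem fi_cX (hp : ParOK e k1 l1) (ht : t < tB k1 l1) :
    ContinuousOn (fun s => XX k1 l1 t s) (Set.Ioo (0 : ℝ) 1) :=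
  fi_cont fun s h0 h1 => (fi_derivs hp ht h0 h1).2.1

theorem fi_cXt (hp : ParOK e k1 l1) (ht : t < tB k1 l1) :
    ContinuousOn (fun s => Xt k1 l1 t s) (Set.Ioo (0 : ℝ) 1) :=
  fi_cont fun s h0 h1 => (fi_derivs hp ht h0 h1).2.2.1

theorem fi_cXs (hp : ParOK e k1 l1) (ht : t < tB k1 l1) :
    ContinuousOn (fun s => Xs k1 l1 t s) (Set.Ioo (0 : ℝ) 1) :=
  fi_cont fun s h0 h1 => (fi_derivs hp ht h0 h1).2.2.2.1

theorem fi_cYt (hp : ParOK e k1 l1) (ht : t < tB k1 l1) :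
    ContinuousOn (fun s => Yt k1 l1 t s) (Set.Ioo (0 : ℝ) 1) :=
  fi_cont fun s h0 h1 => (fi_derivs hp ht h0 h1).2.2.2.2.2.1

theorem fi_cel (hp : ParOK e k1 l1) (ht : t < tB k1 l1) :
    ContinuousOn (fun s => el k1 l1 t s) (Set.Ioo (0 : ℝ) 1) :=
  fi_cont fun s h0 h1 => (fi_derivs hp ht h0 h1).1

theorem fi_crho (hp : ParOK e k1 l1) (ht : t < tB k1 l1) :
    ContinuousOn (fun s => Real.sqrt (1 + XX k1 l1 t s)) (Set.Ioo (0 : ℝ) 1) :=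
  (continuousOn_const.add (fi_cX hp ht)).sqrt

theorem fi_cYss (hp : ParOK e k1 l1) (ht0 : 0 ≤ t) (ht : t < tB k1 l1) :
    ContinuousOn (fun s => Yss k1 l1 t s) (Set.Ioo (0 : ℝ) 1) := by
  have hs1 : ∀ s ∈ Set.Ioo (0 : ℝ) 1, (1 - s ^ 2) ≠ 0 := fun s hs => by
    have := hs.1; have := hs.2; nlinarith
  have hel : ∀ s ∈ Set.Ioo (0 : ℝ) 1, el k1 l1 t s ≠ 0 := fun s hs => by
    have := (fi_X hp ht0 ht hs.1.le hs.2).1
    linarith
  have hX : ∀ s ∈ Set.Ioo (0 : ℝ) 1, 1 + XX k1 l1 t s ≠ 0 := fun s hs => by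
    have := (fi_X hp ht0 ht hs.1.le hs.2).2.1
    linarith
  have ct1 : ContinuousOn tau1 (Set.Ioo (0 : ℝ) 1) := by
    unfold tau1
    exact (by fun_prop : Continuous fun s : ℝ => 2 * s).continuousOn.div
      (by fun_prop : Continuous fun s : ℝ => 1 - s ^ 2).continuousOn hs1
  have ct2 : ContinuousOn tau2 (Set.Ioo (0 : ℝ) 1) := by
    unfold tau2
    exact (by fun_prop : Continuous fun s : ℝ => 2 * (1 + s ^ 2)).continuousOn.div
      (by fun_prop : Continuous fun s : ℝ => (1 - s ^ 2) ^ 2).continuousOn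
      (fun s hs => pow_ne_zero 2 (hs1 s hs))
  have cel := fi_cel hp ht
  have cX := fi_cX hp ht
  have cXs := fi_cXs hp ht
  have cXss : ContinuousOn (fun s => Xss k1 l1 t s) (Set.Ioo (0 : ℝ) 1) := by
    unfold Xss
    exact ((continuousOn_const.mul ct2).div (cel.pow 2) (fun s hs => pow_ne_zero 2 (hel s hs))).add
      ((continuousOn_const.mul (ct1.pow 2)).div (cel.pow 3) (fun s hs => pow_ne_zero 3 (hel s hs)))
  unfold Yss
  exact (cXss.div (continuousOn_const.add cX) hX).sub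
    ((cXs.pow 2).div ((continuousOn_const.add cX).pow 2) (fun s hs => pow_ne_zero 2 (hX s hs)))

/-- functions of `s` on the square -/
theorem fi_snd {f : ℝ → ℝ} (hf : ContinuousOn f (Set.Ioo (0 : ℝ) 1)) :
    ContinuousOn (fun x : ℝ × ℝ => f x.2) (Set.Ioo (0 : ℝ) 1 ×ˢ Set.Ioo (0 : ℝ) 1) :=
  hf.comp continuousOn_snd fun _ hx => hx.2

theorem Nice.cont_s {H : ℝ → ℝ → ℂ} (hH : Nice k1 l1 j k t H) {v : ℝ}
    (hv : v ∈ Set.Ioo (0 : ℝ) 1) : ContinuousOn (fun s => H v s) (Set.Ioo (0 : ℝ) 1) :=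
  hH.1.comp (f := fun s : ℝ => (v, s)) (by fun_prop) fun _ hs => ⟨hv, hs⟩

theorem Nice.cont_v {H : ℝ → ℝ → ℂ} (hH : Nice k1 l1 j k t H) {s : ℝ}
    (hs : s ∈ Set.Ioo (0 : ℝ) 1) : ContinuousOn (fun v => H v s) (Set.Ioo (0 : ℝ) 1) :=
  hH.1.comp (f := fun v : ℝ => (v, s)) (by fun_prop) fun _ hv => ⟨hv, hs⟩

theorem Nice.int_s {H : ℝ → ℝ → ℂ} (hp : ParOK e k1 l1) (ht0 : 0 ≤ t) (ht : t < tB k1 l1)
    (hH : Nice k1 l1 j k t H) {v : ℝ} (hv : v ∈ Set.Ioo (0 : ℝ) 1) :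
    IntegrableOn (fun s => ‖H v s‖ ^ 2 * den k1 l1 j k t s) (Set.Ioo (0 : ℝ) 1) := by
  obtain ⟨C, hC⟩ := hH.2
  have hvp : 0 < v ^ (2 * j + 1) := by have := hv.1; positivity
  refine Integrable.of_bound (C := C / v ^ (2 * j + 1)) ?_ ?_
  · exact (((hH.cont_s hv).norm.pow 2).aestronglyMeasurable measurableSet_Ioo).mul
      fi_den_meas.aestronglyMeasurable
  · refine (ae_restrict_mem measurableSet_Ioo).mono fun s hs => ?_
    have hd := (fi_den_pos (j := j) (k := k) hp ht0 ht hs.1 hs.2)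
    rw [Real.norm_eq_abs, abs_of_nonneg (by positivity), le_div_iff₀ hvp]
    have := hC v hv s hs
    calc _ = _ := by ring
      _ ≤ C := this

theorem Nice.int_v {H : ℝ → ℝ → ℂ} (hp : ParOK e k1 l1) (ht0 : 0 ≤ t) (ht : t < tB k1 l1)
    (hH : Nice k1 l1 j k t H) {s : ℝ} (hs : s ∈ Set.Ioo (0 : ℝ) 1) :
    IntegrableOn (fun v => ‖H v s‖ ^ 2 * v ^ (2 * j + 1)) (Set.Ioo (0 : ℝ) 1) := by
  obtain ⟨C, hC⟩ := hH.2
  have hd := (fi_den_pos (j := j) (k := k) hp ht0 ht hs.1 hs.2)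
  refine Integrable.of_bound (C := C / den k1 l1 j k t s) ?_ ?_
  · exact (((hH.cont_v hs).norm.pow 2).aestronglyMeasurable measurableSet_Ioo).mul
      (by fun_prop : Continuous fun v : ℝ => v ^ (2 * j + 1)).aestronglyMeasurable
  · refine (ae_restrict_mem measurableSet_Ioo).mono fun v hv => ?_
    have hvp : 0 < v ^ (2 * j + 1) := by have := hv.1; positivity
    rw [Real.norm_eq_abs, abs_of_nonneg (by positivity), le_div_iff₀ hd]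
    have := hC v hv s hs
    calc _ = _ := by ring
      _ ≤ C := this

theorem fi_mono_pos (hp : ParOK e k1 l1) {z : ℂ} (hz : z ∈ BB k1 l1) {v s : ℝ} (hv : 0 < v)
    (hs0 : 0 < s) (hs : s < 1) : 0 < mono e k1 l1 j k z v s := by
  have hl : 0 < l1 := by linarith [hp.hl]
  have hX := (fi_X (t := ‖z‖ ^ 2) hp (by positivity) hz hs0.le hs).2.1
  have h1 : 0 < Real.sqrt (1 + XX k1 l1 (‖z‖ ^ 2) s) := Real.sqrt_pos.mpr (by linarith)
  have h2 : 0 < Real.sqrt (dl k1 l1 (‖z‖ ^ 2)) := Real.sqrt_pos.mpr (dl_pos hp.hk hl hz)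
  have he := hp.he
  unfold mono
  positivity

theorem fi_mono_sq (hp : ParOK e k1 l1) {z : ℂ} (hz : z ∈ BB k1 l1) {v s : ℝ} (hv : 0 < v)
    (hs0 : 0 < s) (hs : s < 1) :
    (mono e k1 l1 j k z v s) ^ 2 * (v * s * (1 + XX k1 l1 (‖z‖ ^ 2) s)) =
      (e ^ (2 * j) * (e ^ (2 * k) * dl k1 l1 (‖z‖ ^ 2) ^ k)) *
        (v ^ (2 * j + 1) * den k1 l1 j k (‖z‖ ^ 2) s) := by
  have hl : 0 < l1 := by linarith [hp.hl]
  have hX := (fi_X (t := ‖z‖ ^ 2) hp (by positivity) hz hs0.le hs).2.1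
  have h1 : Real.sqrt (1 + XX k1 l1 (‖z‖ ^ 2) s) ^ 2 = 1 + XX k1 l1 (‖z‖ ^ 2) s :=
    Real.sq_sqrt (by linarith)
  have h2 : Real.sqrt (dl k1 l1 (‖z‖ ^ 2)) ^ 2 = dl k1 l1 (‖z‖ ^ 2) :=
    Real.sq_sqrt (dl_pos hp.hk hl hz).le
  unfold mono den
  have e1 : ((e * v * Real.sqrt (1 + XX k1 l1 (‖z‖ ^ 2) s)) ^ j *
      (e * Real.sqrt (dl k1 l1 (‖z‖ ^ 2)) * s) ^ k) ^ 2 =
      e ^ (2 * j) * v ^ (2 * j) * (Real.sqrt (1 + XX k1 l1 (‖z‖ ^ 2) s) ^ 2) ^ j *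
        (e ^ (2 * k) * (Real.sqrt (dl k1 l1 (‖z‖ ^ 2)) ^ 2) ^ k * s ^ (2 * k)) := by
    ring
  rw [e1, h1, h2]
  ring

theorem fi_nice (hp : ParOK e k1 l1) {z : ℂ} (hz : z ∈ BB k1 l1) (Φ : E3 → ℂ)
    (hΦ : Continuous Φ) : Nice k1 l1 j k (‖z‖ ^ 2)
      (fun v s => Φ (Pt e k1 l1 z v s) / (mono e k1 l1 j k z v s : ℂ)) := by
  have hl : 0 < l1 := by linarith [hp.hl]
  have ht0 : (0 : ℝ) ≤ ‖z‖ ^ 2 := by positivity
  have crho := fi_snd (fi_crho (t := ‖z‖ ^ 2) hp hz)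
  have cr : ContinuousOn (fun x : ℝ × ℝ => e * x.1 * Real.sqrt (1 + XX k1 l1 (‖z‖ ^ 2) x.2))
      (Set.Ioo (0 : ℝ) 1 ×ˢ Set.Ioo (0 : ℝ) 1) :=
    (by fun_prop : Continuous fun x : ℝ × ℝ => e * x.1).continuousOn.mul crho
  have cs : ContinuousOn (fun x : ℝ × ℝ => e * Real.sqrt (dl k1 l1 (‖z‖ ^ 2)) * x.2)
      (Set.Ioo (0 : ℝ) 1 ×ˢ Set.Ioo (0 : ℝ) 1) := by fun_prop
  have cPt : ContinuousOn (fun x : ℝ × ℝ => Pt e k1 l1 z x.1 x.2)
      (Set.Ioo (0 : ℝ) 1 ×ˢ Set.Ioo (0 : ℝ) 1) := by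
    unfold Pt
    refine continuousOn_pi.mpr fun i => ?_
    fin_cases i
    · exact continuousOn_const
    · exact Complex.continuous_ofReal.comp_continuousOn cr
    · exact Complex.continuous_ofReal.comp_continuousOn cs
  have cmono : ContinuousOn (fun x : ℝ × ℝ => ((mono e k1 l1 j k z x.1 x.2 : ℝ) : ℂ))
      (Set.Ioo (0 : ℝ) 1 ×ˢ Set.Ioo (0 : ℝ) 1) := by
    unfold mono
    exact Complex.continuous_ofReal.comp_continuousOn ((cr.pow j).mul (cs.pow k))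
  refine ⟨(hΦ.comp_continuousOn cPt).div cmono fun x hx => ?_, ?_⟩
  · have := fi_mono_pos (j := j) (k := k) hp hz hx.1.1 hx.2.1 hx.2.2
    exact_mod_cast this.ne'
  · obtain ⟨M, hM⟩ := (isCompact_closedBall (0 : E3) (‖z‖ + 2 * e)).exists_bound_of_continuousOn
      hΦ.continuousOn
    have he := hp.he
    have hD := dl_pos hp.hk hl hz
    have hK : 0 < e ^ (2 * j) * (e ^ (2 * k) * dl k1 l1 (‖z‖ ^ 2) ^ k) := by positivity
    refine ⟨M ^ 2 * 2 / (e ^ (2 * j) * (e ^ (2 * k) * dl k1 l1 (‖z‖ ^ 2) ^ k)),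
      fun v hv s hs => ?_⟩
    obtain ⟨-, hX0, hX1⟩ := fi_X (t := ‖z‖ ^ 2) hp ht0 hz hs.1.le hs.2
    have hmp := fi_mono_pos (j := j) (k := k) hp hz hv.1 hs.1 hs.2
    have hsq := fi_mono_sq (j := j) (k := k) hp hz hv.1 hs.1 hs.2
    have hPt : Pt e k1 l1 z v s ∈ Metric.closedBall (0 : E3) (‖z‖ + 2 * e) := by
      rw [mem_closedBall_zero_iff, pi_norm_le_iff_of_nonneg (by positivity)]
      intro i
      have hr : Real.sqrt (1 + XX k1 l1 (‖z‖ ^ 2) s) ≤ 2 := by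
        rw [Real.sqrt_le_left (by norm_num)]
        linarith
      have hr0 := Real.sqrt_nonneg (1 + XX k1 l1 (‖z‖ ^ 2) s)
      have hd : Real.sqrt (dl k1 l1 (‖z‖ ^ 2)) ≤ 1 := by
        rw [Real.sqrt_le_left (by norm_num)]
        have := dl_le_one (k1 := k1) (l1 := l1) (‖z‖ ^ 2)
        linarith
      have hd0 := Real.sqrt_nonneg (dl k1 l1 (‖z‖ ^ 2))
      have hv0 := hv.1.le
      have hv1 := hv.2.le
      have hs0 := hs.1.le
      have hs1 := hs.2.le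
      have hz0 := norm_nonneg z
      fin_cases i
      · change ‖z‖ ≤ _
        linarith
      · change ‖((e * v * Real.sqrt (1 + XX k1 l1 (‖z‖ ^ 2) s) : ℝ) : ℂ)‖ ≤ _
        rw [Complex.norm_real, Real.norm_eq_abs, abs_of_nonneg (by positivity)]
        have h1 : e * v * Real.sqrt (1 + XX k1 l1 (‖z‖ ^ 2) s) ≤ e * 1 * 2 :=
          mul_le_mul (mul_le_mul_of_nonneg_left hv1 he.le) hr hr0 (by positivity)
        linarith
      · change ‖((e * Real.sqrt (dl k1 l1 (‖z‖ ^ 2)) * s : ℝ) : ℂ)‖ ≤ _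
        rw [Complex.norm_real, Real.norm_eq_abs, abs_of_nonneg (by positivity)]
        have h1 : e * Real.sqrt (dl k1 l1 (‖z‖ ^ 2)) * s ≤ e * 1 * 1 :=
          mul_le_mul (mul_le_mul_of_nonneg_left hd he.le) hs1 hs0 (by positivity)
        linarith
    have hMb := hM _ hPt
    have h3 : ‖Φ (Pt e k1 l1 z v s)‖ ^ 2 ≤ M ^ 2 := pow_le_pow_left₀ (norm_nonneg _) hMb 2
    have h4 : v * s * (1 + XX k1 l1 (‖z‖ ^ 2) s) ≤ 2 := by
      have h5 : v * s ≤ 1 := mul_le_one₀ hv.2.le hs.1.le hs.2.le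
      have h6 : 0 ≤ v * s := mul_nonneg hv.1.le hs.1.le
      nlinarith
    rw [norm_div, Complex.norm_real, Real.norm_eq_abs, abs_of_pos hmp, div_pow, le_div_iff₀ hK]
    have h7 : ‖Φ (Pt e k1 l1 z v s)‖ ^ 2 / mono e k1 l1 j k z v s ^ 2 *
        (v ^ (2 * j + 1) * den k1 l1 j k (‖z‖ ^ 2) s) *
        (e ^ (2 * j) * (e ^ (2 * k) * dl k1 l1 (‖z‖ ^ 2) ^ k)) =
        ‖Φ (Pt e k1 l1 z v s)‖ ^ 2 * (v * s * (1 + XX k1 l1 (‖z‖ ^ 2) s)) := by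
      have h8 : (v ^ (2 * j + 1) * den k1 l1 j k (‖z‖ ^ 2) s) *
        (e ^ (2 * j) * (e ^ (2 * k) * dl k1 l1 (‖z‖ ^ 2) ^ k)) =
        (mono e k1 l1 j k z v s) ^ 2 * (v * s * (1 + XX k1 l1 (‖z‖ ^ 2) s)) := by
        rw [hsq]; ring
      rw [mul_assoc, h8]
      field_simp
    rw [h7]
    have hvs : 0 ≤ v * s * (1 + XX k1 l1 (‖z‖ ^ 2) s) :=
      mul_nonneg (mul_nonneg hv.1.le hs.1.le) (by linarith)
    exact mul_le_mul h3 h4 hvs (by positivity)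

theorem fi_nice_const (hp : ParOK e k1 l1) (ht0 : 0 ≤ t) (ht : t < tB k1 l1) (c : ℂ) :
    Nice k1 l1 j k t (fun _ _ => c) := by
  refine ⟨continuousOn_const, ‖c‖ ^ 2 * 2 ^ (j + 1), fun v hv s hs => ?_⟩
  have hd := fi_den (j := j) (k := k) hp ht0 ht hs.1 hs.2
  have hdp := fi_den_pos (j := j) (k := k) hp ht0 ht hs.1 hs.2
  have h1 : v ^ (2 * j + 1) ≤ 1 := pow_le_one₀ hv.1.le hv.2.le
  have h2 : v ^ (2 * j + 1) * den k1 l1 j k t s ≤ 1 * 2 ^ (j + 1) :=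
    mul_le_mul h1 hd.2 hdp.le zero_le_one
  rw [one_mul] at h2
  exact mul_le_mul_of_nonneg_left h2 (by positivity)

theorem Nice.sub {H G : ℝ → ℝ → ℂ} (hp : ParOK e k1 l1) (ht0 : 0 ≤ t) (ht : t < tB k1 l1)
    (hH : Nice k1 l1 j k t H) (hG : Nice k1 l1 j k t G) :
    Nice k1 l1 j k t (fun v s => H v s - G v s) := by
  obtain ⟨C, hC⟩ := hH.2
  obtain ⟨D, hD⟩ := hG.2
  refine ⟨hH.1.sub hG.1, 2 * C + 2 * D, fun v hv s hs => ?_⟩
  have h1 := hC v hv s hs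
  have h2 := hD v hv s hs
  have hdp := fi_den_pos (j := j) (k := k) hp ht0 ht hs.1 hs.2
  have hw : 0 ≤ v ^ (2 * j + 1) * den k1 l1 j k t s := by have := hv.1; positivity
  have h3 : ‖H v s - G v s‖ ^ 2 ≤ 2 * ‖H v s‖ ^ 2 + 2 * ‖G v s‖ ^ 2 := by
    have := norm_sub_le (H v s) (G v s)
    have h4 : ‖H v s - G v s‖ ^ 2 ≤ (‖H v s‖ + ‖G v s‖) ^ 2 :=
      pow_le_pow_left₀ (norm_nonneg _) this 2
    nlinarith [sq_nonneg (‖H v s‖ - ‖G v s‖)]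
  calc ‖H v s - G v s‖ ^ 2 * (v ^ (2 * j + 1) * den k1 l1 j k t s)
      ≤ (2 * ‖H v s‖ ^ 2 + 2 * ‖G v s‖ ^ 2) * (v ^ (2 * j + 1) * den k1 l1 j k t s) :=
        mul_le_mul_of_nonneg_right h3 hw
    _ ≤ _ := by nlinarith

end nice

/-! ### Brascamp–Lieb on the fibres -/

section blpart

variable {e k1 l1 : ℝ} {j k : ℕ} {t : ℝ}

theorem fi_bl_gen (hBL : BL_stmt) (V V1 V2 w : ℝ → ℝ) (I0 : ℝ) (hI : 0 < I0)
    (hIw : ∫ s in Set.Ioo (0 : ℝ) 1, w s = I0) (μ : Measure ℝ)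
    (hμc : ∀ f : ℝ → ℂ, ∫ s, f s ∂μ = ∫ s in Set.Ioo (0 : ℝ) 1, (w s / I0) • f s)
    (hμr : ∀ f : ℝ → ℝ, ∫ s, f s ∂μ = ∫ s in Set.Ioo (0 : ℝ) 1, (w s / I0) • f s)
    (hw : ∀ s ∈ Set.Ioo (0 : ℝ) 1, Real.exp (-V s) = w s)
    (hwi : IntegrableOn w (Set.Ioo (0 : ℝ) 1))
    (dV : ∀ s ∈ Set.Ioo (0 : ℝ) 1, HasDerivAt V (V1 s) s)
    (dV1 : ∀ s ∈ Set.Ioo (0 : ℝ) 1, HasDerivAt V1 (V2 s) s)
    (pV2 : ∀ s ∈ Set.Ioo (0 : ℝ) 1, 0 < V2 s) (cV2 : ContinuousOn V2 (Set.Ioo (0 : ℝ) 1))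
    (g g1 : ℝ → ℂ) (R : ℝ → ℝ)
    (hg : ∀ s ∈ Set.Ioo (0 : ℝ) 1, HasDerivAt g (g1 s) s)
    (hg1 : ContinuousOn g1 (Set.Ioo (0 : ℝ) 1))
    (hgi : IntegrableOn (fun s => ‖g s‖ ^ 2 * w s) (Set.Ioo (0 : ℝ) 1))
    (hR : ∀ s ∈ Set.Ioo (0 : ℝ) 1, ‖g1 s‖ ^ 2 ≤ R s * V2 s)
    (hRi : IntegrableOn (fun s => R s * w s) (Set.Ioo (0 : ℝ) 1)) :
    ∫ s, ‖g s - ∫ s', g s' ∂μ‖ ^ 2 ∂μ ≤ ∫ s, R s ∂μ := by
  have hIc : ((I0 : ℝ) : ℂ) ≠ 0 := by exact_mod_cast hI.ne'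
  have hVc : ContinuousOn V (Set.Ioo (0 : ℝ) 1) := fun s hs =>
    (dV s hs).continuousAt.continuousWithinAt
  have hwc : ContinuousOn (fun s => Real.exp (-V s)) (Set.Ioo (0 : ℝ) 1) :=
    Real.continuous_exp.comp_continuousOn hVc.neg
  have hm : ∫ s', g s' ∂μ = (∫ x in Set.Ioo (0 : ℝ) 1, g x * (Real.exp (-V x) : ℂ)) /
        ((∫ x in Set.Ioo (0 : ℝ) 1, Real.exp (-V x) : ℝ) : ℂ) := by
    have e1 : ∫ x in Set.Ioo (0 : ℝ) 1, Real.exp (-V x) = I0 := by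
      rw [← hIw]
      exact setIntegral_congr_fun measurableSet_Ioo fun s hs => hw s hs
    rw [e1, hμc, ← integral_div]
    refine setIntegral_congr_fun measurableSet_Ioo fun s hs => ?_
    change (w s / I0) • g s = g s * (Real.exp (-V s) : ℂ) / (I0 : ℂ)
    rw [Complex.real_smul]
    have e4 : (Real.exp (-V s) : ℂ) = (w s : ℂ) := by rw [hw s hs]
    rw [e4]
    push_cast
    ring
  have hle : ∀ s ∈ Set.Ioo (0 : ℝ) 1, ‖g1 s‖ ^ 2 / V2 s * Real.exp (-V s) ≤ R s * w s := by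
    intro s hs
    rw [hw s hs]
    refine mul_le_mul_of_nonneg_right ?_ (by rw [← hw s hs]; positivity)
    rw [div_le_iff₀ (pV2 s hs)]
    exact hR s hs
  have hi1 : IntegrableOn (fun s => ‖g1 s‖ ^ 2 / V2 s * Real.exp (-V s)) (Set.Ioo (0 : ℝ) 1) := by
    refine Integrable.mono' hRi ?_ ?_
    · exact (((hg1.norm.pow 2).div cV2 fun s hs => (pV2 s hs).ne').mul hwc).aestronglyMeasurable
        measurableSet_Ioo
    · refine (ae_restrict_mem measurableSet_Ioo).mono fun s hs => ?_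
      have := pV2 s hs
      rw [Real.norm_eq_abs, abs_of_nonneg (by positivity)]
      exact hle s hs
  have hmain := hBL V V1 V2 g g1 dV dV1 pV2 cV2
    (hwi.congr_fun (fun s hs => (hw s hs).symm) measurableSet_Ioo) hg hg1
    (hgi.congr_fun (fun s hs => by simp only [hw s hs]) measurableSet_Ioo) hi1
  rw [← hm] at hmain
  rw [hμr, hμr]
  have e2 : ∫ s in Set.Ioo (0 : ℝ) 1, (w s / I0) • ‖g s - ∫ s', g s' ∂μ‖ ^ 2 =
      (∫ s in Set.Ioo (0 : ℝ) 1, ‖g s - ∫ s', g s' ∂μ‖ ^ 2 * Real.exp (-V s)) / I0 := by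
    rw [← integral_div]
    refine setIntegral_congr_fun measurableSet_Ioo fun s hs => ?_
    change (w s / I0) * ‖g s - ∫ s', g s' ∂μ‖ ^ 2 =
      ‖g s - ∫ s', g s' ∂μ‖ ^ 2 * Real.exp (-V s) / I0
    rw [hw s hs]
    ring
  have e3 : ∫ s in Set.Ioo (0 : ℝ) 1, (w s / I0) • R s =
      (∫ s in Set.Ioo (0 : ℝ) 1, R s * w s) / I0 := by
    rw [← integral_div]
    refine setIntegral_congr_fun measurableSet_Ioo fun s hs => ?_
    change (w s / I0) * R s = R s * w s / I0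
    ring
  rw [e2, e3]
  refine div_le_div_of_nonneg_right (hmain.trans ?_) hI.le
  exact setIntegral_mono_on hi1 hRi measurableSet_Ioo hle

end blpart

section blpart2

variable {e k1 l1 : ℝ} {j k : ℕ} {t : ℝ}

theorem fi_bl_s (hBL : BL_stmt) (hPW : PW_stmt) (hp : ParOK e k1 l1) (ht0 : 0 ≤ t)
    (ht : t < tB k1 l1) (g g1 : ℝ → ℂ) (R : ℝ → ℝ)
    (hg : ∀ s ∈ Set.Ioo (0 : ℝ) 1, HasDerivAt g (g1 s) s)
    (hg1 : ContinuousOn g1 (Set.Ioo (0 : ℝ) 1))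
    (hgi : IntegrableOn (fun s => ‖g s‖ ^ 2 * den k1 l1 j k t s) (Set.Ioo (0 : ℝ) 1))
    (hR : ∀ s ∈ Set.Ioo (0 : ℝ) 1, ∀ V2 : ℝ, 1 ≤ V2 → 1000 * Xs k1 l1 t s ^ 2 ≤ V2 →
      ‖g1 s‖ ^ 2 ≤ R s * V2)
    (hRi : IntegrableOn (fun s => R s * den k1 l1 j k t s) (Set.Ioo (0 : ℝ) 1)) :
    ∫ s, ‖g s - ∫ s', g s' ∂(msF k1 l1 j k t)‖ ^ 2 ∂(msF k1 l1 j k t) ≤
      ∫ s, R s ∂(msF k1 l1 j k t) := by
  have hge : ∀ s ∈ Set.Ioo (0 : ℝ) 1, 1 ≤ ((2 * k + 1 : ℕ) : ℝ) / s ^ 2 -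
      ((j + 1 : ℕ) : ℝ) * Yss k1 l1 t s ∧ 1000 * Xs k1 l1 t s ^ 2 ≤
        ((2 * k + 1 : ℕ) : ℝ) / s ^ 2 - ((j + 1 : ℕ) : ℝ) * Yss k1 l1 t s := by
    intro s hs
    obtain ⟨h1, -, -, h4, -⟩ := hPW e k1 l1 hp t s ht0 ht hs.1 hs.2
    have hs2 : 0 < s ^ 2 := by have := hs.1; positivity
    have hs3 : s ^ 2 ≤ 1 := pow_le_one₀ hs.1.le hs.2.le
    have h5 : 1 ≤ ((2 * k + 1 : ℕ) : ℝ) / s ^ 2 := by
      rw [le_div_iff₀ hs2]
      push_cast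
      have : (0 : ℝ) ≤ (k : ℝ) := Nat.cast_nonneg k
      linarith
    have h6 : -Yss k1 l1 t s ≤ -(((j + 1 : ℕ) : ℝ) * Yss k1 l1 t s) := by
      push_cast
      have : (0 : ℝ) ≤ (j : ℝ) := Nat.cast_nonneg j
      nlinarith
    constructor
    · linarith
    · linarith
  refine fi_bl_gen hBL
    (fun s => -(((2 * k + 1 : ℕ) : ℝ) * Real.log s) - ((j + 1 : ℕ) : ℝ) * YY k1 l1 t s)
    (fun s => -(((2 * k + 1 : ℕ) : ℝ) * s⁻¹) - ((j + 1 : ℕ) : ℝ) * Ys k1 l1 t s)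
    (fun s => ((2 * k + 1 : ℕ) : ℝ) / s ^ 2 - ((j + 1 : ℕ) : ℝ) * Yss k1 l1 t s)
    (fun s => den k1 l1 j k t s) (Iw k1 l1 j k t) (fi_Iw hp ht0 ht) rfl (msF k1 l1 j k t)
    (fun f => msF_int hp ht0 ht f) (fun f => msF_int hp ht0 ht f) ?_ (fi_den_int hp ht0 ht)
    ?_ ?_ ?_ ?_ g g1 R hg hg1 hgi ?_ hRi
  · intro s hs
    have hX := (fi_X (t := t) hp ht0 ht hs.1.le hs.2).2.1
    have e1 : -(-(((2 * k + 1 : ℕ) : ℝ) * Real.log s) - ((j + 1 : ℕ) : ℝ) * YY k1 l1 t s) =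
        ((2 * k + 1 : ℕ) : ℝ) * Real.log s + ((j + 1 : ℕ) : ℝ) * Real.log (1 + XX k1 l1 t s) := by
      unfold YY
      ring
    rw [e1, Real.exp_add, Real.exp_nat_mul, Real.exp_nat_mul, Real.exp_log hs.1,
      Real.exp_log (by linarith)]
    rfl
  · intro s hs
    have h1 := (fi_derivs hp ht hs.1.le hs.2).2.2.2.2.1
    exact (((Real.hasDerivAt_log hs.1.ne').const_mul _).neg).sub (h1.const_mul _)
  · intro s hs
    have h1 := (fi_derivs hp ht hs.1.le hs.2).2.2.2.2.2.2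
    have h2 := ((hasDerivAt_inv hs.1.ne').const_mul ((2 * k + 1 : ℕ) : ℝ)).neg.sub
      (h1.const_mul ((j + 1 : ℕ) : ℝ))
    refine h2.congr_deriv ?_
    ring
  · intro s hs
    have := (hge s hs).1
    linarith
  · refine ContinuousOn.sub ?_ (continuousOn_const.mul (fi_cYss hp ht0 ht))
    exact continuousOn_const.div (by fun_prop) fun s hs => by
      have := hs.1
      positivity
  · intro s hs
    exact hR s hs _ (hge s hs).1 (hge s hs).2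

theorem fi_bl_v (hBL : BL_stmt) (g g1 : ℝ → ℂ) (R : ℝ → ℝ)
    (hg : ∀ s ∈ Set.Ioo (0 : ℝ) 1, HasDerivAt g (g1 s) s)
    (hg1 : ContinuousOn g1 (Set.Ioo (0 : ℝ) 1))
    (hgi : IntegrableOn (fun s => ‖g s‖ ^ 2 * s ^ (2 * j + 1)) (Set.Ioo (0 : ℝ) 1))
    (hR : ∀ s ∈ Set.Ioo (0 : ℝ) 1, ‖g1 s‖ ^ 2 ≤ R s)
    (hRi : IntegrableOn (fun s => R s * s ^ (2 * j + 1)) (Set.Ioo (0 : ℝ) 1)) :
    ∫ s, ‖g s - ∫ s', g s' ∂(mvF j)‖ ^ 2 ∂(mvF j) ≤ ∫ s, R s ∂(mvF j) := by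
  have hj : (0 : ℝ) < 1 / (2 * (j : ℝ) + 2) := by positivity
  have hge : ∀ s ∈ Set.Ioo (0 : ℝ) 1, 1 ≤ ((2 * j + 1 : ℕ) : ℝ) / s ^ 2 := by
    intro s hs
    have hs2 : 0 < s ^ 2 := by have := hs.1; positivity
    have hs3 : s ^ 2 ≤ 1 := pow_le_one₀ hs.1.le hs.2.le
    rw [le_div_iff₀ hs2]
    push_cast
    have : (0 : ℝ) ≤ (j : ℝ) := Nat.cast_nonneg j
    linarith
  refine fi_bl_gen hBL
    (fun s => -(((2 * j + 1 : ℕ) : ℝ) * Real.log s))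
    (fun s => -(((2 * j + 1 : ℕ) : ℝ) * s⁻¹))
    (fun s => ((2 * j + 1 : ℕ) : ℝ) / s ^ 2)
    (fun s => s ^ (2 * j + 1)) (1 / (2 * (j : ℝ) + 2)) hj ?_ (mvF j)
    (fun f => ?_) (fun f => ?_) ?_ (fi_pow_intOn _) ?_ ?_ ?_ ?_ g g1 R hg hg1 hgi ?_ hRi
  · rw [fi_pow_int]
    push_cast
    ring
  · rw [mvF_int]
    simp only [one_div, div_inv_eq_mul]
  · rw [mvF_int]
    simp only [one_div, div_inv_eq_mul]
  · intro s hs
    rw [neg_neg, Real.exp_nat_mul, Real.exp_log hs.1]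
  · intro s hs
    exact ((Real.hasDerivAt_log hs.1.ne').const_mul _).neg
  · intro s hs
    have h2 := ((hasDerivAt_inv hs.1.ne').const_mul ((2 * j + 1 : ℕ) : ℝ)).neg
    refine h2.congr_deriv ?_
    ring
  · intro s hs
    have := hge s hs
    linarith
  · exact continuousOn_const.div (by fun_prop) fun s hs => by
      have := hs.1
      positivity
  · intro s hs
    have h1 := hR s hs
    have h2 := hge s hs
    have h3 : 0 ≤ R s := le_trans (by positivity) h1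
    nlinarith

end blpart2

section ccpart

variable {e k1 l1 : ℝ} {j k : ℕ} {t : ℝ}

/-- the energy density -/
noncomputable def ED (e k1 l1 : ℝ) (j k : ℕ) (F : E3 → ℂ) (z : ℂ) (v s : ℝ) : ℝ :=
  ‖GG e k1 l1 j k F 1 z v s‖ ^ 2 + ‖GG e k1 l1 j k F 2 z v s‖ ^ 2

theorem fi_dbar_cont {F : E3 → ℂ} (hF : ContDiff ℝ ∞ F) (i : Fin 3) : Continuous (dbar i F) := by
  have h1 : Continuous (fderiv ℝ F) := hF.continuous_fderiv (by simp)
  unfold dbar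
  exact continuous_const.mul ((h1.clm_apply continuous_const).add
    (continuous_const.mul (h1.clm_apply continuous_const)))

theorem fi_GG_nice (hp : ParOK e k1 l1) {F : E3 → ℂ} (hF : ContDiff ℝ ∞ F) {z : ℂ}
    (hz : z ∈ BB k1 l1) (i : Fin 3) :
    Nice k1 l1 j k (‖z‖ ^ 2) (fun v s => GG e k1 l1 j k F i z v s) :=
  fi_nice hp hz (dbar i F) (fi_dbar_cont hF i)

theorem fi_cc_nice (hp : ParOK e k1 l1) {F : E3 → ℂ} (hF : ContDiff ℝ ∞ F) {z : ℂ}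
    (hz : z ∈ BB k1 l1) :
    Nice k1 l1 j k (‖z‖ ^ 2) (fun v s => cc e k1 l1 j k F z v s) :=
  fi_nice hp hz F hF.continuous

theorem fi_ED_int (hp : ParOK e k1 l1) {F : E3 → ℂ} (hF : ContDiff ℝ ∞ F) {z : ℂ}
    (hz : z ∈ BB k1 l1) : Integrable (fun x : ℝ × ℝ => ED e k1 l1 j k F z x.1 x.2)
      ((mvF j).prod (msF k1 l1 j k (‖z‖ ^ 2))) := by
  have ht0 : (0 : ℝ) ≤ ‖z‖ ^ 2 := by positivity
  exact ((fi_GG_nice (j := j) (k := k) hp hF hz 1).memLp hp ht0 hz).norm.integrable_sq.add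
    ((fi_GG_nice (j := j) (k := k) hp hF hz 2).memLp hp ht0 hz).norm.integrable_sq

theorem fi_h1 (hBL : BL_stmt) (hPW : PW_stmt) (hp : ParOK e k1 l1) {F : E3 → ℂ}
    (hF : ContDiff ℝ ∞ F) (hm : IsModeFn j k F) {z : ℂ} (hz : z ∈ BB k1 l1) :
    ∀ᵐ v ∂(mvF j), ∫ s, ‖cc e k1 l1 j k F z v s -
      ∫ s', cc e k1 l1 j k F z v s' ∂(msF k1 l1 j k (‖z‖ ^ 2))‖ ^ 2 ∂(msF k1 l1 j k (‖z‖ ^ 2)) ≤
      ∫ s, 8 * e ^ 2 * ED e k1 l1 j k F z v s ∂(msF k1 l1 j k (‖z‖ ^ 2)) := by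
  have ht0 : (0 : ℝ) ≤ ‖z‖ ^ 2 := by positivity
  have hl : 0 < l1 := by linarith [hp.hl]
  filter_upwards [mvF_ac.ae_le (ae_restrict_mem measurableSet_Ioo)] with v hv
  have n1 := fi_GG_nice (j := j) (k := k) hp hF hz 1
  have n2 := fi_GG_nice (j := j) (k := k) hp hF hz 2
  have n0 := fi_cc_nice (j := j) (k := k) hp hF hz
  refine fi_bl_s hBL hPW hp ht0 hz (fun s => cc e k1 l1 j k F z v s)
    (fun s => 2 * GG e k1 l1 j k F 1 z v s *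
        ((e * v * (Xs k1 l1 (‖z‖ ^ 2) s / (2 * Real.sqrt (1 + XX k1 l1 (‖z‖ ^ 2) s))) : ℝ) : ℂ) +
      2 * GG e k1 l1 j k F 2 z v s * ((e * Real.sqrt (dl k1 l1 (‖z‖ ^ 2)) : ℝ) : ℂ))
    (fun s => 8 * e ^ 2 * ED e k1 l1 j k F z v s)
    (fun s hs => (fiC e k1 l1 hp j k F hF hm z hz v s hv.1 hs.1 hs.2).2) ?_
    (n0.int_s hp ht0 hz hv) ?_ ?_
  · have c1 : ContinuousOn (fun s => e * v * (Xs k1 l1 (‖z‖ ^ 2) s /
        (2 * Real.sqrt (1 + XX k1 l1 (‖z‖ ^ 2) s)))) (Set.Ioo (0 : ℝ) 1) := by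
      refine continuousOn_const.mul ((fi_cXs hp hz).div
        (continuousOn_const.mul (fi_crho hp hz)) fun s hs => ?_)
      have hX := (fi_X (t := ‖z‖ ^ 2) hp ht0 hz hs.1.le hs.2).2.1
      have : 0 < Real.sqrt (1 + XX k1 l1 (‖z‖ ^ 2) s) := Real.sqrt_pos.mpr (by linarith)
      positivity
    exact ((continuousOn_const.mul (n1.cont_s hv)).mul
      (Complex.continuous_ofReal.comp_continuousOn c1)).add
      ((continuousOn_const.mul (n2.cont_s hv)).mul continuousOn_const)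
  · intro s hs V2 hV1 hV2
    obtain ⟨-, hX0, hX1⟩ := fi_X (t := ‖z‖ ^ 2) hp ht0 hz hs.1.le hs.2
    have hd1 := dl_le_one (k1 := k1) (l1 := l1) (‖z‖ ^ 2)
    have hd0 := dl_pos hp.hk hl hz
    set c : ℝ := e * v * (Xs k1 l1 (‖z‖ ^ 2) s / (2 * Real.sqrt (1 + XX k1 l1 (‖z‖ ^ 2) s))) with hc
    set d : ℝ := e * Real.sqrt (dl k1 l1 (‖z‖ ^ 2)) with hd
    have hsq : Real.sqrt (1 + XX k1 l1 (‖z‖ ^ 2) s) ^ 2 = 1 + XX k1 l1 (‖z‖ ^ 2) s :=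
      Real.sq_sqrt (by linarith)
    have hc2 : c ^ 2 ≤ e ^ 2 * V2 := by
      have e1 : c ^ 2 = e ^ 2 * (v ^ 2 * (Xs k1 l1 (‖z‖ ^ 2) s ^ 2 /
          (4 * (1 + XX k1 l1 (‖z‖ ^ 2) s)))) := by
        rw [hc]
        have e2 : (e * v * (Xs k1 l1 (‖z‖ ^ 2) s /
            (2 * Real.sqrt (1 + XX k1 l1 (‖z‖ ^ 2) s)))) ^ 2 =
            e ^ 2 * (v ^ 2 * (Xs k1 l1 (‖z‖ ^ 2) s ^ 2 /
              (4 * Real.sqrt (1 + XX k1 l1 (‖z‖ ^ 2) s) ^ 2))) := by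
          ring
        rw [e2, hsq]
      rw [e1]
      refine mul_le_mul_of_nonneg_left ?_ (by positivity)
      have h1 : v ^ 2 ≤ 1 := pow_le_one₀ hv.1.le hv.2.le
      have h2 : Xs k1 l1 (‖z‖ ^ 2) s ^ 2 / (4 * (1 + XX k1 l1 (‖z‖ ^ 2) s)) ≤
          Xs k1 l1 (‖z‖ ^ 2) s ^ 2 := div_le_self (by positivity) (by linarith)
      have h3 : 0 ≤ Xs k1 l1 (‖z‖ ^ 2) s ^ 2 / (4 * (1 + XX k1 l1 (‖z‖ ^ 2) s)) :=
        div_nonneg (by positivity) (by linarith)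
      have h4 : 0 ≤ Xs k1 l1 (‖z‖ ^ 2) s ^ 2 := by positivity
      calc v ^ 2 * (Xs k1 l1 (‖z‖ ^ 2) s ^ 2 / (4 * (1 + XX k1 l1 (‖z‖ ^ 2) s)))
          ≤ 1 * (Xs k1 l1 (‖z‖ ^ 2) s ^ 2 / (4 * (1 + XX k1 l1 (‖z‖ ^ 2) s))) :=
            mul_le_mul_of_nonneg_right h1 h3
        _ ≤ V2 := by linarith
    have hd2 : d ^ 2 ≤ e ^ 2 * V2 := by
      have e1 : d ^ 2 = e ^ 2 * dl k1 l1 (‖z‖ ^ 2) := by
        rw [hd, mul_pow, Real.sq_sqrt hd0.le]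
      rw [e1]
      exact mul_le_mul_of_nonneg_left (by linarith) (by positivity)
    have h5 : ‖2 * GG e k1 l1 j k F 1 z v s * (c : ℂ) + 2 * GG e k1 l1 j k F 2 z v s * (d : ℂ)‖ ^ 2
        ≤ 8 * (‖GG e k1 l1 j k F 1 z v s‖ ^ 2 * c ^ 2) +
          8 * (‖GG e k1 l1 j k F 2 z v s‖ ^ 2 * d ^ 2) := by
      have h6 := norm_add_le (2 * GG e k1 l1 j k F 1 z v s * (c : ℂ))
        (2 * GG e k1 l1 j k F 2 z v s * (d : ℂ))
      have h7 : ‖2 * GG e k1 l1 j k F 1 z v s * (c : ℂ)‖ = 2 * ‖GG e k1 l1 j k F 1 z v s‖ * |c| := by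
        rw [norm_mul, norm_mul, Complex.norm_real, Real.norm_eq_abs]
        norm_num
      have h8 : ‖2 * GG e k1 l1 j k F 2 z v s * (d : ℂ)‖ = 2 * ‖GG e k1 l1 j k F 2 z v s‖ * |d| := by
        rw [norm_mul, norm_mul, Complex.norm_real, Real.norm_eq_abs]
        norm_num
      rw [h7, h8] at h6
      have h9 := pow_le_pow_left₀ (norm_nonneg _) h6 2
      refine h9.trans ?_
      have h10 : c ^ 2 = |c| ^ 2 := (sq_abs c).symm
      have h11 : d ^ 2 = |d| ^ 2 := (sq_abs d).symm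
      rw [h10, h11]
      nlinarith [sq_nonneg (‖GG e k1 l1 j k F 1 z v s‖ * |c| - ‖GG e k1 l1 j k F 2 z v s‖ * |d|)]
    refine h5.trans ?_
    unfold ED
    have h12 := mul_le_mul_of_nonneg_left hc2 (sq_nonneg ‖GG e k1 l1 j k F 1 z v s‖)
    have h13 := mul_le_mul_of_nonneg_left hd2 (sq_nonneg ‖GG e k1 l1 j k F 2 z v s‖)
    nlinarith
  · have h1 := ((n1.int_s hp ht0 hz hv).add (n2.int_s hp ht0 hz hv)).const_mul (8 * e ^ 2)
    refine IntegrableOn.congr_fun h1 (fun s _ => ?_) measurableSet_Ioo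
    simp only [ED, Pi.add_apply]
    ring

theorem fi_h2 (hBL : BL_stmt) (hp : ParOK e k1 l1) {F : E3 → ℂ}
    (hF : ContDiff ℝ ∞ F) (hm : IsModeFn j k F) {z : ℂ} (hz : z ∈ BB k1 l1) :
    ∀ᵐ s ∂(msF k1 l1 j k (‖z‖ ^ 2)), ∫ v, ‖cc e k1 l1 j k F z v s -
      ∫ v', cc e k1 l1 j k F z v' s ∂(mvF j)‖ ^ 2 ∂(mvF j) ≤
      ∫ v, 8 * e ^ 2 * ED e k1 l1 j k F z v s ∂(mvF j) := by
  have ht0 : (0 : ℝ) ≤ ‖z‖ ^ 2 := by positivity
  have hl : 0 < l1 := by linarith [hp.hl]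
  filter_upwards [msF_ac.ae_le (ae_restrict_mem measurableSet_Ioo)] with s hs
  have n1 := fi_GG_nice (j := j) (k := k) hp hF hz 1
  have n2 := fi_GG_nice (j := j) (k := k) hp hF hz 2
  have n0 := fi_cc_nice (j := j) (k := k) hp hF hz
  refine fi_bl_v hBL (fun v => cc e k1 l1 j k F z v s)
    (fun v => 2 * GG e k1 l1 j k F 1 z v s *
        ((e * Real.sqrt (1 + XX k1 l1 (‖z‖ ^ 2) s) : ℝ) : ℂ))
    (fun v => 8 * e ^ 2 * ED e k1 l1 j k F z v s)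
    (fun v hv => (fiC e k1 l1 hp j k F hF hm z hz v s hv.1 hs.1 hs.2).1) ?_
    (n0.int_v hp ht0 hz hs) ?_ ?_
  · exact (continuousOn_const.mul (n1.cont_v hs)).mul continuousOn_const
  · intro v hv
    obtain ⟨-, hX0, hX1⟩ := fi_X (t := ‖z‖ ^ 2) hp ht0 hz hs.1.le hs.2
    have hsq : Real.sqrt (1 + XX k1 l1 (‖z‖ ^ 2) s) ^ 2 = 1 + XX k1 l1 (‖z‖ ^ 2) s :=
      Real.sq_sqrt (by linarith)
    rw [norm_mul, norm_mul, Complex.norm_real, Real.norm_eq_abs, mul_pow, mul_pow, sq_abs, mul_pow,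
      hsq]
    unfold ED
    have h1 : ‖(2 : ℂ)‖ = 2 := by norm_num
    rw [h1]
    have h2 : 0 ≤ ‖GG e k1 l1 j k F 2 z v s‖ ^ 2 := by positivity
    have h3 : 0 ≤ ‖GG e k1 l1 j k F 1 z v s‖ ^ 2 := by positivity
    have he2 : 0 ≤ e ^ 2 := by positivity
    have h4 : e ^ 2 * (1 + XX k1 l1 (‖z‖ ^ 2) s) ≤ 2 * e ^ 2 := by nlinarith
    have h5 := mul_le_mul_of_nonneg_left h4 h3
    have h6 := mul_nonneg he2 h2
    nlinarith
  · have h1 := ((n1.int_v hp ht0 hz hs).add (n2.int_v hp ht0 hz hs)).const_mul (8 * e ^ 2)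
    refine IntegrableOn.congr_fun h1 (fun v _ => ?_) measurableSet_Ioo
    simp only [ED, Pi.add_apply]
    ring

end ccpart

/-! ### assembly -/

section asm

variable {e k1 l1 : ℝ} {j k : ℕ} {t : ℝ}

/-- `1/ℓ + tΛ''/ℓ²` -/
noncomputable def qF (k1 l1 t s : ℝ) : ℝ := 1 / el k1 l1 t s + t * Lm2 k1 l1 t / el k1 l1 t s ^ 2

theorem fi_Lm (hp : ParOK e k1 l1) (ht : t < tB k1 l1) : 0 ≤ Lm1 k1 l1 t ∧
    Lm1 k1 l1 t ^ 2 ≤ Lm2 k1 l1 t := by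
  have hl : 0 < l1 := by linarith [hp.hl]
  have h1 := Lm2_ge hp.hk hp.hk1 hp.hl ht
  have h2 := Lm1_nonneg hp.hk hl ht
  exact ⟨h2, by linarith⟩

theorem fi_qF (hp : ParOK e k1 l1) (ht0 : 0 ≤ t) (ht : t < tB k1 l1) {s : ℝ}
    (hs : s ∈ Set.Ioo (0 : ℝ) 1) : 0 ≤ qF k1 l1 t s ∧ qF k1 l1 t s ≤ 1 + t * Lm2 k1 l1 t := by
  obtain ⟨h1, -, -⟩ := fi_X (t := t) hp ht0 ht hs.1.le hs.2
  obtain ⟨h2, h3⟩ := fi_Lm hp ht
  have h4 : 0 ≤ Lm2 k1 l1 t := le_trans (by positivity) h3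
  have h5 : 0 < el k1 l1 t s := by linarith
  unfold qF
  refine ⟨by positivity, ?_⟩
  have h6 : 1 / el k1 l1 t s ≤ 1 := by
    rw [div_le_one h5]
    linarith
  have h7 : t * Lm2 k1 l1 t / el k1 l1 t s ^ 2 ≤ t * Lm2 k1 l1 t := by
    refine div_le_self (by positivity) ?_
    exact one_le_pow₀ (by linarith)
  linarith

theorem fi_cqF (hp : ParOK e k1 l1) (ht0 : 0 ≤ t) (ht : t < tB k1 l1) :
    ContinuousOn (fun s => qF k1 l1 t s) (Set.Ioo (0 : ℝ) 1) := by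
  have hel : ∀ s ∈ Set.Ioo (0 : ℝ) 1, el k1 l1 t s ≠ 0 := fun s hs => by
    have := (fi_X hp ht0 ht hs.1.le hs.2).1
    linarith
  have cel := fi_cel hp ht
  unfold qF
  exact (continuousOn_const.div cel hel).add
    (continuousOn_const.div (cel.pow 2) fun s hs => pow_ne_zero 2 (hel s hs))

theorem fi_s_memLp (hp : ParOK e k1 l1) (ht0 : 0 ≤ t) (ht : t < tB k1 l1) {f : ℝ → ℝ}
    (hf : ContinuousOn f (Set.Ioo (0 : ℝ) 1)) (K : ℝ)
    (hK : ∀ s ∈ Set.Ioo (0 : ℝ) 1, |f s| ≤ K) : MemLp f 2 (msF k1 l1 j k t) := by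
  have := msF_prob (j := j) (k := k) hp ht0 ht
  refine MemLp.of_bound ((hf.aestronglyMeasurable measurableSet_Ioo).mono_ac msF_ac) K ?_
  filter_upwards [msF_ac.ae_le (ae_restrict_mem measurableSet_Ioo)] with s hs
  exact hK s hs

theorem fi_s_int (hp : ParOK e k1 l1) (ht0 : 0 ≤ t) (ht : t < tB k1 l1) {f : ℝ → ℝ}
    (hf : ContinuousOn f (Set.Ioo (0 : ℝ) 1)) (K : ℝ)
    (hK : ∀ s ∈ Set.Ioo (0 : ℝ) 1, |f s| ≤ K) : Integrable f (msF k1 l1 j k t) := by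
  have := msF_prob (j := j) (k := k) hp ht0 ht
  exact (fi_s_memLp hp ht0 ht hf K hK).integrable (by norm_num)

theorem fi_P_ae (hp : ParOK e k1 l1) (ht0 : 0 ≤ t) (ht : t < tB k1 l1) :
    ∀ᵐ x ∂((mvF j).prod (msF k1 l1 j k t)), x.1 ∈ Set.Ioo (0 : ℝ) 1 ∧ x.2 ∈ Set.Ioo (0 : ℝ) 1 := by
  have hac : (mvF j).prod (msF k1 l1 j k t) ≪
      (volume.restrict (Set.Ioo (0 : ℝ) 1)).prod (volume.restrict (Set.Ioo (0 : ℝ) 1)) :=
    Measure.AbsolutelyContinuous.prod mvF_ac msF_ac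
  rw [Measure.prod_restrict] at hac
  filter_upwards [hac.ae_le (ae_restrict_mem (measurableSet_Ioo.prod measurableSet_Ioo))] with x hx
  exact hx

theorem EC_prod (hp : ParOK e k1 l1) (ht0 : 0 ≤ t) (ht : t < tB k1 l1) {H : ℝ → ℝ → ℂ}
    (hH : Integrable (fun x : ℝ × ℝ => H x.1 x.2) ((mvF j).prod (msF k1 l1 j k t))) :
    EC k1 l1 j k t H = ∫ x, H x.1 x.2 ∂((mvF j).prod (msF k1 l1 j k t)) := by
  have := msF_prob (j := j) (k := k) hp ht0 ht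
  have := mvF_prob (j := j)
  rw [EC_eq hp ht0 ht, integral_prod _ hH]

theorem EE_prod (hp : ParOK e k1 l1) (ht0 : 0 ≤ t) (ht : t < tB k1 l1) {H : ℝ → ℝ → ℝ}
    (hH : Integrable (fun x : ℝ × ℝ => H x.1 x.2) ((mvF j).prod (msF k1 l1 j k t))) :
    EE k1 l1 j k t H = ∫ x, H x.1 x.2 ∂((mvF j).prod (msF k1 l1 j k t)) := by
  have := msF_prob (j := j) (k := k) hp ht0 ht
  have := mvF_prob (j := j)
  rw [EE_eq hp ht0 ht, integral_prod _ hH]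

theorem Nice.integrable {H : ℝ → ℝ → ℂ} (hp : ParOK e k1 l1) (ht0 : 0 ≤ t) (ht : t < tB k1 l1)
    (hH : Nice k1 l1 j k t H) :
    Integrable (fun x : ℝ × ℝ => H x.1 x.2) ((mvF j).prod (msF k1 l1 j k t)) := by
  have := msF_prob (j := j) (k := k) hp ht0 ht
  have := mvF_prob (j := j)
  exact (hH.memLp hp ht0 ht).integrable (by norm_num)

theorem EC_lin (hp : ParOK e k1 l1) (ht0 : 0 ≤ t) (ht : t < tB k1 l1) {A B C D : ℝ → ℝ → ℂ}
    (hA : Nice k1 l1 j k t A) (hB : Nice k1 l1 j k t B) (hC : Nice k1 l1 j k t C)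
    (hD : Nice k1 l1 j k t D) :
    EC k1 l1 j k t (fun v s => A v s + B v s - C v s + D v s) =
      EC k1 l1 j k t A + (EC k1 l1 j k t B - EC k1 l1 j k t C + EC k1 l1 j k t D) := by
  have iA := hA.integrable hp ht0 ht
  have iB := hB.integrable hp ht0 ht
  have iC := hC.integrable hp ht0 ht
  have iD := hD.integrable hp ht0 ht
  have iAB := iA.add iB
  have iABC := iAB.sub iC
  have iall := iABC.add iD
  rw [EC_prod hp ht0 ht iA, EC_prod hp ht0 ht iB, EC_prod hp ht0 ht iC, EC_prod hp ht0 ht iD,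
    EC_prod hp ht0 ht (H := fun v s => A v s + B v s - C v s + D v s) iall]
  have e1 := integral_add iABC iD
  have e2 := integral_sub iAB iC
  have e3 := integral_add iA iB
  simp only [Pi.add_apply, Pi.sub_apply] at e1 e2 e3
  rw [e1, e2, e3]
  ring

theorem fi_csG (hp : ParOK e k1 l1) (ht0 : 0 ≤ t) (ht : t < tB k1 l1) {G c : ℝ → ℝ → ℂ}
    (hG : Nice k1 l1 j k t G)
    (hc : ContinuousOn (fun x : ℝ × ℝ => c x.1 x.2) (Set.Ioo (0 : ℝ) 1 ×ˢ Set.Ioo (0 : ℝ) 1))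
    (r : ℝ → ℝ) (hr : ContinuousOn r (Set.Ioo (0 : ℝ) 1)) (K : ℝ)
    (hK : ∀ s ∈ Set.Ioo (0 : ℝ) 1, r s ≤ K)
    (hcr : ∀ v ∈ Set.Ioo (0 : ℝ) 1, ∀ s ∈ Set.Ioo (0 : ℝ) 1, ‖c v s‖ ^ 2 ≤ r s) :
    Nice k1 l1 j k t (fun v s => G v s * c v s) ∧
    ‖EC k1 l1 j k t (fun v s => G v s * c v s)‖ ^ 2 ≤
      EE k1 l1 j k t (fun v s => ‖G v s‖ ^ 2) * Es k1 l1 j k t r := by
  have := msF_prob (j := j) (k := k) hp ht0 ht
  have := mvF_prob (j := j)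
  have hcK : ∀ v ∈ Set.Ioo (0 : ℝ) 1, ∀ s ∈ Set.Ioo (0 : ℝ) 1, ‖c v s‖ ≤ Real.sqrt K :=
    fun v hv s hs => Real.le_sqrt_of_sq_le ((hcr v hv s hs).trans (hK s hs))
  have hN := hG.mul_bdd hp ht0 ht hc (Real.sqrt K) hcK
  refine ⟨hN, ?_⟩
  have n1 := fi_nice_const (j := j) (k := k) hp ht0 ht 1
  have nc : Nice k1 l1 j k t c := by
    have h1 := n1.mul_bdd hp ht0 ht hc (Real.sqrt K) hcK
    simpa only [one_mul] using h1
  have h1 := fiA_cs _ _ _ (hG.memLp hp ht0 ht) (nc.memLp hp ht0 ht)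
  rw [← EC_prod hp ht0 ht (H := fun v s => G v s * c v s) (hN.integrable hp ht0 ht),
    ← EE_prod hp ht0 ht (H := fun v s => ‖G v s‖ ^ 2) (hG.memLp hp ht0 ht).norm.integrable_sq] at h1
  refine h1.trans (mul_le_mul_of_nonneg_left ?_ ?_)
  · have hri : Integrable r (msF k1 l1 j k t) := by
      refine fi_s_int hp ht0 ht hr K fun s hs => ?_
      have h2 : 0 ≤ r s := le_trans (by positivity) (hcr s hs s hs)
      rw [abs_of_nonneg h2]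
      exact hK s hs
    have h3 : Integrable (fun x : ℝ × ℝ => r x.2) ((mvF j).prod (msF k1 l1 j k t)) :=
      hri.comp_snd (mvF j)
    have h4 := integral_mono_ae (nc.memLp hp ht0 ht).norm.integrable_sq h3
      (by
        filter_upwards [fi_P_ae (j := j) (k := k) hp ht0 ht] with x hx
        exact hcr x.1 hx.1 x.2 hx.2)
    rw [integral_fun_snd] at h4
    simpa [Es_eq hp ht0 ht] using h4
  · rw [EE_eq hp ht0 ht]
    exact integral_nonneg fun v => integral_nonneg fun s => by positivity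

end asm

section final

variable {e k1 l1 : ℝ} {j k : ℕ} {t : ℝ}

theorem fi_q_int (hp : ParOK e k1 l1) (ht0 : 0 ≤ t) (ht : t < tB k1 l1) :
    Integrable (fun s => qF k1 l1 t s) (msF k1 l1 j k t) := by
  refine fi_s_int hp ht0 ht (fi_cqF hp ht0 ht) (1 + t * Lm2 k1 l1 t) fun s hs => ?_
  obtain ⟨h1, h2⟩ := fi_qF hp ht0 ht hs
  rw [abs_of_nonneg h1]
  exact h2

theorem fi_Es_mono (hp : ParOK e k1 l1) (ht0 : 0 ≤ t) (ht : t < tB k1 l1) {f g : ℝ → ℝ}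
    (hf : ∀ s ∈ Set.Ioo (0 : ℝ) 1, 0 ≤ f s) (hfg : ∀ s ∈ Set.Ioo (0 : ℝ) 1, f s ≤ g s)
    (hg : Integrable g (msF k1 l1 j k t)) : Es k1 l1 j k t f ≤ Es k1 l1 j k t g := by
  rw [Es_eq hp ht0 ht, Es_eq hp ht0 ht]
  refine integral_mono_of_nonneg ?_ hg ?_
  · filter_upwards [msF_ac.ae_le (ae_restrict_mem measurableSet_Ioo)] with s hs
    exact hf s hs
  · filter_upwards [msF_ac.ae_le (ae_restrict_mem measurableSet_Ioo)] with s hs
    exact hfg s hs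

theorem fi_mm (hp : ParOK e k1 l1) (ht0 : 0 ≤ t) (ht : t < tB k1 l1) :
    0 ≤ Es k1 l1 j k t (fun s => qF k1 l1 t s) ∧
    (j + 1) * Es k1 l1 j k t (fun s => qF k1 l1 t s) ≤ mm k1 l1 j k t ∧
    t * Lm2 k1 l1 t ≤ mm k1 l1 j k t := by
  obtain ⟨h2, h3⟩ := fi_Lm hp ht
  have h4 : 0 ≤ Lm2 k1 l1 t := le_trans (by positivity) h3
  have h5 : 0 ≤ Es k1 l1 j k t (fun s => qF k1 l1 t s) := by
    rw [Es_eq hp ht0 ht]
    refine integral_nonneg_of_ae ?_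
    filter_upwards [msF_ac.ae_le (ae_restrict_mem measurableSet_Ioo)] with s hs
    exact (fi_qF hp ht0 ht hs).1
  have h6 : mm k1 l1 j k t = (k + 1) * (Lm1 k1 l1 t + t * Lm2 k1 l1 t) +
    (j + 1) * Es k1 l1 j k t (fun s => qF k1 l1 t s) := rfl
  have h7 : 0 ≤ (j + 1 : ℝ) * Es k1 l1 j k t (fun s => qF k1 l1 t s) := by positivity
  have h8 : 0 ≤ t * Lm2 k1 l1 t := by positivity
  have h9 : (0 : ℝ) ≤ k := Nat.cast_nonneg k
  rw [h6]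
  refine ⟨h5, ?_, ?_⟩
  · have : 0 ≤ (k + 1 : ℝ) * (Lm1 k1 l1 t + t * Lm2 k1 l1 t) := by positivity
    linarith
  · have : 0 ≤ (k : ℝ) * (Lm1 k1 l1 t + t * Lm2 k1 l1 t) := by positivity
    nlinarith

theorem fi_Xt_bd (hp : ParOK e k1 l1) (ht0 : 0 ≤ t) (ht : t < tB k1 l1) {s : ℝ}
    (hs : s ∈ Set.Ioo (0 : ℝ) 1) : |Xt k1 l1 t s| ≤ 1 + 2 * Lm1 k1 l1 t ∧
      |Yt k1 l1 t s| ≤ 1 + 2 * Lm1 k1 l1 t := by
  obtain ⟨h1, hX, -⟩ := fi_X (t := t) hp ht0 ht hs.1.le hs.2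
  obtain ⟨h2, -⟩ := fi_Lm hp ht
  have ht2 := fi_tB hp ht
  have h5 : 0 < el k1 l1 t s := by linarith
  have h6 : 1 / el k1 l1 t s ≤ 1 := by
    rw [div_le_one h5]
    linarith
  have h6' : 0 ≤ 1 / el k1 l1 t s := by positivity
  have h70 : 0 ≤ (2 - t) * Lm1 k1 l1 t := mul_nonneg (by linarith) h2
  have h7 : (2 - t) * Lm1 k1 l1 t / el k1 l1 t s ^ 2 ≤ (2 - t) * Lm1 k1 l1 t := by
    refine div_le_self h70 ?_
    exact one_le_pow₀ (by linarith)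
  have h7' : 0 ≤ (2 - t) * Lm1 k1 l1 t / el k1 l1 t s ^ 2 := by positivity
  have h8 : |Xt k1 l1 t s| ≤ 1 + 2 * Lm1 k1 l1 t := by
    have e1 : Xt k1 l1 t s = -(1 / el k1 l1 t s) - (2 - t) * Lm1 k1 l1 t / el k1 l1 t s ^ 2 := by
      unfold Xt
      ring
    rw [e1, abs_le]
    constructor
    · nlinarith
    · nlinarith
  refine ⟨h8, ?_⟩
  unfold Yt
  rw [abs_div, abs_of_pos (by linarith : 0 < 1 + XX k1 l1 t s)]
  exact (div_le_self (abs_nonneg _) (by linarith)).trans h8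

/-- first error term -/
theorem fi_q1 (hPW : PW_stmt) (hp : ParOK e k1 l1) {z : ℂ} (hz : z ∈ BB k1 l1)
    {G : ℝ → ℝ → ℂ} (hG : Nice k1 l1 j k (‖z‖ ^ 2) G) :
    Nice k1 l1 j k (‖z‖ ^ 2) (fun v s => 2 * G v s * (e * v * z * Xt k1 l1 (‖z‖ ^ 2) s /
        (2 * Real.sqrt (1 + XX k1 l1 (‖z‖ ^ 2) s) : ℝ))) ∧
    ‖EC k1 l1 j k (‖z‖ ^ 2) (fun v s => 2 * G v s * (e * v * z * Xt k1 l1 (‖z‖ ^ 2) s /
        (2 * Real.sqrt (1 + XX k1 l1 (‖z‖ ^ 2) s) : ℝ)))‖ ^ 2 ≤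
      EE k1 l1 j k (‖z‖ ^ 2) (fun v s => ‖G v s‖ ^ 2) * (e ^ 2 * mm k1 l1 j k (‖z‖ ^ 2)) := by
  have ht0 : (0 : ℝ) ≤ ‖z‖ ^ 2 := by positivity
  have e1 : (fun v s : ℝ => 2 * G v s * (e * v * z * Xt k1 l1 (‖z‖ ^ 2) s /
        (2 * Real.sqrt (1 + XX k1 l1 (‖z‖ ^ 2) s) : ℝ))) = fun v s : ℝ => G v s *
        (((e * v * (Xt k1 l1 (‖z‖ ^ 2) s / Real.sqrt (1 + XX k1 l1 (‖z‖ ^ 2) s)) : ℝ) : ℂ) * z) := by
    funext v s
    push_cast
    ring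
  have cr : ContinuousOn (fun x : ℝ × ℝ => e * x.1 * (Xt k1 l1 (‖z‖ ^ 2) x.2 /
      Real.sqrt (1 + XX k1 l1 (‖z‖ ^ 2) x.2))) (Set.Ioo (0 : ℝ) 1 ×ˢ Set.Ioo (0 : ℝ) 1) := by
    refine (by fun_prop : Continuous fun x : ℝ × ℝ => e * x.1).continuousOn.mul ?_
    refine (fi_snd (fi_cXt hp hz)).div (fi_snd (fi_crho hp hz)) fun x hx => ?_
    have hX := (fi_X (t := ‖z‖ ^ 2) hp ht0 hz hx.2.1.le hx.2.2).2.1
    exact (Real.sqrt_pos.mpr (by linarith)).ne'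
  have h1 := fi_csG hp ht0 hz hG
    (c := fun v s => ((e * v * (Xt k1 l1 (‖z‖ ^ 2) s /
      Real.sqrt (1 + XX k1 l1 (‖z‖ ^ 2) s)) : ℝ) : ℂ) * z)
    ((Complex.continuous_ofReal.comp_continuousOn cr).mul continuousOn_const)
    (fun s => e ^ 2 * qF k1 l1 (‖z‖ ^ 2) s) (continuousOn_const.mul (fi_cqF hp ht0 hz))
    (e ^ 2 * (1 + ‖z‖ ^ 2 * Lm2 k1 l1 (‖z‖ ^ 2)))
    (fun s hs => mul_le_mul_of_nonneg_left (fi_qF hp ht0 hz hs).2 (by positivity))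
    (by
      intro v hv s hs
      obtain ⟨-, hX0, hX1⟩ := fi_X (t := ‖z‖ ^ 2) hp ht0 hz hs.1.le hs.2
      have hsq : Real.sqrt (1 + XX k1 l1 (‖z‖ ^ 2) s) ^ 2 = 1 + XX k1 l1 (‖z‖ ^ 2) s :=
        Real.sq_sqrt (by linarith)
      obtain ⟨-, -, -, -, h5⟩ := hPW e k1 l1 hp (‖z‖ ^ 2) s ht0 hz hs.1 hs.2
      have h6 : ‖z‖ ^ 2 * Xt k1 l1 (‖z‖ ^ 2) s ^ 2 ≤ (1 / 10) * qF k1 l1 (‖z‖ ^ 2) s := h5
      have h7 := (fi_qF hp ht0 hz hs).1
      rw [norm_mul, Complex.norm_real, Real.norm_eq_abs, mul_pow, sq_abs]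
      have e2 : (e * v * (Xt k1 l1 (‖z‖ ^ 2) s / Real.sqrt (1 + XX k1 l1 (‖z‖ ^ 2) s))) ^ 2 *
          ‖z‖ ^ 2 = e ^ 2 * (v ^ 2 * (‖z‖ ^ 2 * Xt k1 l1 (‖z‖ ^ 2) s ^ 2 /
            Real.sqrt (1 + XX k1 l1 (‖z‖ ^ 2) s) ^ 2)) := by ring
      rw [e2, hsq]
      refine mul_le_mul_of_nonneg_left ?_ (by positivity)
      have h8 : v ^ 2 ≤ 1 := pow_le_one₀ hv.1.le hv.2.le
      have h9 : 0 ≤ ‖z‖ ^ 2 * Xt k1 l1 (‖z‖ ^ 2) s ^ 2 := by positivity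
      have h10 : ‖z‖ ^ 2 * Xt k1 l1 (‖z‖ ^ 2) s ^ 2 / (1 + XX k1 l1 (‖z‖ ^ 2) s) ≤
          ‖z‖ ^ 2 * Xt k1 l1 (‖z‖ ^ 2) s ^ 2 := div_le_self h9 (by linarith)
      have h11 : 0 ≤ ‖z‖ ^ 2 * Xt k1 l1 (‖z‖ ^ 2) s ^ 2 / (1 + XX k1 l1 (‖z‖ ^ 2) s) :=
        div_nonneg h9 (by linarith)
      calc v ^ 2 * (‖z‖ ^ 2 * Xt k1 l1 (‖z‖ ^ 2) s ^ 2 / (1 + XX k1 l1 (‖z‖ ^ 2) s))
          ≤ 1 * (‖z‖ ^ 2 * Xt k1 l1 (‖z‖ ^ 2) s ^ 2 / (1 + XX k1 l1 (‖z‖ ^ 2) s)) :=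
            mul_le_mul_of_nonneg_right h8 h11
        _ ≤ qF k1 l1 (‖z‖ ^ 2) s := by linarith)
  rw [e1]
  refine ⟨h1.1, h1.2.trans (mul_le_mul_of_nonneg_left ?_ ?_)⟩
  · have h2 : Es k1 l1 j k (‖z‖ ^ 2) (fun s => e ^ 2 * qF k1 l1 (‖z‖ ^ 2) s) =
        e ^ 2 * Es k1 l1 j k (‖z‖ ^ 2) (fun s => qF k1 l1 (‖z‖ ^ 2) s) := by
      rw [Es_eq hp ht0 hz, Es_eq hp ht0 hz, integral_const_mul]
    rw [h2]
    obtain ⟨h3, h4, -⟩ := fi_mm (j := j) (k := k) hp ht0 hz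
    refine mul_le_mul_of_nonneg_left ?_ (by positivity)
    have : (0 : ℝ) ≤ j := Nat.cast_nonneg j
    nlinarith
  · rw [EE_eq hp ht0 hz]
    exact integral_nonneg fun v => integral_nonneg fun s => by positivity

/-- second error term -/
theorem fi_q2 (hp : ParOK e k1 l1) {z : ℂ} (hz : z ∈ BB k1 l1)
    {G : ℝ → ℝ → ℂ} (hG : Nice k1 l1 j k (‖z‖ ^ 2) G) :
    Nice k1 l1 j k (‖z‖ ^ 2) (fun v s => G v s * (e * s * z *
        Real.sqrt (dl k1 l1 (‖z‖ ^ 2)) * Lm1 k1 l1 (‖z‖ ^ 2))) ∧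
    ‖EC k1 l1 j k (‖z‖ ^ 2) (fun v s => G v s * (e * s * z *
        Real.sqrt (dl k1 l1 (‖z‖ ^ 2)) * Lm1 k1 l1 (‖z‖ ^ 2)))‖ ^ 2 ≤
      EE k1 l1 j k (‖z‖ ^ 2) (fun v s => ‖G v s‖ ^ 2) * (e ^ 2 * mm k1 l1 j k (‖z‖ ^ 2)) := by
  have ht0 : (0 : ℝ) ≤ ‖z‖ ^ 2 := by positivity
  have hl : 0 < l1 := by linarith [hp.hl]
  have h1 := fi_csG hp ht0 hz hG
    (c := fun v s => (e * s * z * Real.sqrt (dl k1 l1 (‖z‖ ^ 2)) * Lm1 k1 l1 (‖z‖ ^ 2)))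
    (by fun_prop)
    (fun s => e ^ 2 * (‖z‖ ^ 2 * Lm2 k1 l1 (‖z‖ ^ 2))) continuousOn_const
    (e ^ 2 * (‖z‖ ^ 2 * Lm2 k1 l1 (‖z‖ ^ 2)))
    (fun s hs => le_rfl)
    (by
      intro v hv s hs
      have hd1 := dl_le_one (k1 := k1) (l1 := l1) (‖z‖ ^ 2)
      have hd0 := dl_pos hp.hk hl hz
      obtain ⟨h2, h3⟩ := fi_Lm hp hz
      have e2 : ‖(e * s * z * Real.sqrt (dl k1 l1 (‖z‖ ^ 2)) * Lm1 k1 l1 (‖z‖ ^ 2) : ℂ)‖ ^ 2 =
          e ^ 2 * (‖z‖ ^ 2 * (s ^ 2 * (dl k1 l1 (‖z‖ ^ 2) * Lm1 k1 l1 (‖z‖ ^ 2) ^ 2))) := by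
        rw [norm_mul, norm_mul, norm_mul, norm_mul, Complex.norm_real, Complex.norm_real,
          Complex.norm_real, Complex.norm_real, Real.norm_eq_abs, Real.norm_eq_abs,
          Real.norm_eq_abs, Real.norm_eq_abs, mul_pow, mul_pow, mul_pow, mul_pow, sq_abs, sq_abs,
          sq_abs, sq_abs, Real.sq_sqrt hd0.le]
        ring
      rw [e2]
      refine mul_le_mul_of_nonneg_left (mul_le_mul_of_nonneg_left ?_ (by positivity))
        (by positivity)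
      have h4 : s ^ 2 ≤ 1 := pow_le_one₀ hs.1.le hs.2.le
      have h5 : dl k1 l1 (‖z‖ ^ 2) * Lm1 k1 l1 (‖z‖ ^ 2) ^ 2 ≤ Lm1 k1 l1 (‖z‖ ^ 2) ^ 2 :=
        mul_le_of_le_one_left (by positivity) hd1
      have h6 : 0 ≤ dl k1 l1 (‖z‖ ^ 2) * Lm1 k1 l1 (‖z‖ ^ 2) ^ 2 := by positivity
      calc s ^ 2 * (dl k1 l1 (‖z‖ ^ 2) * Lm1 k1 l1 (‖z‖ ^ 2) ^ 2)
          ≤ dl k1 l1 (‖z‖ ^ 2) * Lm1 k1 l1 (‖z‖ ^ 2) ^ 2 := mul_le_of_le_one_left h6 h4
        _ ≤ _ := h5.trans h3)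
  refine ⟨h1.1, h1.2.trans (mul_le_mul_of_nonneg_left ?_ ?_)⟩
  · have := msF_prob (j := j) (k := k) hp ht0 hz
    rw [Es_eq hp ht0 hz, integral_const]
    obtain ⟨-, -, h4⟩ := fi_mm (j := j) (k := k) hp ht0 hz
    simp only [probReal_univ, one_smul]
    exact mul_le_mul_of_nonneg_left h4 (by positivity)
  · rw [EE_eq hp ht0 hz]
    exact integral_nonneg fun v => integral_nonneg fun s => by positivity

end final

section final2

variable {e k1 l1 : ℝ} {j k : ℕ} {t : ℝ}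

theorem fi_EED (hp : ParOK e k1 l1) {F : E3 → ℂ} (hF : ContDiff ℝ ∞ F) {z : ℂ}
    (hz : z ∈ BB k1 l1) :
    0 ≤ EE k1 l1 j k (‖z‖ ^ 2) (fun v s => ED e k1 l1 j k F z v s) ∧
    EE k1 l1 j k (‖z‖ ^ 2) (fun v s => ‖GG e k1 l1 j k F 1 z v s‖ ^ 2) ≤
      EE k1 l1 j k (‖z‖ ^ 2) (fun v s => ED e k1 l1 j k F z v s) ∧
    EE k1 l1 j k (‖z‖ ^ 2) (fun v s => ‖GG e k1 l1 j k F 2 z v s‖ ^ 2) ≤
      EE k1 l1 j k (‖z‖ ^ 2) (fun v s => ED e k1 l1 j k F z v s) := by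
  have ht0 : (0 : ℝ) ≤ ‖z‖ ^ 2 := by positivity
  have i1 := ((fi_GG_nice (j := j) (k := k) hp hF hz 1).memLp hp ht0 hz).norm.integrable_sq
  have i2 := ((fi_GG_nice (j := j) (k := k) hp hF hz 2).memLp hp ht0 hz).norm.integrable_sq
  have i3 := fi_ED_int (j := j) (k := k) hp hF hz
  rw [EE_prod hp ht0 hz (H := fun v s => ED e k1 l1 j k F z v s) i3,
    EE_prod hp ht0 hz (H := fun v s => ‖GG e k1 l1 j k F 1 z v s‖ ^ 2) i1,
    EE_prod hp ht0 hz (H := fun v s => ‖GG e k1 l1 j k F 2 z v s‖ ^ 2) i2]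
  refine ⟨integral_nonneg fun x => ?_, integral_mono i1 i3 fun x => ?_,
    integral_mono i2 i3 fun x => ?_⟩
  · change 0 ≤ ‖GG e k1 l1 j k F 1 z x.1 x.2‖ ^ 2 + ‖GG e k1 l1 j k F 2 z x.1 x.2‖ ^ 2
    positivity
  · change ‖GG e k1 l1 j k F 1 z x.1 x.2‖ ^ 2 ≤
      ‖GG e k1 l1 j k F 1 z x.1 x.2‖ ^ 2 + ‖GG e k1 l1 j k F 2 z x.1 x.2‖ ^ 2
    have : 0 ≤ ‖GG e k1 l1 j k F 2 z x.1 x.2‖ ^ 2 := by positivity
    linarith
  · change ‖GG e k1 l1 j k F 2 z x.1 x.2‖ ^ 2 ≤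
      ‖GG e k1 l1 j k F 1 z x.1 x.2‖ ^ 2 + ‖GG e k1 l1 j k F 2 z x.1 x.2‖ ^ 2
    have : 0 ≤ ‖GG e k1 l1 j k F 1 z x.1 x.2‖ ^ 2 := by positivity
    linarith

theorem fi_R_eq (hp : ParOK e k1 l1) {F : E3 → ℂ} {z : ℂ}
    (hz : z ∈ BB k1 l1) : ∫ v, ∫ s, 8 * e ^ 2 * ED e k1 l1 j k F z v s
      ∂(msF k1 l1 j k (‖z‖ ^ 2)) ∂(mvF j) =
      8 * e ^ 2 * EE k1 l1 j k (‖z‖ ^ 2) (fun v s => ED e k1 l1 j k F z v s) := by
  have ht0 : (0 : ℝ) ≤ ‖z‖ ^ 2 := by positivity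
  rw [EE_eq hp ht0 hz, ← integral_const_mul]
  congr 1
  funext v
  rw [← integral_const_mul]

theorem fi_q3 (hBL : BL_stmt) (hPW : PW_stmt) (hV : VarY_stmt) (hp : ParOK e k1 l1)
    {F : E3 → ℂ} (hF : ContDiff ℝ ∞ F) (hm : IsModeFn j k F) {z : ℂ} (hz : z ∈ BB k1 l1) :
    Nice k1 l1 j k (‖z‖ ^ 2) (fun v s =>
      (j + 1) * z * (cc e k1 l1 j k F z v s - aa e k1 l1 j k F z) * Yt k1 l1 (‖z‖ ^ 2) s) ∧
    ‖EC k1 l1 j k (‖z‖ ^ 2) (fun v s =>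
      (j + 1) * z * (cc e k1 l1 j k F z v s - aa e k1 l1 j k F z) * Yt k1 l1 (‖z‖ ^ 2) s)‖ ^ 2 ≤
      mm k1 l1 j k (‖z‖ ^ 2) *
        (8 * e ^ 2 * EE k1 l1 j k (‖z‖ ^ 2) (fun v s => ED e k1 l1 j k F z v s)) := by
  have ht0 : (0 : ℝ) ≤ ‖z‖ ^ 2 := by positivity
  have i1 := msF_prob (j := j) (k := k) hp ht0 hz
  have i2 := mvF_prob (j := j)
  have ncc := fi_cc_nice (j := j) (k := k) hp hF hz
  have nca := ncc.sub hp ht0 hz (fi_nice_const (j := j) (k := k) hp ht0 hz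
    (aa e k1 l1 j k F z))
  have haa : aa e k1 l1 j k F z = ∫ v, ∫ s, cc e k1 l1 j k F z v s
      ∂(msF k1 l1 j k (‖z‖ ^ 2)) ∂(mvF j) := EC_eq hp ht0 hz _
  have cY := fi_cYt (t := ‖z‖ ^ 2) hp hz
  have hYm : MemLp (fun s => Yt k1 l1 (‖z‖ ^ 2) s) 2 (msF k1 l1 j k (‖z‖ ^ 2)) :=
    fi_s_memLp hp ht0 hz cY (1 + 2 * Lm1 k1 l1 (‖z‖ ^ 2)) fun s hs => (fi_Xt_bd hp ht0 hz hs).2
  constructor
  · have h1 := nca.mul_bdd hp ht0 hz (c := fun v s => (j + 1) * z * Yt k1 l1 (‖z‖ ^ 2) s)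
      (continuousOn_const.mul (Complex.continuous_ofReal.comp_continuousOn (fi_snd cY)))
      ((j + 1) * ‖z‖ * (1 + 2 * Lm1 k1 l1 (‖z‖ ^ 2))) (by
        intro v hv s hs
        have h2 := (fi_Xt_bd hp ht0 hz hs).2
        have h3 : ‖((j : ℂ) + 1)‖ = (j + 1 : ℝ) := by
          have : ((j : ℂ) + 1) = (((j : ℝ) + 1 : ℝ) : ℂ) := by push_cast; rfl
          rw [this, Complex.norm_real, Real.norm_eq_abs, abs_of_nonneg (by positivity)]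
        rw [norm_mul, norm_mul, h3, Complex.norm_real, Real.norm_eq_abs]
        exact mul_le_mul_of_nonneg_left h2 (by positivity))
    have e1 : (fun v s : ℝ => (j + 1) * z * (cc e k1 l1 j k F z v s - aa e k1 l1 j k F z) *
        Yt k1 l1 (‖z‖ ^ 2) s) = fun v s : ℝ => (cc e k1 l1 j k F z v s - aa e k1 l1 j k F z) *
        ((j + 1) * z * Yt k1 l1 (‖z‖ ^ 2) s) := by
      funext v s
      ring
    rw [e1]
    exact h1
  · have e1 : EC k1 l1 j k (‖z‖ ^ 2) (fun v s =>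
      (j + 1) * z * (cc e k1 l1 j k F z v s - aa e k1 l1 j k F z) * Yt k1 l1 (‖z‖ ^ 2) s) =
      (j + 1) * z * ∫ v, ∫ s, (cc e k1 l1 j k F z v s - aa e k1 l1 j k F z) *
        (Yt k1 l1 (‖z‖ ^ 2) s : ℂ) ∂(msF k1 l1 j k (‖z‖ ^ 2)) ∂(mvF j) := by
      rw [EC_eq hp ht0 hz, ← integral_const_mul]
      congr 1
      funext v
      rw [← integral_const_mul]
      congr 1
      funext s
      ring
    have h1 := fiA_cov (mvF j) (msF k1 l1 j k (‖z‖ ^ 2)) (fun v s => cc e k1 l1 j k F z v s)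
      (ncc.memLp hp ht0 hz) (fun v s => 8 * e ^ 2 * ED e k1 l1 j k F z v s)
      ((fi_ED_int (j := j) (k := k) hp hF hz).const_mul _) (fi_h1 hBL hPW hp hF hm hz)
      (fun s => Yt k1 l1 (‖z‖ ^ 2) s) hYm
    rw [← haa, fi_R_eq hp hz] at h1
    have h2 := hV e k1 l1 hp j k (‖z‖ ^ 2) ht0 hz
    rw [Es_eq hp ht0 hz (fun s => Yt k1 l1 (‖z‖ ^ 2) s ^ 2),
      Es_eq hp ht0 hz (fun s => Yt k1 l1 (‖z‖ ^ 2) s)] at h2
    have h3 : Es k1 l1 j k (‖z‖ ^ 2) (fun s => ‖z‖ ^ 2 * (Yts k1 l1 (‖z‖ ^ 2) s ^ 2 /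
        (-Yss k1 l1 (‖z‖ ^ 2) s))) ≤ Es k1 l1 j k (‖z‖ ^ 2) (fun s => qF k1 l1 (‖z‖ ^ 2) s) := by
      refine fi_Es_mono hp ht0 hz (fun s hs => ?_) (fun s hs => ?_) (fi_q_int hp ht0 hz)
      · obtain ⟨h4, -⟩ := hPW e k1 l1 hp (‖z‖ ^ 2) s ht0 hz hs.1 hs.2
        have : 0 < -Yss k1 l1 (‖z‖ ^ 2) s := by linarith
        positivity
      · exact (hPW e k1 l1 hp (‖z‖ ^ 2) s ht0 hz hs.1 hs.2).2.2.1
    obtain ⟨h5, h6, -⟩ := fi_mm (j := j) (k := k) hp ht0 hz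
    have h7 := (fi_EED (j := j) (k := k) hp hF hz).1
    have h8 : ‖((j : ℂ) + 1)‖ = (j + 1 : ℝ) := by
      have : ((j : ℂ) + 1) = (((j : ℝ) + 1 : ℝ) : ℂ) := by push_cast; rfl
      rw [this, Complex.norm_real, Real.norm_eq_abs, abs_of_nonneg (by positivity)]
    rw [e1, norm_mul, norm_mul, h8, mul_pow, mul_pow]
    have h9 : (0 : ℝ) ≤ (j + 1 : ℝ) ^ 2 * ‖z‖ ^ 2 := by positivity
    have h10 := mul_le_mul_of_nonneg_left h1 h9
    refine h10.trans ?_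
    have h11 : (0 : ℝ) ≤ j + 1 := by positivity
    have h12 := mul_le_mul_of_nonneg_left h3 h11
    have h13 : 0 ≤ 8 * e ^ 2 * EE k1 l1 j k (‖z‖ ^ 2) (fun v s => ED e k1 l1 j k F z v s) := by
      positivity
    calc _ = ((j + 1 : ℝ) ^ 2 * ‖z‖ ^ 2 * ((∫ s, Yt k1 l1 (‖z‖ ^ 2) s ^ 2
            ∂(msF k1 l1 j k (‖z‖ ^ 2))) - (∫ s, Yt k1 l1 (‖z‖ ^ 2) s
            ∂(msF k1 l1 j k (‖z‖ ^ 2))) ^ 2)) *
            (8 * e ^ 2 * EE k1 l1 j k (‖z‖ ^ 2) (fun v s => ED e k1 l1 j k F z v s)) := by ring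
      _ ≤ _ := mul_le_mul_of_nonneg_right (h2.trans (h12.trans h6)) h13

theorem fib (hBL : BL_stmt) (hPW : PW_stmt) (hV : VarY_stmt) (hD : FibD_stmt) : Fib_stmt := by
  intro e k1 l1 hp j k F hF hm
  obtain ⟨hA, hB⟩ := hD e k1 l1 hp j k F hF hm
  refine ⟨hA, fun z hz => ?_⟩
  have ht0 : (0 : ℝ) ≤ ‖z‖ ^ 2 := by positivity
  have i1 := msF_prob (j := j) (k := k) hp ht0 hz
  have i2 := mvF_prob (j := j)
  have n0 := fi_GG_nice (j := j) (k := k) hp hF hz 0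
  have n1 := fi_GG_nice (j := j) (k := k) hp hF hz 1
  have n2 := fi_GG_nice (j := j) (k := k) hp hF hz 2
  have ncc := fi_cc_nice (j := j) (k := k) hp hF hz
  obtain ⟨m1, q1⟩ := fi_q1 hPW hp hz n1
  obtain ⟨m2, q2⟩ := fi_q2 hp hz n2
  obtain ⟨m3, q3⟩ := fi_q3 hBL hPW hV hp hF hm hz
  obtain ⟨hE0, hE1, hE2⟩ := fi_EED (j := j) (k := k) hp hF hz
  obtain ⟨-, -, hmm'⟩ := fi_mm (j := j) (k := k) hp ht0 hz
  obtain ⟨hL1, hL2⟩ := fi_Lm hp hz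
  have hmm : 0 ≤ mm k1 l1 j k (‖z‖ ^ 2) :=
    le_trans (mul_nonneg ht0 (le_trans (by positivity) hL2)) hmm'
  have he2 : 0 ≤ e ^ 2 := by positivity
  have hem : 0 ≤ e ^ 2 * mm k1 l1 j k (‖z‖ ^ 2) := mul_nonneg he2 hmm
  refine ⟨_, _, (hB z hz).trans (EC_lin hp ht0 hz n0 m1 m2 m3), ?_, ?_, ?_⟩
  · have h1 := (fi_csG hp ht0 hz n0 (c := fun _ _ => 1) continuousOn_const (fun _ => 1)
      continuousOn_const 1 (fun _ _ => le_rfl) (fun _ _ _ _ => by simp)).2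
    rw [Es_eq hp ht0 hz] at h1
    simpa only [mul_one, integral_const, probReal_univ, one_smul] using h1
  · set a := EC k1 l1 j k (‖z‖ ^ 2) (fun v s => 2 * GG e k1 l1 j k F 1 z v s *
      (e * v * z * Xt k1 l1 (‖z‖ ^ 2) s /
        (2 * Real.sqrt (1 + XX k1 l1 (‖z‖ ^ 2) s) : ℝ))) with ha
    set b := EC k1 l1 j k (‖z‖ ^ 2) (fun v s => GG e k1 l1 j k F 2 z v s * (e * s * z *
      Real.sqrt (dl k1 l1 (‖z‖ ^ 2)) * Lm1 k1 l1 (‖z‖ ^ 2))) with hb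
    set c := EC k1 l1 j k (‖z‖ ^ 2) (fun v s => (j + 1) * z *
      (cc e k1 l1 j k F z v s - aa e k1 l1 j k F z) * Yt k1 l1 (‖z‖ ^ 2) s) with hc
    have h1 : ‖a - b + c‖ ^ 2 ≤ 3 * (‖a‖ ^ 2 + ‖b‖ ^ 2 + ‖c‖ ^ 2) := by
      have h2 : ‖a - b + c‖ ≤ ‖a‖ + ‖b‖ + ‖c‖ :=
        (norm_add_le _ _).trans (by linarith [norm_sub_le a b])
      have h3 := pow_le_pow_left₀ (norm_nonneg _) h2 2
      nlinarith [sq_nonneg (‖a‖ - ‖b‖), sq_nonneg (‖b‖ - ‖c‖), sq_nonneg (‖a‖ - ‖c‖)]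
    have h4 := mul_le_mul_of_nonneg_right hE1 hem
    have h5 := mul_le_mul_of_nonneg_right hE2 hem
    have h6 : 0 ≤ EE k1 l1 j k (‖z‖ ^ 2) (fun v s => ED e k1 l1 j k F z v s) *
      (e ^ 2 * mm k1 l1 j k (‖z‖ ^ 2)) := mul_nonneg hE0 hem
    change ‖a - b + c‖ ^ 2 ≤ 100 * e ^ 2 * mm k1 l1 j k (‖z‖ ^ 2) *
      EE k1 l1 j k (‖z‖ ^ 2) (fun v s => ED e k1 l1 j k F z v s)
    nlinarith
  · have haa : aa e k1 l1 j k F z = ∫ v, ∫ s, cc e k1 l1 j k F z v s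
      ∂(msF k1 l1 j k (‖z‖ ^ 2)) ∂(mvF j) := EC_eq hp ht0 hz _
    have h1 := fiA_var (mvF j) (msF k1 l1 j k (‖z‖ ^ 2)) (fun v s => cc e k1 l1 j k F z v s)
      (ncc.memLp hp ht0 hz) (fun v s => 8 * e ^ 2 * ED e k1 l1 j k F z v s)
      (fun v s => 8 * e ^ 2 * ED e k1 l1 j k F z v s)
      ((fi_ED_int (j := j) (k := k) hp hF hz).const_mul _)
      ((fi_ED_int (j := j) (k := k) hp hF hz).const_mul _) (fi_h1 hBL hPW hp hF hm hz)
      (fi_h2 hBL hp hF hm hz)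
    rw [← haa, fi_R_eq hp hz, ← EE_eq hp ht0 hz (fun v s =>
      ‖cc e k1 l1 j k F z v s - aa e k1 l1 j k F z‖ ^ 2)] at h1
    change EE k1 l1 j k (‖z‖ ^ 2) (fun v s => ‖cc e k1 l1 j k F z v s -
      aa e k1 l1 j k F z‖ ^ 2) ≤ 100 * e ^ 2 *
        EE k1 l1 j k (‖z‖ ^ 2) (fun v s => ED e k1 l1 j k F z v s)
    have h2 : 0 ≤ e ^ 2 * EE k1 l1 j k (‖z‖ ^ 2) (fun v s => ED e k1 l1 j k F z v s) :=
      mul_nonneg he2 hE0
    nlinarith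

end final2

end DbarN.JFI
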