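import Pool.Agent.H314.DN.Stmts2
import Pool.Agent.H314.DN.A0
import Pool.Agent.H314.DN.A1

set_option autoImplicit false

open MeasureTheory Complex Filter Topology
open scoped ContDiff InnerProductSpace ENNReal ComplexConjugate

namespace DbarN.JHO2

theorem h208_normsq {μ : Measure E3} {F : E3 → ℂ} (hF : MemLp F 2 μ) :
    (eLpNorm F 2 μ).toReal ^ 2 = ∫ x, ‖F x‖ ^ 2 ∂μ := by
  rw [hF.eLpNorm_eq_integral_rpow_norm (by norm_num) (by norm_num)]
  have h0 : 0 ≤ ∫ x, ‖F x‖ ^ 2 ∂μ := integral_nonneg fun x => by positivity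
  have h1 : ∫ x, ‖F x‖ ^ (2 : ℝ≥0∞).toReal ∂μ = ∫ x, ‖F x‖ ^ 2 ∂μ := by
    simp
  rw [h1, ENNReal.toReal_ofReal (by positivity), ← Real.rpow_natCast, ← Real.rpow_mul h0]
  simp

theorem h208_form_normsq {Ω : Set E3} {w : Fin 3 → E3 → ℂ}
    (hw : ∀ j, MemLp (w j) 2 ((volume : Measure E3).restrict Ω)) :
    ‖(WithLp.toLp 2 (fun j => (hw j).toLp (w j)) : Form Ω)‖ ^ 2 = ∑ j, ∫ x in Ω, ‖w j x‖ ^ 2 := by
  rw [PiLp.norm_sq_eq_of_L2]
  refine Finset.sum_congr rfl fun j _ => ?_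
  rw [← h208_normsq (hw j)]
  show ‖(hw j).toLp (w j)‖ ^ 2 = _
  rw [Lp.norm_toLp]

theorem hor2 (hS : HS2_stmt) (hM : Moll_stmt) (hC : Cl1_stmt) : Hor2_stmt := by
  intro Ω hΩ hconv hbdd h0 a ha hthin c hc
  obtain ⟨M, r, hr, hr01, hM1, hM2, -⟩ := hM Ω hΩ hconv hbdd h0
  have hcm : ∀ j, MemLp (c j) 2 (volume.restrict Ω) := fun j => Lp.memLp (c j)
  set C : ℝ := Real.sqrt (8 * a ^ 2 * ‖c‖ ^ 2) with hCdef
  have hC0 : 0 ≤ C := Real.sqrt_nonneg _
  have hCsq : C ^ 2 = 8 * a ^ 2 * ‖c‖ ^ 2 := Real.sq_sqrt (by positivity)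
  obtain ⟨v, hv1, hv2⟩ := hC Ω hΩ c C hC0 (by
    intro η hη
    -- choose n
    have hev1 : ∀ᶠ n in atTop, 3 ≤ 8 * (r n ^ 3) ^ 2 := by
      have h1 : Tendsto (fun n => 8 * (r n ^ 3) ^ 2) atTop (𝓝 (8 * (1 ^ 3) ^ 2)) :=
        ((hr.pow 3).pow 2).const_mul 8
      have h2 : ∀ᶠ n in atTop, (3 : ℝ) < 8 * (r n ^ 3) ^ 2 :=
        h1.eventually (lt_mem_nhds (by norm_num))
      exact h2.mono fun n hn => hn.le
    have hev2 : ∀ j : Fin 3, ∀ᶠ n in atTop,
        eLpNorm (M n (c j) - (c j : E3 → ℂ)) 2 (volume.restrict Ω) < ENNReal.ofReal (η / 4) := by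
      intro j
      exact (hM1 (c j) (hcm j)).2.1.eventually (gt_mem_nhds (by positivity))
    obtain ⟨n, hn1, hn2⟩ := (hev1.and (eventually_all.2 hev2)).exists
    obtain ⟨hrn0, hrn1⟩ := hr01 n
    have htest : ∀ j, IsTest Set.univ (M n (c j)) := fun j => (hM1 (c j) (hcm j)).1 n
    -- M n 0 = 0
    have hM0 : M n 0 = 0 := by
      have h1 := (hM1 0 MemLp.zero)
      have h2 := h1.2.2 n
      rw [eLpNorm_zero, nonpos_iff_eq_zero, mul_eq_zero] at h2
      rcases h2 with h2 | h2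
      · rw [ENNReal.ofReal_eq_zero] at h2
        have : 0 < r n ^ 3 := by positivity
        linarith
      · have hcont : Continuous (M n 0) := (h1.1 n).smooth.continuous
        rw [eLpNorm_eq_zero_iff hcont.aestronglyMeasurable (by norm_num)] at h2
        exact (Continuous.ae_eq_iff_eq volume hcont continuous_zero).1 h2
    obtain ⟨U, hU, hUΩ, hUeq⟩ := hM2 n
    have hdiv : ∀ x ∈ U, ∑ i : Fin 3, dbar i (M n (c i)) x = 0 := by
      intro x hx
      have h1 := hUeq (fun i j => if i = j then 1 else 0) (fun i => c i) 0 hcm MemLp.zero (by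
        intro φ hφ
        have h2 := hc φ hφ
        simp only [ite_mul, one_mul, zero_mul, Finset.sum_ite_eq, Finset.mem_univ, if_true,
          Pi.zero_apply, integral_zero, neg_zero]
        exact h2) x hx
      simp only [ite_mul, one_mul, zero_mul, Finset.sum_ite_eq, Finset.mem_univ, if_true] at h1
      rw [h1, hM0]
      simp
    obtain ⟨w, e, hw, he, hwe, hwn, hen⟩ := hS Ω hΩ hconv hbdd h0 a ha hthin
      (fun j => M n (c j)) U htest hU hUΩ hdiv ((η / 2) ^ 2) (by positivity)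
    have hvm : ∀ j, MemLp (M n (c j)) 2 (volume : Measure E3) := fun j =>
      (htest j).smooth.continuous.memLp_of_hasCompactSupport (htest j).compact
    have hvm' : ∀ j, MemLp (M n (c j)) 2 (volume.restrict Ω) := fun j => (hvm j).restrict Ω
    let f' : Form Ω := WithLp.toLp 2 (fun j => (hw j).toLp (w j))
    let v' : Form Ω := WithLp.toLp 2 (fun j => (hvm' j).toLp (M n (c j)))
    let e' : Form Ω := WithLp.toLp 2 (fun j => (he j).toLp (e j))
    have hf' : ∀ j, (f' j : E3 → ℂ) =ᵐ[volume.restrict Ω] w j := fun j => (hw j).coeFn_toLp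
    have hv' : ∀ j, (v' j : E3 → ℂ) =ᵐ[volume.restrict Ω] M n (c j) := fun j => (hvm' j).coeFn_toLp
    have he' : ∀ j, (e' j : E3 → ℂ) =ᵐ[volume.restrict Ω] e j := fun j => (he j).coeFn_toLp
    have hg' : ∀ j, ((v' - e') j : E3 → ℂ) =ᵐ[volume.restrict Ω] fun x => M n (c j) x - e j x := by
      intro j
      have h1 : ((v' - e') j : L2 Ω) = v' j - e' j := rfl
      rw [h1]
      filter_upwards [Lp.coeFn_sub (v' j) (e' j), hv' j, he' j] with x h2 h3 h4
      rw [h2, Pi.sub_apply, h3, h4]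
    refine ⟨f', v' - e', ?_, ?_, ?_⟩
    · intro i φ hφ
      have h1 := hwe i φ hφ
      have h2 : ∫ x in Ω, (f' (i + 2) x * dbar (i + 1) φ x - f' (i + 1) x * dbar (i + 2) φ x)
          = ∫ x in Ω, (w (i + 2) x * dbar (i + 1) φ x - w (i + 1) x * dbar (i + 2) φ x) := by
        apply integral_congr_ae
        filter_upwards [hf' (i + 2), hf' (i + 1)] with x h3 h4
        rw [h3, h4]
      have h3 : ∫ x in Ω, (v' - e') i x * φ x = ∫ x in Ω, (M n (c i) x - e i x) * φ x := by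
        apply integral_congr_ae
        filter_upwards [hg' i] with x h4
        rw [h4]
      rw [h2, h3, h1]
    · have h1 : ‖f'‖ ^ 2 = ∑ j, ∫ x in Ω, ‖w j x‖ ^ 2 := h208_form_normsq hw
      have h2 : ∀ j, (r n ^ 3) ^ 2 * ∫ x, ‖M n (c j) x‖ ^ 2 ≤ ‖c j‖ ^ 2 := by
        intro j
        rw [← h208_normsq (hvm j)]
        have h3 := (hM1 (c j) (hcm j)).2.2 n
        have h4 := ENNReal.toReal_mono (hcm j).2.ne h3
        rw [ENNReal.toReal_mul, ENNReal.toReal_ofReal (by positivity)] at h4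
        have h5 : ‖c j‖ = (eLpNorm (c j) 2 (volume.restrict Ω)).toReal := Lp.norm_def _
        rw [h5, ← mul_pow]
        exact pow_le_pow_left₀ (by positivity) h4 2
      have h3 : (r n ^ 3) ^ 2 * ∑ j, ∫ x, ‖M n (c j) x‖ ^ 2 ≤ ‖c‖ ^ 2 := by
        rw [PiLp.norm_sq_eq_of_L2, Finset.mul_sum]
        exact Finset.sum_le_sum fun j _ => h2 j
      have h4 : 0 ≤ ∑ j, ∫ x, ‖M n (c j) x‖ ^ 2 :=
        Finset.sum_nonneg fun j _ => integral_nonneg fun x => by positivity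
      have h5 : ‖f'‖ ^ 2 ≤ C ^ 2 := by
        rw [h1, hCsq]
        refine hwn.trans ?_
        have h6 : 3 * ∑ j, ∫ x, ‖M n (c j) x‖ ^ 2 ≤
            8 * ((r n ^ 3) ^ 2 * ∑ j, ∫ x, ‖M n (c j) x‖ ^ 2) := by nlinarith
        have h7 : 3 * ∑ j, ∫ x, ‖M n (c j) x‖ ^ 2 ≤ 8 * ‖c‖ ^ 2 := by linarith
        calc 3 * a ^ 2 * ∑ j, ∫ x, ‖M n (c j) x‖ ^ 2
            = a ^ 2 * (3 * ∑ j, ∫ x, ‖M n (c j) x‖ ^ 2) := by ring
          _ ≤ a ^ 2 * (8 * ‖c‖ ^ 2) := by gcongr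
          _ = 8 * a ^ 2 * ‖c‖ ^ 2 := by ring
      have h6 : ‖f'‖ ≤ C := le_of_sq_le_sq h5 hC0
      linarith
    · have h1 : ‖e'‖ ≤ η / 2 := by
        have h2 : ‖e'‖ ^ 2 ≤ (η / 2) ^ 2 := by
          rw [show ‖e'‖ ^ 2 = ∑ j, ∫ x in Ω, ‖e j x‖ ^ 2 from h208_form_normsq he]
          exact hen
        exact le_of_sq_le_sq h2 (by positivity)
      have h2 : ‖v' - c‖ ≤ η / 2 := by
        have h3 : ∀ j, ‖(v' - c) j‖ ^ 2 ≤ (η / 4) ^ 2 := by
          intro j
          have h4 : ‖(v' - c) j‖ ≤ η / 4 := by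
            have h5 : ((v' - c) j : L2 Ω) = (hvm' j).toLp (M n (c j)) - (hcm j).toLp (c j) := by
              rw [Lp.toLp_coeFn]; rfl
            rw [h5, ← MemLp.toLp_sub, Lp.norm_toLp]
            exact ENNReal.toReal_le_of_le_ofReal (by positivity) (hn2 j).le
          exact pow_le_pow_left₀ (norm_nonneg _) h4 2
        have h4 : ‖v' - c‖ ^ 2 ≤ (η / 2) ^ 2 := by
          rw [PiLp.norm_sq_eq_of_L2, Fin.sum_univ_three]
          have := h3 0
          have := h3 1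
          have := h3 2
          nlinarith [sq_nonneg η]
        exact le_of_sq_le_sq h4 (by positivity)
      calc ‖v' - e' - c‖ = ‖(v' - c) - e'‖ := by congr 1; abel
        _ ≤ ‖v' - c‖ + ‖e'‖ := norm_sub_le _ _
        _ ≤ η / 2 + η / 2 := add_le_add h2 h1
        _ = η := by ring)
  refine ⟨v, hv1, ?_⟩
  rw [← hCsq]
  exact pow_le_pow_left₀ (norm_nonneg _) hv2 2

end DbarN.JHO2
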