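import Pool.Agent.H314.DN.Stmts3
import Pool.Agent.H314.DN.A0
import Pool.Agent.H314.DN.A1

set_option autoImplicit false

open MeasureTheory Complex Filter Topology
open scoped ContDiff InnerProductSpace ENNReal ComplexConjugate

namespace DbarN.JHP

theorem hp_st0 (x : ℝ) (hx : x ≤ 0) : deriv Real.smoothTransition x = 0 := by
  apply IsLocalMin.deriv_eq_zero
  apply Filter.Eventually.of_forall
  intro y
  rw [Real.smoothTransition.zero_of_nonpos hx]
  exact Real.smoothTransition.nonneg y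

theorem hp_st1 (x : ℝ) (hx : 1 ≤ x) : deriv Real.smoothTransition x = 0 := by
  apply IsLocalMax.deriv_eq_zero
  apply Filter.Eventually.of_forall
  intro y
  rw [Real.smoothTransition.one_of_one_le hx]
  exact Real.smoothTransition.le_one y

theorem hp_stK : ∃ K : ℝ, ∀ x, |deriv Real.smoothTransition x| ≤ K := by
  have hc : Continuous (deriv Real.smoothTransition) :=
    (Real.smoothTransition.contDiff (n := 1)).continuous_deriv (by norm_num)
  obtain ⟨K, hK⟩ := (isCompact_Icc (a := (0:ℝ)) (b := 1)).exists_bound_of_continuousOn hc.continuousOn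
  refine ⟨max K 0, fun x => ?_⟩
  by_cases h0 : x ≤ 0
  · rw [hp_st0 x h0, abs_zero]; exact le_max_right _ _
  · by_cases h1 : 1 ≤ x
    · rw [hp_st1 x h1, abs_zero]; exact le_max_right _ _
    · exact (hK x ⟨le_of_not_ge h0, le_of_not_ge h1⟩).trans (le_max_left _ _)

theorem hp_theta : ∃ C : ℝ, 1 ≤ C ∧ ∀ y : ℝ, 0 < y → y ≤ 1 / 10 → ∃ θ : ℂ → ℝ, ContDiff ℝ 2 θ ∧
    (∀ z, ‖z‖ ^ 2 ≤ 1 + y → θ z = 0) ∧ (∀ z, 1 + 2 * y ≤ ‖z‖ ^ 2 → θ z = Real.pi / 2) ∧
    (∀ z, ‖z‖ ^ 2 ≤ 1 + y → (fderiv ℝ θ z 1) ^ 2 + (fderiv ℝ θ z I) ^ 2 = 0) ∧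
    (∀ z, (fderiv ℝ θ z 1) ^ 2 + (fderiv ℝ θ z I) ^ 2 ≤ C / y ^ 2) := by
  obtain ⟨K, hK⟩ := hp_stK
  have hK0 : 0 ≤ K := (abs_nonneg _).trans (hK 0)
  refine ⟨12 * K ^ 2 + 1, by nlinarith [sq_nonneg K], fun y hy hy1 => ?_⟩
  have hst : ContDiff ℝ 2 Real.smoothTransition := Real.smoothTransition.contDiff (n := 2)
  have hin : ContDiff ℝ 2 (fun z : ℂ => (‖z‖ ^ 2 - 1 - y) / y) := by
    have : ContDiff ℝ 2 (fun z : ℂ => ‖z‖ ^ 2) := contDiff_norm_sq ℝ
    exact ((this.sub contDiff_const).sub contDiff_const).div_const y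
  have hθ : ContDiff ℝ 2 (fun z : ℂ => (Real.pi / 2) *
      Real.smoothTransition ((‖z‖ ^ 2 - 1 - y) / y)) :=
    contDiff_const.mul (hst.comp hin)
  have hd : ∀ (z v : ℂ), fderiv ℝ (fun z : ℂ => (Real.pi / 2) *
      Real.smoothTransition ((‖z‖ ^ 2 - 1 - y) / y)) z v =
      (Real.pi / 2) * (deriv Real.smoothTransition ((‖z‖ ^ 2 - 1 - y) / y) *
        ((2 * ⟪z, v⟫_ℝ) / y)) := by
    intro z v
    have h1 : HasFDerivAt (fun x : ℂ => ‖x‖ ^ 2) (2 • innerSL ℝ z) z :=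
      (hasStrictFDerivAt_norm_sq z).hasFDerivAt
    have h2 : HasFDerivAt (fun x : ℂ => (‖x‖ ^ 2 - 1 - y) * y⁻¹) (y⁻¹ • (2 • innerSL ℝ z)) z :=
      ((h1.sub_const 1).sub_const y).mul_const y⁻¹
    have h3 : HasDerivAt Real.smoothTransition
        (deriv Real.smoothTransition ((‖z‖ ^ 2 - 1 - y) * y⁻¹)) ((‖z‖ ^ 2 - 1 - y) * y⁻¹) :=
      ((hst.differentiable (by norm_num)) _).hasDerivAt
    have h4 := (h3.comp_hasFDerivAt z h2).const_mul (Real.pi / 2)
    have h5 : (fun z : ℂ => (Real.pi / 2) * Real.smoothTransition ((‖z‖ ^ 2 - 1 - y) / y)) =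
        fun z : ℂ => (Real.pi / 2) * (Real.smoothTransition ∘
          fun x : ℂ => (‖x‖ ^ 2 - 1 - y) * y⁻¹) z := by
      funext z
      simp [div_eq_mul_inv]
    rw [h5, h4.fderiv]
    simp [div_eq_mul_inv, -mul_eq_mul_left_iff]
    ring
  have hnorm : ∀ z : ℂ, ⟪z, (1 : ℂ)⟫_ℝ ^ 2 + ⟪z, I⟫_ℝ ^ 2 = ‖z‖ ^ 2 := by
    intro z
    rw [Complex.inner, Complex.inner, ← Complex.normSq_eq_norm_sq, Complex.normSq_apply]
    simp
    ring
  have hgr : ∀ z : ℂ, (fderiv ℝ (fun z : ℂ => (Real.pi / 2) *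
      Real.smoothTransition ((‖z‖ ^ 2 - 1 - y) / y)) z 1) ^ 2 + (fderiv ℝ (fun z : ℂ => (Real.pi / 2) *
      Real.smoothTransition ((‖z‖ ^ 2 - 1 - y) / y)) z I) ^ 2 =
      Real.pi ^ 2 * (deriv Real.smoothTransition ((‖z‖ ^ 2 - 1 - y) / y)) ^ 2 * ‖z‖ ^ 2 / y ^ 2 := by
    intro z
    rw [hd, hd, ← hnorm z]
    field_simp
  refine ⟨fun z : ℂ => (Real.pi / 2) * Real.smoothTransition ((‖z‖ ^ 2 - 1 - y) / y), hθ,
    ?_, ?_, ?_, ?_⟩
  · intro z hz
    have h1 : (‖z‖ ^ 2 - 1 - y) / y ≤ 0 := div_nonpos_of_nonpos_of_nonneg (by linarith) hy.le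
    show (Real.pi / 2) * Real.smoothTransition ((‖z‖ ^ 2 - 1 - y) / y) = 0
    rw [Real.smoothTransition.zero_of_nonpos h1, mul_zero]
  · intro z hz
    have h1 : 1 ≤ (‖z‖ ^ 2 - 1 - y) / y := by
      rw [le_div_iff₀ hy]; linarith
    show (Real.pi / 2) * Real.smoothTransition ((‖z‖ ^ 2 - 1 - y) / y) = Real.pi / 2
    rw [Real.smoothTransition.one_of_one_le h1, mul_one]
  · intro z hz
    have h1 : (‖z‖ ^ 2 - 1 - y) / y ≤ 0 := div_nonpos_of_nonpos_of_nonneg (by linarith) hy.le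
    rw [hgr, hp_st0 _ h1]
    simp
  · intro z
    rw [hgr]
    apply div_le_div_of_nonneg_right _ (by positivity)
    by_cases h : 1 ≤ (‖z‖ ^ 2 - 1 - y) / y
    · rw [hp_st1 _ h]
      simp <;> positivity
    · rw [not_le, div_lt_one hy] at h
      have h1 : ‖z‖ ^ 2 ≤ 1.2 := by linarith
      have h2 : (deriv Real.smoothTransition ((‖z‖ ^ 2 - 1 - y) / y)) ^ 2 ≤ K ^ 2 := by
        rw [← sq_abs]
        exact pow_le_pow_left₀ (abs_nonneg _) (hK _) 2
      have h3 : Real.pi ^ 2 ≤ 10 := by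
        have h4 := Real.pi_lt_d2
        have h5 := Real.pi_pos
        nlinarith
      calc Real.pi ^ 2 * (deriv Real.smoothTransition ((‖z‖ ^ 2 - 1 - y) / y)) ^ 2 * ‖z‖ ^ 2
          ≤ 10 * K ^ 2 * 1.2 := by
            apply mul_le_mul _ h1 (by positivity) (by positivity)
            exact mul_le_mul h3 h2 (by positivity) (by norm_num)
        _ ≤ 12 * K ^ 2 + 1 := by linarith

theorem hp_scale (hL : LamC2_stmt) (hlam : 0 ≤ lamStar) (ψ : ℂ → ℝ) (hψ : ContDiff ℝ 2 ψ) (y : ℝ) (hy : 0 < y)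
    (hz : ∀ z, 1 + 2 * y ≤ ‖z‖ ^ 2 → ψ z = 0) :
    lamStar * (1 - 2 * y) * ∫ z, ψ z ^ 2 ≤
      (1 / 4) * ∫ z, ((fderiv ℝ ψ z 1) ^ 2 + (fderiv ℝ ψ z I) ^ 2) := by
  obtain ⟨R, hR, hR2⟩ : ∃ R : ℝ, 0 < R ∧ R ^ 2 = 1 + 2 * y + 4 * y ^ 2 :=
    ⟨Real.sqrt (1 + 2 * y + 4 * y ^ 2), Real.sqrt_pos.2 (by positivity),
      Real.sq_sqrt (by positivity)⟩
  have hf : ContDiff ℝ 2 (fun w : ℂ => ψ (R • w)) := hψ.comp (contDiff_const_smul R)
  have hsupp : ∀ w : ℂ, w ∉ Metric.closedBall (0 : ℂ) (Real.sqrt ((1 + 2 * y) / R ^ 2)) →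
      ψ (R • w) = 0 := by
    intro w hw
    rw [mem_closedBall_zero_iff, not_le] at hw
    apply hz
    rw [norm_smul, mul_pow, Real.norm_eq_abs, sq_abs]
    have h1 : (1 + 2 * y) / R ^ 2 < ‖w‖ ^ 2 := by
      rw [← Real.sqrt_lt_sqrt_iff (by positivity), Real.sqrt_sq (norm_nonneg _)]
      exact hw
    rw [div_lt_iff₀ (by positivity)] at h1
    linarith
  have hts : tsupport (fun w : ℂ => ψ (R • w)) ⊆
      Metric.closedBall (0 : ℂ) (Real.sqrt ((1 + 2 * y) / R ^ 2)) := by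
    apply closure_minimal _ Metric.isClosed_closedBall
    intro w hw
    by_contra h
    exact hw (hsupp w h)
  have hlt : Real.sqrt ((1 + 2 * y) / R ^ 2) < 1 := by
    rw [Real.sqrt_lt' one_pos, one_pow, div_lt_one (by positivity), hR2]
    have : 0 < y ^ 2 := by positivity
    linarith
  have key := hL (fun w : ℂ => ψ (R • w)) hf
    (HasCompactSupport.intro (isCompact_closedBall _ _) hsupp)
    (hts.trans (Metric.closedBall_subset_ball hlt))
  have hd : ∀ (w v : ℂ), fderiv ℝ (fun w : ℂ => ψ (R • w)) w v = R * fderiv ℝ ψ (R • w) v := by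
    intro w v
    have h1 : HasFDerivAt (fun w : ℂ => R • w) (R • ContinuousLinearMap.id ℝ ℂ) w := by
      exact (hasFDerivAt_id (𝕜 := ℝ) w).const_smul R
    have h2 := ((hψ.differentiable (by norm_num)) (R • w)).hasFDerivAt.comp w h1
    have h3 : HasFDerivAt (fun w : ℂ => ψ (R • w)) _ w := h2
    rw [h3.fderiv]
    simp
  have e1 : ∫ w : ℂ, (ψ (R • w)) ^ 2 = (R ^ 2)⁻¹ * ∫ z, ψ z ^ 2 := by
    have h := Measure.integral_comp_smul_of_nonneg (volume : Measure ℂ) (fun z => ψ z ^ 2) R (hR := hR.le)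
    rw [Complex.finrank_real_complex, smul_eq_mul] at h
    exact h
  have e2 : ∫ w : ℂ, ((fderiv ℝ (fun w : ℂ => ψ (R • w)) w 1) ^ 2 +
      (fderiv ℝ (fun w : ℂ => ψ (R • w)) w I) ^ 2) =
      ∫ z, ((fderiv ℝ ψ z 1) ^ 2 + (fderiv ℝ ψ z I) ^ 2) := by
    have h := Measure.integral_comp_smul_of_nonneg (volume : Measure ℂ)
      (fun z => (fderiv ℝ ψ z 1) ^ 2 + (fderiv ℝ ψ z I) ^ 2) R (hR := hR.le)
    rw [Complex.finrank_real_complex, smul_eq_mul] at h
    have h2 : (fun w : ℂ => (fderiv ℝ (fun w : ℂ => ψ (R • w)) w 1) ^ 2 +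
        (fderiv ℝ (fun w : ℂ => ψ (R • w)) w I) ^ 2) =
        fun w : ℂ => R ^ 2 * ((fderiv ℝ ψ (R • w) 1) ^ 2 + (fderiv ℝ ψ (R • w) I) ^ 2) := by
      funext w
      rw [hd, hd]; ring
    rw [h2, integral_const_mul, h, ← mul_assoc, mul_inv_cancel₀ (by positivity), one_mul]
  rw [e1, e2] at key
  refine le_trans ?_ key
  have hint : 0 ≤ ∫ z : ℂ, ψ z ^ 2 := integral_nonneg (fun z => sq_nonneg _)
  have hinv : 1 - 2 * y ≤ (R ^ 2)⁻¹ := by
    rw [hR2, ← one_div, le_div_iff₀ (by positivity)]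
    have : 0 < y ^ 3 := by positivity
    nlinarith
  calc lamStar * (1 - 2 * y) * ∫ z, ψ z ^ 2 = lamStar * ((1 - 2 * y) * ∫ z, ψ z ^ 2) := by ring
    _ ≤ lamStar * ((R ^ 2)⁻¹ * ∫ z, ψ z ^ 2) :=
        mul_le_mul_of_nonneg_left (mul_le_mul_of_nonneg_right hinv hint) hlam

theorem hplane (hL : LamC2_stmt) : Hplane_stmt := by
  obtain ⟨C, hC1, hC⟩ := hp_theta
  have hlam : 0 ≤ lamStar := by
    apply Real.sInf_nonneg
    rintro r ⟨φ, _, _, _, _, rfl⟩
    have : 0 ≤ ∫ z : ℂ, ((fderiv ℝ φ z 1) ^ 2 + (fderiv ℝ φ z I) ^ 2) :=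
      integral_nonneg (fun z => by positivity)
    positivity
  refine ⟨C, hC1, fun T y m hT hy hy1 hm hm1 hm2 φ hφ hφc hφs => ?_⟩
  obtain ⟨θ, hθ, hθ0, hθ1, hg0, hgC⟩ := hC y hy hy1
  have hφd : ∀ z, HasFDerivAt φ (fderiv ℝ φ z) z := fun z =>
    ((hφ.differentiable (by norm_num)) z).hasFDerivAt
  have hθd : ∀ z, HasFDerivAt θ (fderiv ℝ θ z) z := fun z =>
    ((hθ.differentiable (by norm_num)) z).hasFDerivAt
  have hψ1 : ContDiff ℝ 2 (fun z => Real.cos (θ z) * φ z) := hθ.cos.mul hφ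
  have hψ2 : ContDiff ℝ 2 (fun z => Real.sin (θ z) * φ z) := hθ.sin.mul hφ
  have hd1 : ∀ z v, fderiv ℝ (fun z => Real.cos (θ z) * φ z) z v =
      Real.cos (θ z) * fderiv ℝ φ z v - Real.sin (θ z) * fderiv ℝ θ z v * φ z := by
    intro z v
    have h := (hθd z).cos.mul (hφd z)
    have h2 : HasFDerivAt (fun z => Real.cos (θ z) * φ z) _ z := h
    rw [h2.fderiv]
    simp
    ring
  have hd2 : ∀ z v, fderiv ℝ (fun z => Real.sin (θ z) * φ z) z v =
      Real.sin (θ z) * fderiv ℝ φ z v + Real.cos (θ z) * fderiv ℝ θ z v * φ z := by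
    intro z v
    have h := (hθd z).sin.mul (hφd z)
    have h2 : HasFDerivAt (fun z => Real.sin (θ z) * φ z) _ z := h
    rw [h2.fderiv]
    simp
    ring
  -- IMS identity
  have hims : ∀ z, (fderiv ℝ φ z 1) ^ 2 + (fderiv ℝ φ z I) ^ 2 =
      ((fderiv ℝ (fun z => Real.cos (θ z) * φ z) z 1) ^ 2 +
        (fderiv ℝ (fun z => Real.cos (θ z) * φ z) z I) ^ 2) +
      ((fderiv ℝ (fun z => Real.sin (θ z) * φ z) z 1) ^ 2 +
        (fderiv ℝ (fun z => Real.sin (θ z) * φ z) z I) ^ 2) -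
      ((fderiv ℝ θ z 1) ^ 2 + (fderiv ℝ θ z I) ^ 2) * φ z ^ 2 := by
    intro z
    rw [hd1, hd1, hd2, hd2]
    have h := Real.sin_sq_add_cos_sq (θ z)
    have hs : Real.sin (θ z) ^ 2 = 1 - Real.cos (θ z) ^ 2 := by linarith
    ring_nf
    rw [hs]
    ring
  -- continuity and integrability
  have hφcont := hφ.continuous
  have hθcont := hθ.continuous
  have hfφ : ∀ v, Continuous (fun z => fderiv ℝ φ z v) := fun v =>
    (hφ.continuous_fderiv (by norm_num)).clm_apply continuous_const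
  have hfθ : ∀ v, Continuous (fun z => fderiv ℝ θ z v) := fun v =>
    (hθ.continuous_fderiv (by norm_num)).clm_apply continuous_const
  have hf1 : ∀ v, Continuous (fun z => fderiv ℝ (fun z => Real.cos (θ z) * φ z) z v) := fun v =>
    (hψ1.continuous_fderiv (by norm_num)).clm_apply continuous_const
  have hf2 : ∀ v, Continuous (fun z => fderiv ℝ (fun z => Real.sin (θ z) * φ z) z v) := fun v =>
    (hψ2.continuous_fderiv (by norm_num)).clm_apply continuous_const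
  have hzero : ∀ z, z ∉ tsupport φ → φ z = 0 := fun z hz => image_eq_zero_of_notMem_tsupport hz
  have hzero' : ∀ z, z ∉ tsupport φ → fderiv ℝ φ z = 0 := fun z hz => by
    have := tsupport_fderiv_subset ℝ (f := φ)
    exact image_eq_zero_of_notMem_tsupport (fun h => hz (this h))
  have hint : ∀ F : ℂ → ℝ, Continuous F → (∀ z, z ∉ tsupport φ → F z = 0) → Integrable F := by
    intro F hF h0
    exact hF.integrable_of_hasCompactSupport (HasCompactSupport.intro hφc h0)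
  have hI1 : Integrable (fun z => (fderiv ℝ (fun z => Real.cos (θ z) * φ z) z 1) ^ 2 +
      (fderiv ℝ (fun z => Real.cos (θ z) * φ z) z I) ^ 2) := by
    refine hint _ ?_ ?_
    · exact ((hf1 1).pow 2).add ((hf1 I).pow 2)
    · intro z hz
      simp only [hd1, hzero z hz, hzero' z hz]; simp
  have hI2 : Integrable (fun z => (fderiv ℝ (fun z => Real.sin (θ z) * φ z) z 1) ^ 2 +
      (fderiv ℝ (fun z => Real.sin (θ z) * φ z) z I) ^ 2) := by
    refine hint _ ?_ ?_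
    · exact ((hf2 1).pow 2).add ((hf2 I).pow 2)
    · intro z hz
      simp only [hd2, hzero z hz, hzero' z hz]; simp
  have hI3 : Integrable (fun z => ((fderiv ℝ θ z 1) ^ 2 + (fderiv ℝ θ z I) ^ 2) * φ z ^ 2) := by
    refine hint _ ?_ ?_
    · exact (((hfθ 1).pow 2).add ((hfθ I).pow 2)).mul (hφcont.pow 2)
    · intro z hz
      simp only [hzero z hz]; simp
  have hI4 : Integrable (fun z => (Real.cos (θ z) * φ z) ^ 2) := by
    apply hint _ (by fun_prop)
    intro z hz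
    rw [hzero z hz]; simp
  have hI5 : Integrable (fun z => (Real.sin (θ z) * φ z) ^ 2) := by
    apply hint _ (by fun_prop)
    intro z hz
    rw [hzero z hz]; simp
  have hI6 : Integrable (fun z => (m (‖z‖ ^ 2) / 16) * φ z ^ 2) := by
    have hon : ContinuousOn (fun z => (m (‖z‖ ^ 2) / 16) * φ z ^ 2) (tsupport φ) := by
      apply ContinuousOn.mul
      · apply ContinuousOn.div_const
        apply hm.comp (by fun_prop)
        intro z hz
        exact ⟨by positivity, hφs hz⟩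
      · exact (hφcont.pow 2).continuousOn
    have hion := hon.integrableOn_compact hφc (μ := volume)
    rw [integrableOn_iff_integrable_of_support_subset] at hion
    · exact hion
    · intro z hz
      by_contra h
      apply hz
      show (m (‖z‖ ^ 2) / 16) * φ z ^ 2 = 0
      rw [hzero z h]; simp
  -- pointwise bound
  have hpt : ∀ z, 2 * y * lamStar * (Real.cos (θ z) * φ z) ^ 2 +
      lamStar * (Real.sin (θ z) * φ z) ^ 2 ≤
      (m (‖z‖ ^ 2) / 16) * φ z ^ 2 -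
        (1 / 4) * (((fderiv ℝ θ z 1) ^ 2 + (fderiv ℝ θ z I) ^ 2) * φ z ^ 2) := by
    intro z
    by_cases hz : z ∈ tsupport φ
    · have hzT : ‖z‖ ^ 2 ∈ Set.Ico 0 T := ⟨by positivity, hφs hz⟩
      by_cases h1 : ‖z‖ ^ 2 ≤ 1 + y
      · rw [hg0 z h1, hθ0 z h1, Real.cos_zero, Real.sin_zero]
        have h2 := hm1 _ hzT h1
        have h3 : 2 * y * lamStar ≤ m (‖z‖ ^ 2) / 16 := by nlinarith
        have h4 := mul_le_mul_of_nonneg_right h3 (sq_nonneg (φ z))
        nlinarith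
      · rw [not_le] at h1
        have h2 := hm2 _ hzT h1.le
        have h3 := hgC z
        have h5 : 0 ≤ C / y ^ 2 := by positivity
        have h6 : lamStar ≤ m (‖z‖ ^ 2) / 16 -
            (1 / 4) * ((fderiv ℝ θ z 1) ^ 2 + (fderiv ℝ θ z I) ^ 2) := by linarith
        have h7 := mul_le_mul_of_nonneg_right h6 (sq_nonneg (φ z))
        have h8 : 2 * y * lamStar ≤ lamStar := by nlinarith
        have h9 := mul_le_mul_of_nonneg_right h8 (sq_nonneg (Real.cos (θ z) * φ z))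
        have h10 : φ z ^ 2 = (Real.cos (θ z) * φ z) ^ 2 + (Real.sin (θ z) * φ z) ^ 2 := by
          have h := Real.sin_sq_add_cos_sq (θ z)
          have hs : Real.sin (θ z) ^ 2 = 1 - Real.cos (θ z) ^ 2 := by linarith
          rw [mul_pow, mul_pow, hs]
          ring
        have h11 : lamStar * φ z ^ 2 = lamStar * (Real.cos (θ z) * φ z) ^ 2 +
            lamStar * (Real.sin (θ z) * φ z) ^ 2 := by rw [h10]; ring
        linarith
    · rw [hzero z hz]; simp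
  -- assemble
  have hA : lamStar * (1 - 2 * y) * ∫ z, (Real.cos (θ z) * φ z) ^ 2 ≤
      (1 / 4) * ∫ z, ((fderiv ℝ (fun z => Real.cos (θ z) * φ z) z 1) ^ 2 +
        (fderiv ℝ (fun z => Real.cos (θ z) * φ z) z I) ^ 2) := by
    apply hp_scale hL hlam _ hψ1 y hy
    intro z hz
    rw [hθ1 z hz, Real.cos_pi_div_two, zero_mul]
  have hB : 0 ≤ ∫ z, ((fderiv ℝ (fun z => Real.sin (θ z) * φ z) z 1) ^ 2 +
      (fderiv ℝ (fun z => Real.sin (θ z) * φ z) z I) ^ 2) :=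
    integral_nonneg (fun z => by positivity)
  have hD : ∫ z, ((fderiv ℝ φ z 1) ^ 2 + (fderiv ℝ φ z I) ^ 2) =
      (∫ z, ((fderiv ℝ (fun z => Real.cos (θ z) * φ z) z 1) ^ 2 +
        (fderiv ℝ (fun z => Real.cos (θ z) * φ z) z I) ^ 2)) +
      (∫ z, ((fderiv ℝ (fun z => Real.sin (θ z) * φ z) z 1) ^ 2 +
        (fderiv ℝ (fun z => Real.sin (θ z) * φ z) z I) ^ 2)) -
      ∫ z, ((fderiv ℝ θ z 1) ^ 2 + (fderiv ℝ θ z I) ^ 2) * φ z ^ 2 := by
    have e1 : ∫ z, ((fderiv ℝ φ z 1) ^ 2 + (fderiv ℝ φ z I) ^ 2) =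
        ∫ z, ((((fderiv ℝ (fun z => Real.cos (θ z) * φ z) z 1) ^ 2 +
        (fderiv ℝ (fun z => Real.cos (θ z) * φ z) z I) ^ 2) +
      ((fderiv ℝ (fun z => Real.sin (θ z) * φ z) z 1) ^ 2 +
        (fderiv ℝ (fun z => Real.sin (θ z) * φ z) z I) ^ 2)) -
      ((fderiv ℝ θ z 1) ^ 2 + (fderiv ℝ θ z I) ^ 2) * φ z ^ 2) := by
      apply integral_congr_ae
      filter_upwards with z
      exact hims z
    rw [e1, ← integral_add hI1 hI2]
    exact integral_sub (hI1.add hI2) hI3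
  have hE : 2 * y * lamStar * (∫ z, (Real.cos (θ z) * φ z) ^ 2) +
      lamStar * (∫ z, (Real.sin (θ z) * φ z) ^ 2) ≤
      (∫ z, (m (‖z‖ ^ 2) / 16) * φ z ^ 2) -
        (1 / 4) * ∫ z, ((fderiv ℝ θ z 1) ^ 2 + (fderiv ℝ θ z I) ^ 2) * φ z ^ 2 := by
    rw [← integral_const_mul, ← integral_const_mul, ← integral_const_mul]
    have e1 := integral_add (hI4.const_mul (2 * y * lamStar)) (hI5.const_mul lamStar)
    have e2 := integral_sub hI6 (hI3.const_mul (1 / 4))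
    rw [← e1, ← e2]
    apply integral_mono ((hI4.const_mul _).add (hI5.const_mul _)) (hI6.sub (hI3.const_mul _))
    intro z
    exact hpt z
  have hF : ∫ z, φ z ^ 2 = (∫ z, (Real.cos (θ z) * φ z) ^ 2) +
      ∫ z, (Real.sin (θ z) * φ z) ^ 2 := by
    rw [← integral_add hI4 hI5]
    apply integral_congr_ae
    filter_upwards with z
    have h := Real.sin_sq_add_cos_sq (θ z)
    have hs : Real.sin (θ z) ^ 2 = 1 - Real.cos (θ z) ^ 2 := by linarith
    rw [mul_pow, mul_pow, hs]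
    ring
  rw [hD, hF]
  linarith

end DbarN.JHP
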