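import Pool.Agent.H314.DN.Stmts3
import Pool.Agent.H314.DN.A0
import Pool.Agent.H314.DN.A1

set_option autoImplicit false

open MeasureTheory Complex Filter Topology
open scoped ContDiff InnerProductSpace ENNReal ComplexConjugate

namespace DbarN.JLP

theorem lp_ineq849 (φ : ℂ → ℝ) (hc : ContDiff ℝ ∞ φ) (hs : HasCompactSupport φ)
    (hb : tsupport φ ⊆ Metric.ball 0 1) :
    ∫ z, φ z ^ 2 ≤ 4 * ∫ z, (fderiv ℝ φ z 1) ^ 2 := by
  have hcont : Continuous φ := hc.continuous
  have hD : Continuous (fun z => fderiv ℝ φ z 1) :=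
    (hc.continuous_fderiv (by simp)).clm_apply continuous_const
  have hDs : HasCompactSupport (fun z => fderiv ℝ φ z 1) := hs.fderiv_apply ℝ 1
  have hdiff : ∀ z, DifferentiableAt ℝ φ z := fun z => (hc.differentiable (by simp)) z
  have hre : Continuous (fun z : ℂ => z.re) := Complex.continuous_re
  have hfd : ∀ z : ℂ, HasFDerivAt (fun z : ℂ => z.re * φ z)
      (z.re • fderiv ℝ φ z + φ z • Complex.reCLM) z := fun z =>
    (Complex.reCLM.hasFDerivAt (x := z)).mul (hdiff z).hasFDerivAt
  have hfd1 : ∀ z : ℂ, fderiv ℝ (fun z : ℂ => z.re * φ z) z 1 =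
      z.re * fderiv ℝ φ z 1 + φ z := by
    intro z
    rw [(hfd z).fderiv]
    simp
  have i1 : Integrable (fun z => (z.re * fderiv ℝ φ z 1 + φ z) * φ z) :=
    (((hre.mul hD).add hcont).mul hcont).integrable_of_hasCompactSupport hs.mul_left
  have i2 : Integrable (fun z => (z.re * φ z) * fderiv ℝ φ z 1) :=
    ((hre.mul hcont).mul hD).integrable_of_hasCompactSupport hDs.mul_left
  have i3 : Integrable (fun z => (z.re * φ z) * φ z) :=
    ((hre.mul hcont).mul hcont).integrable_of_hasCompactSupport hs.mul_left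
  have i4 : Integrable (fun z => φ z ^ 2) := by
    have := (hcont.mul hcont).integrable_of_hasCompactSupport (μ := volume) (hs.mul_left (f := φ))
    refine this.congr (Filter.Eventually.of_forall fun z => ?_)
    simp only [Pi.mul_apply]
    ring
  have i5 : Integrable (fun z => (fderiv ℝ φ z 1) ^ 2) := by
    have := (hD.mul hD).integrable_of_hasCompactSupport (μ := volume) (hDs.mul_left (f := fun z => fderiv ℝ φ z 1))
    refine this.congr (Filter.Eventually.of_forall fun z => ?_)
    simp only [Pi.mul_apply]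
    ring
  have key := integral_mul_fderiv_eq_neg_fderiv_mul_of_integrable (μ := (volume : Measure ℂ))
    (f := fun z : ℂ => z.re * φ z) (g := φ) (v := (1 : ℂ))
    (by simpa only [hfd1] using i1) i2 i3 (fun z _ => (hfd z).differentiableAt)
    (fun z _ => hdiff z)
  simp only [hfd1] at key
  have h1 : ∫ z, (z.re * fderiv ℝ φ z 1 + φ z) * φ z =
      (∫ z, (z.re * φ z) * fderiv ℝ φ z 1) + ∫ z, φ z ^ 2 := by
    rw [← integral_add i2 i4]
    refine integral_congr_ae (Filter.Eventually.of_forall fun z => ?_)
    simp only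
    ring
  rw [h1] at key
  have h2 : ∫ z, -2 * ((z.re * φ z) * fderiv ℝ φ z 1) ≤
      ∫ z, ((1 / 2) * φ z ^ 2 + 2 * (fderiv ℝ φ z 1) ^ 2) := by
    refine integral_mono (i2.const_mul _) ((i4.const_mul _).add (i5.const_mul _)) fun z => ?_
    simp only
    by_cases hz : z ∈ tsupport φ
    · have hz1 : ‖z‖ < 1 := by simpa using hb hz
      have hz2 : z.re ^ 2 ≤ 1 := by
        have h3 := Complex.abs_re_le_norm z
        have h4 : |z.re| ≤ 1 := h3.trans hz1.le
        rw [← sq_abs]
        exact pow_le_one₀ (abs_nonneg _) h4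
      have h5 : z.re ^ 2 * (fderiv ℝ φ z 1) ^ 2 ≤ (fderiv ℝ φ z 1) ^ 2 :=
        mul_le_of_le_one_left (sq_nonneg _) hz2
      nlinarith [sq_nonneg (φ z + 2 * (z.re * fderiv ℝ φ z 1))]
    · have h3 : φ z = 0 := image_eq_zero_of_notMem_tsupport hz
      rw [h3]
      nlinarith [sq_nonneg (fderiv ℝ φ z 1)]
  rw [integral_const_mul, integral_add (i4.const_mul _) (i5.const_mul _), integral_const_mul,
    integral_const_mul] at h2
  linarith

theorem lamStar_pos : 0 < lamStar := by
  refine lt_of_lt_of_le (show (0 : ℝ) < 1 / 16 by norm_num) ?_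
  refine le_csInf ?_ ?_
  · let b : ContDiffBump (0 : ℂ) := ⟨1 / 4, 1 / 2, by norm_num, by norm_num⟩
    have hbc : ContDiff ℝ ∞ (fun z => b z) := b.contDiff
    have hbs : HasCompactSupport (fun z => b z) := b.hasCompactSupport
    have hint : Integrable (fun z => b z ^ 2) := by
      have := (hbc.continuous.mul hbc.continuous).integrable_of_hasCompactSupport (μ := volume)
        (hbs.mul_left (f := fun z => b z))
      refine this.congr (Filter.Eventually.of_forall fun z => ?_)
      simp only [Pi.mul_apply]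
      ring
    have hpos : 0 < ∫ z, b z ^ 2 := by
      rw [integral_pos_iff_support_of_nonneg (fun z => sq_nonneg _) hint]
      have h1 : Metric.ball (0 : ℂ) (1 / 2) ⊆ Function.support (fun z => b z ^ 2) := by
        intro z hz
        rw [Function.mem_support]
        have h2 : z ∈ Function.support b := by
          rw [b.support_eq]
          exact hz
        exact pow_ne_zero 2 h2
      exact lt_of_lt_of_le (Metric.measure_ball_pos _ _ (by norm_num)) (measure_mono h1)
    refine ⟨_, fun z => (Real.sqrt (∫ z, b z ^ 2))⁻¹ * b z, contDiff_const.mul hbc,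
      hbs.mul_left, ?_, ?_, rfl⟩
    · refine (tsupport_mul_subset_right (f := fun _ => (Real.sqrt (∫ z, b z ^ 2))⁻¹)).trans ?_
      have : tsupport b = Metric.closedBall (0 : ℂ) (1 / 2) := b.tsupport_eq
      rw [show tsupport (fun z => b z) = tsupport b from rfl, this]
      exact Metric.closedBall_subset_ball (by norm_num)
    · have h1 : ∀ z, ((Real.sqrt (∫ z, b z ^ 2))⁻¹ * b z) ^ 2 = (∫ z, b z ^ 2)⁻¹ * b z ^ 2 := by
        intro z
        rw [mul_pow, inv_pow, Real.sq_sqrt hpos.le]
      simp only [h1]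
      rw [integral_const_mul, inv_mul_cancel₀ hpos.ne']
  · rintro r ⟨φ, hc, hs, hb, h1, rfl⟩
    have h2 := lp_ineq849 φ hc hs hb
    rw [h1] at h2
    have hD : ∀ v : ℂ, Integrable (fun z => (fderiv ℝ φ z v) ^ 2) := by
      intro v
      have hD : Continuous (fun z => fderiv ℝ φ z v) :=
        (hc.continuous_fderiv (by simp)).clm_apply continuous_const
      have hDs : HasCompactSupport (fun z => fderiv ℝ φ z v) := hs.fderiv_apply ℝ v
      have := (hD.mul hD).integrable_of_hasCompactSupport (μ := volume)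
        (hDs.mul_left (f := fun z => fderiv ℝ φ z v))
      refine this.congr (Filter.Eventually.of_forall fun z => ?_)
      simp only [Pi.mul_apply]
      ring
    rw [integral_add (hD 1) (hD I)]
    have h3 : 0 ≤ ∫ z, (fderiv ℝ φ z I) ^ 2 := integral_nonneg fun z => sq_nonneg _
    linarith

end DbarN.JLP
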