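import Pool.Agent.H314.DN.Stmts3
import Pool.Agent.H314.DN.A0
import Pool.Agent.H314.DN.A1

set_option autoImplicit false

open MeasureTheory Complex Filter Topology
open scoped ContDiff InnerProductSpace ENNReal ComplexConjugate

namespace DbarN.JNE

namespace JNE

theorem norm_sq_toLp {μ : Measure E3} {F : E3 → ℂ} (hF : MemLp F 2 μ) :
    ‖hF.toLp F‖ ^ 2 = ∫ x, ‖F x‖ ^ 2 ∂μ := by
  have h1 : (inner ℂ (hF.toLp F) (hF.toLp F) : ℂ) = ((∫ x, ‖F x‖ ^ 2 ∂μ : ℝ) : ℂ) := by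
    rw [L2.inner_def, ← integral_complex_ofReal]
    apply integral_congr_ae
    filter_upwards [hF.coeFn_toLp] with x hx
    rw [hx, inner_self_eq_norm_sq_to_K]
    push_cast; rfl
  rw [inner_self_eq_norm_sq_to_K] at h1
  have h2 : ((‖hF.toLp F‖ ^ 2 : ℝ) : ℂ) = ((∫ x, ‖F x‖ ^ 2 ∂μ : ℝ) : ℂ) := by
    rw [← h1]; push_cast; rfl
  exact Complex.ofReal_injective h2

theorem memLp_test {Ω : Set E3} {F : E3 → ℂ} (hF : IsTest Set.univ F) :
    MemLp F 2 (volume.restrict Ω) :=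
  (hF.smooth.continuous.memLp_of_hasCompactSupport hF.compact).restrict Ω

/-- approximations converge in `L²` -/
theorem tends (Ω : Set E3) (u : L2 Ω) (M : ℕ → E3 → ℂ) (hM : ∀ n, MemLp (M n) 2 (volume.restrict Ω))
    (h : Tendsto (fun n => eLpNorm (M n - (u : E3 → ℂ)) 2 (volume.restrict Ω)) atTop (𝓝 0)) :
    Tendsto (fun n => ‖(hM n).toLp (M n) - u‖) atTop (𝓝 0) := by
  have h2 : ∀ n, ‖(hM n).toLp (M n) - u‖ = (eLpNorm (M n - (u : E3 → ℂ)) 2 (volume.restrict Ω)).toReal := by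
    intro n
    have e : (hM n).toLp (M n) - u = ((hM n).sub (Lp.memLp u)).toLp (M n - (u : E3 → ℂ)) := by
      rw [MemLp.toLp_sub (hM n) (Lp.memLp u), Lp.toLp_coeFn]
    rw [e, Lp.norm_toLp]
  simp only [h2]
  have := (ENNReal.tendsto_toReal ENNReal.zero_ne_top).comp h
  rw [ENNReal.toReal_zero] at this
  exact this

end JNE

set_option maxHeartbeats 4000000 in
theorem noeig (hMd : Modes_stmt) (hM : Moll_stmt) (e k1 l1 : ℝ) (hp : ParOK e k1 l1)
    (hC : Convex ℝ (Omega e k1 l1)) (hO : IsOpen (Omega e k1 l1))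
    (hB : Bornology.IsBounded (Omega e k1 l1)) (h0 : (0 : E3) ∈ Omega e k1 l1)
    (hR : ∀ θ₁ θ₂ x, rot θ₁ θ₂ x ∈ Omega e k1 l1 ↔ x ∈ Omega e k1 l1)
    (hJ : ∀ j k : ℤ, Mode_stmt e k1 l1 j k) : NoEig_stmt e k1 l1 := by
  intro f g lam hlam hlamS hf hD hA
  generalize hΩ : Omega e k1 l1 = Ω at *
  obtain ⟨j, k, f', g', hD', hA', hf', hmode⟩ := hMd Ω hO hR f g lam hD hA hf
  obtain ⟨lam', hlam', H⟩ := hJ j k
  rw [hΩ] at H
  obtain ⟨M, r, hr1, hr2, hM1, hM2, hM3⟩ := hM Ω hO hC hB h0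
  have mf : MemLp f' 2 (volume.restrict Ω) := Lp.memLp f'
  have mg : ∀ i, MemLp (g' i) 2 (volume.restrict Ω) := fun i => Lp.memLp (g' i)
  obtain ⟨tf, cf, -⟩ := hM1 f' mf
  have tg : ∀ i, ∀ n, IsTest Set.univ (M n (g' i)) := fun i => (hM1 (g' i) (mg i)).1
  have cg : ∀ i, Tendsto (fun n => eLpNorm (M n (g' i) - (g' i : E3 → ℂ)) 2 (volume.restrict Ω)) atTop (𝓝 0) :=
    fun i => (hM1 (g' i) (mg i)).2.1
  have hlam0 : (lam : ℂ) ≠ 0 := by exact_mod_cast hlam.ne'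
  -- norm identity
  have hng : ‖g'‖ ^ 2 = lam * ‖f'‖ ^ 2 := by
    have h1 := hA' f' g' hD'
    rw [inner_smul_right, inner_self_eq_norm_sq_to_K, inner_self_eq_norm_sq_to_K] at h1
    have h2 : ((‖g'‖ ^ 2 : ℝ) : ℂ) = ((lam * ‖f'‖ ^ 2 : ℝ) : ℂ) := by
      push_cast; exact h1
    exact Complex.ofReal_injective h2
  -- orthogonality
  have hperp : ∀ h : L2 Ω, IsDbar0 Ω h 0 → inner ℂ h f' = (0 : ℂ) := by
    intro h hh
    have h1 := hA' h 0 hh
    rw [inner_zero_left, inner_smul_right] at h1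
    rcases mul_eq_zero.mp h1.symm with h2 | h2
    · exact absurd h2 hlam0
    · exact h2
  -- mode
  have hmF : ∀ n, IsModeFn j k (M n f') := by
    intro n θ₁ θ₂ x
    exact hM3 n θ₁ θ₂ _ f' (hR θ₁ θ₂) mf (hmode θ₁ θ₂) x
  -- derivative
  have hdb : ∀ n i, ∀ x ∈ Ω, dbar i (M n f') x = (r n : ℂ) * M n (g' i) x := by
    intro n i x hx
    obtain ⟨U, hU, hΩU, hU2⟩ := hM2 n
    have h1 := hU2 (fun i' j' => if i' = 0 ∧ j' = i then 1 else 0) (fun _ => f') (g' i)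
      (fun _ => mf) (mg i) ?_ x (hΩU (subset_closure hx))
    · rw [← h1]
      rw [Finset.sum_eq_single 0]
      · rw [Finset.sum_eq_single i]
        · simp
        · intro b _ hb; simp [hb]
        · simp
      · intro b _ hb; simp [hb]
      · simp
    · intro φ hφ
      rw [← hD' i φ hφ]
      congr 1
      ext y
      rw [Finset.sum_eq_single 0]
      · rw [Finset.sum_eq_single i]
        · simp
        · intro b _ hb; simp [hb]
        · simp
      · intro b _ hb; simp [hb]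
      · simp
  have mF : ∀ n, MemLp (M n f') 2 (volume.restrict Ω) := fun n => JNE.memLp_test (tf n)
  have mG : ∀ i n, MemLp (M n (g' i)) 2 (volume.restrict Ω) := fun i n => JNE.memLp_test (tg i n)
  -- key inequality
  have key : ∀ n, ∃ h : L2 Ω, inner ℂ h f' = (0:ℂ) ∧
      lam' * ‖(mF n).toLp (M n f') - h‖ ^ 2 ≤ ∑ i, (r n) ^ 2 * ‖(mG i n).toLp (M n (g' i))‖ ^ 2 := by
    intro n
    obtain ⟨h, mh, hk, hi⟩ := H (M n f') (tf n).smooth (hmF n)
    refine ⟨mh.toLp h, hperp _ ?_, ?_⟩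
    · intro i φ hφ
      have e1 : ∫ x in Ω, (mh.toLp h) x * dbar i φ x = ∫ x in Ω, h x * dbar i φ x := by
        apply integral_congr_ae
        filter_upwards [mh.coeFn_toLp] with x hx
        rw [hx]
      have e2 : ∫ x in Ω, (0 : Form Ω) i x * φ x = 0 := by
        have : ∫ x in Ω, (0 : Form Ω) i x * φ x = ∫ x in Ω, (0:ℂ) := by
          apply integral_congr_ae
          have h0 : (0 : Form Ω) i = (0 : L2 Ω) := rfl
          rw [h0]
          filter_upwards [Lp.coeFn_zero ℂ 2 (volume.restrict Ω)] with x hx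
          rw [hx]; simp
        rw [this]; simp
      rw [e1, e2, hk i φ hφ, neg_zero]
    · have e1 : ‖(mF n).toLp (M n f') - mh.toLp h‖ ^ 2 = ∫ x in Ω, ‖M n f' x - h x‖ ^ 2 := by
        rw [← MemLp.toLp_sub, JNE.norm_sq_toLp]
        rfl
      have e2 : ∀ i, ∫ x in Ω, ‖dbar i (M n f') x‖ ^ 2 = (r n) ^ 2 * ‖(mG i n).toLp (M n (g' i))‖ ^ 2 := by
        intro i
        rw [JNE.norm_sq_toLp, ← integral_const_mul]
        apply setIntegral_congr_fun hO.measurableSet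
        intro x hx
        simp only
        rw [hdb n i x hx, norm_mul, mul_pow]
        congr 1
        simp
      rw [e1]
      refine hi.trans (le_of_eq ?_)
      exact Finset.sum_congr rfl (fun i _ => e2 i)
  -- limits
  have L1 := JNE.tends Ω f' (fun n => M n f') mF cf
  have L2' : ∀ i, Tendsto (fun n => ‖(mG i n).toLp (M n (g' i))‖) atTop (𝓝 ‖g' i‖) := by
    intro i
    have h1 := JNE.tends Ω (g' i) (fun n => M n (g' i)) (mG i) (cg i)
    have h2 := tendsto_iff_norm_sub_tendsto_zero.mpr h1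
    exact h2.norm
  have L3 : Tendsto (fun n => ∑ i, (r n) ^ 2 * ‖(mG i n).toLp (M n (g' i))‖ ^ 2) atTop (𝓝 (∑ i, 1 ^ 2 * ‖g' i‖ ^ 2)) :=
    tendsto_finsetSum _ (fun i _ => (hr1.pow 2).mul ((L2' i).pow 2))
  have L4 : Tendsto (fun n => lam' * (‖f'‖ - ‖(mF n).toLp (M n f') - f'‖) ^ 2) atTop (𝓝 (lam' * (‖f'‖ - 0) ^ 2)) :=
    ((tendsto_const_nhds.sub L1).pow 2).const_mul lam'
  have hfpos : 0 < ‖f'‖ := norm_pos_iff.mpr hf'
  have hl0 : 0 < lam' := by linarith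
  have hle : lam' * (‖f'‖ - 0) ^ 2 ≤ ∑ i, 1 ^ 2 * ‖g' i‖ ^ 2 := by
    apply le_of_tendsto_of_tendsto L4 L3
    filter_upwards [L1.eventually (gt_mem_nhds hfpos)] with n hn
    obtain ⟨h, hh, hi⟩ := key n
    refine le_trans ?_ hi
    apply mul_le_mul_of_nonneg_left _ hl0.le
    apply pow_le_pow_left₀ (by linarith)
    -- ‖f'‖ ≤ ‖f' - h‖
    have h1 : ‖f'‖ ≤ ‖f' - h‖ := by
      have h2 : ‖f' - h‖ ^ 2 = ‖f'‖ ^ 2 + ‖h‖ ^ 2 := by
        have h3 : inner ℂ f' h = (0:ℂ) := by rw [← inner_conj_symm, hh]; simp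
        have h4 := @norm_sub_sq ℂ _ _ _ _ f' h
        rw [h3] at h4
        simpa using h4
      exact le_of_sq_le_sq (by nlinarith [sq_nonneg ‖h‖]) (norm_nonneg _)
    have h5 : ‖f' - h‖ ≤ ‖(mF n).toLp (M n f') - h‖ + ‖(mF n).toLp (M n f') - f'‖ := by
      have : f' - h = ((mF n).toLp (M n f') - h) - ((mF n).toLp (M n f') - f') := by abel
      rw [this]
      exact norm_sub_le _ _
    linarith
  have hgs : ‖g'‖ ^ 2 = ∑ i, ‖g' i‖ ^ 2 := by
    rw [PiLp.norm_sq_eq_of_L2]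
  simp only [one_pow, one_mul, sub_zero] at hle
  rw [← hgs, hng] at hle
  have : lam * ‖f'‖ ^ 2 < lam' * ‖f'‖ ^ 2 :=
    mul_lt_mul_of_pos_right (by linarith) (by positivity)
  linarith

end DbarN.JNE
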