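import Pool.Agent.H314.DN.Stmts
import Pool.Agent.H314.DN.A0
import Pool.Agent.H314.DN.A1

set_option autoImplicit false

open MeasureTheory Complex Filter Topology
open scoped ContDiff InnerProductSpace ENNReal ComplexConjugate

namespace DbarN.JPF

theorem pf_convex (K : Set E3) (hK : IsCompact K) (hKc : Convex ℝ K) (hKn : K.Nonempty) (δ : ℝ)
    (x y : E3) (a b : ℝ) (ha : 0 ≤ a) (hb : 0 ≤ b) (hab : a + b = 1) :
    max 0 (Metric.infDist (a • x + b • y) K - δ) ≤
      a * max 0 (Metric.infDist x K - δ) + b * max 0 (Metric.infDist y K - δ) := by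
  obtain ⟨x', hx', hdx⟩ := hK.exists_infDist_eq_dist hKn x
  obtain ⟨y', hy', hdy⟩ := hK.exists_infDist_eq_dist hKn y
  have h1 : Metric.infDist (a • x + b • y) K ≤ dist (a • x + b • y) (a • x' + b • y') :=
    Metric.infDist_le_dist_of_mem (hKc hx' hy' ha hb hab)
  have h2 : dist (a • x + b • y) (a • x' + b • y') ≤ a * dist x x' + b * dist y y' := by
    refine (dist_add_add_le _ _ _ _).trans ?_
    rw [dist_smul₀, dist_smul₀, Real.norm_of_nonneg ha, Real.norm_of_nonneg hb]
  rw [← hdx, ← hdy] at h2
  have h3 := le_max_left 0 (Metric.infDist x K - δ)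
  have h4 := le_max_left 0 (Metric.infDist y K - δ)
  have h5 := le_max_right 0 (Metric.infDist x K - δ)
  have h6 := le_max_right 0 (Metric.infDist y K - δ)
  refine max_le (add_nonneg (mul_nonneg ha h3) (mul_nonneg hb h4)) ?_
  have h7 := mul_le_mul_of_nonneg_left h5 ha
  have h8 := mul_le_mul_of_nonneg_left h6 hb
  have h9 : a * δ + b * δ = δ := by rw [← add_mul, hab, one_mul]
  nlinarith

theorem pfun : Pfun_stmt := by
  intro K U hK hKc hKn hU hKU
  obtain ⟨δ, hδ, hδU⟩ := hK.exists_cthickening_subset_open hU hKU
  let f : E3 → ℝ := fun x => max 0 (Metric.infDist x K - δ / 3)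
  have hfc : Continuous f :=
    continuous_const.max ((Metric.continuous_infDist_pt K).sub continuous_const)
  have hf0 : ∀ x, 0 ≤ f x := fun x => le_max_left _ _
  let φ : ContDiffBump (0 : E3) := ⟨δ / 8, δ / 4, by positivity, by linarith⟩
  have hφc : Continuous (φ.normed volume) := φ.continuous_normed
  have hφ0 : ∀ t, 0 ≤ φ.normed volume t := fun t => φ.nonneg_normed t
  have hφcs : HasCompactSupport (φ.normed volume) := φ.hasCompactSupport_normed
  have hφs : ∀ t, φ.normed volume t ≠ 0 → ‖t‖ < δ / 4 := by
    intro t ht
    have h1 : t ∈ Function.support (φ.normed volume) := ht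
    rw [φ.support_normed_eq] at h1
    rw [Metric.mem_ball, dist_zero_right] at h1
    exact h1
  have hint : ∀ x, Integrable (fun t => φ.normed volume t * f (x - t)) volume := by
    intro x
    refine (hφc.mul (hfc.comp (continuous_const.sub continuous_id))).integrable_of_hasCompactSupport ?_
    exact hφcs.mul_right
  let P : E3 → ℝ := fun x => ∫ t, φ.normed volume t * f (x - t)
  have hP : P = convolution (φ.normed volume) f (ContinuousLinearMap.lsmul ℝ ℝ) volume := by
    funext x
    rfl
  refine ⟨P, ?_, ?_, ?_, ?_, ?_⟩
  · rw [hP]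
    exact hφcs.contDiff_convolution_left _ φ.contDiff_normed hfc.locallyIntegrable
  · refine ⟨convex_univ, fun x _ y _ a b ha hb hab => ?_⟩
    show ∫ t, φ.normed volume t * f (a • x + b • y - t) ≤
      a • (∫ t, φ.normed volume t * f (x - t)) + b • ∫ t, φ.normed volume t * f (y - t)
    rw [smul_eq_mul, smul_eq_mul, ← integral_const_mul, ← integral_const_mul,
      ← integral_add ((hint x).const_mul a) ((hint y).const_mul b)]
    refine integral_mono (hint _) (((hint x).const_mul a).add ((hint y).const_mul b)) fun t => ?_
    have e1 : a • x + b • y - t = a • (x - t) + b • (y - t) := by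
      have : t = a • t + b • t := by rw [← add_smul, hab, one_smul]
      rw [smul_sub, smul_sub]
      conv_lhs => rw [this]
      abel
    show φ.normed volume t * f (a • x + b • y - t) ≤
      a * (φ.normed volume t * f (x - t)) + b * (φ.normed volume t * f (y - t))
    rw [e1]
    have h1 := mul_le_mul_of_nonneg_left
      (pf_convex K hK hKc hKn (δ / 3) (x - t) (y - t) a b ha hb hab) (hφ0 t)
    have h2 : φ.normed volume t * f (a • (x - t) + b • (y - t)) ≤
      φ.normed volume t * (a * f (x - t) + b * f (y - t)) := h1
    linarith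
  · intro x
    exact integral_nonneg fun t => mul_nonneg (hφ0 t) (hf0 _)
  · intro x hx
    show ∫ t, φ.normed volume t * f (x - t) = 0
    have h0 : ∀ t, φ.normed volume t * f (x - t) = 0 := by
      intro t
      by_cases ht : φ.normed volume t = 0
      · rw [ht, zero_mul]
      · have h1 := hφs t ht
        have h2 : Metric.infDist (x - t) K ≤ dist (x - t) x := Metric.infDist_le_dist_of_mem hx
        rw [dist_eq_norm, sub_sub_cancel_left, norm_neg] at h2
        have h3 : f (x - t) = 0 := max_eq_left (by linarith)
        rw [h3, mul_zero]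
    simp only [h0, integral_zero]
  · intro x hx
    have hdx : δ < Metric.infDist x K := by
      by_contra hcon
      push Not at hcon
      apply hx
      apply hδU
      rw [Metric.mem_cthickening_iff,
        ENNReal.le_ofReal_iff_toReal_le (Metric.infEDist_ne_top hKn) hδ.le]
      exact hcon
    have hlow : ∀ t, φ.normed volume t * (δ / 4) ≤ φ.normed volume t * f (x - t) := by
      intro t
      by_cases ht : φ.normed volume t = 0
      · rw [ht, zero_mul, zero_mul]
      · refine mul_le_mul_of_nonneg_left ?_ (hφ0 t)
        have h1 := hφs t ht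
        have h2 : Metric.infDist x K ≤ Metric.infDist (x - t) K + dist x (x - t) :=
          Metric.infDist_le_infDist_add_dist
        rw [dist_eq_norm, sub_sub_cancel] at h2
        refine le_trans ?_ (le_max_right _ _)
        linarith
    have h1 : ∫ t, φ.normed volume t * (δ / 4) ≤ P x :=
      integral_mono (φ.integrable_normed.mul_const _) (hint x) hlow
    rw [integral_mul_const, φ.integral_normed, one_mul] at h1
    exact lt_of_lt_of_le (by positivity) h1

end DbarN.JPF
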