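import Pool.Agent.H314.DN.Stmts3
import Pool.Agent.H314.DN.A0
import Pool.Agent.H314.DN.A1

set_option autoImplicit false

open MeasureTheory Complex Filter Topology
open scoped ContDiff InnerProductSpace ENNReal ComplexConjugate

namespace DbarN.JPL
namespace PLx

theorem riesz_ext {U H : Type*} [AddCommGroup U] [Module ℂ U] [NormedAddCommGroup H]
    [InnerProductSpace ℂ H] [CompleteSpace H] (L : U →ₗ[ℂ] H) (f : U →ₗ[ℂ] ℂ) (M : ℝ)
    (hM : 0 ≤ M) (h : ∀ u, ‖f u‖ ≤ M * ‖L u‖) :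
    ∃ b : H, ‖b‖ ≤ M ∧ ∀ u, inner ℂ b (L u) = f u := by
  have hker : LinearMap.ker L ≤ LinearMap.ker f := by
    intro u hu
    rw [LinearMap.mem_ker] at hu ⊢
    have := h u
    rw [hu, norm_zero, mul_zero] at this
    exact norm_le_zero_iff.1 this
  let g : LinearMap.range L →ₗ[ℂ] ℂ :=
    (Submodule.liftQ (LinearMap.ker L) f hker) ∘ₗ (L.quotKerEquivRange.symm.toLinearMap)
  have hg : ∀ u, g ⟨L u, LinearMap.mem_range_self L u⟩ = f u := by
    intro u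
    change (Submodule.liftQ (LinearMap.ker L) f hker)
      (L.quotKerEquivRange.symm ⟨L u, LinearMap.mem_range_self L u⟩) = f u
    rw [LinearMap.quotKerEquivRange_symm_apply_image]
    simp
  have hgb : ∀ y, ‖g y‖ ≤ M * ‖y‖ := by
    rintro ⟨y, u, rfl⟩
    have := h u
    rw [← hg u] at this
    exact this
  obtain ⟨G, hG, hGn⟩ := exists_extension_norm_eq (LinearMap.range L) (g.mkContinuous M hgb)
  refine ⟨(InnerProductSpace.toDual ℂ H).symm G, ?_, ?_⟩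
  · rw [LinearIsometryEquiv.norm_map, hGn]
    exact LinearMap.mkContinuous_norm_le _ hM _
  · intro u
    rw [InnerProductSpace.toDual_symm_apply]
    have := hG ⟨L u, LinearMap.mem_range_self L u⟩
    rw [LinearMap.mkContinuous_apply, hg] at this
    exact this

theorem cont_mul_supp {B : Set ℂ} (hB : IsOpen B) {g u : ℂ → ℂ} (hg : ContinuousOn g B)
    (hu : Continuous u) (hs : tsupport u ⊆ B) : Continuous (fun z => g z * u z) := by
  rw [continuous_iff_continuousAt]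
  intro z
  by_cases hz : z ∈ tsupport u
  · exact (hg.continuousAt (hB.mem_nhds (hs hz))).mul hu.continuousAt
  · have h1 : (fun z => g z * u z) =ᶠ[𝓝 z] fun _ => 0 := by
      have := (isClosed_tsupport u).isOpen_compl.mem_nhds hz
      filter_upwards [this] with w hw
      rw [image_eq_zero_of_notMem_tsupport hw, mul_zero]
    exact (continuousAt_const).congr h1.symm

theorem contDiff_mul_supp {B : Set ℂ} (hB : IsOpen B) {g u : ℂ → ℂ} (hg : ContDiffOn ℝ 2 g B)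
    (hu : ContDiff ℝ 2 u) (hs : tsupport u ⊆ B) : ContDiff ℝ 2 (fun z => g z * u z) := by
  rw [contDiff_iff_contDiffAt]
  intro z
  by_cases hz : z ∈ tsupport u
  · exact (hg.contDiffAt (hB.mem_nhds (hs hz))).mul hu.contDiffAt
  · have h1 : (fun z => g z * u z) =ᶠ[𝓝 z] fun _ => 0 := by
      have := (isClosed_tsupport u).isOpen_compl.mem_nhds hz
      filter_upwards [this] with w hw
      rw [image_eq_zero_of_notMem_tsupport hw, mul_zero]
    exact (contDiffAt_const (c := (0 : ℂ))).congr_of_eventuallyEq h1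

theorem hcs_mul {g u : ℂ → ℂ} (hu : HasCompactSupport u) :
    HasCompactSupport (fun z => g z * u z) :=
  HasCompactSupport.mul_left hu

/-- compactly supported `C²` functions in `B` -/
def CU (B : Set ℂ) : Submodule ℂ (ℂ → ℂ) where
  carrier := {u | ContDiff ℝ 2 u ∧ HasCompactSupport u ∧ tsupport u ⊆ B}
  add_mem' := by
    intro a b ha hb
    exact ⟨ha.1.add hb.1, ha.2.1.add hb.2.1,
      (tsupport_add _ _).trans (Set.union_subset ha.2.2 hb.2.2)⟩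
  zero_mem' := by
    refine ⟨contDiff_const, HasCompactSupport.zero, ?_⟩
    simp [tsupport]
  smul_mem' := by
    intro c u hu
    refine ⟨contDiff_const.smul hu.1, hu.2.1.smul_left (f := fun _ => c), ?_⟩
    exact (tsupport_smul_subset_right (fun _ => c) u).trans hu.2.2

theorem dz1_cont {u : ℂ → ℂ} (hu : ContDiff ℝ 2 u) : Continuous (dz1 u) := by
  have h := hu.continuous_fderiv (by norm_num)
  unfold dz1
  exact continuous_const.mul ((h.clm_apply continuous_const).sub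
    (continuous_const.mul (h.clm_apply continuous_const)))

theorem dz1_tsupport (u : ℂ → ℂ) : tsupport (dz1 u) ⊆ tsupport u := by
  refine closure_minimal ?_ (isClosed_tsupport u)
  intro z hz
  by_contra h
  apply hz
  have h2 : fderiv ℝ u z = 0 := by
    have := support_fderiv_subset ℝ (f := u)
    by_contra h3
    exact h (this h3)
  simp [dz1, h2]

theorem dz1_add {u v : ℂ → ℂ} (hu : ContDiff ℝ 2 u) (hv : ContDiff ℝ 2 v) (z : ℂ) :
    dz1 (u + v) z = dz1 u z + dz1 v z := by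
  unfold dz1
  rw [fderiv_add (hu.differentiable (by norm_num) z) (hv.differentiable (by norm_num) z)]
  simp only [add_apply]
  ring

theorem dz1_smul {u : ℂ → ℂ} (hu : ContDiff ℝ 2 u) (c : ℂ) (z : ℂ) :
    dz1 (c • u) z = c * dz1 u z := by
  unfold dz1
  rw [fderiv_const_smul (hu.differentiable (by norm_num) z)]
  simp only [smul_apply, smul_eq_mul]
  ring

theorem normsq_Lp {μ : Measure ℂ} (f : Lp ℂ 2 μ) : ‖f‖ ^ 2 = ∫ x, ‖f x‖ ^ 2 ∂μ := by
  rw [Lp.norm_def, (Lp.memLp f).eLpNorm_eq_integral_rpow_norm two_ne_zero ENNReal.ofNat_ne_top,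
    ENNReal.toReal_ofReal (by positivity)]
  simp only [ENNReal.toReal_ofNat, Real.rpow_ofNat]
  rw [← Real.rpow_natCast, ← Real.rpow_mul (integral_nonneg fun x => by positivity)]
  norm_num

/-- the square root of the weight -/
noncomputable def rW (psi : ℝ → ℝ) (z : ℂ) : ℝ := Real.exp (-psi (‖z‖ ^ 2) / 2)

theorem rW_pos (psi : ℝ → ℝ) (z : ℂ) : 0 < rW psi z := Real.exp_pos _

theorem rW_sq (psi : ℝ → ℝ) (z : ℂ) : rW psi z ^ 2 = Real.exp (-psi (‖z‖ ^ 2)) := by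
  unfold rW
  rw [← Real.exp_nat_mul]
  congr 1
  push_cast
  ring

/-- the operator times the square root of the weight -/
noncomputable def opD (psi psi1 : ℝ → ℝ) (u : ℂ → ℂ) (z : ℂ) : ℂ :=
  (rW psi z : ℂ) * dz1 u z - ((rW psi z : ℂ) * ((psi1 (‖z‖ ^ 2) : ℝ) : ℂ) * conj z) * u z

theorem opD_norm (psi psi1 : ℝ → ℝ) (u : ℂ → ℂ) (z : ℂ) :
    ‖opD psi psi1 u z‖ ^ 2 = ‖dz1 u z - ((psi1 (‖z‖ ^ 2) : ℝ) : ℂ) * conj z * u z‖ ^ 2 *
      Real.exp (-psi (‖z‖ ^ 2)) := by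
  have : opD psi psi1 u z = (rW psi z : ℂ) *
      (dz1 u z - ((psi1 (‖z‖ ^ 2) : ℝ) : ℂ) * conj z * u z) := by
    unfold opD; ring
  rw [this, norm_mul, mul_pow, Complex.norm_real, Real.norm_of_nonneg (rW_pos psi z).le, rW_sq]
  ring

theorem lam_nonneg : 0 ≤ lamStar := by
  unfold lamStar
  apply Real.sInf_nonneg
  rintro r ⟨φ, _, _, _, _, rfl⟩
  refine mul_nonneg (by norm_num) (integral_nonneg fun z => ?_)
  positivity

section
variable {T : ℝ} {psi psi1 psi2 : ℝ → ℝ}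

theorem nsq_mem {z : ℂ} (hz : z ∈ {z : ℂ | ‖z‖ ^ 2 < T}) : ‖z‖ ^ 2 ∈ Set.Ioo (-1) T :=
  ⟨by nlinarith [sq_nonneg ‖z‖], hz⟩

theorem isOpen_B : IsOpen {z : ℂ | ‖z‖ ^ 2 < T} :=
  isOpen_lt (by fun_prop) continuous_const

theorem cont_nsq {g : ℝ → ℝ} (hg : ContinuousOn g (Set.Ioo (-1) T)) :
    ContinuousOn (fun z : ℂ => g (‖z‖ ^ 2)) {z : ℂ | ‖z‖ ^ 2 < T} :=
  hg.comp (by fun_prop) (fun _ hz => nsq_mem hz)

theorem cont_nsq' {g : ℝ → ℝ} (hg : ContinuousOn g (Set.Ico 0 T)) :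
    ContinuousOn (fun z : ℂ => g (‖z‖ ^ 2)) {z : ℂ | ‖z‖ ^ 2 < T} :=
  hg.comp (by fun_prop) (fun _ hz => ⟨sq_nonneg _, hz⟩)

theorem psi_c2 (h1 : ∀ t ∈ Set.Ioo (-1) T, HasDerivAt psi (psi1 t) t)
    (h2 : ∀ t ∈ Set.Ioo (-1) T, HasDerivAt psi1 (psi2 t) t)
    (h3 : ContinuousOn psi2 (Set.Ioo (-1) T)) : ContDiffOn ℝ 2 psi (Set.Ioo (-1) T) := by
  have hpsi1 : ContDiffOn ℝ 1 psi1 (Set.Ioo (-1) T) := by
    rw [show (1 : WithTop ℕ∞) = 0 + 1 by norm_num, contDiffOn_succ_iff_deriv_of_isOpen isOpen_Ioo]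
    refine ⟨fun t ht => (h2 t ht).differentiableAt.differentiableWithinAt, by simp, ?_⟩
    rw [contDiffOn_zero]
    exact h3.congr fun t ht => (h2 t ht).deriv
  rw [show (2 : WithTop ℕ∞) = 1 + 1 by norm_num, contDiffOn_succ_iff_deriv_of_isOpen isOpen_Ioo]
  refine ⟨fun t ht => (h1 t ht).differentiableAt.differentiableWithinAt, by simp, ?_⟩
  exact hpsi1.congr fun t ht => (h1 t ht).deriv

/-- the inverse weight -/
noncomputable def VV (psi : ℝ → ℝ) (z : ℂ) : ℂ := ((Real.exp (psi (‖z‖ ^ 2)) : ℝ) : ℂ)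

theorem VV_c2 (h : ContDiffOn ℝ 2 psi (Set.Ioo (-1) T)) :
    ContDiffOn ℝ 2 (VV psi) {z : ℂ | ‖z‖ ^ 2 < T} := by
  have hn : ContDiffOn ℝ 2 (fun z : ℂ => ‖z‖ ^ 2) {z : ℂ | ‖z‖ ^ 2 < T} :=
    (contDiff_norm_sq ℝ).contDiffOn
  have h1 : ContDiffOn ℝ 2 (fun z : ℂ => psi (‖z‖ ^ 2)) {z : ℂ | ‖z‖ ^ 2 < T} :=
    h.comp hn (fun _ hz => nsq_mem hz)
  have h2 : ContDiffOn ℝ 2 (fun z : ℂ => Real.exp (psi (‖z‖ ^ 2))) {z : ℂ | ‖z‖ ^ 2 < T} :=
    h1.exp
  exact (Complex.ofRealCLM.contDiff (n := 2)).comp_contDiffOn h2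

theorem VV_fderiv (h1 : ∀ t ∈ Set.Ioo (-1) T, HasDerivAt psi (psi1 t) t) {z : ℂ}
    (hz : z ∈ {z : ℂ | ‖z‖ ^ 2 < T}) :
    HasFDerivAt (VV psi) (Complex.ofRealCLM.comp
      ((Real.exp (psi (‖z‖ ^ 2))) • ((psi1 (‖z‖ ^ 2)) • ((2 : ℝ) • innerSL ℝ z)))) z := by
  have hn : HasFDerivAt (fun z : ℂ => ‖z‖ ^ 2) ((2 : ℝ) • innerSL ℝ z) z := by
    have h0 := (hasStrictFDerivAt_norm_sq z).hasFDerivAt
    have e : (2 : ℝ) • innerSL ℝ z = 2 • innerSL ℝ z := by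
      rw [two_smul, two_nsmul]
    rw [e]
    exact h0
  have h2 : HasFDerivAt (fun z : ℂ => psi (‖z‖ ^ 2))
      ((psi1 (‖z‖ ^ 2)) • ((2 : ℝ) • innerSL ℝ z)) z :=
    (h1 _ (nsq_mem hz)).comp_hasFDerivAt z hn
  exact Complex.ofRealCLM.hasFDerivAt.comp z h2.exp

theorem dz1_conj {φ : ℂ → ℂ} (hφ : ContDiff ℝ ∞ φ) {z : ℂ}
    (h1 : ∀ t ∈ Set.Ioo (-1) T, HasDerivAt psi (psi1 t) t)
    (hz : z ∈ {z : ℂ | ‖z‖ ^ 2 < T}) :
    dz1 (fun w => VV psi w * conj (φ w)) z =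
      VV psi z * conj (db1 φ z) + (psi1 (‖z‖ ^ 2) : ℂ) * conj z * (VV psi z * conj (φ z)) := by
  have hd := (hφ.differentiable (by norm_num) z).hasFDerivAt
  have hc : HasFDerivAt (fun w => conj (φ w))
      ((Complex.conjCLE : ℂ →L[ℝ] ℂ).comp (fderiv ℝ φ z)) z :=
    (Complex.conjCLE : ℂ →L[ℝ] ℂ).hasFDerivAt.comp z hd
  have hm := (VV_fderiv h1 hz).mul hc
  have hm2 : fderiv ℝ (fun w => VV psi w * conj (φ w)) z = _ := hm.fderiv
  unfold dz1 db1
  rw [hm2]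
  simp only [map_mul, map_add]
  simp only [VV]
  simp [Complex.inner]
  have hz2 : conj z = (z.re : ℂ) - I * (z.im : ℂ) := by
    apply Complex.ext <;> simp
  have h2c : (starRingEnd ℂ) (2 : ℂ) = 2 := map_ofNat (starRingEnd ℂ) 2
  rw [hz2, h2c]
  ring

end

section
variable {T : ℝ} {psi psi1 psi2 : ℝ → ℝ}

theorem rW_cont (hp : ContinuousOn psi (Set.Ioo (-1) T)) :
    ContinuousOn (fun z => rW psi z) {z : ℂ | ‖z‖ ^ 2 < T} := by
  unfold rW
  exact Real.continuous_exp.comp_continuousOn ((cont_nsq hp).neg.div_const 2)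

theorem opD_cont (hp : ContinuousOn psi (Set.Ioo (-1) T))
    (hp1 : ContinuousOn psi1 (Set.Ioo (-1) T)) {u : ℂ → ℂ}
    (hu : u ∈ CU {z : ℂ | ‖z‖ ^ 2 < T}) :
    Continuous (opD psi psi1 u) ∧ HasCompactSupport (opD psi psi1 u) ∧
      ∀ z, z ∉ tsupport u → opD psi psi1 u z = 0 := by
  have hs := dz1_tsupport u
  have hK1 : ContinuousOn (fun z => (rW psi z : ℂ)) {z : ℂ | ‖z‖ ^ 2 < T} :=
    Complex.continuous_ofReal.comp_continuousOn (rW_cont hp)
  have hK2 : ContinuousOn (fun z => (rW psi z : ℂ) * ((psi1 (‖z‖ ^ 2) : ℝ) : ℂ) * conj z)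
      {z : ℂ | ‖z‖ ^ 2 < T} :=
    (hK1.mul (Complex.continuous_ofReal.comp_continuousOn (cont_nsq hp1))).mul
      (Complex.continuous_conj.continuousOn)
  have c1 := cont_mul_supp isOpen_B hK1 (dz1_cont hu.1) (hs.trans hu.2.2)
  have c2 := cont_mul_supp isOpen_B hK2 hu.1.continuous hu.2.2
  have hz : ∀ z, z ∉ tsupport u → opD psi psi1 u z = 0 := by
    intro z hz
    unfold opD
    rw [image_eq_zero_of_notMem_tsupport hz,
      image_eq_zero_of_notMem_tsupport (fun h => hz (hs h))]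
    simp
  exact ⟨c1.sub c2, HasCompactSupport.intro hu.2.1 hz, hz⟩

theorem opD_memLp (hp : ContinuousOn psi (Set.Ioo (-1) T))
    (hp1 : ContinuousOn psi1 (Set.Ioo (-1) T)) {u : ℂ → ℂ}
    (hu : u ∈ CU {z : ℂ | ‖z‖ ^ 2 < T}) :
    MemLp (opD psi psi1 u) 2 (volume.restrict {z : ℂ | ‖z‖ ^ 2 < T}) :=
  ((opD_cont hp hp1 hu).1.memLp_of_hasCompactSupport (opD_cont hp hp1 hu).2.1).restrict _

/-- the operator as a linear map into `L²` -/
noncomputable def LL (hp : ContinuousOn psi (Set.Ioo (-1) T))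
    (hp1 : ContinuousOn psi1 (Set.Ioo (-1) T)) :
    CU {z : ℂ | ‖z‖ ^ 2 < T} →ₗ[ℂ] Lp ℂ 2 (volume.restrict {z : ℂ | ‖z‖ ^ 2 < T}) where
  toFun u := (opD_memLp hp hp1 u.2).toLp
  map_add' u v := by
    rw [← MemLp.toLp_add]
    apply MemLp.toLp_congr
    refine Filter.Eventually.of_forall fun z => ?_
    change opD psi psi1 (u.1 + v.1) z = opD psi psi1 u.1 z + opD psi psi1 v.1 z
    unfold opD
    rw [dz1_add u.2.1 v.2.1]
    simp only [Pi.add_apply]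
    ring
  map_smul' c u := by
    rw [RingHom.id_apply, ← MemLp.toLp_const_smul]
    apply MemLp.toLp_congr
    refine Filter.Eventually.of_forall fun z => ?_
    change opD psi psi1 (c • u.1) z = c • opD psi psi1 u.1 z
    unfold opD
    rw [dz1_smul u.2.1]
    simp only [Pi.smul_apply, smul_eq_mul]
    ring

theorem LL_norm (hp : ContinuousOn psi (Set.Ioo (-1) T))
    (hp1 : ContinuousOn psi1 (Set.Ioo (-1) T)) (u : CU {z : ℂ | ‖z‖ ^ 2 < T}) :
    ‖LL hp hp1 u‖ ^ 2 = ∫ z, ‖dz1 u.1 z - ((psi1 (‖z‖ ^ 2) : ℝ) : ℂ) * conj z * u.1 z‖ ^ 2 *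
      Real.exp (-psi (‖z‖ ^ 2)) := by
  rw [normsq_Lp]
  have h1 : ∫ x in {z : ℂ | ‖z‖ ^ 2 < T}, ‖(LL hp hp1 u) x‖ ^ 2 =
      ∫ x in {z : ℂ | ‖z‖ ^ 2 < T}, ‖opD psi psi1 u.1 x‖ ^ 2 := by
    apply integral_congr_ae
    filter_upwards [(opD_memLp hp hp1 u.2).coeFn_toLp] with z hz
    change ‖((opD_memLp hp hp1 u.2).toLp) z‖ ^ 2 = _
    rw [hz]
  rw [h1, setIntegral_eq_integral_of_forall_compl_eq_zero]
  · congr 1
    funext z
    exact opD_norm _ _ _ _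
  · intro z hz
    rw [(opD_cont hp hp1 u.2).2.2 z (fun h => hz (u.2.2.2 h))]
    simp

theorem int_mul {G : ℂ → ℂ} (hG : ContinuousOn G {z : ℂ | ‖z‖ ^ 2 < T}) {u : ℂ → ℂ}
    (hu : u ∈ CU {z : ℂ | ‖z‖ ^ 2 < T}) :
    IntegrableOn (fun z => G z * u z) {z : ℂ | ‖z‖ ^ 2 < T} :=
  ((cont_mul_supp isOpen_B hG hu.1.continuous hu.2.2).integrable_of_hasCompactSupport
    (hcs_mul hu.2.1)).integrableOn

/-- the functional -/
noncomputable def FF (G : ℂ → ℂ) (hG : ContinuousOn G {z : ℂ | ‖z‖ ^ 2 < T}) :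
    CU {z : ℂ | ‖z‖ ^ 2 < T} →ₗ[ℂ] ℂ where
  toFun u := ∫ z in {z : ℂ | ‖z‖ ^ 2 < T}, G z * u.1 z
  map_add' u v := by
    rw [← integral_add (int_mul hG u.2) (int_mul hG v.2)]
    congr 1
    funext z
    change G z * (u.1 z + v.1 z) = _
    ring
  map_smul' c u := by
    rw [RingHom.id_apply, smul_eq_mul, ← integral_const_mul]
    congr 1
    funext z
    change G z * (c * u.1 z) = _
    ring

end

theorem cs {μ : Measure ℂ} {a b : ℂ → ℝ} (ha0 : ∀ z, 0 ≤ a z) (hb0 : ∀ z, 0 ≤ b z)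
    (ha : MemLp a 2 μ) (hb : MemLp b 2 μ) :
    ∫ z, a z * b z ∂μ ≤ Real.sqrt (∫ z, a z ^ 2 ∂μ) * Real.sqrt (∫ z, b z ^ 2 ∂μ) := by
  have h := integral_mul_le_Lp_mul_Lq_of_nonneg (μ := μ) (f := a) (g := b)
    Real.HolderConjugate.two_two (Filter.Eventually.of_forall ha0)
    (Filter.Eventually.of_forall hb0) (by simpa using ha) (by simpa using hb)
  rw [Real.sqrt_eq_rpow, Real.sqrt_eq_rpow]
  simpa using h

end PLx

open PLx in
theorem pl (h1 : Hplane_stmt) (h2 : Apl_stmt) : PL_stmt := by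
  obtain ⟨C, hC1, hH⟩ := h1
  refine ⟨C, hC1, ?_⟩
  intro T y psi psi1 psi2 m hT hy hy1 hpsi hpsi1 hpsi2 hm hconv hm1 hm2 F0 hF0 hFi
  have hlam := lam_nonneg
  have hTpos : 0 < T := by linarith
  have hmpos : ∀ t ∈ Set.Ico 0 T, 0 < m t := by
    intro t ht
    rcases le_total t (1 + y) with h | h
    · have h3 := hm1 t ht h
      have h4 : 0 < 32 * (lamStar + 1) * y := by positivity
      linarith
    · have h3 := hm2 t ht h
      have h4 : 0 < 16 * (lamStar + C / y ^ 2) := by positivity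
      linarith
  have hpc : ContinuousOn psi (Set.Ioo (-1) T) :=
    fun t ht => (hpsi t ht).continuousAt.continuousWithinAt
  have hpc1 : ContinuousOn psi1 (Set.Ioo (-1) T) :=
    fun t ht => (hpsi1 t ht).continuousAt.continuousWithinAt
  obtain ⟨q, hqd⟩ : ∃ q : ℂ → ℝ, q = fun z => lamStar + m (‖z‖ ^ 2) / 16 := ⟨_, rfl⟩
  have hqe : ∀ z, lamStar + m (‖z‖ ^ 2) / 16 = q z := fun z => by rw [hqd]
  have hBo : IsOpen {z : ℂ | ‖z‖ ^ 2 < T} := isOpen_B
  have hBm : MeasurableSet {z : ℂ | ‖z‖ ^ 2 < T} := hBo.measurableSet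
  have hq : ∀ z ∈ {z : ℂ | ‖z‖ ^ 2 < T}, 0 < q z := by
    intro z hz
    rw [← hqe]
    have := hmpos (‖z‖ ^ 2) ⟨sq_nonneg _, hz⟩
    linarith
  have hqc : ContinuousOn q {z : ℂ | ‖z‖ ^ 2 < T} := by
    rw [hqd]
    exact continuousOn_const.add ((cont_nsq' hm).div_const 16)
  simp only [hqe] at hFi ⊢
  have hA : 0 ≤ ∫ z in {z : ℂ | ‖z‖ ^ 2 < T}, ‖F0 z‖ ^ 2 / q z * Real.exp (-psi (‖z‖ ^ 2)) :=
    setIntegral_nonneg hBm (fun z hz => by
      have := hq z hz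
      positivity)
  have hap : ∀ u ∈ CU {z : ℂ | ‖z‖ ^ 2 < T},
      ∫ z, q z * ‖u z‖ ^ 2 * Real.exp (-psi (‖z‖ ^ 2)) ≤
        ∫ z, ‖dz1 u z - ((psi1 (‖z‖ ^ 2) : ℝ) : ℂ) * conj z * u z‖ ^ 2 *
          Real.exp (-psi (‖z‖ ^ 2)) := by
    intro u hu
    have := h2 T psi psi1 psi2 m hTpos hpsi hpsi1 hpsi2 hm (fun t ht => (hmpos t ht).le) hconv
      (hH T y m hT hy hy1 hm hm1 hm2) u hu.1 hu.2.1 hu.2.2
    simp only [hqe] at this
    exact this
  have hrc : ContinuousOn (fun z => rW psi z) {z : ℂ | ‖z‖ ^ 2 < T} := rW_cont hpc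
  have hG : ContinuousOn (fun z => -(conj (F0 z) * ((rW psi z ^ 2 : ℝ) : ℂ)))
      {z : ℂ | ‖z‖ ^ 2 < T} :=
    ((Complex.continuous_conj.comp_continuousOn hF0).mul
      (Complex.continuous_ofReal.comp_continuousOn (hrc.pow 2))).neg
  -- the bound
  have hbd : ∀ u : CU {z : ℂ | ‖z‖ ^ 2 < T}, ‖FF _ hG u‖ ≤
      Real.sqrt (∫ z in {z : ℂ | ‖z‖ ^ 2 < T}, ‖F0 z‖ ^ 2 / q z * Real.exp (-psi (‖z‖ ^ 2))) *
        ‖LL hpc hpc1 u‖ := by
    intro u
    have hsq : ContinuousOn (fun z => Real.sqrt (q z)) {z : ℂ | ‖z‖ ^ 2 < T} :=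
      Real.continuous_sqrt.comp_continuousOn hqc
    have hac : ContinuousOn (fun z => ‖F0 z‖ / Real.sqrt (q z) * rW psi z)
        {z : ℂ | ‖z‖ ^ 2 < T} :=
      (hF0.norm.div hsq (fun z hz => (Real.sqrt_pos.2 (hq z hz)).ne')).mul hrc
    have ha : MemLp (fun z => ‖F0 z‖ / Real.sqrt (q z) * rW psi z) 2
        (volume.restrict {z : ℂ | ‖z‖ ^ 2 < T}) := by
      rw [memLp_two_iff_integrable_sq (hac.aestronglyMeasurable hBm)]
      refine IntegrableOn.congr_fun hFi (fun z hz => ?_) hBm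
      change _ = (‖F0 z‖ / Real.sqrt (q z) * rW psi z) ^ 2
      rw [mul_pow, div_pow, Real.sq_sqrt (hq z hz).le, rW_sq]
    have hbc : ContinuousOn (fun z => ((Real.sqrt (q z) * rW psi z : ℝ) : ℂ))
        {z : ℂ | ‖z‖ ^ 2 < T} := Complex.continuous_ofReal.comp_continuousOn (hsq.mul hrc)
    have hb : MemLp (fun z => ‖((Real.sqrt (q z) * rW psi z : ℝ) : ℂ) * u.1 z‖) 2
        (volume.restrict {z : ℂ | ‖z‖ ^ 2 < T}) :=
      (((cont_mul_supp hBo hbc u.2.1.continuous u.2.2.2).memLp_of_hasCompactSupport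
        (hcs_mul u.2.2.1)).restrict _).norm
    have h3 := cs (fun z => mul_nonneg (div_nonneg (norm_nonneg (F0 z)) (Real.sqrt_nonneg (q z)))
      (rW_pos psi z).le) (fun z => norm_nonneg _) ha hb
    have h4 : ‖FF _ hG u‖ ≤ ∫ z in {z : ℂ | ‖z‖ ^ 2 < T},
        (‖F0 z‖ / Real.sqrt (q z) * rW psi z) *
          ‖((Real.sqrt (q z) * rW psi z : ℝ) : ℂ) * u.1 z‖ := by
      refine le_trans (norm_integral_le_integral_norm _) (le_of_eq ?_)
      refine setIntegral_congr_fun hBm (fun z hz => ?_)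
      have hs := Real.sqrt_pos.2 (hq z hz)
      have hr := rW_pos psi z
      change ‖-(conj (F0 z) * ((rW psi z ^ 2 : ℝ) : ℂ)) * u.1 z‖ = _
      rw [norm_mul, norm_neg, norm_mul, norm_mul, Complex.norm_real, Complex.norm_real,
        RCLike.norm_conj, Real.norm_of_nonneg (by positivity),
        Real.norm_of_nonneg (by positivity)]
      field_simp
    have h5 : ∫ z in {z : ℂ | ‖z‖ ^ 2 < T}, (‖F0 z‖ / Real.sqrt (q z) * rW psi z) ^ 2 =
        ∫ z in {z : ℂ | ‖z‖ ^ 2 < T}, ‖F0 z‖ ^ 2 / q z * Real.exp (-psi (‖z‖ ^ 2)) := by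
      refine setIntegral_congr_fun hBm (fun z hz => ?_)
      change (‖F0 z‖ / Real.sqrt (q z) * rW psi z) ^ 2 = _
      rw [mul_pow, div_pow, Real.sq_sqrt (hq z hz).le, rW_sq]
    have h6 : ∫ z in {z : ℂ | ‖z‖ ^ 2 < T},
        ‖((Real.sqrt (q z) * rW psi z : ℝ) : ℂ) * u.1 z‖ ^ 2 ≤ ‖LL hpc hpc1 u‖ ^ 2 := by
      rw [LL_norm]
      refine le_trans (le_of_eq ?_) (hap u.1 u.2)
      rw [← setIntegral_eq_integral_of_forall_compl_eq_zero
        (s := {z : ℂ | ‖z‖ ^ 2 < T}) (f := fun z => q z * ‖u.1 z‖ ^ 2 *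
          Real.exp (-psi (‖z‖ ^ 2)))]
      · refine setIntegral_congr_fun hBm (fun z hz => ?_)
        change ‖((Real.sqrt (q z) * rW psi z : ℝ) : ℂ) * u.1 z‖ ^ 2 = _
        rw [norm_mul, Complex.norm_real, Real.norm_of_nonneg
          (mul_nonneg (Real.sqrt_nonneg _) (rW_pos psi z).le), mul_pow, mul_pow,
          Real.sq_sqrt (hq z hz).le, rW_sq]
        ring
      · intro z hz
        rw [image_eq_zero_of_notMem_tsupport (fun h => hz (u.2.2.2 h))]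
        simp
    rw [h5] at h3
    refine le_trans h4 (le_trans h3 ?_)
    refine mul_le_mul_of_nonneg_left ?_ (Real.sqrt_nonneg _)
    exact Real.sqrt_le_iff.2 ⟨norm_nonneg _, h6⟩
  obtain ⟨b, hbn, hbi⟩ := riesz_ext (LL hpc hpc1) (FF _ hG) _ (Real.sqrt_nonneg _) hbd
  have hrp := rW_pos psi
  have hsqe : ∀ z, ‖b z * (((rW psi z)⁻¹ : ℝ) : ℂ)‖ ^ 2 * Real.exp (-psi (‖z‖ ^ 2)) =
      ‖b z‖ ^ 2 := by
    intro z
    have := (hrp z).ne'
    rw [norm_mul, Complex.norm_real, Real.norm_of_nonneg (inv_nonneg.2 (hrp z).le), mul_pow,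
      ← rW_sq]
    field_simp
  refine ⟨fun z => b z * (((rW psi z)⁻¹ : ℝ) : ℂ), ?_, ?_, ?_, ?_⟩
  · refine (Lp.aestronglyMeasurable b).mul ?_
    refine ContinuousOn.aestronglyMeasurable ?_ hBm
    exact Complex.continuous_ofReal.comp_continuousOn (hrc.inv₀ (fun z _ => (hrp z).ne'))
  · simp only [hsqe]
    exact (Lp.memLp b).integrable_norm_pow (by norm_num)
  · simp only [hsqe]
    rw [← normsq_Lp]
    calc ‖b‖ ^ 2 ≤ (Real.sqrt (∫ z in {z : ℂ | ‖z‖ ^ 2 < T},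
          ‖F0 z‖ ^ 2 / q z * Real.exp (-psi (‖z‖ ^ 2)))) ^ 2 :=
          pow_le_pow_left₀ (norm_nonneg _) hbn 2
      _ = _ := Real.sq_sqrt hA
  · intro φ hφ hφc hφs
    have hcφ : ContDiff ℝ 2 (fun w => conj (φ w)) :=
      (Complex.conjCLE : ℂ →L[ℝ] ℂ).contDiff.comp (by exact_mod_cast contDiff_infty.1 hφ 2)
    have hts : tsupport (fun w => conj (φ w)) ⊆ tsupport φ :=
      closure_mono (fun z hz h => hz (by
        change conj (φ z) = 0
        rw [h]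
        simp))
    have hu : (fun w => VV psi w * conj (φ w)) ∈ CU {z : ℂ | ‖z‖ ^ 2 < T} := by
      refine ⟨contDiff_mul_supp hBo (VV_c2 (psi_c2 hpsi hpsi1 hpsi2)) hcφ (hts.trans hφs), ?_, ?_⟩
      · refine HasCompactSupport.intro hφc (fun z hz => ?_)
        rw [image_eq_zero_of_notMem_tsupport hz]
        simp
      · refine (closure_minimal ?_ (isClosed_tsupport φ)).trans hφs
        intro z hz
        by_contra h
        apply hz
        change VV psi z * conj (φ z) = 0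
        rw [image_eq_zero_of_notMem_tsupport h]
        simp
    have h7 := hbi ⟨_, hu⟩
    have hVr : ∀ z, ((rW psi z ^ 2 : ℝ) : ℂ) * VV psi z = 1 := by
      intro z
      rw [rW_sq, VV, ← Complex.ofReal_mul, ← Real.exp_add]
      simp
    have hVr2 : ∀ z, (rW psi z : ℂ) * VV psi z = (((rW psi z)⁻¹ : ℝ) : ℂ) := by
      intro z
      have h8 := hVr z
      have h9 : (rW psi z : ℂ) ≠ 0 := by exact_mod_cast (hrp z).ne'
      push_cast at h8 ⊢
      field_simp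
      rw [← h8]
    have h8 : FF _ hG ⟨_, hu⟩ = - conj (∫ z in {z : ℂ | ‖z‖ ^ 2 < T}, F0 z * φ z) := by
      change ∫ z in {z : ℂ | ‖z‖ ^ 2 < T}, -(conj (F0 z) * ((rW psi z ^ 2 : ℝ) : ℂ)) *
        (VV psi z * conj (φ z)) = _
      rw [← integral_conj, ← integral_neg]
      congr 1
      funext z
      rw [map_mul, show -(conj (F0 z) * ((rW psi z ^ 2 : ℝ) : ℂ)) * (VV psi z * conj (φ z)) =
        -(conj (F0 z) * conj (φ z)) * (((rW psi z ^ 2 : ℝ) : ℂ) * VV psi z) by ring, hVr, mul_one]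
    have h9 : inner ℂ b (LL hpc hpc1 ⟨_, hu⟩) = conj (∫ z in {z : ℂ | ‖z‖ ^ 2 < T},
        b z * (((rW psi z)⁻¹ : ℝ) : ℂ) * db1 φ z) := by
      rw [L2.inner_def, ← integral_conj]
      have h10 : ∀ᵐ z ∂(volume.restrict {z : ℂ | ‖z‖ ^ 2 < T}),
          (LL hpc hpc1 ⟨_, hu⟩) z = (((rW psi z)⁻¹ : ℝ) : ℂ) * conj (db1 φ z) := by
        filter_upwards [(opD_memLp hpc hpc1 hu).coeFn_toLp, ae_restrict_mem hBm] with z hz hzB
        change ((opD_memLp hpc hpc1 hu).toLp) z = _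
        rw [hz]
        unfold opD
        rw [dz1_conj hφ hpsi hzB, ← hVr2]
        ring
      apply integral_congr_ae
      filter_upwards [h10] with z hz
      rw [hz]
      simp
      ring
    rw [h8, h9] at h7
    have h11 := congrArg conj h7
    simp only [map_neg, Complex.conj_conj] at h11
    exact h11

end DbarN.JPL
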