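import Pool.Agent.H314.DN.Stmts4
import Pool.Agent.H314.DN.A0
import Pool.Agent.H314.DN.A1

set_option autoImplicit false

open MeasureTheory Complex Filter Topology
open scoped ContDiff InnerProductSpace ENNReal ComplexConjugate

namespace DbarN.JPO

theorem pol_fubini (G : E3 → ℝ≥0∞) (hG : Measurable G) :
    ∫⁻ x, G x = ∫⁻ z : ℂ, ∫⁻ x2 : ℂ, ∫⁻ x1 : ℂ, G ![z, x1, x2] := by
  have h1 := (volume_preserving_piFinSuccAbove (fun _ : Fin 3 => ℂ) 0).symm
  have h2 := (volume_preserving_finTwoArrow ℂ).symm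
  rw [← h1.lintegral_comp_emb (MeasurableEquiv.measurableEmbedding _) G, Measure.volume_eq_prod,
    lintegral_prod _ (by
      exact (hG.comp (MeasurableEquiv.measurable _)).aemeasurable)]
  apply lintegral_congr
  intro z
  have hz : Measurable (fun y : Fin 2 → ℂ =>
      G ((MeasurableEquiv.piFinSuccAbove (fun _ : Fin 3 => ℂ) 0).symm (z, y))) :=
    hG.comp ((MeasurableEquiv.measurable _).comp measurable_prodMk_left)
  have hz2 : Measurable (fun a : ℂ × ℂ => G ((MeasurableEquiv.piFinSuccAbove (fun _ : Fin 3 => ℂ) 0).symm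
      (z, MeasurableEquiv.finTwoArrow.symm a))) := hz.comp (MeasurableEquiv.measurable _)
  rw [← h2.lintegral_comp_emb (MeasurableEquiv.measurableEmbedding _), Measure.volume_eq_prod,
    lintegral_prod_symm _ hz2.aemeasurable]
  apply lintegral_congr
  intro x2
  apply lintegral_congr
  intro x1
  congr 1
  funext i
  fin_cases i <;> rfl

theorem pol_scale (R : ℝ) (hR : 0 < R) (g : ℝ → ℝ≥0∞) :
    ∫⁻ r in Set.Ioo 0 R, g r = ∫⁻ v in Set.Ioo (0:ℝ) 1, ENNReal.ofReal R * g (R * v) := by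
  have himg : (fun v : ℝ => R * v) '' Set.Ioo (0:ℝ) 1 = Set.Ioo 0 R := by
    ext r
    constructor
    · rintro ⟨v, hv, rfl⟩
      exact ⟨mul_pos hR hv.1, by nlinarith [hv.2]⟩
    · intro hr
      refine ⟨r / R, ⟨div_pos hr.1 hR, by rw [div_lt_one hR]; exact hr.2⟩, ?_⟩
      show R * (r / R) = r
      field_simp
  rw [← himg, lintegral_image_eq_lintegral_abs_deriv_mul (f' := fun _ => R) measurableSet_Ioo
    (fun x _ => by
      have := ((hasDerivAt_id x).const_mul R).hasDerivWithinAt (s := Set.Ioo (0:ℝ) 1)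
      simpa using this)
    (fun a _ b _ h => mul_left_cancel₀ hR.ne' h)]
  rw [abs_of_pos hR]

theorem pol_polar (R : ℝ) (hR : 0 < R) (g : ℂ → ℝ≥0∞) (hg : Measurable g)
    (hrot : ∀ (θ : ℝ) (w : ℂ), g (Complex.exp (θ * I) * w) = g w) :
    ∫⁻ w in {w : ℂ | ‖w‖ < R}, g w =
      ∫⁻ v in Set.Ioo (0:ℝ) 1, ENNReal.ofReal (2 * Real.pi * R ^ 2 * v) * g ((R * v : ℝ) : ℂ) := by
  have hmeas : MeasurableSet {w : ℂ | ‖w‖ < R} := measurableSet_lt measurable_norm measurable_const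
  rw [← lintegral_indicator hmeas, ← Complex.lintegral_comp_polarCoord_symm]
  have h1 : ∀ p ∈ polarCoord.target, ENNReal.ofReal p.1 •
      ({w : ℂ | ‖w‖ < R}).indicator g (Complex.polarCoord.symm p) =
      (Set.Iio R).indicator (fun r : ℝ => ENNReal.ofReal r * g (r : ℂ)) p.1 := by
    intro p hp
    have hp1 : 0 < p.1 := hp.1
    have hn : ‖Complex.polarCoord.symm p‖ = p.1 := by
      rw [Complex.norm_polarCoord_symm, abs_of_pos hp1]
    have he : Complex.polarCoord.symm p = Complex.exp (p.2 * I) * (p.1 : ℂ) := by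
      rw [Complex.polarCoord_symm_apply, Complex.exp_mul_I]
      push_cast
      ring
    by_cases h : p.1 < R
    · rw [Set.indicator_of_mem (show Complex.polarCoord.symm p ∈ {w : ℂ | ‖w‖ < R} by
          show ‖Complex.polarCoord.symm p‖ < R
          rw [hn]; exact h), Set.indicator_of_mem (show p.1 ∈ Set.Iio R from h), smul_eq_mul, he, hrot]
    · rw [Set.indicator_of_notMem (show Complex.polarCoord.symm p ∉ {w : ℂ | ‖w‖ < R} by
          show ¬ ‖Complex.polarCoord.symm p‖ < R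
          rw [hn]; exact h), Set.indicator_of_notMem (show p.1 ∉ Set.Iio R from h), smul_zero]
  rw [setLIntegral_congr_fun polarCoord.open_target.measurableSet h1]
  have htarget : polarCoord.target = Set.Ioi (0:ℝ) ×ˢ Set.Ioo (-Real.pi) Real.pi := rfl
  have hFm : Measurable ((Set.Iio R).indicator (fun r : ℝ => ENNReal.ofReal r * g (r : ℂ))) :=
    (ENNReal.measurable_ofReal.mul (hg.comp Complex.measurable_ofReal)).indicator measurableSet_Iio
  have hFm2 : Measurable (fun p : ℝ × ℝ => (Set.Iio R).indicator (fun r : ℝ => ENNReal.ofReal r * g (r : ℂ)) p.1) :=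
    hFm.comp measurable_fst
  rw [htarget, Measure.volume_eq_prod, ← Measure.prod_restrict,
    lintegral_prod _ hFm2.aemeasurable]
  simp only [lintegral_const, Measure.restrict_apply_univ, Real.volume_Ioo]
  rw [lintegral_mul_const _ hFm, lintegral_indicator measurableSet_Iio,
    Measure.restrict_restrict measurableSet_Iio]
  have hset : Set.Iio R ∩ Set.Ioi 0 = Set.Ioo 0 R := by
    ext r; exact ⟨fun h => ⟨h.2, h.1⟩, fun h => ⟨h.2, h.1⟩⟩
  rw [hset, pol_scale R hR, ← lintegral_mul_const]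
  · apply setLIntegral_congr_fun measurableSet_Ioo
    intro v hv
    have hv0 : 0 < v := hv.1
    show ENNReal.ofReal R * (ENNReal.ofReal (R * v) * g ((R * v : ℝ) : ℂ)) * ENNReal.ofReal (Real.pi - -Real.pi)
      = ENNReal.ofReal (2 * Real.pi * R ^ 2 * v) * g ((R * v : ℝ) : ℂ)
    have : 2 * Real.pi * R ^ 2 * v = R * (R * v) * (Real.pi - -Real.pi) := by ring
    rw [this, ENNReal.ofReal_mul (p := R * (R * v)) (by positivity),
      ENNReal.ofReal_mul (p := R) (q := R * v) hR.le]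
    ring
  · have h2 : Measurable (fun v : ℝ => R * v) := measurable_const.mul measurable_id
    exact measurable_const.mul ((ENNReal.measurable_ofReal.comp h2).mul
      (hg.comp (Complex.measurable_ofReal.comp h2)))

theorem pol_om_meas (k1 l1 : ℝ) : Measurable (fun t => om k1 l1 t) := by
  unfold om
  exact measurable_const.mul (expNegInvGlue.contDiff.continuous (n := 0).measurable.comp
    ((measurable_id.sub measurable_const).div_const k1))

theorem pol_dl_meas (k1 l1 : ℝ) : Measurable (fun t => dl k1 l1 t) := by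
  unfold dl
  exact measurable_const.sub (pol_om_meas k1 l1)

theorem pol_XX_meas (k1 l1 : ℝ) : Measurable (fun p : ℝ × ℝ => XX k1 l1 p.1 p.2) := by
  unfold XX el Lm tau
  have h1 : Measurable (fun p : ℝ × ℝ => dl k1 l1 p.1) := (pol_dl_meas k1 l1).comp measurable_fst
  have h2 : Measurable (fun p : ℝ × ℝ => - Real.log (dl k1 l1 p.1)) :=
    (Real.measurable_log.comp h1).neg
  have h3 : Measurable (fun p : ℝ × ℝ => - Real.log (1 - p.2 ^ 2)) :=
    (Real.measurable_log.comp (measurable_const.sub (measurable_snd.pow_const 2))).neg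
  exact (measurable_const.sub measurable_fst).div ((measurable_const.add h2).add h3)

theorem pol_dl_pos (e k1 l1 : ℝ) (h : ParOK e k1 l1) (t : ℝ) (ht : t < tB k1 l1) :
    0 < dl k1 l1 t ∧ dl k1 l1 t ≤ 1 := by
  have hk := h.hk
  have hl : 0 < l1 := by linarith [h.hl]
  unfold dl om
  have hnn : 0 ≤ Real.exp l1 * expNegInvGlue ((t - 1) / k1) :=
    mul_nonneg (Real.exp_pos _).le (expNegInvGlue.nonneg _)
  refine ⟨?_, by linarith⟩
  rcases le_or_gt t 1 with h1 | h1
  · rw [expNegInvGlue.zero_of_nonpos (div_nonpos_of_nonpos_of_nonneg (by linarith) hk.le)]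
    norm_num
  · have hx : 0 < (t - 1) / k1 := div_pos (by linarith) hk
    have hx2 : (t - 1) / k1 < 1 / l1 := by
      unfold tB at ht
      rw [div_lt_iff₀ hk]
      have : 1 / l1 * k1 = k1 / l1 := by ring
      rw [this]; linarith
    have he : expNegInvGlue ((t - 1) / k1) = Real.exp (-((t - 1) / k1)⁻¹) := by
      unfold expNegInvGlue
      rw [if_neg (not_le.mpr hx)]
    rw [he, ← Real.exp_add]
    have h3 : l1 < ((t - 1) / k1)⁻¹ := by
      rw [one_div] at hx2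
      rw [lt_inv_comm₀ hl hx]
      exact hx2
    have : Real.exp (l1 + -((t - 1) / k1)⁻¹) < 1 := by
      rw [Real.exp_lt_one_iff]; linarith
    linarith

theorem pol_XX_pos (e k1 l1 : ℝ) (h : ParOK e k1 l1) (t s : ℝ) (ht : t < tB k1 l1) (hs0 : 0 ≤ s)
    (hs : s < 1) : 0 < 1 + XX k1 l1 t s := by
  obtain ⟨h1, h2⟩ := pol_dl_pos e k1 l1 h t ht
  have hl : 0 < l1 := by linarith [h.hl]
  have hkl : k1 / l1 ≤ 1 := by
    rw [div_le_one hl]; linarith [h.hk1, h.hl]
  have ht2 : t < 2 := by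
    unfold tB at ht; linarith
  have hL : 0 ≤ Lm k1 l1 t := by
    unfold Lm
    have := Real.log_nonpos h1.le h2
    linarith
  have hT : 0 ≤ tau s := by
    unfold tau
    have := Real.log_nonpos (x := 1 - s ^ 2) (by nlinarith) (by nlinarith)
    linarith
  unfold XX
  have : 0 < (2 - t) / el k1 l1 t s := by
    apply div_pos (by linarith)
    unfold el
    linarith
  linarith

theorem pol_vec_meas {α : Type*} [MeasurableSpace α] (a b c : α → ℂ) (ha : Measurable a) (hb : Measurable b)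
    (hc : Measurable c) : Measurable (fun w : α => (![a w, b w, c w] : E3)) := by
  rw [measurable_pi_iff]
  intro i
  fin_cases i
  · exact ha
  · exact hb
  · exact hc

theorem pol_fibre (e k1 l1 : ℝ) (hpar : ParOK e k1 l1) (H : E3 → ℝ≥0∞) (hH : Measurable H)
    (hrot : ∀ θ₁ θ₂ x, H (rot θ₁ θ₂ x) = H x) (z : ℂ) (hz : ‖z‖ ^ 2 < tB k1 l1)
    (D : ℝ) (hD : D = e * Real.sqrt (dl k1 l1 (‖z‖ ^ 2))) :
    ∫⁻ x2 in {x2 : ℂ | ‖x2‖ < D}, ∫⁻ x1 in {x1 : ℂ | ‖x1‖ < e * Real.sqrt (1 + XX k1 l1 (‖z‖ ^ 2) (‖x2‖ / D))},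
      H ![z, x1, x2] =
    ∫⁻ v in Set.Ioo (0 : ℝ) 1, ∫⁻ s in Set.Ioo (0 : ℝ) 1, H (Pt e k1 l1 z v s) *
        ENNReal.ofReal (4 * Real.pi ^ 2 * e ^ 4 * v * (1 + XX k1 l1 (‖z‖ ^ 2) s) *
          dl k1 l1 (‖z‖ ^ 2) * s) := by
  have he := hpar.he
  obtain ⟨t, ht⟩ : ∃ t, t = ‖z‖ ^ 2 := ⟨_, rfl⟩
  rw [← ht] at hz hD ⊢
  have hdl := (pol_dl_pos e k1 l1 hpar t hz).1
  have hDpos : 0 < D := by rw [hD]; exact mul_pos he (Real.sqrt_pos.mpr hdl)
  have hXm := pol_XX_meas k1 l1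
  obtain ⟨ρ, hρ⟩ : ∃ ρ : ℝ → ℝ, ρ = fun s => e * Real.sqrt (1 + XX k1 l1 t s) := ⟨_, rfl⟩
  have hρm : Measurable ρ := by
    rw [hρ]
    have : Measurable (fun s : ℝ => XX k1 l1 t s) := hXm.comp (measurable_const.prodMk measurable_id)
    exact measurable_const.mul (measurable_const.add this).sqrt
  have hρpos : ∀ s, 0 ≤ s → s < 1 → 0 < ρ s := by
    intro s hs0 hs1
    rw [hρ]
    exact mul_pos he (Real.sqrt_pos.mpr (pol_XX_pos e k1 l1 hpar t s hz hs0 hs1))
  have hsub : ∀ x2 : ℂ, e * Real.sqrt (1 + XX k1 l1 t (‖x2‖ / D)) = ρ (‖x2‖ / D) := by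
    intro x2; rw [hρ]
  -- the inner integral
  obtain ⟨Kf, hKf⟩ : ∃ Kf : ℂ → ℝ≥0∞, Kf = fun x2 => ∫⁻ v in Set.Ioo (0:ℝ) 1,
      ENNReal.ofReal (2 * Real.pi * (ρ (‖x2‖ / D)) ^ 2 * v) *
        H ![z, ((ρ (‖x2‖ / D) * v : ℝ) : ℂ), x2] := ⟨_, rfl⟩
  have hinner : ∀ x2 ∈ {x2 : ℂ | ‖x2‖ < D}, ∫⁻ x1 in {x1 : ℂ | ‖x1‖ < e * Real.sqrt (1 + XX k1 l1 t (‖x2‖ / D))},
      H ![z, x1, x2] = Kf x2 := by
    intro x2 hx2
    have hx2' : ‖x2‖ < D := hx2
    rw [hsub x2, hKf]
    apply pol_polar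
    · exact hρpos _ (div_nonneg (norm_nonneg _) hDpos.le) (by rw [div_lt_one hDpos]; exact hx2')
    · exact hH.comp (pol_vec_meas _ _ _ measurable_const measurable_id measurable_const)
    · intro θ w
      rw [← hrot θ 0 ![z, w, x2]]
      congr 1
      unfold rot
      funext i
      fin_cases i <;> simp
  have hdisc : MeasurableSet {x2 : ℂ | ‖x2‖ < D} := measurableSet_lt measurable_norm measurable_const
  rw [setLIntegral_congr_fun hdisc hinner]
  have hjoint : Measurable (fun p : ℂ × ℝ => ENNReal.ofReal (2 * Real.pi * (ρ (‖p.1‖ / D)) ^ 2 * p.2) *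
        H ![z, ((ρ (‖p.1‖ / D) * p.2 : ℝ) : ℂ), p.1]) := by
    have h1 : Measurable (fun p : ℂ × ℝ => ρ (‖p.1‖ / D)) :=
      hρm.comp (measurable_fst.norm.div_const D)
    apply Measurable.mul
    · exact ENNReal.measurable_ofReal.comp ((measurable_const.mul (h1.pow_const 2)).mul measurable_snd)
    · exact hH.comp (pol_vec_meas _ _ _ measurable_const
        (Complex.measurable_ofReal.comp (h1.mul measurable_snd)) measurable_fst)
  have hKm : Measurable Kf := by
    rw [hKf]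
    exact hjoint.lintegral_prod_right'
  have hKrot : ∀ (θ : ℝ) (w : ℂ), Kf (Complex.exp (θ * I) * w) = Kf w := by
    intro θ w
    rw [hKf]
    show ∫⁻ v in Set.Ioo (0:ℝ) 1, ENNReal.ofReal (2 * Real.pi * (ρ (‖Complex.exp (θ * I) * w‖ / D)) ^ 2 * v) *
        H ![z, ((ρ (‖Complex.exp (θ * I) * w‖ / D) * v : ℝ) : ℂ), Complex.exp (θ * I) * w] = 
      ∫⁻ v in Set.Ioo (0:ℝ) 1, ENNReal.ofReal (2 * Real.pi * (ρ (‖w‖ / D)) ^ 2 * v) *
        H ![z, ((ρ (‖w‖ / D) * v : ℝ) : ℂ), w]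
    have hn : ‖Complex.exp (θ * I) * w‖ = ‖w‖ := by
      rw [norm_mul, Complex.norm_exp_ofReal_mul_I, one_mul]
    rw [hn]
    apply lintegral_congr
    intro v
    congr 1
    rw [← hrot 0 θ ![z, ((ρ (‖w‖ / D) * v : ℝ) : ℂ), w]]
    congr 1
    unfold rot
    funext i
    fin_cases i <;> simp
  rw [pol_polar D hDpos Kf hKm hKrot]
  -- rewrite as a double integral
  have hstep : ∀ s ∈ Set.Ioo (0:ℝ) 1, ENNReal.ofReal (2 * Real.pi * D ^ 2 * s) * Kf ((D * s : ℝ) : ℂ) =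
      ∫⁻ v in Set.Ioo (0 : ℝ) 1, H (Pt e k1 l1 z v s) *
        ENNReal.ofReal (4 * Real.pi ^ 2 * e ^ 4 * v * (1 + XX k1 l1 t s) * dl k1 l1 t * s) := by
    intro s hs
    have hs0 : 0 < s := hs.1
    have hnorm : ‖((D * s : ℝ) : ℂ)‖ / D = s := by
      rw [Complex.norm_real, Real.norm_eq_abs, abs_of_pos (mul_pos hDpos hs0)]
      field_simp
    rw [hKf]
    show ENNReal.ofReal (2 * Real.pi * D ^ 2 * s) * ∫⁻ v in Set.Ioo (0:ℝ) 1,
      ENNReal.ofReal (2 * Real.pi * (ρ (‖((D * s : ℝ) : ℂ)‖ / D)) ^ 2 * v) *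
        H ![z, ((ρ (‖((D * s : ℝ) : ℂ)‖ / D) * v : ℝ) : ℂ), ((D * s : ℝ) : ℂ)] = _
    rw [hnorm, ← lintegral_const_mul]
    · apply setLIntegral_congr_fun measurableSet_Ioo
      intro v hv
      have hv0 : 0 < v := hv.1
      have hX1 := pol_XX_pos e k1 l1 hpar t s hz hs0.le hs.2
      have hPt : (![z, ((ρ s * v : ℝ) : ℂ), ((D * s : ℝ) : ℂ)] : E3) = Pt e k1 l1 z v s := by
        unfold Pt
        rw [hρ, hD, ← ht]
        congr 2
        congr 1
        ring
      show ENNReal.ofReal (2 * Real.pi * D ^ 2 * s) * (ENNReal.ofReal (2 * Real.pi * (ρ s) ^ 2 * v) *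
        H ![z, ((ρ s * v : ℝ) : ℂ), ((D * s : ℝ) : ℂ)]) = H (Pt e k1 l1 z v s) *
        ENNReal.ofReal (4 * Real.pi ^ 2 * e ^ 4 * v * (1 + XX k1 l1 t s) * dl k1 l1 t * s)
      rw [hPt, ← mul_assoc, ← ENNReal.ofReal_mul (by positivity), mul_comm]
      congr 2
      have h1 : D ^ 2 = e ^ 2 * dl k1 l1 t := by
        rw [hD, mul_pow, Real.sq_sqrt hdl.le]
      have h2 : (ρ s) ^ 2 = e ^ 2 * (1 + XX k1 l1 t s) := by
        rw [hρ]
        show (e * Real.sqrt (1 + XX k1 l1 t s)) ^ 2 = _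
        rw [mul_pow, Real.sq_sqrt hX1.le]
      rw [h1, h2]
      ring
    · apply Measurable.mul
      · exact ENNReal.measurable_ofReal.comp (measurable_const.mul measurable_id)
      · exact hH.comp (pol_vec_meas _ _ _ measurable_const
          (Complex.measurable_ofReal.comp (measurable_const.mul measurable_id)) measurable_const)
  rw [setLIntegral_congr_fun measurableSet_Ioo hstep]
  have hmeas2 : Measurable (fun p : ℝ × ℝ => H (Pt e k1 l1 z p.2 p.1) *
        ENNReal.ofReal (4 * Real.pi ^ 2 * e ^ 4 * p.2 * (1 + XX k1 l1 t p.1) * dl k1 l1 t * p.1)) := by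
    have hX : Measurable (fun p : ℝ × ℝ => 1 + XX k1 l1 t p.1) :=
      measurable_const.add (hXm.comp (measurable_const.prodMk measurable_fst))
    apply Measurable.mul
    · apply hH.comp
      unfold Pt
      rw [← ht]
      exact pol_vec_meas _ _ _ measurable_const
        (Complex.measurable_ofReal.comp ((measurable_const.mul measurable_snd).mul hX.sqrt))
        (Complex.measurable_ofReal.comp (measurable_const.mul measurable_fst))
    · exact ENNReal.measurable_ofReal.comp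
        ((((measurable_const.mul measurable_snd).mul hX).mul measurable_const).mul measurable_fst)
  exact lintegral_lintegral_swap hmeas2.aemeasurable

theorem pol (hM : Mem_stmt) : Pol_stmt := by
  intro e k1 l1 hpar H hH hrot
  have he := hpar.he
  have hXm := pol_XX_meas k1 l1
  have hdm := pol_dl_meas k1 l1
  have hmem := hM e k1 l1 hpar
  have hn : ∀ i : Fin 3, Measurable (fun x : E3 => ‖x i‖) := fun i => (measurable_pi_apply i).norm
  have hΩ : MeasurableSet (Omega e k1 l1) := by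
    have heq : Omega e k1 l1 = {x : E3 | ‖x 0‖ ^ 2 < tB k1 l1 ∧ ‖x 2‖ ^ 2 < e ^ 2 * dl k1 l1 (‖x 0‖ ^ 2) ∧
        ‖x 1‖ ^ 2 < e ^ 2 * (1 + XX k1 l1 (‖x 0‖ ^ 2)
          (‖x 2‖ / (e * Real.sqrt (dl k1 l1 (‖x 0‖ ^ 2)))))} := by
      ext x; exact hmem x
    rw [heq]
    have hd2 : Measurable (fun x : E3 => dl k1 l1 (‖x 0‖ ^ 2)) := hdm.comp ((hn 0).pow_const 2)
    have hX2 : Measurable (fun x : E3 => XX k1 l1 (‖x 0‖ ^ 2) (‖x 2‖ / (e * Real.sqrt (dl k1 l1 (‖x 0‖ ^ 2))))) :=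
      hXm.comp (((hn 0).pow_const 2).prodMk ((hn 2).div (measurable_const.mul hd2.sqrt)))
    exact (measurableSet_lt ((hn 0).pow_const 2) measurable_const).inter
      ((measurableSet_lt ((hn 2).pow_const 2) (measurable_const.mul hd2)).inter
        (measurableSet_lt ((hn 1).pow_const 2) (measurable_const.mul (measurable_const.add hX2))))
  have hBB : MeasurableSet (BB k1 l1) := measurableSet_lt (measurable_norm.pow_const 2) measurable_const
  rw [← lintegral_indicator hΩ, pol_fubini _ (hH.indicator hΩ), ← lintegral_indicator hBB]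
  apply lintegral_congr
  intro z
  by_cases hz : z ∈ BB k1 l1
  · rw [Set.indicator_of_mem hz]
    have hz' : ‖z‖ ^ 2 < tB k1 l1 := hz
    have hdl := (pol_dl_pos e k1 l1 hpar _ hz').1
    obtain ⟨D, hD⟩ : ∃ D, D = e * Real.sqrt (dl k1 l1 (‖z‖ ^ 2)) := ⟨_, rfl⟩
    have hDpos : 0 < D := by rw [hD]; exact mul_pos he (Real.sqrt_pos.mpr hdl)
    have hD2 : D ^ 2 = e ^ 2 * dl k1 l1 (‖z‖ ^ 2) := by
      rw [hD, mul_pow, Real.sq_sqrt hdl.le]
    rw [← pol_fibre e k1 l1 hpar H hH hrot z hz' D hD]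
    have hdisc : MeasurableSet {x2 : ℂ | ‖x2‖ < D} := measurableSet_lt measurable_norm measurable_const
    rw [← lintegral_indicator hdisc]
    apply lintegral_congr
    intro x2
    by_cases hx2 : ‖x2‖ < D
    · rw [Set.indicator_of_mem (show x2 ∈ {x2 : ℂ | ‖x2‖ < D} from hx2)]
      have hdisc1 : MeasurableSet {x1 : ℂ | ‖x1‖ < e * Real.sqrt (1 + XX k1 l1 (‖z‖ ^ 2) (‖x2‖ / D))} :=
        measurableSet_lt measurable_norm measurable_const
      rw [← lintegral_indicator hdisc1]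
      apply lintegral_congr
      intro x1
      have hX := pol_XX_pos e k1 l1 hpar (‖z‖ ^ 2) (‖x2‖ / D) hz' (div_nonneg (norm_nonneg _) hDpos.le)
        (by rw [div_lt_one hDpos]; exact hx2)
      have hρ : 0 ≤ e * Real.sqrt (1 + XX k1 l1 (‖z‖ ^ 2) (‖x2‖ / D)) := by positivity
      have hρ2 : (e * Real.sqrt (1 + XX k1 l1 (‖z‖ ^ 2) (‖x2‖ / D))) ^ 2 =
          e ^ 2 * (1 + XX k1 l1 (‖z‖ ^ 2) (‖x2‖ / D)) := by
        rw [mul_pow, Real.sq_sqrt hX.le]
      have hiff : (![z, x1, x2] : E3) ∈ Omega e k1 l1 ↔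
          x1 ∈ {x1 : ℂ | ‖x1‖ < e * Real.sqrt (1 + XX k1 l1 (‖z‖ ^ 2) (‖x2‖ / D))} := by
        rw [hmem]
        show (‖z‖ ^ 2 < tB k1 l1 ∧ ‖x2‖ ^ 2 < e ^ 2 * dl k1 l1 (‖z‖ ^ 2) ∧
          ‖x1‖ ^ 2 < e ^ 2 * (1 + XX k1 l1 (‖z‖ ^ 2) (‖x2‖ / (e * Real.sqrt (dl k1 l1 (‖z‖ ^ 2)))))) ↔
          ‖x1‖ < e * Real.sqrt (1 + XX k1 l1 (‖z‖ ^ 2) (‖x2‖ / D))
        rw [← hD, ← hρ2, ← hD2]
        constructor
        · rintro ⟨_, _, h⟩
          exact lt_of_pow_lt_pow_left₀ 2 hρ h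
        · intro h
          exact ⟨hz', pow_lt_pow_left₀ hx2 (norm_nonneg _) two_ne_zero,
            pow_lt_pow_left₀ h (norm_nonneg _) two_ne_zero⟩
      by_cases hx1 : x1 ∈ {x1 : ℂ | ‖x1‖ < e * Real.sqrt (1 + XX k1 l1 (‖z‖ ^ 2) (‖x2‖ / D))}
      · rw [Set.indicator_of_mem (hiff.mpr hx1), Set.indicator_of_mem hx1]
      · rw [Set.indicator_of_notMem (fun h => hx1 (hiff.mp h)), Set.indicator_of_notMem hx1]
    · rw [Set.indicator_of_notMem (show x2 ∉ {x2 : ℂ | ‖x2‖ < D} from hx2)]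
      have h0 : ∀ x1 : ℂ, (Omega e k1 l1).indicator H ![z, x1, x2] = 0 := by
        intro x1
        apply Set.indicator_of_notMem
        intro h
        rw [hmem] at h
        have h2 : ‖x2‖ ^ 2 < e ^ 2 * dl k1 l1 (‖z‖ ^ 2) := h.2.1
        rw [← hD2] at h2
        exact hx2 (lt_of_pow_lt_pow_left₀ 2 hDpos.le h2)
      simp only [h0, lintegral_zero]
  · rw [Set.indicator_of_notMem hz]
    have h0 : ∀ x2 x1 : ℂ, (Omega e k1 l1).indicator H ![z, x1, x2] = 0 := by
      intro x2 x1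
      apply Set.indicator_of_notMem
      intro h
      rw [hmem] at h
      exact hz h.1
    simp only [h0, lintegral_zero]

end DbarN.JPO
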