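import Pool.Agent.H314.DN.Stmts4
import Pool.Agent.H314.DN.CA1
import Pool.Agent.H314.DN.CA2

set_option autoImplicit false

open MeasureTheory Complex Filter Topology
open scoped ContDiff InnerProductSpace ENNReal ComplexConjugate

namespace DbarN.JPS

open DbarN.JCA1 DbarN.JCA2

theorem psi_all_meas_el (k1 l1 t : ℝ) : Measurable (fun s => el k1 l1 t s) := by
  unfold el tau
  fun_prop

theorem psi_all_meas_XX (k1 l1 t : ℝ) : Measurable (fun s => XX k1 l1 t s) := by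
  unfold XX
  exact measurable_const.div (psi_all_meas_el k1 l1 t)

theorem psi_all_meas_den (k1 l1 : ℝ) (j k : ℕ) (t : ℝ) :
    Measurable (fun s => den k1 l1 j k t s) := by
  unfold den
  exact (measurable_id.pow_const _).mul ((measurable_const.add (psi_all_meas_XX k1 l1 t)).pow_const _)

theorem psi_all_meas_tau1 : Measurable tau1 := by
  unfold tau1
  fun_prop

theorem psi_all_meas_tau2 : Measurable tau2 := by
  unfold tau2
  fun_prop

theorem psi_all_meas_Xt (k1 l1 t : ℝ) : Measurable (fun s => Xt k1 l1 t s) := by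
  have h := psi_all_meas_el k1 l1 t
  unfold Xt
  fun_prop

theorem psi_all_meas_Xtt (k1 l1 t : ℝ) : Measurable (fun s => Xtt k1 l1 t s) := by
  have h := psi_all_meas_el k1 l1 t
  unfold Xtt
  fun_prop

theorem psi_all_meas_Xs (k1 l1 t : ℝ) : Measurable (fun s => Xs k1 l1 t s) := by
  have h := psi_all_meas_el k1 l1 t
  have h1 := psi_all_meas_tau1
  unfold Xs
  fun_prop

theorem psi_all_meas_Xts (k1 l1 t : ℝ) : Measurable (fun s => Xts k1 l1 t s) := by
  have h := psi_all_meas_el k1 l1 t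
  have h1 := psi_all_meas_tau1
  unfold Xts
  fun_prop

theorem psi_all_meas_Xss (k1 l1 t : ℝ) : Measurable (fun s => Xss k1 l1 t s) := by
  have h := psi_all_meas_el k1 l1 t
  have h1 := psi_all_meas_tau1
  have h2 := psi_all_meas_tau2
  unfold Xss
  fun_prop

theorem psi_all_meas_Yt (k1 l1 t : ℝ) : Measurable (fun s => Yt k1 l1 t s) := by
  have h := psi_all_meas_XX k1 l1 t
  have h1 := psi_all_meas_Xt k1 l1 t
  unfold Yt
  fun_prop

theorem psi_all_meas_Ytt (k1 l1 t : ℝ) : Measurable (fun s => Ytt k1 l1 t s) := by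
  have h := psi_all_meas_XX k1 l1 t
  have h1 := psi_all_meas_Xt k1 l1 t
  have h2 := psi_all_meas_Xtt k1 l1 t
  unfold Ytt
  fun_prop

theorem psi_all_meas_Yts (k1 l1 t : ℝ) : Measurable (fun s => Yts k1 l1 t s) := by
  have h := psi_all_meas_XX k1 l1 t
  have h1 := psi_all_meas_Xt k1 l1 t
  have h2 := psi_all_meas_Xs k1 l1 t
  have h3 := psi_all_meas_Xts k1 l1 t
  unfold Yts
  fun_prop

theorem psi_all_meas_Yss (k1 l1 t : ℝ) : Measurable (fun s => Yss k1 l1 t s) := by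
  have h := psi_all_meas_XX k1 l1 t
  have h2 := psi_all_meas_Xs k1 l1 t
  have h3 := psi_all_meas_Xss k1 l1 t
  unfold Yss
  fun_prop

theorem psi_all_tB {e k1 l1 : ℝ} (hp : ParOK e k1 l1) : tB k1 l1 < 2 := by
  unfold tB
  have h1 : k1 / l1 ≤ (1 / 100) / 100 := by
    apply div_le_div₀ (by norm_num) hp.hk1 (by norm_num) hp.hl
  linarith

theorem psi_all_bounds {e k1 l1 : ℝ} (hp : ParOK e k1 l1) {t s : ℝ} (h0 : 0 ≤ t)
    (h1 : t < tB k1 l1) (hs : s ∈ Set.Ioo (0 : ℝ) 1) :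
    100 ≤ el k1 l1 t s ∧ 0 < XX k1 l1 t s ∧ XX k1 l1 t s ≤ 1 := by
  have hl0 : 0 < l1 := by linarith [hp.hl]
  have hL := Lm_hasDerivAt (k1 := k1) (l1 := l1) hp.hk hl0 h1
  have hL1 := Lm1_hasDerivAt (k1 := k1) (l1 := l1) hp.hk hl0 h1
  have ht2 : t < 2 := h1.trans (psi_all_tB hp)
  obtain ⟨a1, a2, -⟩ := X_derivs t s hs.1.le hs.2 hL hL1 (Lm_nonneg hp.hk hl0 h1) ht2
  refine ⟨a1, a2, ?_⟩
  unfold XX
  rw [div_le_one (by linarith)]
  linarith

theorem psi_all_intg {e k1 l1 : ℝ} (hp : ParOK e k1 l1) (j k : ℕ) {t : ℝ} (h0 : 0 ≤ t)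
    (h1 : t < tB k1 l1) (H : ℝ → ℝ) (hm : Measurable H) (B : ℝ)
    (hb : ∀ s ∈ Set.Ioo (0 : ℝ) 1, |H s| ≤ B) :
    IntegrableOn (fun s => H s * den k1 l1 j k t s) (Set.Ioo 0 1) := by
  apply Measure.integrableOn_of_bounded (M := B * 2 ^ (j + 1)) (by simp)
    (hm.mul (psi_all_meas_den k1 l1 j k t)).aestronglyMeasurable
  refine ae_restrict_of_forall_mem measurableSet_Ioo fun s hs => ?_
  obtain ⟨-, a2, a3⟩ := psi_all_bounds hp h0 h1 hs
  have hB : 0 ≤ B := (abs_nonneg _).trans (hb s hs)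
  have hd0 : 0 ≤ den k1 l1 j k t s := by
    unfold den
    have := hs.1.le
    positivity
  have hd1 : den k1 l1 j k t s ≤ 2 ^ (j + 1) := by
    unfold den
    calc s ^ (2 * k + 1) * (1 + XX k1 l1 t s) ^ (j + 1) ≤ 1 * 2 ^ (j + 1) := by
          apply mul_le_mul
          · exact pow_le_one₀ hs.1.le hs.2.le
          · apply pow_le_pow_left₀ (by linarith)
            linarith
          · positivity
          · norm_num
      _ = 2 ^ (j + 1) := one_mul _
  change ‖H s * den k1 l1 j k t s‖ ≤ B * 2 ^ (j + 1)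
  rw [norm_mul, Real.norm_eq_abs, Real.norm_of_nonneg hd0]
  exact mul_le_mul (hb s hs) hd1 hd0 hB

theorem psi_all_key (hPW : PW_stmt) (hV : VarY_stmt) {e k1 l1 : ℝ} (hp : ParOK e k1 l1)
    (j k : ℕ) {t : ℝ} (h0 : 0 ≤ t) (h1 : t < tB k1 l1) (hw : 0 < ww k1 l1 j k t) :
    mm k1 l1 j k t / 4 ≤
      ((k + 1) * Lm1 k1 l1 t - (j + 1) * Es k1 l1 j k t (fun s => Yt k1 l1 t s)) + t *
      ((k + 1) * Lm2 k1 l1 t - (j + 1) * Es k1 l1 j k t (fun s => Ytt k1 l1 t s) -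
        (j + 1) ^ 2 * (Es k1 l1 j k t (fun s => Yt k1 l1 t s ^ 2) -
          Es k1 l1 j k t (fun s => Yt k1 l1 t s) ^ 2)) := by
  have hl0 : 0 < l1 := by linarith [hp.hl]
  have ht2 : t < 2 := h1.trans (psi_all_tB hp)
  have hdl := dl_pos hp.hk hl0 h1
  have hI : 0 < Iw k1 l1 j k t := by
    unfold ww at hw
    exact (pos_iff_pos_of_mul_pos hw).1 (pow_pos hdl _)
  have hVar := hV e k1 l1 hp j k t h0 h1
  have ha0 := Lm1_nonneg (k1 := k1) (l1 := l1) hp.hk hl0 h1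
  have hb0 := Lm2_ge (k1 := k1) (l1 := l1) hp.hk hp.hk1 hp.hl h1
  set a := Lm1 k1 l1 t with ha
  set b := Lm2 k1 l1 t with hb
  have hbn : 0 ≤ b := by nlinarith
  -- bounds
  have hXt : ∀ s ∈ Set.Ioo (0 : ℝ) 1, |Xt k1 l1 t s| ≤ 1 + 2 * a := by
    intro s hs
    obtain ⟨a1, a2, a3⟩ := psi_all_bounds hp h0 h1 hs
    have hel : 0 < el k1 l1 t s := by linarith
    have e1 : 1 / el k1 l1 t s ≤ 1 := by
      rw [div_le_one hel]; linarith
    have e2 : (2 - t) * a / el k1 l1 t s ^ 2 ≤ 2 * a := by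
      rw [div_le_iff₀ (by positivity)]
      have : 1 ≤ el k1 l1 t s ^ 2 := by nlinarith
      nlinarith [mul_nonneg h0 ha0]
    have e3 : 0 ≤ 1 / el k1 l1 t s := by positivity
    have e4 : 0 ≤ (2 - t) * a / el k1 l1 t s ^ 2 := by
      have : 0 ≤ 2 - t := by linarith
      positivity
    unfold Xt
    rw [← ha, neg_div, abs_le]
    constructor <;> linarith
  have hYt : ∀ s ∈ Set.Ioo (0 : ℝ) 1, |Yt k1 l1 t s| ≤ 1 + 2 * a := by
    intro s hs
    obtain ⟨a1, a2, a3⟩ := psi_all_bounds hp h0 h1 hs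
    unfold Yt
    rw [abs_div, abs_of_pos (by linarith : 0 < 1 + XX k1 l1 t s)]
    exact (div_le_self (abs_nonneg _) (by linarith)).trans (hXt s hs)
  have hXtt : ∀ s ∈ Set.Ioo (0 : ℝ) 1, |Xtt k1 l1 t s| ≤ 2 * a + 2 * b + 4 * a ^ 2 := by
    intro s hs
    obtain ⟨a1, a2, a3⟩ := psi_all_bounds hp h0 h1 hs
    have hel : 0 < el k1 l1 t s := by linarith
    have q2 : 1 ≤ el k1 l1 t s ^ 2 := by nlinarith
    have q3 : 1 ≤ el k1 l1 t s ^ 3 := one_le_pow₀ (by linarith)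
    have h2t : 0 ≤ 2 - t := by linarith
    have e1 : 2 * a / el k1 l1 t s ^ 2 ≤ 2 * a := div_le_self (by positivity) q2
    have e2 : (2 - t) * b / el k1 l1 t s ^ 2 ≤ 2 * b :=
      (div_le_self (by positivity) q2).trans (by nlinarith [mul_nonneg h0 hbn])
    have e3 : 2 * (2 - t) * a ^ 2 / el k1 l1 t s ^ 3 ≤ 4 * a ^ 2 :=
      (div_le_self (by positivity) q3).trans (by nlinarith [mul_nonneg h0 (sq_nonneg a)])
    have f1 : 0 ≤ 2 * a / el k1 l1 t s ^ 2 := by positivity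
    have f2 : 0 ≤ (2 - t) * b / el k1 l1 t s ^ 2 := by positivity
    have f3 : 0 ≤ 2 * (2 - t) * a ^ 2 / el k1 l1 t s ^ 3 := by positivity
    have f4 : 0 ≤ a ^ 2 := by positivity
    unfold Xtt
    rw [← ha, ← hb, abs_le]
    constructor <;> linarith
  have hYtt : ∀ s ∈ Set.Ioo (0 : ℝ) 1,
      |Ytt k1 l1 t s| ≤ (2 * a + 2 * b + 4 * a ^ 2) + (1 + 2 * a) ^ 2 := by
    intro s hs
    obtain ⟨a1, a2, a3⟩ := psi_all_bounds hp h0 h1 hs
    have hx : 1 ≤ 1 + XX k1 l1 t s := by linarith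
    unfold Ytt
    refine (abs_sub _ _).trans ?_
    apply add_le_add
    · rw [abs_div, abs_of_pos (by linarith : 0 < 1 + XX k1 l1 t s)]
      exact (div_le_self (abs_nonneg _) hx).trans (hXtt s hs)
    · rw [abs_div, abs_of_pos (by positivity : 0 < (1 + XX k1 l1 t s) ^ 2), abs_pow]
      refine (div_le_self (by positivity) (one_le_pow₀ hx)).trans ?_
      exact pow_le_pow_left₀ (abs_nonneg _) (hXt s hs) 2
  have hM : ∀ s ∈ Set.Ioo (0 : ℝ) 1,
      0 ≤ 1 / el k1 l1 t s + t * b / el k1 l1 t s ^ 2 ∧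
      1 / el k1 l1 t s + t * b / el k1 l1 t s ^ 2 ≤ 1 + t * b := by
    intro s hs
    obtain ⟨a1, a2, a3⟩ := psi_all_bounds hp h0 h1 hs
    have hel : 0 < el k1 l1 t s := by linarith
    have q2 : 1 ≤ el k1 l1 t s ^ 2 := by nlinarith
    have e1 : 1 / el k1 l1 t s ≤ 1 := by
      rw [div_le_one hel]; linarith
    have e2 : t * b / el k1 l1 t s ^ 2 ≤ t * b := div_le_self (by positivity) q2
    exact ⟨by positivity, by linarith⟩
  have hZ : ∀ s ∈ Set.Ioo (0 : ℝ) 1,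
      |t * (Yts k1 l1 t s ^ 2 / (-Yss k1 l1 t s))| ≤ 1 + t * b := by
    intro s hs
    obtain ⟨c1, c2, c3, -⟩ := hPW e k1 l1 hp t s h0 h1 hs.1 hs.2
    have : 0 ≤ t * (Yts k1 l1 t s ^ 2 / (-Yss k1 l1 t s)) :=
      mul_nonneg h0 (div_nonneg (sq_nonneg _) (by linarith))
    rw [abs_of_nonneg this]
    exact c3.trans (hM s hs).2
  -- integrability
  have iYt := psi_all_intg hp j k h0 h1 (fun s => Yt k1 l1 t s) (psi_all_meas_Yt k1 l1 t) _ hYt
  have iYtt := psi_all_intg hp j k h0 h1 (fun s => Ytt k1 l1 t s) (psi_all_meas_Ytt k1 l1 t) _ hYtt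
  have iZ := psi_all_intg hp j k h0 h1 (fun s => t * (Yts k1 l1 t s ^ 2 / (-Yss k1 l1 t s)))
    (measurable_const.mul (((psi_all_meas_Yts k1 l1 t).pow_const 2).div
      (psi_all_meas_Yss k1 l1 t).neg)) _ hZ
  have iM := psi_all_intg hp j k h0 h1 (fun s => 1 / el k1 l1 t s + t * b / el k1 l1 t s ^ 2)
    ((measurable_const.div (psi_all_meas_el k1 l1 t)).add
      (measurable_const.div ((psi_all_meas_el k1 l1 t).pow_const 2))) (1 + t * b)
    (fun s hs => by rw [abs_of_nonneg (hM s hs).1]; exact (hM s hs).2)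
  have hmain : (1 / 4) * (∫ s in Set.Ioo (0 : ℝ) 1,
      (1 / el k1 l1 t s + t * b / el k1 l1 t s ^ 2) * den k1 l1 j k t s) ≤
      -(∫ s in Set.Ioo (0 : ℝ) 1, Yt k1 l1 t s * den k1 l1 j k t s) -
      t * (∫ s in Set.Ioo (0 : ℝ) 1, Ytt k1 l1 t s * den k1 l1 j k t s) -
      (∫ s in Set.Ioo (0 : ℝ) 1,
        t * (Yts k1 l1 t s ^ 2 / (-Yss k1 l1 t s)) * den k1 l1 j k t s) := by
    have i1 : IntegrableOn (fun s => -(Yt k1 l1 t s * den k1 l1 j k t s)) (Set.Ioo 0 1) := iYt.neg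
    have i2 : IntegrableOn (fun s => t * (Ytt k1 l1 t s * den k1 l1 j k t s)) (Set.Ioo 0 1) :=
      iYtt.const_mul t
    have i3 : IntegrableOn (fun s => -(Yt k1 l1 t s * den k1 l1 j k t s) -
      t * (Ytt k1 l1 t s * den k1 l1 j k t s)) (Set.Ioo 0 1) := i1.sub i2
    rw [← integral_const_mul, ← integral_const_mul, ← integral_neg,
      ← integral_sub i1 i2, ← integral_sub i3 iZ]
    apply setIntegral_mono_on (iM.const_mul _) (i3.sub iZ) measurableSet_Ioo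
    intro s hs
    obtain ⟨c1, c2, c3, -⟩ := hPW e k1 l1 hp t s h0 h1 hs.1 hs.2
    obtain ⟨a1, a2, a3⟩ := psi_all_bounds hp h0 h1 hs
    have hd0 : 0 ≤ den k1 l1 j k t s := by
      unfold den
      have := hs.1.le
      positivity
    have := mul_le_mul_of_nonneg_right c2 hd0
    rw [← hb] at this
    change 1 / 4 * ((1 / el k1 l1 t s + t * b / el k1 l1 t s ^ 2) * den k1 l1 j k t s) ≤
      -(Yt k1 l1 t s * den k1 l1 j k t s) - t * (Ytt k1 l1 t s * den k1 l1 j k t s) -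
        t * (Yts k1 l1 t s ^ 2 / -Yss k1 l1 t s) * den k1 l1 j k t s
    linarith
  have hEs : (1 / 4) * Es k1 l1 j k t (fun s => 1 / el k1 l1 t s + t * b / el k1 l1 t s ^ 2) ≤
      -(Es k1 l1 j k t (fun s => Yt k1 l1 t s)) - t * Es k1 l1 j k t (fun s => Ytt k1 l1 t s) -
      Es k1 l1 j k t (fun s => t * (Yts k1 l1 t s ^ 2 / (-Yss k1 l1 t s))) := by
    have h2 := div_le_div_of_nonneg_right hmain hI.le
    unfold Es
    calc _ = _ := by ring
      _ ≤ _ := h2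
      _ = _ := by ring
  have hj : (0 : ℝ) < (j : ℝ) + 1 := by positivity
  have hk : (0 : ℝ) < (k : ℝ) + 1 := by positivity
  have h3 := mul_le_mul_of_nonneg_left hEs hj.le
  have h4 : 0 ≤ ((k : ℝ) + 1) * (a + t * b) := by positivity
  unfold mm
  rw [← ha, ← hb]
  linarith

theorem psi_all (hPW : PW_stmt) (hV : VarY_stmt) (hD : PsiD_stmt) : Psi_stmt := by
  intro e k1 l1 hp j k
  obtain ⟨d1, d2, d3, d4, d5⟩ := hD e k1 l1 hp j k
  refine ⟨_, _, fun t ht => d1 t ht.1 ht.2, fun t ht => d2 t ht.1 ht.2, d3, d4, ?_,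
    fun t ht => d5 t ht.1 ht.2⟩
  rintro t ⟨h0, h1⟩
  exact psi_all_key hPW hV hp j k h0 h1 (d5 t (by linarith) h1)

end DbarN.JPS
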