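import Pool.Agent.H314.DN.Stmts4
import Pool.Agent.H314.DN.A0
import Pool.Agent.H314.DN.A1

set_option autoImplicit false

open MeasureTheory Complex Filter Topology
open scoped ContDiff InnerProductSpace ENNReal ComplexConjugate

namespace DbarN.JT1

theorem t1_int {φ ψ : E3 → ℂ} (hc : HasCompactSupport φ) (hψ : Continuous ψ)
    (h : ∀ x, φ =ᶠ[𝓝 x] 0 → ψ x = 0) : Integrable ψ (volume : Measure E3) := by
  refine hψ.integrable_of_hasCompactSupport (HasCompactSupport.intro (K := tsupport φ) hc ?_)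
  intro x hx
  exact h x (notMem_tsupport_iff_eventuallyEq.mp hx)

theorem t1_ibp {F φ : E3 → ℂ} (hF : ContDiff ℝ ∞ F) (hφ : ContDiff ℝ ∞ φ)
    (hc : HasCompactSupport φ) (v : E3) :
    ∫ x, F x * fderiv ℝ φ x v = - ∫ x, fderiv ℝ F x v * φ x := by
  have hdF : Continuous (fun x => fderiv ℝ F x v) :=
    (hF.continuous_fderiv (by simp)).clm_apply continuous_const
  have hdφ : Continuous (fun x => fderiv ℝ φ x v) :=
    (hφ.continuous_fderiv (by simp)).clm_apply continuous_const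
  refine integral_mul_fderiv_eq_neg_fderiv_mul_of_integrable ?_ ?_ ?_ ?_ ?_
  · refine t1_int hc (hdF.mul hφ.continuous) ?_
    intro x hx
    rw [hx.eq_of_nhds]; simp
  · refine t1_int hc (hF.continuous.mul hdφ) ?_
    intro x hx
    rw [hx.fderiv_eq]; simp
  · refine t1_int hc (hF.continuous.mul hφ.continuous) ?_
    intro x hx
    rw [hx.eq_of_nhds]; simp
  · exact fun x _ => hF.differentiable (by simp) x
  · exact fun x _ => hφ.differentiable (by simp) x

theorem t1_dbar_ibp {F φ : E3 → ℂ} (hF : ContDiff ℝ ∞ F) (hφ : ContDiff ℝ ∞ φ)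
    (hc : HasCompactSupport φ) (j : Fin 3) (h0 : ∀ x, dbar j F x = 0) :
    ∫ x, F x * dbar j φ x = 0 := by
  have hi : ∀ v : E3, Integrable (fun x => F x * fderiv ℝ φ x v) (volume : Measure E3) := by
    intro v
    have hdφ : Continuous (fun x => fderiv ℝ φ x v) :=
      (hφ.continuous_fderiv (by simp)).clm_apply continuous_const
    refine t1_int hc (hF.continuous.mul hdφ) ?_
    intro x hx
    rw [hx.fderiv_eq]; simp
  have hi' : ∀ v : E3, Integrable (fun x => fderiv ℝ F x v * φ x) (volume : Measure E3) := by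
    intro v
    have hdF : Continuous (fun x => fderiv ℝ F x v) :=
      (hF.continuous_fderiv (by simp)).clm_apply continuous_const
    refine t1_int hc (hdF.mul hφ.continuous) ?_
    intro x hx
    rw [hx.eq_of_nhds]; simp
  have e1 : ∀ x, F x * dbar j φ x = (1 / 2) * (F x * fderiv ℝ φ x (Pi.single j 1) +
      I * (F x * fderiv ℝ φ x (Pi.single j I))) := by
    intro x
    unfold dbar
    ring
  simp only [e1]
  rw [integral_const_mul, integral_add (hi _) ((hi _).const_mul I), integral_const_mul,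
    t1_ibp hF hφ hc, t1_ibp hF hφ hc]
  have e2 : (∫ x, fderiv ℝ F x (Pi.single j 1) * φ x) +
      I * ∫ x, fderiv ℝ F x (Pi.single j I) * φ x = 0 := by
    rw [← integral_const_mul, ← integral_add (hi' _) ((hi' _).const_mul I)]
    have e3 : ∀ x, fderiv ℝ F x (Pi.single j 1) * φ x +
        I * (fderiv ℝ F x (Pi.single j I) * φ x) = 0 := by
      intro x
      have := h0 x
      unfold dbar at this
      linear_combination 2 * φ x * this
    simp only [e3, integral_zero]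
  linear_combination (-1 / 2) * e2

/-- the test function -/
noncomputable def t1F (U : ℂ → ℝ) (k : ℕ) (x : E3) : ℂ := (U (x 0) : ℂ) * x 2 ^ k

theorem t1F_smooth {U : ℂ → ℝ} (hU : ContDiff ℝ ∞ U) (k : ℕ) : ContDiff ℝ ∞ (t1F U k) := by
  unfold t1F
  have h0 : ContDiff ℝ ∞ (fun x : E3 => x 0) := contDiff_apply ℝ ℂ 0
  have h2 : ContDiff ℝ ∞ (fun x : E3 => x 2) := contDiff_apply ℝ ℂ 2
  exact (Complex.ofRealCLM.contDiff.comp (hU.comp h0)).mul (h2.pow k)

theorem t1F_fderiv {U : ℂ → ℝ} (hU : ContDiff ℝ ∞ U) (k : ℕ) (x v : E3) (hv : v 0 = 0) :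
    fderiv ℝ (t1F U k) x v = (U (x 0) : ℂ) * (k * x 2 ^ (k - 1) * v 2) := by
  have h0 : HasFDerivAt (fun y : E3 => y 0) (ContinuousLinearMap.proj 0 : E3 →L[ℝ] ℂ) x :=
    (ContinuousLinearMap.proj 0 : E3 →L[ℝ] ℂ).hasFDerivAt
  have h2 : HasFDerivAt (fun y : E3 => y 2) (ContinuousLinearMap.proj 2 : E3 →L[ℝ] ℂ) x :=
    (ContinuousLinearMap.proj 2 : E3 →L[ℝ] ℂ).hasFDerivAt
  have hU' : HasFDerivAt U (fderiv ℝ U (x 0)) (x 0) :=
    (hU.differentiable (by simp) (x 0)).hasFDerivAt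
  have hA : HasFDerivAt (fun y : E3 => (U (y 0) : ℂ))
      (Complex.ofRealCLM.comp ((fderiv ℝ U (x 0)).comp
        (ContinuousLinearMap.proj 0 : E3 →L[ℝ] ℂ))) x :=
    Complex.ofRealCLM.hasFDerivAt.comp x (hU'.comp x h0)
  have h3 : HasFDerivAt (t1F U k) ((U (x 0) : ℂ) • ((k • x 2 ^ (k - 1)) •
      (ContinuousLinearMap.proj 2 : E3 →L[ℝ] ℂ)) + (x 2 ^ k) • (Complex.ofRealCLM.comp
        ((fderiv ℝ U (x 0)).comp (ContinuousLinearMap.proj 0 : E3 →L[ℝ] ℂ)))) x :=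
    hA.mul (h2.pow k)
  rw [h3.fderiv]
  simp [hv]

theorem t1F_dbar {U : ℂ → ℝ} (hU : ContDiff ℝ ∞ U) (k : ℕ) (j : Fin 3) (hj : j ≠ 0) (x : E3) :
    dbar j (t1F U k) x = 0 := by
  unfold dbar
  have e0 : ∀ c : ℂ, (Pi.single j c : E3) 0 = 0 := fun c => by simp [Pi.single_apply, hj.symm]
  rw [t1F_fderiv hU k x _ (e0 _), t1F_fderiv hU k x _ (e0 _)]
  by_cases hj2 : j = 2
  · subst hj2
    simp only [Pi.single_eq_same]
    linear_combination (1 / 2 * (U (x 0) : ℂ) * (k * x 2 ^ (k - 1))) * Complex.I_mul_I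
  · have e2 : ∀ c : ℂ, (Pi.single j c : E3) 2 = 0 := fun c => by
      simp [Pi.single_apply, Ne.symm hj2]
    rw [e2, e2]
    simp

theorem t1_normsq {Ω : Set E3} (G : L2 Ω) : ‖G‖ ^ 2 = ∫ x in Ω, ‖G x‖ ^ 2 := by
  have h1 : (inner ℂ G G : ℂ) = ∫ x in Ω, inner ℂ (G x) (G x) := L2.inner_def G G
  have h2 : (inner ℂ G G : ℂ) = ((‖G‖ ^ 2 : ℝ) : ℂ) := by
    rw [inner_self_eq_norm_sq_to_K]
    simp
  have h3 : ∀ x, (inner ℂ (G x) (G x) : ℂ) = ((‖G x‖ ^ 2 : ℝ) : ℂ) := by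
    intro x
    rw [inner_self_eq_norm_sq_to_K]
    simp
  rw [h2] at h1
  simp only [h3] at h1
  rw [integral_complex_ofReal] at h1
  exact_mod_cast h1

theorem t1_nonempty : {r : ℝ | ∃ φ : ℂ → ℝ, ContDiff ℝ ∞ φ ∧ HasCompactSupport φ ∧
    tsupport φ ⊆ Metric.ball 0 1 ∧ (∫ z, φ z ^ 2) = 1 ∧
    r = (1 / 4) * ∫ z, ((fderiv ℝ φ z 1) ^ 2 + (fderiv ℝ φ z I) ^ 2)}.Nonempty := by
  let b : ContDiffBump (0:ℂ) := ⟨1/4, 1/2, by norm_num, by norm_num⟩
  have hb : ContDiff ℝ ∞ (b : ℂ → ℝ) := b.contDiff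
  have hbc : HasCompactSupport (b : ℂ → ℝ) := b.hasCompactSupport
  have hpos : 0 < ∫ z, (b z) ^ 2 := by
    refine Continuous.integral_pos_of_hasCompactSupport_nonneg_nonzero (x := 0)
      (hb.continuous.pow 2) ?_ (fun z => sq_nonneg _) ?_
    · refine HasCompactSupport.intro (K := tsupport b) hbc ?_
      intro x hx
      rw [image_eq_zero_of_notMem_tsupport hx]
      simp
    · have : b (0:ℂ) = 1 := b.one_of_mem_closedBall (by simp [b])
      simp [this]
  obtain ⟨c, hc⟩ : ∃ c : ℝ, c = (√(∫ z, (b z) ^ 2))⁻¹ := ⟨_, rfl⟩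
  have hc2 : c ^ 2 * ∫ z, (b z) ^ 2 = 1 := by
    rw [hc, inv_pow, Real.sq_sqrt hpos.le, inv_mul_cancel₀ hpos.ne']
  refine ⟨_, fun z => c * b z, contDiff_const.mul hb, hbc.mul_left, ?_, ?_, rfl⟩
  · refine (tsupport_mul_subset_right (f := fun _ => c) (g := (b : ℂ → ℝ))).trans ?_
    rw [b.tsupport_eq]
    exact Metric.closedBall_subset_ball (by norm_num [b])
  · simp only [mul_pow]
    rw [integral_const_mul, hc2]

theorem test (hD : Dom_stmt) (h2 : TS2_stmt) (h3 : TS3_stmt) : Test_stmt := by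
  intro e k1 l1 hpar m' hm' H
  obtain ⟨hopen, -, hbd, -, -, -⟩ := hD e k1 l1 hpar
  have hl0 : 0 ≤ lamStar := by
    unfold lamStar
    refine Real.sInf_nonneg ?_
    rintro r ⟨φ, -, -, -, -, rfl⟩
    have : 0 ≤ ∫ z, ((fderiv ℝ φ z 1) ^ 2 + (fderiv ℝ φ z I) ^ 2) :=
      integral_nonneg fun z => by positivity
    positivity
  obtain ⟨r, hr1, hr2⟩ := exists_between hm'
  have hr0 : 0 < r := by linarith
  obtain ⟨η, hη⟩ : ∃ η : ℝ, η = (m' - r) / (2 * r) := ⟨_, rfl⟩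
  have hη0 : 0 < η := by
    rw [hη]
    exact div_pos (by linarith) (by linarith)
  have hηr : (1 + η) * r < m' := by
    have : η * r = (m' - r) / 2 := by
      rw [hη]
      field_simp
    nlinarith
  obtain ⟨ρ, ⟨U, hU1, hU2, hU3, hU4, hρ⟩, hρr⟩ := exists_lt_of_csInf_lt t1_nonempty
    (show sInf _ < r from hr1)
  obtain ⟨k, hk⟩ := h2 e k1 l1 hpar η hη0
  have hTS2 := hk k le_rfl U hU1.continuous hU3
  rw [hU4, mul_one] at hTS2
  have he := hpar.he
  obtain ⟨A, hA⟩ : ∃ A : ℝ, A = Real.pi ^ 2 * e ^ (2 * k + 4) / (k + 1) := ⟨_, rfl⟩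
  have hA0 : 0 < A := by
    rw [hA]
    have := Real.pi_pos
    positivity
  rw [← hA] at hTS2
  obtain ⟨Ω, hΩ⟩ : ∃ Ω : Set E3, Ω = Omega e k1 l1 := ⟨_, rfl⟩
  have hTS3 := h3 e k1 l1 hpar k U hU1 hU2 hU3
  rw [← hΩ] at hopen hbd hTS2 hTS3 H
  have hFs := t1F_smooth hU1 k
  -- membership in L²
  haveI : IsFiniteMeasure ((volume : Measure E3).restrict Ω) :=
    ⟨by rw [Measure.restrict_apply_univ]; exact hbd.measure_lt_top⟩
  obtain ⟨C, hC⟩ := hbd.isCompact_closure.exists_bound_of_continuousOn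
    hFs.continuous.continuousOn
  have hmem : MemLp (t1F U k) 2 ((volume : Measure E3).restrict Ω) := by
    refine MemLp.of_bound hFs.continuous.aestronglyMeasurable C ?_
    exact (ae_restrict_iff' hopen.measurableSet).mpr
      (Filter.Eventually.of_forall fun x hx => hC x (subset_closure hx))
  let g : Form Ω := WithLp.toLp 2 ![hmem.toLp (t1F U k), 0, 0]
  have hg0 : g 0 = hmem.toLp (t1F U k) := rfl
  have hg1 : g 1 = 0 := rfl
  have hg2 : g 2 = 0 := rfl
  have hg0ae : ∀ᵐ x ∂((volume : Measure E3).restrict Ω), g 0 x = t1F U k x := by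
    rw [hg0]
    exact hmem.coeFn_toLp
  have hzero : ∀ᵐ x ∂((volume : Measure E3).restrict Ω), ((0 : L2 Ω) : E3 → ℂ) x = 0 :=
    Lp.coeFn_zero _ _ _
  have hclosed : IsDbar1 Ω g 0 := by
    intro i φ hφ
    have hout : ∀ x, x ∉ Ω → x ∉ tsupport φ := fun x hx hx' => hx (hφ.supp hx')
    have hkey : ∀ j : Fin 3, j ≠ 0 → ∫ x in Ω, t1F U k x * dbar j φ x = 0 := by
      intro j hj
      rw [setIntegral_eq_integral_of_forall_compl_eq_zero]
      · exact t1_dbar_ibp hFs hφ.smooth hφ.compact j (t1F_dbar hU1 k j hj)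
      · intro x hx
        have : dbar j φ x = 0 := by
          unfold dbar
          rw [fderiv_of_notMem_tsupport ℝ (hout x hx)]
          simp
        rw [this, mul_zero]
    have hR : ∫ x in Ω, ((0 : Form Ω) i : E3 → ℂ) x * φ x = 0 := by
      refine integral_eq_zero_of_ae ?_
      filter_upwards [hzero] with x hx
      have e1 : ((0 : Form Ω) i : E3 → ℂ) x = 0 := hx
      rw [e1, zero_mul]; rfl
    rw [hR, neg_zero]
    fin_cases i
    · refine integral_eq_zero_of_ae ?_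
      filter_upwards [hzero] with x hx
      have e1 : (g 2 : E3 → ℂ) x = 0 := by rw [hg2]; exact hx
      have e2 : (g 1 : E3 → ℂ) x = 0 := by rw [hg1]; exact hx
      show (g 2 : E3 → ℂ) x * _ - (g 1 : E3 → ℂ) x * _ = 0
      rw [e1, e2, zero_mul, zero_mul, sub_zero]
    · rw [← hkey 2 (by decide)]
      refine integral_congr_ae ?_
      filter_upwards [hzero, hg0ae] with x hx hx0
      have e1 : (g 2 : E3 → ℂ) x = 0 := by rw [hg2]; exact hx
      show (g 0 : E3 → ℂ) x * dbar 2 φ x - (g 2 : E3 → ℂ) x * _ = _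
      rw [e1, zero_mul, sub_zero, hx0]
    · rw [← neg_zero, ← hkey 1 (by decide), ← integral_neg]
      refine integral_congr_ae ?_
      filter_upwards [hzero, hg0ae] with x hx hx0
      have e1 : (g 1 : E3 → ℂ) x = 0 := by rw [hg1]; exact hx
      show (g 1 : E3 → ℂ) x * _ - (g 0 : E3 → ℂ) x * dbar 1 φ x = _
      rw [e1, zero_mul, zero_sub, hx0]
  obtain ⟨f, hf, hfm⟩ := H g hclosed
  have h5 := hTS3 f g hf hg0ae
  rw [hU4, one_pow, one_mul, ← hA, ← hρ] at h5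
  have hgn : ‖g‖ ^ 2 = ∫ x in Ω, U (x 0) ^ 2 * ‖x 2‖ ^ (2 * k) := by
    rw [PiLp.norm_sq_eq_of_L2, Fin.sum_univ_three, hg1, hg2, norm_zero, t1_normsq (g 0)]
    rw [zero_pow (by norm_num), add_zero, add_zero]
    refine integral_congr_ae ?_
    filter_upwards [hg0ae] with x hx
    rw [hx]
    unfold t1F
    rw [norm_mul, norm_pow, Complex.norm_real, mul_pow, Real.norm_eq_abs, sq_abs, ← pow_mul,
      mul_comm k 2]
  rw [hgn] at hfm
  have h6 := hfm.trans hTS2
  have hm0 : 0 < m' := by linarith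
  have h7 : A ≤ ‖f‖ ^ 2 * r := h5.trans (mul_le_mul_of_nonneg_left hρr.le (sq_nonneg _))
  have h8 : m' * A ≤ r * ((1 + η) * A) := by
    calc m' * A ≤ m' * (‖f‖ ^ 2 * r) := mul_le_mul_of_nonneg_left h7 hm0.le
      _ = r * (m' * ‖f‖ ^ 2) := by ring
      _ ≤ r * ((1 + η) * A) := mul_le_mul_of_nonneg_left h6 hr0.le
  have h9 : (m' - (1 + η) * r) * A ≤ 0 := by linarith
  have h10 : 0 < (m' - (1 + η) * r) * A := mul_pos (by linarith) hA0
  linarith

end DbarN.JT1
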