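import Pool.Agent.H314.DN.Stmts4
import Pool.Agent.H314.DN.A0
import Pool.Agent.H314.DN.A1

set_option autoImplicit false

open MeasureTheory Complex Filter Topology
open scoped ContDiff InnerProductSpace ENNReal ComplexConjugate

namespace DbarN.JT2

namespace JTS2

theorem lint_pow (a : ℝ) (ha : 0 ≤ a) (n : ℕ) :
    ∫⁻ s in Set.Ioo (0 : ℝ) a, ENNReal.ofReal (s ^ n) = ENNReal.ofReal (a ^ (n + 1) / (n + 1)) := by
  rw [← ofReal_integral_eq_lintegral_ofReal]
  · rw [← integral_Ioc_eq_integral_Ioo, ← intervalIntegral.integral_of_le ha, integral_pow]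
    simp
  · have h1 : IntegrableOn (fun s : ℝ => s ^ n) (Set.Icc 0 a) :=
      (continuous_pow n).continuousOn.integrableOn_Icc
    exact h1.mono_set Set.Ioo_subset_Icc_self
  · refine (ae_restrict_iff' measurableSet_Ioo).2 (Filter.Eventually.of_forall fun s hs => ?_)
    exact pow_nonneg hs.1.le n

theorem om_zero (k1 l1 t : ℝ) (hk : 0 < k1) (ht : t ≤ 1) : om k1 l1 t = 0 := by
  unfold om
  rw [expNegInvGlue.zero_of_nonpos (div_nonpos_of_nonpos_of_nonneg (by linarith) hk.le), mul_zero]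

theorem dl_one (k1 l1 t : ℝ) (hk : 0 < k1) (ht : t ≤ 1) : dl k1 l1 t = 1 := by
  unfold dl; rw [om_zero k1 l1 t hk ht, sub_zero]

theorem XX_eq (k1 l1 t s : ℝ) (hk : 0 < k1) (ht : t ≤ 1) : XX k1 l1 t s = (2 - t) / (100 + tau s) := by
  unfold XX el Lm
  rw [dl_one k1 l1 t hk ht, Real.log_one, neg_zero, add_zero]

theorem tau_nonneg (s : ℝ) (h0 : 0 < s) (h1 : s < 1) : 0 ≤ tau s := by
  unfold tau
  have : Real.log (1 - s ^ 2) ≤ 0 := Real.log_nonpos (by nlinarith) (by nlinarith [sq_nonneg s])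
  linarith

theorem b_le (η : ℝ) (hη : 0 < η) : ∃ s0 : ℝ, 0 ≤ s0 ∧ s0 < 1 ∧ ∀ s : ℝ, 0 < s → s < 1 →
    2 / (100 + tau s) ≤ η / 2 + (if s < s0 then 1 else 0) := by
  have hexp : Real.exp (-(4 / η)) < 1 := by
    rw [Real.exp_lt_one_iff]
    have : 0 < 4 / η := by positivity
    linarith
  have hexp0 := Real.exp_pos (-(4 / η))
  refine ⟨√(1 - Real.exp (-(4 / η))), Real.sqrt_nonneg _, ?_, ?_⟩
  · rw [Real.sqrt_lt' one_pos]; linarith
  · intro s h0 h1
    have ht := tau_nonneg s h0 h1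
    by_cases h : s < √(1 - Real.exp (-(4 / η)))
    · rw [if_pos h, div_le_iff₀ (by linarith)]
      nlinarith
    · rw [if_neg h, add_zero]
      push Not at h
      have h2 : 1 - Real.exp (-(4 / η)) ≤ s ^ 2 := by
        have := pow_le_pow_left₀ (Real.sqrt_nonneg _) h 2
        rwa [Real.sq_sqrt (by linarith)] at this
      have h3 : 0 < 1 - s ^ 2 := by nlinarith
      have h4 : Real.log (1 - s ^ 2) ≤ -(4 / η) := by
        rw [← Real.log_exp (-(4 / η))]
        exact Real.log_le_log h3 (by linarith)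
      have h5 : 4 / η ≤ tau s := by unfold tau; linarith
      rw [div_le_iff₀ (by linarith)]
      have h6 : η * (4 / η) = 4 := by field_simp
      nlinarith

theorem J_le (η : ℝ) (hη : 0 < η) : ∃ K : ℕ, ∀ k : ℕ, K ≤ k →
    ∫⁻ s in Set.Ioo (0 : ℝ) 1, ENNReal.ofReal (s ^ (2 * k + 1) * (1 + 2 / (100 + tau s))) ≤
      ENNReal.ofReal ((1 + η) / (2 * k + 2)) := by
  obtain ⟨s0, hs0, hs1, hb⟩ := b_le η hη
  obtain ⟨K, hK⟩ := exists_pow_lt_of_lt_one (show 0 < η / 2 by positivity) hs1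
  refine ⟨K, fun k hk => ?_⟩
  have hpow : s0 ^ (2 * k + 2) ≤ η / 2 :=
    (pow_le_pow_of_le_one hs0 hs1.le (by omega)).trans hK.le
  have h1 : ∫⁻ s in Set.Ioo (0 : ℝ) 1, ENNReal.ofReal (s ^ (2 * k + 1) * (1 + 2 / (100 + tau s))) ≤
      ∫⁻ s in Set.Ioo (0 : ℝ) 1, (ENNReal.ofReal (1 + η / 2) * ENNReal.ofReal (s ^ (2 * k + 1)) +
        (Set.Ioo (0 : ℝ) s0).indicator (fun s => ENNReal.ofReal (s ^ (2 * k + 1))) s) := by
    refine setLIntegral_mono' measurableSet_Ioo fun s hs => ?_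
    have hb' := hb s hs.1 hs.2
    have hsp : 0 ≤ s ^ (2 * k + 1) := pow_nonneg hs.1.le _
    by_cases h : s < s0
    · rw [if_pos h] at hb'
      rw [Set.indicator_of_mem (show s ∈ Set.Ioo 0 s0 from ⟨hs.1, h⟩),
        ← ENNReal.ofReal_mul (by positivity), ← ENNReal.ofReal_add (by positivity) hsp]
      refine ENNReal.ofReal_le_ofReal ?_
      nlinarith
    · rw [if_neg h] at hb'
      rw [Set.indicator_of_notMem (fun h' => h h'.2), add_zero, ← ENNReal.ofReal_mul (by positivity)]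
      refine ENNReal.ofReal_le_ofReal ?_
      nlinarith
  refine h1.trans ?_
  have hm : Measurable fun s : ℝ => ENNReal.ofReal (s ^ (2 * k + 1)) := by fun_prop
  rw [lintegral_add_left (hm.const_mul _), lintegral_const_mul _ hm, lint_pow 1 zero_le_one,
    lintegral_indicator measurableSet_Ioo, Measure.restrict_restrict measurableSet_Ioo,
    Set.inter_eq_left.2 (Set.Ioo_subset_Ioo_right hs1.le), lint_pow s0 hs0,
    ← ENNReal.ofReal_mul (by positivity), ← ENNReal.ofReal_add (by positivity) (by positivity)]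
  refine ENNReal.ofReal_le_ofReal ?_
  push_cast
  have e : (2 * (k : ℝ) + 1 + 1) = 2 * k + 2 := by ring
  rw [e, one_pow, mul_one_div, ← add_div]
  have hpos : (0 : ℝ) < 2 * k + 2 := by positivity
  refine div_le_div_of_nonneg_right ?_ hpos.le
  have e2 : s0 ^ (2 * k + 1 + 1) = s0 ^ (2 * k + 2) := rfl
  rw [e2]
  linarith

theorem norm_Pt2 (e k1 l1 : ℝ) (he : 0 < e) (hk : 0 < k1) (z : ℂ) (v s : ℝ) (hs : 0 < s)
    (hz : ‖z‖ < 1) : ‖(Pt e k1 l1 z v s) 2‖ = e * s := by
  have ht : ‖z‖ ^ 2 ≤ 1 := by nlinarith [norm_nonneg z]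
  have : (Pt e k1 l1 z v s) 2 = ((e * Real.sqrt (dl k1 l1 (‖z‖ ^ 2)) * s : ℝ) : ℂ) := rfl
  rw [this, dl_one k1 l1 _ hk ht, Real.sqrt_one, mul_one, Complex.norm_real, Real.norm_eq_abs,
    abs_of_pos (by positivity)]

end JTS2

open JTS2 in
theorem ts2 (hM : Mem_stmt) (hP : Pol_stmt) : TS2_stmt := by
  intro e k1 l1 hpar η hη
  obtain ⟨K, hK⟩ := J_le η hη
  refine ⟨K, fun k hk U hU hsupp => ?_⟩
  have he := hpar.he
  have hk1 := hpar.hk
  have hUc : HasCompactSupport U := by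
    refine (isCompact_closedBall (0 : ℂ) 1).of_isClosed_subset (isClosed_tsupport U)
      (hsupp.trans Metric.ball_subset_closedBall)
  have hUi : Integrable (fun z => U z ^ 2) (volume : Measure ℂ) := by
    refine (hU.pow 2).integrable_of_hasCompactSupport ?_
    exact hUc.comp_left (g := fun x : ℝ => x ^ 2) (by norm_num)
  have hU0 : ∀ z : ℂ, 1 ≤ ‖z‖ → U z = 0 := by
    intro z hz
    refine image_eq_zero_of_notMem_tsupport fun h => ?_
    have := hsupp h
    rw [mem_ball_zero_iff] at this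
    linarith
  have hc0 : Continuous fun x : E3 => U (x 0) ^ 2 * ‖x 2‖ ^ (2 * k) := by fun_prop
  set H : E3 → ℝ≥0∞ := fun x => ENNReal.ofReal (U (x 0) ^ 2 * ‖x 2‖ ^ (2 * k)) with hH
  have hHm : Measurable H := hc0.measurable.ennreal_ofReal
  have hHr : ∀ θ₁ θ₂ x, H (rot θ₁ θ₂ x) = H x := by
    intro θ₁ θ₂ x
    have h0 : rot θ₁ θ₂ x 0 = x 0 := rfl
    have h2 : rot θ₁ θ₂ x 2 = Complex.exp (θ₂ * I) * x 2 := rfl
    simp only [hH]
    rw [h0, h2, norm_mul, Complex.norm_exp_ofReal_mul_I, one_mul]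
  have hpol := hP e k1 l1 hpar H hHm hHr
  have hint : ∫ x in Omega e k1 l1, U (x 0) ^ 2 * ‖x 2‖ ^ (2 * k) =
      (∫⁻ x in Omega e k1 l1, H x).toReal := by
    rw [integral_eq_lintegral_of_nonneg_ae]
    · exact Filter.Eventually.of_forall fun x => by positivity
    · exact hc0.aestronglyMeasurable
  rw [hint, hpol]
  have hUn : 0 ≤ ∫ z, U z ^ 2 := integral_nonneg fun z => sq_nonneg _
  have hR : 0 ≤ (1 + η) * (∫ z, U z ^ 2) * (Real.pi ^ 2 * e ^ (2 * k + 4) / (k + 1)) := by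
    positivity
  refine ENNReal.toReal_le_of_le_ofReal hR ?_
  -- pointwise bound
  have hpt : ∀ z : ℂ, (∫⁻ v in Set.Ioo (0 : ℝ) 1,
      ∫⁻ s in Set.Ioo (0 : ℝ) 1, H (Pt e k1 l1 z v s) *
        ENNReal.ofReal (4 * Real.pi ^ 2 * e ^ 4 * v * (1 + XX k1 l1 (‖z‖ ^ 2) s) *
          dl k1 l1 (‖z‖ ^ 2) * s)) ≤
      ENNReal.ofReal (U z ^ 2) * ENNReal.ofReal (4 * Real.pi ^ 2 * e ^ (2 * k + 4) * (1 / 2) *
        ((1 + η) / (2 * k + 2))) := by
    intro z
    by_cases hz : ‖z‖ < 1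
    · have ht : ‖z‖ ^ 2 ≤ 1 := by nlinarith [norm_nonneg z]
      have ht0 : 0 ≤ ‖z‖ ^ 2 := sq_nonneg _
      have h1 : ∀ v ∈ Set.Ioo (0 : ℝ) 1, (∫⁻ s in Set.Ioo (0 : ℝ) 1, H (Pt e k1 l1 z v s) *
          ENNReal.ofReal (4 * Real.pi ^ 2 * e ^ 4 * v * (1 + XX k1 l1 (‖z‖ ^ 2) s) *
          dl k1 l1 (‖z‖ ^ 2) * s)) ≤ ENNReal.ofReal (U z ^ 2 * (4 * Real.pi ^ 2 * e ^ (2 * k + 4)) *
            ((1 + η) / (2 * k + 2))) * ENNReal.ofReal (v ^ 1) := by
        intro v hv
        have h2 : ∀ s ∈ Set.Ioo (0 : ℝ) 1, H (Pt e k1 l1 z v s) *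
            ENNReal.ofReal (4 * Real.pi ^ 2 * e ^ 4 * v * (1 + XX k1 l1 (‖z‖ ^ 2) s) *
            dl k1 l1 (‖z‖ ^ 2) * s) ≤
            ENNReal.ofReal (U z ^ 2 * (4 * Real.pi ^ 2 * e ^ (2 * k + 4)) * v) *
              ENNReal.ofReal (s ^ (2 * k + 1) * (1 + 2 / (100 + tau s))) := by
          intro s hs
          have hta := tau_nonneg s hs.1 hs.2
          have hv0 := hv.1
          have hs0 := hs.1
          simp only [hH]
          rw [norm_Pt2 e k1 l1 he hk1 z v s hs.1 hz, dl_one k1 l1 _ hk1 ht,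
            XX_eq k1 l1 _ s hk1 ht, ← ENNReal.ofReal_mul (by positivity),
            ← ENNReal.ofReal_mul (by positivity)]
          refine ENNReal.ofReal_le_ofReal ?_
          have h3 : (Pt e k1 l1 z v s) 0 = z := rfl
          rw [h3]
          have h4 : (2 - ‖z‖ ^ 2) / (100 + tau s) ≤ 2 / (100 + tau s) := by
            gcongr
            linarith
          have h5 : U z ^ 2 * (e * s) ^ (2 * k) * (4 * Real.pi ^ 2 * e ^ 4 * v *
              (1 + (2 - ‖z‖ ^ 2) / (100 + tau s)) * 1 * s) =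
              (U z ^ 2 * (4 * Real.pi ^ 2 * e ^ (2 * k + 4)) * v * s ^ (2 * k + 1)) *
              (1 + (2 - ‖z‖ ^ 2) / (100 + tau s)) := by
            rw [mul_pow, pow_add e (2 * k) 4, pow_succ s (2 * k)]; ring
          rw [h5]
          have h6 : 0 ≤ U z ^ 2 * (4 * Real.pi ^ 2 * e ^ (2 * k + 4)) * v * s ^ (2 * k + 1) := by
            have := hs.1
            positivity
          calc _ ≤ (U z ^ 2 * (4 * Real.pi ^ 2 * e ^ (2 * k + 4)) * v * s ^ (2 * k + 1)) *
              (1 + 2 / (100 + tau s)) := mul_le_mul_of_nonneg_left (by linarith) h6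
            _ = _ := by ring
        refine (setLIntegral_mono' measurableSet_Ioo h2).trans ?_
        have htm : Measurable fun s : ℝ => ENNReal.ofReal (s ^ (2 * k + 1) *
            (1 + 2 / (100 + tau s))) := by
          unfold tau
          fun_prop
        rw [lintegral_const_mul _ htm]
        refine (mul_le_mul_right (hK k hk) _).trans (le_of_eq ?_)
        have hv0 := hv.1
        rw [← ENNReal.ofReal_mul (by positivity), ← ENNReal.ofReal_mul (by positivity)]
        congr 1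
        ring
      refine (setLIntegral_mono' measurableSet_Ioo h1).trans (le_of_eq ?_)
      rw [lintegral_const_mul _ (by fun_prop), lint_pow 1 zero_le_one,
        ← ENNReal.ofReal_mul (by positivity), ← ENNReal.ofReal_mul (by positivity)]
      congr 1
      push_cast
      ring
    · push Not at hz
      have h1 : ∀ v s : ℝ, H (Pt e k1 l1 z v s) = 0 := by
        intro v s
        have h3 : (Pt e k1 l1 z v s) 0 = z := rfl
        simp only [hH]
        rw [h3, hU0 z hz]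
        simp
      simp only [h1, zero_mul, lintegral_zero]
      exact zero_le
  calc _ ≤ ∫⁻ z in BB k1 l1, ENNReal.ofReal (U z ^ 2) * ENNReal.ofReal (4 * Real.pi ^ 2 *
        e ^ (2 * k + 4) * (1 / 2) * ((1 + η) / (2 * k + 2))) := lintegral_mono fun z => hpt z
    _ ≤ ∫⁻ z, ENNReal.ofReal (U z ^ 2) * ENNReal.ofReal (4 * Real.pi ^ 2 *
        e ^ (2 * k + 4) * (1 / 2) * ((1 + η) / (2 * k + 2))) := setLIntegral_le_lintegral _ _
    _ = _ := by
      have hUm : Measurable fun z => ENNReal.ofReal (U z ^ 2) :=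
        (hU.pow 2).measurable.ennreal_ofReal
      rw [lintegral_mul_const _ hUm,
        ← ofReal_integral_eq_lintegral_ofReal hUi (Filter.Eventually.of_forall fun z => sq_nonneg _),
        ← ENNReal.ofReal_mul hUn]
      congr 1
      field_simp
      ring

end DbarN.JT2
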