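import Pool.Agent.H314.DN.Stmts4
import Pool.Agent.H314.DN.A0
import Pool.Agent.H314.DN.A1

set_option autoImplicit false

open MeasureTheory Complex Filter Topology
open scoped ContDiff InnerProductSpace ENNReal ComplexConjugate

namespace DbarN.JT3

theorem ts3_rad (k : ℕ) (r : ℝ) (hr : 0 ≤ r) :
    ∫ z in Metric.ball (0 : ℂ) r, ‖z‖ ^ (2 * k) = Real.pi * r ^ (2 * k + 2) / (k + 1) := by
  have h1 : ∫ z in Metric.ball (0 : ℂ) r, ‖z‖ ^ (2 * k) =
      ∫ z : ℂ, (Set.Iio r).indicator (fun y : ℝ => y ^ (2 * k)) ‖z‖ := by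
    rw [← integral_indicator Metric.isOpen_ball.measurableSet]
    congr 1
    funext z
    by_cases hz : ‖z‖ < r
    · rw [Set.indicator_of_mem (by simpa using hz), Set.indicator_of_mem (by simpa using hz)]
    · rw [Set.indicator_of_notMem (by simpa using hz), Set.indicator_of_notMem (by simpa using hz)]
  rw [h1, integral_fun_norm_addHaar volume (fun y => (Set.Iio r).indicator (fun y : ℝ => y ^ (2 * k)) y)]
  have h2 : (volume : Measure ℂ).real (Metric.ball 0 1) = Real.pi := by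
    rw [measureReal_def, Complex.volume_ball]
    simp
  have h3 : ∫ y in Set.Ioi (0 : ℝ), y ^ (Module.finrank ℝ ℂ - 1) •
      (Set.Iio r).indicator (fun y : ℝ => y ^ (2 * k)) y = r ^ (2 * k + 2) / (2 * k + 2) := by
    rw [Complex.finrank_real_complex]
    have h4 : ∀ y : ℝ, y ^ (2 - 1) • (Set.Iio r).indicator (fun y : ℝ => y ^ (2 * k)) y =
        (Set.Iio r).indicator (fun y : ℝ => y ^ (2 * k + 1)) y := by
      intro y
      by_cases hy : y ∈ Set.Iio r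
      · rw [Set.indicator_of_mem hy, Set.indicator_of_mem hy, smul_eq_mul]; ring
      · rw [Set.indicator_of_notMem hy, Set.indicator_of_notMem hy, smul_zero]
    simp_rw [h4]
    rw [setIntegral_indicator measurableSet_Iio, Set.Ioi_inter_Iio, ← integral_Ioc_eq_integral_Ioo,
      ← intervalIntegral.integral_of_le hr, integral_pow]
    push_cast
    simp
    ring
  rw [h2, h3, Complex.finrank_real_complex]
  simp only [nsmul_eq_mul, smul_eq_mul]
  have : (k : ℝ) + 1 ≠ 0 := by positivity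
  have : (2 * (k : ℝ) + 2) ≠ 0 := by positivity
  push_cast
  field_simp

theorem ts3_fderiv (U : ℂ → ℝ) (hU : Differentiable ℝ U) (c : E3 → ℂ)
    (hc : ∀ x v, c (x + Pi.single 0 v) = c x)
    (hφ : Differentiable ℝ (fun x : E3 => (U (x 0) : ℂ) * c x)) (x : E3) (v : ℂ) :
    fderiv ℝ (fun x : E3 => (U (x 0) : ℂ) * c x) x (Pi.single 0 v) =
      ((fderiv ℝ U (x 0) v : ℝ) : ℂ) * c x := by
  have h1 : HasDerivAt (fun t : ℝ => U (x 0 + t • v)) (fderiv ℝ U (x 0) v) 0 :=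
    (hU (x 0)).hasFDerivAt.hasLineDerivAt v
  have h2 := (h1.ofReal_comp).mul_const (c x)
  have h3 : HasDerivAt (fun t : ℝ => (fun x : E3 => (U (x 0) : ℂ) * c x) (x + t • (Pi.single 0 v : E3)))
      (fderiv ℝ (fun x : E3 => (U (x 0) : ℂ) * c x) x (Pi.single 0 v)) 0 :=
    (hφ x).hasFDerivAt.hasLineDerivAt (Pi.single 0 v)
  have h4 : (fun t : ℝ => (fun x : E3 => (U (x 0) : ℂ) * c x) (x + t • (Pi.single 0 v : E3))) =
      fun t : ℝ => ((U (x 0 + t • v) : ℝ) : ℂ) * c x := by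
    funext t
    have h5 : t • (Pi.single 0 v : E3) = Pi.single 0 (t • v) := by
      rw [← Pi.single_smul']
    simp only [h5, hc]
    rw [Pi.add_apply, Pi.single_eq_same]
  rw [h4] at h3
  exact h3.unique h2

theorem ts3_dbar (U : ℂ → ℝ) (hU : Differentiable ℝ U) (c : E3 → ℂ)
    (hc : ∀ x v, c (x + Pi.single 0 v) = c x)
    (hφ : Differentiable ℝ (fun x : E3 => (U (x 0) : ℂ) * c x)) (x : E3) :
    dbar 0 (fun x : E3 => (U (x 0) : ℂ) * c x) x =
      ((1 / 2) * (((fderiv ℝ U (x 0) 1 : ℝ) : ℂ) + I * ((fderiv ℝ U (x 0) I : ℝ) : ℂ))) * c x := by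
  unfold dbar
  rw [ts3_fderiv U hU c hc hφ, ts3_fderiv U hU c hc hφ]
  ring

theorem ts3_normsq (a b : ℝ) : ‖(1 / 2 : ℂ) * ((a : ℂ) + I * (b : ℂ))‖ ^ 2 = (1 / 4) * (a ^ 2 + b ^ 2) := by
  rw [← Complex.normSq_eq_norm_sq, Complex.normSq_apply]
  simp
  ring

/-- Cauchy–Schwarz -/
theorem ts3_cs (Ω : Set E3) (f : L2 Ω) (h : E3 → ℂ) (hh : Continuous h) (hs : HasCompactSupport h) :
    ‖∫ x in Ω, f x * h x‖ ^ 2 ≤ ‖f‖ ^ 2 * ∫ x, ‖h x‖ ^ 2 := by
  have hc : Continuous (fun x => conj (h x)) := Complex.continuous_conj.comp hh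
  have hs' : HasCompactSupport (fun x => conj (h x)) := hs.comp_left (map_zero _)
  have hm : MemLp (fun x => conj (h x)) 2 (volume.restrict Ω) :=
    hc.memLp_of_hasCompactSupport hs'
  set G : L2 Ω := hm.toLp _ with hG
  have e1 : ∫ x in Ω, f x * h x = inner ℂ G f := by
    rw [L2.inner_def]
    refine integral_congr_ae ?_
    filter_upwards [hm.coeFn_toLp] with x hx
    rw [hG, hx, RCLike.inner_apply]
    simp
  have e2 : ‖G‖ ^ 2 = ∫ x in Ω, ‖h x‖ ^ 2 := by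
    have h1 : (inner ℂ G G : ℂ) = ((‖G‖ ^ 2 : ℝ) : ℂ) := by
      rw [inner_self_eq_norm_sq_to_K]; norm_cast
    have h2 : (inner ℂ G G : ℂ) = ((∫ x in Ω, ‖h x‖ ^ 2 : ℝ) : ℂ) := by
      rw [L2.inner_def, ← integral_complex_ofReal]
      refine integral_congr_ae ?_
      filter_upwards [hm.coeFn_toLp] with x hx
      rw [hG, hx, inner_self_eq_norm_sq_to_K]
      simp
    have h3 := h1.symm.trans h2
    exact_mod_cast h3
  have e3 : ∫ x in Ω, ‖h x‖ ^ 2 ≤ ∫ x, ‖h x‖ ^ 2 := by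
    refine setIntegral_le_integral ?_ (Eventually.of_forall fun x => by positivity)
    refine Continuous.integrable_of_hasCompactSupport (by fun_prop) ?_
    exact hs.comp_left (g := fun z : ℂ => ‖z‖ ^ 2) (by simp)
  rw [e1]
  calc ‖(inner ℂ G f : ℂ)‖ ^ 2 ≤ (‖G‖ * ‖f‖) ^ 2 :=
        pow_le_pow_left₀ (norm_nonneg _) (norm_inner_le_norm _ _) 2
    _ = ‖f‖ ^ 2 * ‖G‖ ^ 2 := by ring
    _ ≤ _ := by
      rw [e2]
      exact mul_le_mul_of_nonneg_left e3 (by positivity)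

theorem ts3_fub (a b c : ℂ → ℝ) :
    ∫ x : E3, a (x 0) * b (x 1) * c (x 2) = (∫ z, a z) * (∫ z, b z) * ∫ z, c z := by
  have h := integral_fintype_prod_volume_eq_prod (𝕜 := ℝ) (ι := Fin 3) (E := fun _ => ℂ)
    (fun i => ![a, b, c] i)
  simp only [Fin.prod_univ_three] at h
  exact h

theorem ts3_up (k : ℕ) (e : ℝ) (he : 0 < e) (χ : ℂ → ℝ) (hχ : Continuous χ)
    (hχc : HasCompactSupport χ) (hχs : tsupport χ ⊆ Metric.ball 0 e) (h0 : ∀ z, 0 ≤ χ z)
    (h1 : ∀ z, χ z ≤ 1) :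
    ∫ z : ℂ, ‖z‖ ^ (2 * k) * χ z ^ 2 ≤ Real.pi * e ^ (2 * k + 2) / (k + 1) := by
  rw [← ts3_rad k e he.le]
  have hz : ∀ z, z ∉ Metric.ball (0 : ℂ) e → ‖z‖ ^ (2 * k) * χ z ^ 2 = 0 := by
    intro z hz
    have : χ z = 0 := image_eq_zero_of_notMem_tsupport fun h => hz (hχs h)
    rw [this]; ring
  rw [← setIntegral_eq_integral_of_forall_compl_eq_zero hz]
  refine setIntegral_mono_on ?_ ?_ Metric.isOpen_ball.measurableSet ?_
  · refine Integrable.integrableOn ?_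
    refine Continuous.integrable_of_hasCompactSupport (by fun_prop) ?_
    exact (hχc.comp_left (g := fun x : ℝ => x ^ 2) (by simp)).mul_left
  · exact ((by fun_prop : Continuous fun z : ℂ => ‖z‖ ^ (2 * k)).continuousOn.integrableOn_compact
      (isCompact_closedBall 0 e)).mono_set Metric.ball_subset_closedBall
  · intro z _
    have h2 : χ z ^ 2 ≤ 1 := by
      have := h0 z
      have := h1 z
      nlinarith
    calc ‖z‖ ^ (2 * k) * χ z ^ 2 ≤ ‖z‖ ^ (2 * k) * 1 :=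
          mul_le_mul_of_nonneg_left h2 (by positivity)
      _ = _ := mul_one _

theorem ts3_low (k : ℕ) (r : ℝ) (hr : 0 ≤ r) (χ : ℂ → ℝ) (hχ : Continuous χ)
    (hχc : HasCompactSupport χ) (h0 : ∀ z, 0 ≤ χ z)
    (h1 : ∀ z, ‖z‖ ≤ r → χ z = 1) :
    Real.pi * r ^ (2 * k + 2) / (k + 1) ≤ ∫ z : ℂ, ‖z‖ ^ (2 * k) * χ z := by
  rw [← ts3_rad k r hr]
  have e1 : ∫ z in Metric.ball (0 : ℂ) r, ‖z‖ ^ (2 * k) =
      ∫ z in Metric.ball (0 : ℂ) r, ‖z‖ ^ (2 * k) * χ z := by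
    refine setIntegral_congr_fun Metric.isOpen_ball.measurableSet ?_
    intro z hz
    have : ‖z‖ ≤ r := by
      rw [Metric.mem_ball, dist_zero_right] at hz
      exact hz.le
    simp only [h1 z this, mul_one]
  rw [e1]
  refine setIntegral_le_integral ?_ (Eventually.of_forall fun z => ?_)
  · refine Continuous.integrable_of_hasCompactSupport (by fun_prop) ?_
    exact hχc.mul_left
  · have := h0 z
    positivity

theorem ts3_chi (hD : Dom_stmt) (e k1 l1 : ℝ) (hp : ParOK e k1 l1) (k : ℕ) (U : ℂ → ℝ)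
    (hU : ContDiff ℝ ∞ U) (hUc : HasCompactSupport U) (hUs : tsupport U ⊆ Metric.ball 0 1)
    (f : L2 (Omega e k1 l1)) (g : Form (Omega e k1 l1)) (hfg : IsDbar0 (Omega e k1 l1) f g)
    (hg : ∀ᵐ x ∂(volume.restrict (Omega e k1 l1)), g 0 x = (U (x 0) : ℂ) * x 2 ^ k)
    (χ : ℂ → ℝ) (hχ : ContDiff ℝ ∞ χ)
    (hχc : HasCompactSupport χ) (hχs : tsupport χ ⊆ Metric.ball 0 e) (h0 : ∀ z, 0 ≤ χ z)
    (h1 : ∀ z, χ z ≤ 1) :
    ((∫ z, U z ^ 2) * (∫ z, χ z) * (∫ z, ‖z‖ ^ (2 * k) * χ z)) ^ 2 ≤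
      ‖f‖ ^ 2 * (((1 / 4) * ∫ z, ((fderiv ℝ U z 1) ^ 2 + (fderiv ℝ U z I) ^ 2)) *
        (Real.pi * e ^ 2) * (Real.pi * e ^ (2 * k + 2) / (k + 1))) := by
  obtain ⟨-, -, -, -, -, hmem⟩ := hD e k1 l1 hp
  set c : E3 → ℂ := fun x => conj (x 2) ^ k * (χ (x 1) : ℂ) * (χ (x 2) : ℂ) with hc
  have hcinv : ∀ x v, c (x + Pi.single 0 v) = c x := by
    intro x v
    simp only [hc, Pi.add_apply]
    simp
  have hsm : ContDiff ℝ ∞ (fun x : E3 => (U (x 0) : ℂ) * c x) := by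
    have p : ∀ i : Fin 3, ContDiff ℝ ∞ (fun x : E3 => x i) := fun i => contDiff_apply ℝ ℂ i
    have q : ∀ (F : ℂ → ℝ), ContDiff ℝ ∞ F → ∀ i : Fin 3,
        ContDiff ℝ ∞ (fun x : E3 => ((F (x i) : ℝ) : ℂ)) := fun F hF i =>
      Complex.ofRealCLM.contDiff.comp (hF.comp (p i))
    exact (q U hU 0).mul (((((Complex.conjCLE.contDiff.comp (p 2)).pow k).mul (q χ hχ 1)).mul
      (q χ hχ 2)))
  have hφd : Differentiable ℝ (fun x : E3 => (U (x 0) : ℂ) * c x) := hsm.differentiable (by simp)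
  have hUd : Differentiable ℝ U := hU.differentiable (by simp)
  set Kc : Set E3 := Set.pi Set.univ (fun i => (![tsupport U, tsupport χ, tsupport χ] : Fin 3 → Set ℂ) i)
    with hKc
  have hKcomp : IsCompact Kc := by
    refine isCompact_univ_pi fun i => ?_
    fin_cases i
    · exact hUc
    · exact hχc
    · exact hχc
  have hKmem : ∀ x : E3, x ∈ Kc ↔ x 0 ∈ tsupport U ∧ x 1 ∈ tsupport χ ∧ x 2 ∈ tsupport χ := by
    intro x
    rw [hKc, Set.mem_univ_pi]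
    constructor
    · intro h
      exact ⟨h 0, h 1, h 2⟩
    · rintro ⟨h2, h3, h4⟩ i
      fin_cases i
      · exact h2
      · exact h3
      · exact h4
  have hzero : ∀ x : E3, x ∉ Kc → (U (x 0) : ℂ) * c x = 0 := by
    intro x hx
    by_cases h2 : x 0 ∈ tsupport U
    · by_cases h3 : x 1 ∈ tsupport χ
      · by_cases h4 : x 2 ∈ tsupport χ
        · exact absurd ((hKmem x).2 ⟨h2, h3, h4⟩) hx
        · simp only [hc, image_eq_zero_of_notMem_tsupport h4]; simp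
      · simp only [hc, image_eq_zero_of_notMem_tsupport h3]; simp
    · rw [image_eq_zero_of_notMem_tsupport h2]; simp
  have hcs : HasCompactSupport (fun x : E3 => (U (x 0) : ℂ) * c x) :=
    HasCompactSupport.intro hKcomp hzero
  have hKΩ : Kc ⊆ Omega e k1 l1 := by
    intro x hx
    obtain ⟨h2, h3, h4⟩ := (hKmem x).1 hx
    have h5 := hUs h2
    have h6 := hχs h3
    have h7 := hχs h4
    rw [Metric.mem_ball, dist_zero_right] at h5 h6 h7
    exact hmem x h5 h6 h7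
  have hts : tsupport (fun x : E3 => (U (x 0) : ℂ) * c x) ⊆ Omega e k1 l1 := by
    refine subset_trans (closure_minimal ?_ hKcomp.isClosed) hKΩ
    intro x hx
    by_contra h
    exact hx (hzero x h)
  have htest := hfg 0 _ ⟨hsm, hcs, hts⟩
  have hdbar := ts3_dbar U hUd c hcinv hφd
  -- right side
  have hR : ∫ x in Omega e k1 l1, g 0 x * ((U (x 0) : ℂ) * c x) =
      (((∫ z, U z ^ 2) * (∫ z, χ z) * (∫ z, ‖z‖ ^ (2 * k) * χ z) : ℝ) : ℂ) := by
    have e1 : ∫ x in Omega e k1 l1, g 0 x * ((U (x 0) : ℂ) * c x) =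
        ∫ x in Omega e k1 l1, ((U (x 0) ^ 2 * χ (x 1) * (‖x 2‖ ^ (2 * k) * χ (x 2)) : ℝ) : ℂ) := by
      refine integral_congr_ae ?_
      filter_upwards [hg] with x hx
      rw [hx]
      simp only [hc]
      have e2 : (x 2) ^ k * conj (x 2) ^ k = ((‖x 2‖ ^ (2 * k) : ℝ) : ℂ) := by
        rw [← mul_pow, Complex.mul_conj, Complex.normSq_eq_norm_sq]
        push_cast
        ring
      calc (U (x 0) : ℂ) * x 2 ^ k * ((U (x 0) : ℂ) * (conj (x 2) ^ k * (χ (x 1) : ℂ) * (χ (x 2) : ℂ)))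
          = (U (x 0) : ℂ) ^ 2 * (χ (x 1) : ℂ) * (((x 2) ^ k * conj (x 2) ^ k) * (χ (x 2) : ℂ)) := by ring
        _ = _ := by rw [e2]; push_cast; ring
    rw [e1, integral_complex_ofReal]
    congr 1
    rw [setIntegral_eq_integral_of_forall_compl_eq_zero]
    · rw [← ts3_fub]
    · intro x hx
      have hxK : x ∉ Kc := fun h => hx (hKΩ h)
      by_cases h2 : x 0 ∈ tsupport U
      · by_cases h3 : x 1 ∈ tsupport χ
        · by_cases h4 : x 2 ∈ tsupport χ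
          · exact absurd ((hKmem x).2 ⟨h2, h3, h4⟩) hxK
          · rw [image_eq_zero_of_notMem_tsupport h4]; ring
        · rw [image_eq_zero_of_notMem_tsupport h3]; ring
      · rw [image_eq_zero_of_notMem_tsupport h2]; ring
  have hcont : Continuous (fun x : E3 => dbar 0 (fun x : E3 => (U (x 0) : ℂ) * c x) x) := by
    have h2 : Continuous (fderiv ℝ (fun x : E3 => (U (x 0) : ℂ) * c x)) :=
      hsm.continuous_fderiv (by simp)
    unfold dbar
    fun_prop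
  have hdcs : HasCompactSupport (fun x : E3 => dbar 0 (fun x : E3 => (U (x 0) : ℂ) * c x) x) := by
    have h2 := hcs.fderiv (𝕜 := ℝ)
    exact h2.comp_left (g := fun L : E3 →L[ℝ] ℂ =>
      (1 / 2 : ℂ) * (L (Pi.single 0 1) + I * L (Pi.single 0 I))) (by simp)
  have hCS := ts3_cs (Omega e k1 l1) f _ hcont hdcs
  rw [htest, hR, norm_neg, Complex.norm_real, Real.norm_eq_abs, sq_abs] at hCS
  refine hCS.trans ?_
  refine mul_le_mul_of_nonneg_left ?_ (by positivity)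
  have e3 : ∫ x : E3, ‖dbar 0 (fun x : E3 => (U (x 0) : ℂ) * c x) x‖ ^ 2 =
      (∫ z, (1 / 4) * ((fderiv ℝ U z 1) ^ 2 + (fderiv ℝ U z I) ^ 2)) * (∫ z : ℂ, χ z ^ 2) *
        ∫ z : ℂ, ‖z‖ ^ (2 * k) * χ z ^ 2 := by
    rw [← ts3_fub]
    congr 1
    funext x
    rw [hdbar, norm_mul, mul_pow, ts3_normsq]
    simp only [hc]
    rw [norm_mul, norm_mul, norm_pow, RCLike.norm_conj, Complex.norm_real, Complex.norm_real,
      Real.norm_eq_abs, Real.norm_eq_abs]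
    have h2 := sq_abs (χ (x 1))
    have h3 := sq_abs (χ (x 2))
    calc 1 / 4 * ((fderiv ℝ U (x 0) 1) ^ 2 + (fderiv ℝ U (x 0) I) ^ 2) *
          (‖x 2‖ ^ k * |χ (x 1)| * |χ (x 2)|) ^ 2
        = 1 / 4 * ((fderiv ℝ U (x 0) 1) ^ 2 + (fderiv ℝ U (x 0) I) ^ 2) * |χ (x 1)| ^ 2 *
          (‖x 2‖ ^ (2 * k) * |χ (x 2)| ^ 2) := by ring
      _ = _ := by rw [h2, h3]
  rw [e3, integral_const_mul]
  have hu1 := ts3_up 0 e hp.he χ hχ.continuous hχc hχs h0 h1
  have hu2 := ts3_up k e hp.he χ hχ.continuous hχc hχs h0 h1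
  have hu3 : ∫ z : ℂ, χ z ^ 2 ≤ Real.pi * e ^ 2 := by
    simpa using hu1
  have n1 : 0 ≤ ∫ z : ℂ, ((fderiv ℝ U z 1) ^ 2 + (fderiv ℝ U z I) ^ 2) :=
    integral_nonneg fun z => by positivity
  have n2 : 0 ≤ ∫ z : ℂ, χ z ^ 2 := integral_nonneg fun z => by positivity
  have n3 : 0 ≤ ∫ z : ℂ, ‖z‖ ^ (2 * k) * χ z ^ 2 := integral_nonneg fun z => by positivity
  have he := hp.he
  gcongr

theorem ts3 (hD : Dom_stmt) : TS3_stmt := by
  intro e k1 l1 hp k U hU hUc hUs f g hfg hg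
  have he := hp.he
  set N : ℝ := ∫ z, U z ^ 2 with hN
  set Dd : ℝ := (1 / 4) * ∫ z, ((fderiv ℝ U z 1) ^ 2 + (fderiv ℝ U z I) ^ 2) with hDd
  have hN0 : 0 ≤ N := integral_nonneg fun z => by positivity
  have key : ∀ ρ ∈ Set.Ioo 0 e,
      (N * (Real.pi * ρ ^ 2) * (Real.pi * ρ ^ (2 * k + 2) / (k + 1))) ^ 2 ≤
        ‖f‖ ^ 2 * (Dd * (Real.pi * e ^ 2) * (Real.pi * e ^ (2 * k + 2) / (k + 1))) := by
    intro ρ hρ
    have hlt : ρ < (ρ + e) / 2 := by linarith [hρ.2]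
    let b : ContDiffBump (0 : ℂ) := ⟨ρ, (ρ + e) / 2, hρ.1, hlt⟩
    have hbc : HasCompactSupport (fun z => b z) := b.hasCompactSupport
    have hbs : ContDiff ℝ ∞ (fun z => b z) := b.contDiff
    have hbt : tsupport (fun z => b z) ⊆ Metric.ball 0 e := by
      have h2 : tsupport (fun z => b z) = Metric.closedBall 0 ((ρ + e) / 2) := b.tsupport_eq
      rw [h2]
      exact Metric.closedBall_subset_ball (by linarith [hρ.2])
    have hb1 : ∀ z : ℂ, ‖z‖ ≤ ρ → b z = 1 := fun z hz =>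
      b.one_of_mem_closedBall (by rw [Metric.mem_closedBall, dist_zero_right]; exact hz)
    have h2 := ts3_chi hD e k1 l1 hp k U hU hUc hUs f g hfg hg (fun z => b z) hbs hbc hbt
      (fun z => b.nonneg) (fun z => b.le_one)
    refine le_trans ?_ h2
    have h3 := ts3_low 0 ρ hρ.1.le (fun z => b z) hbs.continuous hbc (fun z => b.nonneg) hb1
    have h4 := ts3_low k ρ hρ.1.le (fun z => b z) hbs.continuous hbc (fun z => b.nonneg) hb1
    have h5 : Real.pi * ρ ^ 2 ≤ ∫ z, b z := by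
      simpa using h3
    have hρ0 := hρ.1
    have h6 : 0 ≤ ∫ z, b z := le_trans (by positivity) h5
    rw [← hN]
    gcongr
  have hlim : (N * (Real.pi * e ^ 2) * (Real.pi * e ^ (2 * k + 2) / (k + 1))) ^ 2 ≤
        ‖f‖ ^ 2 * (Dd * (Real.pi * e ^ 2) * (Real.pi * e ^ (2 * k + 2) / (k + 1))) := by
    have hc : Continuous (fun ρ : ℝ =>
        (N * (Real.pi * ρ ^ 2) * (Real.pi * ρ ^ (2 * k + 2) / (k + 1))) ^ 2) := by fun_prop
    refine le_of_tendsto ((hc.tendsto e).mono_left (nhdsWithin_le_nhds (s := Set.Iio e))) ?_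
    filter_upwards [Ioo_mem_nhdsLT he] with ρ hρ
    exact key ρ hρ
  have hA : 0 < Real.pi ^ 2 * e ^ (2 * k + 4) / (k + 1) := by positivity
  refine le_of_mul_le_mul_right ?_ hA
  calc N ^ 2 * (Real.pi ^ 2 * e ^ (2 * k + 4) / (k + 1)) * (Real.pi ^ 2 * e ^ (2 * k + 4) / (k + 1))
      = (N * (Real.pi * e ^ 2) * (Real.pi * e ^ (2 * k + 2) / (k + 1))) ^ 2 := by ring
    _ ≤ _ := hlim
    _ = ‖f‖ ^ 2 * Dd * (Real.pi ^ 2 * e ^ (2 * k + 4) / (k + 1)) := by ring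

end DbarN.JT3
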