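import Pool.Agent.H314.DN.Stmts4
import Pool.Agent.H314.DN.CA1
import Pool.Agent.H314.DN.CA2

set_option autoImplicit false

open MeasureTheory Complex Filter Topology
open scoped ContDiff InnerProductSpace ENNReal ComplexConjugate

namespace DbarN.JVY

open DbarN.JCA1 DbarN.JCA2

section VY
variable {e k1 l1 : ℝ}

theorem vy_tB (h : ParOK e k1 l1) : tB k1 l1 < 2 := by
  unfold tB
  have : k1 / l1 ≤ 1 / 100 := by
    rw [div_le_iff₀ (by linarith [h.hl])]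
    nlinarith [h.hk1, h.hl]
  linarith

theorem vy_X (h : ParOK e k1 l1) {t : ℝ} (ht : t < tB k1 l1) {s : ℝ} (hs : s ∈ Set.Ioo (0:ℝ) 1) :
    100 ≤ el k1 l1 t s ∧ 0 < XX k1 l1 t s ∧
    HasDerivAt (fun t => el k1 l1 t s) (Lm1 k1 l1 t) t ∧
    HasDerivAt (fun s => el k1 l1 t s) (tau1 s) s ∧
    HasDerivAt (fun t => XX k1 l1 t s) (Xt k1 l1 t s) t ∧
    HasDerivAt (fun t => Xt k1 l1 t s) (Xtt k1 l1 t s) t ∧
    HasDerivAt (fun s => XX k1 l1 t s) (Xs k1 l1 t s) s ∧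
    HasDerivAt (fun s => Xt k1 l1 t s) (Xts k1 l1 t s) s ∧
    HasDerivAt (fun s => Xs k1 l1 t s) (Xss k1 l1 t s) s :=
  X_derivs (k1 := k1) (l1 := l1) t s hs.1.le hs.2
    (Lm_hasDerivAt h.hk (by linarith [h.hl]) ht) (Lm1_hasDerivAt h.hk (by linarith [h.hl]) ht)
    (Lm_nonneg h.hk (by linarith [h.hl]) ht) (ht.trans (vy_tB h))

theorem vy_Y (h : ParOK e k1 l1) {t : ℝ} (ht : t < tB k1 l1) {s : ℝ} (hs : s ∈ Set.Ioo (0:ℝ) 1) :
    HasDerivAt (fun t => YY k1 l1 t s) (Yt k1 l1 t s) t ∧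
    HasDerivAt (fun t => Yt k1 l1 t s) (Ytt k1 l1 t s) t ∧
    HasDerivAt (fun s => YY k1 l1 t s) (Ys k1 l1 t s) s ∧
    HasDerivAt (fun s => Yt k1 l1 t s) (Yts k1 l1 t s) s ∧
    HasDerivAt (fun s => Ys k1 l1 t s) (Yss k1 l1 t s) s :=
  Y_derivs (k1 := k1) (l1 := l1) t s hs.1.le hs.2
    (Lm_hasDerivAt h.hk (by linarith [h.hl]) ht) (Lm1_hasDerivAt h.hk (by linarith [h.hl]) ht)
    (Lm_nonneg h.hk (by linarith [h.hl]) ht) (ht.trans (vy_tB h))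

theorem vy_cont (h : ParOK e k1 l1) {t : ℝ} (ht : t < tB k1 l1) :
    ContinuousOn (fun s => Yt k1 l1 t s) (Set.Ioo 0 1) ∧
    ContinuousOn (fun s => Yts k1 l1 t s) (Set.Ioo 0 1) ∧
    ContinuousOn (fun s => Yss k1 l1 t s) (Set.Ioo 0 1) ∧
    ContinuousOn (fun s => XX k1 l1 t s) (Set.Ioo 0 1) := by
  have c_el : ContinuousOn (fun s => el k1 l1 t s) (Set.Ioo 0 1) := fun s hs =>
    (vy_X h ht hs).2.2.2.1.continuousAt.continuousWithinAt
  have n_el : ∀ s ∈ Set.Ioo (0:ℝ) 1, el k1 l1 t s ≠ 0 := fun s hs => by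
    have := (vy_X h ht hs).1
    intro h0; rw [h0] at this; norm_num at this
  have c_X : ContinuousOn (fun s => XX k1 l1 t s) (Set.Ioo 0 1) := fun s hs =>
    (vy_X h ht hs).2.2.2.2.2.2.1.continuousAt.continuousWithinAt
  have n_X : ∀ s ∈ Set.Ioo (0:ℝ) 1, 1 + XX k1 l1 t s ≠ 0 := fun s hs => by
    have := (vy_X h ht hs).2.1
    intro h0; linarith
  have c_Xt : ContinuousOn (fun s => Xt k1 l1 t s) (Set.Ioo 0 1) := fun s hs =>
    (vy_X h ht hs).2.2.2.2.2.2.2.1.continuousAt.continuousWithinAt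
  have c_Xs : ContinuousOn (fun s => Xs k1 l1 t s) (Set.Ioo 0 1) := fun s hs =>
    (vy_X h ht hs).2.2.2.2.2.2.2.2.continuousAt.continuousWithinAt
  have c_t1 : ContinuousOn tau1 (Set.Ioo 0 1) := fun s hs =>
    (tau1_hasDerivAt hs.1.le hs.2).continuousAt.continuousWithinAt
  have c_t2 : ContinuousOn tau2 (Set.Ioo 0 1) := by
    unfold tau2
    apply ContinuousOn.div
    · fun_prop
    · fun_prop
    · intro s hs
      have := one_sub_sq_pos833 hs.1.le hs.2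
      positivity
  have c_1X : ContinuousOn (fun s => 1 + XX k1 l1 t s) (Set.Ioo 0 1) := continuousOn_const.add c_X
  have c_Xts : ContinuousOn (fun s => Xts k1 l1 t s) (Set.Ioo 0 1) := by
    unfold Xts
    apply ContinuousOn.add
    · exact c_t1.div (c_el.pow 2) (fun s hs => pow_ne_zero 2 (n_el s hs))
    · exact (continuousOn_const.mul c_t1).div (c_el.pow 3) (fun s hs => pow_ne_zero 3 (n_el s hs))
  have c_Xss : ContinuousOn (fun s => Xss k1 l1 t s) (Set.Ioo 0 1) := by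
    unfold Xss
    apply ContinuousOn.add
    · exact (continuousOn_const.mul c_t2).div (c_el.pow 2) (fun s hs => pow_ne_zero 2 (n_el s hs))
    · exact (continuousOn_const.mul (c_t1.pow 2)).div (c_el.pow 3)
        (fun s hs => pow_ne_zero 3 (n_el s hs))
  refine ⟨fun s hs => (vy_Y h ht hs).2.2.2.1.continuousAt.continuousWithinAt, ?_, ?_, c_X⟩
  · unfold Yts
    apply ContinuousOn.sub
    · exact c_Xts.div c_1X n_X
    · exact (c_Xt.mul c_Xs).div (c_1X.pow 2) (fun s hs => pow_ne_zero 2 (n_X s hs))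
  · unfold Yss
    apply ContinuousOn.sub
    · exact c_Xss.div c_1X n_X
    · exact (c_Xs.pow 2).div (c_1X.pow 2) (fun s hs => pow_ne_zero 2 (n_X s hs))

theorem vy_int {f : ℝ → ℝ} {C : ℝ} (hf : ContinuousOn f (Set.Ioo 0 1))
    (hb : ∀ s ∈ Set.Ioo (0:ℝ) 1, |f s| ≤ C) : IntegrableOn f (Set.Ioo 0 1) := by
  apply Integrable.of_bound (C := C)
  · exact hf.aestronglyMeasurable measurableSet_Ioo
  · rw [ae_restrict_iff' measurableSet_Ioo]
    exact ae_of_all _ (fun s hs => hb s hs)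

theorem vy_Xle (h : ParOK e k1 l1) {t : ℝ} (h0 : 0 ≤ t) (ht : t < tB k1 l1) {s : ℝ}
    (hs : s ∈ Set.Ioo (0:ℝ) 1) : 0 < XX k1 l1 t s ∧ XX k1 l1 t s ≤ 1 := by
  refine ⟨(vy_X h ht hs).2.1, ?_⟩
  have h1 := (vy_X h ht hs).1
  unfold XX
  rw [div_le_one (by linarith)]
  linarith

theorem vy_den (h : ParOK e k1 l1) {t : ℝ} (h0 : 0 ≤ t) (ht : t < tB k1 l1) (j k : ℕ) {s : ℝ}
    (hs : s ∈ Set.Ioo (0:ℝ) 1) : 0 < den k1 l1 j k t s ∧ den k1 l1 j k t s ≤ 2 ^ (j + 1) := by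
  obtain ⟨h1, h2⟩ := vy_Xle h h0 ht hs
  obtain ⟨h3, h4⟩ := hs
  unfold den
  constructor
  · positivity
  · have a1 : s ^ (2 * k + 1) ≤ 1 := pow_le_one₀ h3.le h4.le
    have a2 : (1 + XX k1 l1 t s) ^ (j + 1) ≤ 2 ^ (j + 1) :=
      pow_le_pow_left₀ (by linarith) (by linarith) _
    calc s ^ (2 * k + 1) * (1 + XX k1 l1 t s) ^ (j + 1) ≤ 1 * 2 ^ (j + 1) :=
          mul_le_mul a1 a2 (by positivity) (by norm_num)
      _ = 2 ^ (j + 1) := one_mul _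

theorem vy_dcont (h : ParOK e k1 l1) {t : ℝ} (ht : t < tB k1 l1) (j k : ℕ) :
    ContinuousOn (fun s => den k1 l1 j k t s) (Set.Ioo 0 1) := by
  unfold den
  exact (continuousOn_id.pow _).mul ((continuousOn_const.add (vy_cont h ht).2.2.2).pow _)

theorem vy_Yt (h : ParOK e k1 l1) {t : ℝ} (h0 : 0 ≤ t) (ht : t < tB k1 l1) {s : ℝ}
    (hs : s ∈ Set.Ioo (0:ℝ) 1) : |Yt k1 l1 t s| ≤ 1 + 2 * Lm1 k1 l1 t := by
  obtain ⟨h1, h2⟩ := vy_Xle h h0 ht hs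
  have h3 := (vy_X h ht hs).1
  have hL := Lm1_nonneg (k1 := k1) (l1 := l1) h.hk (by linarith [h.hl]) ht
  have hT := vy_tB h
  unfold Yt
  rw [abs_div, abs_of_pos (by linarith : (0:ℝ) < 1 + XX k1 l1 t s)]
  have h4 : |Xt k1 l1 t s| ≤ 1 + 2 * Lm1 k1 l1 t := by
    unfold Xt
    have a1 : |(-1:ℝ) / el k1 l1 t s| ≤ 1 := by
      rw [abs_div, abs_neg, abs_one, abs_of_pos (by linarith), div_le_one (by linarith)]
      linarith
    have a2 : |(2 - t) * Lm1 k1 l1 t / el k1 l1 t s ^ 2| ≤ 2 * Lm1 k1 l1 t := by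
      have b0 : 0 ≤ (2 - t) * Lm1 k1 l1 t := mul_nonneg (by linarith) hL
      rw [abs_of_nonneg (by positivity)]
      calc (2 - t) * Lm1 k1 l1 t / el k1 l1 t s ^ 2 ≤ (2 - t) * Lm1 k1 l1 t :=
            div_le_self b0 (by nlinarith)
        _ ≤ 2 * Lm1 k1 l1 t := by nlinarith
    calc |(-1:ℝ) / el k1 l1 t s - (2 - t) * Lm1 k1 l1 t / el k1 l1 t s ^ 2|
        ≤ |(-1:ℝ) / el k1 l1 t s| + |(2 - t) * Lm1 k1 l1 t / el k1 l1 t s ^ 2| := abs_sub _ _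
      _ ≤ _ := add_le_add a1 a2
  exact (div_le_self (abs_nonneg _) (by linarith)).trans h4

end VY

theorem varY (hBL : BL_stmt) (hPW : PW_stmt) : VarY_stmt := by
  intro e k1 l1 h j k t h0 ht
  rcases eq_or_lt_of_le h0 with ht0 | ht0
  · subst ht0
    have : Es k1 l1 j k 0 (fun s => 0 * (Yts k1 l1 0 s ^ 2 / (-Yss k1 l1 0 s))) = 0 := by
      unfold Es
      simp
    rw [this]
    simp
  have hT := vy_tB h
  have hL1 := Lm1_nonneg (k1 := k1) (l1 := l1) h.hk (by linarith [h.hl]) ht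
  have hL2 : 0 ≤ Lm2 k1 l1 t := by
    have := Lm2_ge (k1 := k1) (l1 := l1) h.hk h.hk1 h.hl ht
    nlinarith
  obtain ⟨cYt, cYts, cYss, cX⟩ := vy_cont h ht
  have cden := vy_dcont h ht j k
  set d : ℝ → ℝ := fun s => den k1 l1 j k t s with hd
  set Y : ℝ → ℝ := fun s => Yt k1 l1 t s with hY
  set Z : ℝ → ℝ := fun s => Yts k1 l1 t s with hZ
  set W : ℝ → ℝ := fun s => Yss k1 l1 t s with hW
  have dpos : ∀ s ∈ Set.Ioo (0:ℝ) 1, 0 < d s ∧ d s ≤ 2 ^ (j + 1) := fun s hs =>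
    vy_den h h0 ht j k hs
  have Yb : ∀ s ∈ Set.Ioo (0:ℝ) 1, |Y s| ≤ 1 + 2 * Lm1 k1 l1 t := fun s hs => vy_Yt h h0 ht hs
  have Wneg : ∀ s ∈ Set.Ioo (0:ℝ) 1, W s < 0 := fun s hs =>
    (hPW e k1 l1 h t s h0 ht hs.1 hs.2).1
  have Q : ∀ s ∈ Set.Ioo (0:ℝ) 1, Z s ^ 2 / (-W s) ≤ (1 + t * Lm2 k1 l1 t) / t := by
    intro s hs
    have h1 := (hPW e k1 l1 h t s h0 ht hs.1 hs.2).2.2.1
    have h2 := (vy_X h ht hs).1
    have h3 : 1 / el k1 l1 t s ≤ 1 := by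
      rw [div_le_one (by linarith)]; linarith
    have h4 : t * Lm2 k1 l1 t / el k1 l1 t s ^ 2 ≤ t * Lm2 k1 l1 t :=
      div_le_self (by positivity) (by nlinarith)
    rw [le_div_iff₀ ht0]
    have : Z s ^ 2 / (-W s) * t = t * (Yts k1 l1 t s ^ 2 / (-Yss k1 l1 t s)) := mul_comm _ _
    rw [this]
    linarith
  have Qn : ∀ s ∈ Set.Ioo (0:ℝ) 1, 0 ≤ Z s ^ 2 / (-W s) := fun s hs =>
    div_nonneg (sq_nonneg _) (by linarith [Wneg s hs])
  -- integrability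
  have id : IntegrableOn d (Set.Ioo 0 1) := vy_int (C := 2 ^ (j + 1)) cden (fun s hs => by
    rw [abs_of_pos (dpos s hs).1]; exact (dpos s hs).2)
  have iYd : IntegrableOn (fun s => Y s * d s) (Set.Ioo 0 1) :=
    vy_int (C := (1 + 2 * Lm1 k1 l1 t) * 2 ^ (j + 1)) (cYt.mul cden) (fun s hs => by
      rw [abs_mul, abs_of_pos (dpos s hs).1]
      exact mul_le_mul (Yb s hs) (dpos s hs).2 (dpos s hs).1.le (by positivity))
  have iY2d : IntegrableOn (fun s => Y s ^ 2 * d s) (Set.Ioo 0 1) :=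
    vy_int (C := (1 + 2 * Lm1 k1 l1 t) ^ 2 * 2 ^ (j + 1)) ((cYt.pow 2).mul cden) (fun s hs => by
      rw [abs_mul, abs_of_pos (dpos s hs).1, abs_pow]
      exact mul_le_mul (pow_le_pow_left₀ (abs_nonneg _) (Yb s hs) 2) (dpos s hs).2
        (dpos s hs).1.le (by positivity))
  have cQ : ContinuousOn (fun s => Z s ^ 2 / (-W s)) (Set.Ioo 0 1) :=
    (cYts.pow 2).div cYss.neg (fun s hs => by
      have := Wneg s hs
      intro h0
      have : W s = 0 := by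
        have h1 : -W s = 0 := h0
        linarith
      linarith)
  have iQd : IntegrableOn (fun s => Z s ^ 2 / (-W s) * d s) (Set.Ioo 0 1) :=
    vy_int (C := (1 + t * Lm2 k1 l1 t) / t * 2 ^ (j + 1)) (cQ.mul cden) (fun s hs => by
      rw [abs_mul, abs_of_pos (dpos s hs).1, abs_of_nonneg (Qn s hs)]
      exact mul_le_mul (Q s hs) (dpos s hs).2 (dpos s hs).1.le (by positivity))
  -- the potential
  let V : ℝ → ℝ := fun s => -(((2 * k + 1 : ℕ) : ℝ) * Real.log s + ((j + 1 : ℕ) : ℝ) * YY k1 l1 t s)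
  let V1 : ℝ → ℝ := fun s => -(((2 * k + 1 : ℕ) : ℝ) * s⁻¹ + ((j + 1 : ℕ) : ℝ) * Ys k1 l1 t s)
  let V2 : ℝ → ℝ := fun s => -(((2 * k + 1 : ℕ) : ℝ) * (-(s ^ 2)⁻¹) + ((j + 1 : ℕ) : ℝ) * W s)
  have hV : ∀ s ∈ Set.Ioo (0:ℝ) 1, HasDerivAt V (V1 s) s := by
    intro s hs
    have h1 := (Real.hasDerivAt_log hs.1.ne').const_mul (((2 * k + 1 : ℕ) : ℝ))
    have h2 := (vy_Y h ht hs).2.2.1.const_mul (((j + 1 : ℕ) : ℝ))
    exact (h1.add h2).neg
  have hV1 : ∀ s ∈ Set.Ioo (0:ℝ) 1, HasDerivAt V1 (V2 s) s := by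
    intro s hs
    have h1 := (hasDerivAt_inv hs.1.ne').const_mul (((2 * k + 1 : ℕ) : ℝ))
    have h2 := (vy_Y h ht hs).2.2.2.2.const_mul (((j + 1 : ℕ) : ℝ))
    exact (h1.add h2).neg
  have hV2ge : ∀ s ∈ Set.Ioo (0:ℝ) 1, ((j:ℝ) + 1) * (-W s) ≤ V2 s := by
    intro s hs
    have h1 : 0 ≤ ((2 * k + 1 : ℕ) : ℝ) * (s ^ 2)⁻¹ := by positivity
    show ((j:ℝ) + 1) * (-W s) ≤ -(((2 * k + 1 : ℕ) : ℝ) * (-(s ^ 2)⁻¹) + ((j + 1 : ℕ) : ℝ) * W s)
    push_cast at h1 ⊢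
    nlinarith
  have hj : (0:ℝ) < (j:ℝ) + 1 := by positivity
  have hV2 : ∀ s ∈ Set.Ioo (0:ℝ) 1, 0 < V2 s := by
    intro s hs
    have h1 := hV2ge s hs
    have h2 : 0 < ((j:ℝ) + 1) * (-W s) := mul_pos hj (by linarith [Wneg s hs])
    linarith
  have cV2 : ContinuousOn V2 (Set.Ioo 0 1) := by
    apply ContinuousOn.neg
    apply ContinuousOn.add
    · apply continuousOn_const.mul
      apply ContinuousOn.neg
      apply ContinuousOn.inv₀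
      · fun_prop
      · intro s hs
        exact pow_ne_zero 2 hs.1.ne'
    · exact continuousOn_const.mul cYss
  have eV : ∀ s ∈ Set.Ioo (0:ℝ) 1, Real.exp (-V s) = d s := by
    intro s hs
    have hX := (vy_Xle h h0 ht hs).1
    show Real.exp (-(-(((2 * k + 1 : ℕ) : ℝ) * Real.log s +
      ((j + 1 : ℕ) : ℝ) * YY k1 l1 t s))) = den k1 l1 j k t s
    rw [neg_neg, Real.exp_add, Real.exp_nat_mul, Real.exp_nat_mul, Real.exp_log hs.1]
    unfold YY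
    rw [Real.exp_log (by linarith)]
    rfl
  have iV : IntegrableOn (fun s => Real.exp (-V s)) (Set.Ioo (0 : ℝ) 1) :=
    id.congr_fun (fun s hs => (eV s hs).symm) measurableSet_Ioo
  have nY : ∀ s : ℝ, ‖((Y s : ℝ) : ℂ)‖ ^ 2 = Y s ^ 2 := by
    intro s
    rw [Complex.norm_real, Real.norm_eq_abs, sq_abs]
  have nZ : ∀ s : ℝ, ‖((Z s : ℝ) : ℂ)‖ ^ 2 = Z s ^ 2 := by
    intro s
    rw [Complex.norm_real, Real.norm_eq_abs, sq_abs]
  have iZ : IntegrableOn (fun s => ‖((Z s : ℝ) : ℂ)‖ ^ 2 / V2 s * Real.exp (-V s))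
      (Set.Ioo (0 : ℝ) 1) := by
    have : IntegrableOn (fun s => Z s ^ 2 / V2 s * d s) (Set.Ioo (0 : ℝ) 1) := by
      apply vy_int (C := (1 + t * Lm2 k1 l1 t) / t * 2 ^ (j + 1))
      · exact ((cYts.pow 2).div cV2 (fun s hs => (hV2 s hs).ne')).mul cden
      · intro s hs
        have b1 : 0 ≤ Z s ^ 2 / V2 s := div_nonneg (sq_nonneg _) (hV2 s hs).le
        have b2 : Z s ^ 2 / V2 s ≤ Z s ^ 2 / (-W s) := by
          apply div_le_div_of_nonneg_left (sq_nonneg _) (by linarith [Wneg s hs])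
          have := hV2ge s hs
          have h3 : 0 < -W s := by linarith [Wneg s hs]
          have h4 : (0:ℝ) ≤ j := Nat.cast_nonneg j
          nlinarith
        rw [abs_mul, abs_of_pos (dpos s hs).1, abs_of_nonneg b1]
        exact mul_le_mul (b2.trans (Q s hs)) (dpos s hs).2 (dpos s hs).1.le (by positivity)
    apply this.congr_fun _ measurableSet_Ioo
    intro s hs
    show Z s ^ 2 / V2 s * d s = ‖((Z s : ℝ) : ℂ)‖ ^ 2 / V2 s * Real.exp (-V s)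
    rw [nZ, eV s hs]
  have iY : IntegrableOn (fun s => ‖((Y s : ℝ) : ℂ)‖ ^ 2 * Real.exp (-V s))
      (Set.Ioo (0 : ℝ) 1) := by
    apply iY2d.congr_fun _ measurableSet_Ioo
    intro s hs
    show Y s ^ 2 * d s = ‖((Y s : ℝ) : ℂ)‖ ^ 2 * Real.exp (-V s)
    rw [nY, eV s hs]
  have hg : ∀ s ∈ Set.Ioo (0 : ℝ) 1, HasDerivAt (fun s => ((Y s : ℝ) : ℂ)) ((Z s : ℝ) : ℂ) s := by
    intro s hs
    exact (vy_Y h ht hs).2.2.2.1.ofReal_comp
  have cg1 : ContinuousOn (fun s => ((Z s : ℝ) : ℂ)) (Set.Ioo 0 1) :=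
    Complex.continuous_ofReal.comp_continuousOn cYts
  have BL := hBL V V1 V2 (fun s => ((Y s : ℝ) : ℂ)) (fun s => ((Z s : ℝ) : ℂ)) hV hV1 hV2 cV2 iV
    hg cg1 iY iZ
  -- evaluation
  have e1 : ∫ x in Set.Ioo (0 : ℝ) 1, Real.exp (-V x) = ∫ x in Set.Ioo (0 : ℝ) 1, d x :=
    setIntegral_congr_fun measurableSet_Ioo (fun s hs => eV s hs)
  have e2 : ∫ x in Set.Ioo (0 : ℝ) 1, ((Y x : ℝ) : ℂ) * ((Real.exp (-V x) : ℝ) : ℂ) =
      ((∫ x in Set.Ioo (0 : ℝ) 1, Y x * d x : ℝ) : ℂ) := by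
    rw [← integral_complex_ofReal]
    apply setIntegral_congr_fun measurableSet_Ioo
    intro s hs
    show ((Y s : ℝ) : ℂ) * ((Real.exp (-V s) : ℝ) : ℂ) = ((Y s * d s : ℝ) : ℂ)
    rw [eV s hs]
    push_cast
    rfl
  rw [e1, e2] at BL
  set A : ℝ := ∫ x in Set.Ioo (0 : ℝ) 1, Y x ^ 2 * d x with hA
  set B : ℝ := ∫ x in Set.Ioo (0 : ℝ) 1, Y x * d x with hB
  set I0 : ℝ := ∫ x in Set.Ioo (0 : ℝ) 1, d x with hI
  set R : ℝ := ∫ x in Set.Ioo (0 : ℝ) 1, Z x ^ 2 / (-W x) * d x with hR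
  have hEs1 : Es k1 l1 j k t (fun s => Yt k1 l1 t s ^ 2) = A / I0 := rfl
  have hEs2 : Es k1 l1 j k t (fun s => Yt k1 l1 t s) = B / I0 := rfl
  have hEs3 : Es k1 l1 j k t (fun s => t * (Yts k1 l1 t s ^ 2 / (-Yss k1 l1 t s))) =
      t * R / I0 := by
    unfold Es
    have : ∫ s in Set.Ioo (0 : ℝ) 1, t * (Yts k1 l1 t s ^ 2 / (-Yss k1 l1 t s)) *
        den k1 l1 j k t s = t * R := by
      rw [hR, ← integral_const_mul]
      congr 1
      ext s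
      show t * (Yts k1 l1 t s ^ 2 / (-Yss k1 l1 t s)) * den k1 l1 j k t s =
        t * (Yts k1 l1 t s ^ 2 / (-Yss k1 l1 t s) * den k1 l1 j k t s)
      ring
    rw [this]
    rfl
  rw [hEs1, hEs2, hEs3]
  have hI0 : 0 ≤ I0 := by
    apply setIntegral_nonneg measurableSet_Ioo
    intro s hs
    exact (dpos s hs).1.le
  rcases eq_or_lt_of_le hI0 with hz | hpos
  · rw [← hz]; simp
  have L : ∫ s in Set.Ioo (0 : ℝ) 1, ‖((Y s : ℝ) : ℂ) - ((B : ℝ) : ℂ) / ((I0 : ℝ) : ℂ)‖ ^ 2 *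
      Real.exp (-V s) = A - B ^ 2 / I0 := by
    have e3 : ∫ s in Set.Ioo (0 : ℝ) 1, ‖((Y s : ℝ) : ℂ) - ((B : ℝ) : ℂ) / ((I0 : ℝ) : ℂ)‖ ^ 2 *
      Real.exp (-V s) = ∫ s in Set.Ioo (0 : ℝ) 1,
        (Y s ^ 2 * d s - (2 * (B / I0)) * (Y s * d s) + (B / I0) ^ 2 * d s) := by
      apply setIntegral_congr_fun measurableSet_Ioo
      intro s hs
      show ‖((Y s : ℝ) : ℂ) - ((B : ℝ) : ℂ) / ((I0 : ℝ) : ℂ)‖ ^ 2 * Real.exp (-V s) =
        Y s ^ 2 * d s - (2 * (B / I0)) * (Y s * d s) + (B / I0) ^ 2 * d s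
      have : ((Y s : ℝ) : ℂ) - ((B : ℝ) : ℂ) / ((I0 : ℝ) : ℂ) = ((Y s - B / I0 : ℝ) : ℂ) := by
        push_cast; rfl
      rw [this, Complex.norm_real, Real.norm_eq_abs, sq_abs, eV s hs]
      ring
    rw [e3, integral_add, integral_sub, integral_const_mul, integral_const_mul]
    · show A - 2 * (B / I0) * B + (B / I0) ^ 2 * I0 = A - B ^ 2 / I0
      field_simp
      ring
    · exact iY2d
    · exact iYd.const_mul _
    · exact iY2d.sub (iYd.const_mul _)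
    · exact id.const_mul _
  have Rr : ∫ s in Set.Ioo (0 : ℝ) 1, ‖((Z s : ℝ) : ℂ)‖ ^ 2 / V2 s * Real.exp (-V s) ≤
      R / ((j:ℝ) + 1) := by
    have e4 : R / ((j:ℝ) + 1) = ∫ s in Set.Ioo (0 : ℝ) 1,
        (1 / ((j:ℝ) + 1)) * (Z s ^ 2 / (-W s) * d s) := by
      rw [integral_const_mul]
      ring
    rw [e4]
    apply setIntegral_mono_on iZ (iQd.const_mul _) measurableSet_Ioo
    intro s hs
    rw [nZ, eV s hs]
    have h3 : 0 < -W s := by linarith [Wneg s hs]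
    have h4 : Z s ^ 2 / V2 s ≤ Z s ^ 2 / (((j:ℝ) + 1) * (-W s)) := by
      apply div_le_div_of_nonneg_left (sq_nonneg _) (by positivity) (hV2ge s hs)
    have h5 : Z s ^ 2 / (((j:ℝ) + 1) * (-W s)) = (1 / ((j:ℝ) + 1)) * (Z s ^ 2 / (-W s)) := by
      field_simp
    rw [h5] at h4
    calc Z s ^ 2 / V2 s * d s ≤ ((1 / ((j:ℝ) + 1)) * (Z s ^ 2 / (-W s))) * d s :=
          mul_le_mul_of_nonneg_right h4 (dpos s hs).1.le
      _ = (1 / ((j:ℝ) + 1)) * (Z s ^ 2 / (-W s) * d s) := by ring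
  have key : A - B ^ 2 / I0 ≤ R / ((j:ℝ) + 1) := by
    rw [← L]
    exact BL.trans Rr
  have f1 : A / I0 - (B / I0) ^ 2 = (A - B ^ 2 / I0) / I0 := by
    field_simp
  rw [f1]
  calc ((j:ℝ) + 1) ^ 2 * t * ((A - B ^ 2 / I0) / I0)
      ≤ ((j:ℝ) + 1) ^ 2 * t * ((R / ((j:ℝ) + 1)) / I0) := by
        apply mul_le_mul_of_nonneg_left _ (by positivity)
        exact div_le_div_of_nonneg_right key hpos.le
    _ = ((j:ℝ) + 1) * (t * R / I0) := by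
        field_simp

end DbarN.JVY
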