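import Pool.Agent.H314.DN.Stmts
import Pool.Agent.H314.DN.A0
import Pool.Agent.H314.DN.A1

set_option autoImplicit false

open MeasureTheory Complex Filter Topology
open scoped ContDiff InnerProductSpace ENNReal ComplexConjugate

namespace DbarN.JWS1
namespace W833

/-! ### basic lemmas on smooth functions and directional derivatives -/

/-- directional derivative -/
noncomputable def Dv (w : E3) (v : E3 → ℂ) (x : E3) : ℂ := fderiv ℝ v x w

theorem Dv_smooth {v : E3 → ℂ} (hv : ContDiff ℝ ∞ v) (w : E3) : ContDiff ℝ ∞ (Dv w v) := by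
  unfold Dv
  exact (hv.fderiv_right (m := ∞) (by norm_num)).clm_apply contDiff_const

theorem Dv_compact {v : E3 → ℂ} (hv : HasCompactSupport v) (w : E3) :
    HasCompactSupport (Dv w v) := by
  unfold Dv
  exact hv.fderiv_apply ℝ w

theorem smooth_diff {v : E3 → ℂ} (hv : ContDiff ℝ ∞ v) : Differentiable ℝ v :=
  hv.differentiable (by norm_num)

theorem Dv_lin {a b : E3 → ℂ} (ha : ContDiff ℝ ∞ a) (hb : ContDiff ℝ ∞ b) (c d : ℂ) (w x : E3) :
    Dv w (fun x => c * (a x + d * b x)) x = c * (Dv w a x + d * Dv w b x) := by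
  unfold Dv
  have h1 : HasFDerivAt (fun x => c * (a x + d * b x))
      (c • (fderiv ℝ a x + d • fderiv ℝ b x)) x :=
    (((smooth_diff ha) x).hasFDerivAt.add (((smooth_diff hb) x).hasFDerivAt.const_mul d)).const_mul c
  rw [h1.fderiv]
  simp
  ring

theorem Dv_mul {a b : E3 → ℂ} (ha : ContDiff ℝ ∞ a) (hb : ContDiff ℝ ∞ b) (w x : E3) :
    Dv w (fun x => a x * b x) x = Dv w a x * b x + a x * Dv w b x := by
  unfold Dv
  have h1 : HasFDerivAt (fun x => a x * b x) (a x • fderiv ℝ b x + b x • fderiv ℝ a x) x :=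
    ((smooth_diff ha) x).hasFDerivAt.mul ((smooth_diff hb) x).hasFDerivAt
  rw [h1.fderiv]
  simp
  ring

theorem Dv_add {a b : E3 → ℂ} (ha : ContDiff ℝ ∞ a) (hb : ContDiff ℝ ∞ b) (w x : E3) :
    Dv w (fun x => a x + b x) x = Dv w a x + Dv w b x := by
  unfold Dv
  have h1 : HasFDerivAt (fun x => a x + b x) (fderiv ℝ a x + fderiv ℝ b x) x :=
    ((smooth_diff ha) x).hasFDerivAt.add ((smooth_diff hb) x).hasFDerivAt
  rw [h1.fderiv]
  simp

theorem Dv_conj {a : E3 → ℂ} (ha : ContDiff ℝ ∞ a) (w x : E3) :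
    Dv w (fun x => conj (a x)) x = conj (Dv w a x) := by
  unfold Dv
  have h1 : HasFDerivAt (fun x => conj (a x))
      ((Complex.conjCLE : ℂ →L[ℝ] ℂ).comp (fderiv ℝ a x)) x :=
    (Complex.conjCLE : ℂ →L[ℝ] ℂ).hasFDerivAt.comp x ((smooth_diff ha) x).hasFDerivAt
  rw [h1.fderiv]
  simp

theorem Dv_comm {a : E3 → ℂ} (ha : ContDiff ℝ ∞ a) (w u x : E3) :
    Dv w (Dv u a) x = Dv u (Dv w a) x := by
  have h0 : Differentiable ℝ (fderiv ℝ a) :=
    (ha.fderiv_right (m := ∞) (by norm_num)).differentiable (by norm_num)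
  have h1 : ∀ w u : E3, Dv w (Dv u a) x = fderiv ℝ (fderiv ℝ a) x w u := by
    intro w u
    unfold Dv
    have h2 : HasFDerivAt (fun x => fderiv ℝ a x u)
        ((ContinuousLinearMap.apply ℝ ℂ u).comp (fderiv ℝ (fderiv ℝ a) x)) x :=
      (ContinuousLinearMap.apply ℝ ℂ u).hasFDerivAt.comp x (h0 x).hasFDerivAt
    rw [h2.fderiv]
    simp
  rw [h1, h1]
  have h3 : IsSymmSndFDerivAt ℝ a x := by
    apply ContDiffAt.isSymmSndFDerivAt (n := ∞) ha.contDiffAt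
    rw [minSmoothness_of_isRCLikeNormedField]
    exact WithTop.coe_le_coe.2 le_top
  exact h3 w u

theorem dbar_eq (j : Fin 3) (v : E3 → ℂ) :
    dbar j v = fun x => (1 / 2) * (Dv (Pi.single j 1) v x + I * Dv (Pi.single j I) v x) := rfl

theorem dz_eq (j : Fin 3) (v : E3 → ℂ) :
    dz j v = fun x => (1 / 2) * (Dv (Pi.single j 1) v x + (-I) * Dv (Pi.single j I) v x) := by
  funext x
  unfold dz Dv
  ring

theorem dbar_smooth {v : E3 → ℂ} (hv : ContDiff ℝ ∞ v) (j : Fin 3) : ContDiff ℝ ∞ (dbar j v) := by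
  rw [dbar_eq]
  exact contDiff_const.mul ((Dv_smooth hv _).add (contDiff_const.mul (Dv_smooth hv _)))

theorem dz_smooth {v : E3 → ℂ} (hv : ContDiff ℝ ∞ v) (j : Fin 3) : ContDiff ℝ ∞ (dz j v) := by
  rw [dz_eq]
  exact contDiff_const.mul ((Dv_smooth hv _).add (contDiff_const.mul (Dv_smooth hv _)))

theorem dbar_dz_comm {v : E3 → ℂ} (hv : ContDiff ℝ ∞ v) (j k : Fin 3) (x : E3) :
    dbar k (dz j v) x = dz j (dbar k v) x := by
  have h1 : dbar k (dz j v) x = (1 / 2) * (Dv (Pi.single k 1) (dz j v) x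
      + I * Dv (Pi.single k I) (dz j v) x) := rfl
  have h2 : dz j (dbar k v) x = (1 / 2) * (Dv (Pi.single j 1) (dbar k v) x
      + (-I) * Dv (Pi.single j I) (dbar k v) x) := by rw [dz_eq]
  rw [h1, h2, dz_eq, dbar_eq]
  rw [Dv_lin (Dv_smooth hv _) (Dv_smooth hv _), Dv_lin (Dv_smooth hv _) (Dv_smooth hv _),
    Dv_lin (Dv_smooth hv _) (Dv_smooth hv _), Dv_lin (Dv_smooth hv _) (Dv_smooth hv _)]
  rw [Dv_comm hv (Pi.single k 1) (Pi.single j 1), Dv_comm hv (Pi.single k 1) (Pi.single j I),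
    Dv_comm hv (Pi.single k I) (Pi.single j 1), Dv_comm hv (Pi.single k I) (Pi.single j I)]
  ring

theorem dbar_mul {a b : E3 → ℂ} (ha : ContDiff ℝ ∞ a) (hb : ContDiff ℝ ∞ b) (j : Fin 3) (x : E3) :
    dbar j (fun x => a x * b x) x = dbar j a x * b x + a x * dbar j b x := by
  simp only [dbar_eq]
  rw [Dv_mul ha hb, Dv_mul ha hb]
  ring

theorem dz_mul {a b : E3 → ℂ} (ha : ContDiff ℝ ∞ a) (hb : ContDiff ℝ ∞ b) (j : Fin 3) (x : E3) :
    dz j (fun x => a x * b x) x = dz j a x * b x + a x * dz j b x := by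
  simp only [dz_eq]
  rw [Dv_mul ha hb, Dv_mul ha hb]
  ring

theorem dbar_lin {a b : E3 → ℂ} (ha : ContDiff ℝ ∞ a) (hb : ContDiff ℝ ∞ b) (c d : ℂ) (j : Fin 3)
    (x : E3) : dbar j (fun x => c * (a x + d * b x)) x = c * (dbar j a x + d * dbar j b x) := by
  simp only [dbar_eq]
  rw [Dv_lin ha hb, Dv_lin ha hb]
  ring

theorem dz_lin {a b : E3 → ℂ} (ha : ContDiff ℝ ∞ a) (hb : ContDiff ℝ ∞ b) (c d : ℂ) (j : Fin 3)
    (x : E3) : dz j (fun x => c * (a x + d * b x)) x = c * (dz j a x + d * dz j b x) := by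
  simp only [dz_eq]
  rw [Dv_lin ha hb, Dv_lin ha hb]
  ring

theorem conj_smooth {a : E3 → ℂ} (ha : ContDiff ℝ ∞ a) : ContDiff ℝ ∞ (fun x => conj (a x)) :=
  (Complex.conjCLE : ℂ →L[ℝ] ℂ).contDiff.comp ha

theorem dbar_conj {a : E3 → ℂ} (ha : ContDiff ℝ ∞ a) (j : Fin 3) (x : E3) :
    dbar j (fun x => conj (a x)) x = conj (dz j a x) := by
  simp only [dbar_eq, dz_eq]
  have h2 : (starRingEnd ℂ) (1 / 2 : ℂ) = 1 / 2 := by
    rw [map_div₀, map_one, map_ofNat]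
  rw [Dv_conj ha, Dv_conj ha, map_mul, h2, map_add, map_mul, map_neg, conj_I, neg_neg]

theorem Ph_smooth {Φ : E3 → ℝ} (hΦ : ContDiff ℝ ∞ Φ) : ContDiff ℝ ∞ (Ph Φ) :=
  Complex.ofRealCLM.contDiff.comp hΦ

theorem dbar_Ph {Φ : E3 → ℝ} (hΦ : ContDiff ℝ ∞ Φ) (j : Fin 3) (x : E3) :
    dbar j (Ph Φ) x = conj (dz j (Ph Φ) x) := by
  rw [← dbar_conj (Ph_smooth hΦ)]
  congr 1
  funext y
  simp [Ph]

/-- smooth with compact support -/
structure Tst (a : E3 → ℂ) : Prop where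
  sm : ContDiff ℝ ∞ a
  cp : HasCompactSupport a

theorem Tst.dbar {a : E3 → ℂ} (h : Tst a) (j : Fin 3) : Tst (dbar j a) := by
  refine ⟨dbar_smooth h.sm j, ?_⟩
  rw [dbar_eq]
  have h1 : HasCompactSupport (fun x => Dv (Pi.single j 1) a x + I * Dv (Pi.single j I) a x) :=
    (Dv_compact h.cp _).add ((Dv_compact h.cp _).mul_left (f := fun _ => I))
  exact h1.mul_left (f := fun _ => (1 / 2 : ℂ))

theorem Tst.dz {a : E3 → ℂ} (h : Tst a) (j : Fin 3) : Tst (dz j a) := by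
  refine ⟨dz_smooth h.sm j, ?_⟩
  rw [dz_eq]
  have h1 : HasCompactSupport (fun x => Dv (Pi.single j 1) a x + (-I) * Dv (Pi.single j I) a x) :=
    (Dv_compact h.cp _).add ((Dv_compact h.cp _).mul_left (f := fun _ => -I))
  exact h1.mul_left (f := fun _ => (1 / 2 : ℂ))

theorem Tst.mulL {a f : E3 → ℂ} (h : Tst a) (hf : ContDiff ℝ ∞ f) : Tst (fun x => f x * a x) :=
  ⟨hf.mul h.sm, h.cp.mul_left⟩

theorem Tst.add {a b : E3 → ℂ} (h : Tst a) (h' : Tst b) : Tst (fun x => a x + b x) :=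
  ⟨h.sm.add h'.sm, h.cp.add h'.cp⟩

theorem Tst.neg {a : E3 → ℂ} (h : Tst a) : Tst (fun x => - a x) :=
  ⟨h.sm.neg, h.cp.neg⟩

theorem Tst.conj {a : E3 → ℂ} (h : Tst a) : Tst (fun x => conj (a x)) :=
  ⟨conj_smooth h.sm, h.cp.comp_left (g := fun z : ℂ => (starRingEnd ℂ) z) (map_zero _)⟩

theorem Tst.integrable {a b : E3 → ℂ} (h : Tst a) (hb : Continuous b) :
    Integrable (fun x => a x * b x) :=
  (h.sm.continuous.mul hb).integrable_of_hasCompactSupport h.cp.mul_right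

theorem Tst.integrable' {a b : E3 → ℂ} (h : Tst a) (hb : Continuous b) :
    Integrable (fun x => b x * a x) :=
  (hb.mul h.sm.continuous).integrable_of_hasCompactSupport h.cp.mul_left

theorem AA_eq (Φ : E3 → ℝ) (j : Fin 3) (v : E3 → ℂ) :
    AA Φ j v = fun x => dbar j v x + ((1 / 2) * dbar j (Ph Φ) x) * v x := rfl

theorem AS_eq (Φ : E3 → ℝ) (j : Fin 3) (v : E3 → ℂ) :
    AS Φ j v = fun x => - dz j v x + ((1 / 2) * dz j (Ph Φ) x) * v x := rfl

theorem Tst.AA {Φ : E3 → ℝ} (hΦ : ContDiff ℝ ∞ Φ) {a : E3 → ℂ} (h : Tst a) (j : Fin 3) :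
    Tst (AA Φ j a) := by
  rw [AA_eq]
  exact (h.dbar j).add (h.mulL (contDiff_const.mul (dbar_smooth (Ph_smooth hΦ) j)))

theorem Tst.AS {Φ : E3 → ℝ} (hΦ : ContDiff ℝ ∞ Φ) {a : E3 → ℂ} (h : Tst a) (j : Fin 3) :
    Tst (AS Φ j a) := by
  rw [AS_eq]
  exact (h.dz j).neg.add (h.mulL (contDiff_const.mul (dz_smooth (Ph_smooth hΦ) j)))

/-- integration by parts for the directional derivatives -/
theorem Dv_ibp {a b : E3 → ℂ} (ha : Tst a) (hb : Tst b) (w : E3) :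
    ∫ x, a x * Dv w b x = - ∫ x, Dv w a x * b x := by
  unfold Dv
  apply integral_mul_fderiv_eq_neg_fderiv_mul_of_integrable
  · exact hb.integrable' (Dv_smooth ha.sm w).continuous
  · exact ha.integrable (Dv_smooth hb.sm w).continuous
  · exact ha.integrable hb.sm.continuous
  · intro x _
    exact (smooth_diff ha.sm) x
  · intro x _
    exact (smooth_diff hb.sm) x

theorem Tst.Dv {a : E3 → ℂ} (h : Tst a) (w : E3) : Tst (Dv w a) :=
  ⟨Dv_smooth h.sm w, Dv_compact h.cp w⟩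

/-- integration by parts for `∂̄_j` -/
theorem dbar_ibp {a b : E3 → ℂ} (ha : Tst a) (hb : Tst b) (j : Fin 3) :
    ∫ x, dbar j a x * b x = - ∫ x, a x * dbar j b x := by
  have h1 : ∀ w, ∫ x, W833.Dv w a x * b x = - ∫ x, a x * W833.Dv w b x := by
    intro w
    rw [Dv_ibp ha hb w, neg_neg]
  have e1 : ∫ x, dbar j a x * b x = (1 / 2) * ((∫ x, W833.Dv (Pi.single j 1) a x * b x)
      + I * ∫ x, W833.Dv (Pi.single j I) a x * b x) := by
    rw [← integral_const_mul, ← integral_add, ← integral_const_mul]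
    · congr 1
      funext x
      rw [dbar_eq]
      ring
    · exact (ha.Dv _).integrable hb.sm.continuous
    · exact ((ha.Dv _).integrable hb.sm.continuous).const_mul I
  have e2 : ∫ x, a x * dbar j b x = (1 / 2) * ((∫ x, a x * W833.Dv (Pi.single j 1) b x)
      + I * ∫ x, a x * W833.Dv (Pi.single j I) b x) := by
    rw [← integral_const_mul, ← integral_add, ← integral_const_mul]
    · congr 1
      funext x
      rw [dbar_eq]
      ring
    · exact ha.integrable (hb.Dv _).sm.continuous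
    · exact (ha.integrable (hb.Dv _).sm.continuous).const_mul I
  rw [e1, e2, h1, h1]
  ring

/-- `A_j^*` is the formal adjoint of `A_j` -/
theorem AA_adj {Φ : E3 → ℝ} (hΦ : ContDiff ℝ ∞ Φ) {a b : E3 → ℂ} (ha : Tst a) (hb : Tst b)
    (j : Fin 3) : ∫ x, AA Φ j a x * conj (b x) = ∫ x, a x * conj (AS Φ j b x) := by
  have hP := dbar_smooth (Ph_smooth hΦ) j
  have h1 : ∀ x, AA Φ j a x * conj (b x) = dbar j a x * conj (b x)
      + a x * ((1 / 2) * dbar j (Ph Φ) x * conj (b x)) := by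
    intro x
    rw [AA_eq]
    ring
  have h2 : ∀ x, a x * conj (AS Φ j b x) = - (a x * dbar j (fun y => conj (b y)) x)
      + a x * ((1 / 2) * dbar j (Ph Φ) x * conj (b x)) := by
    intro x
    have h3 : (starRingEnd ℂ) (1 / 2 : ℂ) = 1 / 2 := by
      rw [map_div₀, map_one, map_ofNat]
    rw [AS_eq, dbar_conj hb.sm, map_add, map_neg, map_mul, map_mul, h3, ← dbar_Ph hΦ]
    ring
  have i1 : Integrable (fun x => a x * ((1 / 2) * dbar j (Ph Φ) x * conj (b x))) :=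
    ha.integrable ((continuous_const.mul hP.continuous).mul hb.conj.sm.continuous)
  have i2 : Integrable (fun x => dbar j a x * conj (b x)) :=
    (ha.dbar j).integrable hb.conj.sm.continuous
  have i3 : Integrable (fun x => a x * dbar j (fun y => conj (b y)) x) :=
    ha.integrable (hb.conj.dbar j).sm.continuous
  have i4 : Integrable (fun x => -(a x * dbar j (fun y => conj (b y)) x)) := i3.neg
  simp only [h1, h2]
  rw [integral_add i2 i1, integral_add i4 i1, integral_neg, dbar_ibp ha hb.conj j]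

theorem AS_adj {Φ : E3 → ℝ} (hΦ : ContDiff ℝ ∞ Φ) {a b : E3 → ℂ} (ha : Tst a) (hb : Tst b)
    (j : Fin 3) : ∫ x, AS Φ j a x * conj (b x) = ∫ x, a x * conj (AA Φ j b x) := by
  have h1 := congrArg (starRingEnd ℂ) (AA_adj hΦ hb ha j)
  rw [← integral_conj, ← integral_conj] at h1
  have h2 : ∀ x, (starRingEnd ℂ) (AA Φ j b x * (starRingEnd ℂ) (a x))
      = a x * conj (AA Φ j b x) := by
    intro x
    rw [map_mul, conj_conj, mul_comm]
  have h3 : ∀ x, (starRingEnd ℂ) (b x * (starRingEnd ℂ) (AS Φ j a x))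
      = AS Φ j a x * conj (b x) := by
    intro x
    rw [map_mul, conj_conj, mul_comm]
  simp only [h2, h3] at h1
  exact h1.symm

/-- the commutator of `A_k` and `A_j^*` -/
theorem AA_AS_comm {Φ : E3 → ℝ} (hΦ : ContDiff ℝ ∞ Φ) {v : E3 → ℂ} (hv : ContDiff ℝ ∞ v)
    (j k : Fin 3) (x : E3) :
    AA Φ k (AS Φ j v) x = AS Φ j (AA Φ k v) x + Hess Φ j k x * v x := by
  have hP := Ph_smooth hΦ
  have e1 : AS Φ j v = fun x => (-1) * (dz j v x + (-1 / 2) * (dz j (Ph Φ) x * v x)) := by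
    funext x; rw [AS_eq]; ring
  have e2 : AA Φ k v = fun x => 1 * (dbar k v x + (1 / 2) * (dbar k (Ph Φ) x * v x)) := by
    funext x; rw [AA_eq]; ring
  have s1 : ContDiff ℝ ∞ (fun x => dz j (Ph Φ) x * v x) := (dz_smooth hP j).mul hv
  have s2 : ContDiff ℝ ∞ (fun x => dbar k (Ph Φ) x * v x) := (dbar_smooth hP k).mul hv
  have h1 : dbar k (AS Φ j v) x = (-1) * (dbar k (dz j v) x + (-1 / 2) *
      (dbar k (dz j (Ph Φ)) x * v x + dz j (Ph Φ) x * dbar k v x)) := by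
    rw [e1, dbar_lin (dz_smooth hv j) s1, dbar_mul (dz_smooth hP j) hv]
  have h2 : dz j (AA Φ k v) x = 1 * (dz j (dbar k v) x + (1 / 2) *
      (dz j (dbar k (Ph Φ)) x * v x + dbar k (Ph Φ) x * dz j v x)) := by
    rw [e2, dz_lin (dbar_smooth hv k) s2, dz_mul (dbar_smooth hP k) hv]
  have h3 : AA Φ k (AS Φ j v) x
      = dbar k (AS Φ j v) x + (1 / 2) * dbar k (Ph Φ) x * AS Φ j v x := rfl
  have h4 : AS Φ j (AA Φ k v) x
      = - dz j (AA Φ k v) x + (1 / 2) * dz j (Ph Φ) x * AA Φ k v x := rfl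
  rw [h3, h4, h1, h2, e1, e2, dbar_dz_comm hv, dbar_dz_comm hP]
  unfold Hess
  ring

/-- the basic identity -/
theorem AS_AS {Φ : E3 → ℝ} (hΦ : ContDiff ℝ ∞ Φ) {v w : E3 → ℂ} (hv : Tst v) (hw : Tst w)
    (j k : Fin 3) : ∫ x, AS Φ j v x * conj (AS Φ k w x)
      = (∫ x, AA Φ k v x * conj (AA Φ j w x)) + ∫ x, Hess Φ j k x * v x * conj (w x) := by
  have hH : ContDiff ℝ ∞ (Hess Φ j k) := dz_smooth (dbar_smooth (Ph_smooth hΦ) k) j
  rw [← AA_adj hΦ (hv.AS hΦ j) hw k, ← AS_adj hΦ (hv.AA hΦ k) hw j, ← integral_add]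
  · congr 1
    funext x
    rw [AA_AS_comm hΦ hv.sm]
    ring
  · exact ((hv.AA hΦ k).AS hΦ j).integrable hw.conj.sm.continuous
  · exact (hv.mulL hH).integrable hw.conj.sm.continuous


theorem dbar_comm {v : E3 → ℂ} (hv : ContDiff ℝ ∞ v) (j k : Fin 3) (x : E3) :
    dbar k (dbar j v) x = dbar j (dbar k v) x := by
  have h1 : dbar k (dbar j v) x = (1 / 2) * (Dv (Pi.single k 1) (dbar j v) x
      + I * Dv (Pi.single k I) (dbar j v) x) := rfl
  have h2 : dbar j (dbar k v) x = (1 / 2) * (Dv (Pi.single j 1) (dbar k v) x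
      + I * Dv (Pi.single j I) (dbar k v) x) := rfl
  rw [h1, h2, dbar_eq, dbar_eq]
  rw [Dv_lin (Dv_smooth hv _) (Dv_smooth hv _), Dv_lin (Dv_smooth hv _) (Dv_smooth hv _),
    Dv_lin (Dv_smooth hv _) (Dv_smooth hv _), Dv_lin (Dv_smooth hv _) (Dv_smooth hv _)]
  rw [Dv_comm hv (Pi.single k 1) (Pi.single j 1), Dv_comm hv (Pi.single k 1) (Pi.single j I),
    Dv_comm hv (Pi.single k I) (Pi.single j 1), Dv_comm hv (Pi.single k I) (Pi.single j I)]
  ring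

theorem AT_eq (Φ : E3 → ℝ) (j : Fin 3) (v : E3 → ℂ) :
    AT' Φ j v = fun x => - dbar j v x + ((1 / 2) * dbar j (Ph Φ) x) * v x := rfl

theorem Tst.AT {Φ : E3 → ℝ} (hΦ : ContDiff ℝ ∞ Φ) {a : E3 → ℂ} (h : Tst a) (j : Fin 3) :
    Tst (AT' Φ j a) := by
  rw [AT_eq]
  exact (h.dbar j).neg.add (h.mulL (contDiff_const.mul (dbar_smooth (Ph_smooth hΦ) j)))

theorem AT_comm {Φ : E3 → ℝ} (hΦ : ContDiff ℝ ∞ Φ) {v : E3 → ℂ} (hv : ContDiff ℝ ∞ v)
    (j k : Fin 3) (x : E3) : AT' Φ j (AT' Φ k v) x = AT' Φ k (AT' Φ j v) x := by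
  have hP := Ph_smooth hΦ
  have e1 : ∀ l, AT' Φ l v = fun x => (-1) * (dbar l v x + (-1 / 2) * (dbar l (Ph Φ) x * v x)) := by
    intro l; funext x; rw [AT_eq]; ring
  have s1 : ∀ l, ContDiff ℝ ∞ (fun x => dbar l (Ph Φ) x * v x) :=
    fun l => (dbar_smooth hP l).mul hv
  have h1 : ∀ l l', dbar l (AT' Φ l' v) x = (-1) * (dbar l (dbar l' v) x + (-1 / 2) *
      (dbar l (dbar l' (Ph Φ)) x * v x + dbar l' (Ph Φ) x * dbar l v x)) := by
    intro l l'
    rw [e1, dbar_lin (dbar_smooth hv l') (s1 l'), dbar_mul (dbar_smooth hP l') hv]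
  have h3 : ∀ l l', AT' Φ l (AT' Φ l' v) x
      = - dbar l (AT' Φ l' v) x + (1 / 2) * dbar l (Ph Φ) x * AT' Φ l' v x := fun l l' => rfl
  rw [h3, h3, h1, h1, e1, e1, dbar_comm hv j k, dbar_comm hP j k]
  ring

/-- `A_j^t` is the transpose of `A_j` -/
theorem AT_adj {Φ : E3 → ℝ} (hΦ : ContDiff ℝ ∞ Φ) {a b : E3 → ℂ} (ha : Tst a) (hb : Tst b)
    (j : Fin 3) : ∫ x, AA Φ j a x * b x = ∫ x, a x * AT' Φ j b x := by
  have hP := dbar_smooth (Ph_smooth hΦ) j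
  have h1 : ∀ x, AA Φ j a x * b x = dbar j a x * b x
      + a x * ((1 / 2) * dbar j (Ph Φ) x * b x) := by
    intro x
    rw [AA_eq]
    ring
  have h2 : ∀ x, a x * AT' Φ j b x = - (a x * dbar j b x)
      + a x * ((1 / 2) * dbar j (Ph Φ) x * b x) := by
    intro x
    rw [AT_eq]
    ring
  have i1 : Integrable (fun x => a x * ((1 / 2) * dbar j (Ph Φ) x * b x)) :=
    ha.integrable ((continuous_const.mul hP.continuous).mul hb.sm.continuous)
  have i2 : Integrable (fun x => dbar j a x * b x) :=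
    (ha.dbar j).integrable hb.sm.continuous
  have i3 : Integrable (fun x => a x * dbar j b x) :=
    ha.integrable (hb.dbar j).sm.continuous
  have i4 : Integrable (fun x => -(a x * dbar j b x)) := i3.neg
  simp only [h1, h2]
  rw [integral_add i2 i1, integral_add i4 i1, integral_neg, dbar_ibp ha hb j]

theorem half_conj : (starRingEnd ℂ) (1 / 2 : ℂ) = 1 / 2 := by
  rw [map_div₀, map_one, map_ofNat]

/-- `conj (A_j (conj φ)) = ∂_j φ + ½ Φ_j φ` -/
theorem AA_conj {Φ : E3 → ℝ} (hΦ : ContDiff ℝ ∞ Φ) {a : E3 → ℂ} (ha : ContDiff ℝ ∞ a)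
    (j : Fin 3) (x : E3) :
    conj (AA Φ j (fun y => conj (a y)) x) = dz j a x + (1 / 2) * dz j (Ph Φ) x * a x := by
  rw [AA_eq]
  simp only [map_add, map_mul, half_conj, conj_conj]
  rw [dbar_conj ha, dbar_Ph hΦ, conj_conj, conj_conj]

/-- `conj (A_j^t (conj φ)) = - ∂_j φ + ½ Φ_j φ = A_j^* φ` -/
theorem AT_conj {Φ : E3 → ℝ} (hΦ : ContDiff ℝ ∞ Φ) {a : E3 → ℂ} (ha : ContDiff ℝ ∞ a)
    (j : Fin 3) (x : E3) :
    conj (AT' Φ j (fun y => conj (a y)) x) = AS Φ j a x := by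
  rw [AT_eq, AS_eq]
  simp only [map_add, map_mul, map_neg, half_conj, conj_conj]
  rw [dbar_conj ha, dbar_Ph hΦ, conj_conj, conj_conj]

/-- weights `e^{sΦ}` -/
noncomputable def Ew (Φ : E3 → ℝ) (s : ℝ) : E3 → ℂ := fun x => ((Real.exp (s * Φ x) : ℝ) : ℂ)

theorem Ew_smooth {Φ : E3 → ℝ} (hΦ : ContDiff ℝ ∞ Φ) (s : ℝ) : ContDiff ℝ ∞ (Ew Φ s) := by
  have h1 : ContDiff ℝ ∞ (fun x => Real.exp (s * Φ x)) := (contDiff_const.mul hΦ).exp
  exact Complex.ofRealCLM.contDiff.comp h1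

theorem Dv_Ew {Φ : E3 → ℝ} (hΦ : ContDiff ℝ ∞ Φ) (s : ℝ) (w x : E3) :
    Dv w (Ew Φ s) x = (s : ℂ) * Dv w (Ph Φ) x * Ew Φ s x := by
  unfold Dv
  have hd : HasFDerivAt Φ (fderiv ℝ Φ x) x := ((hΦ.differentiable (by norm_num)) x).hasFDerivAt
  have h1 : HasFDerivAt (Ph Φ) (Complex.ofRealCLM.comp (fderiv ℝ Φ x)) x :=
    Complex.ofRealCLM.hasFDerivAt.comp x hd
  have h2 : HasFDerivAt (fun x => Real.exp (s * Φ x))
      (Real.exp (s * Φ x) • (s • fderiv ℝ Φ x)) x := (hd.const_mul s).exp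
  have h3 : HasFDerivAt (Ew Φ s) (Complex.ofRealCLM.comp
      (Real.exp (s * Φ x) • (s • fderiv ℝ Φ x))) x :=
    Complex.ofRealCLM.hasFDerivAt.comp x h2
  rw [h1.fderiv, h3.fderiv]
  simp only [ContinuousLinearMap.comp_apply, Complex.ofRealCLM_apply, _root_.smul_apply,
    smul_eq_mul, Ew]
  push_cast
  ring

theorem dbar_Ew {Φ : E3 → ℝ} (hΦ : ContDiff ℝ ∞ Φ) (s : ℝ) (j : Fin 3) (x : E3) :
    dbar j (Ew Φ s) x = (s : ℂ) * dbar j (Ph Φ) x * Ew Φ s x := by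
  simp only [dbar_eq]
  rw [Dv_Ew hΦ, Dv_Ew hΦ]
  ring

theorem AA_Ew {Φ : E3 → ℝ} (hΦ : ContDiff ℝ ∞ Φ) {a : E3 → ℂ} (ha : ContDiff ℝ ∞ a) (j : Fin 3)
    (x : E3) : AA Φ j (fun y => Ew Φ (-1/2) y * a y) x = Ew Φ (-1/2) x * dbar j a x := by
  rw [AA_eq]
  simp only []
  rw [dbar_mul (Ew_smooth hΦ _) ha, dbar_Ew hΦ]
  push_cast
  ring

theorem AT_Ew {Φ : E3 → ℝ} (hΦ : ContDiff ℝ ∞ Φ) {a : E3 → ℂ} (ha : ContDiff ℝ ∞ a) (j : Fin 3)
    (x : E3) : AT' Φ j (fun y => Ew Φ (1/2) y * a y) x = - (Ew Φ (1/2) x * dbar j a x) := by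
  rw [AT_eq]
  simp only []
  rw [dbar_mul (Ew_smooth hΦ _) ha, dbar_Ew hΦ]
  push_cast
  ring

theorem Ew_mul (Φ : E3 → ℝ) (s t : ℝ) (x : E3) : Ew Φ s x * Ew Φ t x = Ew Φ (s + t) x := by
  unfold Ew
  rw [← Complex.ofReal_mul, ← Real.exp_add]
  congr 2
  ring

theorem Ew_zero (Φ : E3 → ℝ) (x : E3) : Ew Φ 0 x = 1 := by
  unfold Ew
  simp

theorem Ew_norm_sq (Φ : E3 → ℝ) (x : E3) : ‖Ew Φ (-1/2) x‖ ^ 2 = Real.exp (-Φ x) := by
  unfold Ew
  rw [Complex.norm_real, Real.norm_eq_abs, abs_of_pos (Real.exp_pos _), ← Real.exp_nat_mul]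
  congr 1
  push_cast
  ring

end W833
end DbarN.JWS1

namespace DbarN.JWS1
namespace W833

/-- `L²(ℂ³)` -/
noncomputable abbrev HH := Lp ℂ 2 (volume : Measure E3)
/-- triples -/
noncomputable abbrev H3 := PiLp 2 (fun _ : Fin 3 => HH)

theorem Tst.memLp {a : E3 → ℂ} (h : Tst a) : MemLp a 2 (volume : Measure E3) :=
  h.sm.continuous.memLp_of_hasCompactSupport h.cp

theorem inner_HH (f g : HH) : inner ℂ f g = ∫ x, g x * conj (f x) := by
  rw [L2.inner_def]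
  congr 1

open Classical in
/-- the functional `f ↦ ∫ f ψ` -/
noncomputable def ell (ψ : E3 → ℂ) : HH →L[ℂ] ℂ :=
  if h : MemLp (fun x => conj (ψ x)) 2 (volume : Measure E3) then innerSL ℂ (h.toLp _) else 0

theorem ell_apply {ψ : E3 → ℂ} (h : Tst ψ) (f : HH) : ell ψ f = ∫ x, f x * ψ x := by
  have h1 : MemLp (fun x => conj (ψ x)) 2 (volume : Measure E3) := h.conj.memLp
  unfold ell
  rw [dif_pos h1, innerSL_apply_apply, inner_HH]
  apply integral_congr_ae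
  filter_upwards [h1.coeFn_toLp] with x hx
  rw [hx, conj_conj]

theorem int_mul {f : E3 → ℂ} (hf : MemLp f 2 (volume : Measure E3)) {ψ : E3 → ℂ} (h : Tst ψ) :
    Integrable (fun x => f x * ψ x) :=
  MemLp.integrable_mul hf h.memLp

theorem int_mulH (f : HH) {ψ : E3 → ℂ} (h : Tst ψ) :
    Integrable (fun x => f x * ψ x) := int_mul (Lp.memLp f) h

theorem isTest_iff {φ : E3 → ℂ} : IsTest Set.univ φ ↔ Tst φ :=
  ⟨fun h => ⟨h.smooth, h.compact⟩, fun h => ⟨h.sm, h.cp, Set.subset_univ _⟩⟩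

/-- squared norm in `L²` -/
theorem norm_sq_HH (f : HH) : ‖f‖ ^ 2 = ∫ x, ‖f x‖ ^ 2 := by
  have h1 := inner_HH f f
  have h2 : (inner ℂ f f : ℂ) = ((‖f‖ ^ 2 : ℝ) : ℂ) := by
    rw [inner_self_eq_norm_sq_to_K]; push_cast; rfl
  rw [h2] at h1
  have h3 : ∀ x, f x * conj (f x) = ((‖f x‖ ^ 2 : ℝ) : ℂ) := by
    intro x
    rw [Complex.mul_conj, Complex.normSq_eq_norm_sq]
  simp only [h3] at h1
  have h4 : ∫ x, ((‖f x‖ ^ 2 : ℝ) : ℂ) = ((∫ x, ‖f x‖ ^ 2 : ℝ) : ℂ) := integral_ofReal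
  rw [h4] at h1
  exact_mod_cast h1

theorem norm_sq_toLp {f : E3 → ℂ} (hf : MemLp f 2 (volume : Measure E3)) :
    ‖hf.toLp f‖ ^ 2 = ∫ x, ‖f x‖ ^ 2 := by
  rw [norm_sq_HH]
  apply integral_congr_ae
  filter_upwards [hf.coeFn_toLp] with x hx
  rw [hx]

theorem norm_sq_H3 (f : H3) : ‖f‖ ^ 2 = ∑ j, ‖f j‖ ^ 2 := by
  rw [PiLp.norm_sq_eq_of_L2]

/-- limit lemma -/
theorem lim_sq {F : ℕ → E3 → ℂ} {f : E3 → ℂ} (hF : ∀ m, MemLp (F m) 2 (volume : Measure E3))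
    (hf : MemLp f 2 (volume : Measure E3))
    (h : ∀ m : ℕ, eLpNorm (F m - f) 2 volume < ENNReal.ofReal (1 / ((m : ℝ) + 1))) :
    Tendsto (fun m => ∫ x, ‖F m x‖ ^ 2) atTop (𝓝 (∫ x, ‖f x‖ ^ 2)) := by
  have h1 : Tendsto (fun m => (hF m).toLp (F m)) atTop (𝓝 (hf.toLp f)) := by
    rw [tendsto_iff_norm_sub_tendsto_zero]
    have h2 : ∀ m, ‖(hF m).toLp (F m) - hf.toLp f‖ ≤ 1 / ((m : ℝ) + 1) := by
      intro m
      rw [← MemLp.toLp_sub, Lp.norm_toLp]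
      have h3 := (h m).le
      have h4 := ENNReal.toReal_mono ENNReal.ofReal_ne_top h3
      rwa [ENNReal.toReal_ofReal (by positivity)] at h4
    exact squeeze_zero (fun m => norm_nonneg _) h2 tendsto_one_div_add_atTop_nhds_zero_nat
  have h5 := (h1.norm).pow 2
  simp only [norm_sq_toLp] at h5
  exact h5

/-- The graph of the (twisted, unweighted) maximal operator on functions. -/
noncomputable def TG (Φ : E3 → ℝ) : Submodule ℂ (HH × H3) where
  carrier := {p | ∀ (j : Fin 3) (φ : E3 → ℂ), Tst φ → ell (AT' Φ j φ) p.1 = ell φ (p.2 j)}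
  add_mem' := by
    intro a b ha hb j φ hφ
    have h1 := ha j φ hφ
    have h2 := hb j φ hφ
    simp only [Prod.fst_add, Prod.snd_add, PiLp.add_apply, map_add, h1, h2]
  zero_mem' := by
    intro j φ hφ
    simp
  smul_mem' := by
    intro c a ha j φ hφ
    have h1 := ha j φ hφ
    simp only [Prod.smul_fst, Prod.smul_snd, PiLp.smul_apply, map_smul, h1]

theorem TG_closed (Φ : E3 → ℝ) : IsClosed (TG Φ : Set (HH × H3)) := by
  have h1 : (TG Φ : Set (HH × H3)) = ⋂ (j : Fin 3), ⋂ (φ : E3 → ℂ), ⋂ (_ : Tst φ),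
      {p : HH × H3 | ell (AT' Φ j φ) p.1 = ell φ (p.2 j)} := by
    ext p
    simp only [Set.mem_iInter]
    rfl
  rw [h1]
  refine isClosed_iInter fun j => isClosed_iInter fun φ => isClosed_iInter fun _ => ?_
  apply isClosed_eq
  · exact (ell _).continuous.comp continuous_fst
  · refine (ell _).continuous.comp ?_
    exact (PiLp.continuous_apply 2 (fun _ : Fin 3 => HH) j).comp continuous_snd

/-- The graph of the (twisted, unweighted) maximal operator on `(0,1)`-forms. -/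
noncomputable def SG (Φ : E3 → ℝ) : Submodule ℂ (H3 × H3) where
  carrier := {p | ∀ (i : Fin 3) (φ : E3 → ℂ), Tst φ →
    ell (AT' Φ (i + 1) φ) (p.1 (i + 2)) - ell (AT' Φ (i + 2) φ) (p.1 (i + 1)) = ell φ (p.2 i)}
  add_mem' := by
    intro a b ha hb j φ hφ
    have h1 := ha j φ hφ
    have h2 := hb j φ hφ
    simp only [Prod.fst_add, Prod.snd_add, PiLp.add_apply, map_add, ← h1, ← h2]
    ring
  zero_mem' := by
    intro j φ hφ
    simp
  smul_mem' := by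
    intro c a ha j φ hφ
    have h1 := ha j φ hφ
    simp only [Prod.smul_fst, Prod.smul_snd, PiLp.smul_apply, map_smul, ← h1, smul_eq_mul]
    ring

theorem SG_closed (Φ : E3 → ℝ) : IsClosed (SG Φ : Set (H3 × H3)) := by
  have h1 : (SG Φ : Set (H3 × H3)) = ⋂ (i : Fin 3), ⋂ (φ : E3 → ℂ), ⋂ (_ : Tst φ),
      {p : H3 × H3 | ell (AT' Φ (i + 1) φ) (p.1 (i + 2)) - ell (AT' Φ (i + 2) φ) (p.1 (i + 1))
        = ell φ (p.2 i)} := by
    ext p
    simp only [Set.mem_iInter]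
    rfl
  rw [h1]
  refine isClosed_iInter fun j => isClosed_iInter fun φ => isClosed_iInter fun _ => ?_
  have hc : ∀ k : Fin 3, Continuous (fun v : H3 => v k) := fun k =>
    PiLp.continuous_apply 2 (fun _ : Fin 3 => HH) k
  apply isClosed_eq
  · exact ((ell _).continuous.comp ((hc _).comp continuous_fst)).sub
      ((ell _).continuous.comp ((hc _).comp continuous_fst))
  · exact (ell _).continuous.comp ((hc _).comp continuous_snd)

/-- `S T = 0` -/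
theorem ST_zero {Φ : E3 → ℝ} (hΦ : ContDiff ℝ ∞ Φ) (f : HH) (g : H3) (h : (f, g) ∈ TG Φ) :
    (g, (0 : H3)) ∈ SG Φ := by
  intro i φ hφ
  have h1 := h (i + 2) (AT' Φ (i + 1) φ) (hφ.AT hΦ _)
  have h2 := h (i + 1) (AT' Φ (i + 2) φ) (hφ.AT hΦ _)
  have h3 : AT' Φ (i + 2) (AT' Φ (i + 1) φ) = AT' Φ (i + 1) (AT' Φ (i + 2) φ) := by
    funext x
    exact AT_comm hΦ hφ.sm _ _ x
  rw [h3] at h1
  show ell (AT' Φ (i + 1) φ) (g (i + 2)) - ell (AT' Φ (i + 2) φ) (g (i + 1)) = ell φ ((0 : H3) i)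
  have h4 : ell (AT' Φ (i + 1) φ) (g (i + 2)) = ell (AT' Φ (i + 2) φ) (g (i + 1)) :=
    h1.symm.trans h2
  rw [h4, sub_self, PiLp.zero_apply, map_zero]

end W833
end DbarN.JWS1

namespace DbarN.JWS1
namespace W833

theorem inner_H3 (f g : H3) : inner ℂ f g = ∑ j, inner ℂ (f j) (g j) := by
  rw [PiLp.inner_apply]

/-- the pair `(ψ, (A_j ψ)_j)` is in the graph `T` -/
theorem test_mem_TG {Φ : E3 → ℝ} (hΦ : ContDiff ℝ ∞ Φ) {ψ : E3 → ℂ} (hψ : Tst ψ) :
    ((hψ.memLp.toLp ψ, WithLp.toLp 2 (fun j => (hψ.AA hΦ j).memLp.toLp (AA Φ j ψ))) : HH × H3)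
      ∈ TG Φ := by
  intro j φ hφ
  have h1 : ell (AT' Φ j φ) (hψ.memLp.toLp ψ) = ∫ x, ψ x * AT' Φ j φ x := by
    rw [ell_apply (hφ.AT hΦ j)]
    apply integral_congr_ae
    filter_upwards [hψ.memLp.coeFn_toLp] with x hx
    rw [hx]
  have h2 : ell φ ((hψ.AA hΦ j).memLp.toLp (AA Φ j ψ)) = ∫ x, AA Φ j ψ x * φ x := by
    rw [ell_apply hφ]
    apply integral_congr_ae
    filter_upwards [(hψ.AA hΦ j).memLp.coeFn_toLp] with x hx
    rw [hx]
  show ell (AT' Φ j φ) (hψ.memLp.toLp ψ) = ell φ ((hψ.AA hΦ j).memLp.toLp (AA Φ j ψ))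
  rw [h1, h2]
  exact (AT_adj hΦ hψ hφ j).symm

/-- adjoint relation in weak form -/
theorem adj_weak {Φ : E3 → ℝ} (hΦ : ContDiff ℝ ∞ Φ) {u : H3} {f : HH}
    (h : AdjR (TG Φ) u f) {φ : E3 → ℂ} (hφ : Tst φ) :
    ∫ x, ∑ j, u j x * (dz j φ x + (1 / 2) * dz j (Ph Φ) x * φ x) = ∫ x, f x * φ x := by
  have hψ : Tst (fun x => conj (φ x)) := hφ.conj
  have h1 := h _ (test_mem_TG hΦ hψ)
  rw [inner_H3, inner_HH] at h1
  have h2 : ∀ j, inner ℂ ((hψ.AA hΦ j).memLp.toLp (AA Φ j (fun x => conj (φ x)))) (u j)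
      = ∫ x, u j x * (dz j φ x + (1 / 2) * dz j (Ph Φ) x * φ x) := by
    intro j
    rw [inner_HH]
    apply integral_congr_ae
    filter_upwards [(hψ.AA hΦ j).memLp.coeFn_toLp] with x hx
    rw [hx, AA_conj hΦ hφ.sm]
  have h3 : ∫ x, f x * conj ((hψ.memLp.toLp (fun x => conj (φ x))) x) = ∫ x, f x * φ x := by
    apply integral_congr_ae
    filter_upwards [hψ.memLp.coeFn_toLp] with x hx
    rw [hx, conj_conj]
  rw [h3] at h1
  rw [← h1, integral_finsetSum]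
  · apply Finset.sum_congr rfl
    intro j _
    exact (h2 j).symm
  · intro j _
    have h4 : Tst (fun x => dz j φ x + ((1 / 2) * dz j (Ph Φ) x) * φ x) :=
      (hφ.dz j).add (hφ.mulL (contDiff_const.mul (dz_smooth (Ph_smooth hΦ) j)))
    exact int_mulH (u j) h4

/-- coefficients of the operator `Σ A_i^*` -/
def be1 : Fin 3 → Fin 3 → ℂ := fun i j => if i = j then -1 else 0

theorem adj_WPP {Φ : E3 → ℝ} (hΦ : ContDiff ℝ ∞ Φ) {u : H3} {f : HH}
    (h : AdjR (TG Φ) u f) :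
    WPP (fun _ _ => 0) be1 (fun i x => (1 / 2) * dz i (Ph Φ) x) (fun i x => u i x)
      (fun x => f x) := by
  intro φ hφ
  rw [← adj_weak hΦ h (isTest_iff.1 hφ)]
  congr 1
  funext x
  apply Finset.sum_congr rfl
  intro i _
  have h1 : ∑ j, ((0 : ℂ) * dbar j φ x + be1 i j * dz j φ x) = - dz i φ x := by
    rw [Finset.sum_eq_single i]
    · simp [be1]
    · intro b _ hb
      simp [be1, Ne.symm hb]
    · intro h; exact absurd (Finset.mem_univ _) h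
  rw [h1, neg_neg]

theorem PP_be1 (Φ : E3 → ℝ) (v : Fin 3 → E3 → ℂ) (x : E3) :
    PP (fun _ _ => 0) be1 (fun i x => (1 / 2) * dz i (Ph Φ) x) v x = ∑ i, AS Φ i (v i) x := by
  unfold PP
  apply Finset.sum_congr rfl
  intro i _
  have h1 : ∑ j, ((0 : ℂ) * dbar j (v i) x + be1 i j * dz j (v i) x) = - dz i (v i) x := by
    rw [Finset.sum_eq_single i]
    · simp [be1]
    · intro b _ hb
      simp [be1, Ne.symm hb]
    · intro h; exact absurd (Finset.mem_univ _) h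
  rw [h1]
  rfl

/-- coefficients of the curl components -/
def al2 (k : Fin 3) : Fin 3 → Fin 3 → ℂ := fun i j =>
  if i = k + 2 ∧ j = k + 1 then 1 else if i = k + 1 ∧ j = k + 2 then -1 else 0

noncomputable def z2 (Φ : E3 → ℝ) (k : Fin 3) : Fin 3 → E3 → ℂ := fun i x =>
  if i = k + 2 then (1 / 2) * dbar (k + 1) (Ph Φ) x
    else if i = k + 1 then - ((1 / 2) * dbar (k + 2) (Ph Φ) x) else 0

theorem z2_smooth {Φ : E3 → ℝ} (hΦ : ContDiff ℝ ∞ Φ) (k i : Fin 3) : ContDiff ℝ ∞ (z2 Φ k i) := by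
  have hP := Ph_smooth hΦ
  by_cases h1 : i = k + 2
  · have : z2 Φ k i = fun x => (1 / 2) * dbar (k + 1) (Ph Φ) x := by
      funext x; simp only [z2, if_pos h1]
    rw [this]
    exact contDiff_const.mul (dbar_smooth hP _)
  · by_cases h2 : i = k + 1
    · have : z2 Φ k i = fun x => - ((1 / 2) * dbar (k + 2) (Ph Φ) x) := by
        funext x; simp only [z2, if_neg h1, if_pos h2]
      rw [this]
      exact (contDiff_const.mul (dbar_smooth hP _)).neg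
    · have : z2 Φ k i = fun x => 0 := by
        funext x; simp only [z2, if_neg h1, if_neg h2]
      rw [this]
      exact contDiff_const

theorem PP_al2 (Φ : E3 → ℝ) (k : Fin 3) (v : Fin 3 → E3 → ℂ) (x : E3) :
    PP (al2 k) (fun _ _ => 0) (z2 Φ k) v x
      = AA Φ (k + 1) (v (k + 2)) x - AA Φ (k + 2) (v (k + 1)) x := by
  unfold PP
  fin_cases k
  · simp [Fin.sum_univ_three, al2, z2, AA]
    ring
  · simp [Fin.sum_univ_three, al2, z2, AA]
    ring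
  · simp [Fin.sum_univ_three, al2, z2, AA]
    ring

theorem S_WPP {Φ : E3 → ℝ} (hΦ : ContDiff ℝ ∞ Φ) {u ρ : H3} (h : (u, ρ) ∈ SG Φ) (k : Fin 3) :
    WPP (al2 k) (fun _ _ => 0) (z2 Φ k) (fun i x => u i x) (fun x => ρ k x) := by
  intro φ hφ
  have hφ' := isTest_iff.1 hφ
  have h1 := h k φ hφ'
  have h1' : ell (AT' Φ (k + 1) φ) (u (k + 2)) - ell (AT' Φ (k + 2) φ) (u (k + 1))
      = ell φ (ρ k) := h1
  rw [ell_apply (hφ'.AT hΦ _), ell_apply (hφ'.AT hΦ _), ell_apply hφ', ← integral_sub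
    (int_mulH _ (hφ'.AT hΦ _)) (int_mulH _ (hφ'.AT hΦ _))] at h1'
  rw [← h1']
  congr 1
  funext x
  fin_cases k
  · simp [Fin.sum_univ_three, al2, z2, AT']
    ring
  · simp [Fin.sum_univ_three, al2, z2, AT']
    ring
  · simp [Fin.sum_univ_three, al2, z2, AT']
    ring

/-- the a priori estimate -/
theorem apriori (hF : Friedrichs_stmt) (hK : Kohn1_stmt) {Φ : E3 → ℝ} (hΦ : ContDiff ℝ ∞ Φ)
    {c : ℝ} (hH : HPos1 Φ c) (u : H3) (f : HH) (ρ : H3) (h1 : AdjR (TG Φ) u f)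
    (h2 : (u, ρ) ∈ SG Φ) : c * ‖u‖ ^ 2 ≤ ‖f‖ ^ 2 + ‖ρ‖ ^ 2 := by
  obtain ⟨R, hR1, hR2, hR3⟩ := hF
  have hP := Ph_smooth hΦ
  have hu : ∀ j, MemLp (fun x => u j x) 2 (volume : Measure E3) := fun j => Lp.memLp (u j)
  have hf : MemLp (fun x => f x) 2 (volume : Measure E3) := Lp.memLp f
  have hρ : ∀ j, MemLp (fun x => ρ j x) 2 (volume : Measure E3) := fun j => Lp.memLp (ρ j)
  have hz1 : ∀ i, ContDiff ℝ ∞ (fun x => (1 / 2) * dz i (Ph Φ) x) := fun i =>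
    contDiff_const.mul (dz_smooth hP i)
  -- choice of the approximations
  have key : ∀ m : ℕ, ∃ ν n : ℕ,
      (∀ j, eLpNorm (R ν n (fun x => u j x) - fun x => u j x) 2 volume
        < ENNReal.ofReal (1 / ((m : ℝ) + 1))) ∧
      (eLpNorm (fun x => PP (fun _ _ => 0) be1 (fun i x => (1 / 2) * dz i (Ph Φ) x)
        (fun i => R ν n (fun x => u i x)) x - f x) 2 volume
        < ENNReal.ofReal (1 / ((m : ℝ) + 1))) ∧
      (∀ k, eLpNorm (fun x => PP (al2 k) (fun _ _ => 0) (z2 Φ k)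
        (fun i => R ν n (fun x => u i x)) x - ρ k x) 2 volume
        < ENNReal.ofReal (1 / ((m : ℝ) + 1))) := by
    intro m
    have hε : (0 : ℝ≥0∞) < ENNReal.ofReal (1 / ((m : ℝ) + 1)) := by
      rw [ENNReal.ofReal_pos]; positivity
    have e1 : ∀ᶠ ν in atTop, ∀ᶠ n in atTop, ∀ j,
        eLpNorm (R ν n (fun x => u j x) - fun x => u j x) 2 volume
        < ENNReal.ofReal (1 / ((m : ℝ) + 1)) := by
      have := fun j => hR2 (fun x => u j x) (hu j) _ hε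
      rw [← eventually_all] at this
      filter_upwards [this] with ν hν
      rw [eventually_all]
      exact hν
    have e2 := hR3 (fun _ _ => 0) be1 (fun i x => (1 / 2) * dz i (Ph Φ) x) (fun i x => u i x)
      (fun x => f x) hz1 hu hf (adj_WPP hΦ h1) _ hε
    have e3 : ∀ᶠ ν in atTop, ∀ᶠ n in atTop, ∀ k,
        eLpNorm (fun x => PP (al2 k) (fun _ _ => 0) (z2 Φ k)
        (fun i => R ν n (fun x => u i x)) x - ρ k x) 2 volume
        < ENNReal.ofReal (1 / ((m : ℝ) + 1)) := by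
      have := fun k => hR3 (al2 k) (fun _ _ => 0) (z2 Φ k) (fun i x => u i x)
        (fun x => ρ k x) (z2_smooth hΦ k) hu (hρ k) (S_WPP hΦ h2 k) _ hε
      rw [← eventually_all] at this
      filter_upwards [this] with ν hν
      rw [eventually_all]
      exact hν
    obtain ⟨ν, hν1, hν2, hν3⟩ := (e1.and (e2.and e3)).exists
    obtain ⟨n, hn1, hn2, hn3⟩ := (hν1.and (hν2.and hν3)).exists
    exact ⟨ν, n, hn1, hn2, hn3⟩
  choose ν n hk1 hk2 hk3 using key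
  set v : ℕ → Fin 3 → E3 → ℂ := fun m j => R (ν m) (n m) (fun x => u j x) with hv
  have hvt : ∀ m j, IsTest Set.univ (v m j) := fun m j => hR1 _ _ _ (hu j)
  have hvT : ∀ m j, Tst (v m j) := fun m j => isTest_iff.1 (hvt m j)
  have hAS : ∀ m, Tst (fun x => ∑ j, AS Φ j (v m j) x) := by
    intro m
    have e : (fun x => ∑ j, AS Φ j (v m j) x)
        = fun x => (AS Φ 0 (v m 0) x + AS Φ 1 (v m 1) x) + AS Φ 2 (v m 2) x := by
      funext x
      rw [Fin.sum_univ_three]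
    rw [e]
    exact (((hvT m 0).AS hΦ 0).add ((hvT m 1).AS hΦ 1)).add ((hvT m 2).AS hΦ 2)
  have hAA : ∀ m (k : Fin 3),
      Tst (fun x => AA Φ (k + 1) (v m (k + 2)) x - AA Φ (k + 2) (v m (k + 1)) x) := by
    intro m k
    have e : (fun x => AA Φ (k + 1) (v m (k + 2)) x - AA Φ (k + 2) (v m (k + 1)) x)
        = fun x => AA Φ (k + 1) (v m (k + 2)) x + -AA Φ (k + 2) (v m (k + 1)) x := by
      funext x
      ring
    rw [e]
    exact ((hvT m _).AA hΦ _).add ((hvT m _).AA hΦ _).neg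
  have L1 : ∀ j, Tendsto (fun m => ∫ x, ‖v m j x‖ ^ 2) atTop (𝓝 (∫ x, ‖u j x‖ ^ 2)) :=
    fun j => lim_sq (fun m => (hvT m j).memLp) (hu j) (fun m => hk1 m j)
  have L2' : Tendsto (fun m => ∫ x, ‖∑ j, AS Φ j (v m j) x‖ ^ 2) atTop (𝓝 (∫ x, ‖f x‖ ^ 2)) := by
    refine lim_sq (fun m => (hAS m).memLp) hf (fun m => ?_)
    have h3 := hk2 m
    have e : (fun x => PP (fun _ _ => 0) be1 (fun i x => (1 / 2) * dz i (Ph Φ) x)
        (fun i => R (ν m) (n m) (fun x => u i x)) x - f x)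
        = (fun x => ∑ j, AS Φ j (v m j) x) - fun x => f x := by
      funext x
      rw [PP_be1]
      rfl
    rw [e] at h3
    exact h3
  have L3 : ∀ k : Fin 3, Tendsto (fun m => ∫ x, ‖AA Φ (k + 1) (v m (k + 2)) x
      - AA Φ (k + 2) (v m (k + 1)) x‖ ^ 2) atTop (𝓝 (∫ x, ‖ρ k x‖ ^ 2)) := by
    intro k
    refine lim_sq (fun m => (hAA m k).memLp) (hρ k) (fun m => ?_)
    have h3 := hk3 m k
    have e : (fun x => PP (al2 k) (fun _ _ => 0) (z2 Φ k)
        (fun i => R (ν m) (n m) (fun x => u i x)) x - ρ k x)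
        = (fun x => AA Φ (k + 1) (v m (k + 2)) x - AA Φ (k + 2) (v m (k + 1)) x)
          - fun x => ρ k x := by
      funext x
      rw [PP_al2]
      rfl
    rw [e] at h3
    exact h3
  have hineq : ∀ m, c * ∑ j, ∫ x, ‖v m j x‖ ^ 2 ≤ (∫ x, ‖∑ j, AS Φ j (v m j) x‖ ^ 2) +
      ∑ i : Fin 3, ∫ x, ‖AA Φ (i + 1) (v m (i + 2)) x - AA Φ (i + 2) (v m (i + 1)) x‖ ^ 2 :=
    fun m => hK Φ hΦ c hH (v m) (hvt m)
  have hlim1 : Tendsto (fun m => c * ∑ j, ∫ x, ‖v m j x‖ ^ 2) atTop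
      (𝓝 (c * ∑ j, ∫ x, ‖u j x‖ ^ 2)) :=
    (tendsto_finsetSum _ (fun j _ => L1 j)).const_mul c
  have hlim2 : Tendsto (fun m => (∫ x, ‖∑ j, AS Φ j (v m j) x‖ ^ 2) +
      ∑ i : Fin 3, ∫ x, ‖AA Φ (i + 1) (v m (i + 2)) x - AA Φ (i + 2) (v m (i + 1)) x‖ ^ 2) atTop
      (𝓝 ((∫ x, ‖f x‖ ^ 2) + ∑ k, ∫ x, ‖ρ k x‖ ^ 2)) :=
    L2'.add (tendsto_finsetSum _ (fun k _ => L3 k))
  have hfin := le_of_tendsto_of_tendsto' hlim1 hlim2 hineq
  rw [norm_sq_H3, norm_sq_H3, norm_sq_HH]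
  simp only [norm_sq_HH]
  exact hfin

end W833
end DbarN.JWS1

namespace DbarN.JWS1
namespace W833

theorem exp_eq_Ew (Φ : E3 → ℝ) (x : E3) : ((Real.exp (-Φ x / 2) : ℝ) : ℂ) = Ew Φ (-1/2) x := by
  unfold Ew
  congr 2
  ring

theorem Ew_cancel (Φ : E3 → ℝ) (x : E3) : Ew Φ (1/2) x * Ew Φ (-1/2) x = 1 := by
  rw [Ew_mul]
  norm_num
  exact Ew_zero Φ x

theorem nsq_Ew (Φ : E3 → ℝ) (z : ℂ) (x : E3) :
    ‖Ew Φ (-1/2) x * z‖ ^ 2 = ‖z‖ ^ 2 * Real.exp (-Φ x) := by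
  rw [norm_mul, mul_pow, Ew_norm_sq, mul_comm]

theorem nsq_Ew' (Φ : E3 → ℝ) (z : ℂ) (x : E3) :
    ‖z * Ew Φ (1/2) x‖ ^ 2 * Real.exp (-Φ x) = ‖z‖ ^ 2 := by
  rw [← nsq_Ew]
  congr 2
  rw [mul_comm, mul_assoc, Ew_cancel, mul_one]

end W833

open W833

theorem ws1 (hF : Friedrichs_stmt) (hK : Kohn1_stmt) : WS1_stmt := by
  intro Φ hΦ c hc hH g hg
  have hgT : ∀ j, Tst (g j) := fun j => isTest_iff.1 (hg j)
  have hE := Ew_smooth hΦ (-1/2)
  have hE' := Ew_smooth hΦ (1/2)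
  -- the data
  have hG : ∀ j, Tst (fun x => Ew Φ (-1/2) x * g j x) := fun j => (hgT j).mulL hE
  have hcurl : ∀ i : Fin 3, Tst (fun x => dbar (i + 1) (g (i + 2)) x
      - dbar (i + 2) (g (i + 1)) x) := by
    intro i
    have e : (fun x => dbar (i + 1) (g (i + 2)) x - dbar (i + 2) (g (i + 1)) x)
        = fun x => dbar (i + 1) (g (i + 2)) x + - dbar (i + 2) (g (i + 1)) x := by
      funext x; ring
    rw [e]
    exact ((hgT _).dbar _).add ((hgT _).dbar _).neg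
  have hP : ∀ i : Fin 3, Tst (fun x => Ew Φ (-1/2) x * (dbar (i + 1) (g (i + 2)) x
      - dbar (i + 2) (g (i + 1)) x)) := fun i => (hcurl i).mulL hE
  set G : H3 := WithLp.toLp 2 (fun j => (hG j).memLp.toLp _) with hGdef
  set P : H3 := WithLp.toLp 2 (fun j => (hP j).memLp.toLp _) with hPdef
  have hGj : ∀ j, (G j : E3 → ℂ) =ᵐ[volume] fun x => Ew Φ (-1/2) x * g j x := fun j =>
    (hG j).memLp.coeFn_toLp
  have hPj : ∀ j, (P j : E3 → ℂ) =ᵐ[volume] fun x => Ew Φ (-1/2) x *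
      (dbar (j + 1) (g (j + 2)) x - dbar (j + 2) (g (j + 1)) x) := fun j =>
    (hP j).memLp.coeFn_toLp
  have hmem : (G, P) ∈ SG Φ := by
    intro i φ hφ
    show ell (AT' Φ (i + 1) φ) (G (i + 2)) - ell (AT' Φ (i + 2) φ) (G (i + 1)) = ell φ (P i)
    have h1 : ∀ j k, ell (AT' Φ j φ) (G k) = ∫ x, (Ew Φ (-1/2) x * dbar j (g k) x) * φ x := by
      intro j k
      rw [ell_apply (hφ.AT hΦ j)]
      have h2 : ∫ x, G k x * AT' Φ j φ x = ∫ x, (Ew Φ (-1/2) x * g k x) * AT' Φ j φ x := by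
        apply integral_congr_ae
        filter_upwards [hGj k] with x hx
        rw [hx]
      rw [h2, ← AT_adj hΦ (hG k) hφ j]
      congr 1
      funext x
      rw [AA_Ew hΦ (hgT k).sm]
    have h3 : ell φ (P i) = ∫ x, (Ew Φ (-1/2) x *
      (dbar (i + 1) (g (i + 2)) x - dbar (i + 2) (g (i + 1)) x)) * φ x := by
      rw [ell_apply hφ]
      apply integral_congr_ae
      filter_upwards [hPj i] with x hx
      rw [hx]
    rw [h1, h1, h3, ← integral_sub]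
    · congr 1
      funext x
      ring
    · exact (((hgT _).dbar _).mulL hE).integrable hφ.sm.continuous
    · exact (((hgT _).dbar _).mulL hE).integrable hφ.sm.continuous
  obtain ⟨f, g₁, hT, hn1, hn2⟩ := JA1.solve_of_apriori (TG Φ) (SG Φ) (SG_closed Φ)
    (fun f g h => JA0.biadj (TG Φ) (TG_closed Φ) f g h) (fun f g h => ST_zero hΦ f g h) c hc
    (fun u f ρ h1 h2 => apriori hF hK hΦ hH u f ρ h1 h2) G P hmem
  refine ⟨fun x => f x * Ew Φ (1/2) x, fun j x => (G j x - g₁ j x) * Ew Φ (1/2) x,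
    ?_, ?_, ?_, ?_, ?_⟩
  · have e : (fun x => f x * Ew Φ (1/2) x * ((Real.exp (-Φ x / 2) : ℝ) : ℂ)) = fun x => f x := by
      funext x
      rw [exp_eq_Ew, mul_assoc, Ew_cancel, mul_one]
    show MemLp (fun x => f x * Ew Φ (1/2) x * ((Real.exp (-Φ x / 2) : ℝ) : ℂ)) 2 volume
    rw [e]
    exact Lp.memLp f
  · intro j
    have e : (fun x => (G j x - g₁ j x) * Ew Φ (1/2) x * ((Real.exp (-Φ x / 2) : ℝ) : ℂ))
        = fun x => G j x - g₁ j x := by
      funext x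
      rw [exp_eq_Ew, mul_assoc, Ew_cancel, mul_one]
    show MemLp (fun x => (G j x - g₁ j x) * Ew Φ (1/2) x * ((Real.exp (-Φ x / 2) : ℝ) : ℂ)) 2 volume
    rw [e]
    exact (Lp.memLp (G j)).sub (Lp.memLp (g₁ j))
  · intro j φ hφ
    have hφ' := isTest_iff.1 hφ
    have hψ : Tst (fun x => Ew Φ (1/2) x * φ x) := hφ'.mulL hE'
    have h1 : ell (AT' Φ j (fun x => Ew Φ (1/2) x * φ x)) f
        = ell (fun x => Ew Φ (1/2) x * φ x) (g₁ j) := hT j _ hψ
    rw [ell_apply (hψ.AT hΦ j), ell_apply hψ] at h1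
    have h2 : ∫ x, f x * AT' Φ j (fun x => Ew Φ (1/2) x * φ x) x
        = - ∫ x, (f x * Ew Φ (1/2) x) * dbar j φ x := by
      rw [← integral_neg]
      congr 1
      funext x
      rw [AT_Ew hΦ hφ'.sm]
      ring
    have h3 : ∫ x, (g j x - (G j x - g₁ j x) * Ew Φ (1/2) x) * φ x
        = ∫ x, g₁ j x * (Ew Φ (1/2) x * φ x) := by
      apply integral_congr_ae
      filter_upwards [hGj j] with x hx
      rw [hx]
      have h4 := Ew_cancel Φ x
      linear_combination (-(g j x * φ x)) * h4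
    show ∫ x, (f x * Ew Φ (1/2) x) * dbar j φ x
      = - ∫ x, (g j x - (G j x - g₁ j x) * Ew Φ (1/2) x) * φ x
    rw [h3, ← h1, h2, neg_neg]
  · have e1 : ∫ x, ‖f x * Ew Φ (1/2) x‖ ^ 2 * Real.exp (-Φ x) = ‖f‖ ^ 2 := by
      rw [norm_sq_HH]
      congr 1
      funext x
      rw [nsq_Ew']
    have e2 : ∑ j, ∫ x, ‖g j x‖ ^ 2 * Real.exp (-Φ x) = ‖G‖ ^ 2 := by
      rw [norm_sq_H3]
      apply Finset.sum_congr rfl
      intro j _
      have : ‖G j‖ ^ 2 = ∫ x, ‖Ew Φ (-1/2) x * g j x‖ ^ 2 := norm_sq_toLp (hG j).memLp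
      rw [this]
      congr 1
      funext x
      rw [nsq_Ew]
    show c * ∫ x, ‖f x * Ew Φ (1/2) x‖ ^ 2 * Real.exp (-Φ x)
      ≤ ∑ j, ∫ x, ‖g j x‖ ^ 2 * Real.exp (-Φ x)
    rw [e1, e2]
    exact hn1
  · have e1 : ∑ j, ∫ x, ‖(G j x - g₁ j x) * Ew Φ (1/2) x‖ ^ 2 * Real.exp (-Φ x)
        = ‖G - g₁‖ ^ 2 := by
      rw [norm_sq_H3]
      apply Finset.sum_congr rfl
      intro j _
      rw [norm_sq_HH]
      apply integral_congr_ae
      have h5 : ((G - g₁) j : E3 → ℂ) =ᵐ[volume] fun x => G j x - g₁ j x :=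
        Lp.coeFn_sub (G j) (g₁ j)
      filter_upwards [h5] with x hx
      rw [nsq_Ew', hx]
    have e2 : ∑ i : Fin 3, ∫ x, ‖dbar (i + 1) (g (i + 2)) x - dbar (i + 2) (g (i + 1)) x‖ ^ 2 *
          Real.exp (-Φ x) = ‖P‖ ^ 2 := by
      rw [norm_sq_H3]
      apply Finset.sum_congr rfl
      intro j _
      have : ‖P j‖ ^ 2 = ∫ x, ‖Ew Φ (-1/2) x * (dbar (j + 1) (g (j + 2)) x
          - dbar (j + 2) (g (j + 1)) x)‖ ^ 2 := norm_sq_toLp (hP j).memLp
      rw [this]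
      congr 1
      funext x
      rw [nsq_Ew]
    show c * ∑ j, ∫ x, ‖(G j x - g₁ j x) * Ew Φ (1/2) x‖ ^ 2 * Real.exp (-Φ x) ≤ _
    rw [e1, e2]
    exact hn2

end DbarN.JWS1

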