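import Pool.Agent.H314.DN.Glue
import Pool.Agent.H314.DN.E1
import Pool.Agent.H314.DN.E2
import Pool.Agent.H314.DN.DL
import Pool.Agent.H314.DN.WS1
import Pool.Agent.H314.DN.WS2
import Pool.Agent.H314.DN.PF
import Pool.Agent.H314.DN.HE1
import Pool.Agent.H314.DN.HE2
import Pool.Agent.H314.DN.HS1
import Pool.Agent.H314.DN.HS2
import Pool.Agent.H314.DN.HO1
import Pool.Agent.H314.DN.HO2
import Pool.Agent.H314.DN.BL
import Pool.Agent.H314.DN.LC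
import Pool.Agent.H314.DN.LP
import Pool.Agent.H314.DN.HP
import Pool.Agent.H314.DN.AP
import Pool.Agent.H314.DN.PL
import Pool.Agent.H314.DN.NE
import Pool.Agent.H314.DN.D1
import Pool.Agent.H314.DN.D2
import Pool.Agent.H314.DN.D4
import Pool.Agent.H314.DN.D5
import Pool.Agent.H314.DN.PO
import Pool.Agent.H314.DN.T1
import Pool.Agent.H314.DN.T2
import Pool.Agent.H314.DN.T3
import Pool.Agent.H314.DN.N1
import Pool.Agent.H314.DN.N2
import Pool.Agent.H314.DN.MB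
import Pool.Agent.H314.DN.MO
import Pool.Agent.H314.DN.MD
import Pool.Agent.H314.DN.D3
import Pool.Agent.H314.DN.VY
import Pool.Agent.H314.DN.PD
import Pool.Agent.H314.DN.PS
import Pool.Agent.H314.DN.FD
import Pool.Agent.H314.DN.FI
import Pool.Agent.H314.DN.PM

set_option autoImplicit false

open MeasureTheory Complex Filter Topology
open scoped ContDiff InnerProductSpace ENNReal ComplexConjugate

namespace DbarN

theorem main_of (hMoll : Moll_stmt) (hModes : Modes_stmt)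
    (hConv : ∀ e k1 l1 : ℝ, ParOK e k1 l1 → Convex ℝ (Omega e k1 l1))
    (hPos : ∀ (C : ℝ), 1 ≤ C → PLC C → ∀ (e k1 l1 : ℝ), ParOK e k1 l1 →
      100 * (C + 1) * (lamStar + 1) ≤ l1 → k1 ≤ 1 / (1000 * (lamStar + 1)) →
      e ^ 2 * (10 ^ 6 * (lamStar + 1) ^ 2) ≤ lamStar → ∀ j k : ℕ, Mode_stmt e k1 l1 j k) :
    ∃ Ω : Set E3, Ω.Nonempty ∧ IsOpen Ω ∧ IsConnected Ω ∧ Bornology.IsBounded Ω ∧
      SmoothBoundary Ω ∧ Pseudoconvex Ω ∧ Convex ℝ Ω ∧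
      ∃ lam : ℝ, (lam : ℂ) ∈ spec Ω ∧ (∀ μ ∈ spec Ω, μ.im = 0 ∧ lam ≤ μ.re) ∧
        ¬ ∃ u : Form Ω, u ≠ 0 ∧ Box Ω u ((lam : ℂ) • u) := by
  -- Hörmander part
  have hF : Friedrichs_stmt := JDL.friedrichs
  have hW1 : WS1_stmt := JWS1.ws1 hF (fun Φ h c hc v hv => JE1.kohn1 Φ h c hc v hv)
  have hW2 : WS2_stmt := JWS2.ws2 hF (fun Φ h c hc v hv => JE2.kohn2 Φ h c hc v hv)
  have hS1 : HS1_stmt := JHS1.hs1 hW1 JPF.pfun (fun P h hc x a => JHE1.hess_convex P h hc x a)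
  have hS2 : HS2_stmt := JHS2.hs2 hW2 JPF.pfun (fun P h hc x a =>
    JHE2.hess_trace P x (fun a => JHE1.hess_convex P h hc x a) a)
  have hO1 : Hor1_stmt := JHO1.hor1 hS1 hMoll cl0
  have hO2 : Hor2_stmt := JHO2.hor2 hS2 hMoll cl1
  -- planar part
  have hLam : 0 < lamStar := JLP.lamStar_pos
  obtain ⟨C, hC1, hPLC⟩ : ∃ C : ℝ, 1 ≤ C ∧ PLC C :=
    PL_iff.1 (JPL.pl (JHP.hplane JLC.lamC2) JAP.apl)
  have hMem : Mem_stmt := JD1.mem_omega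
  have hDom : Dom_stmt := JD2.dom hMem
  -- parameters
  set L := lamStar with hLdef
  have hLp1 : 0 < L + 1 := by linarith
  let l1 : ℝ := 100 * (C + 1) * (L + 1)
  let k1 : ℝ := 1 / (1000 * (L + 1))
  let e : ℝ := Real.sqrt (L / (10 ^ 6 * (L + 1) ^ 2))
  have he2 : e ^ 2 = L / (10 ^ 6 * (L + 1) ^ 2) := Real.sq_sqrt (by positivity)
  have he0 : 0 < e := Real.sqrt_pos.2 (by positivity)
  have hesmall : e ^ 2 * (10 ^ 6 * (L + 1) ^ 2) ≤ L := by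
    rw [he2]
    rw [div_mul_cancel₀]
    positivity
  have heL : e ^ 2 * (L + 1) ≤ 1 / 10 ^ 6 := by
    rw [he2, div_mul_eq_mul_div, div_le_div_iff₀ (by positivity) (by norm_num)]
    nlinarith
  have he1 : e ≤ 1 := by
    have h1 : e ^ 2 ≤ 1 := by nlinarith [sq_nonneg e]
    nlinarith
  have hp : ParOK e k1 l1 := by
    refine ⟨he0, he1, by positivity, ?_, ?_⟩
    · show 1 / (1000 * (L + 1)) ≤ 1 / 100
      rw [div_le_div_iff₀ (by positivity) (by norm_num)]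
      nlinarith
    · show 100 ≤ 100 * (C + 1) * (L + 1)
      nlinarith
  obtain ⟨hOpen, h0mem, hBdd, hRot, hthin, hprod⟩ := hDom e k1 l1 hp
  have hCv := hConv e k1 l1 hp
  have hne : (Omega e k1 l1).Nonempty := ⟨0, h0mem⟩
  -- modes
  have hJ : ∀ j k : ℤ, Mode_stmt e k1 l1 j k := by
    intro j k
    by_cases h : j < 0 ∨ k < 0
    · exact JN2.neg_mode JN1.neg1 hMem hDom e k1 l1 hp (by nlinarith) j k h
    · push Not at h
      obtain ⟨j', rfl⟩ := Int.eq_ofNat_of_zero_le h.1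
      obtain ⟨k', rfl⟩ := Int.eq_ofNat_of_zero_le h.2
      exact hPos C hC1 hPLC e k1 l1 hp le_rfl le_rfl hesmall j' k'
  have hNo : NoEig_stmt e k1 l1 :=
    JNE.noeig hModes hMoll e k1 l1 hp hCv hOpen hBdd h0mem hRot hJ
  have hTest : Test_stmt := JT1.test hDom (JT2.ts2 hMem (JPO.pol hMem)) (JT3.ts3 hDom)
  refine ⟨Omega e k1 l1, hne, hOpen, ⟨hne, hCv.isPreconnected⟩, hBdd,
    JD4.omega_smooth hMem hDom e k1 l1 hp, JD5.convex_pseudoconvex _ hOpen hCv hBdd hne, hCv, ?_⟩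
  refine abstract_part (Omega e k1 l1) hOpen L hLam.le hNo (hTest e k1 l1 hp) ?_ ?_
  · intro c hc
    obtain ⟨v, hv, hvn⟩ := hO2 (Omega e k1 l1) hOpen hCv hBdd h0mem (2 * e) (by linarith) hthin c hc
    refine ⟨v, hv, ?_⟩
    have h1 : (L + 1) * ‖v‖ ^ 2 ≤ (L + 1) * (8 * (2 * e) ^ 2 * ‖c‖ ^ 2) :=
      mul_le_mul_of_nonneg_left hvn hLp1.le
    have h2 : (L + 1) * (8 * (2 * e) ^ 2 * ‖c‖ ^ 2) = 32 * (e ^ 2 * (L + 1)) * ‖c‖ ^ 2 := by ring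
    have h3 : 32 * (e ^ 2 * (L + 1)) ≤ 1 := by linarith
    calc (L + 1) * ‖v‖ ^ 2 ≤ 32 * (e ^ 2 * (L + 1)) * ‖c‖ ^ 2 := by rw [← h2]; exact h1
      _ ≤ 1 * ‖c‖ ^ 2 := mul_le_mul_of_nonneg_right h3 (sq_nonneg _)
      _ = ‖c‖ ^ 2 := one_mul _
  · intro u hu
    exact hO1 (Omega e k1 l1) hOpen hCv hBdd h0mem u hu

theorem main : ∃ Ω : Set E3, Ω.Nonempty ∧ IsOpen Ω ∧ IsConnected Ω ∧ Bornology.IsBounded Ω ∧
      SmoothBoundary Ω ∧ Pseudoconvex Ω ∧ Convex ℝ Ω ∧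
      ∃ lam : ℝ, (lam : ℂ) ∈ spec Ω ∧ (∀ μ ∈ spec Ω, μ.im = 0 ∧ lam ≤ μ.re) ∧
        ¬ ∃ u : Form Ω, u ≠ 0 ∧ Box Ω u ((lam : ℂ) • u) := by
  have hPW : PW_stmt := pw_all
  have hBL : BL_stmt := JBL.bl
  have hV : VarY_stmt := JVY.varY hBL hPW
  have hPsi : Psi_stmt := JPS.psi_all hPW hV JPD.psiD
  have hFib : Fib_stmt := JFI.fib hBL hPW hV JFD.fibD
  have hMem : Mem_stmt := JD1.mem_omega
  exact main_of JMO.moll JMD.modes (fun e k1 l1 hp => JD3.omega_convex hMem e k1 l1 hp)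
    (fun C hC hPL e k1 l1 hp hl hk he j k => JPM.pos_mode C hC hPL (JPO.pol hMem) hPsi JMB.mb hFib
      JLP.lamStar_pos hMem (JD2.dom hMem) e k1 l1 hp hl hk he j k)

end DbarN
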