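import Mathlib
import Pool.Agent.H314.DN.AbsDefs

set_option autoImplicit false

namespace DbarN.JA2

section
variable {H0 H1 H2 : Type*} [NormedAddCommGroup H0] [InnerProductSpace ℂ H0] [CompleteSpace H0]
  [NormedAddCommGroup H1] [InnerProductSpace ℂ H1] [CompleteSpace H1]
  [NormedAddCommGroup H2] [InnerProductSpace ℂ H2] [CompleteSpace H2]



theorem resolvent (T : Submodule ℂ (H0 × H1)) (S : Submodule ℂ (H1 × H2))
    (hTc : IsClosed (T : Set (H0 × H1))) (hSc : IsClosed (S : Set (H1 × H2)))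
    (hbT : ∀ (f : H0) (g : H1), (∀ u f', AdjR T u f' → inner ℂ u g = inner ℂ f' f) → (f, g) ∈ T)
    (hST : ∀ f g, (f, g) ∈ T → (g, (0 : H2)) ∈ S) :
    ∃ R : H1 →L[ℂ] H1, ∀ v, BoxR T S (R v) (v - R v) := by
  have hAdd : ∀ u f u' f', AdjR T u f → AdjR T u' f' → AdjR T (u + u') (f + f') := by
    intro u f u' f' h h' p hp
    rw [inner_add_right, inner_add_right, h p hp, h' p hp]
  have hSub : ∀ u f u' f', AdjR T u f → AdjR T u' f' → AdjR T (u - u') (f - f') := by
    intro u f u' f' h h' p hp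
    rw [inner_sub_right, inner_sub_right, h p hp, h' p hp]
  have hSmul : ∀ (c : ℂ) u f, AdjR T u f → AdjR T (c • u) (c • f) := by
    intro c u f h p hp
    rw [inner_smul_right, inner_smul_right, h p hp]
  let D : Submodule ℂ (WithLp 2 (H1 × WithLp 2 (H0 × H2))) :=
    { carrier := {x | AdjR T x.fst x.snd.fst ∧ (x.fst, x.snd.snd) ∈ S}
      add_mem' := by
        intro x y hx hy
        exact ⟨hAdd _ _ _ _ hx.1 hy.1, S.add_mem hx.2 hy.2⟩
      zero_mem' := by
        refine ⟨?_, S.zero_mem⟩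
        intro p hp
        show inner ℂ p.2 (0 : H1) = inner ℂ p.1 (0 : H0)
        rw [inner_zero_right, inner_zero_right]
      smul_mem' := by
        intro c x hx
        exact ⟨hSmul c _ _ hx.1, S.smul_mem c hx.2⟩ }
  have c1 : Continuous (fun x : WithLp 2 (H1 × WithLp 2 (H0 × H2)) => x.fst) :=
    (WithLp.fstL 2 ℂ H1 (WithLp 2 (H0 × H2))).continuous
  have c2 : Continuous (fun x : WithLp 2 (H1 × WithLp 2 (H0 × H2)) => x.snd) :=
    (WithLp.sndL 2 ℂ H1 (WithLp 2 (H0 × H2))).continuous
  have c3 : Continuous (fun x : WithLp 2 (H1 × WithLp 2 (H0 × H2)) => x.snd.fst) :=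
    (WithLp.fstL 2 ℂ H0 H2).continuous.comp c2
  have c4 : Continuous (fun x : WithLp 2 (H1 × WithLp 2 (H0 × H2)) => x.snd.snd) :=
    (WithLp.sndL 2 ℂ H0 H2).continuous.comp c2
  have hDc : IsClosed (D : Set (WithLp 2 (H1 × WithLp 2 (H0 × H2)))) := by
    refine IsClosed.inter (s₁ := {x | AdjR T x.fst x.snd.fst}) ?_ (hSc.preimage (c1.prodMk c4))
    have : {x : WithLp 2 (H1 × WithLp 2 (H0 × H2)) | AdjR T x.fst x.snd.fst}
        = ⋂ p ∈ T, {x | inner ℂ p.2 x.fst = inner ℂ p.1 x.snd.fst} := by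
      ext x
      simp only [Set.mem_setOf_eq, Set.mem_iInter]
      rfl
    rw [this]
    refine isClosed_iInter fun p => isClosed_iInter fun hp => isClosed_eq ?_ ?_
    · exact continuous_const.inner c1
    · exact continuous_const.inner c3
  haveI : CompleteSpace D := hDc.completeSpace_coe
  let K : Submodule ℂ H1 := S.comap (LinearMap.inl ℂ H1 H2)
  have hKm : ∀ w, w ∈ K ↔ (w, (0 : H2)) ∈ S := fun w => Iff.rfl
  have hKc : IsClosed (K : Set H1) := by
    have : Continuous (fun w : H1 => (w, (0 : H2))) := continuous_id.prodMk continuous_const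
    exact hSc.preimage this
  haveI : CompleteSpace K := hKc.completeSpace_coe
  let J : H1 →L[ℂ] WithLp 2 (H1 × WithLp 2 (H0 × H2)) :=
    ((WithLp.prodContinuousLinearEquiv 2 ℂ H1 (WithLp 2 (H0 × H2))).symm.toContinuousLinearMap).comp
      (ContinuousLinearMap.inl ℂ H1 (WithLp 2 (H0 × H2)))
  let R : H1 →L[ℂ] H1 :=
    (WithLp.fstL 2 ℂ H1 (WithLp 2 (H0 × H2))).comp (D.starProjection.comp J)
  refine ⟨R, fun v => ?_⟩
  set x := D.starProjection (J v) with hx
  have hxD : x ∈ D := D.starProjection_apply_mem (J v)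
  have hR : R v = x.fst := rfl
  rw [hR]
  set u := x.fst with hu
  set f := x.snd.fst with hf
  set c := x.snd.snd with hc
  have hmain : ∀ (w : H1) (f' : H0) (c' : H2), AdjR T w f' → (w, c') ∈ S →
      inner ℂ w (v - u) = inner ℂ f' f + inner ℂ c' c := by
    intro w f' c' hw hwS
    let y : WithLp 2 (H1 × WithLp 2 (H0 × H2)) := WithLp.toLp 2 (w, WithLp.toLp 2 (f', c'))
    have hy : y ∈ D := ⟨hw, hwS⟩
    have h1 : inner ℂ (J v - x) y = 0 := Submodule.starProjection_inner_eq_zero (J v) y hy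
    rw [inner_eq_zero_symm, WithLp.prod_inner_apply, WithLp.prod_inner_apply] at h1
    have h2 : inner ℂ w (v - u) + (inner ℂ f' (0 - f) + inner ℂ c' (0 - c)) = 0 := h1
    rw [zero_sub, zero_sub, inner_neg_right, inner_neg_right] at h2
    linear_combination h2
  have hTK : ∀ w : H1, AdjR T (w - K.starProjection w) 0 := by
    intro w p hp
    rw [inner_zero_right, inner_eq_zero_symm]
    exact Submodule.starProjection_inner_eq_zero w p.2 ((hKm p.2).2 (hST p.1 p.2 hp))
  have hPK : ∀ w : H1, (K.starProjection w, (0 : H2)) ∈ S := fun w =>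
    (hKm _).1 (K.starProjection_apply_mem w)
  refine ⟨f, c, K.starProjection (v - u), (v - u) - K.starProjection (v - u), hxD.1, hxD.2, ?_, ?_,
    by abel⟩
  · apply hbT
    intro w f' hw
    have h1 : AdjR T (K.starProjection w) f' := by
      have := hSub _ _ _ _ hw (hTK w)
      rwa [sub_zero, sub_sub_cancel] at this
    have h2 := hmain _ _ _ h1 (hPK w)
    rw [inner_zero_left, add_zero] at h2
    rw [← Submodule.inner_starProjection_left_eq_right, h2]
  · rintro ⟨w, c'⟩ hp
    show inner ℂ c' c = inner ℂ w (v - u - K.starProjection (v - u))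
    have h1 : (w - K.starProjection w, c') ∈ S := by
      have := S.sub_mem hp (hPK w)
      simpa using this
    have h2 := hmain _ _ _ (hTK w) h1
    rw [inner_zero_left, zero_add] at h2
    rw [← h2, inner_sub_left, inner_sub_right w (v - u), Submodule.inner_starProjection_left_eq_right]

end

end DbarN.JA2
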