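import Mathlib
import Pool.Agent.H314.DN.AbsDefs

set_option autoImplicit false

namespace DbarN.JA3

section
variable {H0 H1 H2 : Type*} [NormedAddCommGroup H0] [InnerProductSpace ℂ H0] [CompleteSpace H0]
  [NormedAddCommGroup H1] [InnerProductSpace ℂ H1] [CompleteSpace H1]
  [NormedAddCommGroup H2] [InnerProductSpace ℂ H2] [CompleteSpace H2]



theorem A3_adj_sub {T : Submodule ℂ (H0 × H1)} {u u' : H1} {f f' : H0} (h : AdjR T u f)
    (h' : AdjR T u' f') : AdjR T (u - u') (f - f') := by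
  intro p hp
  rw [inner_sub_right, inner_sub_right, h p hp, h' p hp]

theorem A3_box_sub {T : Submodule ℂ (H0 × H1)} {S : Submodule ℂ (H1 × H2)} {u u' w w' : H1}
    (h : BoxR T S u w) (h' : BoxR T S u' w') : BoxR T S (u - u') (w - w') := by
  obtain ⟨f, c, g1, g2, a1, a2, a3, a4, rfl⟩ := h
  obtain ⟨f', c', g1', g2', b1, b2, b3, b4, rfl⟩ := h'
  exact ⟨f - f', c - c', g1 - g1', g2 - g2', A3_adj_sub a1 b1, S.sub_mem a2 b2,
    T.sub_mem a3 b3, A3_adj_sub a4 b4, by abel⟩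

theorem A3_key {T : Submodule ℂ (H0 × H1)} {S : Submodule ℂ (H1 × H2)} {w' : H1} {f' : H0}
    {c' : H2} (h1 : AdjR T w' f') (h2 : (w', c') ∈ S) {f : H0} {c : H2} {g1 g2 : H1}
    (hc : (f, g1) ∈ T) (hd : AdjR S c g2) :
    inner ℂ w' (g1 + g2) = inner ℂ f' f + inner ℂ c' c := by
  have e1 : inner ℂ g1 w' = inner ℂ f f' := h1 _ hc
  have e2 : inner ℂ c' c = inner ℂ w' g2 := hd _ h2
  have e3 : inner ℂ w' g1 = inner ℂ f' f := by
    rw [← inner_conj_symm w' g1, e1, inner_conj_symm]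
  rw [inner_add_right, e3, e2]

theorem A3_uniq {T : Submodule ℂ (H0 × H1)} {S : Submodule ℂ (H1 × H2)}
    {R : H1 →L[ℂ] H1} (hR : ∀ v, BoxR T S (R v) (v - R v)) {u w : H1} (h : BoxR T S u w) :
    R (w + u) = u := by
  have h1 := A3_box_sub h (hR (w + u))
  obtain ⟨f, c, g1, g2, a1, a2, a3, a4, e⟩ := h1
  have k := A3_key a1 a2 a3 a4
  rw [← e] at k
  have e' : w - (w + u - R (w + u)) = -(u - R (w + u)) := by abel
  rw [e', inner_neg_right, inner_self_eq_norm_sq_to_K, inner_self_eq_norm_sq_to_K,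
    inner_self_eq_norm_sq_to_K] at k
  have k' : -(‖u - R (w + u)‖ ^ 2) = ‖f‖ ^ 2 + ‖c‖ ^ 2 := by
    have := congrArg Complex.re k
    norm_cast at this
  have h2 : ‖u - R (w + u)‖ ^ 2 ≤ 0 := by nlinarith [sq_nonneg ‖f‖, sq_nonneg ‖c‖]
  have h3 : ‖u - R (w + u)‖ = 0 := by
    have := sq_nonneg ‖u - R (w + u)‖
    exact pow_eq_zero_iff (two_ne_zero) |>.1 (le_antisymm h2 this)
  exact (sub_eq_zero.1 (norm_eq_zero.1 h3)).symm

/-- Cauchy–Schwarz for three terms -/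
theorem A3_cs (a b c f g h : ℝ) :
    (a * f + b * g + c * h) ^ 2 ≤ (a ^ 2 + b ^ 2 + c ^ 2) * (f ^ 2 + g ^ 2 + h ^ 2) := by
  nlinarith [sq_nonneg (a * g - b * f), sq_nonneg (a * h - c * f), sq_nonneg (b * h - c * g)]

/-- invertibility of `1 - κ R` out of the resolvent -/
theorem A3_unit {R B : H1 →L[ℂ] H1} (κ : ℂ) (e1 : R * (1 + κ • B) = B)
    (e2 : B * (1 - κ • R) = R) : IsUnit (1 - κ • R) := by
  refine ⟨⟨1 - κ • R, 1 + κ • B, ?_, ?_⟩, rfl⟩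
  · rw [sub_mul, one_mul, smul_mul_assoc, e1]; abel
  · rw [add_mul, one_mul, smul_mul_assoc, e2]; abel

/-- spectral part: `□ + 1` onto with bounded `R`; `Q` the infimum of the form. -/
theorem spec_of_resolvent (T : Submodule ℂ (H0 × H1)) (S : Submodule ℂ (H1 × H2))
    (hTc : IsClosed (T : Set (H0 × H1))) (hSc : IsClosed (S : Set (H1 × H2)))
    (hT0 : ∀ g, ((0 : H0), g) ∈ T → g = 0) (hS0 : ∀ g, ((0 : H1), g) ∈ S → g = 0)
    (hTd : Dense {f : H0 | ∃ g, (f, g) ∈ T}) (hSd : Dense {u : H1 | ∃ c, (u, c) ∈ S})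
    (hST : ∀ f g, (f, g) ∈ T → (g, (0 : H2)) ∈ S)
    (R : H1 →L[ℂ] H1) (hR : ∀ v, BoxR T S (R v) (v - R v))
    (L : ℝ) (hL : 0 ≤ L)
    (hlow : ∀ m' : ℝ, L < m' → ∃ u f ρ, AdjR T u f ∧ (u, ρ) ∈ S ∧ ‖f‖ ^ 2 + ‖ρ‖ ^ 2 < m' * ‖u‖ ^ 2) :
    ∃ lam : ℝ, 0 ≤ lam ∧ lam ≤ L ∧ (lam : ℂ) ∈ specR (BoxR T S) ∧
      (∀ μ ∈ specR (BoxR T S), μ.im = 0 ∧ lam ≤ μ.re) := by
  choose F C G1 G2 hF hC hT hS hE using hR
  have hR : ∀ v, BoxR T S (R v) (v - R v) := fun v =>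
    ⟨F v, C v, G1 v, G2 v, hF v, hC v, hT v, hS v, hE v⟩
  have F2 : ∀ (w' : H1) (f' : H0) (c' : H2), AdjR T w' f' → (w', c') ∈ S → ∀ v : H1,
      inner ℂ w' v = inner ℂ f' (F v) + inner ℂ c' (C v) + inner ℂ w' (R v) := by
    intro w' f' c' h1 h2 v
    have := A3_key h1 h2 (hT v) (hS v)
    rw [← hE v, inner_sub_right] at this
    linear_combination this
  have hsymm : ∀ x y : H1, inner ℂ (R x) y = inner ℂ x (R y) := by
    intro x y
    have h1 := F2 (R x) (F x) (C x) (hF x) (hC x) y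
    have h2 := F2 (R y) (F y) (C y) (hF y) (hC y) x
    rw [h1, ← inner_conj_symm x (R y), h2, map_add, map_add, inner_conj_symm, inner_conj_symm,
      inner_conj_symm]
  have henergy : ∀ v, (inner ℂ (R v) v : ℂ) = ((‖F v‖ ^ 2 + ‖C v‖ ^ 2 + ‖R v‖ ^ 2 : ℝ) : ℂ) := by
    intro v
    rw [F2 (R v) (F v) (C v) (hF v) (hC v) v, inner_self_eq_norm_sq_to_K,
      inner_self_eq_norm_sq_to_K, inner_self_eq_norm_sq_to_K]
    norm_cast
  have hpos : R.IsPositive := by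
    rw [ContinuousLinearMap.isPositive_def]
    refine ⟨fun x y => hsymm x y, fun x => ?_⟩
    rw [ContinuousLinearMap.reApplyInnerSelf_apply, henergy x]
    simp only [RCLike.re_to_complex, Complex.ofReal_re]
    positivity
  have hle : ∀ v, ‖F v‖ ^ 2 + ‖C v‖ ^ 2 + ‖R v‖ ^ 2 ≤ ‖R v‖ * ‖v‖ := by
    intro v
    have h1 := norm_inner_le_norm (𝕜 := ℂ) (R v) v
    rw [henergy v, Complex.norm_real, Real.norm_of_nonneg (by positivity)] at h1
    exact h1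
  have hR1 : ‖R‖ ≤ 1 := by
    refine ContinuousLinearMap.opNorm_le_bound _ zero_le_one fun v => ?_
    rw [one_mul]
    have h1 := hle v
    by_contra hcon
    push Not at hcon
    have h2 := norm_nonneg v
    nlinarith [sq_nonneg ‖F v‖, sq_nonneg ‖C v‖]
  have G : ∀ (u : H1) (f' : H0) (c' : H2), AdjR T u f' → (u, c') ∈ S →
      ‖u‖ ^ 2 ≤ ‖R‖ * (‖u‖ ^ 2 + (‖f'‖ ^ 2 + ‖c'‖ ^ 2)) := by
    intro u f' c' h1 h2
    have e := F2 u f' c' h1 h2 u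
    have e1 : ‖u‖ ^ 2 ≤ ‖f'‖ * ‖F u‖ + ‖c'‖ * ‖C u‖ + ‖u‖ * ‖R u‖ := by
      have e2 : ‖(inner ℂ u u : ℂ)‖ = ‖u‖ ^ 2 := by
        rw [inner_self_eq_norm_sq_to_K]
        simp
      rw [← e2, e]
      refine (norm_add_le _ _).trans (add_le_add ((norm_add_le _ _).trans (add_le_add ?_ ?_)) ?_)
      · exact norm_inner_le_norm _ _
      · exact norm_inner_le_norm _ _
      · exact norm_inner_le_norm _ _
    have e3 := A3_cs ‖f'‖ ‖c'‖ ‖u‖ ‖F u‖ ‖C u‖ ‖R u‖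
    have e4 : ‖F u‖ ^ 2 + ‖C u‖ ^ 2 + ‖R u‖ ^ 2 ≤ ‖R‖ * ‖u‖ ^ 2 := by
      have h3 := hle u
      have h4 := R.le_opNorm u
      have h5 := norm_nonneg u
      nlinarith
    have hA : 0 ≤ ‖f'‖ ^ 2 + ‖c'‖ ^ 2 + ‖u‖ ^ 2 := by positivity
    have e5 : (‖u‖ ^ 2) ^ 2 ≤ (‖f'‖ ^ 2 + ‖c'‖ ^ 2 + ‖u‖ ^ 2) * (‖R‖ * ‖u‖ ^ 2) := by
      calc (‖u‖ ^ 2) ^ 2 ≤ (‖f'‖ * ‖F u‖ + ‖c'‖ * ‖C u‖ + ‖u‖ * ‖R u‖) ^ 2 :=
            pow_le_pow_left₀ (by positivity) e1 2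
        _ ≤ _ := e3
        _ ≤ _ := mul_le_mul_of_nonneg_left e4 hA
    by_cases hu : ‖u‖ = 0
    · rw [hu]
      have := norm_nonneg R
      simp only [ne_eq, OfNat.ofNat_ne_zero, not_false_eq_true, zero_pow, zero_add]
      positivity
    · have hu' : 0 < ‖u‖ ^ 2 := by positivity
      have e6 : ‖u‖ ^ 2 * ‖u‖ ^ 2 ≤ (‖R‖ * (‖u‖ ^ 2 + (‖f'‖ ^ 2 + ‖c'‖ ^ 2))) * ‖u‖ ^ 2 := by
        nlinarith
      exact le_of_mul_le_mul_right e6 hu'
  -- nontriviality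
  obtain ⟨u0, f0, r0, ha0, hb0, hc0⟩ := hlow (L + 1) (by linarith)
  have hu0 : u0 ≠ 0 := by
    rintro rfl
    rw [norm_zero] at hc0
    nlinarith [sq_nonneg ‖f0‖, sq_nonneg ‖r0‖]
  have : Nontrivial H1 := ⟨u0, 0, hu0⟩
  have hRpos : 0 < ‖R‖ := by
    have h1 := G u0 f0 r0 ha0 hb0
    have h2 : 0 < ‖u0‖ ^ 2 := by positivity
    rcases (norm_nonneg R).lt_or_eq with h | h
    · exact h
    · rw [← h] at h1; linarith
  have hspec : ∀ z ∈ spectrum ℂ R, z = ((z.re : ℝ) : ℂ) ∧ 0 ≤ z.re ∧ z.re ≤ ‖R‖ := by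
    intro z hz
    have h1 := hpos.isSelfAdjoint.mem_spectrum_eq_re hz
    refine ⟨h1, ?_, ?_⟩
    · have h2 : z.re ∈ spectrum ℝ R := by
        apply spectrum.of_algebraMap_mem ℂ
        rw [Complex.coe_algebraMap, ← h1]
        exact hz
      exact spectrum_nonneg_of_nonneg ((ContinuousLinearMap.nonneg_iff_isPositive R).2 hpos) h2
    · exact (Complex.re_le_norm z).trans (spectrum.norm_le_norm_of_mem hz)
  have hnorm : ((‖R‖ : ℝ) : ℂ) ∈ spectrum ℂ R := by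
    have h1 := CStarAlgebra.norm_mem_spectrum_of_nonneg
      (a := R) ((ContinuousLinearMap.nonneg_iff_isPositive R).2 hpos)
    have h2 := spectrum.algebraMap_mem ℂ h1
    rwa [Complex.coe_algebraMap] at h2
  -- translation
  have hshift : ∀ κ : ℂ, κ ≠ 0 → (κ⁻¹ ∈ spectrum ℂ R ↔ ¬ IsUnit (1 - κ • R)) := by
    intro κ hκ
    rw [spectrum.mem_iff, not_iff_not]
    have h1 : 1 - κ • R = algebraMap ℂ (H1 →L[ℂ] H1) κ * (algebraMap ℂ (H1 →L[ℂ] H1) κ⁻¹ - R) := by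
      rw [mul_sub, ← map_mul, mul_inv_cancel₀ hκ, map_one, Algebra.smul_def]
    have h2 : algebraMap ℂ (H1 →L[ℂ] H1) κ⁻¹ - R
        = algebraMap ℂ (H1 →L[ℂ] H1) κ⁻¹ * (1 - κ • R) := by
      rw [mul_sub, mul_one, Algebra.smul_def, ← mul_assoc, ← map_mul, inv_mul_cancel₀ hκ, map_one,
        one_mul]
    have h3 : IsUnit (algebraMap ℂ (H1 →L[ℂ] H1) κ) := (isUnit_iff_ne_zero.2 hκ).map _
    have h4 : IsUnit (algebraMap ℂ (H1 →L[ℂ] H1) κ⁻¹) :=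
      (isUnit_iff_ne_zero.2 (inv_ne_zero hκ)).map _
    constructor
    · intro h; rw [h1]; exact h3.mul h
    · intro h; rw [h2]; exact h4.mul h
  refine ⟨‖R‖⁻¹ - 1, ?_, ?_, ?_, ?_⟩
  · have := (one_le_inv₀ hRpos).2 hR1
    linarith
  · by_contra hcon
    push Not at hcon
    obtain ⟨u, f, r, h1, h2, h3⟩ := hlow _ hcon
    have h4 := G u f r h1 h2
    have h5 : ‖u‖ ^ 2 < ‖R‖ * (‖u‖ ^ 2 + (‖R‖⁻¹ - 1) * ‖u‖ ^ 2) :=
      h4.trans_lt (mul_lt_mul_of_pos_left (by linarith) hRpos)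
    have h6 : ‖R‖ * (‖u‖ ^ 2 + (‖R‖⁻¹ - 1) * ‖u‖ ^ 2) = ‖u‖ ^ 2 := by
      field_simp
      ring
    linarith
  · rintro ⟨B, hB1, hB2⟩
    have hκ : ((((‖R‖⁻¹ - 1 : ℝ)) : ℂ) + 1) = ((‖R‖ : ℝ) : ℂ)⁻¹ := by push_cast; ring
    set κ : ℂ := ((((‖R‖⁻¹ - 1 : ℝ)) : ℂ) + 1) with hκdef
    have hκ0 : κ ≠ 0 := by
      rw [hκ]
      exact inv_ne_zero (Complex.ofReal_ne_zero.2 hRpos.ne')
    have h1 := (hshift κ hκ0).1 (by rw [hκ, inv_inv]; exact hnorm)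
    apply h1
    apply A3_unit (B := B) κ
    · ext v
      have h2 := A3_uniq hR (hB1 v)
      have h3 : v + κ • B v = v + ((‖R‖⁻¹ - 1 : ℝ) : ℂ) • B v + B v := by
        rw [hκdef, add_smul, one_smul]; abel
      change R (v + κ • B v) = B v
      rw [h3]
      exact h2
    · ext v
      have h2 := hB2 _ _ (hR v)
      have h3 : v - κ • R v = v - R v - ((‖R‖⁻¹ - 1 : ℝ) : ℂ) • R v := by
        rw [hκdef, add_smul, one_smul]; abel
      change B (v - κ • R v) = R v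
      rw [h3]
      exact h2
  · intro μ hμ
    have h1 : ¬ IsUnit (1 - (μ + 1) • R) := by
      rintro ⟨P, hP⟩
      apply hμ
      have hP1 : ∀ v, (P⁻¹ : (H1 →L[ℂ] H1)ˣ).val v - (μ + 1) • R ((P⁻¹ : (H1 →L[ℂ] H1)ˣ).val v) = v := by
        intro v
        have := congrArg (fun A : H1 →L[ℂ] H1 => A v) P.mul_inv
        rw [hP] at this
        simpa using this
      have hP2 : ∀ v, (P⁻¹ : (H1 →L[ℂ] H1)ˣ).val (v - (μ + 1) • R v) = v := by
        intro v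
        have := congrArg (fun A : H1 →L[ℂ] H1 => A v) P.inv_mul
        rw [hP] at this
        simpa using this
      refine ⟨R * (P⁻¹ : (H1 →L[ℂ] H1)ˣ).val, fun v => ?_, fun u w hb => ?_⟩
      · have h2 := hR ((P⁻¹ : (H1 →L[ℂ] H1)ˣ).val v)
        have h3 := hP1 v
        have h4 : v + μ • R ((P⁻¹ : (H1 →L[ℂ] H1)ˣ).val v)
            = (P⁻¹ : (H1 →L[ℂ] H1)ˣ).val v - R ((P⁻¹ : (H1 →L[ℂ] H1)ˣ).val v) := by
          rw [add_smul, one_smul] at h3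
          nth_rewrite 1 [← h3]
          abel
        change BoxR T S (R ((P⁻¹ : (H1 →L[ℂ] H1)ˣ).val v))
          (v + μ • R ((P⁻¹ : (H1 →L[ℂ] H1)ˣ).val v))
        rw [h4]
        exact h2
      · have h2 := A3_uniq hR hb
        have h3 := hP2 (w + u)
        change R ((P⁻¹ : (H1 →L[ℂ] H1)ˣ).val (w - μ • u)) = u
        have h4 : w + u - (μ + 1) • R (w + u) = w - μ • u := by
          rw [h2, add_smul, one_smul]; abel
        rw [h4] at h3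
        rw [h3, h2]
    have h2 : μ + 1 ≠ 0 := by
      intro h
      apply h1
      rw [h, zero_smul, sub_zero]
      exact isUnit_one
    have h3 := (hshift (μ + 1) h2).2 h1
    obtain ⟨h4, h5, h6⟩ := hspec _ h3
    set x := ((μ + 1)⁻¹).re with hx
    have hx0 : x ≠ 0 := by
      intro h
      rw [h, Complex.ofReal_zero] at h4
      exact inv_ne_zero h2 h4
    have hxpos : 0 < x := lt_of_le_of_ne h5 (Ne.symm hx0)
    have h7 : μ = ((x⁻¹ - 1 : ℝ) : ℂ) := by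
      have : μ + 1 = ((x⁻¹ : ℝ) : ℂ) := by
        rw [Complex.ofReal_inv, ← h4, inv_inv]
      push_cast
      push_cast at this
      linear_combination this
    rw [h7]
    refine ⟨Complex.ofReal_im _, ?_⟩
    rw [Complex.ofReal_re]
    have := inv_anti₀ hxpos h6
    linarith

end

end DbarN.JA3
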