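import Mathlib
import Pool.Agent.H314.DN.AbsDefs

set_option autoImplicit false

namespace DbarN.JA4

section
variable {H0 H1 H2 : Type*} [NormedAddCommGroup H0] [InnerProductSpace ℂ H0] [CompleteSpace H0]
  [NormedAddCommGroup H1] [InnerProductSpace ℂ H1] [CompleteSpace H1]
  [NormedAddCommGroup H2] [InnerProductSpace ℂ H2] [CompleteSpace H2]



/-- no eigenvector for an eigenvalue `0 ≤ lam ≤ L` -/
theorem no_eigen (T : Submodule ℂ (H0 × H1)) (S : Submodule ℂ (H1 × H2))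
    (hTc : IsClosed (T : Set (H0 × H1))) (hSc : IsClosed (S : Set (H1 × H2)))
    (hT0 : ∀ g, ((0 : H0), g) ∈ T → g = 0) (hS0 : ∀ g, ((0 : H1), g) ∈ S → g = 0)
    (hST : ∀ f g, (f, g) ∈ T → (g, (0 : H2)) ∈ S)
    (L : ℝ)
    (h1 : ∀ (f : H0) (g : H1) (lam : ℝ), 0 < lam → lam ≤ L → f ≠ 0 → (f, g) ∈ T →
      ¬ AdjR T g ((lam : ℂ) • f))
    (h3 : ∀ v c, (v, c) ∈ S → (∀ w, (w, (0 : H2)) ∈ S → inner ℂ w v = 0) → v ≠ 0 →
      L * ‖v‖ ^ 2 < ‖c‖ ^ 2)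
    (h4 : ∀ u, (u, (0 : H2)) ∈ S → ∃ f, (f, u) ∈ T)
    (lam : ℝ) (h0 : 0 ≤ lam) (hlam : lam ≤ L) :
    ¬ ∃ u : H1, u ≠ 0 ∧ BoxR T S u ((lam : ℂ) • u) := by
  rintro ⟨u, hu0, f, c, g₁, g₂, hTu, huc, hfg, hSc2, hw⟩
  obtain ⟨K, hKdef⟩ : ∃ K : Submodule ℂ H1, K = S.comap (LinearMap.inl ℂ H1 H2) := ⟨_, rfl⟩
  have hK : ∀ w, w ∈ K ↔ (w, (0 : H2)) ∈ S := by
    intro w
    rw [hKdef, Submodule.mem_comap, LinearMap.inl_apply]
  have hKc : IsClosed (K : Set H1) := by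
    have h5 : (K : Set H1) = (fun w : H1 => (w, (0 : H2))) ⁻¹' (S : Set (H1 × H2)) := by
      ext w
      exact hK w
    rw [h5]
    exact hSc.preimage (by fun_prop)
  haveI : CompleteSpace K := hKc.completeSpace_coe
  obtain ⟨u₁, hu₁, u₂, hu₂, hu⟩ := K.exists_add_mem_mem_orthogonal u
  have hg₁ : g₁ ∈ K := (hK g₁).mpr (hST f g₁ hfg)
  have hg₂ : g₂ ∈ Kᗮ := by
    rw [Submodule.mem_orthogonal]
    intro w hwK
    have := hSc2 (w, 0) ((hK w).mp hwK)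
    simpa using this.symm
  have hd : g₁ - (lam : ℂ) • u₁ = (lam : ℂ) • u₂ - g₂ := by
    have : g₁ + g₂ = (lam : ℂ) • u₁ + (lam : ℂ) • u₂ := by
      rw [← hw, ← smul_add, ← hu]
    rw [sub_eq_sub_iff_add_eq_add, this, add_comm]
  have hz1 : g₁ - (lam : ℂ) • u₁ ∈ K := K.sub_mem hg₁ (K.smul_mem _ hu₁)
  have hz2 : g₁ - (lam : ℂ) • u₁ ∈ Kᗮ := by
    rw [hd]
    exact Kᗮ.sub_mem (Kᗮ.smul_mem _ hu₂) hg₂
  have hz : g₁ - (lam : ℂ) • u₁ = 0 := by
    have := (Submodule.mem_orthogonal K _).mp hz2 _ hz1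
    exact inner_self_eq_zero.mp this
  have e1 : g₁ = (lam : ℂ) • u₁ := sub_eq_zero.mp hz
  have e2 : g₂ = (lam : ℂ) • u₂ := by
    rw [hz] at hd
    exact (sub_eq_zero.mp hd.symm).symm
  have hu2c : (u₂, c) ∈ S := by
    have := S.sub_mem huc ((hK u₁).mp hu₁)
    have h5 : (u, c) - (u₁, (0 : H2)) = (u₂, c) := by
      rw [hu]
      simp
    rwa [h5] at this
  have hu2 : u₂ = 0 := by
    by_contra hne
    have h5 := h3 u₂ c hu2c (fun w hwS => (Submodule.mem_orthogonal K _).mp hu₂ w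
      ((hK w).mpr hwS)) hne
    have h6 := hSc2 (u₂, c) hu2c
    simp only at h6
    rw [e2, inner_smul_right, inner_self_eq_norm_sq_to_K, inner_self_eq_norm_sq_to_K] at h6
    have h7 : ‖c‖ ^ 2 = lam * ‖u₂‖ ^ 2 := by
      apply Complex.ofReal_injective
      push_cast
      exact h6
    have h8 : lam * ‖u₂‖ ^ 2 ≤ L * ‖u₂‖ ^ 2 := mul_le_mul_of_nonneg_right hlam (by positivity)
    linarith
  have huu : u = u₁ := by rw [hu, hu2, add_zero]
  rw [← huu] at e1 hu₁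
  rcases h0.eq_or_lt with h | h
  · obtain ⟨h', hh'⟩ := h4 u ((hK u).mp hu₁)
    have e3 : g₁ = 0 := by rw [e1, ← h]; simp
    have h5 := hTu (f, g₁) hfg
    simp only at h5
    rw [e3, inner_zero_left] at h5
    have hf : f = 0 := inner_self_eq_zero.mp h5.symm
    have h6 := hTu (h', u) hh'
    simp only at h6
    rw [hf, inner_zero_right] at h6
    exact hu0 (inner_self_eq_zero.mp h6)
  · have hf : f ≠ 0 := by
      rintro rfl
      have h5 := hT0 g₁ hfg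
      rw [e1] at h5
      rcases smul_eq_zero.mp h5 with h6 | h6
      · exact h.ne' (by exact_mod_cast h6)
      · exact hu0 h6
    refine h1 f g₁ lam h hlam hf hfg ?_
    intro p hp
    rw [e1, inner_smul_right, inner_smul_right, hTu p hp]

end

end DbarN.JA4
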