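import Pool.Agent.H314.DN.Stmts
import Pool.Agent.H314.DN.A0
import Pool.Agent.H314.DN.A1

set_option autoImplicit false

open MeasureTheory Complex Filter Topology
open scoped ContDiff InnerProductSpace ENNReal ComplexConjugate

namespace DbarN.JG1

theorem h208_func (Ω : Set E3) (ψ : E3 → ℂ) (hc : Continuous ψ) (hs : HasCompactSupport ψ) :
    ∃ L : L2 Ω →L[ℂ] ℂ, ∀ u : L2 Ω, L u = ∫ x in Ω, u x * ψ x ∧
      Integrable (fun x => u x * ψ x) ((volume : Measure E3).restrict Ω) := by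
  have hψ : MemLp ψ 2 ((volume : Measure E3).restrict Ω) :=
    (hc.memLp_of_hasCompactSupport hs).restrict Ω
  have hψc : MemLp (fun x => conj (ψ x)) 2 ((volume : Measure E3).restrict Ω) := hψ.star
  refine ⟨innerSL ℂ (hψc.toLp _), fun u => ⟨?_, ?_⟩⟩
  · rw [innerSL_apply_apply, MeasureTheory.L2.inner_def]
    apply integral_congr_ae
    filter_upwards [hψc.coeFn_toLp] with x hx
    rw [hx]
    simp [mul_comm]
  · exact (Lp.memLp u).integrable_mul hψ

theorem h208_dbar_cont {Ω : Set E3} {φ : E3 → ℂ} (h : IsTest Ω φ) (j : Fin 3) :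
    Continuous (dbar j φ) := by
  have h1 : Continuous (fderiv ℝ φ) := h.smooth.continuous_fderiv (by simp)
  unfold dbar
  exact continuous_const.mul ((h1.clm_apply continuous_const).add
    (continuous_const.mul (h1.clm_apply continuous_const)))

theorem h208_dbar_supp {Ω : Set E3} {φ : E3 → ℂ} (h : IsTest Ω φ) (j : Fin 3) :
    HasCompactSupport (dbar j φ) := by
  have h1 := h.compact.fderiv (𝕜 := ℝ)
  refine h1.comp_left (g := fun L : E3 →L[ℝ] ℂ =>
    (1 / 2) * (L (Pi.single j 1) + I * L (Pi.single j I))) ?_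
  simp

/-- the graph of the weak `∂̄` on `(0,1)`-forms is a closed subspace -/
theorem graph1 (Ω : Set E3) (hΩ : IsOpen Ω) : ∃ S : Submodule ℂ (Form Ω × Form Ω),
    (∀ f g, (f, g) ∈ S ↔ IsDbar1 Ω f g) ∧ IsClosed (S : Set (Form Ω × Form Ω)) := by
  have key : ∀ (i : Fin 3) (φ : E3 → ℂ) (h : IsTest Ω φ), ∃ T : (Form Ω × Form Ω) →L[ℂ] ℂ,
      ∀ u c : Form Ω, T (u, c) =
        (∫ x in Ω, (u (i + 2) x * dbar (i + 1) φ x - u (i + 1) x * dbar (i + 2) φ x))
          + ∫ x in Ω, c i x * φ x := by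
    intro i φ h
    obtain ⟨L1, hL1⟩ := h208_func Ω (dbar (i + 1) φ) (h208_dbar_cont h _) (h208_dbar_supp h _)
    obtain ⟨L2', hL2⟩ := h208_func Ω (dbar (i + 2) φ) (h208_dbar_cont h _) (h208_dbar_supp h _)
    obtain ⟨L3, hL3⟩ := h208_func Ω φ h.smooth.continuous h.compact
    refine ⟨(L1.comp (PiLp.proj 2 (fun _ : Fin 3 => L2 Ω) (i + 2)) -
        L2'.comp (PiLp.proj 2 (fun _ : Fin 3 => L2 Ω) (i + 1))).comp
          (ContinuousLinearMap.fst ℂ (Form Ω) (Form Ω)) +
        (L3.comp (PiLp.proj 2 (fun _ : Fin 3 => L2 Ω) i)).comp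
          (ContinuousLinearMap.snd ℂ (Form Ω) (Form Ω)), fun u c => ?_⟩
    rw [integral_sub (hL1 _).2 (hL2 _).2, ← (hL1 _).1, ← (hL2 _).1, ← (hL3 _).1]
    rfl
  choose T hT using key
  refine ⟨⨅ i, ⨅ φ, ⨅ h, LinearMap.ker (T i φ h).toLinearMap, ?_, ?_⟩
  · intro f g
    simp only [Submodule.mem_iInf, LinearMap.mem_ker]
    refine forall_congr' fun i => forall_congr' fun φ => forall_congr' fun h => ?_
    have : (T i φ h).toLinearMap (f, g) = T i φ h (f, g) := rfl
    rw [this, hT, add_eq_zero_iff_eq_neg]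
  · simp only [Submodule.coe_iInf]
    refine isClosed_iInter fun i => isClosed_iInter fun φ => isClosed_iInter fun h => ?_
    exact (T i φ h).isClosed_ker

end DbarN.JG1
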