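import Pool.Agent.H314.DN.Stmts
import Pool.Agent.H314.DN.A0
import Pool.Agent.H314.DN.A1

set_option autoImplicit false

open MeasureTheory Complex Filter Topology
open scoped ContDiff InnerProductSpace ENNReal ComplexConjugate

namespace DbarN.JG2

theorem dbar_zero_aux (Ω : Set E3) (hΩ : IsOpen Ω) (f : L2 Ω)
    (h : ∀ φ : E3 → ℂ, IsTest Ω φ → ∫ x in Ω, f x * φ x = 0) : f = 0 := by
  have hloc : LocallyIntegrableOn (f : E3 → ℂ) Ω volume :=
    locallyIntegrableOn_of_locallyIntegrable_restrict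
      ((Lp.memLp f).locallyIntegrable (by norm_num))
  have hae : ∀ᵐ x ∂(volume : Measure E3), x ∈ Ω → (f : E3 → ℂ) x = 0 := by
    refine hΩ.ae_eq_zero_of_integral_contDiff_smul_eq_zero hloc ?_
    intro ψ h1 h2 h3
    have hsup : Function.support (fun x => (ψ x : ℂ)) = Function.support ψ := by
      ext x
      simp
    have ht : IsTest Ω (fun x => (ψ x : ℂ)) := by
      refine ⟨Complex.ofRealCLM.contDiff.comp h1, ?_, ?_⟩
      · unfold HasCompactSupport tsupport at *
        rw [hsup]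
        exact h2
      · unfold tsupport at *
        rw [hsup]
        exact h3
    have h4 := h _ ht
    rw [setIntegral_eq_integral_of_forall_compl_eq_zero] at h4
    · rw [← h4]
      refine integral_congr_ae (Filter.Eventually.of_forall fun x => ?_)
      simp only [Complex.real_smul]
      ring
    · intro x hx
      have : ψ x = 0 := by
        by_contra hne
        exact hx (h3 (subset_tsupport _ hne))
      simp [this]
  rw [Lp.eq_zero_iff_ae_eq_zero]
  exact (ae_restrict_iff' hΩ.measurableSet).mpr hae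

theorem dbar0_zero (Ω : Set E3) (hΩ : IsOpen Ω) (g : Form Ω) (h : IsDbar0 Ω 0 g) : g = 0 := by
  have hz : ∀ᵐ x ∂((volume : Measure E3).restrict Ω), ((0 : L2 Ω) : E3 → ℂ) x = 0 :=
    Lp.coeFn_zero _ _ _
  have hj : ∀ j, g j = 0 := by
    intro j
    refine dbar_zero_aux Ω hΩ (g j) ?_
    intro φ hφ
    have h1 := h j φ hφ
    have h2 : ∫ x in Ω, ((0 : L2 Ω) : E3 → ℂ) x * dbar j φ x = 0 := by
      refine integral_eq_zero_of_ae ?_
      filter_upwards [hz] with x hx
      rw [hx, zero_mul]; rfl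
    rw [h2] at h1
    exact neg_eq_zero.mp h1.symm
  ext1 j
  exact hj j

theorem dbar1_zero (Ω : Set E3) (hΩ : IsOpen Ω) (g : Form Ω) (h : IsDbar1 Ω 0 g) : g = 0 := by
  have hz : ∀ᵐ x ∂((volume : Measure E3).restrict Ω), ((0 : L2 Ω) : E3 → ℂ) x = 0 :=
    Lp.coeFn_zero _ _ _
  have hj : ∀ j, g j = 0 := by
    intro j
    refine dbar_zero_aux Ω hΩ (g j) ?_
    intro φ hφ
    have h1 := h j φ hφ
    have h2 : ∫ x in Ω, (((0 : Form Ω) (j + 2) : E3 → ℂ) x * dbar (j + 1) φ x -
        ((0 : Form Ω) (j + 1) : E3 → ℂ) x * dbar (j + 2) φ x) = 0 := by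
      refine integral_eq_zero_of_ae ?_
      filter_upwards [hz] with x hx
      have e1 : ((0 : Form Ω) (j + 2) : E3 → ℂ) x = 0 := hx
      have e2 : ((0 : Form Ω) (j + 1) : E3 → ℂ) x = 0 := hx
      rw [e1, e2, zero_mul, zero_mul, sub_zero]; rfl
    rw [h2] at h1
    exact neg_eq_zero.mp h1.symm
  ext1 j
  exact hj j

end DbarN.JG2
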