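import Pool.Agent.H314.DN.Stmts3
import Pool.Agent.H314.DN.A0
import Pool.Agent.H314.DN.A1

set_option autoImplicit false

open MeasureTheory Complex Filter Topology
open scoped ContDiff InnerProductSpace ENNReal ComplexConjugate

namespace DbarN.JPW

set_option maxHeartbeats 4000000 in
theorem pw_core847 (t c p u w α β q : ℝ) (hc : c = 2 - t) (ht0 : 0 ≤ t)
    (ht1 : t ≤ 1 + 1 / 1000) (hp0 : 0 < p) (hp1 : p ≤ 1 / 100) (hu : 0 ≤ u)
    (hw : 100 * (p * u) + u ^ 2 ≤ w) (_hα : 0 ≤ α) (hβ : 0 < β) (hαβ : α ^ 2 ≤ β)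
    (hq : (1 + c * p) * q = 1) (Xt Xs Xtt Xts Xss : ℝ)
    (hXt : Xt = -p * (1 + c * u)) (hXs : Xs = -c * p * α)
    (hXtt : Xtt = 2 * (p * u) - c * w + 2 * c * p * u ^ 2)
    (hXts : Xts = p * α * (1 + 2 * c * u)) (hXss : Xss = -c * β + 2 * c * p * α ^ 2) :
    Xss * q - Xs ^ 2 * q ^ 2 < 0 ∧
    (1 / 4) * (p + t * w) ≤ -(Xt * q) - t * (Xtt * q - Xt ^ 2 * q ^ 2)
      - t * ((Xts * q - Xt * Xs * q ^ 2) ^ 2 / (-(Xss * q - Xs ^ 2 * q ^ 2))) ∧
    t * ((Xts * q - Xt * Xs * q ^ 2) ^ 2 / (-(Xss * q - Xs ^ 2 * q ^ 2))) ≤ p + t * w ∧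
    Xs ^ 2 ≤ (1 / 1000) * (-(Xss * q - Xs ^ 2 * q ^ 2)) ∧
    t * Xt ^ 2 ≤ (1 / 10) * (p + t * w) := by
  have hc1 : 999 / 1000 ≤ c := by rw [hc]; linarith
  have hc2 : c ≤ 2 := by rw [hc]; linarith
  have hc0 : 0 < c := by linarith
  have hcp : 0 < c * p := mul_pos hc0 hp0
  have hcp2 : c * p ≤ 2 / 100 := by
    have := mul_le_mul hc2 hp1 hp0.le (by norm_num : (0 : ℝ) ≤ 2)
    linarith
  have hq0 : 0 < q :=
    (mul_pos_iff_of_pos_left (by linarith : 0 < 1 + c * p)).mp (by rw [hq]; exact one_pos)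
  have hcpq : 0 < c * p * q := mul_pos hcp hq0
  have hq1 : q ≤ 1 := by linarith
  have hq2 : 98 / 100 ≤ q := by
    have := mul_le_mul hcp2 hq1 hq0.le (by norm_num : (0 : ℝ) ≤ 2 / 100)
    linarith
  have hu2 : 0 ≤ u ^ 2 := sq_nonneg u
  have hpu : 0 ≤ p * u := mul_nonneg hp0.le hu
  have hw0 : 0 ≤ w := by linarith
  have hwu : u ^ 2 ≤ w := by linarith
  have hwp : 100 * (p * u) ≤ w := by linarith
  have hα2 : 0 ≤ α ^ 2 := sq_nonneg α
  have htw : 0 ≤ t * w := mul_nonneg ht0 hw0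
  -- lower bound of -Yss
  have hK0 : 0 < q * (c * (98 / 100 * β)) := by positivity
  have hK : q * (c * (98 / 100 * β)) ≤ -(Xss * q - Xs ^ 2 * q ^ 2) := by
    have h1 : -(Xss * q - Xs ^ 2 * q ^ 2) =
        q * (c * (β - 2 * p * α ^ 2)) + (c * p * α * q) ^ 2 := by
      rw [hXss, hXs]; ring
    have h2 : 98 / 100 * β ≤ β - 2 * p * α ^ 2 := by
      have := mul_le_mul hp1 hαβ hα2 (by norm_num : (0 : ℝ) ≤ 1 / 100)
      linarith
    have h3 : c * (98 / 100 * β) ≤ c * (β - 2 * p * α ^ 2) := mul_le_mul_of_nonneg_left h2 hc0.le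
    have h4 := mul_le_mul_of_nonneg_left h3 hq0.le
    have h5 := sq_nonneg (c * p * α * q)
    rw [h1]; linarith
  have hKpos : 0 < -(Xss * q - Xs ^ 2 * q ^ 2) := lt_of_lt_of_le hK0 hK
  -- bound of Yts^2
  have hE : (Xts * q - Xt * Xs * q ^ 2) ^ 2 ≤
      p ^ 2 * (205 / 100 + 327 / 10 * u ^ 2) * (-(Xss * q - Xs ^ 2 * q ^ 2)) := by
    have h1 : Xts * q - Xt * Xs * q ^ 2 =
        q * p * α * ((1 + 2 * c * u) - q * (c * p) * (1 + c * u)) := by
      rw [hXts, hXt, hXs]; ring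
    have hcu : 0 ≤ c * u := mul_nonneg hc0.le hu
    have hcu2 : c * u ≤ 2 * u := mul_le_mul_of_nonneg_right hc2 hu
    set E : ℝ := (1 + 2 * c * u) - q * (c * p) * (1 + c * u) with hEdef
    have hqcp : 0 ≤ q * (c * p) := by positivity
    have hqcp1 : q * (c * p) ≤ 2 / 100 := by
      have := mul_le_mul hq1 hcp2 hcp.le (by norm_num : (0 : ℝ) ≤ 1)
      linarith
    have hE0 : 0 ≤ E := by
      have : q * (c * p) * (1 + c * u) ≤ 2 / 100 * (1 + c * u) :=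
        mul_le_mul_of_nonneg_right hqcp1 (by linarith)
      rw [hEdef]; linarith
    have hE1 : E ≤ 1 + 4 * u := by
      have : 0 ≤ q * (c * p) * (1 + c * u) := by positivity
      rw [hEdef]; linarith
    have hE2 : E ^ 2 ≤ 2 + 32 * u ^ 2 := by
      have : E ^ 2 ≤ (1 + 4 * u) ^ 2 := by
        apply pow_le_pow_left₀ hE0 hE1
      have h' := sq_nonneg (1 - 4 * u)
      linarith
    have h2 : (Xts * q - Xt * Xs * q ^ 2) ^ 2 = q ^ 2 * p ^ 2 * (α ^ 2 * E ^ 2) := by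
      rw [h1]; ring
    have h3 : α ^ 2 * E ^ 2 ≤ β * (2 + 32 * u ^ 2) := by
      apply mul_le_mul hαβ hE2 (sq_nonneg _) hβ.le
    have h4 : q ^ 2 * p ^ 2 * (α ^ 2 * E ^ 2) ≤ q * p ^ 2 * (β * (2 + 32 * u ^ 2)) := by
      have : q ^ 2 * p ^ 2 ≤ q * p ^ 2 := by
        apply mul_le_mul_of_nonneg_right _ (sq_nonneg p)
        have := mul_le_mul_of_nonneg_left hq1 hq0.le
        linarith
      apply mul_le_mul this h3 (by positivity) (by positivity)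
    have h5 : (2 + 32 * u ^ 2) ≤ c * (98 / 100) * (205 / 100 + 327 / 10 * u ^ 2) := by
      have : 979 / 1000 ≤ c * (98 / 100) := by linarith
      have h6 : 979 / 1000 * (205 / 100 + 327 / 10 * u ^ 2) ≤
          c * (98 / 100) * (205 / 100 + 327 / 10 * u ^ 2) :=
        mul_le_mul_of_nonneg_right this (by positivity)
      linarith
    have h7 : q * p ^ 2 * (β * (2 + 32 * u ^ 2)) ≤
        q * p ^ 2 * (β * (c * (98 / 100) * (205 / 100 + 327 / 10 * u ^ 2))) := by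
      apply mul_le_mul_of_nonneg_left _ (by positivity)
      exact mul_le_mul_of_nonneg_left h5 hβ.le
    have h8 : q * p ^ 2 * (β * (c * (98 / 100) * (205 / 100 + 327 / 10 * u ^ 2))) =
        p ^ 2 * (205 / 100 + 327 / 10 * u ^ 2) * (q * (c * (98 / 100 * β))) := by ring
    have h9 : p ^ 2 * (205 / 100 + 327 / 10 * u ^ 2) * (q * (c * (98 / 100 * β))) ≤
        p ^ 2 * (205 / 100 + 327 / 10 * u ^ 2) * (-(Xss * q - Xs ^ 2 * q ^ 2)) :=
      mul_le_mul_of_nonneg_left hK (by positivity)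
    rw [h2]
    linarith
  have hdiv : (Xts * q - Xt * Xs * q ^ 2) ^ 2 / (-(Xss * q - Xs ^ 2 * q ^ 2)) ≤
      p ^ 2 * (205 / 100 + 327 / 10 * u ^ 2) := by
    rw [div_le_iff₀ hKpos]; exact hE
  have hp2 : p ^ 2 ≤ 1 / 100 * p := by
    have := mul_le_mul_of_nonneg_right hp1 hp0.le
    linarith
  have hp3 : p ^ 2 ≤ 1 / 10000 := by linarith
  have hT : t * ((Xts * q - Xt * Xs * q ^ 2) ^ 2 / (-(Xss * q - Xs ^ 2 * q ^ 2))) ≤
      21 / 1000 * p + 33 / 10000 * (t * w) := by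
    have h1 := mul_le_mul_of_nonneg_left hdiv ht0
    have h2 : t * (p ^ 2 * (205 / 100 + 327 / 10 * u ^ 2)) =
        t * (205 / 100 * p ^ 2) + t * (327 / 10 * (p ^ 2 * u ^ 2)) := by ring
    have h3 : t * (205 / 100 * p ^ 2) ≤ (1 + 1 / 1000) * (205 / 100 * (1 / 100 * p)) := by
      apply mul_le_mul ht1 (by linarith) (by positivity) (by norm_num)
    have h4 : p ^ 2 * u ^ 2 ≤ 1 / 10000 * w := by
      apply mul_le_mul hp3 hwu hu2 (by norm_num)
    have h5 : t * (327 / 10 * (p ^ 2 * u ^ 2)) ≤ t * (327 / 10 * (1 / 10000 * w)) := by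
      apply mul_le_mul_of_nonneg_left _ ht0
      linarith
    have h6 : t * (327 / 10 * (1 / 10000 * w)) = 327 / 100000 * (t * w) := by ring
    linarith
  refine ⟨by linarith, ?_, by linarith, ?_, ?_⟩
  · have h1 : 98 / 100 * p ≤ -(Xt * q) := by
      have : -(Xt * q) = q * (p * (1 + c * u)) := by rw [hXt]; ring
      rw [this]
      have hcu : 0 ≤ c * u := mul_nonneg hc0.le hu
      have h2 : p * 1 ≤ p * (1 + c * u) := mul_le_mul_of_nonneg_left (by linarith) hp0.le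
      have h3 : 98 / 100 * (p * 1) ≤ q * (p * (1 + c * u)) :=
        mul_le_mul hq2 h2 (by positivity) hq0.le
      linarith
    have h2 : 9 / 10 * (t * w) ≤ -(t * (Xtt * q - Xt ^ 2 * q ^ 2)) := by
      have e : -(t * (Xtt * q - Xt ^ 2 * q ^ 2)) =
          t * (q * (c * w - 2 * (p * u) - 2 * c * p * u ^ 2)) + t * (Xt * q) ^ 2 := by
        rw [hXtt]; ring
      have h3 : 93 / 100 * w ≤ c * w - 2 * (p * u) - 2 * c * p * u ^ 2 := by
        have a1 : 999 / 1000 * w ≤ c * w := mul_le_mul_of_nonneg_right hc1 hw0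
        have a2 : 2 * c * p * u ^ 2 ≤ 4 / 100 * w := by
          have : 2 * (c * p) * u ^ 2 ≤ (4 / 100) * w := by
            apply mul_le_mul (by linarith) hwu hu2 (by norm_num)
          linarith
        linarith
      have h4 : 98 / 100 * (93 / 100 * w) ≤ q * (c * w - 2 * (p * u) - 2 * c * p * u ^ 2) := by
        apply mul_le_mul hq2 h3 (by positivity) hq0.le
      have h5 : 9 / 10 * w ≤ q * (c * w - 2 * (p * u) - 2 * c * p * u ^ 2) := by linarith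
      have h6 := mul_le_mul_of_nonneg_left h5 ht0
      have h7 : 0 ≤ t * (Xt * q) ^ 2 := mul_nonneg ht0 (sq_nonneg _)
      rw [e]; linarith
    linarith
  · have h1 : Xs ^ 2 = c * (c * p ^ 2 * α ^ 2) := by rw [hXs]; ring
    have h2 : c * p ^ 2 * α ^ 2 ≤ (2 / 10000) * β := by
      apply mul_le_mul _ hαβ hα2 (by norm_num)
      have := mul_le_mul hc2 hp3 (sq_nonneg p) (by norm_num : (0 : ℝ) ≤ 2)
      linarith
    have h3 : c * (c * p ^ 2 * α ^ 2) ≤ c * (2 / 10000 * β) := mul_le_mul_of_nonneg_left h2 hc0.le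
    have h4 : c * (2 / 10000 * β) ≤ 1 / 1000 * (q * (c * (98 / 100 * β))) := by
      have : c * β * (2 / 10000) ≤ c * β * (1 / 1000 * (q * (98 / 100))) := by
        apply mul_le_mul_of_nonneg_left _ (by positivity)
        linarith
      linarith
    linarith
  · have h1 : Xt ^ 2 ≤ 2 * p ^ 2 + 8 * (p ^ 2 * u ^ 2) := by
      have : Xt ^ 2 = p ^ 2 * (1 + c * u) ^ 2 := by rw [hXt]; ring
      rw [this]
      have hcu : 0 ≤ c * u := mul_nonneg hc0.le hu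
      have hcu2 : c * u ≤ 2 * u := mul_le_mul_of_nonneg_right hc2 hu
      have h2 : (1 + c * u) ^ 2 ≤ 2 + 8 * u ^ 2 := by
        have : (1 + c * u) ^ 2 ≤ (1 + 2 * u) ^ 2 := by
          apply pow_le_pow_left₀ (by linarith) (by linarith)
        have h' := sq_nonneg (1 - 2 * u)
        linarith
      have := mul_le_mul_of_nonneg_left h2 (sq_nonneg p)
      linarith
    have h4 : p ^ 2 * u ^ 2 ≤ 1 / 10000 * w := by
      apply mul_le_mul hp3 hwu hu2 (by norm_num)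
    have h5 : t * Xt ^ 2 ≤ t * (2 * p ^ 2 + 8 * (1 / 10000 * w)) := by
      apply mul_le_mul_of_nonneg_left _ ht0
      linarith
    have h6 : t * (2 * p ^ 2) ≤ (1 + 1 / 1000) * (2 * (1 / 100 * p)) := by
      apply mul_le_mul ht1 (by linarith) (by positivity) (by norm_num)
    linarith

/-- purely algebraic form of the pointwise inequalities:
`t`, `l = ℓ`, `L = Λ'`, `M = Λ''`, `a = τ'`, `b = τ''`, `X = (2-t)/l` -/
theorem pw_alg (t l L M a b : ℝ) (ht0 : 0 ≤ t) (ht1 : t ≤ 1 + 1 / 1000) (hl : 100 ≤ l)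
    (hL : 0 ≤ L) (hM : 100 * L + L ^ 2 ≤ M) (ha : 0 ≤ a) (hb : 0 < b) (hab : a ^ 2 ≤ b) :
    let X := (2 - t) / l
    let Xt := -1 / l - (2 - t) * L / l ^ 2
    let Xs := -(2 - t) * a / l ^ 2
    let Xtt := 2 * L / l ^ 2 - (2 - t) * M / l ^ 2 + 2 * (2 - t) * L ^ 2 / l ^ 3
    let Xts := a / l ^ 2 + 2 * (2 - t) * L * a / l ^ 3
    let Xss := -(2 - t) * b / l ^ 2 + 2 * (2 - t) * a ^ 2 / l ^ 3
    let Yt := Xt / (1 + X)
    let Ytt := Xtt / (1 + X) - Xt ^ 2 / (1 + X) ^ 2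
    let Yts := Xts / (1 + X) - Xt * Xs / (1 + X) ^ 2
    let Yss := Xss / (1 + X) - Xs ^ 2 / (1 + X) ^ 2
    Yss < 0 ∧
    (1 / 4) * (1 / l + t * M / l ^ 2) ≤ -Yt - t * Ytt - t * (Yts ^ 2 / (-Yss)) ∧
    t * (Yts ^ 2 / (-Yss)) ≤ 1 / l + t * M / l ^ 2 ∧
    Xs ^ 2 ≤ (1 / 1000) * (-Yss) ∧
    t * Xt ^ 2 ≤ (1 / 10) * (1 / l + t * M / l ^ 2) := by
  intro X Xt Xs Xtt Xts Xss Yt Ytt Yts Yss
  have hl0 : 0 < l := by linarith
  have hp0 : 0 < l⁻¹ := inv_pos.mpr hl0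
  have hp1 : l⁻¹ ≤ 1 / 100 := by
    rw [one_div]; exact inv_anti₀ (by norm_num) hl
  have hXeq : X = (2 - t) * l⁻¹ := div_eq_mul_inv _ _
  have hX0 : 0 ≤ X := by
    rw [hXeq]; exact mul_nonneg (by linarith) hp0.le
  have hD : 1 + X ≠ 0 := by linarith
  have key := pw_core847 t (2 - t) l⁻¹ (L * l⁻¹) (M * l⁻¹ ^ 2) (a * l⁻¹) (b * l⁻¹ ^ 2) (1 + X)⁻¹
    rfl ht0 ht1 hp0 hp1 (mul_nonneg hL hp0.le) (by
      have := mul_le_mul_of_nonneg_right hM (sq_nonneg l⁻¹)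
      linarith) (mul_nonneg ha hp0.le) (by positivity) (by
      have := mul_le_mul_of_nonneg_right hab (sq_nonneg l⁻¹)
      linarith) (by rw [← hXeq]; exact mul_inv_cancel₀ hD) Xt Xs Xtt Xts Xss
    (by simp only [Xt, div_eq_mul_inv]; ring) (by simp only [Xs, div_eq_mul_inv]; ring)
    (by simp only [Xtt, div_eq_mul_inv]; ring) (by simp only [Xts, div_eq_mul_inv]; ring)
    (by simp only [Xss, div_eq_mul_inv]; ring)
  have eYt : Yt = Xt * (1 + X)⁻¹ := div_eq_mul_inv _ _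
  have eYtt : Ytt = Xtt * (1 + X)⁻¹ - Xt ^ 2 * (1 + X)⁻¹ ^ 2 := by
    simp only [Ytt, div_eq_mul_inv, inv_pow]
  have eYts : Yts = Xts * (1 + X)⁻¹ - Xt * Xs * (1 + X)⁻¹ ^ 2 := by
    simp only [Yts, div_eq_mul_inv, inv_pow]
  have eYss : Yss = Xss * (1 + X)⁻¹ - Xs ^ 2 * (1 + X)⁻¹ ^ 2 := by
    simp only [Yss, div_eq_mul_inv, inv_pow]
  have e1 : 1 / l + t * M / l ^ 2 = l⁻¹ + t * (M * l⁻¹ ^ 2) := by
    rw [div_eq_mul_inv, div_eq_mul_inv]; ring
  rw [e1, eYt, eYtt, eYts, eYss]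
  exact key

end DbarN.JPW
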