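import Pool.Agent.H314.DN.Stmts
import Pool.Agent.H314.DN.A0
import Pool.Agent.H314.DN.A1

set_option autoImplicit false

open MeasureTheory Complex Filter Topology
open scoped ContDiff InnerProductSpace ENNReal ComplexConjugate

namespace DbarN.JWL

section
variable {H0 H1 : Type*} [NormedAddCommGroup H0] [InnerProductSpace ℂ H0] [CompleteSpace H0]
  [NormedAddCommGroup H1] [InnerProductSpace ℂ H1] [CompleteSpace H1]

/-- weak limits in a closed graph -/
theorem weak_limit (T : Submodule ℂ (H0 × H1)) (hTc : IsClosed (T : Set (H0 × H1)))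
    (g : H1) (C : ℝ) (hC : 0 ≤ C)
    (h : ∀ η : ℝ, 0 < η → ∃ f' g', (f', g') ∈ T ∧ ‖f'‖ ≤ C + η ∧ ‖g' - g‖ ≤ η) :
    ∃ f, (f, g) ∈ T ∧ ‖f‖ ≤ C := by
  set e : ℕ → ℝ := fun n => 1 / ((n : ℝ) + 1) with he
  have hepos : ∀ n, 0 < e n := fun n => by simp only [he]; positivity
  have heanti : ∀ n m, n ≤ m → e m ≤ e n := by
    intro n m hnm
    simp only [he]
    have : (n : ℝ) ≤ m := by exact_mod_cast hnm
    gcongr
  have helim : Tendsto e atTop (𝓝 0) := tendsto_one_div_add_atTop_nhds_zero_nat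
  let F : ℕ → Set H0 := fun n => {f' | ∃ g', (f', g') ∈ T ∧ ‖f'‖ ≤ C + e n ∧ ‖g' - g‖ ≤ e n}
  have hFne : ∀ n, (F n).Nonempty := by
    intro n
    obtain ⟨f', g', h1, h2, h3⟩ := h (e n) (hepos n)
    exact ⟨f', g', h1, h2, h3⟩
  have hFanti : ∀ n m, n ≤ m → F m ⊆ F n := by
    rintro n m hnm f' ⟨g', h1, h2, h3⟩
    have := heanti n m hnm
    exact ⟨g', h1, by linarith, by linarith⟩
  have hFmid : ∀ n, ∀ a ∈ F n, ∀ b ∈ F n, (1 / 2 : ℂ) • (a + b) ∈ F n := by
    rintro n a ⟨ga, h1, h2, h3⟩ b ⟨gb, h1', h2', h3'⟩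
    refine ⟨(1 / 2 : ℂ) • (ga + gb), ?_, ?_, ?_⟩
    · have := T.smul_mem (1 / 2 : ℂ) (T.add_mem h1 h1')
      exact this
    · rw [norm_smul]
      have := norm_add_le a b
      have h4 : ‖(1 / 2 : ℂ)‖ = 1 / 2 := by simp
      rw [h4]
      linarith
    · have h5 : (1 / 2 : ℂ) • (ga + gb) - g = (1 / 2 : ℂ) • ((ga - g) + (gb - g)) := by
        module
      rw [h5, norm_smul]
      have := norm_add_le (ga - g) (gb - g)
      have h4 : ‖(1 / 2 : ℂ)‖ = 1 / 2 := by simp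
      rw [h4]
      linarith
  let r : ℕ → ℝ := fun n => sInf (norm '' F n)
  have hbdd : ∀ n, BddBelow (norm '' F n) := by
    intro n
    refine ⟨0, ?_⟩
    rintro _ ⟨a, _, rfl⟩
    exact norm_nonneg a
  have hr0 : ∀ n, 0 ≤ r n := by
    intro n
    apply Real.sInf_nonneg
    rintro _ ⟨a, _, rfl⟩
    exact norm_nonneg a
  have hrle : ∀ n, ∀ a ∈ F n, r n ≤ ‖a‖ := fun n a ha => csInf_le (hbdd n) ⟨a, ha, rfl⟩
  have hrmono : Monotone r := by
    intro n m hnm
    exact csInf_le_csInf (hbdd n) ((hFne m).image _) (Set.image_mono (hFanti n m hnm))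
  have hrC : ∀ n, r n ≤ C + 1 := by
    intro n
    obtain ⟨a, ha⟩ := hFne n
    have h1 := hrle n a ha
    obtain ⟨_, _, h2, _⟩ := ha
    have h3 : e n ≤ e 0 := heanti 0 n (Nat.zero_le n)
    have h4 : e 0 = 1 := by simp [he]
    linarith
  have hbdr : BddAbove (Set.range r) := ⟨C + 1, by rintro _ ⟨n, rfl⟩; exact hrC n⟩
  have hrlim := tendsto_atTop_ciSup hrmono hbdr
  set R := ⨆ n, r n with hR
  have hrR : ∀ n, r n ≤ R := fun n => le_ciSup hbdr n
  have hch : ∀ n, ∃ a ∈ F n, ‖a‖ < r n + e n := by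
    intro n
    obtain ⟨_, ⟨a, ha, rfl⟩, h2⟩ := exists_lt_of_csInf_lt ((hFne n).image _)
      (show sInf (norm '' F n) < r n + e n by
        have := hepos n
        show r n < r n + e n
        linarith)
    exact ⟨a, ha, h2⟩
  choose a haF har using hch
  have hkey : ∀ n m, n ≤ m → ‖a n - a m‖ ^ 2 ≤ 4 * (R + e n) ^ 2 - 4 * (r n) ^ 2 := by
    intro n m hnm
    have hp := parallelogram_law_with_norm ℂ (a n) (a m)
    have h1 := hrle n _ (hFmid n (a n) (haF n) (a m) (hFanti n m hnm (haF m)))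
    rw [norm_smul] at h1
    have h4 : ‖(1 / 2 : ℂ)‖ = 1 / 2 := by simp
    rw [h4] at h1
    have h5 : 2 * r n ≤ ‖a n + a m‖ := by linarith
    have h6 : (2 * r n) ^ 2 ≤ ‖a n + a m‖ ^ 2 := by
      have := hr0 n
      gcongr
    have h7 : ‖a n‖ ≤ R + e n := by linarith [har n, hrR n]
    have h8 : ‖a m‖ ≤ R + e n := by linarith [har m, hrR m, heanti n m hnm]
    have h9 : ‖a n‖ ^ 2 ≤ (R + e n) ^ 2 := by gcongr
    have h10 : ‖a m‖ ^ 2 ≤ (R + e n) ^ 2 := by gcongr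
    nlinarith
  have hblim : Tendsto (fun n => Real.sqrt (4 * (R + e n) ^ 2 - 4 * (r n) ^ 2)) atTop (𝓝 0) := by
    have h1 : Tendsto (fun n => 4 * (R + e n) ^ 2 - 4 * (r n) ^ 2) atTop
        (𝓝 (4 * (R + 0) ^ 2 - 4 * R ^ 2)) :=
      (((helim.const_add R).pow 2).const_mul 4).sub ((hrlim.pow 2).const_mul 4)
    have h2 : 4 * (R + 0) ^ 2 - 4 * R ^ 2 = 0 := by ring
    rw [h2] at h1
    have h3 := (Real.continuous_sqrt.tendsto 0).comp h1
    rw [Real.sqrt_zero] at h3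
    exact h3
  have hcau : CauchySeq a := by
    refine cauchySeq_of_le_tendsto_0' _ ?_ hblim
    intro n m hnm
    rw [dist_eq_norm]
    exact Real.le_sqrt_of_sq_le (hkey n m hnm)
  obtain ⟨f, hf⟩ := cauchySeq_tendsto_of_complete hcau
  choose ga hga1 hga2 hga3 using haF
  have hglim : Tendsto ga atTop (𝓝 g) := by
    rw [tendsto_iff_norm_sub_tendsto_zero]
    exact squeeze_zero (fun n => norm_nonneg _) hga3 helim
  refine ⟨f, ?_, ?_⟩
  · exact hTc.mem_of_tendsto (hf.prodMk_nhds hglim) (Eventually.of_forall hga1)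
  · have h1 : Tendsto (fun n => C + e n) atTop (𝓝 (C + 0)) := helim.const_add C
    rw [add_zero] at h1
    exact le_of_tendsto_of_tendsto' hf.norm h1 hga2

end

end DbarN.JWL
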