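import Pool.Agent.H314.DN.Stmts4
import Pool.Agent.H314.DN.A0
import Pool.Agent.H314.DN.A1
import Pool.Agent.H314.DN.A2
import Pool.Agent.H314.DN.A3
import Pool.Agent.H314.DN.A4
import Pool.Agent.H314.DN.WL
import Pool.Agent.H314.DN.G0
import Pool.Agent.H314.DN.G1
import Pool.Agent.H314.DN.G2
import Pool.Agent.H314.DN.G3
import Pool.Agent.H314.DN.G4
import Pool.Agent.H314.DN.CA1
import Pool.Agent.H314.DN.CA2
import Pool.Agent.H314.DN.PW

set_option autoImplicit false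

open MeasureTheory Complex Filter Topology
open scoped ContDiff InnerProductSpace ENNReal ComplexConjugate

namespace DbarN

open DbarN.JCA1 DbarN.JCA2

theorem pw_all : PW_stmt := by
  intro e k1 l1 hp t s ht0 ht h0 h1
  have hk := hp.hk
  have hl : 0 < l1 := by linarith [hp.hl]
  have htB : tB k1 l1 ≤ 1 + 1 / 1000 := by
    unfold tB
    have : k1 / l1 ≤ 1 / 1000 := by
      rw [div_le_div_iff₀ hl (by norm_num)]
      nlinarith [hp.hk1, hp.hl]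
    linarith
  have hL0 := Lm_nonneg hk hl ht
  have htau := tau_nonneg h0.le h1
  have hel : 100 ≤ el k1 l1 t s := by unfold el; linarith
  exact JPW.pw_alg t (el k1 l1 t s) (Lm1 k1 l1 t) (Lm2 k1 l1 t) (tau1 s) (tau2 s) ht0
    (by linarith) hel (Lm1_nonneg hk hl ht) (Lm2_ge hk hp.hk1 hp.hl ht) (tau1_nonneg h0.le h1)
    (tau2_pos h0.le h1) (tau1_sq_le h0.le h1)

theorem cl0 : Cl0_stmt := by
  intro Ω hΩ g C hC h
  obtain ⟨T, hT, hTc⟩ := JG0.graph0 Ω hΩ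
  obtain ⟨f, hf, hn⟩ := JWL.weak_limit T hTc g C hC (fun η hη => by
    obtain ⟨f', g', h1, h2, h3⟩ := h η hη
    exact ⟨f', g', (hT _ _).2 h1, h2, h3⟩)
  exact ⟨f, (hT _ _).1 hf, hn⟩

theorem cl1 : Cl1_stmt := by
  intro Ω hΩ g C hC h
  obtain ⟨T, hT, hTc⟩ := JG1.graph1 Ω hΩ
  obtain ⟨f, hf, hn⟩ := JWL.weak_limit T hTc g C hC (fun η hη => by
    obtain ⟨f', g', h1, h2, h3⟩ := h η hη
    exact ⟨f', g', (hT _ _).2 h1, h2, h3⟩)
  exact ⟨f, (hT _ _).1 hf, hn⟩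

/-- The abstract part applied to `Ω`. -/
theorem abstract_part (Ω : Set E3) (hΩ : IsOpen Ω) (L : ℝ) (hL : 0 ≤ L)
    (h1 : ∀ (f : L2 Ω) (g : Form Ω) (lam : ℝ), 0 < lam → lam ≤ L → f ≠ 0 → IsDbar0 Ω f g →
      ¬ IsAdj0 Ω g ((lam : ℂ) • f))
    (h2 : ∀ m' : ℝ, L < m' → ¬ ∀ g : Form Ω, IsDbar1 Ω g 0 →
      ∃ f : L2 Ω, IsDbar0 Ω f g ∧ m' * ‖f‖ ^ 2 ≤ ‖g‖ ^ 2)
    (h3 : ∀ c : Form Ω, (∀ φ, IsTest Ω φ → ∫ x in Ω, ∑ i : Fin 3, c i x * dbar i φ x = 0) →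
      ∃ v : Form Ω, IsDbar1 Ω v c ∧ (L + 1) * ‖v‖ ^ 2 ≤ ‖c‖ ^ 2)
    (h4 : ∀ u : Form Ω, IsDbar1 Ω u 0 → ∃ f : L2 Ω, IsDbar0 Ω f u) :
    ∃ lam : ℝ, (lam : ℂ) ∈ spec Ω ∧ (∀ μ ∈ spec Ω, μ.im = 0 ∧ lam ≤ μ.re) ∧
      ¬ ∃ u : Form Ω, u ≠ 0 ∧ Box Ω u ((lam : ℂ) • u) := by
  obtain ⟨T, hT, hTc⟩ := JG0.graph0 Ω hΩ
  obtain ⟨S, hS, hSc⟩ := JG1.graph1 Ω hΩ
  have hT0 : ∀ g, ((0 : L2 Ω), g) ∈ T → g = 0 := fun g hg =>
    JG2.dbar0_zero Ω hΩ g ((hT _ _).1 hg)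
  have hS0 : ∀ g, ((0 : Form Ω), g) ∈ S → g = 0 := fun g hg =>
    JG2.dbar1_zero Ω hΩ g ((hS _ _).1 hg)
  have hTd : Dense {f : L2 Ω | ∃ g, (f, g) ∈ T} := by
    have := JG3.dbar0_dense Ω hΩ
    simpa only [hT] using this
  have hSd : Dense {u : Form Ω | ∃ c, (u, c) ∈ S} := by
    have := JG3.dbar1_dense Ω hΩ
    simpa only [hS] using this
  have hST : ∀ f g, (f, g) ∈ T → (g, (0 : Form Ω)) ∈ S := fun f g h =>
    (hS _ _).2 (JG4.dbar_dbar Ω hΩ f g ((hT _ _).1 h))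
  have hadj0 : ∀ u f, AdjR T u f ↔ IsAdj0 Ω u f := by
    intro u f
    constructor
    · intro h a b hab
      exact h (a, b) ((hT _ _).2 hab)
    · intro h p hp
      exact h p.1 p.2 ((hT _ _).1 hp)
  have hadj1 : ∀ u f, AdjR S u f ↔ IsAdj1 Ω u f := by
    intro u f
    constructor
    · intro h a b hab
      exact h (a, b) ((hS _ _).2 hab)
    · intro h p hp
      exact h p.1 p.2 ((hS _ _).1 hp)
  have hbox : ∀ u w, BoxR T S u w ↔ Box Ω u w := by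
    intro u w
    unfold BoxR Box
    simp only [hadj0, hadj1, hT, hS]
  have hspec : specR (BoxR T S) = spec Ω := by
    unfold specR spec
    simp only [hbox]
  obtain ⟨R, hR⟩ := JA2.resolvent T S hTc hSc (JA0.biadj T hTc) hST
  -- low energy vectors
  have hlow : ∀ m' : ℝ, L < m' → ∃ u f ρ, AdjR T u f ∧ (u, ρ) ∈ S ∧
      ‖f‖ ^ 2 + ‖ρ‖ ^ 2 < m' * ‖u‖ ^ 2 := by
    intro m' hm'
    by_contra hcon
    push_neg at hcon
    apply h2 m' hm'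
    intro g hg
    obtain ⟨f, g₁, hfg, hf, he⟩ := JA1.solve_of_apriori T S hSc (JA0.biadj T hTc) hST m'
      (by linarith) (fun u f ρ ha hs => hcon u f ρ ha hs) g 0 ((hS _ _).2 hg)
    have hgg : g - g₁ = 0 := by
      have : m' * ‖g - g₁‖ ^ 2 ≤ 0 := by simpa using he
      have h0 : ‖g - g₁‖ ^ 2 ≤ 0 := by
        by_contra hc
        push_neg at hc
        have := mul_pos (show 0 < m' by linarith) hc
        linarith
      have h1 : ‖g - g₁‖ = 0 := by nlinarith [norm_nonneg (g - g₁)]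
      exact norm_eq_zero.1 h1
    have hg1 : g₁ = g := by
      rw [sub_eq_zero] at hgg
      exact hgg.symm
    subst hg1
    exact ⟨f, (hT _ _).1 hfg, hf⟩
  obtain ⟨lam, hlam0, hlamL, hmem, hlb⟩ := JA3.spec_of_resolvent T S hTc hSc hT0 hS0 hTd hSd hST
    R hR L hL hlow
  have hno := JA4.no_eigen T S hTc hSc hT0 hS0 hST L
    (fun f g lam h0 hl hf hfg hadj => h1 f g lam h0 hl hf ((hT _ _).1 hfg) ((hadj0 _ _).1 hadj))
    (fun v c hvc hperp hv => by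
      have hvc' := (hS _ _).1 hvc
      obtain ⟨w, hw, hwn⟩ := h3 c (JG4.dbar_dbar1 Ω hΩ v c hvc')
      have hker : (v - w, (0 : Form Ω)) ∈ S := by
        have := S.sub_mem hvc ((hS _ _).2 hw)
        simpa using this
      have horth := hperp _ hker
      -- ‖v‖ ≤ ‖w‖
      have hvw : ‖v‖ ^ 2 ≤ ‖w‖ ^ 2 := by
        have e1 : inner ℂ v v = inner ℂ w v := by
          have : inner ℂ (v - w) v = inner ℂ v v - inner ℂ w v := inner_sub_left _ _ _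
          rw [horth] at this
          exact (sub_eq_zero.1 this.symm)
        have e2 : ‖v‖ ^ 2 = ‖(inner ℂ w v : ℂ)‖ := by
          rw [← e1, inner_self_eq_norm_sq_to_K]
          simp
        have e3 : ‖(inner ℂ w v : ℂ)‖ ≤ ‖w‖ * ‖v‖ := norm_inner_le_norm w v
        have hv0 : 0 < ‖v‖ := norm_pos_iff.2 hv
        have e4 : ‖v‖ ≤ ‖w‖ := by nlinarith
        exact pow_le_pow_left₀ (norm_nonneg v) e4 2
      have hvpos : 0 < ‖v‖ ^ 2 := by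
        have : 0 < ‖v‖ := norm_pos_iff.2 hv
        positivity
      nlinarith)
    (fun u hu => by
      obtain ⟨f, hf⟩ := h4 u ((hS _ _).1 hu)
      exact ⟨f, (hT _ _).2 hf⟩)
    lam hlam0 hlamL
  refine ⟨lam, ?_, ?_, ?_⟩
  · rw [← hspec]; exact hmem
  · rw [← hspec]; exact hlb
  · rintro ⟨u, hu, hb⟩
    exact hno ⟨u, hu, (hbox _ _).2 hb⟩

end DbarN
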