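import Mathlib

set_option autoImplicit false

open MeasureTheory Complex
open scoped ContDiff InnerProductSpace ENNReal

namespace DbarNeumann

/-- `ℂ³`, coordinates `x 0, x 1, x 2`. -/
abbrev E3 := Fin 3 → ℂ

/-- The Wirtinger derivative `∂φ/∂z̄_j` of a (real differentiable) function on `ℂ³`. -/
noncomputable def dbar (j : Fin 3) (φ : E3 → ℂ) (x : E3) : ℂ :=
  (1 / 2) * (fderiv ℝ φ x (Pi.single j 1) + I * fderiv ℝ φ x (Pi.single j I))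

/-- Test functions on `Ω`: smooth, with compact support contained in `Ω`. -/
structure IsTest (Ω : Set E3) (φ : E3 → ℂ) : Prop where
  smooth : ContDiff ℝ ∞ φ
  compact : HasCompactSupport φ
  supp : tsupport φ ⊆ Ω

/-- The Hilbert space `L²(Ω)` (Lebesgue measure). -/
def L2 (Ω : Set E3) : Type := Lp ℂ 2 ((volume : Measure E3).restrict Ω)

noncomputable instance instL2N (Ω : Set E3) : NormedAddCommGroup (L2 Ω) :=
  MeasureTheory.Lp.instNormedAddCommGroup (E := ℂ) (p := 2)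
    (μ := (volume : Measure E3).restrict Ω)

noncomputable instance instL2I (Ω : Set E3) : InnerProductSpace ℂ (L2 Ω) :=
  MeasureTheory.L2.innerProductSpace (𝕜 := ℂ) (E := ℂ) (μ := (volume : Measure E3).restrict Ω)

/-- Square integrable `(0,1)`-forms `Σ u_j dz̄_j` on `Ω ⊆ ℂ³`, and also square integrable
`(0,2)`-forms `c_0 dz̄_1∧dz̄_2 + c_1 dz̄_2∧dz̄_0 + c_2 dz̄_0∧dz̄_1`: triples in `L²(Ω)` with
`‖u‖² = Σ ‖u_j‖²`. -/
def Form (Ω : Set E3) : Type := PiLp 2 (fun _ : Fin 3 => L2 Ω)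

noncomputable instance instFormN (Ω : Set E3) : NormedAddCommGroup (Form Ω) :=
  PiLp.normedAddCommGroup 2 (fun _ : Fin 3 => L2 Ω)

noncomputable instance instFormI (Ω : Set E3) : InnerProductSpace ℂ (Form Ω) :=
  PiLp.innerProductSpace (𝕜 := ℂ) (fun _ : Fin 3 => L2 Ω)

/-- the underlying function of an element of `L²(Ω)` -/
noncomputable def L2.fn {Ω : Set E3} (f : L2 Ω) (x : E3) : ℂ :=
  (show Lp ℂ 2 ((volume : Measure E3).restrict Ω) from f) x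

/-- the `j`-th coefficient of a form -/
def Form.coef {Ω : Set E3} (u : Form Ω) (j : Fin 3) : L2 Ω :=
  (show PiLp 2 (fun _ : Fin 3 => L2 Ω) from u) j

/-- inner product of `L²(Ω)` (Mathlib's: linear in the second argument) -/
noncomputable def L2.ip {Ω : Set E3} (f g : L2 Ω) : ℂ :=
  @inner ℂ (L2 Ω) InnerProductSpace.toInner f g

/-- inner product of forms -/
noncomputable def Form.ip {Ω : Set E3} (u w : Form Ω) : ℂ :=
  @inner ℂ (Form Ω) InnerProductSpace.toInner u w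

/-- The maximal (weak) `∂̄` on functions: `∂̄ f = Σ g_j dz̄_j`. -/
def IsDbar0 (Ω : Set E3) (f : L2 Ω) (g : Form Ω) : Prop :=
  ∀ j : Fin 3, ∀ φ : E3 → ℂ, IsTest Ω φ →
    ∫ x in Ω, f.fn x * dbar j φ x = - ∫ x in Ω, (g.coef j).fn x * φ x

/-- The maximal (weak) `∂̄` on `(0,1)`-forms: `∂̄ u = c`; the coefficient of
`dz̄_{i+1} ∧ dz̄_{i+2}` is `∂̄_{i+1} u_{i+2} - ∂̄_{i+2} u_{i+1}` (indices mod 3). -/
def IsDbar1 (Ω : Set E3) (u : Form Ω) (c : Form Ω) : Prop :=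
  ∀ i : Fin 3, ∀ φ : E3 → ℂ, IsTest Ω φ →
    ∫ x in Ω, ((u.coef (i + 2)).fn x * dbar (i + 1) φ x - (u.coef (i + 1)).fn x * dbar (i + 2) φ x)
      = - ∫ x in Ω, (c.coef i).fn x * φ x

/-- Hilbert space adjoint of the maximal `∂̄` on functions: `∂̄* u = f`. -/
def IsAdj0 (Ω : Set E3) (u : Form Ω) (f : L2 Ω) : Prop :=
  ∀ (h : L2 Ω) (g : Form Ω), IsDbar0 Ω h g → Form.ip g u = L2.ip h f

/-- Hilbert space adjoint of the maximal `∂̄` on `(0,1)`-forms: `∂̄* c = u`. -/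
def IsAdj1 (Ω : Set E3) (c : Form Ω) (u : Form Ω) : Prop :=
  ∀ v w : Form Ω, IsDbar1 Ω v w → Form.ip w c = Form.ip v u

/-- The graph of the `∂̄`-Neumann Laplacian `□₁ = ∂̄ ∂̄* + ∂̄* ∂̄` on `(0,1)`-forms. -/
def Box (Ω : Set E3) (u w : Form Ω) : Prop :=
  ∃ (f : L2 Ω) (c g₁ g₂ : Form Ω), IsAdj0 Ω u f ∧ IsDbar1 Ω u c ∧ IsDbar0 Ω f g₁ ∧
    IsAdj1 Ω c g₂ ∧ w = g₁ + g₂

/-- The spectrum of `□₁`: the `μ` for which `□₁ - μ` has no bounded two-sided inverse. -/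
def spec (Ω : Set E3) : Set ℂ :=
  {μ | ¬ ∃ R : Form Ω →L[ℂ] Form Ω, (∀ v, Box Ω (R v) (v + μ • R v)) ∧
    (∀ u w, Box Ω u w → R (w - μ • u) = u)}

/-- `Ω` has `C^∞` boundary: near each boundary point `Ω = {ρ < 0}` with `ρ` smooth, `dρ ≠ 0`. -/
def SmoothBoundary (Ω : Set E3) : Prop :=
  ∀ p ∈ frontier Ω, ∃ (U : Set E3) (ρ : E3 → ℝ), IsOpen U ∧ p ∈ U ∧ ContDiffOn ℝ ∞ ρ U ∧
    ρ p = 0 ∧ fderiv ℝ ρ p ≠ 0 ∧ ∀ x ∈ U, x ∈ Ω ↔ ρ x < 0

/-- `Ω` is pseudoconvex: it has a continuous plurisubharmonic exhaustion function. -/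
def Pseudoconvex (Ω : Set E3) : Prop :=
  ∃ ψ : E3 → ℝ, ContinuousOn ψ Ω ∧ (∀ M : ℝ, IsCompact {x ∈ Ω | ψ x ≤ M}) ∧
    ∀ a b : E3, (∀ ζ : ℂ, ‖ζ‖ ≤ 1 → a + ζ • b ∈ Ω) →
      ψ a ≤ (2 * Real.pi)⁻¹ * ∫ θ in (0 : ℝ)..(2 * Real.pi), ψ (a + Complex.exp (θ * I) • b)

end DbarNeumann
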