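import Pool.Agent.H314.DN.FDefs
import Pool.Agent.H314.DN.Main

set_option autoImplicit false

open MeasureTheory Complex
open scoped ContDiff InnerProductSpace ENNReal

namespace DbarNeumann

theorem isDbar0_iff (Ω : Set E3) (f : L2 Ω) (g : Form Ω) :
    IsDbar0 Ω f g ↔ DbarN.IsDbar0 Ω f g :=
  ⟨fun h j φ hφ => h j φ ⟨hφ.1, hφ.2, hφ.3⟩, fun h j φ hφ => h j φ ⟨hφ.1, hφ.2, hφ.3⟩⟩

theorem isDbar1_iff (Ω : Set E3) (f : Form Ω) (g : Form Ω) :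
    IsDbar1 Ω f g ↔ DbarN.IsDbar1 Ω f g :=
  ⟨fun h j φ hφ => h j φ ⟨hφ.1, hφ.2, hφ.3⟩, fun h j φ hφ => h j φ ⟨hφ.1, hφ.2, hφ.3⟩⟩

theorem isAdj0_iff (Ω : Set E3) (u : Form Ω) (f : L2 Ω) :
    IsAdj0 Ω u f ↔ DbarN.IsAdj0 Ω u f :=
  ⟨fun h a b hab => h a b ((isDbar0_iff Ω a b).2 hab),
    fun h a b hab => h a b ((isDbar0_iff Ω a b).1 hab)⟩

theorem isAdj1_iff (Ω : Set E3) (u f : Form Ω) :
    IsAdj1 Ω u f ↔ DbarN.IsAdj1 Ω u f :=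
  ⟨fun h a b hab => h a b ((isDbar1_iff Ω a b).2 hab),
    fun h a b hab => h a b ((isDbar1_iff Ω a b).1 hab)⟩

theorem box_iff (Ω : Set E3) (u w : Form Ω) : Box Ω u w ↔ DbarN.Box Ω u w := by
  constructor
  · rintro ⟨f, c, g₁, g₂, h1, h2, h3, h4, h5⟩
    exact ⟨f, c, g₁, g₂, (isAdj0_iff _ _ _).1 h1, (isDbar1_iff _ _ _).1 h2,
      (isDbar0_iff _ _ _).1 h3, (isAdj1_iff _ _ _).1 h4, h5⟩
  · rintro ⟨f, c, g₁, g₂, h1, h2, h3, h4, h5⟩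
    exact ⟨f, c, g₁, g₂, (isAdj0_iff _ _ _).2 h1, (isDbar1_iff _ _ _).2 h2,
      (isDbar0_iff _ _ _).2 h3, (isAdj1_iff _ _ _).2 h4, h5⟩

theorem spec_iff (Ω : Set E3) (μ : ℂ) : μ ∈ spec Ω ↔ μ ∈ DbarN.spec Ω := by
  constructor
  · intro h hR
    obtain ⟨R, h1, h2⟩ := hR
    exact h ⟨R, fun v => (box_iff _ _ _).2 (h1 v), fun u w hb => h2 u w ((box_iff _ _ _).1 hb)⟩
  · intro h hR
    obtain ⟨R, h1, h2⟩ := hR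
    exact h ⟨R, fun v => (box_iff _ _ _).1 (h1 v), fun u w hb => h2 u w ((box_iff _ _ _).2 hb)⟩

theorem main : ∃ Ω : Set E3, Ω.Nonempty ∧ IsOpen Ω ∧ IsConnected Ω ∧ Bornology.IsBounded Ω ∧
      SmoothBoundary Ω ∧ Pseudoconvex Ω ∧ Convex ℝ Ω ∧
      ∃ lam : ℝ, (lam : ℂ) ∈ spec Ω ∧ (∀ μ ∈ spec Ω, μ.im = 0 ∧ lam ≤ μ.re) ∧
        ¬ ∃ u : Form Ω, u ≠ 0 ∧ Box Ω u ((lam : ℂ) • u) := by
  obtain ⟨Ω, h1, h2, h3, h4, h5, h6, h7, lam, h8, h9, h10⟩ := DbarN.main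
  refine ⟨Ω, h1, h2, h3, h4, h5, h6, h7, lam, (spec_iff _ _).2 h8,
    fun μ hμ => h9 μ ((spec_iff _ _).1 hμ), ?_⟩
  rintro ⟨u, hu, hb⟩
  exact h10 ⟨u, hu, (box_iff _ _ _).1 hb⟩

end DbarNeumann
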