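import Pool.Agent.H314.DN.Stmts3
import Pool.Agent.H314.DN.A0
import Pool.Agent.H314.DN.A1

set_option autoImplicit false

open MeasureTheory Complex Filter Topology
open scoped ContDiff InnerProductSpace ENNReal ComplexConjugate

namespace DbarN.JLC

theorem lamC2_smooth (φ : ℂ → ℝ) (hφ : ContDiff ℝ ∞ φ) (hc : HasCompactSupport φ)
    (hs : tsupport φ ⊆ Metric.ball 0 1) :
    lamStar * ∫ z, φ z ^ 2 ≤ (1 / 4) * ∫ z, ((fderiv ℝ φ z 1) ^ 2 + (fderiv ℝ φ z I) ^ 2) := by
  have hR : 0 ≤ (1 / 4) * ∫ z, ((fderiv ℝ φ z 1) ^ 2 + (fderiv ℝ φ z I) ^ 2) := by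
    apply mul_nonneg (by norm_num)
    apply integral_nonneg
    intro z
    positivity
  by_cases h0 : (∫ z, φ z ^ 2) = 0
  · rw [h0, mul_zero]; exact hR
  · have hpos : 0 < ∫ z, φ z ^ 2 :=
      lt_of_le_of_ne (integral_nonneg (fun z => sq_nonneg _)) (Ne.symm h0)
    set c := Real.sqrt (∫ z, φ z ^ 2) with hcdef
    have hcpos : 0 < c := Real.sqrt_pos.mpr hpos
    have hc2 : c ^ 2 = ∫ z, φ z ^ 2 := Real.sq_sqrt hpos.le
    let ψ : ℂ → ℝ := fun z => c⁻¹ * φ z
    have hψd : ∀ z v, fderiv ℝ ψ z v = c⁻¹ * fderiv ℝ φ z v := by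
      intro z v
      have : fderiv ℝ ψ z = c⁻¹ • fderiv ℝ φ z := by
        exact fderiv_const_mul ((hφ.differentiable (by simp)) z) c⁻¹
      rw [this]; rfl
    have hmem : (1/4) * ∫ z, ((fderiv ℝ ψ z 1) ^ 2 + (fderiv ℝ ψ z I) ^ 2) ∈
        {r | ∃ φ : ℂ → ℝ, ContDiff ℝ ∞ φ ∧ HasCompactSupport φ ∧
          tsupport φ ⊆ Metric.ball 0 1 ∧ (∫ z, φ z ^ 2) = 1 ∧
          r = (1 / 4) * ∫ z, ((fderiv ℝ φ z 1) ^ 2 + (fderiv ℝ φ z I) ^ 2)} := by
      refine ⟨ψ, contDiff_const.mul hφ, hc.mul_left, ?_, ?_, rfl⟩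
      · exact (closure_mono (Function.support_mul_subset_right _ _)).trans hs
      · have : ∀ z, ψ z ^ 2 = (c^2)⁻¹ * φ z ^ 2 := by
          intro z
          simp only [ψ]
          field_simp
        simp_rw [this]
        rw [integral_const_mul, ← hc2]
        field_simp
    have hle : lamStar ≤ (1/4) * ∫ z, ((fderiv ℝ ψ z 1) ^ 2 + (fderiv ℝ ψ z I) ^ 2) := by
      unfold lamStar
      apply csInf_le _ hmem
      refine ⟨0, ?_⟩
      rintro r ⟨χ, _, _, _, _, rfl⟩
      apply mul_nonneg (by norm_num)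
      apply integral_nonneg
      intro z
      positivity
    have e : ∫ z, ((fderiv ℝ ψ z 1) ^ 2 + (fderiv ℝ ψ z I) ^ 2) =
        (c^2)⁻¹ * ∫ z, ((fderiv ℝ φ z 1) ^ 2 + (fderiv ℝ φ z I) ^ 2) := by
      rw [← integral_const_mul]
      congr 1
      funext z
      rw [hψd, hψd]
      field_simp
    rw [e] at hle
    rw [← hc2]
    have h5 := mul_le_mul_of_nonneg_right hle (sq_nonneg c)
    refine h5.trans (le_of_eq ?_)
    field_simp

open scoped Convolution Pointwise in
theorem lamC2 : LamC2_stmt := by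
  classical
  intro φ hφ hc hs
  let χ : ℕ → ContDiffBump (0 : ℂ) := fun n =>
    ⟨1 / (2 * ((n : ℝ) + 1)), 1 / ((n : ℝ) + 1), by positivity, by
      apply one_div_lt_one_div_of_lt <;> nlinarith [(Nat.cast_nonneg n : (0:ℝ) ≤ n)]⟩
  have hχ : ∀ n, (χ n).rOut = 1 / ((n : ℝ) + 1) := fun n => rfl
  have hχt : Tendsto (fun n => (χ n).rOut) atTop (𝓝 0) := tendsto_one_div_add_atTop_nhds_zero_nat
  let L := ContinuousLinearMap.lsmul ℝ ℝ (E := ℝ)
  let F : ℕ → ℂ → ℝ := fun n => ((χ n).normed volume ⋆[ContinuousLinearMap.lsmul ℝ ℝ, volume] φ)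
  let G : ℕ → ℂ → (ℂ →L[ℝ] ℝ) := fun n =>
    ((χ n).normed volume ⋆[ContinuousLinearMap.lsmul ℝ ℝ, volume] (fderiv ℝ φ))
  have hφ1 : ContDiff ℝ 1 φ := hφ.of_le (by norm_num)
  have hφc : Continuous φ := hφ.continuous
  have hdc : Continuous (fderiv ℝ φ) := hφ1.continuous_fderiv (by norm_num)
  have hFd : ∀ n z, HasFDerivAt (F n) (G n z) z := by
    intro n z
    have hli : LocallyIntegrable ((χ n).normed (volume : Measure ℂ)) (volume : Measure ℂ) :=
      (χ n).continuous_normed.locallyIntegrable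
    have h1 := hc.hasFDerivAt_convolution_right (ContinuousLinearMap.lsmul ℝ ℝ) hli hφ1 z
    exact h1
  have hFfd : ∀ n z, fderiv ℝ (F n) z = G n z := fun n z => (hFd n z).fderiv
  have hFs : ∀ n, ContDiff ℝ ∞ (F n) := by
    intro n
    exact (χ n).hasCompactSupport_normed.contDiff_convolution_left (n := ⊤) _ (χ n).contDiff_normed
      hφc.locallyIntegrable
  have hFc : ∀ n, HasCompactSupport (F n) := by
    intro n
    exact (χ n).hasCompactSupport_normed.convolution _ hc
  obtain ⟨δ, hδ, hδs⟩ := hc.isCompact.exists_cthickening_subset_open Metric.isOpen_ball hs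
  have hev : ∀ᶠ n in atTop, tsupport (F n) ⊆ Metric.ball 0 1 := by
    filter_upwards [hχt.eventually (gt_mem_nhds hδ)] with n hn
    have h1 : Function.support (F n) ⊆ Metric.cthickening δ (tsupport φ) := by
      refine (support_convolution_subset_swap _).trans ?_
      rintro _ ⟨x, hx, y, hy, rfl⟩
      rw [(χ n).support_normed_eq, mem_ball_zero_iff] at hy
      apply Metric.mem_cthickening_of_dist_le _ x δ _ (subset_tsupport _ hx)
      simp only [dist_eq_norm, add_sub_cancel_left]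
      linarith
    exact (closure_minimal h1 Metric.isClosed_cthickening).trans hδs
  obtain ⟨M, hM⟩ := hc.exists_bound_of_continuous hφc
  obtain ⟨M1, hM1⟩ := (hc.fderiv (𝕜 := ℝ)).exists_bound_of_continuous hdc
  have hFb : ∀ n z, ‖F n z‖ ≤ 3 * M := by
    intro n z
    have h1 : dist (F n z) (φ z) ≤ 2 * M := by
      apply (χ n).dist_normed_convolution_le hφc.aestronglyMeasurable
      intro x _
      rw [dist_eq_norm]
      have := norm_sub_le (φ x) (φ z)
      linarith [hM x, hM z]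
    rw [dist_eq_norm] at h1
    have h2 := norm_le_norm_sub_add (F n z) (φ z)
    linarith [hM z]
  have hGb : ∀ n z, ‖G n z‖ ≤ 3 * M1 := by
    intro n z
    have h1 : dist (G n z) (fderiv ℝ φ z) ≤ 2 * M1 := by
      apply (χ n).dist_normed_convolution_le hdc.aestronglyMeasurable
      intro x _
      rw [dist_eq_norm]
      have := norm_sub_le (fderiv ℝ φ x) (fderiv ℝ φ z)
      linarith [hM1 x, hM1 z]
    rw [dist_eq_norm] at h1
    have h2 := norm_le_norm_sub_add (G n z) (fderiv ℝ φ z)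
    linarith [hM1 z]
  have hFt : ∀ z, Tendsto (fun n => F n z) atTop (𝓝 (φ z)) := fun z =>
    ContDiffBump.convolution_tendsto_right_of_continuous hχt hφc z
  have hGt : ∀ z, Tendsto (fun n => G n z) atTop (𝓝 (fderiv ℝ φ z)) := fun z =>
    ContDiffBump.convolution_tendsto_right_of_continuous hχt hdc z
  have hbi : ∀ c : ℝ, Integrable ((Metric.ball (0 : ℂ) 1).indicator (fun _ => c)) := by
    intro c
    rw [integrable_indicator_iff Metric.isOpen_ball.measurableSet]
    exact integrableOn_const (measure_ball_lt_top.ne)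
  have hi1 : Tendsto (fun n => ∫ z, F n z ^ 2) atTop (𝓝 (∫ z, φ z ^ 2)) := by
    apply tendsto_integral_filter_of_dominated_convergence _ _ _ (hbi ((3 * M) ^ 2)) _
    · exact Eventually.of_forall (fun n => ((hFs n).continuous.pow 2).aestronglyMeasurable)
    · filter_upwards [hev] with n hn
      refine ae_of_all _ (fun z => ?_)
      by_cases hz : z ∈ Metric.ball (0 : ℂ) 1
      · rw [Set.indicator_of_mem hz, norm_pow]
        exact pow_le_pow_left₀ (norm_nonneg _) (hFb n z) 2
      · rw [Set.indicator_of_notMem hz]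
        have : F n z = 0 := image_eq_zero_of_notMem_tsupport (fun h => hz (hn h))
        rw [this]; simp
    · exact ae_of_all _ (fun z => (hFt z).pow 2)
  have hi2 : Tendsto (fun n => (1 / 4) * ∫ z, ((fderiv ℝ (F n) z 1) ^ 2 + (fderiv ℝ (F n) z I) ^ 2)) atTop
      (𝓝 ((1 / 4) * ∫ z, ((fderiv ℝ φ z 1) ^ 2 + (fderiv ℝ φ z I) ^ 2))) := by
    apply Tendsto.const_mul
    apply tendsto_integral_filter_of_dominated_convergence _ _ _ (hbi ((3 * M1) ^ 2 + (3 * M1) ^ 2)) _
    · refine Eventually.of_forall (fun n => ?_)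
      have h1 : Continuous (fderiv ℝ (F n)) := (hFs n).continuous_fderiv (by simp)
      exact (((h1.clm_apply continuous_const).pow 2).add ((h1.clm_apply continuous_const).pow 2)).aestronglyMeasurable
    · filter_upwards [hev] with n hn
      refine ae_of_all _ (fun z => ?_)
      by_cases hz : z ∈ Metric.ball (0 : ℂ) 1
      · rw [Set.indicator_of_mem hz, hFfd]
        have h1 : ∀ v : ℂ, ‖v‖ = 1 → (G n z v) ^ 2 ≤ (3 * M1) ^ 2 := by
          intro v hv
          have h2 := (G n z).le_opNorm v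
          rw [hv, mul_one] at h2
          rw [← sq_abs, ← Real.norm_eq_abs]
          exact pow_le_pow_left₀ (norm_nonneg _) (h2.trans (hGb n z)) 2
        rw [Real.norm_eq_abs, abs_of_nonneg (by positivity)]
        exact add_le_add (h1 1 (by simp)) (h1 I (by simp))
      · rw [Set.indicator_of_notMem hz]
        have : fderiv ℝ (F n) z = 0 := fderiv_of_notMem_tsupport (𝕜 := ℝ) (fun h => hz (hn h))
        rw [this]; simp
    · refine ae_of_all _ (fun z => ?_)
      have h1 : ∀ v : ℂ, Tendsto (fun n => fderiv ℝ (F n) z v) atTop (𝓝 (fderiv ℝ φ z v)) := by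
        intro v
        simp_rw [hFfd]
        exact ((ContinuousLinearMap.apply ℝ ℝ v).continuous.tendsto _).comp (hGt z)
      exact ((h1 1).pow 2).add ((h1 I).pow 2)
  refine le_of_tendsto_of_tendsto (hi1.const_mul lamStar) hi2 ?_
  filter_upwards [hev] with n hn
  exact lamC2_smooth (F n) (hFs n) (hFc n) hn

end DbarN.JLC
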