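import Pool.Agent.H314.DN.Stmts4
import Pool.Agent.H314.DN.A0
import Pool.Agent.H314.DN.A1

set_option autoImplicit false

open MeasureTheory Complex Filter Topology
open scoped ContDiff InnerProductSpace ENNReal ComplexConjugate

namespace DbarN.JMB
namespace MB833

section
variable {k1 l1 : ℝ}

/-- auxiliary: polynomial in `k1/(t-1)` times the flat function -/
noncomputable def ca1G (k1 : ℝ) (p : Polynomial ℝ) (t : ℝ) : ℝ :=
  p.eval (((t - 1) / k1)⁻¹) * expNegInvGlue ((t - 1) / k1)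

theorem ca1G_hasDerivAt (k1 : ℝ) (p : Polynomial ℝ) (t : ℝ) :
    HasDerivAt (ca1G k1 p)
      (ca1G k1 (Polynomial.X ^ 2 * (p - Polynomial.derivative (R := ℝ) p)) t * (1 / k1)) t := by
  have h1 := expNegInvGlue.hasDerivAt_polynomial_eval_inv_mul p ((t - 1) / k1)
  have h2 : HasDerivAt (fun t : ℝ => (t - 1) / k1) (1 / k1) t :=
    ((hasDerivAt_id t).sub_const 1).div_const k1
  exact h1.comp t h2

theorem ca1G_continuous (k1 : ℝ) (p : Polynomial ℝ) : Continuous (ca1G k1 p) := by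
  have h1 := expNegInvGlue.continuous_polynomial_eval_inv_mul p
  have h2 : Continuous (fun t : ℝ => (t - 1) / k1) := by fun_prop
  exact h1.comp h2

theorem ca1_om (t : ℝ) : om k1 l1 t = Real.exp l1 * ca1G k1 1 t := by
  unfold om ca1G
  simp

theorem ca1_om1 (hk : 0 < k1) (t : ℝ) :
    om1 k1 l1 t = Real.exp l1 * (ca1G k1 (Polynomial.X ^ 2) t * (1 / k1)) := by
  unfold om1 om ca1G
  simp only [Polynomial.eval_pow, Polynomial.eval_X, inv_div, div_pow]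
  by_cases h : t - 1 = 0
  · simp [h]
  · field_simp

theorem ca1_om2 (hk : 0 < k1) (t : ℝ) :
    om2 k1 l1 t = Real.exp l1 * (ca1G k1 (Polynomial.X ^ 2 * (Polynomial.X ^ 2 -
      Polynomial.derivative (R := ℝ) (Polynomial.X ^ 2))) t * (1 / k1) * (1 / k1)) := by
  unfold om2 om ca1G
  simp only [Polynomial.eval_mul, Polynomial.eval_sub, Polynomial.derivative_X_pow,
    Polynomial.eval_pow, Polynomial.eval_X, Polynomial.eval_C, inv_div]
  generalize expNegInvGlue ((t - 1) / k1) = g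
  generalize t - 1 = s
  by_cases h : s = 0
  · simp [h]
  · rw [show 2 - 1 = 1 from rfl, pow_one]
    push_cast
    field_simp

theorem om_of_le_one (hk : 0 < k1) {t : ℝ} (ht : t ≤ 1) : om k1 l1 t = 0 := by
  unfold om
  rw [expNegInvGlue.zero_of_nonpos (div_nonpos_of_nonpos_of_nonneg (by linarith) hk.le), mul_zero]
theorem om_of_gt_one (hk : 0 < k1) {t : ℝ} (ht : 1 < t) :
    om k1 l1 t = Real.exp (l1 - k1 / (t - 1)) := by
  have h : ¬ (t - 1) / k1 ≤ 0 := by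
    rw [not_le]
    exact div_pos (by linarith) hk
  unfold om expNegInvGlue
  rw [if_neg h, ← Real.exp_add, inv_div]
  rfl
theorem om_nonneg (t : ℝ) : 0 ≤ om k1 l1 t :=
  mul_nonneg (Real.exp_pos _).le (expNegInvGlue.nonneg _)
theorem om_mono (hk : 0 < k1) : Monotone (om k1 l1) := by
  intro s t hst
  unfold om
  refine mul_le_mul_of_nonneg_left (expNegInvGlue.monotone ?_) (Real.exp_pos _).le
  gcongr
theorem om_lt_one_iff (hk : 0 < k1) (hl : 0 < l1) (t : ℝ) : om k1 l1 t < 1 ↔ t < tB k1 l1 := by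
  unfold tB
  have hkl : 0 < k1 / l1 := div_pos hk hl
  by_cases ht : t ≤ 1
  · rw [om_of_le_one hk ht]
    exact ⟨fun _ => by linarith, fun _ => one_pos⟩
  · push Not at ht
    have hs : 0 < t - 1 := by linarith
    rw [om_of_gt_one hk ht, Real.exp_lt_one_iff, sub_neg, lt_div_iff₀ hs, ← sub_lt_iff_lt_add',
      lt_div_iff₀ hl, mul_comm]
theorem om_contDiff : ContDiff ℝ ∞ (om k1 l1) := by
  unfold om
  have h : ContDiff ℝ ∞ (fun t : ℝ => (t - 1) / k1) := by fun_prop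
  exact contDiff_const.mul (expNegInvGlue.contDiff.comp h)
theorem om_hasDerivAt (hk : 0 < k1) (t : ℝ) : HasDerivAt (om k1 l1) (om1 k1 l1 t) t := by
  have h1 := (ca1G_hasDerivAt k1 1 t).const_mul (Real.exp l1)
  have h2 : om k1 l1 = fun t => Real.exp l1 * ca1G k1 1 t := funext ca1_om
  rw [h2, ca1_om1 hk]
  simpa using h1
theorem om1_hasDerivAt (hk : 0 < k1) (t : ℝ) : HasDerivAt (om1 k1 l1) (om2 k1 l1 t) t := by
  have h1 := ((ca1G_hasDerivAt k1 (Polynomial.X ^ 2) t).mul_const (1 / k1)).const_mul (Real.exp l1)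
  have h2 : om1 k1 l1 = fun t => Real.exp l1 * (ca1G k1 (Polynomial.X ^ 2) t * (1 / k1)) :=
    funext (ca1_om1 hk)
  rw [h2, ca1_om2 hk]
  exact h1
theorem om2_continuous (hk : 0 < k1) : Continuous (om2 k1 l1) := by
  rw [show om2 k1 l1 = _ from funext (ca1_om2 hk)]
  exact continuous_const.mul (((ca1G_continuous k1 _).mul continuous_const).mul continuous_const)
theorem om1_nonneg (hk : 0 < k1) (t : ℝ) : 0 ≤ om1 k1 l1 t := by
  unfold om1
  exact mul_nonneg (om_nonneg t) (div_nonneg hk.le (sq_nonneg _))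
theorem om2_ge (hk : 0 < k1) (hk1 : k1 ≤ 1 / 100) (hl : 100 ≤ l1) {t : ℝ} (ht : t < tB k1 l1) :
    100 * om1 k1 l1 t ≤ om2 k1 l1 t := by
  by_cases h1 : t ≤ 1
  · unfold om1 om2
    rw [om_of_le_one hk h1]
    simp
  · push Not at h1
    unfold tB at ht
    obtain ⟨s, hs⟩ : ∃ s, s = t - 1 := ⟨_, rfl⟩
    have hs0 : 0 < s := by linarith
    have hs1 : s * 100 ≤ k1 := by
      have h2 : s < k1 / l1 := by linarith
      rw [lt_div_iff₀ (by linarith)] at h2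
      nlinarith
    unfold om1 om2
    rw [← hs]
    have h3 : 100 * (k1 / s ^ 2) ≤ k1 ^ 2 / s ^ 4 - 2 * k1 / s ^ 3 := by
      have h4 : k1 ^ 2 / s ^ 4 - 2 * k1 / s ^ 3 - 100 * (k1 / s ^ 2) =
          k1 * (k1 - 2 * s - 100 * s ^ 2) / s ^ 4 := by
        field_simp
      have h5 : 0 ≤ k1 - 2 * s - 100 * s ^ 2 := by nlinarith
      have h6 : 0 ≤ k1 * (k1 - 2 * s - 100 * s ^ 2) / s ^ 4 := by positivity
      linarith
    have h7 := mul_le_mul_of_nonneg_left h3 (om_nonneg (k1 := k1) (l1 := l1) t)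
    linarith
theorem dl_pos (hk : 0 < k1) (hl : 0 < l1) {t : ℝ} (ht : t < tB k1 l1) : 0 < dl k1 l1 t := by
  have := (om_lt_one_iff hk hl t).mpr ht
  unfold dl
  linarith
theorem dl_le_one (t : ℝ) : dl k1 l1 t ≤ 1 := by
  have := om_nonneg (k1 := k1) (l1 := l1) t
  unfold dl
  linarith
theorem Lm_nonneg (hk : 0 < k1) (hl : 0 < l1) {t : ℝ} (ht : t < tB k1 l1) : 0 ≤ Lm k1 l1 t := by
  unfold Lm
  have := Real.log_nonpos (dl_pos hk hl ht).le (dl_le_one t)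
  linarith
theorem Lm1_nonneg (hk : 0 < k1) (hl : 0 < l1) {t : ℝ} (ht : t < tB k1 l1) : 0 ≤ Lm1 k1 l1 t :=
  div_nonneg (om1_nonneg hk t) (dl_pos hk hl ht).le
theorem Lm2_ge (hk : 0 < k1) (hk1 : k1 ≤ 1 / 100) (hl : 100 ≤ l1) {t : ℝ} (ht : t < tB k1 l1) :
    100 * Lm1 k1 l1 t + Lm1 k1 l1 t ^ 2 ≤ Lm2 k1 l1 t := by
  unfold Lm1 Lm2
  have h1 := om2_ge hk hk1 hl ht
  have h2 := dl_pos hk (by linarith) ht
  have h3 : 100 * (om1 k1 l1 t / dl k1 l1 t) ≤ om2 k1 l1 t / dl k1 l1 t := by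
    rw [← mul_div_assoc]
    exact div_le_div_of_nonneg_right h1 h2.le
  linarith
theorem dl_hasDerivAt (hk : 0 < k1) (t : ℝ) : HasDerivAt (dl k1 l1) (-om1 k1 l1 t) t := by
  unfold dl
  exact (om_hasDerivAt hk t).const_sub 1
theorem Lm_hasDerivAt (hk : 0 < k1) (hl : 0 < l1) {t : ℝ} (ht : t < tB k1 l1) :
    HasDerivAt (Lm k1 l1) (Lm1 k1 l1 t) t := by
  have h1 : HasDerivAt (fun t => -Real.log (dl k1 l1 t)) (-(-om1 k1 l1 t / dl k1 l1 t)) t :=
    ((dl_hasDerivAt (l1 := l1) hk t).log (dl_pos hk hl ht).ne').neg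
  have h2 : -(-om1 k1 l1 t / dl k1 l1 t) = Lm1 k1 l1 t := by
    unfold Lm1
    ring
  rw [h2] at h1
  exact h1
theorem Lm1_hasDerivAt (hk : 0 < k1) (hl : 0 < l1) {t : ℝ} (ht : t < tB k1 l1) :
    HasDerivAt (Lm1 k1 l1) (Lm2 k1 l1 t) t := by
  have h0 := dl_pos hk hl ht
  have h1 : HasDerivAt (fun t => om1 k1 l1 t / dl k1 l1 t)
      ((om2 k1 l1 t * dl k1 l1 t - om1 k1 l1 t * -om1 k1 l1 t) / dl k1 l1 t ^ 2) t :=
    (om1_hasDerivAt (l1 := l1) hk t).div (dl_hasDerivAt (l1 := l1) hk t) h0.ne'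
  have h2 : (om2 k1 l1 t * dl k1 l1 t - om1 k1 l1 t * -om1 k1 l1 t) / dl k1 l1 t ^ 2 =
      Lm2 k1 l1 t := by
    unfold Lm2
    field_simp
    ring
  rw [h2] at h1
  exact h1
theorem Lm2_continuousOn (hk : 0 < k1) (hl : 0 < l1) :
    ContinuousOn (Lm2 k1 l1) (Set.Iio (tB k1 l1)) := by
  have h1 : Continuous (dl k1 l1) :=
    continuous_iff_continuousAt.mpr fun t => (dl_hasDerivAt hk t).continuousAt
  have h2 : Continuous (om1 k1 l1) :=
    continuous_iff_continuousAt.mpr fun t => (om1_hasDerivAt hk t).continuousAt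
  have h3 : ∀ t ∈ Set.Iio (tB k1 l1), dl k1 l1 t ≠ 0 := fun t ht => (dl_pos hk hl ht).ne'
  unfold Lm2
  exact ((om2_continuous hk).continuousOn.div h1.continuousOn h3).add
    ((h2.continuousOn.div h1.continuousOn h3).pow 2)
end

section
variable {k1 l1 : ℝ}

theorem one_sub_sq_pos833 {s : ℝ} (h0 : 0 ≤ s) (h1 : s < 1) : 0 < 1 - s ^ 2 := by nlinarith

theorem tau_nonneg {s : ℝ} (h0 : 0 ≤ s) (h1 : s < 1) : 0 ≤ tau s := by
  have h := one_sub_sq_pos833 h0 h1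
  unfold tau
  have := Real.log_nonpos h.le (by nlinarith)
  linarith
theorem tau1_nonneg {s : ℝ} (h0 : 0 ≤ s) (h1 : s < 1) : 0 ≤ tau1 s := by
  have h := one_sub_sq_pos833 h0 h1
  unfold tau1
  positivity
theorem tau2_pos {s : ℝ} (h0 : 0 ≤ s) (h1 : s < 1) : 0 < tau2 s := by
  have h := one_sub_sq_pos833 h0 h1
  unfold tau2
  positivity
theorem tau1_sq_le {s : ℝ} (h0 : 0 ≤ s) (h1 : s < 1) : tau1 s ^ 2 ≤ tau2 s := by
  have h := one_sub_sq_pos833 h0 h1
  unfold tau1 tau2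
  rw [div_pow]
  apply div_le_div_of_nonneg_right _ (by positivity)
  nlinarith
theorem tau_mono {s s' : ℝ} (h0 : 0 ≤ s) (h : s ≤ s') (h1 : s' < 1) : tau s ≤ tau s' := by
  have h2 := one_sub_sq_pos833 (h0.trans h) h1
  unfold tau
  have := Real.log_le_log h2 (by nlinarith : 1 - s' ^ 2 ≤ 1 - s ^ 2)
  linarith
theorem sq_deriv833 (s : ℝ) : HasDerivAt (fun s : ℝ => 1 - s ^ 2) (-(2 * s)) s := by
  have h1 := (hasDerivAt_pow 2 s).const_sub 1
  simpa using h1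
theorem tau_hasDerivAt {s : ℝ} (h0 : 0 ≤ s) (h1 : s < 1) : HasDerivAt tau (tau1 s) s := by
  have h := one_sub_sq_pos833 h0 h1
  have h2 := ((sq_deriv833 s).log h.ne').neg
  have e : tau1 s = -(-(2 * s) / (1 - s ^ 2)) := by unfold tau1; ring
  rw [e]
  exact h2
theorem tau1_hasDerivAt {s : ℝ} (h0 : 0 ≤ s) (h1 : s < 1) : HasDerivAt tau1 (tau2 s) s := by
  have h := one_sub_sq_pos833 h0 h1
  have h2 : HasDerivAt (fun s : ℝ => 2 * s) 2 s := by
    simpa using (hasDerivAt_id s).const_mul (2 : ℝ)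
  have h3 := h2.div (sq_deriv833 s) h.ne'
  have e : tau2 s = (2 * (1 - s ^ 2) - 2 * s * -(2 * s)) / (1 - s ^ 2) ^ 2 := by
    unfold tau2; congr 1; ring
  rw [e]
  exact h3

theorem X_derivs (t s : ℝ) (h0 : 0 ≤ s) (h1 : s < 1)
    (hL : HasDerivAt (Lm k1 l1) (Lm1 k1 l1 t) t) (hL1 : HasDerivAt (Lm1 k1 l1) (Lm2 k1 l1 t) t)
    (hL0 : 0 ≤ Lm k1 l1 t) (ht : t < 2) :
    100 ≤ el k1 l1 t s ∧ 0 < XX k1 l1 t s ∧
    HasDerivAt (fun t => el k1 l1 t s) (Lm1 k1 l1 t) t ∧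
    HasDerivAt (fun s => el k1 l1 t s) (tau1 s) s ∧
    HasDerivAt (fun t => XX k1 l1 t s) (Xt k1 l1 t s) t ∧
    HasDerivAt (fun t => Xt k1 l1 t s) (Xtt k1 l1 t s) t ∧
    HasDerivAt (fun s => XX k1 l1 t s) (Xs k1 l1 t s) s ∧
    HasDerivAt (fun s => Xt k1 l1 t s) (Xts k1 l1 t s) s ∧
    HasDerivAt (fun s => Xs k1 l1 t s) (Xss k1 l1 t s) s := by
  have hτ := tau_nonneg h0 h1
  have hel : 100 ≤ el k1 l1 t s := by unfold el; linarith
  have hpos : 0 < el k1 l1 t s := by linarith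
  have hne : el k1 l1 t s ≠ 0 := hpos.ne'
  have d1 : HasDerivAt (fun t => el k1 l1 t s) (Lm1 k1 l1 t) t :=
    (hL.const_add 100).add_const (tau s)
  have d2 : HasDerivAt (fun s => el k1 l1 t s) (tau1 s) s :=
    (tau_hasDerivAt h0 h1).const_add (100 + Lm k1 l1 t)
  have d0 : HasDerivAt (fun t : ℝ => 2 - t) (-1) t := by
    simpa using (hasDerivAt_id t).const_sub (2 : ℝ)
  have hτ1 := tau1_hasDerivAt h0 h1
  -- squares of el
  have q1 : HasDerivAt (fun t => el k1 l1 t s ^ 2) (2 * el k1 l1 t s * Lm1 k1 l1 t) t := by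
    have := d1.fun_pow 2
    simpa using this
  have q2 : HasDerivAt (fun s => el k1 l1 t s ^ 2) (2 * el k1 l1 t s * tau1 s) s := by
    have := d2.fun_pow 2
    simpa using this
  refine ⟨hel, ?_, d1, d2, ?_, ?_, ?_, ?_, ?_⟩
  · unfold XX
    exact div_pos (by linarith) hpos
  · have := d0.div d1 hne
    have e : Xt k1 l1 t s = (-1 * el k1 l1 t s - (2 - t) * Lm1 k1 l1 t) / el k1 l1 t s ^ 2 := by
      unfold Xt
      field_simp
    rw [e]
    exact this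
  · have a1 : HasDerivAt (fun t => (-1 : ℝ) / el k1 l1 t s)
        ((0 * el k1 l1 t s - (-1) * Lm1 k1 l1 t) / el k1 l1 t s ^ 2) t :=
      (hasDerivAt_const t (-1 : ℝ)).div d1 hne
    have a2 : HasDerivAt (fun t => (2 - t) * Lm1 k1 l1 t / el k1 l1 t s ^ 2)
        (((-1 * Lm1 k1 l1 t + (2 - t) * Lm2 k1 l1 t) * el k1 l1 t s ^ 2
          - (2 - t) * Lm1 k1 l1 t * (2 * el k1 l1 t s * Lm1 k1 l1 t)) / (el k1 l1 t s ^ 2) ^ 2) t :=
      (d0.mul hL1).div q1 (pow_ne_zero 2 hne)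
    have := a1.sub a2
    have e : Xtt k1 l1 t s = (0 * el k1 l1 t s - (-1) * Lm1 k1 l1 t) / el k1 l1 t s ^ 2
        - ((-1 * Lm1 k1 l1 t + (2 - t) * Lm2 k1 l1 t) * el k1 l1 t s ^ 2
          - (2 - t) * Lm1 k1 l1 t * (2 * el k1 l1 t s * Lm1 k1 l1 t)) / (el k1 l1 t s ^ 2) ^ 2 := by
      unfold Xtt
      field_simp
      ring
    rw [e]
    exact this
  · have a2 : HasDerivAt (fun s => (2 - t) / el k1 l1 t s)
        ((0 * el k1 l1 t s - (2 - t) * tau1 s) / el k1 l1 t s ^ 2) s :=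
      (hasDerivAt_const s (2 - t)).div d2 hne
    have e : Xs k1 l1 t s = (0 * el k1 l1 t s - (2 - t) * tau1 s) / el k1 l1 t s ^ 2 := by
      unfold Xs
      congr 1
      ring
    rw [e]
    exact a2
  · have a1 : HasDerivAt (fun s => (-1 : ℝ) / el k1 l1 t s)
        ((0 * el k1 l1 t s - (-1) * tau1 s) / el k1 l1 t s ^ 2) s :=
      (hasDerivAt_const s (-1 : ℝ)).div d2 hne
    have a2 : HasDerivAt (fun s => (2 - t) * Lm1 k1 l1 t / el k1 l1 t s ^ 2)
        ((0 * el k1 l1 t s ^ 2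
          - (2 - t) * Lm1 k1 l1 t * (2 * el k1 l1 t s * tau1 s)) / (el k1 l1 t s ^ 2) ^ 2) s :=
      (hasDerivAt_const s ((2 - t) * Lm1 k1 l1 t)).div q2 (pow_ne_zero 2 hne)
    have := a1.sub a2
    have e : Xts k1 l1 t s = (0 * el k1 l1 t s - (-1) * tau1 s) / el k1 l1 t s ^ 2
        - (0 * el k1 l1 t s ^ 2
          - (2 - t) * Lm1 k1 l1 t * (2 * el k1 l1 t s * tau1 s)) / (el k1 l1 t s ^ 2) ^ 2 := by
      unfold Xts
      field_simp
      ring
    rw [e]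
    exact this
  · have a2 : HasDerivAt (fun s => -(2 - t) * tau1 s / el k1 l1 t s ^ 2)
        ((-(2 - t) * tau2 s * el k1 l1 t s ^ 2
          - -(2 - t) * tau1 s * (2 * el k1 l1 t s * tau1 s)) / (el k1 l1 t s ^ 2) ^ 2) s :=
      (hτ1.const_mul (-(2 - t))).div q2 (pow_ne_zero 2 hne)
    have e : Xss k1 l1 t s = (-(2 - t) * tau2 s * el k1 l1 t s ^ 2
          - -(2 - t) * tau1 s * (2 * el k1 l1 t s * tau1 s)) / (el k1 l1 t s ^ 2) ^ 2 := by
      unfold Xss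
      field_simp
      ring
    rw [e]
    exact a2

theorem Y_derivs (t s : ℝ) (h0 : 0 ≤ s) (h1 : s < 1)
    (hL : HasDerivAt (Lm k1 l1) (Lm1 k1 l1 t) t) (hL1 : HasDerivAt (Lm1 k1 l1) (Lm2 k1 l1 t) t)
    (hL0 : 0 ≤ Lm k1 l1 t) (ht : t < 2) :
    HasDerivAt (fun t => YY k1 l1 t s) (Yt k1 l1 t s) t ∧
    HasDerivAt (fun t => Yt k1 l1 t s) (Ytt k1 l1 t s) t ∧
    HasDerivAt (fun s => YY k1 l1 t s) (Ys k1 l1 t s) s ∧
    HasDerivAt (fun s => Yt k1 l1 t s) (Yts k1 l1 t s) s ∧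
    HasDerivAt (fun s => Ys k1 l1 t s) (Yss k1 l1 t s) s := by
  obtain ⟨-, hX, -, -, xt, xtt, xs, xts, xss⟩ := X_derivs (k1 := k1) (l1 := l1) t s h0 h1 hL hL1 hL0 ht
  have hpos : 0 < 1 + XX k1 l1 t s := by linarith
  have hne := hpos.ne'
  have pt : HasDerivAt (fun t => 1 + XX k1 l1 t s) (Xt k1 l1 t s) t := xt.const_add 1
  have ps : HasDerivAt (fun s => 1 + XX k1 l1 t s) (Xs k1 l1 t s) s := xs.const_add 1
  refine ⟨?_, ?_, ?_, ?_, ?_⟩
  · exact pt.log hne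
  · have := xtt.div pt hne
    have e : Ytt k1 l1 t s = (Xtt k1 l1 t s * (1 + XX k1 l1 t s) - Xt k1 l1 t s * Xt k1 l1 t s)
        / (1 + XX k1 l1 t s) ^ 2 := by
      unfold Ytt
      field_simp
    rw [e]
    exact this
  · exact ps.log hne
  · have := xts.div ps hne
    have e : Yts k1 l1 t s = (Xts k1 l1 t s * (1 + XX k1 l1 t s) - Xt k1 l1 t s * Xs k1 l1 t s)
        / (1 + XX k1 l1 t s) ^ 2 := by
      unfold Yts
      field_simp
    rw [e]
    exact this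
  · have := xss.div ps hne
    have e : Yss k1 l1 t s = (Xss k1 l1 t s * (1 + XX k1 l1 t s) - Xs k1 l1 t s * Xs k1 l1 t s)
        / (1 + XX k1 l1 t s) ^ 2 := by
      unfold Yss
      field_simp
    rw [e]
    exact this
end


end MB833
end DbarN.JMB

namespace DbarN.JMB
namespace MB833

section
variable {k1 l1 : ℝ}

theorem tB_lt_two (hk1 : k1 ≤ 1 / 100) (hl : 100 ≤ l1) : tB k1 l1 < 2 := by
  unfold tB
  have : k1 / l1 < 1 := by rw [div_lt_one (by linarith)]; linarith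
  linarith

theorem el_ge {t s : ℝ} (hL : 0 ≤ Lm k1 l1 t) (h0 : 0 ≤ s) (h1 : s < 1) :
    100 ≤ el k1 l1 t s := by
  have := tau_nonneg h0 h1
  unfold el; linarith

theorem el_mono {t s s' : ℝ} (h0 : 0 ≤ s) (h : s ≤ s') (h1 : s' < 1) :
    el k1 l1 t s ≤ el k1 l1 t s' := by
  have := tau_mono h0 h h1
  unfold el; linarith

theorem XX_nonneg {t s : ℝ} (ht : t < 2) (hL : 0 ≤ Lm k1 l1 t) (h0 : 0 ≤ s) (h1 : s < 1) :
    0 ≤ XX k1 l1 t s := by
  have := el_ge (k1 := k1) (l1 := l1) hL h0 h1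
  unfold XX
  exact div_nonneg (by linarith) (by linarith)

theorem XX_le {t s : ℝ} (ht0 : 0 ≤ t) (hL : 0 ≤ Lm k1 l1 t) (h0 : 0 ≤ s) (h1 : s < 1) :
    XX k1 l1 t s ≤ 1 := by
  have := el_ge (k1 := k1) (l1 := l1) hL h0 h1
  unfold XX
  rw [div_le_one (by linarith)]
  linarith

theorem XX_anti {t s s' : ℝ} (ht : t < 2) (hL : 0 ≤ Lm k1 l1 t) (h0 : 0 ≤ s) (h : s ≤ s')
    (h1 : s' < 1) : XX k1 l1 t s' ≤ XX k1 l1 t s := by
  have h2 := el_ge (k1 := k1) (l1 := l1) hL h0 (lt_of_le_of_lt h h1)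
  have h3 := el_mono (k1 := k1) (l1 := l1) (t := t) h0 h h1
  unfold XX
  exact div_le_div_of_nonneg_left (by linarith) (by linarith) h3

theorem tau_meas : Measurable tau := by
  unfold tau
  exact (Real.measurable_log.comp (measurable_const.sub (measurable_id.pow_const 2))).neg

theorem el_meas (t : ℝ) : Measurable (fun s => el k1 l1 t s) := by
  unfold el
  exact measurable_const.add tau_meas

theorem XX_meas (t : ℝ) : Measurable (fun s => XX k1 l1 t s) := by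
  unfold XX
  exact measurable_const.div (el_meas t)

theorem den_meas (j k : ℕ) (t : ℝ) : Measurable (fun s => den k1 l1 j k t s) := by
  unfold den
  exact (measurable_id.pow_const _).mul ((measurable_const.add (XX_meas t)).pow_const _)

theorem den_nonneg {j k : ℕ} {t s : ℝ} (ht : t < 2) (hL : 0 ≤ Lm k1 l1 t) (h0 : 0 ≤ s)
    (h1 : s < 1) : 0 ≤ den k1 l1 j k t s := by
  have := XX_nonneg ht hL h0 h1
  unfold den
  positivity

theorem den_le {j k : ℕ} {t s : ℝ} (ht0 : 0 ≤ t) (ht : t < 2) (hL : 0 ≤ Lm k1 l1 t) (h0 : 0 ≤ s)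
    (h1 : s < 1) : den k1 l1 j k t s ≤ 2 ^ (j + 1) := by
  have h2 := XX_nonneg ht hL h0 h1
  have h3 := XX_le ht0 hL h0 h1
  unfold den
  have h4 : s ^ (2 * k + 1) ≤ 1 := pow_le_one₀ h0 h1.le
  have h5 : (1 + XX k1 l1 t s) ^ (j + 1) ≤ 2 ^ (j + 1) :=
    pow_le_pow_left₀ (by linarith) (by linarith) _
  have h6 : 0 ≤ (1 + XX k1 l1 t s) ^ (j + 1) := by positivity
  calc s ^ (2 * k + 1) * (1 + XX k1 l1 t s) ^ (j + 1) ≤ 1 * (1 + XX k1 l1 t s) ^ (j + 1) :=
        mul_le_mul_of_nonneg_right h4 h6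
    _ ≤ _ := by rw [one_mul]; exact h5

theorem int_den {j k : ℕ} {t : ℝ} (ht0 : 0 ≤ t) (ht : t < 2) (hL : 0 ≤ Lm k1 l1 t)
    {H : ℝ → ℝ} (hH : Measurable H) (M : ℝ) (hM : ∀ s ∈ Set.Ioo (0 : ℝ) 1, |H s| ≤ M) :
    IntegrableOn (fun s => H s * den k1 l1 j k t s) (Set.Ioo 0 1) := by
  apply Measure.integrableOn_of_bounded (M := M * 2 ^ (j + 1))
  · simp
  · exact (hH.mul (den_meas j k t)).aestronglyMeasurable
  · rw [ae_restrict_iff' measurableSet_Ioo]
    refine Eventually.of_forall fun s hs => ?_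
    have h1 := hM s hs
    have h2 := den_nonneg (k1 := k1) (l1 := l1) (j := j) (k := k) ht hL hs.1.le hs.2
    have h3 := den_le (k1 := k1) (l1 := l1) (j := j) (k := k) ht0 ht hL hs.1.le hs.2
    rw [Real.norm_eq_abs, abs_mul, abs_of_nonneg h2]
    exact mul_le_mul h1 h3 h2 ((abs_nonneg _).trans h1)

theorem int_den1 {j k : ℕ} {t : ℝ} (ht0 : 0 ≤ t) (ht : t < 2) (hL : 0 ≤ Lm k1 l1 t) :
    IntegrableOn (fun s => den k1 l1 j k t s) (Set.Ioo 0 1) := by
  have := int_den (k1 := k1) (l1 := l1) (j := j) (k := k) ht0 ht hL (H := fun _ => 1)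
    measurable_const 1 (fun s _ => by simp)
  simpa using this

theorem split01 {s0 : ℝ} (h0 : 0 < s0) (h1 : s0 < 1) {f : ℝ → ℝ}
    (hf : IntegrableOn f (Set.Ioo 0 1)) :
    ∫ s in Set.Ioo (0 : ℝ) 1, f s = (∫ s in Set.Ioc (0 : ℝ) s0, f s) + ∫ s in Set.Ioo s0 1, f s := by
  rw [← Set.Ioc_union_Ioo_eq_Ioo h0.le h1]
  apply setIntegral_union
  · rw [Set.disjoint_left]
    intro x hx hx'
    exact absurd hx.2 (not_le.2 hx'.1)
  · exact measurableSet_Ioo
  · exact hf.mono_set fun x hx => ⟨hx.1, lt_of_le_of_lt hx.2 h1⟩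
  · exact hf.mono_set fun x hx => ⟨h0.trans hx.1, hx.2⟩

theorem pow_int1 (k : ℕ) {s0 : ℝ} (h0 : 0 < s0) :
    ∫ s in Set.Ioc (0 : ℝ) s0, s ^ (2 * k + 1) = s0 ^ (2 * k + 2) / (2 * k + 2) := by
  rw [← intervalIntegral.integral_of_le h0.le, integral_pow]
  push_cast
  ring_nf

theorem pow_int2 (k : ℕ) {s0 : ℝ} (h1 : s0 < 1) :
    ∫ s in Set.Ioo s0 (1 : ℝ), s ^ (2 * k + 1) = (1 - s0 ^ (2 * k + 2)) / (2 * k + 2) := by
  rw [← integral_Ioc_eq_integral_Ioo, ← intervalIntegral.integral_of_le h1.le, integral_pow]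
  push_cast
  simp only [one_pow]
  ring_nf

theorem mass {j k : ℕ} {t : ℝ} (ht0 : 0 ≤ t) (ht : t < 2) (hL : 0 ≤ Lm k1 l1 t) {s0 : ℝ}
    (h0 : 0 < s0) (h1 : s0 < 1) (hs : 1 / 2 ≤ s0 ^ (2 * k + 2)) :
    0 < Iw k1 l1 j k t ∧
      Iw k1 l1 j k t / 2 ≤ ∫ s in Set.Ioc (0 : ℝ) s0, den k1 l1 j k t s := by
  have hX0 := XX_nonneg (k1 := k1) (l1 := l1) ht hL h0.le h1
  obtain ⟨A, hA⟩ : ∃ A, A = (1 + XX k1 l1 t s0) ^ (j + 1) := ⟨_, rfl⟩
  have hApos : 0 < A := by rw [hA]; positivity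
  have hi := int_den1 (k1 := k1) (l1 := l1) (j := j) (k := k) ht0 ht hL
  have hi1 : IntegrableOn (fun s => den k1 l1 j k t s) (Set.Ioc 0 s0) :=
    hi.mono_set fun x hx => ⟨hx.1, lt_of_le_of_lt hx.2 h1⟩
  have hi2 : IntegrableOn (fun s => den k1 l1 j k t s) (Set.Ioo s0 1) :=
    hi.mono_set fun x hx => ⟨h0.trans hx.1, hx.2⟩
  have hc : Continuous (fun s : ℝ => A * s ^ (2 * k + 1)) := by fun_prop
  have hp1 : IntegrableOn (fun s : ℝ => A * s ^ (2 * k + 1)) (Set.Ioc 0 s0) :=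
    (hc.integrableOn_Icc (a := 0) (b := s0)).mono_set Set.Ioc_subset_Icc_self
  have hp2 : IntegrableOn (fun s : ℝ => A * s ^ (2 * k + 1)) (Set.Ioo s0 1) :=
    (hc.integrableOn_Icc (a := s0) (b := 1)).mono_set Set.Ioo_subset_Icc_self
  have e1 : A * (s0 ^ (2 * k + 2) / (2 * k + 2)) ≤ ∫ s in Set.Ioc (0 : ℝ) s0, den k1 l1 j k t s := by
    rw [← pow_int1 k h0, ← integral_const_mul]
    apply setIntegral_mono_on hp1 hi1 measurableSet_Ioc
    intro s hs
    have h2 := XX_anti (k1 := k1) (l1 := l1) ht hL hs.1.le hs.2 h1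
    unfold den
    rw [hA, mul_comm]
    apply mul_le_mul_of_nonneg_left
    · exact pow_le_pow_left₀ (by linarith) (by linarith) _
    · exact pow_nonneg hs.1.le _
  have e2 : (∫ s in Set.Ioo s0 1, den k1 l1 j k t s) ≤ A * ((1 - s0 ^ (2 * k + 2)) / (2 * k + 2)) := by
    rw [← pow_int2 k h1, ← integral_const_mul]
    apply setIntegral_mono_on hi2 hp2 measurableSet_Ioo
    intro s hs
    have h2 := XX_anti (k1 := k1) (l1 := l1) ht hL h0.le hs.1.le hs.2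
    have h3 := XX_nonneg (k1 := k1) (l1 := l1) ht hL (h0.trans hs.1).le hs.2
    unfold den
    rw [hA, mul_comm]
    apply mul_le_mul_of_nonneg_right
    · exact pow_le_pow_left₀ (by linarith) (by linarith) _
    · exact pow_nonneg (h0.trans hs.1).le _
  have e3 : Iw k1 l1 j k t = (∫ s in Set.Ioc (0 : ℝ) s0, den k1 l1 j k t s)
      + ∫ s in Set.Ioo s0 1, den k1 l1 j k t s := split01 h0 h1 hi
  have hk : (0 : ℝ) < 2 * k + 2 := by positivity
  have e4 : (1 - s0 ^ (2 * k + 2)) / (2 * (k : ℝ) + 2) ≤ s0 ^ (2 * k + 2) / (2 * k + 2) :=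
    div_le_div_of_nonneg_right (by linarith) hk.le
  have e5 := mul_le_mul_of_nonneg_left e4 hApos.le
  have e6 : 0 < A * (s0 ^ (2 * k + 2) / (2 * k + 2)) := by positivity
  have e7 : 0 ≤ ∫ s in Set.Ioo s0 1, den k1 l1 j k t s :=
    setIntegral_nonneg measurableSet_Ioo fun s hs => den_nonneg ht hL (h0.trans hs.1).le hs.2
  constructor
  · rw [e3]; linarith
  · rw [e3]; linarith

theorem Es_lower {j k : ℕ} {t : ℝ} (ht0 : 0 ≤ t) (ht : t < 2) (hL : 0 ≤ Lm k1 l1 t) {s0 : ℝ}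
    (h0 : 0 < s0) (h1 : s0 < 1) (hs : 1 / 2 ≤ s0 ^ (2 * k + 2)) {H : ℝ → ℝ} (hH : Measurable H)
    (M : ℝ) (hM : ∀ s ∈ Set.Ioo (0 : ℝ) 1, |H s| ≤ M) (c : ℝ) (hc : 0 ≤ c)
    (hHc : ∀ s ∈ Set.Ioc (0 : ℝ) s0, c ≤ H s) (hH0 : ∀ s ∈ Set.Ioo (0 : ℝ) 1, 0 ≤ H s) :
    c / 2 ≤ Es k1 l1 j k t H := by
  obtain ⟨hI, hI2⟩ := mass (k1 := k1) (l1 := l1) (j := j) (k := k) ht0 ht hL h0 h1 hs
  have hi := int_den (k1 := k1) (l1 := l1) (j := j) (k := k) ht0 ht hL hH M hM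
  have hi1 : IntegrableOn (fun s => H s * den k1 l1 j k t s) (Set.Ioc 0 s0) :=
    hi.mono_set fun x hx => ⟨hx.1, lt_of_le_of_lt hx.2 h1⟩
  have hd := int_den1 (k1 := k1) (l1 := l1) (j := j) (k := k) ht0 ht hL
  have hd0 : IntegrableOn (fun s => den k1 l1 j k t s) (Set.Ioc 0 s0) :=
    hd.mono_set fun x hx => ⟨hx.1, lt_of_le_of_lt hx.2 h1⟩
  have hd1 : IntegrableOn (fun s => c * den k1 l1 j k t s) (Set.Ioc 0 s0) := hd0.const_mul c
  have e1 := split01 h0 h1 hi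
  have e2 : 0 ≤ ∫ s in Set.Ioo s0 1, H s * den k1 l1 j k t s :=
    setIntegral_nonneg measurableSet_Ioo fun s hs => mul_nonneg (hH0 s ⟨h0.trans hs.1, hs.2⟩)
      (den_nonneg ht hL (h0.trans hs.1).le hs.2)
  have e3 : c * (∫ s in Set.Ioc (0 : ℝ) s0, den k1 l1 j k t s)
      ≤ ∫ s in Set.Ioc (0 : ℝ) s0, H s * den k1 l1 j k t s := by
    rw [← integral_const_mul]
    apply setIntegral_mono_on hd1 hi1 measurableSet_Ioc
    intro s hs
    exact mul_le_mul_of_nonneg_right (hHc s hs) (den_nonneg ht hL hs.1.le (lt_of_le_of_lt hs.2 h1))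
  have e4 := mul_le_mul_of_nonneg_left hI2 hc
  unfold Es
  rw [le_div_iff₀ hI, e1]
  have e5 : c / 2 * Iw k1 l1 j k t = c * (Iw k1 l1 j k t / 2) := by ring
  rw [e5]
  linarith

theorem Es_nonneg {j k : ℕ} {t : ℝ} (ht : t < 2) (hL : 0 ≤ Lm k1 l1 t)
    {H : ℝ → ℝ} (hH0 : ∀ s ∈ Set.Ioo (0 : ℝ) 1, 0 ≤ H s) :
    0 ≤ Es k1 l1 j k t H := by
  unfold Es Iw
  apply div_nonneg
  · exact setIntegral_nonneg measurableSet_Ioo fun s hs => mul_nonneg (hH0 s hs)
      (den_nonneg ht hL hs.1.le hs.2)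
  · exact setIntegral_nonneg measurableSet_Ioo fun s hs => den_nonneg ht hL hs.1.le hs.2

/-- the function in the definition of `mm` -/
noncomputable def HH0 (k1 l1 t s : ℝ) : ℝ := 1 / el k1 l1 t s + t * Lm2 k1 l1 t / el k1 l1 t s ^ 2

theorem HH0_meas (t : ℝ) : Measurable (fun s => HH0 k1 l1 t s) := by
  unfold HH0
  exact (measurable_const.div (el_meas t)).add (measurable_const.div ((el_meas t).pow_const 2))

theorem HH0_ge {t s : ℝ} (ht0 : 0 ≤ t) (hL : 0 ≤ Lm k1 l1 t) (hL2 : 0 ≤ Lm2 k1 l1 t) (h0 : 0 ≤ s)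
    (h1 : s < 1) : 1 / el k1 l1 t s ≤ HH0 k1 l1 t s := by
  have := el_ge (k1 := k1) (l1 := l1) hL h0 h1
  unfold HH0
  have h2 : 0 ≤ t * Lm2 k1 l1 t / el k1 l1 t s ^ 2 := by positivity
  linarith

theorem HH0_nonneg {t s : ℝ} (ht0 : 0 ≤ t) (hL : 0 ≤ Lm k1 l1 t) (hL2 : 0 ≤ Lm2 k1 l1 t)
    (h0 : 0 ≤ s) (h1 : s < 1) : 0 ≤ HH0 k1 l1 t s := by
  have := el_ge (k1 := k1) (l1 := l1) hL h0 h1
  unfold HH0
  have h2 : 0 ≤ t * Lm2 k1 l1 t / el k1 l1 t s ^ 2 := by positivity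
  have h3 : 0 ≤ 1 / el k1 l1 t s := by positivity
  linarith

theorem HH0_le {t s : ℝ} (ht0 : 0 ≤ t) (hL : 0 ≤ Lm k1 l1 t) (hL2 : 0 ≤ Lm2 k1 l1 t)
    (h0 : 0 ≤ s) (h1 : s < 1) : |HH0 k1 l1 t s| ≤ 1 + t * Lm2 k1 l1 t := by
  rw [abs_of_nonneg (HH0_nonneg ht0 hL hL2 h0 h1)]
  have h := el_ge (k1 := k1) (l1 := l1) hL h0 h1
  unfold HH0
  have h2 : 0 ≤ t * Lm2 k1 l1 t := by positivity
  have h3 : 1 / el k1 l1 t s ≤ 1 := by rw [div_le_one (by linarith)]; linarith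
  have h4 : t * Lm2 k1 l1 t / el k1 l1 t s ^ 2 ≤ t * Lm2 k1 l1 t := by
    apply div_le_self h2
    nlinarith
  linarith

/-- monotonicity of `v⁴ e^{-v}` -/
theorem exp_mono4 {u v : ℝ} (hu : 4 ≤ u) (huv : u ≤ v) :
    v ^ 4 * Real.exp (-v) ≤ u ^ 4 * Real.exp (-u) := by
  have hu0 : 0 < u := by linarith
  have h1 : v / u ≤ Real.exp ((v - u) / 4) := by
    have h2 : v / u = 1 + (v - u) / u := by field_simp; ring
    have h3 : (v - u) / u ≤ (v - u) / 4 :=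
      div_le_div_of_nonneg_left (by linarith) (by norm_num) hu
    have h4 := Real.add_one_le_exp ((v - u) / 4)
    rw [h2]; linarith
  have h5 : (v / u) ^ 4 ≤ Real.exp (v - u) := by
    calc (v / u) ^ 4 ≤ (Real.exp ((v - u) / 4)) ^ 4 :=
          pow_le_pow_left₀ (div_nonneg (by linarith) hu0.le) h1 4
      _ = Real.exp (v - u) := by
          rw [← Real.exp_nat_mul]; congr 1; push_cast; ring
  have h6 : v ^ 4 ≤ u ^ 4 * Real.exp (v - u) := by
    rw [div_pow, div_le_iff₀ (by positivity)] at h5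
    linarith
  have h7 : Real.exp (v - u) * Real.exp (-v) = Real.exp (-u) := by
    rw [← Real.exp_add]; congr 1; ring
  calc v ^ 4 * Real.exp (-v) ≤ (u ^ 4 * Real.exp (v - u)) * Real.exp (-v) :=
        mul_le_mul_of_nonneg_right h6 (Real.exp_pos _).le
    _ = u ^ 4 * Real.exp (-u) := by rw [mul_assoc, h7]

end

end MB833

open MB833

theorem mb : MB_stmt := by
  intro C hC e k1 l1 hP hl1 hk1' j k
  obtain ⟨he, he1, hk, hk1, hl⟩ := hP
  have hlam : 0 ≤ lamStar := by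
    unfold lamStar
    apply Real.sInf_nonneg
    rintro r ⟨φ, -, -, -, -, rfl⟩
    have : 0 ≤ ∫ z, ((fderiv ℝ φ z 1) ^ 2 + (fderiv ℝ φ z I) ^ 2) :=
      integral_nonneg fun z => by positivity
    positivity
  have hl0 : 0 < l1 := by linarith
  obtain ⟨L, hLdef⟩ : ∃ L, L = Real.log 2 + Real.log ((k : ℝ) + 1) := ⟨_, rfl⟩
  have hk0 : (0 : ℝ) ≤ k := Nat.cast_nonneg k
  have hlog2 : 0 < Real.log 2 := Real.log_pos (by norm_num)
  have hlog2' : Real.log 2 ≤ 1 := by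
    have := Real.log_two_lt_d9; linarith
  have hlogk : 0 ≤ Real.log ((k : ℝ) + 1) := Real.log_nonneg (by linarith)
  have hL0 : 0 < L := by rw [hLdef]; linarith
  have hD : 0 < l1 + L := by linarith
  obtain ⟨y, hy⟩ : ∃ y, y = k1 / (l1 + L) := ⟨_, rfl⟩
  have hy0 : 0 < y := by rw [hy]; exact div_pos hk hD
  have hky : k1 / y = l1 + L := by rw [hy]; field_simp
  have hy1 : y ≤ 1 / 10 := by
    rw [hy, div_le_iff₀ hD]; linarith
  have hexpL : Real.exp (-L) = 1 / (2 * (k + 1)) := by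
    rw [hLdef, neg_add, Real.exp_add, Real.exp_neg, Real.exp_neg, Real.exp_log (by norm_num),
      Real.exp_log (by linarith)]
    field_simp
  have homy : om k1 l1 (1 + y) = 1 / (2 * (k + 1)) := by
    rw [om_of_gt_one hk (by linarith)]
    have h1 : l1 - k1 / (1 + y - 1) = -L := by
      rw [add_sub_cancel_left, hky]; ring
    rw [h1, hexpL]
  refine ⟨y, hy0, hy1, ?_, ?_⟩
  · intro t ht hty
    have ht2 : t < 2 := ht.2.trans (tB_lt_two hk1 hl)
    have hLm := Lm_nonneg hk hl0 ht.2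
    have hLm1 := Lm1_nonneg hk hl0 ht.2
    have hLm2 : 0 ≤ Lm2 k1 l1 t := by
      have := Lm2_ge hk hk1 hl ht.2
      linarith [sq_nonneg (Lm1 k1 l1 t)]
    -- bound for Lm
    have hom : om k1 l1 t ≤ 1 / 2 := by
      have h1 := om_mono (l1 := l1) hk hty
      rw [homy] at h1
      have h2 : 1 / (2 * ((k : ℝ) + 1)) ≤ 1 / 2 := by
        rw [div_le_div_iff₀ (by positivity) (by norm_num)]
        linarith
      linarith
    have hLmle : Lm k1 l1 t ≤ Real.log 2 := by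
      unfold Lm
      have h1 : 1 / 2 ≤ dl k1 l1 t := by unfold dl; linarith
      have h2 := Real.log_le_log (by norm_num) h1
      have h3 : Real.log (1 / 2) = - Real.log 2 := by rw [one_div, Real.log_inv]
      rw [h3] at h2
      linarith
    -- the point s0
    obtain ⟨s0, hs0⟩ : ∃ s0, s0 = Real.sqrt (1 - 1 / (2 * ((k : ℝ) + 1))) := ⟨_, rfl⟩
    have hq1 : 1 / (2 * ((k : ℝ) + 1)) ≤ 1 / 2 := by
      rw [div_le_div_iff₀ (by positivity) (by norm_num)]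
      linarith
    have hq0 : 0 < 1 / (2 * ((k : ℝ) + 1)) := by positivity
    have hs0sq : s0 ^ 2 = 1 - 1 / (2 * ((k : ℝ) + 1)) := by
      rw [hs0, Real.sq_sqrt (by linarith)]
    have hs0pos : 0 < s0 := by rw [hs0]; exact Real.sqrt_pos.2 (by linarith)
    have hs0lt : s0 < 1 := by nlinarith only [hs0sq, hq0, hs0pos]
    have hs0pow : 1 / 2 ≤ s0 ^ (2 * k + 2) := by
      have h1 : s0 ^ (2 * k + 2) = (1 + -(1 / (2 * ((k : ℝ) + 1)))) ^ (k + 1) := by
        rw [show 2 * k + 2 = 2 * (k + 1) by ring, pow_mul, hs0sq]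
        ring
      rw [h1]
      have h2 := one_add_mul_le_pow (a := -(1 / (2 * ((k : ℝ) + 1)))) (by linarith) (k + 1)
      refine le_trans (le_of_eq ?_) h2
      push_cast
      field_simp
      ring
    have htau : tau s0 = L := by
      unfold tau
      have h1 : 1 - s0 ^ 2 = Real.exp (-L) := by rw [hs0sq, hexpL]; ring
      rw [h1, Real.log_exp]; ring
    have hel0 : el k1 l1 t s0 ≤ 101 + L := by
      unfold el; rw [htau]; linarith
    have hEs : (1 / (101 + L)) / 2 ≤ Es k1 l1 j k t (fun s => HH0 k1 l1 t s) := by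
      apply Es_lower ht.1 ht2 hLm hs0pos hs0lt hs0pow (HH0_meas t) (1 + t * Lm2 k1 l1 t)
      · intro s hs
        exact HH0_le ht.1 hLm hLm2 hs.1.le hs.2
      · positivity
      · intro s hs
        refine le_trans ?_ (HH0_ge ht.1 hLm hLm2 hs.1.le (lt_of_le_of_lt hs.2 hs0lt))
        have h1 := el_mono (k1 := k1) (l1 := l1) (t := t) hs.1.le hs.2 hs0lt
        have h2 := el_ge (k1 := k1) (l1 := l1) hLm hs.1.le (lt_of_le_of_lt hs.2 hs0lt)
        exact one_div_le_one_div_of_le (by linarith) (by linarith)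
      · intro s hs
        exact HH0_nonneg ht.1 hLm hLm2 hs.1.le hs.2
    have hmm : (1 / (101 + L)) / 2 ≤ mm k1 l1 j k t := by
      have h1 : mm k1 l1 j k t = (k + 1) * (Lm1 k1 l1 t + t * Lm2 k1 l1 t) +
          (j + 1) * Es k1 l1 j k t (fun s => HH0 k1 l1 t s) := rfl
      rw [h1]
      have h2 : 0 ≤ ((k : ℝ) + 1) * (Lm1 k1 l1 t + t * Lm2 k1 l1 t) := by
        have := ht.1
        positivity
      have h3 : 0 ≤ (1 / (101 + L)) / 2 := by positivity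
      have hj : (0 : ℝ) ≤ j := Nat.cast_nonneg j
      nlinarith only [hEs, h2, h3, hj]
    refine le_trans ?_ hmm
    rw [hy]
    have h4 : (lamStar + 1) * k1 ≤ 1 / 1000 := by
      rw [le_div_iff₀ (by positivity)] at hk1'
      linarith
    have h5 : 32 * (lamStar + 1) * (k1 / (l1 + L)) = 32 * ((lamStar + 1) * k1) / (l1 + L) := by
      ring
    rw [h5, div_div, div_le_div_iff₀ hD (by positivity)]
    have h6 := mul_le_mul_of_nonneg_right h4 (by linarith : (0 : ℝ) ≤ 101 + L)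
    linarith
  · intro t ht hty
    have ht2 : t < 2 := ht.2.trans (tB_lt_two hk1 hl)
    have hLm := Lm_nonneg hk hl0 ht.2
    have hLm1 := Lm1_nonneg hk hl0 ht.2
    have hLm2 : 0 ≤ Lm2 k1 l1 t := by
      have := Lm2_ge hk hk1 hl ht.2
      linarith [sq_nonneg (Lm1 k1 l1 t)]
    have hEs : 0 ≤ Es k1 l1 j k t (fun s => HH0 k1 l1 t s) :=
      Es_nonneg ht2 hLm fun s hs => HH0_nonneg ht.1 hLm hLm2 hs.1.le hs.2
    have hj : (0 : ℝ) ≤ j := Nat.cast_nonneg j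
    have hdl := dl_pos hk hl0 ht.2
    have hdl1 := dl_le_one (k1 := k1) (l1 := l1) t
    obtain ⟨s, hs⟩ : ∃ s, s = t - 1 := ⟨_, rfl⟩
    have hsy : y ≤ s := by linarith
    have hs0 : 0 < s := by linarith
    have hsB : s * l1 < k1 := by
      have h1 : t < 1 + k1 / l1 := ht.2
      have h2 : s < k1 / l1 := by linarith
      rwa [lt_div_iff₀ hl0] at h2
    have hu : l1 ≤ k1 / s := by rw [le_div_iff₀ hs0]; linarith
    have hv : k1 / s ≤ l1 + L := by
      rw [← hky]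
      exact div_le_div_of_nonneg_left hk.le hy0 hsy
    have hom : om k1 l1 t = Real.exp (l1 - k1 / s) := by
      rw [om_of_gt_one hk (by linarith), hs]
    have hmono := exp_mono4 (u := k1 / s) (v := l1 + L) (by linarith) hv
    -- lower bound of om k1^2/s^4
    have h8 : (l1 + L) ^ 4 / (2 * ((k : ℝ) + 1)) ≤ (k1 / s) ^ 4 * om k1 l1 t := by
      have h9 : (l1 + L) ^ 4 / (2 * ((k : ℝ) + 1)) = (l1 + L) ^ 4 * Real.exp (-L) := by
        rw [hexpL]; ring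
      have h10 : Real.exp (-L) = Real.exp (-(l1 + L)) * Real.exp l1 := by
        rw [← Real.exp_add]; congr 1; ring
      have h11 : Real.exp (l1 - k1 / s) = Real.exp (-(k1 / s)) * Real.exp l1 := by
        rw [← Real.exp_add]; congr 1; ring
      rw [h9, h10, hom, h11, ← mul_assoc, ← mul_assoc]
      exact mul_le_mul_of_nonneg_right hmono (Real.exp_pos _).le
    have homnn := om_nonneg (k1 := k1) (l1 := l1) t
    have h12 : (98 / 100) * ((k1 / s) ^ 4 * om k1 l1 t) / k1 ^ 2 ≤ om2 k1 l1 t := by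
      unfold om2
      rw [← hs]
      have h13 : k1 ^ 2 / s ^ 4 - 2 * k1 / s ^ 3 = (k1 / s) ^ 4 / k1 ^ 2 * (1 - 2 * (s / k1)) := by
        field_simp
      rw [h13]
      have h14 : s / k1 ≤ 1 / 100 := by
        rw [div_le_div_iff₀ hk (by norm_num)]
        nlinarith only [hsB, hl, hs0]
      have h15 : (98 : ℝ) / 100 ≤ 1 - 2 * (s / k1) := by linarith
      have h16 : 0 ≤ (k1 / s) ^ 4 / k1 ^ 2 * om k1 l1 t := by positivity
      have h17 := mul_le_mul_of_nonneg_left h15 h16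
      calc (98 / 100) * ((k1 / s) ^ 4 * om k1 l1 t) / k1 ^ 2
          = (k1 / s) ^ 4 / k1 ^ 2 * om k1 l1 t * (98 / 100) := by ring
        _ ≤ (k1 / s) ^ 4 / k1 ^ 2 * om k1 l1 t * (1 - 2 * (s / k1)) := h17
        _ = _ := by ring
    have h18 : (49 / 100) * (l1 + L) ^ 4 / k1 ^ 2 ≤ ((k : ℝ) + 1) * om2 k1 l1 t := by
      have h19 : (98 / 100) * ((l1 + L) ^ 4 / (2 * ((k : ℝ) + 1))) / k1 ^ 2 ≤ om2 k1 l1 t := by
        refine le_trans ?_ h12
        apply div_le_div_of_nonneg_right _ (by positivity)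
        linarith
      have h20 := mul_le_mul_of_nonneg_left h19 (by linarith : (0 : ℝ) ≤ (k : ℝ) + 1)
      refine le_trans (le_of_eq ?_) h20
      field_simp
      norm_num
    have h21 : om2 k1 l1 t ≤ Lm2 k1 l1 t := by
      unfold Lm2
      have h22 : 0 ≤ om2 k1 l1 t := by
        refine le_trans ?_ h12
        positivity
      have h23 : om2 k1 l1 t ≤ om2 k1 l1 t / dl k1 l1 t := by
        rw [le_div_iff₀ hdl]
        nlinarith only [h22, hdl1]
      have h24 := sq_nonneg (om1 k1 l1 t / dl k1 l1 t)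
      linarith
    have h25 : ((k : ℝ) + 1) * om2 k1 l1 t ≤ mm k1 l1 j k t := by
      have h1 : mm k1 l1 j k t = (k + 1) * (Lm1 k1 l1 t + t * Lm2 k1 l1 t) +
          (j + 1) * Es k1 l1 j k t (fun s => HH0 k1 l1 t s) := rfl
      rw [h1]
      have h2 : om2 k1 l1 t ≤ Lm1 k1 l1 t + t * Lm2 k1 l1 t := by
        have h3 : 1 ≤ t := by linarith
        nlinarith only [h21, h3, hLm1, hLm2]
      have h4 := mul_le_mul_of_nonneg_left h2 (by linarith : (0 : ℝ) ≤ (k : ℝ) + 1)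
      have h5 : 0 ≤ ((j : ℝ) + 1) * Es k1 l1 j k t (fun s => HH0 k1 l1 t s) := by positivity
      linarith
    refine le_trans ?_ (h18.trans h25)
    -- final numerical inequality
    have h26 : (49 / 100) * (l1 + L) ^ 4 / k1 ^ 2 = (49 / 100) * (l1 + L) ^ 2 / y ^ 2 := by
      rw [hy]
      field_simp
    rw [h26]
    have h27 : l1 ^ 2 ≤ (l1 + L) ^ 2 := by nlinarith only [hl0, hL0]
    have h28 : (100 * (C + 1) * (lamStar + 1)) ^ 2 ≤ l1 ^ 2 :=
      pow_le_pow_left₀ (by positivity) hl1 2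
    have h29 : 1 ≤ (C + 1) * (lamStar + 1) := by nlinarith only [hC, hlam]
    have h30 : C + lamStar ≤ (C + 1) * (lamStar + 1) := by nlinarith only [hC, hlam]
    have h31 : (C + 1) * (lamStar + 1) ≤ ((C + 1) * (lamStar + 1)) ^ 2 := by nlinarith only [h29]
    have h32 : 16 * (lamStar + C) ≤ (49 / 100) * (l1 + L) ^ 2 := by
      have h33 : (100 * (C + 1) * (lamStar + 1)) ^ 2 = 10000 * ((C + 1) * (lamStar + 1)) ^ 2 := by
        ring
      rw [h33] at h28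
      linarith
    have hy2 : 0 < y ^ 2 := by positivity
    have hy3 : y ^ 2 ≤ 1 := by nlinarith only [hy0, hy1]
    have h34 : 16 * (lamStar + C / y ^ 2) = 16 * (lamStar * y ^ 2 + C) / y ^ 2 := by
      field_simp
    rw [h34]
    apply div_le_div_of_nonneg_right _ hy2.le
    have h35 : lamStar * y ^ 2 ≤ lamStar := by nlinarith only [hlam, hy3, hy2]
    linarith

end DbarN.JMB
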