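import Pool.Agent.H314.DN.WSDefs
import Pool.Agent.H314.DN.AbsDefs

set_option autoImplicit false

open MeasureTheory Complex Filter Topology
open scoped ContDiff InnerProductSpace ENNReal ComplexConjugate

namespace DbarN

/-! ### Statements of the Hörmander part -/

def Friedrichs_stmt : Prop := ∃ R : ℕ → ℕ → (E3 → ℂ) → (E3 → ℂ),
    (∀ ν n u, MemLp u 2 (volume : Measure E3) → IsTest Set.univ (R ν n u)) ∧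
    (∀ u, MemLp u 2 (volume : Measure E3) → ∀ ε : ℝ≥0∞, 0 < ε → ∀ᶠ ν in Filter.atTop,
      ∀ᶠ n in Filter.atTop, eLpNorm (R ν n u - u) 2 volume < ε) ∧
    (∀ (α β : Fin 3 → Fin 3 → ℂ) (z : Fin 3 → E3 → ℂ) (u : Fin 3 → E3 → ℂ) (f : E3 → ℂ),
      (∀ i, ContDiff ℝ ∞ (z i)) → (∀ i, MemLp (u i) 2 (volume : Measure E3)) →
      MemLp f 2 (volume : Measure E3) → WPP α β z u f →
      ∀ ε : ℝ≥0∞, 0 < ε → ∀ᶠ ν in Filter.atTop, ∀ᶠ n in Filter.atTop,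
        eLpNorm (fun x => PP α β z (fun i => R ν n (u i)) x - f x) 2 volume < ε)

/-- positivity of the complex Hessian used for `(0,1)`-forms -/
def HPos1 (Φ : E3 → ℝ) (c : ℝ) : Prop := ∀ x (a : Fin 3 → ℂ), c * ∑ j, ‖a j‖ ^ 2 ≤
      (∑ j, ∑ k, Hess Φ j k x * a j * conj (a k)).re

/-- positivity used for `(0,2)`-forms -/
def HPos2 (Φ : E3 → ℝ) (c : ℝ) : Prop := ∀ x (a : Fin 3 → ℂ), c * ∑ j, ‖a j‖ ^ 2 ≤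
      ((∑ j, Hess Φ j j x) * (∑ k, (‖a k‖ : ℂ) ^ 2) -
        ∑ j, ∑ k, Hess Φ k j x * a j * conj (a k)).re

def Kohn1_stmt : Prop := ∀ (Φ : E3 → ℝ), ContDiff ℝ ∞ Φ → ∀ c : ℝ, HPos1 Φ c →
    ∀ (v : Fin 3 → E3 → ℂ), (∀ j, IsTest Set.univ (v j)) →
    c * ∑ j, ∫ x, ‖v j x‖ ^ 2 ≤ (∫ x, ‖∑ j, AS Φ j (v j) x‖ ^ 2) +
      ∑ i : Fin 3, ∫ x, ‖AA Φ (i + 1) (v (i + 2)) x - AA Φ (i + 2) (v (i + 1)) x‖ ^ 2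

def Kohn2_stmt : Prop := ∀ (Φ : E3 → ℝ), ContDiff ℝ ∞ Φ → ∀ c : ℝ, HPos2 Φ c →
    ∀ (g : Fin 3 → E3 → ℂ), (∀ j, IsTest Set.univ (g j)) →
    c * ∑ j, ∫ x, ‖g j x‖ ^ 2 ≤ (∫ x, ‖∑ j, AA Φ j (g j) x‖ ^ 2) +
      ∑ k : Fin 3, ∫ x, ‖AS Φ (k + 2) (g (k + 1)) x - AS Φ (k + 1) (g (k + 2)) x‖ ^ 2

/-- Hörmander's theorem on `ℂ³` for `(0,1)`-forms, for not necessarily closed data. -/
def WS1_stmt : Prop := ∀ (Φ : E3 → ℝ), ContDiff ℝ ∞ Φ → ∀ c : ℝ, 0 < c → HPos1 Φ c →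
    ∀ (g : Fin 3 → E3 → ℂ), (∀ j, IsTest Set.univ (g j)) →
    ∃ (f : E3 → ℂ) (e : Fin 3 → E3 → ℂ),
      MemLp (fun x => f x * Real.exp (-Φ x / 2)) 2 (volume : Measure E3) ∧
      (∀ j, MemLp (fun x => e j x * Real.exp (-Φ x / 2)) 2 (volume : Measure E3)) ∧
      (∀ j φ, IsTest Set.univ φ → ∫ x, f x * dbar j φ x = - ∫ x, (g j x - e j x) * φ x) ∧
      c * ∫ x, ‖f x‖ ^ 2 * Real.exp (-Φ x) ≤ ∑ j, ∫ x, ‖g j x‖ ^ 2 * Real.exp (-Φ x) ∧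
      c * ∑ j, ∫ x, ‖e j x‖ ^ 2 * Real.exp (-Φ x) ≤
        ∑ i : Fin 3, ∫ x, ‖dbar (i + 1) (g (i + 2)) x - dbar (i + 2) (g (i + 1)) x‖ ^ 2 *
          Real.exp (-Φ x)

/-- Hörmander's theorem on `ℂ³` for `(0,2)`-forms, for not necessarily closed data. -/
def WS2_stmt : Prop := ∀ (Φ : E3 → ℝ), ContDiff ℝ ∞ Φ → ∀ c : ℝ, 0 < c → HPos2 Φ c →
    ∀ (g : Fin 3 → E3 → ℂ), (∀ j, IsTest Set.univ (g j)) →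
    ∃ (v : Fin 3 → E3 → ℂ) (e : Fin 3 → E3 → ℂ),
      (∀ j, MemLp (fun x => v j x * Real.exp (-Φ x / 2)) 2 (volume : Measure E3)) ∧
      (∀ j, MemLp (fun x => e j x * Real.exp (-Φ x / 2)) 2 (volume : Measure E3)) ∧
      (∀ (i : Fin 3) φ, IsTest Set.univ φ →
        ∫ x, (v (i + 2) x * dbar (i + 1) φ x - v (i + 1) x * dbar (i + 2) φ x)
          = - ∫ x, (g i x - e i x) * φ x) ∧
      c * ∑ j, ∫ x, ‖v j x‖ ^ 2 * Real.exp (-Φ x) ≤ ∑ j, ∫ x, ‖g j x‖ ^ 2 * Real.exp (-Φ x) ∧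
      c * ∑ j, ∫ x, ‖e j x‖ ^ 2 * Real.exp (-Φ x) ≤
        ∫ x, ‖∑ j, dbar j (g j) x‖ ^ 2 * Real.exp (-Φ x)

/-- smooth convex functions vanishing on a compact convex set and positive off a neighbourhood -/
def Pfun_stmt : Prop := ∀ K U : Set E3, IsCompact K → Convex ℝ K → K.Nonempty → IsOpen U → K ⊆ U →
    ∃ P : E3 → ℝ, ContDiff ℝ ∞ P ∧ ConvexOn ℝ Set.univ P ∧ (∀ x, 0 ≤ P x) ∧
      (∀ x ∈ K, P x = 0) ∧ ∀ x, x ∉ U → 0 < P x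

/-- rotations in the last two variables -/
noncomputable def rot (θ₁ θ₂ : ℝ) (x : E3) : E3 :=
  ![x 0, Complex.exp (θ₁ * I) * x 1, Complex.exp (θ₂ * I) * x 2]

/-- Dilate and mollify. -/
def Moll_stmt : Prop := ∀ (Ω : Set E3), IsOpen Ω → Convex ℝ Ω → Bornology.IsBounded Ω →
    (0 : E3) ∈ Ω → ∃ (M : ℕ → (E3 → ℂ) → (E3 → ℂ)) (r : ℕ → ℝ),
    Tendsto r atTop (𝓝 1) ∧ (∀ n, 0 < r n ∧ r n < 1) ∧
    (∀ f, MemLp f 2 (volume.restrict Ω) →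
      (∀ n, IsTest Set.univ (M n f)) ∧
      Tendsto (fun n => eLpNorm (M n f - f) 2 (volume.restrict Ω)) atTop (𝓝 0) ∧
      ∀ n, ENNReal.ofReal (r n ^ 3) * eLpNorm (M n f) 2 volume ≤ eLpNorm f 2 (volume.restrict Ω)) ∧
    (∀ n, ∃ U : Set E3, IsOpen U ∧ closure Ω ⊆ U ∧
      ∀ (α : Fin 3 → Fin 3 → ℂ) (u : Fin 3 → E3 → ℂ) (g : E3 → ℂ),
        (∀ i, MemLp (u i) 2 (volume.restrict Ω)) → MemLp g 2 (volume.restrict Ω) →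
        (∀ φ, IsTest Ω φ →
          ∫ x in Ω, ∑ i, u i x * (∑ j, α i j * dbar j φ x) = - ∫ x in Ω, g x * φ x) →
        ∀ x ∈ U, ∑ i, ∑ j, α i j * dbar j (M n (u i)) x = (r n : ℂ) * M n g x) ∧
    (∀ n (θ₁ θ₂ : ℝ) (c : ℂ) (f : E3 → ℂ), (∀ x, rot θ₁ θ₂ x ∈ Ω ↔ x ∈ Ω) →
      MemLp f 2 (volume.restrict Ω) →
      (∀ᵐ x ∂(volume.restrict Ω), f (rot θ₁ θ₂ x) = c * f x) →
      ∀ x, M n f (rot θ₁ θ₂ x) = c * M n f x)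

/-- exactness for `(0,1)`-forms -/
def Hor1_stmt : Prop := ∀ (Ω : Set E3), IsOpen Ω → Convex ℝ Ω → Bornology.IsBounded Ω →
    (0 : E3) ∈ Ω → ∀ u : Form Ω, IsDbar1 Ω u 0 → ∃ f : L2 Ω, IsDbar0 Ω f u

/-- solution with estimate for `(0,2)`-forms in a domain thin in the last two directions -/
def Hor2_stmt : Prop := ∀ (Ω : Set E3), IsOpen Ω → Convex ℝ Ω → Bornology.IsBounded Ω →
    (0 : E3) ∈ Ω → ∀ a : ℝ, 0 < a → (∀ x ∈ Ω, ‖x 1‖ ^ 2 + ‖x 2‖ ^ 2 ≤ a ^ 2) →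
    ∀ c : Form Ω, (∀ φ, IsTest Ω φ → ∫ x in Ω, ∑ i : Fin 3, c i x * dbar i φ x = 0) →
    ∃ v : Form Ω, IsDbar1 Ω v c ∧ ‖v‖ ^ 2 ≤ 8 * a ^ 2 * ‖c‖ ^ 2

end DbarN
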