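import Pool.Agent.H314.DN.Stmts

set_option autoImplicit false

open MeasureTheory Complex Filter Topology
open scoped ContDiff InnerProductSpace ENNReal ComplexConjugate

namespace DbarN

/-- smooth data, closed near the closure of a bounded convex domain: `(0,1)`-forms -/
def HS1_stmt : Prop := ∀ (Ω : Set E3), IsOpen Ω → Convex ℝ Ω → Bornology.IsBounded Ω →
    (0 : E3) ∈ Ω → ∃ C : ℝ, 0 ≤ C ∧ ∀ (v : Fin 3 → E3 → ℂ) (U : Set E3),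
      (∀ j, IsTest Set.univ (v j)) → IsOpen U → closure Ω ⊆ U →
      (∀ x ∈ U, ∀ i : Fin 3, dbar (i + 1) (v (i + 2)) x - dbar (i + 2) (v (i + 1)) x = 0) →
      ∀ η : ℝ, 0 < η → ∃ (f : E3 → ℂ) (e : Fin 3 → E3 → ℂ),
        MemLp f 2 (volume.restrict Ω) ∧ (∀ j, MemLp (e j) 2 (volume.restrict Ω)) ∧
        (∀ j φ, IsTest Ω φ → ∫ x in Ω, f x * dbar j φ x = - ∫ x in Ω, (v j x - e j x) * φ x) ∧
        ∫ x in Ω, ‖f x‖ ^ 2 ≤ C * ∑ j, ∫ x, ‖v j x‖ ^ 2 ∧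
        ∑ j, ∫ x in Ω, ‖e j x‖ ^ 2 ≤ η

/-- smooth data, closed near the closure of a bounded convex domain thin in the last two
directions: `(0,2)`-forms -/
def HS2_stmt : Prop := ∀ (Ω : Set E3), IsOpen Ω → Convex ℝ Ω → Bornology.IsBounded Ω →
    (0 : E3) ∈ Ω → ∀ a : ℝ, 0 < a → (∀ x ∈ Ω, ‖x 1‖ ^ 2 + ‖x 2‖ ^ 2 ≤ a ^ 2) →
    ∀ (v : Fin 3 → E3 → ℂ) (U : Set E3),
      (∀ j, IsTest Set.univ (v j)) → IsOpen U → closure Ω ⊆ U →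
      (∀ x ∈ U, ∑ i : Fin 3, dbar i (v i) x = 0) →
      ∀ η : ℝ, 0 < η → ∃ (w e : Fin 3 → E3 → ℂ),
        (∀ j, MemLp (w j) 2 (volume.restrict Ω)) ∧ (∀ j, MemLp (e j) 2 (volume.restrict Ω)) ∧
        (∀ (i : Fin 3) φ, IsTest Ω φ →
          ∫ x in Ω, (w (i + 2) x * dbar (i + 1) φ x - w (i + 1) x * dbar (i + 2) φ x)
            = - ∫ x in Ω, (v i x - e i x) * φ x) ∧
        ∑ j, ∫ x in Ω, ‖w j x‖ ^ 2 ≤ 3 * a ^ 2 * ∑ j, ∫ x, ‖v j x‖ ^ 2 ∧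
        ∑ j, ∫ x in Ω, ‖e j x‖ ^ 2 ≤ η

/-- closedness of the weak `∂̄` on functions under bounded/strong limits -/
def Cl0_stmt : Prop := ∀ Ω : Set E3, IsOpen Ω → ∀ (g : Form Ω) (C : ℝ), 0 ≤ C →
    (∀ η : ℝ, 0 < η → ∃ (f' : L2 Ω) (g' : Form Ω), IsDbar0 Ω f' g' ∧ ‖f'‖ ≤ C + η ∧ ‖g' - g‖ ≤ η) →
    ∃ f : L2 Ω, IsDbar0 Ω f g ∧ ‖f‖ ≤ C

/-- closedness of the weak `∂̄` on `(0,1)`-forms under bounded/strong limits -/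
def Cl1_stmt : Prop := ∀ Ω : Set E3, IsOpen Ω → ∀ (g : Form Ω) (C : ℝ), 0 ≤ C →
    (∀ η : ℝ, 0 < η → ∃ (f' g' : Form Ω), IsDbar1 Ω f' g' ∧ ‖f'‖ ≤ C + η ∧ ‖g' - g‖ ≤ η) →
    ∃ f : Form Ω, IsDbar1 Ω f g ∧ ‖f‖ ≤ C

/-! ### The domain -/

/-- the flat function `ω(t) = exp(ℓ₁ - κ₁/(t-1))` for `t>1`, `0` for `t ≤ 1` -/
noncomputable def om (k1 l1 t : ℝ) : ℝ := Real.exp l1 * expNegInvGlue ((t - 1) / k1)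

/-- the domain -/
def Omega (e k1 l1 : ℝ) : Set E3 :=
  {x | ‖x 0‖ ^ 2 < 2 ∧ om k1 l1 (‖x 0‖ ^ 2) +
    Real.exp 100 * expNegInvGlue ((‖x 1‖ ^ 2 / e ^ 2 - 1) / (2 - ‖x 0‖ ^ 2)) +
    ‖x 2‖ ^ 2 / e ^ 2 < 1}

/-- `δ = 1 - ω` -/
noncomputable def dl (k1 l1 t : ℝ) : ℝ := 1 - om k1 l1 t
/-- derivative of `ω` -/
noncomputable def om1 (k1 l1 t : ℝ) : ℝ := om k1 l1 t * (k1 / (t - 1) ^ 2)
/-- second derivative of `ω` -/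
noncomputable def om2 (k1 l1 t : ℝ) : ℝ :=
  om k1 l1 t * (k1 ^ 2 / (t - 1) ^ 4 - 2 * k1 / (t - 1) ^ 3)
/-- `Λ = -log δ`, its first two derivatives -/
noncomputable def Lm (k1 l1 t : ℝ) : ℝ := - Real.log (dl k1 l1 t)
noncomputable def Lm1 (k1 l1 t : ℝ) : ℝ := om1 k1 l1 t / dl k1 l1 t
noncomputable def Lm2 (k1 l1 t : ℝ) : ℝ :=
  om2 k1 l1 t / dl k1 l1 t + (om1 k1 l1 t / dl k1 l1 t) ^ 2
/-- `τ(s) = -log(1-s²)` and its derivatives -/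
noncomputable def tau (s : ℝ) : ℝ := - Real.log (1 - s ^ 2)
noncomputable def tau1 (s : ℝ) : ℝ := 2 * s / (1 - s ^ 2)
noncomputable def tau2 (s : ℝ) : ℝ := 2 * (1 + s ^ 2) / (1 - s ^ 2) ^ 2
/-- `ℓ = 100 + Λ(t) + τ(s)` -/
noncomputable def el (k1 l1 t s : ℝ) : ℝ := 100 + Lm k1 l1 t + tau s
/-- `X = (2-t)/ℓ` -/
noncomputable def XX (k1 l1 t s : ℝ) : ℝ := (2 - t) / el k1 l1 t s
/-- right end of the `t`-interval -/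
noncomputable def tB (k1 l1 : ℝ) : ℝ := 1 + k1 / l1

noncomputable def Xt (k1 l1 t s : ℝ) : ℝ :=
  -1 / el k1 l1 t s - (2 - t) * Lm1 k1 l1 t / el k1 l1 t s ^ 2
noncomputable def Xs (k1 l1 t s : ℝ) : ℝ := -(2 - t) * tau1 s / el k1 l1 t s ^ 2
noncomputable def Xtt (k1 l1 t s : ℝ) : ℝ :=
  2 * Lm1 k1 l1 t / el k1 l1 t s ^ 2 - (2 - t) * Lm2 k1 l1 t / el k1 l1 t s ^ 2 +
    2 * (2 - t) * Lm1 k1 l1 t ^ 2 / el k1 l1 t s ^ 3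
noncomputable def Xts (k1 l1 t s : ℝ) : ℝ :=
  tau1 s / el k1 l1 t s ^ 2 + 2 * (2 - t) * Lm1 k1 l1 t * tau1 s / el k1 l1 t s ^ 3
noncomputable def Xss (k1 l1 t s : ℝ) : ℝ :=
  -(2 - t) * tau2 s / el k1 l1 t s ^ 2 + 2 * (2 - t) * tau1 s ^ 2 / el k1 l1 t s ^ 3
/-- `Y = log(1+X)` and derivatives -/
noncomputable def YY (k1 l1 t s : ℝ) : ℝ := Real.log (1 + XX k1 l1 t s)
noncomputable def Yt (k1 l1 t s : ℝ) : ℝ := Xt k1 l1 t s / (1 + XX k1 l1 t s)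
noncomputable def Ys (k1 l1 t s : ℝ) : ℝ := Xs k1 l1 t s / (1 + XX k1 l1 t s)
noncomputable def Ytt (k1 l1 t s : ℝ) : ℝ :=
  Xtt k1 l1 t s / (1 + XX k1 l1 t s) - Xt k1 l1 t s ^ 2 / (1 + XX k1 l1 t s) ^ 2
noncomputable def Yts (k1 l1 t s : ℝ) : ℝ :=
  Xts k1 l1 t s / (1 + XX k1 l1 t s) -
    Xt k1 l1 t s * Xs k1 l1 t s / (1 + XX k1 l1 t s) ^ 2
noncomputable def Yss (k1 l1 t s : ℝ) : ℝ :=
  Xss k1 l1 t s / (1 + XX k1 l1 t s) - Xs k1 l1 t s ^ 2 / (1 + XX k1 l1 t s) ^ 2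

/-- density `s^{2k+1}(1+X)^{j+1}` -/
noncomputable def den (k1 l1 : ℝ) (j k : ℕ) (t s : ℝ) : ℝ :=
  s ^ (2 * k + 1) * (1 + XX k1 l1 t s) ^ (j + 1)
noncomputable def Iw (k1 l1 : ℝ) (j k : ℕ) (t : ℝ) : ℝ :=
  ∫ s in Set.Ioo (0 : ℝ) 1, den k1 l1 j k t s
/-- `E^t[H]` for functions of `s` -/
noncomputable def Es (k1 l1 : ℝ) (j k : ℕ) (t : ℝ) (H : ℝ → ℝ) : ℝ :=
  (∫ s in Set.Ioo (0 : ℝ) 1, H s * den k1 l1 j k t s) / Iw k1 l1 j k t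
/-- fibre weight `W = δ^{k+1} ∫ s^{2k+1}(1+X)^{j+1}` -/
noncomputable def ww (k1 l1 : ℝ) (j k : ℕ) (t : ℝ) : ℝ :=
  dl k1 l1 t ^ (k + 1) * Iw k1 l1 j k t
/-- `Ψ = -log W` -/
noncomputable def psi (k1 l1 : ℝ) (j k : ℕ) (t : ℝ) : ℝ := - Real.log (ww k1 l1 j k t)
/-- the curvature lower bound -/
noncomputable def mm (k1 l1 : ℝ) (j k : ℕ) (t : ℝ) : ℝ :=
  (k + 1) * (Lm1 k1 l1 t + t * Lm2 k1 l1 t) +
    (j + 1) * Es k1 l1 j k t (fun s => 1 / el k1 l1 t s + t * Lm2 k1 l1 t / el k1 l1 t s ^ 2)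

/-- (a quarter of) the first Dirichlet eigenvalue of the unit disc -/
noncomputable def lamStar : ℝ := sInf {r | ∃ φ : ℂ → ℝ, ContDiff ℝ ∞ φ ∧ HasCompactSupport φ ∧
  tsupport φ ⊆ Metric.ball 0 1 ∧ (∫ z, φ z ^ 2) = 1 ∧
  r = (1 / 4) * ∫ z, ((fderiv ℝ φ z 1) ^ 2 + (fderiv ℝ φ z I) ^ 2)}

/-- pointwise mode `(j,k)` -/
def IsModeFn (j k : ℤ) (F : E3 → ℂ) : Prop :=
  ∀ (θ₁ θ₂ : ℝ) (x : E3), F (rot θ₁ θ₂ x) = Complex.exp (I * (j * θ₁ + k * θ₂)) * F x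

/-- `∂/∂z̄` in one variable -/
noncomputable def db1 (a : ℂ → ℂ) (z : ℂ) : ℂ := (1 / 2) * (fderiv ℝ a z 1 + I * fderiv ℝ a z I)

/-- the point of `Ω` over `z` with fibre coordinates `(v,s) ∈ (0,1)²` -/
noncomputable def Pt (e k1 l1 : ℝ) (z : ℂ) (v s : ℝ) : E3 :=
  ![z, ((e * v * Real.sqrt (1 + XX k1 l1 (‖z‖ ^ 2) s) : ℝ) : ℂ),
    ((e * Real.sqrt (dl k1 l1 (‖z‖ ^ 2)) * s : ℝ) : ℂ)]
/-- `r^j s^k` at that point -/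
noncomputable def mono (e k1 l1 : ℝ) (j k : ℕ) (z : ℂ) (v s : ℝ) : ℝ :=
  (e * v * Real.sqrt (1 + XX k1 l1 (‖z‖ ^ 2) s)) ^ j * (e * Real.sqrt (dl k1 l1 (‖z‖ ^ 2)) * s) ^ k

/-- fibre expectation -/
noncomputable def EE (k1 l1 : ℝ) (j k : ℕ) (t : ℝ) (H : ℝ → ℝ → ℝ) : ℝ :=
  (∫ v in Set.Ioo (0 : ℝ) 1, ∫ s in Set.Ioo (0 : ℝ) 1,
    H v s * (v ^ (2 * j + 1) * den k1 l1 j k t s)) * ((2 * j + 2) / Iw k1 l1 j k t)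
/-- complex fibre expectation -/
noncomputable def EC (k1 l1 : ℝ) (j k : ℕ) (t : ℝ) (H : ℝ → ℝ → ℂ) : ℂ :=
  (∫ v in Set.Ioo (0 : ℝ) 1, ∫ s in Set.Ioo (0 : ℝ) 1,
    H v s * ((v ^ (2 * j + 1) * den k1 l1 j k t s : ℝ) : ℂ)) *
      (((2 * j + 2) / Iw k1 l1 j k t : ℝ) : ℂ)

/-- coefficient functions `c̃` and `G_i` -/
noncomputable def cc (e k1 l1 : ℝ) (j k : ℕ) (F : E3 → ℂ) (z : ℂ) (v s : ℝ) : ℂ :=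
  F (Pt e k1 l1 z v s) / (mono e k1 l1 j k z v s : ℂ)

/-- parameter range -/
structure ParOK (e k1 l1 : ℝ) : Prop where
  he : 0 < e
  he1 : e ≤ 1
  hk : 0 < k1
  hk1 : k1 ≤ 1 / 100
  hl : 100 ≤ l1

/-- the disc over which `Ω` lies -/
def BB (k1 l1 : ℝ) : Set ℂ := {z | ‖z‖ ^ 2 < tB k1 l1}

end DbarN
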