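import Pool.Agent.H314.DN.Stmts2

set_option autoImplicit false

open MeasureTheory Complex Filter Topology
open scoped ContDiff InnerProductSpace ENNReal ComplexConjugate

namespace DbarN

/-! ### one-dimensional calculus -/

/-- pointwise inequalities -/
def PW_stmt : Prop := ∀ e k1 l1 : ℝ, ParOK e k1 l1 → ∀ t s : ℝ, 0 ≤ t → t < tB k1 l1 →
    0 < s → s < 1 →
    Yss k1 l1 t s < 0 ∧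
    (1 / 4) * (1 / el k1 l1 t s + t * Lm2 k1 l1 t / el k1 l1 t s ^ 2) ≤
      -Yt k1 l1 t s - t * Ytt k1 l1 t s - t * (Yts k1 l1 t s ^ 2 / (-Yss k1 l1 t s)) ∧
    t * (Yts k1 l1 t s ^ 2 / (-Yss k1 l1 t s)) ≤
      1 / el k1 l1 t s + t * Lm2 k1 l1 t / el k1 l1 t s ^ 2 ∧
    Xs k1 l1 t s ^ 2 ≤ (1 / 1000) * (-Yss k1 l1 t s) ∧
    t * Xt k1 l1 t s ^ 2 ≤ (1 / 10) * (1 / el k1 l1 t s + t * Lm2 k1 l1 t / el k1 l1 t s ^ 2)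

/-- one-dimensional Brascamp–Lieb inequality on `(0,1)` -/
def BL_stmt : Prop := ∀ (V V1 V2 : ℝ → ℝ) (g g1 : ℝ → ℂ),
    (∀ s ∈ Set.Ioo (0 : ℝ) 1, HasDerivAt V (V1 s) s) →
    (∀ s ∈ Set.Ioo (0 : ℝ) 1, HasDerivAt V1 (V2 s) s) →
    (∀ s ∈ Set.Ioo (0 : ℝ) 1, 0 < V2 s) → ContinuousOn V2 (Set.Ioo (0 : ℝ) 1) →
    IntegrableOn (fun s => Real.exp (-V s)) (Set.Ioo (0 : ℝ) 1) →
    (∀ s ∈ Set.Ioo (0 : ℝ) 1, HasDerivAt g (g1 s) s) → ContinuousOn g1 (Set.Ioo (0 : ℝ) 1) →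
    IntegrableOn (fun s => ‖g s‖ ^ 2 * Real.exp (-V s)) (Set.Ioo (0 : ℝ) 1) →
    IntegrableOn (fun s => ‖g1 s‖ ^ 2 / V2 s * Real.exp (-V s)) (Set.Ioo (0 : ℝ) 1) →
    ∫ s in Set.Ioo (0 : ℝ) 1, ‖g s - (∫ x in Set.Ioo (0 : ℝ) 1, g x * (Real.exp (-V x) : ℂ)) /
        ((∫ x in Set.Ioo (0 : ℝ) 1, Real.exp (-V x) : ℝ) : ℂ)‖ ^ 2 * Real.exp (-V s)
      ≤ ∫ s in Set.Ioo (0 : ℝ) 1, ‖g1 s‖ ^ 2 / V2 s * Real.exp (-V s)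

/-- variance of `Y_t` -/
def VarY_stmt : Prop := ∀ e k1 l1 : ℝ, ParOK e k1 l1 → ∀ (j k : ℕ) (t : ℝ), 0 ≤ t →
    t < tB k1 l1 →
    (j + 1) ^ 2 * t * (Es k1 l1 j k t (fun s => Yt k1 l1 t s ^ 2) -
        Es k1 l1 j k t (fun s => Yt k1 l1 t s) ^ 2) ≤
      (j + 1) * Es k1 l1 j k t (fun s => t * (Yts k1 l1 t s ^ 2 / (-Yss k1 l1 t s)))

/-- derivatives of `Ψ` -/
def PsiD_stmt : Prop := ∀ e k1 l1 : ℝ, ParOK e k1 l1 → ∀ (j k : ℕ),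
    (∀ t, -1 < t → t < tB k1 l1 → HasDerivAt (psi k1 l1 j k)
      ((k + 1) * Lm1 k1 l1 t - (j + 1) * Es k1 l1 j k t (fun s => Yt k1 l1 t s)) t) ∧
    (∀ t, -1 < t → t < tB k1 l1 → HasDerivAt
      (fun t => (k + 1) * Lm1 k1 l1 t - (j + 1) * Es k1 l1 j k t (fun s => Yt k1 l1 t s))
      ((k + 1) * Lm2 k1 l1 t - (j + 1) * Es k1 l1 j k t (fun s => Ytt k1 l1 t s) -
        (j + 1) ^ 2 * (Es k1 l1 j k t (fun s => Yt k1 l1 t s ^ 2) -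
          Es k1 l1 j k t (fun s => Yt k1 l1 t s) ^ 2)) t) ∧
    ContinuousOn (fun t => (k + 1) * Lm2 k1 l1 t - (j + 1) * Es k1 l1 j k t (fun s => Ytt k1 l1 t s) -
        (j + 1) ^ 2 * (Es k1 l1 j k t (fun s => Yt k1 l1 t s ^ 2) -
          Es k1 l1 j k t (fun s => Yt k1 l1 t s) ^ 2)) (Set.Ioo (-1) (tB k1 l1)) ∧
    ContinuousOn (mm k1 l1 j k) (Set.Ioo (-1) (tB k1 l1)) ∧
    (∀ t, -1 < t → t < tB k1 l1 → 0 < ww k1 l1 j k t)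

/-- summary for `Ψ` -/
def Psi_stmt : Prop := ∀ e k1 l1 : ℝ, ParOK e k1 l1 → ∀ (j k : ℕ), ∃ psi1 psi2 : ℝ → ℝ,
    (∀ t ∈ Set.Ioo (-1) (tB k1 l1), HasDerivAt (psi k1 l1 j k) (psi1 t) t) ∧
    (∀ t ∈ Set.Ioo (-1) (tB k1 l1), HasDerivAt psi1 (psi2 t) t) ∧
    ContinuousOn psi2 (Set.Ioo (-1) (tB k1 l1)) ∧
    ContinuousOn (mm k1 l1 j k) (Set.Ioo (-1) (tB k1 l1)) ∧
    (∀ t ∈ Set.Ico 0 (tB k1 l1), mm k1 l1 j k t / 4 ≤ psi1 t + t * psi2 t) ∧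
    (∀ t ∈ Set.Ioo (-1) (tB k1 l1), 0 < ww k1 l1 j k t)

/-- lower bounds for `mm` -/
def MB_stmt : Prop := ∀ C : ℝ, 1 ≤ C → ∀ e k1 l1 : ℝ, ParOK e k1 l1 →
    100 * (C + 1) * (lamStar + 1) ≤ l1 → k1 ≤ 1 / (1000 * (lamStar + 1)) →
    ∀ (j k : ℕ), ∃ y : ℝ, 0 < y ∧ y ≤ 1 / 10 ∧
      (∀ t ∈ Set.Ico 0 (tB k1 l1), t ≤ 1 + y → 32 * (lamStar + 1) * y ≤ mm k1 l1 j k t) ∧
      (∀ t ∈ Set.Ico 0 (tB k1 l1), 1 + y ≤ t → 16 * (lamStar + C / y ^ 2) ≤ mm k1 l1 j k t)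

/-! ### planar problem -/

/-- the inequality defining `lamStar` for `C²` functions -/
def LamC2_stmt : Prop := ∀ φ : ℂ → ℝ, ContDiff ℝ 2 φ → HasCompactSupport φ →
    tsupport φ ⊆ Metric.ball 0 1 →
    lamStar * ∫ z, φ z ^ 2 ≤ (1 / 4) * ∫ z, ((fderiv ℝ φ z 1) ^ 2 + (fderiv ℝ φ z I) ^ 2)

/-- `¼∫|∇φ|² + ∫ (m/16) φ² ≥ λ* ∫ φ²` -/
def Hplane_stmt : Prop := ∃ C : ℝ, 1 ≤ C ∧ ∀ (T y : ℝ) (m : ℝ → ℝ), 1 < T → 0 < y → y ≤ 1 / 10 →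
    ContinuousOn m (Set.Ico 0 T) →
    (∀ t ∈ Set.Ico 0 T, t ≤ 1 + y → 32 * (lamStar + 1) * y ≤ m t) →
    (∀ t ∈ Set.Ico 0 T, 1 + y ≤ t → 16 * (lamStar + C / y ^ 2) ≤ m t) →
    ∀ φ : ℂ → ℝ, ContDiff ℝ 2 φ → HasCompactSupport φ → tsupport φ ⊆ {z | ‖z‖ ^ 2 < T} →
      lamStar * ∫ z, φ z ^ 2 ≤
        (1 / 4) * (∫ z, ((fderiv ℝ φ z 1) ^ 2 + (fderiv ℝ φ z I) ^ 2)) +
          ∫ z, (m (‖z‖ ^ 2) / 16) * φ z ^ 2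

/-- derivative `∂/∂z` in one variable -/
noncomputable def dz1 (a : ℂ → ℂ) (z : ℂ) : ℂ := (1 / 2) * (fderiv ℝ a z 1 - I * fderiv ℝ a z I)

/-- the weighted a priori inequality -/
def Apl_stmt : Prop := ∀ (T : ℝ) (psi psi1 psi2 m : ℝ → ℝ), 0 < T →
    (∀ t ∈ Set.Ioo (-1) T, HasDerivAt psi (psi1 t) t) →
    (∀ t ∈ Set.Ioo (-1) T, HasDerivAt psi1 (psi2 t) t) →
    ContinuousOn psi2 (Set.Ioo (-1) T) → ContinuousOn m (Set.Ico 0 T) →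
    (∀ t ∈ Set.Ico 0 T, 0 ≤ m t) →
    (∀ t ∈ Set.Ico 0 T, m t / 4 ≤ psi1 t + t * psi2 t) →
    (∀ φ : ℂ → ℝ, ContDiff ℝ 2 φ → HasCompactSupport φ → tsupport φ ⊆ {z | ‖z‖ ^ 2 < T} →
      lamStar * ∫ z, φ z ^ 2 ≤
        (1 / 4) * (∫ z, ((fderiv ℝ φ z 1) ^ 2 + (fderiv ℝ φ z I) ^ 2)) +
          ∫ z, (m (‖z‖ ^ 2) / 16) * φ z ^ 2) →
    ∀ u : ℂ → ℂ, ContDiff ℝ 2 u → HasCompactSupport u → tsupport u ⊆ {z | ‖z‖ ^ 2 < T} →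
      ∫ z, (lamStar + m (‖z‖ ^ 2) / 16) * ‖u z‖ ^ 2 * Real.exp (-psi (‖z‖ ^ 2)) ≤
        ∫ z, ‖dz1 u z - ((psi1 (‖z‖ ^ 2) : ℝ) : ℂ) * conj z * u z‖ ^ 2 *
          Real.exp (-psi (‖z‖ ^ 2))

/-- solution of the planar weighted `∂̄` equation -/
def PL_stmt : Prop := ∃ C : ℝ, 1 ≤ C ∧ ∀ (T y : ℝ) (psi psi1 psi2 m : ℝ → ℝ), 1 < T → 0 < y →
    y ≤ 1 / 10 →
    (∀ t ∈ Set.Ioo (-1) T, HasDerivAt psi (psi1 t) t) →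
    (∀ t ∈ Set.Ioo (-1) T, HasDerivAt psi1 (psi2 t) t) →
    ContinuousOn psi2 (Set.Ioo (-1) T) → ContinuousOn m (Set.Ico 0 T) →
    (∀ t ∈ Set.Ico 0 T, m t / 4 ≤ psi1 t + t * psi2 t) →
    (∀ t ∈ Set.Ico 0 T, t ≤ 1 + y → 32 * (lamStar + 1) * y ≤ m t) →
    (∀ t ∈ Set.Ico 0 T, 1 + y ≤ t → 16 * (lamStar + C / y ^ 2) ≤ m t) →
    ∀ F0 : ℂ → ℂ, ContinuousOn F0 {z | ‖z‖ ^ 2 < T} →
      IntegrableOn (fun z => ‖F0 z‖ ^ 2 / (lamStar + m (‖z‖ ^ 2) / 16) *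
        Real.exp (-psi (‖z‖ ^ 2))) {z : ℂ | ‖z‖ ^ 2 < T} →
      ∃ b : ℂ → ℂ, AEStronglyMeasurable b (volume.restrict {z : ℂ | ‖z‖ ^ 2 < T}) ∧
        IntegrableOn (fun z => ‖b z‖ ^ 2 * Real.exp (-psi (‖z‖ ^ 2))) {z : ℂ | ‖z‖ ^ 2 < T} ∧
        ∫ z in {z : ℂ | ‖z‖ ^ 2 < T}, ‖b z‖ ^ 2 * Real.exp (-psi (‖z‖ ^ 2)) ≤
          ∫ z in {z : ℂ | ‖z‖ ^ 2 < T}, ‖F0 z‖ ^ 2 / (lamStar + m (‖z‖ ^ 2) / 16) *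
            Real.exp (-psi (‖z‖ ^ 2)) ∧
        ∀ φ : ℂ → ℂ, ContDiff ℝ ∞ φ → HasCompactSupport φ → tsupport φ ⊆ {z | ‖z‖ ^ 2 < T} →
          ∫ z in {z : ℂ | ‖z‖ ^ 2 < T}, b z * db1 φ z =
            - ∫ z in {z : ℂ | ‖z‖ ^ 2 < T}, F0 z * φ z

/-! ### fibre statements -/

/-- coefficient functions of the derivatives -/
noncomputable def GG (e k1 l1 : ℝ) (j k : ℕ) (F : E3 → ℂ) (i : Fin 3) (z : ℂ) (v s : ℝ) : ℂ :=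
  dbar i F (Pt e k1 l1 z v s) / (mono e k1 l1 j k z v s : ℂ)

/-- fibre average -/
noncomputable def aa (e k1 l1 : ℝ) (j k : ℕ) (F : E3 → ℂ) (z : ℂ) : ℂ :=
  EC k1 l1 j k (‖z‖ ^ 2) (cc e k1 l1 j k F z)

/-- integrability on the fibres and derivative of the average -/
def FibD_stmt : Prop := ∀ e k1 l1 : ℝ, ParOK e k1 l1 → ∀ (j k : ℕ) (F : E3 → ℂ),
    ContDiff ℝ ∞ F → IsModeFn j k F →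
    ContDiffOn ℝ 1 (aa e k1 l1 j k F) (BB k1 l1) ∧
    ∀ z ∈ BB k1 l1, db1 (aa e k1 l1 j k F) z = EC k1 l1 j k (‖z‖ ^ 2) (fun v s =>
      GG e k1 l1 j k F 0 z v s +
      2 * GG e k1 l1 j k F 1 z v s * (e * v * z * Xt k1 l1 (‖z‖ ^ 2) s /
        (2 * Real.sqrt (1 + XX k1 l1 (‖z‖ ^ 2) s) : ℝ)) -
      GG e k1 l1 j k F 2 z v s * (e * s * z * Real.sqrt (dl k1 l1 (‖z‖ ^ 2)) *
        Lm1 k1 l1 (‖z‖ ^ 2)) +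
      (j + 1) * z * (cc e k1 l1 j k F z v s - aa e k1 l1 j k F z) * Yt k1 l1 (‖z‖ ^ 2) s)

/-- summary of the fibre estimates -/
def Fib_stmt : Prop := ∀ e k1 l1 : ℝ, ParOK e k1 l1 → ∀ (j k : ℕ) (F : E3 → ℂ),
    ContDiff ℝ ∞ F → IsModeFn j k F →
    ContDiffOn ℝ 1 (aa e k1 l1 j k F) (BB k1 l1) ∧
    ∀ z ∈ BB k1 l1, ∃ p q : ℂ, db1 (aa e k1 l1 j k F) z = p + q ∧
      ‖p‖ ^ 2 ≤ EE k1 l1 j k (‖z‖ ^ 2) (fun v s => ‖GG e k1 l1 j k F 0 z v s‖ ^ 2) ∧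
      ‖q‖ ^ 2 ≤ 100 * e ^ 2 * mm k1 l1 j k (‖z‖ ^ 2) * EE k1 l1 j k (‖z‖ ^ 2)
        (fun v s => ‖GG e k1 l1 j k F 1 z v s‖ ^ 2 + ‖GG e k1 l1 j k F 2 z v s‖ ^ 2) ∧
      EE k1 l1 j k (‖z‖ ^ 2) (fun v s => ‖cc e k1 l1 j k F z v s - aa e k1 l1 j k F z‖ ^ 2) ≤
        100 * e ^ 2 * EE k1 l1 j k (‖z‖ ^ 2)
          (fun v s => ‖GG e k1 l1 j k F 1 z v s‖ ^ 2 + ‖GG e k1 l1 j k F 2 z v s‖ ^ 2)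

/-- integration over `Ω` in fibre coordinates -/
def Pol_stmt : Prop := ∀ e k1 l1 : ℝ, ParOK e k1 l1 → ∀ H : E3 → ℝ≥0∞, Measurable H →
    (∀ θ₁ θ₂ x, H (rot θ₁ θ₂ x) = H x) →
    ∫⁻ x in Omega e k1 l1, H x = ∫⁻ z in BB k1 l1, ∫⁻ v in Set.Ioo (0 : ℝ) 1,
      ∫⁻ s in Set.Ioo (0 : ℝ) 1, H (Pt e k1 l1 z v s) *
        ENNReal.ofReal (4 * Real.pi ^ 2 * e ^ 4 * v * (1 + XX k1 l1 (‖z‖ ^ 2) s) *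
          dl k1 l1 (‖z‖ ^ 2) * s)

/-! ### modes and main statements -/

/-- main inequality for one mode -/
def Mode_stmt (e k1 l1 : ℝ) (j k : ℤ) : Prop := ∃ lam' : ℝ, lamStar < lam' ∧ ∀ F : E3 → ℂ,
    ContDiff ℝ ∞ F → IsModeFn j k F → ∃ h : E3 → ℂ,
      MemLp h 2 (volume.restrict (Omega e k1 l1)) ∧
      (∀ (i : Fin 3) φ, IsTest (Omega e k1 l1) φ →
        ∫ x in Omega e k1 l1, h x * dbar i φ x = 0) ∧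
      lam' * ∫ x in Omega e k1 l1, ‖F x - h x‖ ^ 2 ≤
        ∑ i, ∫ x in Omega e k1 l1, ‖dbar i F x‖ ^ 2

/-- reduction of an eigenfunction to a mode -/
def Modes_stmt : Prop := ∀ Ω : Set E3, IsOpen Ω →
    (∀ θ₁ θ₂ x, rot θ₁ θ₂ x ∈ Ω ↔ x ∈ Ω) →
    ∀ (f : L2 Ω) (g : Form Ω) (lam : ℝ), IsDbar0 Ω f g → IsAdj0 Ω g ((lam : ℂ) • f) → f ≠ 0 →
    ∃ (j k : ℤ) (f' : L2 Ω) (g' : Form Ω), IsDbar0 Ω f' g' ∧ IsAdj0 Ω g' ((lam : ℂ) • f') ∧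
      f' ≠ 0 ∧ ∀ θ₁ θ₂ : ℝ, ∀ᵐ x ∂(volume.restrict Ω),
        f' (rot θ₁ θ₂ x) = Complex.exp (I * (j * θ₁ + k * θ₂)) * f' x

/-- no eigenvalue of `∂̄*∂̄` on functions in `(0, lamStar]` -/
def NoEig_stmt (e k1 l1 : ℝ) : Prop := ∀ (f : L2 (Omega e k1 l1)) (g : Form (Omega e k1 l1))
    (lam : ℝ), 0 < lam → lam ≤ lamStar → f ≠ 0 → IsDbar0 (Omega e k1 l1) f g →
    ¬ IsAdj0 (Omega e k1 l1) g ((lam : ℂ) • f)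

/-- the bound `m' > lamStar` fails -/
def Test_stmt : Prop := ∀ e k1 l1 : ℝ, ParOK e k1 l1 → ∀ m' : ℝ, lamStar < m' →
    ¬ ∀ g : Form (Omega e k1 l1), IsDbar1 (Omega e k1 l1) g 0 →
      ∃ f : L2 (Omega e k1 l1), IsDbar0 (Omega e k1 l1) f g ∧ m' * ‖f‖ ^ 2 ≤ ‖g‖ ^ 2

end DbarN
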