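import Pool.Agent.H314.DN.Stmts3

set_option autoImplicit false

open MeasureTheory Complex Filter Topology
open scoped ContDiff InnerProductSpace ENNReal ComplexConjugate

namespace DbarN

/-- explicit description of the domain -/
def Mem_stmt : Prop := ∀ e k1 l1 : ℝ, ParOK e k1 l1 → ∀ x : E3, x ∈ Omega e k1 l1 ↔
    ‖x 0‖ ^ 2 < tB k1 l1 ∧ ‖x 2‖ ^ 2 < e ^ 2 * dl k1 l1 (‖x 0‖ ^ 2) ∧
    ‖x 1‖ ^ 2 < e ^ 2 * (1 + XX k1 l1 (‖x 0‖ ^ 2)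
      (‖x 2‖ / (e * Real.sqrt (dl k1 l1 (‖x 0‖ ^ 2)))))

/-- elementary properties of the domain -/
def Dom_stmt : Prop := ∀ e k1 l1 : ℝ, ParOK e k1 l1 →
    IsOpen (Omega e k1 l1) ∧ (0 : E3) ∈ Omega e k1 l1 ∧
    Bornology.IsBounded (Omega e k1 l1) ∧
    (∀ θ₁ θ₂ x, rot θ₁ θ₂ x ∈ Omega e k1 l1 ↔ x ∈ Omega e k1 l1) ∧
    (∀ x ∈ Omega e k1 l1, ‖x 1‖ ^ 2 + ‖x 2‖ ^ 2 ≤ (2 * e) ^ 2) ∧
    (∀ x : E3, ‖x 0‖ < 1 → ‖x 1‖ < e → ‖x 2‖ < e → x ∈ Omega e k1 l1)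

/-- upper bound in the test computation -/
def TS2_stmt : Prop := ∀ e k1 l1 : ℝ, ParOK e k1 l1 → ∀ η : ℝ, 0 < η → ∃ K : ℕ, ∀ k : ℕ, K ≤ k →
    ∀ U : ℂ → ℝ, Continuous U → tsupport U ⊆ Metric.ball 0 1 →
    ∫ x in Omega e k1 l1, U (x 0) ^ 2 * ‖x 2‖ ^ (2 * k) ≤
      (1 + η) * (∫ z, U z ^ 2) * (Real.pi ^ 2 * e ^ (2 * k + 4) / (k + 1))

/-- lower bound in the test computation -/
def TS3_stmt : Prop := ∀ e k1 l1 : ℝ, ParOK e k1 l1 → ∀ k : ℕ,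
    ∀ U : ℂ → ℝ, ContDiff ℝ ∞ U → HasCompactSupport U → tsupport U ⊆ Metric.ball 0 1 →
    ∀ (f : L2 (Omega e k1 l1)) (g : Form (Omega e k1 l1)), IsDbar0 (Omega e k1 l1) f g →
    (∀ᵐ x ∂(volume.restrict (Omega e k1 l1)), g 0 x = (U (x 0) : ℂ) * x 2 ^ k) →
    (∫ z, U z ^ 2) ^ 2 * (Real.pi ^ 2 * e ^ (2 * k + 4) / (k + 1)) ≤
      ‖f‖ ^ 2 * ((1 / 4) * ∫ z, ((fderiv ℝ U z 1) ^ 2 + (fderiv ℝ U z I) ^ 2))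

/-- one-dimensional Hardy inequality for negative modes -/
def Neg1_stmt : Prop := ∀ (j : ℤ), j < 0 → ∀ f : ℂ → ℂ, ContDiff ℝ ∞ f →
    (∀ (θ : ℝ) (w : ℂ), f (Complex.exp (θ * I) * w) = Complex.exp (I * (j * θ)) * f w) →
    ∀ R : ℝ, 0 < R → ∫ w in Metric.ball (0 : ℂ) R, ‖f w‖ ^ 2 ≤
      R ^ 2 * ∫ w in Metric.ball (0 : ℂ) R, ‖db1 f w‖ ^ 2

/-- the planar statement for a given constant -/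
def PLC (C : ℝ) : Prop := ∀ (T y : ℝ) (psi psi1 psi2 m : ℝ → ℝ), 1 < T → 0 < y →
    y ≤ 1 / 10 →
    (∀ t ∈ Set.Ioo (-1) T, HasDerivAt psi (psi1 t) t) →
    (∀ t ∈ Set.Ioo (-1) T, HasDerivAt psi1 (psi2 t) t) →
    ContinuousOn psi2 (Set.Ioo (-1) T) → ContinuousOn m (Set.Ico 0 T) →
    (∀ t ∈ Set.Ico 0 T, m t / 4 ≤ psi1 t + t * psi2 t) →
    (∀ t ∈ Set.Ico 0 T, t ≤ 1 + y → 32 * (lamStar + 1) * y ≤ m t) →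
    (∀ t ∈ Set.Ico 0 T, 1 + y ≤ t → 16 * (lamStar + C / y ^ 2) ≤ m t) →
    ∀ F0 : ℂ → ℂ, ContinuousOn F0 {z | ‖z‖ ^ 2 < T} →
      IntegrableOn (fun z => ‖F0 z‖ ^ 2 / (lamStar + m (‖z‖ ^ 2) / 16) *
        Real.exp (-psi (‖z‖ ^ 2))) {z : ℂ | ‖z‖ ^ 2 < T} →
      ∃ b : ℂ → ℂ, AEStronglyMeasurable b (volume.restrict {z : ℂ | ‖z‖ ^ 2 < T}) ∧
        IntegrableOn (fun z => ‖b z‖ ^ 2 * Real.exp (-psi (‖z‖ ^ 2))) {z : ℂ | ‖z‖ ^ 2 < T} ∧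
        ∫ z in {z : ℂ | ‖z‖ ^ 2 < T}, ‖b z‖ ^ 2 * Real.exp (-psi (‖z‖ ^ 2)) ≤
          ∫ z in {z : ℂ | ‖z‖ ^ 2 < T}, ‖F0 z‖ ^ 2 / (lamStar + m (‖z‖ ^ 2) / 16) *
            Real.exp (-psi (‖z‖ ^ 2)) ∧
        ∀ φ : ℂ → ℂ, ContDiff ℝ ∞ φ → HasCompactSupport φ → tsupport φ ⊆ {z | ‖z‖ ^ 2 < T} →
          ∫ z in {z : ℂ | ‖z‖ ^ 2 < T}, b z * db1 φ z =
            - ∫ z in {z : ℂ | ‖z‖ ^ 2 < T}, F0 z * φ z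

theorem PL_iff : PL_stmt ↔ ∃ C : ℝ, 1 ≤ C ∧ PLC C := Iff.rfl

end DbarN
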