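import Pool.Agent.H314.DN.Defs

set_option autoImplicit false

open MeasureTheory Complex
open scoped ContDiff InnerProductSpace ENNReal ComplexConjugate

namespace DbarN

/-- a real function viewed as complex -/
def Ph (Φ : E3 → ℝ) : E3 → ℂ := fun x => (Φ x : ℂ)

/-- `A_j = ∂̄_j + ½ Φ_{\bar j}` (the operator `e^{-Φ/2} ∂̄_j e^{Φ/2}`) -/
noncomputable def AA (Φ : E3 → ℝ) (j : Fin 3) (v : E3 → ℂ) (x : E3) : ℂ :=
  dbar j v x + (1 / 2) * dbar j (Ph Φ) x * v x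

/-- formal adjoint `A_j^* = -∂_j + ½ Φ_j` -/
noncomputable def AS (Φ : E3 → ℝ) (j : Fin 3) (v : E3 → ℂ) (x : E3) : ℂ :=
  - dz j v x + (1 / 2) * dz j (Ph Φ) x * v x

/-- formal transpose `A_j^t = -∂̄_j + ½ Φ_{\bar j}` -/
noncomputable def AT' (Φ : E3 → ℝ) (j : Fin 3) (v : E3 → ℂ) (x : E3) : ℂ :=
  - dbar j v x + (1 / 2) * dbar j (Ph Φ) x * v x

/-- complex Hessian `Φ_{j \bar k}` -/
noncomputable def Hess (Φ : E3 → ℝ) (j k : Fin 3) (x : E3) : ℂ :=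
  dz j (dbar k (Ph Φ)) x

/-- a general first order operator on triples: `Σ_i (Σ_j α i j ∂̄_j + β i j ∂_j + z i) u_i` -/
noncomputable def PP (α β : Fin 3 → Fin 3 → ℂ) (z : Fin 3 → E3 → ℂ) (u : Fin 3 → E3 → ℂ)
    (x : E3) : ℂ :=
  ∑ i, ((∑ j, (α i j * dbar j (u i) x + β i j * dz j (u i) x)) + z i x * u i x)

/-- weak form of `PP α β z u = f` on `ℂ³` -/
def WPP (α β : Fin 3 → Fin 3 → ℂ) (z : Fin 3 → E3 → ℂ) (u : Fin 3 → E3 → ℂ) (f : E3 → ℂ) : Prop :=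
  ∀ φ : E3 → ℂ, IsTest Set.univ φ →
    ∫ x, ∑ i, u i x * (-(∑ j, (α i j * dbar j φ x + β i j * dz j φ x)) + z i x * φ x)
      = ∫ x, f x * φ x

end DbarN
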